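import Mathlib

/-!
# Module C2Count: solutions of `k n' - k' n = l`

Sketch. Fix `k, k' ≠ 0` with `|k|, |k'| ≤ R`, `g = gcd(k,k')`. Given `n`, `n'` is determined (`k ≠ 0`) and `n` must satisfy
`k' n ≡ -l mod |k|`: if `g ∣ l` this is one class modulo `|k|/g`, otherwise there is none. An interval with `31 M` integers
(`n ∈ Ioc M (32 M)`) contains at most `31 M g/|k| + 1` elements of a class modulo `|k|/g`. By symmetry also at most
`31 M g/|k'| + 1` pairs. So the number of pairs `(n, n')` is `≤ 31 M g / max(|k|,|k'|) + 1`.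
Sum over `k, k'` (four sign choices): `4 ∑_{k,k'=1}^R (31 M gcd(k,k')/max(k,k') + 1)`, and
`gcd/max ≤ [k' ≤ k] gcd/k + [k ≤ k'] gcd/k'`, `∑_{k' ≤ k} gcd(k,k') ≤ ∑_{d ∣ k} d (k/d) = k d(k)`, and
`∑_{k ≤ R} d(k) = ∑_{d ≤ R} ⌊R/d⌋ ≤ R (1 + log R)` (`harmonic_le_one_add_log`). Total `248 M R (1 + log R) + 4 R^2`.
-/

set_option autoImplicit false

open Finset

namespace Pool.Agent.VM

namespace C2CountAux

/-- a set of natural numbers in an interval of length `N`, congruent modulo `q` -/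
theorem card_class (M N q : ℕ) (hq : 1 ≤ q) (T : Finset ℕ) (hT : ∀ n ∈ T, M < n ∧ n ≤ M + N)
    (hc : ∀ n ∈ T, ∀ n' ∈ T, (q : ℤ) ∣ (n' : ℤ) - n) : (T.card : ℝ) ≤ (N : ℝ) / q + 1 := by
  have h1 : T.card ≤ (Finset.range (N / q + 1)).card := by
    refine Finset.card_le_card_of_injOn (fun n => (n - M - 1) / q) (fun n hn => ?_) ?_
    · have := hT n hn
      rw [Finset.mem_coe, Finset.mem_range, Nat.lt_succ_iff]
      exact Nat.div_le_div_right (by omega)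
    · intro n hn n' hn' h
      have h2 := hT n hn
      have h3 := hT n' hn'
      have h4 : (n - M - 1) ≡ (n' - M - 1) [MOD q] := by
        rw [Nat.modEq_iff_dvd]
        have h5 : ((n' - M - 1 : ℕ) : ℤ) - ((n - M - 1 : ℕ) : ℤ) = (n' : ℤ) - n := by omega
        rw [h5]
        exact hc n hn n' hn'
      have h6 : (n - M - 1) / q = (n' - M - 1) / q := h
      have h7 : (n - M - 1) % q = (n' - M - 1) % q := h4
      have h8 : n - M - 1 = n' - M - 1 := by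
        rw [← Nat.div_add_mod (n - M - 1) q, ← Nat.div_add_mod (n' - M - 1) q, h6, h7]
      omega
  rw [Finset.card_range] at h1
  have h2 : (T.card : ℝ) ≤ ((N / q + 1 : ℕ) : ℝ) := by exact_mod_cast h1
  refine h2.trans ?_
  push_cast
  have h3 : ((N / q : ℕ) : ℝ) ≤ (N : ℝ) / q := Nat.cast_div_le
  linarith

/-- the number of pairs, first form -/
theorem card_pairs (M : ℕ) (k k' l : ℤ) (hk : k ≠ 0) :
    (((Ioc M (32 * M) ×ˢ Ioc M (32 * M)).filter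
      (fun z : ℕ × ℕ => k * (z.2 : ℤ) - k' * (z.1 : ℤ) = l)).card : ℝ) ≤
      31 * M * (Int.gcd k k' : ℝ) / (k.natAbs : ℝ) + 1 := by
  set S := (Ioc M (32 * M) ×ˢ Ioc M (32 * M)).filter
      (fun z : ℕ × ℕ => k * (z.2 : ℤ) - k' * (z.1 : ℤ) = l) with hS
  have hg : 0 < Int.gcd k k' := Int.gcd_pos_of_ne_zero_left _ hk
  obtain ⟨a, b, hab, hka, hkb⟩ := Int.exists_gcd_one hg
  have hmem : ∀ z ∈ S, (M < z.1 ∧ z.1 ≤ 32 * M) ∧ k * (z.2 : ℤ) - k' * (z.1 : ℤ) = l := by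
    intro z hz
    rw [hS, Finset.mem_filter, Finset.mem_product, Finset.mem_Ioc, Finset.mem_Ioc] at hz
    exact ⟨hz.1.1, hz.2⟩
  have hinj : Set.InjOn (fun z : ℕ × ℕ => z.1) S := by
    intro z hz w hw h
    have h1 := (hmem z hz).2
    have h2 := (hmem w hw).2
    have h3 : z.1 = w.1 := h
    rw [h3] at h1
    have h4 : k * (z.2 : ℤ) = k * (w.2 : ℤ) := by linarith only [h1, h2]
    have h5 : (z.2 : ℤ) = w.2 := mul_left_cancel₀ hk h4
    exact Prod.ext h3 (by exact_mod_cast h5)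
  have ha : a ≠ 0 := by
    intro h
    rw [h, zero_mul] at hka
    exact hk hka
  have hcard : (S.image fun z => z.1).card = S.card := Finset.card_image_of_injOn hinj
  have h1 := card_class M (31 * M) a.natAbs (Int.natAbs_pos.2 ha) (S.image fun z => z.1)
    (fun n hn => by
      obtain ⟨z, hz, rfl⟩ := Finset.mem_image.1 hn
      have := (hmem z hz).1
      omega)
    (fun n hn n' hn' => by
      obtain ⟨z, hz, rfl⟩ := Finset.mem_image.1 hn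
      obtain ⟨w, hw, rfl⟩ := Finset.mem_image.1 hn'
      rw [Int.natAbs_dvd]
      have h2 := (hmem z hz).2
      have h3 := (hmem w hw).2
      have h4 : (Int.gcd k k' : ℤ) * (a * ((w.2 : ℤ) - z.2)) =
          (Int.gcd k k' : ℤ) * (b * ((w.1 : ℤ) - z.1)) := by
        have h5 : k * ((w.2 : ℤ) - z.2) = k' * ((w.1 : ℤ) - z.1) := by linarith only [h2, h3]
        calc (Int.gcd k k' : ℤ) * (a * ((w.2 : ℤ) - z.2)) =
              (a * (Int.gcd k k' : ℤ)) * ((w.2 : ℤ) - z.2) := by ring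
          _ = (b * (Int.gcd k k' : ℤ)) * ((w.1 : ℤ) - z.1) := by rw [← hka, ← hkb, h5]
          _ = _ := by ring
      have h6 : a * ((w.2 : ℤ) - z.2) = b * ((w.1 : ℤ) - z.1) :=
        mul_left_cancel₀ (by exact_mod_cast hg.ne') h4
      have h7 : a ∣ b * ((w.1 : ℤ) - z.1) := ⟨_, h6.symm⟩
      exact (Int.isCoprime_iff_gcd_eq_one.2 hab).dvd_of_dvd_mul_left h7)
  rw [hcard] at h1
  refine h1.trans (le_of_eq ?_)
  have hk2 : (k.natAbs : ℝ) = (a.natAbs : ℝ) * (Int.gcd k k' : ℝ) := by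
    conv_lhs => rw [hka]
    rw [Int.natAbs_mul, Int.natAbs_natCast]
    push_cast
    ring
  have ha' : (a.natAbs : ℝ) ≠ 0 := by
    have := Int.natAbs_pos.2 ha
    positivity
  have hg' : (Int.gcd k k' : ℝ) ≠ 0 := by positivity
  rw [hk2]
  push_cast
  field_simp

theorem card_pairs_symm (M : ℕ) (k k' l : ℤ) :
    ((Ioc M (32 * M) ×ˢ Ioc M (32 * M)).filter
      (fun z : ℕ × ℕ => k * (z.2 : ℤ) - k' * (z.1 : ℤ) = l)).card =
    ((Ioc M (32 * M) ×ˢ Ioc M (32 * M)).filter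
      (fun z : ℕ × ℕ => k' * (z.2 : ℤ) - k * (z.1 : ℤ) = -l)).card := by
  refine Finset.card_bij' (fun z _ => z.swap) (fun z _ => z.swap) ?_ ?_ ?_ ?_
  · intro z hz
    rw [Finset.mem_filter, Finset.mem_product] at hz ⊢
    refine ⟨⟨hz.1.2, hz.1.1⟩, ?_⟩
    show k' * (z.1 : ℤ) - k * (z.2 : ℤ) = -l
    linarith [hz.2]
  · intro z hz
    rw [Finset.mem_filter, Finset.mem_product] at hz ⊢
    refine ⟨⟨hz.1.2, hz.1.1⟩, ?_⟩
    show k * (z.1 : ℤ) - k' * (z.2 : ℤ) = l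
    linarith [hz.2]
  · intro z _
    exact Prod.swap_swap z
  · intro z _
    exact Prod.swap_swap z

/-- the number of pairs -/
theorem card_pairs_max (M : ℕ) (k k' l : ℤ) (hk : k ≠ 0) (hk' : k' ≠ 0) :
    (((Ioc M (32 * M) ×ˢ Ioc M (32 * M)).filter
      (fun z : ℕ × ℕ => k * (z.2 : ℤ) - k' * (z.1 : ℤ) = l)).card : ℝ) ≤
      31 * M * ((Nat.gcd k.natAbs k'.natAbs : ℝ) /
        ((max k.natAbs k'.natAbs : ℕ) : ℝ)) + 1 := by
  rcases le_total k.natAbs k'.natAbs with h | h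
  · rw [card_pairs_symm, max_eq_right h]
    refine (card_pairs M k' k (-l) hk').trans (le_of_eq ?_)
    have h1 : (Int.gcd k' k : ℝ) = (Nat.gcd k.natAbs k'.natAbs : ℝ) := by
      rw [Int.gcd_comm]
      rfl
    rw [h1]
    ring
  · rw [max_eq_left h]
    refine (card_pairs M k k' l hk).trans (le_of_eq ?_)
    have h1 : (Int.gcd k k' : ℝ) = (Nat.gcd k.natAbs k'.natAbs : ℝ) := rfl
    rw [h1]
    ring

/-- `∑_{k' ≤ k} gcd(k,k') ≤ k d(k)` -/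
theorem sum_gcd_le (k : ℕ) (hk : 1 ≤ k) :
    ∑ j ∈ Ioc 0 k, Nat.gcd k j ≤ k * k.divisors.card := by
  have h1 : ∀ j ∈ Ioc 0 k, Nat.gcd k j ≤ ∑ d ∈ k.divisors, if d ∣ j then d else 0 := by
    intro j _
    have h2 : (if Nat.gcd k j ∣ j then Nat.gcd k j else 0) = Nat.gcd k j :=
      if_pos (Nat.gcd_dvd_right k j)
    have h3 := Finset.single_le_sum (s := k.divisors) (f := fun d => if d ∣ j then d else 0)
      (fun _ _ => Nat.zero_le _)
      (Nat.mem_divisors.2 ⟨Nat.gcd_dvd_left k j, by omega⟩ : Nat.gcd k j ∈ k.divisors)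
    rw [h2] at h3
    exact h3
  refine (Finset.sum_le_sum h1).trans ?_
  rw [Finset.sum_comm]
  have h2 : ∀ d ∈ k.divisors, ∑ j ∈ Ioc 0 k, (if d ∣ j then d else 0) = k := by
    intro d hd
    rw [← Finset.sum_filter, Finset.sum_const, Nat.Ioc_filter_dvd_card_eq_div, smul_eq_mul]
    exact Nat.div_mul_cancel (Nat.dvd_of_mem_divisors hd)
  rw [Finset.sum_congr rfl h2, Finset.sum_const, smul_eq_mul, mul_comm]

theorem sum_div_le (R : ℕ) (hR : 1 ≤ R) :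
    ∑ k ∈ Ioc 0 R, (k.divisors.card : ℝ) ≤ R * (1 + Real.log R) := by
  have h1 : ∑ k ∈ Ioc 0 R, k.divisors.card = ∑ d ∈ Ioc 0 R, R / d := by
    have h2 : ∀ k ∈ Ioc 0 R, k.divisors.card = ∑ d ∈ Ioc 0 R, if d ∣ k then 1 else 0 := by
      intro k hk
      rw [Finset.mem_Ioc] at hk
      rw [← Finset.sum_filter, Finset.sum_const, smul_eq_mul, mul_one]
      congr 1
      ext d
      rw [Nat.mem_divisors, Finset.mem_filter, Finset.mem_Ioc]
      constructor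
      · rintro ⟨h, _⟩
        exact ⟨⟨Nat.pos_of_dvd_of_pos h hk.1, (Nat.le_of_dvd hk.1 h).trans hk.2⟩, h⟩
      · rintro ⟨_, h⟩
        exact ⟨h, by omega⟩
    rw [Finset.sum_congr rfl h2, Finset.sum_comm]
    refine Finset.sum_congr rfl fun d _ => ?_
    rw [← Finset.sum_filter, Finset.sum_const, smul_eq_mul, mul_one,
      Nat.Ioc_filter_dvd_card_eq_div]
  have h2 : ∑ k ∈ Ioc 0 R, (k.divisors.card : ℝ) = ((∑ k ∈ Ioc 0 R, k.divisors.card : ℕ) : ℝ) := by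
    push_cast
    rfl
  rw [h2, h1]
  push_cast
  have h3 : ∀ d ∈ Ioc 0 R, ((R / d : ℕ) : ℝ) ≤ R * ((d : ℝ))⁻¹ := by
    intro d _
    rw [← div_eq_mul_inv]
    exact Nat.cast_div_le
  refine (Finset.sum_le_sum h3).trans ?_
  rw [← Finset.mul_sum]
  refine mul_le_mul_of_nonneg_left ?_ (Nat.cast_nonneg R)
  have h4 := harmonic_le_one_add_log R
  refine le_trans (le_of_eq ?_) h4
  rw [harmonic_eq_sum_Icc]
  push_cast
  rfl

/-- `∑ gcd/max` -/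
theorem sum_gcd_max (R : ℕ) (hR : 1 ≤ R) :
    ∑ i ∈ Ioc 0 R, ∑ j ∈ Ioc 0 R, ((Nat.gcd i j : ℝ) / ((max i j : ℕ) : ℝ)) ≤
      2 * (R * (1 + Real.log R)) := by
  have h1 : ∀ i ∈ Ioc 0 R, ∀ j ∈ Ioc 0 R, ((Nat.gcd i j : ℝ) / ((max i j : ℕ) : ℝ)) ≤
      (if j ≤ i then (Nat.gcd i j : ℝ) / i else 0) + if i ≤ j then (Nat.gcd j i : ℝ) / j else 0 := by
    intro i _ j _
    rcases le_total i j with h | h
    · rw [max_eq_right h, if_pos h, Nat.gcd_comm i j]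
      have : (0 : ℝ) ≤ (if j ≤ i then (Nat.gcd j i : ℝ) / i else 0) := by
        split_ifs <;> positivity
      linarith
    · rw [max_eq_left h, if_pos h]
      have : (0 : ℝ) ≤ (if i ≤ j then (Nat.gcd j i : ℝ) / j else 0) := by
        split_ifs <;> positivity
      linarith
  have h2 : ∀ i ∈ Ioc 0 R, ∑ j ∈ Ioc 0 R, (if j ≤ i then (Nat.gcd i j : ℝ) / i else 0) ≤
      (i.divisors.card : ℝ) := by
    intro i hi
    rw [Finset.mem_Ioc] at hi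
    have hi0 : (0 : ℝ) < i := by exact_mod_cast hi.1
    rw [← Finset.sum_filter]
    have h3 : (Ioc 0 R).filter (fun j => j ≤ i) = Ioc 0 i := by
      ext j
      rw [Finset.mem_filter, Finset.mem_Ioc, Finset.mem_Ioc]
      omega
    rw [h3, ← Finset.sum_div, div_le_iff₀ hi0]
    have h4 := sum_gcd_le i hi.1
    have h5 : ((∑ j ∈ Ioc 0 i, Nat.gcd i j : ℕ) : ℝ) ≤ ((i * i.divisors.card : ℕ) : ℝ) := by
      exact_mod_cast h4
    push_cast at h5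
    linarith
  have h6 : ∑ i ∈ Ioc 0 R, ∑ j ∈ Ioc 0 R, ((Nat.gcd i j : ℝ) / ((max i j : ℕ) : ℝ)) ≤
      ∑ i ∈ Ioc 0 R, ∑ j ∈ Ioc 0 R, ((if j ≤ i then (Nat.gcd i j : ℝ) / i else 0) +
        if i ≤ j then (Nat.gcd j i : ℝ) / j else 0) :=
    Finset.sum_le_sum fun i hi => Finset.sum_le_sum fun j hj => h1 i hi j hj
  refine h6.trans ?_
  simp only [Finset.sum_add_distrib]
  have h7 : ∑ i ∈ Ioc 0 R, ∑ j ∈ Ioc 0 R, (if i ≤ j then (Nat.gcd j i : ℝ) / j else 0) =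
      ∑ i ∈ Ioc 0 R, ∑ j ∈ Ioc 0 R, (if j ≤ i then (Nat.gcd i j : ℝ) / i else 0) := by
    rw [Finset.sum_comm]
  rw [h7]
  have h8 := (Finset.sum_le_sum h2).trans (sum_div_le R hR)
  linarith

/-- sums over the integers `0 < |k| ≤ R` -/
theorem sum_sign (R : ℕ) (f : ℕ → ℝ) (hf : ∀ j, 0 ≤ f j) :
    ∑ k ∈ (Icc (-(R : ℤ)) R).filter (fun k => k ≠ 0), f k.natAbs ≤ 2 * ∑ j ∈ Ioc 0 R, f j := by
  have h1 : (Icc (-(R : ℤ)) R).filter (fun k => k ≠ 0) ⊆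
      (Ioc 0 R).image (fun j : ℕ => (j : ℤ)) ∪ (Ioc 0 R).image (fun j : ℕ => -(j : ℤ)) := by
    intro k hk
    rw [Finset.mem_filter, Finset.mem_Icc] at hk
    rw [Finset.mem_union, Finset.mem_image, Finset.mem_image]
    rcases lt_or_gt_of_ne hk.2 with h | h
    · right
      exact ⟨k.natAbs, by rw [Finset.mem_Ioc]; omega, by omega⟩
    · left
      exact ⟨k.natAbs, by rw [Finset.mem_Ioc]; omega, by omega⟩
  refine (Finset.sum_le_sum_of_subset_of_nonneg h1 fun k _ _ => hf _).trans ?_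
  have h2 : ∀ s t : Finset ℤ, ∑ k ∈ s ∪ t, f k.natAbs ≤
      ∑ k ∈ s, f k.natAbs + ∑ k ∈ t, f k.natAbs := by
    intro s t
    have := Finset.sum_union_inter (s₁ := s) (s₂ := t) (f := fun k => f k.natAbs)
    have h3 : 0 ≤ ∑ k ∈ s ∩ t, f k.natAbs := Finset.sum_nonneg fun _ _ => hf _
    linarith
  refine (h2 _ _).trans ?_
  rw [Finset.sum_image (fun x _ y _ h => by exact_mod_cast h),
    Finset.sum_image (fun x _ y _ h => by
      have h' : -(x : ℤ) = -(y : ℤ) := h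
      have h'' : (x : ℤ) = y := neg_injective h'
      exact_mod_cast h'')]
  simp only [Int.natAbs_natCast, Int.natAbs_neg]
  linarith

end C2CountAux

open C2CountAux

theorem c2_count (M R : ℕ) (hM : 1 ≤ M) (hR : 1 ≤ R) (l : ℤ) :
    ((((Icc (-(R : ℤ)) R ×ˢ Icc (-(R : ℤ)) R) ×ˢ (Ioc M (32 * M) ×ˢ Ioc M (32 * M))).filter
      (fun z => z.1.1 ≠ 0 ∧ z.1.2 ≠ 0 ∧ z.1.1 * (z.2.2 : ℤ) - z.1.2 * (z.2.1 : ℤ) = l)).card : ℝ) ≤
      248 * M * R * (1 + Real.log R) + 4 * (R : ℝ) ^ 2 := by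
  set K := (Icc (-(R : ℤ)) R).filter (fun k => k ≠ 0) with hK
  set P := Ioc M (32 * M) ×ˢ Ioc M (32 * M) with hP
  have h1 : (((Icc (-(R : ℤ)) R ×ˢ Icc (-(R : ℤ)) R) ×ˢ P).filter
      (fun z => z.1.1 ≠ 0 ∧ z.1.2 ≠ 0 ∧ z.1.1 * (z.2.2 : ℤ) - z.1.2 * (z.2.1 : ℤ) = l)) ⊆
      (K ×ˢ K).biUnion fun kk => (P.filter
        (fun z : ℕ × ℕ => kk.1 * (z.2 : ℤ) - kk.2 * (z.1 : ℤ) = l)).image fun z => (kk, z) := by
    intro z hz
    rw [Finset.mem_filter, Finset.mem_product, Finset.mem_product] at hz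
    rw [Finset.mem_biUnion]
    refine ⟨z.1, ?_, ?_⟩
    · rw [Finset.mem_product, hK, Finset.mem_filter, Finset.mem_filter]
      exact ⟨⟨hz.1.1.1, hz.2.1⟩, hz.1.1.2, hz.2.2.1⟩
    · rw [Finset.mem_image]
      exact ⟨z.2, Finset.mem_filter.2 ⟨hz.1.2, hz.2.2.2⟩, rfl⟩
  have h2 : ((((Icc (-(R : ℤ)) R ×ˢ Icc (-(R : ℤ)) R) ×ˢ P).filter
      (fun z => z.1.1 ≠ 0 ∧ z.1.2 ≠ 0 ∧ z.1.1 * (z.2.2 : ℤ) - z.1.2 * (z.2.1 : ℤ) = l)).card : ℝ) ≤
      ∑ kk ∈ K ×ˢ K, (((P.filter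
        (fun z : ℕ × ℕ => kk.1 * (z.2 : ℤ) - kk.2 * (z.1 : ℤ) = l)).card : ℕ) : ℝ) := by
    have h3 := (Finset.card_le_card h1).trans Finset.card_biUnion_le
    have h4 : (((Icc (-(R : ℤ)) R ×ˢ Icc (-(R : ℤ)) R) ×ˢ P).filter
      (fun z => z.1.1 ≠ 0 ∧ z.1.2 ≠ 0 ∧ z.1.1 * (z.2.2 : ℤ) - z.1.2 * (z.2.1 : ℤ) = l)).card ≤
      ∑ kk ∈ K ×ˢ K, (P.filter
        (fun z : ℕ × ℕ => kk.1 * (z.2 : ℤ) - kk.2 * (z.1 : ℤ) = l)).card :=
      h3.trans (Finset.sum_le_sum fun kk _ => Finset.card_image_le)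
    exact_mod_cast h4
  refine h2.trans ?_
  have h3 : ∀ kk ∈ K ×ˢ K, (((P.filter
        (fun z : ℕ × ℕ => kk.1 * (z.2 : ℤ) - kk.2 * (z.1 : ℤ) = l)).card : ℕ) : ℝ) ≤
      31 * M * ((Nat.gcd kk.1.natAbs kk.2.natAbs : ℝ) /
        ((max kk.1.natAbs kk.2.natAbs : ℕ) : ℝ)) + 1 := by
    intro kk hkk
    rw [Finset.mem_product, hK, Finset.mem_filter, Finset.mem_filter] at hkk
    exact card_pairs_max M kk.1 kk.2 l hkk.1.2 hkk.2.2
  refine (Finset.sum_le_sum h3).trans ?_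
  rw [Finset.sum_product]
  have hf : ∀ i j : ℕ, (0 : ℝ) ≤ 31 * M * ((Nat.gcd i j : ℝ) / ((max i j : ℕ) : ℝ)) + 1 := by
    intro i j
    positivity
  have h4 : ∀ k ∈ K, ∑ k' ∈ K, (31 * (M : ℝ) * ((Nat.gcd k.natAbs k'.natAbs : ℝ) /
        ((max k.natAbs k'.natAbs : ℕ) : ℝ)) + 1) ≤
      2 * ∑ j ∈ Ioc 0 R, (31 * (M : ℝ) * ((Nat.gcd k.natAbs j : ℝ) /
        ((max k.natAbs j : ℕ) : ℝ)) + 1) := fun k _ =>
    sum_sign R (fun j => 31 * (M : ℝ) * ((Nat.gcd k.natAbs j : ℝ) /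
        ((max k.natAbs j : ℕ) : ℝ)) + 1) (fun j => hf _ j)
  refine (Finset.sum_le_sum h4).trans ?_
  have h5 := sum_sign R (fun i => 2 * ∑ j ∈ Ioc 0 R, (31 * (M : ℝ) * ((Nat.gcd i j : ℝ) /
        ((max i j : ℕ) : ℝ)) + 1)) (fun i =>
          mul_nonneg zero_le_two (Finset.sum_nonneg fun j _ => hf i j))
  refine h5.trans ?_
  have h6 : ∑ i ∈ Ioc 0 R, 2 * ∑ j ∈ Ioc 0 R, (31 * (M : ℝ) * ((Nat.gcd i j : ℝ) /
        ((max i j : ℕ) : ℝ)) + 1) =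
      62 * M * (∑ i ∈ Ioc 0 R, ∑ j ∈ Ioc 0 R, ((Nat.gcd i j : ℝ) / ((max i j : ℕ) : ℝ))) +
        2 * (R : ℝ) ^ 2 := by
    simp only [Finset.sum_add_distrib, ← Finset.mul_sum, Finset.sum_const, Nat.card_Ioc,
      smul_eq_mul, nsmul_eq_mul, mul_one, Nat.sub_zero, mul_add]
    push_cast
    ring
  rw [h6]
  have h7 := sum_gcd_max R hR
  have h8 : 62 * (M : ℝ) * (∑ i ∈ Ioc 0 R, ∑ j ∈ Ioc 0 R,
      ((Nat.gcd i j : ℝ) / ((max i j : ℕ) : ℝ))) ≤ 62 * M * (2 * (R * (1 + Real.log R))) :=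
    mul_le_mul_of_nonneg_left h7 (by positivity)
  nlinarith only [h8]

end Pool.Agent.VM
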