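import Pool.Agent.Lib.VM.BlkMinor
import Pool.Agent.Lib.VL.MinorWinP3

/-!
# Module MinorP6: minor arcs for primes, exponent 1/6

If `H ≥ x^(9/25)`: `VL.minor_win_prime3 B (1/100)` (`1/3 + 1/100 < 9/25`), applied to the Dirichlet approximation of `α` at the
level of its own exponent `A3` (the hypothesis `H / L^A3 ≤ R` is not monotone in the exponent). Otherwise `H < x^(9/25)`. `L = log x`.
`q ≤ H/L^A2 ≤ R` gives `|α - a/q| ≤ 1/(q R) ≤ 1/q²`.
`u < x^(19/20)`: trivially `≤ x^(19/20) H² (2L)²·4`. The remaining `u ∈ [x^(19/20), 2x]` are covered by the blocks `Icc X (2X)`,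
`X = ⌈x^(19/20)⌉ 2^j`, `j ≤ 2L`, `X ≤ 2x`: `log X ≤ 2L`, `log X ≥ L/2`, `H ≥ x^(1/6+ε) ≥ X^(1/6+ε/2)`, `H ≤ x^(9/25) ≤ X^(39/100)`
(`9/25 < 39/100 · 19/20`), `log X ^ A ≤ (2L)^A ≤ L^A2 ≤ q`, `q ≤ H/L^A2 ≤ H/(log X)^A`: `blk_minor` for `Λ`:
`≤ X H²/(log X)^(B+3) ≤ 2x H² 2^(B+3)/L^(B+3)`; at most `2L + 1` blocks. Finally `Λ - lp`: `VL.MinorWinP3Aux.part0`.
-/

set_option autoImplicit false

open Finset Filter

namespace Pool.Agent.VM

open Pool.Agent.VK Pool.Agent.HLT Pool.Agent.VL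

namespace MinorP6Aux

lemma ev_rpow_ge (c K : ℝ) (hc : 0 < c) : ∀ᶠ x : ℕ in atTop, K ≤ (x : ℝ) ^ c :=
  ((tendsto_rpow_atTop hc).comp tendsto_natCast_atTop_atTop).eventually (eventually_ge_atTop K)

lemma cover (f : ℕ → ℝ) (hf : ∀ u, 0 ≤ f u) (X0 N : ℕ) (hX0 : 1 ≤ X0) :
    ∑ u ∈ Icc X0 N, f u ≤ ∑ j ∈ (range (Nat.log 2 N + 1)).filter (fun j => X0 * 2 ^ j ≤ N),
      ∑ u ∈ Icc (X0 * 2 ^ j) (2 * (X0 * 2 ^ j)), f u := by
  classical
  set J := (range (Nat.log 2 N + 1)).filter (fun j => X0 * 2 ^ j ≤ N) with hJ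
  have h1 : ∀ u ∈ Icc X0 N, f u ≤
      ∑ j ∈ J, if u ∈ Icc (X0 * 2 ^ j) (2 * (X0 * 2 ^ j)) then f u else 0 := by
    intro u hu
    rw [mem_Icc] at hu
    set k := Nat.log 2 (u / X0) with hk
    have hd : u / X0 ≠ 0 := (Nat.div_pos hu.1 (by omega)).ne'
    have h2 : 2 ^ k ≤ u / X0 := Nat.pow_log_le_self 2 hd
    have h3 : u / X0 < 2 ^ (k + 1) := Nat.lt_pow_succ_log_self (by norm_num) _
    have h4 : X0 * 2 ^ k ≤ u := by
      rw [mul_comm]
      exact (Nat.le_div_iff_mul_le (by omega)).1 h2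
    have h5 : u < 2 ^ (k + 1) * X0 := (Nat.div_lt_iff_lt_mul (by omega)).1 h3
    have hkJ : k ∈ J := by
      rw [hJ, mem_filter, mem_range]
      refine ⟨?_, h4.trans hu.2⟩
      have : k ≤ Nat.log 2 N := Nat.log_mono_right ((Nat.div_le_self u X0).trans hu.2)
      omega
    have h6 : u ∈ Icc (X0 * 2 ^ k) (2 * (X0 * 2 ^ k)) := by
      rw [mem_Icc]
      refine ⟨h4, ?_⟩
      rw [pow_succ] at h5
      nlinarith only [h5]
    have h7 := Finset.single_le_sum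
      (f := fun j => if u ∈ Icc (X0 * 2 ^ j) (2 * (X0 * 2 ^ j)) then f u else 0)
      (fun j _ => by
        split_ifs
        · exact hf u
        · exact le_rfl) hkJ
    rw [if_pos h6] at h7
    exact h7
  refine (Finset.sum_le_sum h1).trans ?_
  rw [Finset.sum_comm]
  refine Finset.sum_le_sum fun j _ => ?_
  rw [← Finset.sum_filter]
  refine Finset.sum_le_sum_of_subset_of_nonneg ?_ fun u _ _ => hf u
  intro u hu
  exact (mem_filter.1 hu).2

/-- Dirichlet's theorem (copied from `VL.SI3`) -/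
lemma dirichlet (α H P : ℝ) (hP : 0 < P) (hPH : P ≤ H) : ∃ (q Q : ℕ) (a : ℤ), 1 ≤ q ∧ q ≤ Q ∧
    (Q : ℝ) ≤ H / P ∧ H / P ≤ (Q + 1 : ℕ) ∧ IsCoprime a (q : ℤ) ∧
    |α - a / q| ≤ 1 / ((q : ℝ) * (Q + 1 : ℕ)) := by
  have hH : 0 < H := lt_of_lt_of_le hP hPH
  have hn1 : 0 < ⌊H / P⌋₊ := by
    rw [Nat.floor_pos, le_div_iff₀ hP]
    simpa using hPH
  obtain ⟨r, hr1, hr2⟩ := Real.exists_rat_abs_sub_le_and_den_le α hn1
  have hcast : (r : ℝ) = (r.num : ℝ) / (r.den : ℝ) := by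
    exact_mod_cast congrArg (fun t : ℚ => (t : ℝ)) (Rat.num_div_den r).symm
  rw [hcast] at hr1
  refine ⟨r.den, ⌊H / P⌋₊, r.num, r.den_pos, hr2, Nat.floor_le (by positivity), ?_, ?_, ?_⟩
  · push_cast
    exact (Nat.lt_floor_add_one _).le
  · rw [Int.isCoprime_iff_gcd_eq_one]
    have := r.reduced
    rwa [Nat.Coprime] at this
  · refine hr1.trans (le_of_eq ?_)
    push_cast
    rw [mul_comm]

/-- comparison of two rational approximations -/
lemma approx_contra {q q' : ℕ} {a a' : ℤ} {α r r' : ℝ} (hq : 1 ≤ q) (hq' : 1 ≤ q')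
    (hlt : q' < q) (hcop : IsCoprime a (q : ℤ)) (hr : 0 < r) (hr' : 0 < r')
    (h1 : |α - a / q| ≤ 1 / ((q : ℝ) * r)) (h2 : |α - a' / q'| ≤ 1 / ((q' : ℝ) * r')) :
    1 ≤ q' / r + q / r' := by
  have hqr : (0 : ℝ) < q := by exact_mod_cast hq
  have hqr' : (0 : ℝ) < q' := by exact_mod_cast hq'
  have hne : a * q' - a' * q ≠ 0 := by
    intro h0
    have h3 : (q : ℤ) ∣ a * q' := ⟨a', by linarith⟩
    have h4 : (q : ℤ) ∣ q' := (hcop.symm).dvd_of_dvd_mul_left h3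
    have h5 : q ∣ q' := by exact_mod_cast h4
    exact absurd (Nat.le_of_dvd hq' h5) (not_le.2 hlt)
  have h3 : (1 : ℝ) ≤ |(a : ℝ) * q' - a' * q| := by
    have : (1 : ℤ) ≤ |a * q' - a' * q| := Int.one_le_abs hne
    exact_mod_cast this
  have h4 : (a : ℝ) * q' - a' * q = q * q' * ((α - a' / q') - (α - a / q)) := by
    field_simp
    ring
  have h5 : |(α - a' / q') - (α - a / q)| ≤ 1 / ((q' : ℝ) * r') + 1 / ((q : ℝ) * r) :=
    (abs_sub _ _).trans (add_le_add h2 h1)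
  rw [h4, abs_mul, abs_of_pos (by positivity)] at h3
  calc (1 : ℝ) ≤ q * q' * |(α - a' / q') - (α - a / q)| := h3
    _ ≤ q * q' * (1 / ((q' : ℝ) * r') + 1 / ((q : ℝ) * r)) :=
        mul_le_mul_of_nonneg_left h5 (by positivity)
    _ = q' / r + q / r' := by
        field_simp
        ring

end MinorP6Aux

open MinorP6Aux

theorem minor_win_prime6 (B : ℕ) (ε : ℝ) (hε : 0 < ε) : ∃ A2 : ℕ, ∀ᶠ x : ℕ in atTop, ∀ (q H R : ℕ) (a : ℤ) (α : ℝ),
    IsCoprime a (q : ℤ) → |α - a / q| ≤ 1 / ((q : ℝ) * R) → Real.log x ^ A2 ≤ q → (q : ℝ) ≤ H / Real.log x ^ A2 →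
    (H : ℝ) / Real.log x ^ A2 ≤ R → (x : ℝ) ^ (1 / 6 + ε) ≤ H → H ≤ x →
    ∑ u ∈ range (2 * x + 1), ‖∑ n ∈ Ioc u (u + H), (lp n : ℂ) * ex (n * α)‖ ^ 2 ≤
      x * (H : ℝ) ^ 2 / Real.log x ^ B := by
  obtain ⟨A3, hp3⟩ := minor_win_prime3 B (1 / 100) (by norm_num)
  obtain ⟨Ab, hblk⟩ := blk_minor (B + 3) (ε / 2) (by positivity)
  obtain ⟨N0, hN0⟩ := eventually_atTop.1 hblk
  refine ⟨A3 + Ab + 1, ?_⟩
  filter_upwards [hp3, Pool.Agent.HLU.ev_log 4, Pool.Agent.HLU.ev_log (2 ^ Ab),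
    Pool.Agent.HLU.ev_log (2 ^ (B + 8)),
    MinorWinP3Aux.ev_log_pow (A3 + (A3 + Ab + 1)) (show (0 : ℝ) < 3 by norm_num)
      (show (0 : ℝ) < 1 / 6 by norm_num),
    MinorWinP3Aux.ev_log_pow (B + 2) (show (0 : ℝ) < 32 by norm_num)
      (show (0 : ℝ) < 1 / 20 by norm_num),
    MinorWinP3Aux.ev_log_pow (B + 2) (show (0 : ℝ) < 128 by norm_num)
      (show (0 : ℝ) < 1 / 2 by norm_num),
    ev_rpow_ge (19 / 20) N0 (by norm_num), ev_rpow_ge (ε / 2) ((2 : ℝ) ^ (1 / 6 + ε / 2))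
      (by positivity), eventually_ge_atTop 2]
    with x hp3 hL4 hLA hLB e1 e2 e3 hxN0 e4 hx2 q H R a α hcop hα hq1 hq2 hR hH hHx
  obtain ⟨L, hL⟩ : ∃ L, L = Real.log x := ⟨_, rfl⟩
  rw [← hL] at hp3 hL4 hLA hLB e1 e2 e3 hq1 hq2 hR ⊢
  have hL0 : 0 < L := by linarith only [hL4]
  have hL1 : 1 ≤ L := by linarith only [hL4]
  have hx1 : 1 ≤ x := by omega
  have hx1r : (1 : ℝ) ≤ x := by exact_mod_cast hx1
  have hx0 : (0 : ℝ) < x := by linarith only [hx1r]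
  have hmono : ∀ u v : ℝ, u ≤ v → (x : ℝ) ^ u ≤ (x : ℝ) ^ v := fun u v huv =>
    Real.rpow_le_rpow_of_exponent_le hx1r huv
  have hpow : ∀ m n : ℕ, m ≤ n → L ^ m ≤ L ^ n := fun m n hmn => pow_le_pow_right₀ hL1 hmn
  have hH16 : (x : ℝ) ^ (1 / 6 : ℝ) ≤ H := (hmono _ _ (by linarith only [hε])).trans hH
  have hH0 : (0 : ℝ) < H := lt_of_lt_of_le (by (clear * - hx2; positivity)) hH16
  have hq1r : (1 : ℝ) ≤ q := (one_le_pow₀ hL1).trans hq1
  have hq1' : 1 ≤ q := by exact_mod_cast hq1r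
  have hq0 : (0 : ℝ) < q := by linarith only [hq1r]
  have hqR : (q : ℝ) ≤ R := hq2.trans hR
  have hR0 : (0 : ℝ) < R := by linarith only [hq0, hqR]
  have hPA : 0 < L ^ (A3 + Ab + 1) := pow_pos hL0 _
  rcases le_or_gt ((x : ℝ) ^ (9 / 25 : ℝ)) H with hcase | hcase
  · -- long windows
    have hP3 : 0 < L ^ A3 := pow_pos hL0 _
    have hPH : L ^ A3 ≤ H := by
      have h1 : L ^ A3 ≤ L ^ (A3 + (A3 + Ab + 1)) := hpow _ _ (by omega)
      have h2 : 0 < L ^ (A3 + (A3 + Ab + 1)) := pow_pos hL0 _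
      linarith only [h1, h2, e1, hH16]
    obtain ⟨q', Q', a', hq'1, hq'Q, hQ1, hQ2, hcop', hα'⟩ := dirichlet α H (L ^ A3) hP3 hPH
    have hq'0 : (0 : ℝ) < q' := by exact_mod_cast hq'1
    have hq'Qr : (q' : ℝ) ≤ Q' := by exact_mod_cast hq'Q
    have hlow : L ^ A3 ≤ q' := by
      by_contra hcon
      push Not at hcon
      have hlt : q' < q := by
        have h1 : (q' : ℝ) < q := by
          calc (q' : ℝ) < L ^ A3 := hcon
            _ ≤ L ^ (A3 + Ab + 1) := hpow _ _ (by omega)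
            _ ≤ q := hq1
        exact_mod_cast h1
      have hQ0 : (0 : ℝ) < ((Q' + 1 : ℕ) : ℝ) := by (clear * -; positivity)
      have h1 := approx_contra hq1' hq'1 hlt hcop hR0 hQ0 hα hα'
      have h2 : (q' : ℝ) / R ≤ 1 / 3 := by
        rw [div_le_iff₀ hR0]
        rw [div_le_iff₀ hPA] at hR
        have h3 : (q' : ℝ) * L ^ (A3 + Ab + 1) ≤ 1 / 3 * H := by
          calc (q' : ℝ) * L ^ (A3 + Ab + 1) ≤ L ^ A3 * L ^ (A3 + Ab + 1) :=
                mul_le_mul_of_nonneg_right hcon.le hPA.le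
            _ = L ^ (A3 + (A3 + Ab + 1)) := (pow_add _ _ _).symm
            _ ≤ 1 / 3 * H := by linarith only [e1, hH16]
        have h4 : (q' : ℝ) * L ^ (A3 + Ab + 1) ≤ (1 / 3 * R) * L ^ (A3 + Ab + 1) := by
          linarith only [h3, hR]
        exact le_of_mul_le_mul_right h4 hPA
      have h3 : (q : ℝ) / ((Q' + 1 : ℕ) : ℝ) ≤ 1 / 4 := by
        rw [div_le_iff₀ hQ0]
        rw [le_div_iff₀ hPA] at hq2
        rw [div_le_iff₀ hP3] at hQ2
        have h5 : L ^ (A3 + Ab + 1) = L ^ A3 * (L ^ Ab * L) := by ring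
        have h6 : 4 ≤ L ^ Ab * L := by
          calc (4 : ℝ) ≤ 1 * L := by linarith only [hL4]
            _ ≤ L ^ Ab * L := mul_le_mul_of_nonneg_right (one_le_pow₀ hL1) hL0.le
        have h7 : (q : ℝ) * L ^ A3 * 4 ≤ ((Q' + 1 : ℕ) : ℝ) * L ^ A3 := by
          calc (q : ℝ) * L ^ A3 * 4 ≤ q * L ^ A3 * (L ^ Ab * L) :=
                mul_le_mul_of_nonneg_left h6 (by (clear * - hL4 hq1'; positivity))
            _ = q * L ^ (A3 + Ab + 1) := by rw [h5]; ring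
            _ ≤ H := hq2
            _ ≤ _ := hQ2
        have h8 : ((q : ℝ) * 4) * L ^ A3 ≤ ((Q' + 1 : ℕ) : ℝ) * L ^ A3 := by
          linarith only [h7]
        have h9 := le_of_mul_le_mul_right h8 hP3
        linarith only [h9]
      linarith only [h1, h2, h3]
    have hfin := hp3 q' H (Q' + 1) a' α hcop' hα' hlow (hq'Qr.trans hQ1) hQ2
      ((hmono _ _ (by norm_num)).trans hcase) hHx
    exact hfin
  · -- short windows
    have hα2 : |α - a / q| ≤ 1 / (q : ℝ) ^ 2 := by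
      refine hα.trans ?_
      apply one_div_le_one_div_of_le (by (clear * - hq1'; positivity))
      rw [sq]
      exact mul_le_mul_of_nonneg_left hqR hq0.le
    set X0 : ℕ := ⌈(x : ℝ) ^ (19 / 20 : ℝ)⌉₊ with hX0
    have hX0lo : (x : ℝ) ^ (19 / 20 : ℝ) ≤ X0 := Nat.le_ceil _
    have hx19 : (1 : ℝ) ≤ (x : ℝ) ^ (19 / 20 : ℝ) := Real.one_le_rpow hx1r (by norm_num)
    have hX01 : 1 ≤ X0 := by
      have : (1 : ℝ) ≤ X0 := hx19.trans hX0lo
      exact_mod_cast this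
    have hX0hi : (X0 : ℝ) ≤ 2 * (x : ℝ) ^ (19 / 20 : ℝ) := by
      have := (Nat.ceil_lt_add_one (show (0 : ℝ) ≤ (x : ℝ) ^ (19 / 20 : ℝ) by (clear * - hx2; positivity))).le
      rw [← hX0] at this
      linarith only [this, hx19]
    -- the three parts
    have hsmall : ∀ u ∈ range X0, ‖∑ n ∈ Ioc u (u + H), (lp n : ℂ) * ex (n * α)‖ ^ 2 ≤
        4 * L ^ 2 * (H : ℝ) ^ 2 := by
      intro u hu
      rw [mem_range] at hu
      have hX0x : X0 ≤ x := by
        rw [hX0, Nat.ceil_le]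
        calc (x : ℝ) ^ (19 / 20 : ℝ) ≤ (x : ℝ) ^ (1 : ℝ) := hmono _ _ (by norm_num)
          _ = x := Real.rpow_one _
      have h1 : ‖∑ n ∈ Ioc u (u + H), (lp n : ℂ) * ex (n * α)‖ ≤ H * (2 * L) := by
        refine (norm_sum_le _ _).trans ?_
        calc ∑ n ∈ Ioc u (u + H), ‖(lp n : ℂ) * ex (n * α)‖ ≤ ∑ _n ∈ Ioc u (u + H), 2 * L := by
              refine sum_le_sum fun n hn => ?_
              rw [mem_Ioc] at hn
              rw [norm_mul, norm_ex, mul_one, Complex.norm_real, Real.norm_eq_abs,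
                abs_of_nonneg (lp_nonneg n)]
              have h2 : lp n ≤ Real.log n := by
                unfold HLT.lp
                split_ifs
                · exact le_rfl
                · exact Real.log_natCast_nonneg n
              exact h2.trans (MinorWinP3Aux.log_le_two hx1 hL (by linarith only [hL4]) (by omega))
          _ = H * (2 * L) := by
              rw [sum_const, Nat.card_Ioc, nsmul_eq_mul]
              congr 2
              omega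
      calc _ ≤ (H * (2 * L)) ^ 2 := pow_le_pow_left₀ (norm_nonneg _) h1 2
        _ = _ := by ring
    have hblock : ∀ j ∈ (range (Nat.log 2 (2 * x) + 1)).filter (fun j => X0 * 2 ^ j ≤ 2 * x),
        ∑ u ∈ Icc (X0 * 2 ^ j) (2 * (X0 * 2 ^ j)), ‖∑ n ∈ Ioc u (u + H),
          ((ArithmeticFunction.vonMangoldt n : ℝ) : ℂ) * ex (n * α)‖ ^ 2 ≤
        2 ^ (B + 4) * x * (H : ℝ) ^ 2 / L ^ (B + 3) := by
      intro j hj
      obtain ⟨-, hj⟩ := mem_filter.1 hj
      obtain ⟨X, hX⟩ : ∃ X, X = X0 * 2 ^ j := ⟨_, rfl⟩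
      rw [← hX] at hj ⊢
      have hX0X : X0 ≤ X := by
        rw [hX]
        exact Nat.le_mul_of_pos_right _ (by (clear * -; positivity))
      have hX0Xr : (X0 : ℝ) ≤ X := by exact_mod_cast hX0X
      have hxX : (x : ℝ) ^ (19 / 20 : ℝ) ≤ X := hX0lo.trans hX0Xr
      have hX1r : (1 : ℝ) ≤ X := hx19.trans hxX
      have hXpos : (0 : ℝ) < X := by linarith only [hX1r]
      have hX1 : 1 ≤ X := by exact_mod_cast hX1r
      have hXN : N0 ≤ X := by
        have : (N0 : ℝ) ≤ X := hxN0.trans hxX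
        exact_mod_cast this
      have hXx : (X : ℝ) ≤ 2 * x := by exact_mod_cast hj
      have hlogX2 : Real.log X ≤ 2 * L :=
        MinorWinP3Aux.log_le_two hx1 hL (by linarith only [hL4]) (by omega)
      have hlogX1 : L / 2 ≤ Real.log X := by
        have h1 := Real.log_le_log (by (clear * - hx2; positivity)) hxX
        rw [Real.log_rpow hx0, ← hL] at h1
        linarith only [h1, hL0]
      have hlogX0 : 0 < Real.log X := by linarith only [hlogX1, hL0]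
      have hlogA : Real.log X ^ Ab ≤ L ^ (A3 + Ab + 1) := by
        calc Real.log X ^ Ab ≤ (2 * L) ^ Ab := pow_le_pow_left₀ hlogX0.le hlogX2 _
          _ = 2 ^ Ab * L ^ Ab := mul_pow _ _ _
          _ ≤ L * L ^ Ab := mul_le_mul_of_nonneg_right hLA (by (clear * - hL4; positivity))
          _ = L ^ (Ab + 1) := by ring
          _ ≤ L ^ (A3 + Ab + 1) := hpow _ _ (by omega)
      have key := hN0 X hXN q H a α hcop hα2 (hlogA.trans hq1)
        (hq2.trans (div_le_div_of_nonneg_left hH0.le (pow_pos hlogX0 _) hlogA)) ?_ ?_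
      · refine key.trans ?_
        have h1 : (L / 2) ^ (B + 3) ≤ Real.log X ^ (B + 3) :=
          pow_le_pow_left₀ (by (clear * - hL4; positivity)) hlogX1 _
        have h2 : 0 < (L / 2) ^ (B + 3) := by (clear * - hL4; positivity)
        calc (X : ℝ) * (H : ℝ) ^ 2 / Real.log X ^ (B + 3)
            ≤ (2 * x) * (H : ℝ) ^ 2 / (L / 2) ^ (B + 3) := by
              apply div_le_div₀ (by (clear * - hx2 hH0; positivity)) _ h2 h1
              exact mul_le_mul_of_nonneg_right hXx (by (clear * - hH0; positivity))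
          _ = 2 ^ (B + 4) * x * (H : ℝ) ^ 2 / L ^ (B + 3) := by
              rw [div_pow]
              field_simp
              ring
      · calc (X : ℝ) ^ (1 / 6 + ε / 2) ≤ (2 * x : ℝ) ^ (1 / 6 + ε / 2) :=
              Real.rpow_le_rpow hXpos.le hXx (by (clear * - hε; positivity))
          _ = (2 : ℝ) ^ (1 / 6 + ε / 2) * (x : ℝ) ^ (1 / 6 + ε / 2) :=
              Real.mul_rpow (by norm_num) hx0.le
          _ ≤ (x : ℝ) ^ (ε / 2) * (x : ℝ) ^ (1 / 6 + ε / 2) :=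
              mul_le_mul_of_nonneg_right e4 (by (clear * - hx2; positivity))
          _ = (x : ℝ) ^ (1 / 6 + ε) := by
              rw [← Real.rpow_add hx0]
              congr 1
              ring
          _ ≤ H := hH
      · calc (H : ℝ) ≤ (x : ℝ) ^ (9 / 25 : ℝ) := hcase.le
          _ ≤ (x : ℝ) ^ (19 / 20 * (39 / 100) : ℝ) := hmono _ _ (by norm_num)
          _ = ((x : ℝ) ^ (19 / 20 : ℝ)) ^ (39 / 100 : ℝ) := Real.rpow_mul hx0.le _ _
          _ ≤ (X : ℝ) ^ (39 / 100 : ℝ) := Real.rpow_le_rpow (by (clear * - hx2; positivity)) hxX (by norm_num)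
    have hpart0 := MinorWinP3Aux.part0 α hx1 hL hL4 hHx
    have hcov := cover (fun u => ‖∑ n ∈ Ioc u (u + H),
          ((ArithmeticFunction.vonMangoldt n : ℝ) : ℂ) * ex (n * α)‖ ^ 2)
          (fun u => by (clear * -; positivity)) X0 (2 * x) hX01
    have hV : ∑ u ∈ Icc X0 (2 * x), ‖∑ n ∈ Ioc u (u + H),
          ((ArithmeticFunction.vonMangoldt n : ℝ) : ℂ) * ex (n * α)‖ ^ 2 ≤
        (4 * L) * (2 ^ (B + 4) * x * (H : ℝ) ^ 2 / L ^ (B + 3)) := by
      refine hcov.trans ((sum_le_sum hblock).trans ?_)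
      rw [sum_const, nsmul_eq_mul]
      refine mul_le_mul_of_nonneg_right ?_ (by (clear * - hx2 hL4 hH0; positivity))
      have h1 : ((range (Nat.log 2 (2 * x) + 1)).filter (fun j => X0 * 2 ^ j ≤ 2 * x)).card ≤
          Nat.log 2 (2 * x) + 1 := by
        refine (card_filter_le _ _).trans ?_
        rw [card_range]
      have h2 := MinorWinP3Aux.log2_le (show 1 ≤ 2 * x by omega)
      have h3 : Real.log ((2 * x : ℕ) : ℝ) ≤ 2 * L :=
        MinorWinP3Aux.log_le_two hx1 hL (by linarith only [hL4]) (by omega)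
      have h4 : ((((range (Nat.log 2 (2 * x) + 1)).filter
          (fun j => X0 * 2 ^ j ≤ 2 * x)).card : ℕ) : ℝ) ≤ ((Nat.log 2 (2 * x) + 1 : ℕ) : ℝ) := by
        exact_mod_cast h1
      push_cast at h4
      linarith only [h2, h3, h4, hL4]
    have hsplit : ∑ u ∈ range (2 * x + 1), ‖∑ n ∈ Ioc u (u + H), (lp n : ℂ) * ex (n * α)‖ ^ 2 ≤
        ∑ u ∈ range X0, ‖∑ n ∈ Ioc u (u + H), (lp n : ℂ) * ex (n * α)‖ ^ 2 +
        ∑ u ∈ Icc X0 (2 * x), ‖∑ n ∈ Ioc u (u + H), (lp n : ℂ) * ex (n * α)‖ ^ 2 := by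
      rw [← sum_union (by
        rw [disjoint_left]
        intro u hu hu'
        rw [mem_range] at hu
        rw [mem_Icc] at hu'
        omega)]
      refine sum_le_sum_of_subset_of_nonneg ?_ fun _ _ _ => by (clear * -; positivity)
      intro u hu
      rw [mem_range] at hu
      rw [mem_union, mem_range, mem_Icc]
      omega
    have hbig : ∑ u ∈ Icc X0 (2 * x), ‖∑ n ∈ Ioc u (u + H), (lp n : ℂ) * ex (n * α)‖ ^ 2 ≤
        2 * ((4 * L) * (2 ^ (B + 4) * x * (H : ℝ) ^ 2 / L ^ (B + 3))) +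
          2 * ((H : ℝ) ^ 2 * (16 * L ^ 2 * Real.sqrt x)) := by
      have h1 : ∀ u ∈ Icc X0 (2 * x), ‖∑ n ∈ Ioc u (u + H), (lp n : ℂ) * ex (n * α)‖ ^ 2 ≤
          2 * ‖∑ n ∈ Ioc u (u + H),
            ((ArithmeticFunction.vonMangoldt n : ℝ) : ℂ) * ex (n * α)‖ ^ 2 +
          2 * ‖∑ n ∈ Ioc u (u + H),
            (((ArithmeticFunction.vonMangoldt n - lp n : ℝ)) : ℂ) * ex (n * α)‖ ^ 2 := by
        intro u _
        have h2 : ∑ n ∈ Ioc u (u + H), (lp n : ℂ) * ex (n * α) =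
            ∑ n ∈ Ioc u (u + H), ((ArithmeticFunction.vonMangoldt n : ℝ) : ℂ) * ex (n * α) -
            ∑ n ∈ Ioc u (u + H),
              (((ArithmeticFunction.vonMangoldt n - lp n : ℝ)) : ℂ) * ex (n * α) := by
          rw [← sum_sub_distrib]
          refine sum_congr rfl fun n _ => ?_
          push_cast
          ring
        rw [h2]
        exact MinorWinP3Aux.two _ _
      refine (sum_le_sum h1).trans ?_
      rw [sum_add_distrib, ← mul_sum, ← mul_sum]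
      refine add_le_add (mul_le_mul_of_nonneg_left hV (by norm_num))
        (mul_le_mul_of_nonneg_left ?_ (by norm_num))
      refine le_trans ?_ hpart0
      refine sum_le_sum_of_subset_of_nonneg ?_ fun _ _ _ => by (clear * -; positivity)
      intro u hu
      rw [mem_Icc] at hu
      rw [mem_range]
      omega
    have hsm : ∑ u ∈ range X0, ‖∑ n ∈ Ioc u (u + H), (lp n : ℂ) * ex (n * α)‖ ^ 2 ≤
        (2 * (x : ℝ) ^ (19 / 20 : ℝ)) * (4 * L ^ 2 * (H : ℝ) ^ 2) := by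
      refine (sum_le_sum hsmall).trans ?_
      rw [sum_const, card_range, nsmul_eq_mul]
      exact mul_le_mul_of_nonneg_right hX0hi (by (clear * - hL4 hH0; positivity))
    -- final computation
    have hLB0 : 0 < L ^ B := pow_pos hL0 _
    have f1 : (2 * (x : ℝ) ^ (19 / 20 : ℝ)) * (4 * L ^ 2 * (H : ℝ) ^ 2) ≤
        1 / 4 * (x * (H : ℝ) ^ 2 / L ^ B) := by
      have h1 : (x : ℝ) = (x : ℝ) ^ (19 / 20 : ℝ) * (x : ℝ) ^ (1 / 20 : ℝ) := by
        rw [← Real.rpow_add hx0]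
        norm_num
      have h2 : 32 * (L ^ B * L ^ 2) ≤ (x : ℝ) ^ (1 / 20 : ℝ) := by
        rw [← pow_add]
        exact e2
      rw [← mul_div_assoc, le_div_iff₀ hLB0]
      have h3 : 0 ≤ (x : ℝ) ^ (19 / 20 : ℝ) * (H : ℝ) ^ 2 := by (clear * - hx2 hH0; positivity)
      calc (2 * (x : ℝ) ^ (19 / 20 : ℝ)) * (4 * L ^ 2 * (H : ℝ) ^ 2) * L ^ B
          = 1 / 4 * (((x : ℝ) ^ (19 / 20 : ℝ) * (H : ℝ) ^ 2) * (32 * (L ^ B * L ^ 2))) := by ring
        _ ≤ 1 / 4 * (((x : ℝ) ^ (19 / 20 : ℝ) * (H : ℝ) ^ 2) * (x : ℝ) ^ (1 / 20 : ℝ)) :=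
            mul_le_mul_of_nonneg_left (mul_le_mul_of_nonneg_left h2 h3) (by norm_num)
        _ = 1 / 4 * (x * (H : ℝ) ^ 2) := by
            nth_rw 3 [h1]
            ring
    have f2 : 2 * ((H : ℝ) ^ 2 * (16 * L ^ 2 * Real.sqrt x)) ≤
        1 / 4 * (x * (H : ℝ) ^ 2 / L ^ B) := by
      have h1 : (x : ℝ) = Real.sqrt x * (x : ℝ) ^ (1 / 2 : ℝ) := by
        rw [← Real.sqrt_eq_rpow]
        exact (Real.mul_self_sqrt hx0.le).symm
      have h2 : 128 * (L ^ B * L ^ 2) ≤ (x : ℝ) ^ (1 / 2 : ℝ) := by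
        rw [← pow_add]
        exact e3
      rw [← mul_div_assoc, le_div_iff₀ hLB0]
      have h3 : 0 ≤ Real.sqrt x * (H : ℝ) ^ 2 := by (clear * - hx2 hH0; positivity)
      calc 2 * ((H : ℝ) ^ 2 * (16 * L ^ 2 * Real.sqrt x)) * L ^ B
          = 1 / 4 * ((Real.sqrt x * (H : ℝ) ^ 2) * (128 * (L ^ B * L ^ 2))) := by ring
        _ ≤ 1 / 4 * ((Real.sqrt x * (H : ℝ) ^ 2) * (x : ℝ) ^ (1 / 2 : ℝ)) :=
            mul_le_mul_of_nonneg_left (mul_le_mul_of_nonneg_left h2 h3) (by norm_num)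
        _ = 1 / 4 * (x * (H : ℝ) ^ 2) := by
            nth_rw 3 [h1]
            ring
    have f3 : 2 * ((4 * L) * (2 ^ (B + 4) * x * (H : ℝ) ^ 2 / L ^ (B + 3))) ≤
        1 / 2 * (x * (H : ℝ) ^ 2 / L ^ B) := by
      have h1 : (2 : ℝ) ^ (B + 8) ≤ L * L := by
        calc (2 : ℝ) ^ (B + 8) ≤ L := hLB
          _ = 1 * L := (one_mul L).symm
          _ ≤ L * L := mul_le_mul_of_nonneg_right hL1 hL0.le
      have h2 : 0 ≤ (x : ℝ) * (H : ℝ) ^ 2 / L ^ (B + 2) := by (clear * - hx2 hL4 hH0; positivity)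
      calc 2 * ((4 * L) * (2 ^ (B + 4) * x * (H : ℝ) ^ 2 / L ^ (B + 3)))
          = 1 / 2 * (2 ^ (B + 8) * ((x : ℝ) * (H : ℝ) ^ 2 / L ^ (B + 2))) := by
            rw [pow_add 2 B 4, pow_add 2 B 8, pow_succ L (B + 2)]
            field_simp
            ring
        _ ≤ 1 / 2 * ((L * L) * ((x : ℝ) * (H : ℝ) ^ 2 / L ^ (B + 2))) :=
            mul_le_mul_of_nonneg_left (mul_le_mul_of_nonneg_right h1 h2) (by norm_num)
        _ = 1 / 2 * (x * (H : ℝ) ^ 2 / L ^ B) := by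
            rw [pow_add L B 2]
            field_simp
    linarith only [hsplit, hbig, hsm, f1, f2, f3]

end Pool.Agent.VM
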