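import Pool.Agent.Lib.VM.MajorWin6
import Pool.Agent.Lib.VM.MinorP6
import Pool.Agent.Lib.VL.SI3

/-!
# Module SI6: all frequencies, exponent 1/6

Copy the proof of `VL.si3` (file VL/SI3.lean) with `minor_win_prime6`, `major_win6` in place of `minor_win_prime3`, `major_win3` and `1/6` for `1/3`. Where VL/SI3 uses
a lower bound `x^(1/3+ε) ≤ H` to absorb a power of `x` (`minor_win_nu3` with `ε = 1/4`, error `x^(1/8)`): use `minor_win_nu3` with `ε = 1/8` (it holds for every `ε > 0`).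
-/

set_option autoImplicit false

open Finset Filter

namespace Pool.Agent.VM

open Pool.Agent.VK Pool.Agent.HLT Pool.Agent.VL

open Pool.Agent.VL.SI3Aux Pool.Agent.HLU

theorem si6 (A0 B : ℕ) (ε : ℝ) (hε : 0 < ε) : ∃ A c : ℕ, A0 ≤ A ∧ ∀ᶠ x : ℕ in atTop, ∀ (H : ℕ) (α : ℝ),
    (x : ℝ) ^ (1 / 6 + ε) ≤ H → (H : ℝ) ≤ x / Real.log x ^ c →
    ∑ u ∈ range (2 * x + 1), ‖∑ n ∈ (Ioc u (u + H)).filter (fun n => n ≤ 2 * x), (ff (zA A x) n : ℂ) * ex (n * α)‖ ^ 2 ≤
      x * (H : ℝ) ^ 2 / Real.log x ^ B := by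
  obtain ⟨A2, hmp⟩ := minor_win_prime6 (B + 4) ε hε
  obtain ⟨M, hM⟩ : ∃ M, M = max A2 (B + 10) := ⟨_, rfl⟩
  have hMA : A2 ≤ M := by omega
  have hMB : B + 10 ≤ M := by omega
  obtain ⟨K, hK⟩ : ∃ K, K = M + B + 10 := ⟨_, rfl⟩
  obtain ⟨c0, hmaj⟩ := major_win6 M (B + 4) (ε / 2) (by positivity)
  obtain ⟨A, hA⟩ : ∃ A, A = max A0 M := ⟨_, rfl⟩
  have hmaj' := hmaj A (by omega)
  obtain ⟨C, hC, hnu⟩ := minor_win_nu3 A (B + 4) (1 / 8) (by norm_num)
  refine ⟨A, max c0 (B + 8), by omega, ?_⟩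
  filter_upwards [hmp, hmaj', hnu, DZ_inv_le A, ev_log 3, ev_log (3 * C), eventually_ge_atTop 1,
    ev_lp M 1 (1 / 12) (by norm_num), ev_lp (K + B + 10) 2 (1 / 6) (by norm_num),
    ev_lp K 4 (ε / 2) (by positivity)] with x hmp hmaj hnu hDZ hL3 hLC hx1 e2 e3 e4
  intro H α hxH hHx
  set L := Real.log x with hLdef
  have hx1' : (1 : ℝ) ≤ x := by exact_mod_cast hx1
  have hx0 : (0 : ℝ) < x := by linarith only [hx1']
  have hL0 : 0 < L := by linarith only [hL3]
  have hL1 : 1 ≤ L := by linarith only [hL3]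
  -- sizes
  have hx13 : (x : ℝ) ^ (1 / 6 : ℝ) ≤ (x : ℝ) ^ (1 / 6 + ε) :=
    Real.rpow_le_rpow_of_exponent_le hx1' (by linarith only [hε])
  have hH13 : (x : ℝ) ^ (1 / 6 : ℝ) ≤ H := hx13.trans hxH
  have hx13' : (1 : ℝ) ≤ (x : ℝ) ^ (1 / 6 : ℝ) := Real.one_le_rpow hx1' (by norm_num)
  have hH1 : (1 : ℝ) ≤ H := hx13'.trans hH13
  have hH0 : (0 : ℝ) < H := by linarith only [hxH, hx13, hx13']
  have hHx' : (H : ℝ) ≤ x := hHx.trans (div_le_self hx0.le (one_le_pow₀ hL1))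
  have hHxN : H ≤ x := by exact_mod_cast hHx'
  have hHc0 : (H : ℝ) ≤ x / L ^ c0 := by
    refine hHx.trans (div_le_div_of_nonneg_left hx0.le (by (clear * - hL3; positivity)) ?_)
    exact pow_le_pow_right₀ hL1 (le_max_left _ _)
  have hHcB : (H : ℝ) ≤ x / L ^ (B + 8) := by
    refine hHx.trans (div_le_div_of_nonneg_left hx0.le (by (clear * - hL3; positivity)) ?_)
    exact pow_le_pow_right₀ hL1 (le_max_right _ _)
  have hLM1 : 1 ≤ L ^ M := one_le_pow₀ hL1
  have hx16 : (x : ℝ) ^ (1 / 12 : ℝ) ≤ H := by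
    refine le_trans ?_ hH13
    exact Real.rpow_le_rpow_of_exponent_le hx1' (by norm_num)
  rw [one_mul] at e2
  have hLMH : L ^ M ≤ H := e2.trans hx16
  have hLA2H : L ^ A2 ≤ H := (pow_le_pow_right₀ hL1 hMA).trans hLMH
  have hfn : ∀ n ≤ 2 * x, ‖(ff (zA A x) n : ℂ) * ex (n * α)‖ ≤ L ^ 2 := by
    intro n hn
    rw [norm_mul, norm_ex, mul_one]
    exact ff_norm (by linarith only [hL3]) hDZ hn
  have hcut := cut (2 * x) H (L ^ 2) (by (clear * - hL3; positivity)) (fun n => (ff (zA A x) n : ℂ) * ex (n * α)) hfn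
  refine hcut.trans ?_
  -- the cut term
  have hcut2 : (H : ℝ) * (H * L ^ 2) ^ 2 ≤ x * (H : ℝ) ^ 2 / L ^ (B + 4) := by
    have h1 : (H : ℝ) * (H * L ^ 2) ^ 2 = H * ((H : ℝ) ^ 2 * L ^ 4) := by ring
    rw [h1]
    have h2 : (x : ℝ) * (H : ℝ) ^ 2 / L ^ (B + 4) = x / L ^ (B + 8) * ((H : ℝ) ^ 2 * L ^ 4) := by
      have : L ^ (B + 8) = L ^ (B + 4) * L ^ 4 := by rw [← pow_add]
      rw [this]
      field_simp
    rw [h2]
    exact mul_le_mul_of_nonneg_right hHcB (by (clear * - hL3 hH1; positivity))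
  -- it suffices to prove three quarters
  have hfin : 4 * (x * (H : ℝ) ^ 2 / L ^ (B + 4)) ≤ x * (H : ℝ) ^ 2 / L ^ B := by
    have h2 : (x : ℝ) * (H : ℝ) ^ 2 / L ^ B = L ^ 4 * (x * (H : ℝ) ^ 2 / L ^ (B + 4)) := by
      have : L ^ (B + 4) = L ^ B * L ^ 4 := by rw [← pow_add]
      rw [this]
      field_simp
    rw [h2]
    refine mul_le_mul_of_nonneg_right ?_ (by (clear * - hx1 hL3 hH1; positivity))
    have : (1 : ℝ) ≤ L ^ 3 := one_le_pow₀ hL1
    nlinarith
  suffices hmain : ∑ u ∈ (range (2 * x + 1)).filter (fun u => u + H ≤ 2 * x),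
      ‖∑ n ∈ Ioc u (u + H), (ff (zA A x) n : ℂ) * ex (n * α)‖ ^ 2 ≤
      3 * (x * (H : ℝ) ^ 2 / L ^ (B + 4)) by linarith only [hcut2, hfin, hmain]
  have hT0 : 0 ≤ x * (H : ℝ) ^ 2 / L ^ (B + 4) := by (clear * - hx1 hL3 hH1; positivity)
  -- the major arc argument
  have hmajor : ∀ (q : ℕ) (a : ℤ), 1 ≤ q → (q : ℝ) ≤ L ^ M → |α - a / q| ≤ L ^ M / H →
      ∑ u ∈ (range (2 * x + 1)).filter (fun u => u + H ≤ 2 * x),
      ‖∑ n ∈ Ioc u (u + H), (ff (zA A x) n : ℂ) * ex (n * α)‖ ^ 2 ≤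
      3 * (x * (H : ℝ) ^ 2 / L ^ (B + 4)) := by
    intro q a hq hqM hα
    set η : ℝ := α - a / q with hη
    have hαη : α = a / q + η := by rw [hη]; ring
    have hLK1 : 1 ≤ L ^ K := one_le_pow₀ hL1
    set R : ℕ := ⌈L ^ K⌉₊ with hR
    have hR1 : L ^ K ≤ R := Nat.le_ceil _
    have hR2 : (R : ℝ) ≤ 2 * L ^ K := by
      have := (Nat.ceil_lt_add_one (by (clear * - hL3; positivity) : (0 : ℝ) ≤ L ^ K)).le
      linarith only [hLK1, this]
    have hR0 : 0 < R := by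
      have : (0 : ℝ) < R := by linarith only [hLK1, hR1]
      exact_mod_cast this
    have hR0' : (0 : ℝ) < R := by exact_mod_cast hR0
    obtain ⟨h, hh⟩ : ∃ h, h = H / R := ⟨_, rfl⟩
    have hRh : R * h ≤ H := by rw [hh]; exact Nat.mul_div_le H R
    have hRh2 : H ≤ R * h + R := by
      have := Nat.lt_mul_div_succ H hR0
      rw [← hh] at this
      have h3 : R * (h + 1) = R * h + R := by ring
      omega
    have hRhr : (R : ℝ) * h ≤ H := by exact_mod_cast hRh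
    have hRh2r : (H : ℝ) ≤ R * h + R := by exact_mod_cast hRh2
    have hcN : ∀ n ≤ 2 * x, ‖(ff (zA A x) n : ℂ)‖ ≤ L ^ 2 := fun n hn =>
      ff_norm (by linarith only [hL3]) hDZ hn
    have hred := major_red (fun n => (ff (zA A x) n : ℂ)) (2 * x) H h R (L ^ 2) (a / q) η
      (by (clear * - hL3; positivity)) hcN hRh hRh2
    rw [← hαη] at hred
    refine hred.trans ?_
    -- size of `h`
    have hhx : (x : ℝ) ^ (1 / 6 + ε / 2) ≤ h := by
      have h1 : (x : ℝ) ^ (1 / 6 + ε) = (x : ℝ) ^ (1 / 6 + ε / 2) * (x : ℝ) ^ (ε / 2) := by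
        rw [← Real.rpow_add hx0]
        congr 1
        ring
      have h2 : (1 : ℝ) ≤ (x : ℝ) ^ (1 / 6 + ε / 2) := Real.one_le_rpow hx1' (by (clear * - hε; positivity))
      have h3 : (x : ℝ) ^ (1 / 6 + ε / 2) * (4 * L ^ K) ≤ H := by
        refine le_trans ?_ hxH
        rw [h1]
        exact mul_le_mul_of_nonneg_left e4 (by (clear * - hx1; positivity))
      have h4 : (x : ℝ) ^ (1 / 6 + ε / 2) * (2 * R) ≤ H := by
        refine le_trans ?_ h3
        exact mul_le_mul_of_nonneg_left (by linarith only [hR2]) (by (clear * - hx1; positivity))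
      have h5 : (R : ℝ) * (2 * (x : ℝ) ^ (1 / 6 + ε / 2)) ≤ R * (h + 1) := by linarith only [hRh2r, h4]
      have h6 := le_of_mul_le_mul_left h5 hR0'
      linarith only [h2, h6]
    have hhH : (h : ℝ) ≤ H := by
      have : h ≤ H := by rw [hh]; exact Nat.div_le_self _ _
      exact_mod_cast this
    have hT := hmaj q a hq hqM h hhx (hhH.trans hHc0)
    have hpart1 : 2 * (R : ℝ) ^ 2 * ∑ v ∈ range (2 * x + 1), ‖∑ n ∈ Ioc v (v + h), (ff (zA A x) n : ℂ) * ex (n * (a / q))‖ ^ 2 ≤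
        2 * (x * (H : ℝ) ^ 2 / L ^ (B + 4)) := by
      have h1 : 2 * (R : ℝ) ^ 2 * ∑ v ∈ range (2 * x + 1), ‖∑ n ∈ Ioc v (v + h), (ff (zA A x) n : ℂ) * ex (n * (a / q))‖ ^ 2 ≤
          2 * (R : ℝ) ^ 2 * (x * (h : ℝ) ^ 2 / L ^ (B + 4)) :=
        mul_le_mul_of_nonneg_left hT (by (clear * - hL3; positivity))
      refine h1.trans ?_
      have h2 : 2 * (R : ℝ) ^ 2 * (x * (h : ℝ) ^ 2 / L ^ (B + 4)) =
          2 * (x * (R * h : ℝ) ^ 2 / L ^ (B + 4)) := by ring
      rw [h2]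
      refine mul_le_mul_of_nonneg_left ?_ (by norm_num)
      refine div_le_div_of_nonneg_right ?_ (by (clear * - hL3; positivity))
      refine mul_le_mul_of_nonneg_left ?_ hx0.le
      exact pow_le_pow_left₀ (by (clear * - hL3; positivity)) hRhr 2
    have hE : L ^ 2 * (2 * Real.pi * |η| * (R * h) * h + R) ≤ 8 * (H / L ^ (B + 8)) := by
      have hpi : 2 * Real.pi ≤ 7 := by
        have := Real.pi_lt_d2
        linarith only [this]
      have hLMpos : 0 < L ^ M := by (clear * - hL3; positivity)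
      have h1 : 2 * Real.pi * |η| * (R * h) ≤ 7 * L ^ M := by
        have h2 : |η| * (R * h) ≤ L ^ M / H * H :=
          mul_le_mul hα hRhr (by (clear * - hL3; positivity)) (by (clear * - hL3 hH1; positivity))
        rw [div_mul_cancel₀ _ hH0.ne'] at h2
        have h3 : 2 * Real.pi * (|η| * (R * h)) ≤ 7 * L ^ M :=
          mul_le_mul hpi h2 (by (clear * - hL3; positivity)) (by norm_num)
        linarith only [h3]
      have h2 : (h : ℝ) ≤ H / L ^ K := by
        rw [le_div_iff₀ (by (clear * - hL3; positivity))]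
        calc (h : ℝ) * L ^ K ≤ h * R := mul_le_mul_of_nonneg_left hR1 (Nat.cast_nonneg _)
          _ ≤ H := by linarith only [hRhr]
      have h3 : 2 * Real.pi * |η| * (R * h) * h ≤ 7 * L ^ M * (H / L ^ K) :=
        mul_le_mul h1 h2 (Nat.cast_nonneg _) (by (clear * - hL3; positivity))
      have h4 : L ^ 2 * (7 * L ^ M * (H / L ^ K)) = 7 * (H / L ^ (B + 8)) := by
        have e : L ^ K = L ^ 2 * L ^ M * L ^ (B + 8) := by
          rw [hK, ← pow_add, ← pow_add]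
          congr 1
          ring
        rw [e]
        field_simp
      have h5 : L ^ 2 * (R : ℝ) ≤ H / L ^ (B + 8) := by
        rw [le_div_iff₀ (by (clear * - hL3; positivity))]
        have e : L ^ 2 * (2 * L ^ K) * L ^ (B + 8) = 2 * L ^ (K + B + 10) := by
          have : L ^ (K + B + 10) = L ^ 2 * L ^ K * L ^ (B + 8) := by
            rw [← pow_add, ← pow_add]
            congr 1
            ring
          rw [this]; ring
        calc L ^ 2 * (R : ℝ) * L ^ (B + 8) ≤ L ^ 2 * (2 * L ^ K) * L ^ (B + 8) := by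
              refine mul_le_mul_of_nonneg_right ?_ (by (clear * - hL3; positivity))
              exact mul_le_mul_of_nonneg_left hR2 (by (clear * - hL3; positivity))
          _ = 2 * L ^ (K + B + 10) := e
          _ ≤ (x : ℝ) ^ (1 / 6 : ℝ) := e3
          _ ≤ H := hH13
      calc L ^ 2 * (2 * Real.pi * |η| * (R * h) * h + R) =
            L ^ 2 * (2 * Real.pi * |η| * (R * h) * h) + L ^ 2 * R := by ring
        _ ≤ L ^ 2 * (7 * L ^ M * (H / L ^ K)) + H / L ^ (B + 8) :=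
            add_le_add (mul_le_mul_of_nonneg_left h3 (by (clear * - hL3; positivity))) h5
        _ = 8 * (H / L ^ (B + 8)) := by rw [h4]; ring
    have hpart2 : 2 * (((2 * x : ℕ) : ℝ) + 1) * (L ^ 2 * (2 * Real.pi * |η| * (R * h) * h + R)) ^ 2 ≤
        x * (H : ℝ) ^ 2 / L ^ (B + 4) := by
      have h1 : (L ^ 2 * (2 * Real.pi * |η| * (R * h) * h + R)) ^ 2 ≤ (8 * (H / L ^ (B + 8))) ^ 2 :=
        pow_le_pow_left₀ (by (clear * - hL3; positivity)) hE 2
      have h2 : 2 * (((2 * x : ℕ) : ℝ) + 1) ≤ 6 * x := by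
        push_cast
        linarith only [hx1']
      calc 2 * (((2 * x : ℕ) : ℝ) + 1) * (L ^ 2 * (2 * Real.pi * |η| * (R * h) * h + R)) ^ 2 ≤
            6 * x * (8 * (H / L ^ (B + 8))) ^ 2 :=
              mul_le_mul h2 h1 (by (clear * - hL3; positivity)) (by (clear * - hx1; positivity))
        _ = 384 / L ^ (B + 12) * (x * (H : ℝ) ^ 2 / L ^ (B + 4)) := by
              have e : L ^ (B + 12) * L ^ (B + 4) = (L ^ (B + 8)) ^ 2 := by
                rw [← pow_add, ← pow_mul]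
                congr 1
                ring
              rw [div_mul_div_comm, e]
              field_simp
              norm_num
        _ ≤ 1 * (x * (H : ℝ) ^ 2 / L ^ (B + 4)) := by
              refine mul_le_mul_of_nonneg_right ?_ hT0
              rw [div_le_one (by (clear * - hL3; positivity))]
              have h3 : (3 : ℝ) ^ 12 ≤ L ^ 12 := pow_le_pow_left₀ (by norm_num) hL3 12
              have h4 : L ^ 12 ≤ L ^ (B + 12) := pow_le_pow_right₀ hL1 (by omega)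
              have h5 : (384 : ℝ) ≤ 3 ^ 12 := by norm_num
              linarith only [h3, h4]
        _ = x * (H : ℝ) ^ 2 / L ^ (B + 4) := one_mul _
    have := add_le_add hpart1 hpart2
    refine le_trans (le_of_eq ?_) (this.trans (le_of_eq (by ring)))
    rfl
  -- Dirichlet
  obtain ⟨q, Q, a, hq1, hqQ, hQH, hHQ, hcop, hα⟩ := dirichlet α H (L ^ A2) (by (clear * - hL3; positivity)) hLA2H
  obtain ⟨q', Q', a', hq1', hqQ', hQH', hHQ', hcop', hα'⟩ :=
    dirichlet α H (L ^ M) (by (clear * - hL3; positivity)) hLMH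
  have hq1r : (1 : ℝ) ≤ q := by exact_mod_cast hq1
  have hq1r' : (1 : ℝ) ≤ q' := by exact_mod_cast hq1'
  have harc : ∀ (P : ℝ) (q Q : ℕ) (a : ℤ), 0 < P → P ≤ L ^ M → 1 ≤ q → (H : ℝ) / P ≤ (Q + 1 : ℕ) →
      |α - a / q| ≤ 1 / ((q : ℝ) * (Q + 1 : ℕ)) → |α - a / q| ≤ L ^ M / H := by
    intro P q Q a hP hPM hq hHQ hα
    refine hα.trans ?_
    have hq' : (1 : ℝ) ≤ q := by exact_mod_cast hq
    have h1 : (H : ℝ) ≤ P * (Q + 1 : ℕ) := by
      rw [div_le_iff₀ hP] at hHQ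
      linarith only [hHQ]
    have hQ0 : (0 : ℝ) < (Q + 1 : ℕ) := by (clear * -; positivity)
    rw [div_le_div_iff₀ (by (clear * - hq; positivity)) hH0, one_mul]
    calc (H : ℝ) ≤ P * (Q + 1 : ℕ) := h1
      _ ≤ L ^ M * (q * (Q + 1 : ℕ)) := by
          refine mul_le_mul hPM ?_ hQ0.le (by (clear * - hL3; positivity))
          nlinarith only [hq']
  rcases le_or_gt (q : ℝ) (L ^ M) with hqM | hqM
  · exact hmajor q a hq1 hqM (harc _ q Q a (by (clear * - hL3; positivity)) (pow_le_pow_right₀ hL1 hMA) hq1 hHQ hα)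
  rcases le_or_gt (q' : ℝ) (L ^ M) with hqM' | hqM'
  · exact hmajor q' a' hq1' hqM' (harc _ q' Q' a' (by (clear * - hL3; positivity)) le_rfl hq1' hHQ' hα')
  -- minor arcs
  have hqQr : (q : ℝ) ≤ Q := by exact_mod_cast hqQ
  have hqQr' : (q' : ℝ) ≤ Q' := by exact_mod_cast hqQ'
  have hP := hmp q H (Q + 1) a α hcop hα ((pow_le_pow_right₀ hL1 hMA).trans hqM.le)
    (hqQr.trans hQH) hHQ hxH hHxN
  have hq'H : (q' : ℝ) ≤ H / L ^ M := hqQr'.trans hQH'
  have hq'x : q' ≤ x := by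
    have : (q' : ℝ) ≤ x := (hq'H.trans (div_le_self hH0.le hLM1)).trans hHx'
    exact_mod_cast this
  have hα2 : |α - a' / q'| ≤ 1 / (q' : ℝ) ^ 2 := by
    refine hα'.trans (one_div_le_one_div_of_le (by (clear * - hq1'; positivity)) ?_)
    rw [sq]
    refine mul_le_mul_of_nonneg_left ?_ (by linarith only [hLM1, hqM'])
    push_cast
    linarith only [hqQr']
  have hx14 : (x : ℝ) ^ (1 / 8 : ℝ) ≤ H := by
    refine le_trans ?_ hH13
    exact Real.rpow_le_rpow_of_exponent_le hx1' (by norm_num)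
  have hnu1 : ∀ u : ℕ, ‖∑ n ∈ Ioc u (u + H), (nuz (zA A x) n : ℂ) * ex (n * α)‖ ≤
      2 * (H / L ^ (B + 4)) := by
    intro u
    refine (hnu u H q' a' α hx14 hHxN hq1' hq'x hcop' hα2).trans ?_
    have h1 : (H : ℝ) / q' ≤ H / L ^ M := div_le_div_of_nonneg_left hH0.le (by (clear * - hL3; positivity)) hqM'.le
    have h2 : (x : ℝ) ^ ((1 / 8 : ℝ) / 2) ≤ H / L ^ M := by
      rw [le_div_iff₀ (by (clear * - hL3; positivity))]
      calc (x : ℝ) ^ ((1 / 8 : ℝ) / 2) * L ^ M ≤ (x : ℝ) ^ ((1 / 8 : ℝ) / 2) * (x : ℝ) ^ (1 / 12 : ℝ) :=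
            mul_le_mul_of_nonneg_left e2 (by (clear * - hx1; positivity))
        _ = (x : ℝ) ^ ((1 / 8 : ℝ) / 2 + 1 / 12) := by rw [← Real.rpow_add hx0]
        _ ≤ (x : ℝ) ^ (1 / 6 : ℝ) := Real.rpow_le_rpow_of_exponent_le hx1' (by norm_num)
        _ ≤ H := hH13
    have h3 : (H : ℝ) / q' + (x : ℝ) ^ ((1 / 8 : ℝ) / 2) + q' ≤ 3 * (H / L ^ M) := by linarith only [hQH', hqQr', h1, h2]
    have h4 : C * ((H : ℝ) / q' + (x : ℝ) ^ ((1 / 8 : ℝ) / 2) + q') * L ^ 3 ≤ H / L ^ (B + 4) := by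
      have h5 : C * ((H : ℝ) / q' + (x : ℝ) ^ ((1 / 8 : ℝ) / 2) + q') * L ^ 3 ≤
          C * (3 * (H / L ^ M)) * L ^ 3 := by
        refine mul_le_mul_of_nonneg_right (mul_le_mul_of_nonneg_left h3 hC.le) (by (clear * - hL3; positivity))
      refine h5.trans ?_
      have h6 : (H : ℝ) / L ^ M ≤ H / L ^ (B + 10) :=
        div_le_div_of_nonneg_left hH0.le (by (clear * - hL3; positivity)) (pow_le_pow_right₀ hL1 hMB)
      have h7 : C * (3 * (H / L ^ M)) * L ^ 3 ≤ C * (3 * (H / L ^ (B + 10))) * L ^ 3 := by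
        refine mul_le_mul_of_nonneg_right (mul_le_mul_of_nonneg_left ?_ hC.le) (by (clear * - hL3; positivity))
        linarith only [h6]
      refine h7.trans ?_
      have h8 : C * (3 * (H / L ^ (B + 10))) * L ^ 3 = 3 * C / L ^ 3 * (H / L ^ (B + 4)) := by
        have e : L ^ (B + 10) = L ^ (B + 4) * (L ^ 3 * L ^ 3) := by
          rw [← pow_add, ← pow_add]
        rw [e]
        field_simp
      rw [h8]
      calc 3 * C / L ^ 3 * (H / L ^ (B + 4)) ≤ 1 * (H / L ^ (B + 4)) := by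
            refine mul_le_mul_of_nonneg_right ?_ (by (clear * - hL3 hH1; positivity))
            rw [div_le_one (by (clear * - hL3; positivity))]
            have : L ≤ L ^ 3 := le_self_pow₀ hL1 (by norm_num)
            linarith only [hLC, this]
        _ = H / L ^ (B + 4) := one_mul _
    linarith only [h4]
  have hsplit : ∀ u ∈ (range (2 * x + 1)).filter (fun u => u + H ≤ 2 * x),
      ‖∑ n ∈ Ioc u (u + H), (ff (zA A x) n : ℂ) * ex (n * α)‖ ^ 2 ≤
      2 * ‖∑ n ∈ Ioc u (u + H), (lp n : ℂ) * ex (n * α)‖ ^ 2 + 2 * (2 * (H / L ^ (B + 4))) ^ 2 := by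
    intro u _
    have h1 : ∑ n ∈ Ioc u (u + H), (ff (zA A x) n : ℂ) * ex (n * α) =
        ∑ n ∈ Ioc u (u + H), (lp n : ℂ) * ex (n * α) -
        ∑ n ∈ Ioc u (u + H), (nuz (zA A x) n : ℂ) * ex (n * α) := by
      rw [← Finset.sum_sub_distrib]
      refine Finset.sum_congr rfl (fun n _ => ?_)
      unfold ff
      push_cast
      ring
    rw [h1]
    have h2 := norm_sub_le (∑ n ∈ Ioc u (u + H), (lp n : ℂ) * ex (n * α))
      (∑ n ∈ Ioc u (u + H), (nuz (zA A x) n : ℂ) * ex (n * α))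
    have h3 := hnu1 u
    set X := ‖∑ n ∈ Ioc u (u + H), (lp n : ℂ) * ex (n * α)‖ with hX
    have hX0 : 0 ≤ X := norm_nonneg _
    have h4 : ‖∑ n ∈ Ioc u (u + H), (lp n : ℂ) * ex (n * α) -
        ∑ n ∈ Ioc u (u + H), (nuz (zA A x) n : ℂ) * ex (n * α)‖ ≤ X + 2 * (H / L ^ (B + 4)) := by
      linarith only [h3, h2]
    calc _ ≤ (X + 2 * (H / L ^ (B + 4))) ^ 2 := pow_le_pow_left₀ (norm_nonneg _) h4 2
      _ ≤ 2 * X ^ 2 + 2 * (2 * (H / L ^ (B + 4))) ^ 2 := by
          nlinarith only [sq_nonneg (X - 2 * (H / L ^ (B + 4)))]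
  refine (Finset.sum_le_sum hsplit).trans ?_
  rw [Finset.sum_add_distrib, ← Finset.mul_sum, Finset.sum_const, nsmul_eq_mul]
  have h1 : ∑ u ∈ (range (2 * x + 1)).filter (fun u => u + H ≤ 2 * x),
      ‖∑ n ∈ Ioc u (u + H), (lp n : ℂ) * ex (n * α)‖ ^ 2 ≤ x * (H : ℝ) ^ 2 / L ^ (B + 4) := by
    refine le_trans ?_ hP
    exact Finset.sum_le_sum_of_subset_of_nonneg (Finset.filter_subset _ _)
      (fun _ _ _ => by (clear * -; positivity))
  have h2 : (((range (2 * x + 1)).filter (fun u => u + H ≤ 2 * x)).card : ℝ) *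
      (2 * (2 * (H / L ^ (B + 4))) ^ 2) ≤ x * (H : ℝ) ^ 2 / L ^ (B + 4) := by
    have h3 : (((range (2 * x + 1)).filter (fun u => u + H ≤ 2 * x)).card : ℝ) ≤ 3 * x := by
      have h4 := Finset.card_filter_le (range (2 * x + 1)) (fun u => u + H ≤ 2 * x)
      rw [Finset.card_range] at h4
      have h5 : ((range (2 * x + 1)).filter (fun u => u + H ≤ 2 * x)).card ≤ 3 * x := by omega
      exact_mod_cast h5
    calc _ ≤ 3 * (x : ℝ) * (2 * (2 * (H / L ^ (B + 4))) ^ 2) :=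
          mul_le_mul_of_nonneg_right h3 (by (clear * - hL3 hH1; positivity))
      _ = 24 / L ^ (B + 4) * (x * (H : ℝ) ^ 2 / L ^ (B + 4)) := by
          field_simp
          norm_num
      _ ≤ 1 * (x * (H : ℝ) ^ 2 / L ^ (B + 4)) := by
          refine mul_le_mul_of_nonneg_right ?_ hT0
          rw [div_le_one (by (clear * - hL3; positivity))]
          have h6 : (3 : ℝ) ^ 4 ≤ L ^ 4 := pow_le_pow_left₀ (by norm_num) hL3 4
          have h7 : L ^ 4 ≤ L ^ (B + 4) := pow_le_pow_right₀ hL1 (by omega)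
          have h8 : (24 : ℝ) ≤ 3 ^ 4 := by norm_num
          linarith only [h6, h7]
      _ = x * (H : ℝ) ^ 2 / L ^ (B + 4) := one_mul _
  linarith only [h1, h2]

end Pool.Agent.VM
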