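import Pool.Agent.Lib.P5632c9.DivBound

/-!
# Module ConvBd: products of arithmetic functions bounded by one
-/

set_option autoImplicit false

open Finset

namespace Pool.Agent.VM

theorem prod_bound {ι : Type} [DecidableEq ι] (D : Finset ι) (G : ι → ArithmeticFunction ℂ)
    (hG : ∀ i ∈ D, ∀ n, ‖G i n‖ ≤ 1) (n : ℕ) :
    ‖(∏ i ∈ D, G i) n‖ ≤ (n.divisors.card : ℝ) ^ D.card := by
  induction D using Finset.induction_on generalizing n with
  | empty =>
    simp only [prod_empty, card_empty, pow_zero, ArithmeticFunction.one_apply]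
    split_ifs <;> simp
  | insert a s ha ih =>
    rw [prod_insert ha, ArithmeticFunction.mul_apply, card_insert_of_notMem ha]
    have h1 : ∀ x ∈ n.divisorsAntidiagonal,
        ‖G a x.1 * (∏ i ∈ s, G i) x.2‖ ≤ (n.divisors.card : ℝ) ^ s.card := by
      intro x hx
      rw [norm_mul]
      have h2 := hG a (mem_insert_self _ _) x.1
      have h3 := ih (fun i hi => hG i (mem_insert_of_mem hi)) x.2
      obtain ⟨hx1, hx0⟩ := Nat.mem_divisorsAntidiagonal.1 hx
      have h4 : (x.2.divisors.card : ℝ) ≤ n.divisors.card := by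
        exact_mod_cast card_le_card (Nat.divisors_subset_of_dvd hx0 ⟨x.1, by rw [← hx1, mul_comm]⟩)
      calc ‖G a x.1‖ * ‖(∏ i ∈ s, G i) x.2‖ ≤ 1 * (x.2.divisors.card : ℝ) ^ s.card :=
            mul_le_mul h2 h3 (norm_nonneg _) zero_le_one
        _ = (x.2.divisors.card : ℝ) ^ s.card := one_mul _
        _ ≤ _ := pow_le_pow_left₀ (by positivity) h4 _
    calc ‖∑ x ∈ n.divisorsAntidiagonal, G a x.1 * (∏ i ∈ s, G i) x.2‖
        ≤ ∑ x ∈ n.divisorsAntidiagonal, ‖G a x.1 * (∏ i ∈ s, G i) x.2‖ := norm_sum_le _ _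
      _ ≤ ∑ _x ∈ n.divisorsAntidiagonal, (n.divisors.card : ℝ) ^ s.card := sum_le_sum h1
      _ = (n.divisors.card : ℝ) ^ (s.card + 1) := by
          rw [sum_const, nsmul_eq_mul, pow_succ, mul_comm]
          congr 2
          rw [← Nat.map_div_right_divisors, card_map]

private theorem mul_ne_zero_exists {F H : ArithmeticFunction ℂ} {n : ℕ} (h : (F * H) n ≠ 0) :
    ∃ a b, a * b = n ∧ F a ≠ 0 ∧ H b ≠ 0 := by
  rw [ArithmeticFunction.mul_apply] at h
  obtain ⟨x, hx, hx0⟩ := exists_ne_zero_of_sum_ne_zero h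
  obtain ⟨hx1, -⟩ := Nat.mem_divisorsAntidiagonal.1 hx
  exact ⟨x.1, x.2, hx1, left_ne_zero_of_mul hx0, right_ne_zero_of_mul hx0⟩

theorem prod_supp {ι : Type} [DecidableEq ι] (D : Finset ι) (hD : D.Nonempty) (G : ι → ArithmeticFunction ℂ)
    (lo hi : ι → ℕ) (hG : ∀ i ∈ D, ∀ n, G i n ≠ 0 → lo i < n ∧ n ≤ hi i) (n : ℕ)
    (hn : (∏ i ∈ D, G i) n ≠ 0) : ∏ i ∈ D, lo i < n ∧ n ≤ ∏ i ∈ D, hi i := by
  induction hD using Finset.Nonempty.cons_induction generalizing n with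
  | singleton a =>
    simp only [prod_singleton] at hn ⊢
    exact hG a (mem_singleton_self _) n hn
  | cons a s ha hs ih =>
    rw [prod_cons] at hn ⊢
    rw [prod_cons]
    obtain ⟨x, y, hxy, hx, hy⟩ := mul_ne_zero_exists hn
    obtain ⟨h1, h2⟩ := hG a (mem_cons_self _ _) x hx
    obtain ⟨h3, h4⟩ := ih (fun i hi => hG i (mem_cons_of_mem hi)) y hy
    rw [← hxy]
    exact ⟨Nat.mul_lt_mul'' h1 h3, Nat.mul_le_mul h2 h4⟩

theorem prod_le {ι : Type} [DecidableEq ι] (D : Finset ι) (G : ι → ArithmeticFunction ℂ)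
    (hi : ι → ℕ) (hG : ∀ i ∈ D, ∀ n, G i n ≠ 0 → n ≤ hi i) (n : ℕ)
    (hn : (∏ i ∈ D, G i) n ≠ 0) : n ≤ ∏ i ∈ D, hi i := by
  induction D using Finset.induction_on generalizing n with
  | empty =>
    simp only [prod_empty, ArithmeticFunction.one_apply] at hn ⊢
    by_contra hc
    exact hn (if_neg (by omega))
  | insert a s ha ih =>
    rw [prod_insert ha] at hn ⊢
    obtain ⟨x, y, hxy, hx, hy⟩ := mul_ne_zero_exists hn
    rw [← hxy]
    exact Nat.mul_le_mul (hG a (mem_insert_self _ _) x hx)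
      (ih (fun i hi => hG i (mem_insert_of_mem hi)) y hy)

theorem prod_coprime {ι : Type} [DecidableEq ι] (D : Finset ι) (G : ι → ArithmeticFunction ℂ) (r : ℕ)
    (hG : ∀ i ∈ D, ∀ n, G i n ≠ 0 → n.Coprime r) (n : ℕ) (hn : (∏ i ∈ D, G i) n ≠ 0) : n.Coprime r := by
  induction D using Finset.induction_on generalizing n with
  | empty =>
    simp only [prod_empty, ArithmeticFunction.one_apply] at hn
    have h1 : n = 1 := by
      by_contra hc
      exact hn (if_neg hc)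
    rw [h1]
    exact Nat.coprime_one_left r
  | insert a s ha ih =>
    rw [prod_insert ha] at hn
    obtain ⟨x, y, hxy, hx, hy⟩ := mul_ne_zero_exists hn
    rw [← hxy]
    exact Nat.Coprime.mul_left (hG a (mem_insert_self _ _) x hx)
      (ih (fun i hi => hG i (mem_insert_of_mem hi)) y hy)

private theorem mul_sum_div (F H : ArithmeticFunction ℂ) (N : ℕ) :
    ∑ n ∈ Icc 1 N, ‖(F * H) n‖ / n ≤ (∑ n ∈ Icc 1 N, ‖F n‖ / n) * (∑ n ∈ Icc 1 N, ‖H n‖ / n) := by
  rw [sum_mul_sum]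
  have h1 : ∀ n ∈ Icc 1 N, ‖(F * H) n‖ / n ≤
      ∑ x ∈ n.divisorsAntidiagonal, (‖F x.1‖ / x.1) * (‖H x.2‖ / x.2) := by
    intro n hn
    rw [ArithmeticFunction.mul_apply]
    calc ‖∑ x ∈ n.divisorsAntidiagonal, F x.1 * H x.2‖ / n
        ≤ (∑ x ∈ n.divisorsAntidiagonal, ‖F x.1 * H x.2‖) / n := by
          apply div_le_div_of_nonneg_right (norm_sum_le _ _) (by positivity)
      _ = ∑ x ∈ n.divisorsAntidiagonal, (‖F x.1‖ / x.1) * (‖H x.2‖ / x.2) := by
          rw [sum_div]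
          refine sum_congr rfl fun x hx => ?_
          obtain ⟨hx1, hx0⟩ := Nat.mem_divisorsAntidiagonal.1 hx
          rw [norm_mul, ← hx1]
          push_cast
          rw [mul_div_mul_comm]
  refine (sum_le_sum h1).trans ?_
  rw [← sum_product']
  refine le_trans (sum_le_sum fun n hn => ?_)
    (sum_fiberwise_le_sum_of_sum_fiber_nonneg (s := Icc 1 N ×ˢ Icc 1 N) (t := Icc 1 N)
      (g := fun x : ℕ × ℕ => x.1 * x.2)
      (f := fun x : ℕ × ℕ => (‖F x.1‖ / x.1) * (‖H x.2‖ / x.2))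
      (fun y _ => sum_nonneg fun x _ => by positivity))
  refine sum_le_sum_of_subset_of_nonneg (fun x hx => ?_) (fun x _ _ => by positivity)
  obtain ⟨hx1, hx0⟩ := Nat.mem_divisorsAntidiagonal.1 hx
  obtain ⟨h2, h3⟩ := mem_Icc.1 hn
  have ha : 0 < x.1 := Nat.pos_of_ne_zero fun h => hx0 (by rw [← hx1, h, zero_mul])
  have hb : 0 < x.2 := Nat.pos_of_ne_zero fun h => hx0 (by rw [← hx1, h, mul_zero])
  have ha' : x.1 ≤ n := Nat.le_of_dvd (by omega) ⟨x.2, hx1.symm⟩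
  have hb' : x.2 ≤ n := Nat.le_of_dvd (by omega) ⟨x.1, by rw [← hx1, mul_comm]⟩
  refine mem_filter.2 ⟨mem_product.2 ⟨mem_Icc.2 ⟨ha, by omega⟩, mem_Icc.2 ⟨hb, by omega⟩⟩, hx1⟩

theorem prod_sum_div {ι : Type} [DecidableEq ι] (D : Finset ι) (G : ι → ArithmeticFunction ℂ) (N : ℕ)
    (hG : ∀ i ∈ D, ∑ n ∈ Icc 1 N, ‖G i n‖ / n ≤ 1) :
    ∑ n ∈ Icc 1 N, ‖(∏ i ∈ D, G i) n‖ / n ≤ 1 := by
  induction D using Finset.induction_on with
  | empty =>
    simp only [prod_empty, ArithmeticFunction.one_apply]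
    rcases Nat.eq_zero_or_pos N with h | h
    · subst h
      simp
    · rw [sum_eq_single_of_mem 1 (by simp; omega)]
      · simp
      · intro b _ hb
        rw [if_neg hb]
        simp
  | insert a s ha ih =>
    rw [prod_insert ha]
    refine (mul_sum_div _ _ N).trans ?_
    have h1 := hG a (mem_insert_self _ _)
    have h2 := ih (fun i hi => hG i (mem_insert_of_mem hi))
    exact mul_le_one₀ h1 (sum_nonneg fun n _ => by positivity) h2

theorem tau_small (ν : ℝ) (hν : 0 < ν) : ∃ C : ℝ, 1 ≤ C ∧ ∀ n : ℕ, 1 ≤ n →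
    (n.divisors.card : ℝ) ≤ C * (n : ℝ) ^ ν := by
  obtain ⟨C, hC, h⟩ := Pool.Agent.Lib.P5632c9.card_divisors_le ν hν
  exact ⟨C, hC, fun n hn => h n (by omega)⟩

end Pool.Agent.VM
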