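import Pool.Agent.Lib.VM.Defs
import Pool.Agent.Lib.VM.ConvBd

/-!
# Module CellBasic: the basic properties of the cells

Unfold `gcl`, `cellS`, `cellM`, `ind`. `|μ(n)| ≤ 1`. `∑_{2^e/2 < n ≤ 2^e} 1/n ≤ 1`: for `e ≥ 1` there are `2^(e-1)` terms, each
at most `1/2^(e-1)`; for `e = 0` only `n = 1`. `Fcl_bound`, `Fcl_supp`, `Fcl_coprime`, `Fcl_split` from ConvBd and
`Finset.mul_prod_erase`.
-/

set_option autoImplicit false

open Finset

namespace Pool.Agent.VM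

open Pool.Agent.VK Pool.Agent.HLT

namespace CellBasicAux

lemma ind_norm (r N1 N2 n : ℕ) : ‖ind r N1 N2 n‖ ≤ 1 := by
  rw [ind_apply]; split_ifs <;> simp

lemma mu_norm (n : ℕ) : ‖((ArithmeticFunction.moebius n : ℤ) : ℂ)‖ ≤ 1 := by
  have h : |ArithmeticFunction.moebius n| ≤ 1 := ArithmeticFunction.abs_moebius_le_one
  rw [Complex.norm_intCast]
  exact_mod_cast h

lemma cellM_norm (r z e n : ℕ) : ‖cellM r z e n‖ ≤ 1 := by
  rw [cellM_apply]; split_ifs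
  · exact mu_norm n
  · simp

lemma ind_ne {r N1 N2 n : ℕ} (h : ind r N1 N2 n ≠ 0) : N1 < n ∧ n ≤ N2 ∧ n.Coprime r := by
  rw [ind_apply] at h
  by_contra hc
  exact h (if_neg hc)

lemma cellM_ne {r z e n : ℕ} (h : cellM r z e n ≠ 0) :
    2 ^ e / 2 < n ∧ n ≤ 2 ^ e ∧ n ≤ z ∧ n.Coprime r := by
  rw [cellM_apply] at h
  by_contra hc
  exact h (if_neg hc)

/-- the harmonic sum over a dyadic block -/
lemma dy (e : ℕ) : ∑ n ∈ Ioc ((2 : ℕ) ^ e / 2) (2 ^ e), (1 : ℝ) / n ≤ 1 := by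
  rcases Nat.eq_zero_or_pos e with rfl | he
  · norm_num
  · obtain ⟨k, rfl⟩ : ∃ k, e = k + 1 := ⟨e - 1, by omega⟩
    have h1 : (2 : ℕ) ^ (k + 1) / 2 = 2 ^ k := by rw [pow_succ]; simp
    rw [h1]
    have h2 : ∀ n ∈ Ioc ((2 : ℕ) ^ k) (2 ^ (k + 1)), (1 : ℝ) / n ≤ 1 / 2 ^ k := by
      intro n hn
      rw [mem_Ioc] at hn
      apply one_div_le_one_div_of_le (by positivity)
      exact_mod_cast hn.1.le
    refine (sum_le_card_nsmul _ _ _ h2).trans ?_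
    rw [Nat.card_Ioc, nsmul_eq_mul]
    have h3 : (2 : ℕ) ^ (k + 1) - 2 ^ k = 2 ^ k := by rw [pow_succ]; omega
    rw [h3]
    push_cast
    rw [mul_one_div, div_self (by positivity)]

end CellBasicAux

open CellBasicAux

theorem gcl_bound (z r y : ℕ) (e : Fin 12 → ℕ) (i : Fin 12) (n : ℕ) : ‖gcl z r y e i n‖ ≤ 1 := by
  unfold gcl cellS
  split_ifs
  · exact cellM_norm _ _ _ _
  · exact ind_norm _ _ _ _
  · exact ind_norm _ _ _ _

theorem gcl_supp (z r y : ℕ) (e : Fin 12 → ℕ) (i : Fin 12) (n : ℕ) (h : gcl z r y e i n ≠ 0) :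
    2 ^ e i / 2 < n ∧ n ≤ 2 ^ e i ∧ n.Coprime r := by
  unfold gcl cellS at h
  split_ifs at h
  · have := cellM_ne h
    exact ⟨this.1, this.2.1, this.2.2.2⟩
  · have := ind_ne h
    exact ⟨lt_of_le_of_lt (le_max_right _ _) this.1, this.2⟩
  · have := ind_ne h
    exact ⟨lt_of_le_of_lt (le_max_right _ _) this.1, this.2⟩

/-- A Moebius cell which starts above `z` vanishes. -/
theorem gcl_moebius (z r y : ℕ) (e : Fin 12 → ℕ) (i : Fin 12) (hi : i.val < 6) (hz : z ≤ 2 ^ e i / 2) :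
    gcl z r y e i = 0 := by
  ext n
  unfold gcl
  rw [if_pos hi, cellM_apply, if_neg]
  · simp
  · rintro ⟨h1, -, h2, -⟩
    omega

/-- A smooth factor is an indicator. -/
theorem gcl_smooth (z r y : ℕ) (e : Fin 12 → ℕ) (i : Fin 12) (hi : 6 ≤ i.val) :
    ∃ y' : ℕ, 2 ^ e i / 2 ≤ y' ∧ gcl z r y e i = ind r y' (2 ^ e i) := by
  unfold gcl cellS
  rw [if_neg (by omega)]
  split_ifs
  · exact ⟨_, le_max_right _ _, rfl⟩
  · exact ⟨_, le_max_right _ _, rfl⟩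

theorem gcl_sum_div (z r y : ℕ) (e : Fin 12 → ℕ) (i : Fin 12) (N : ℕ) :
    ∑ n ∈ Icc 1 N, ‖gcl z r y e i n‖ / n ≤ 1 := by
  classical
  refine le_trans ?_ (dy (e i))
  have h1 : ∑ n ∈ Icc 1 N, ‖gcl z r y e i n‖ / n
      = ∑ n ∈ (Icc 1 N).filter (fun n => gcl z r y e i n ≠ 0), ‖gcl z r y e i n‖ / n := by
    rw [sum_filter]
    apply sum_congr rfl
    intro n _
    by_cases h : gcl z r y e i n = 0
    · simp [h]
    · simp [h]
  rw [h1]
  have h2 : ∑ n ∈ (Icc 1 N).filter (fun n => gcl z r y e i n ≠ 0), ‖gcl z r y e i n‖ / n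
      ≤ ∑ n ∈ (Icc 1 N).filter (fun n => gcl z r y e i n ≠ 0), (1 : ℝ) / n := by
    apply sum_le_sum
    intro n _
    exact div_le_div_of_nonneg_right (gcl_bound z r y e i n) (Nat.cast_nonneg n)
  refine h2.trans ?_
  apply sum_le_sum_of_subset_of_nonneg
  · intro n hn
    rw [mem_filter] at hn
    have := gcl_supp z r y e i n hn.2
    rw [mem_Ioc]
    exact ⟨this.1, this.2.1⟩
  · intro n _ _
    positivity

theorem Fcl_bound (z r y : ℕ) (e : Fin 12 → ℕ) (D : Finset (Fin 12)) (n : ℕ) :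
    ‖(∏ i ∈ D, gcl z r y e i) n‖ ≤ (n.divisors.card : ℝ) ^ 12 := by
  rcases Nat.eq_zero_or_pos n with rfl | hn
  · rw [ArithmeticFunction.map_zero]
    simp
  · refine (prod_bound D _ (fun i _ n => gcl_bound z r y e i n) n).trans ?_
    apply pow_le_pow_right₀
    · have : 1 ≤ n.divisors.card := Finset.card_pos.mpr ⟨1, by simp [hn.ne']⟩
      exact_mod_cast this
    · exact (card_le_univ D).trans (by simp)

theorem Fcl_coprime (z r y : ℕ) (e : Fin 12 → ℕ) (D : Finset (Fin 12)) (n : ℕ)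
    (h : (∏ i ∈ D, gcl z r y e i) n ≠ 0) : n.Coprime r :=
  prod_coprime D _ r (fun i _ n hn => (gcl_supp z r y e i n hn).2.2) n h

theorem Fcl_le (z r y : ℕ) (e : Fin 12 → ℕ) (D : Finset (Fin 12)) (n : ℕ)
    (h : (∏ i ∈ D, gcl z r y e i) n ≠ 0) : n ≤ ∏ i ∈ D, 2 ^ e i :=
  prod_le D _ _ (fun i _ n hn => (gcl_supp z r y e i n hn).2.1) n h

namespace CellBasicAux

lemma lowD (z r y : ℕ) (e : Fin 12 → ℕ) (D : Finset (Fin 12)) :
    ∀ n : ℕ, (∏ i ∈ D, gcl z r y e i) n ≠ 0 → ∏ i ∈ D, 2 ^ e i ≤ 2 ^ D.card * n := by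
  classical
  induction D using Finset.induction_on with
  | empty =>
    intro n hn
    rw [prod_empty] at hn
    rw [prod_empty, card_empty, pow_zero, one_mul]
    rcases Nat.eq_zero_or_pos n with rfl | h
    · simp at hn
    · exact h
  | insert i D hi ih =>
    intro n hn
    rw [prod_insert hi, ArithmeticFunction.mul_apply] at hn
    obtain ⟨p, hp, hp2⟩ := exists_ne_zero_of_sum_ne_zero hn
    rw [Nat.mem_divisorsAntidiagonal] at hp
    have h1 : gcl z r y e i p.1 ≠ 0 := left_ne_zero_of_mul hp2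
    have h2 := ih p.2 (right_ne_zero_of_mul hp2)
    have h3 := (gcl_supp z r y e i p.1 h1).1
    have h4 : 2 ^ e i ≤ 2 * p.1 := by omega
    rw [prod_insert hi, card_insert_of_notMem hi, ← hp.1]
    calc 2 ^ e i * ∏ x ∈ D, 2 ^ e x ≤ (2 * p.1) * (2 ^ D.card * p.2) := Nat.mul_le_mul h4 h2
      _ = 2 ^ (D.card + 1) * (p.1 * p.2) := by ring

end CellBasicAux

/-- The support of `Fcl` is in `(Z/2^12, Z]`, `Z = ∏ 2^(e i)`. -/
theorem Fcl_supp (z r y : ℕ) (e : Fin 12 → ℕ) (n : ℕ) (h : Fcl z r y e n ≠ 0) :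
    n ≤ ∏ i, 2 ^ e i ∧ ∏ i, 2 ^ e i ≤ 2 ^ 12 * n := by
  refine ⟨Fcl_le z r y e univ n h, ?_⟩
  have := lowD z r y e univ n h
  simpa using this

theorem Fcl_split (z r y : ℕ) (e : Fin 12 → ℕ) (i : Fin 12) :
    Fcl z r y e = (∏ j ∈ univ.erase i, gcl z r y e j) * gcl z r y e i := by
  unfold Fcl
  exact (prod_erase_mul _ _ (mem_univ i)).symm

/-- Reindexing the factors in `Lc`. -/
theorem Fcl_class (z r y : ℕ) (e : Fin 12 → ℕ) (Lc : Finset (Fin 12)) (J : ℕ) (hJ : Lc.card = J) :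
    ∃ φ : Fin J → Fin 12, (∀ j, φ j ∈ Lc) ∧
      Fcl z r y e = (∏ i ∈ Lcᶜ, gcl z r y e i) * ∏ j, gcl z r y e (φ j) ∧
      ∀ g : Fin 12 → ℝ, ∏ i ∈ Lc, g i = ∏ j, g (φ j) := by
  classical
  let E := Lc.equivFinOfCardEq hJ
  refine ⟨fun j => (E.symm j : Fin 12), fun j => (E.symm j).2, ?_, ?_⟩
  · unfold Fcl
    have h1 : ∏ j, gcl z r y e ((E.symm j : Fin 12)) = ∏ i ∈ Lc, gcl z r y e i := by
      rw [← prod_coe_sort Lc]
      exact Equiv.prod_comp E.symm (fun x : Lc => gcl z r y e x)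
    rw [h1]
    exact (prod_compl_mul_prod Lc _).symm
  · intro g
    rw [← prod_coe_sort Lc]
    exact (Equiv.prod_comp E.symm (fun x : Lc => g x)).symm

end Pool.Agent.VM
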