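import Pool.Agent.Lib.VK.WinBilin
import Pool.Agent.Lib.VM.CellBasic

/-!
# Module ClsTwo: Type II classes in windows

`VK.win_bilin` with `M = 2^(e i - 1)` (`gcl i` is supported on `Ioc M (2M)`, `gcl_supp`, `2^(e i)/2 = 2^(e i - 1)`), `a m = gcl z r y e i m`,
`b n = (∏_{j ≠ i} gcl j) n` (`Fcl_split`; `ArithmeticFunction.mul_apply`, `∑_{k ∈ (u,u+H]} ∑_{(b,a), ab = k} = ∑_m ∑_{n ∈ (u/m,(u+H)/m]}`, `b 0 = 0`).
`∑ |a|² ≤ M`, `∑_{n ≤ (x+H)/M} |b n|² ≤ ∑ τ(n)^24 ≤ ((x+H)/M) (1 + log(2x))^(2^24)` (`Fcl_bound`, `HLT.sum_tau_pow`; hide the exponent: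
`c` is existential). So the bound is `C H M (2x/M) (1+log(2x))^c (M + H/q + H/M + q)(1 + log q)`. If `(x+H)/M = 0` everything vanishes.
-/

set_option autoImplicit false

open Finset

namespace Pool.Agent.VM

open Pool.Agent.VK Pool.Agent.HLT

namespace ClsTwoAux

lemma inner_re (m u H : ℕ) (hm : 1 ≤ m) (F : ℕ → ℕ → ℂ) :
    ∑ n ∈ Ioc (u / m) ((u + H) / m), F (m * n) n = ∑ k ∈ (Ioc u (u + H)).filter (fun k => m ∣ k), F k (k / m) := by
  refine sum_nbij' (fun n => m * n) (fun k => k / m) ?_ ?_ ?_ ?_ ?_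
  · intro n hn
    rw [mem_Ioc, Nat.div_lt_iff_lt_mul (by omega), Nat.le_div_iff_mul_le (by omega)] at hn
    rw [mem_filter, mem_Ioc]
    refine ⟨⟨?_, ?_⟩, dvd_mul_right _ _⟩
    · rw [mul_comm]; exact hn.1
    · rw [mul_comm]; exact hn.2
  · intro k hk
    rw [mem_filter, mem_Ioc] at hk
    obtain ⟨⟨h1, h2⟩, n, rfl⟩ := hk
    rw [Nat.mul_div_cancel_left _ (by omega), mem_Ioc, Nat.div_lt_iff_lt_mul (by omega), Nat.le_div_iff_mul_le (by omega)]
    rw [mul_comm n m]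
    exact ⟨h1, h2⟩
  · intro n _
    exact Nat.mul_div_cancel_left _ (by omega)
  · intro k hk
    rw [mem_filter] at hk
    exact Nat.mul_div_cancel' hk.2
  · intro n _
    rw [Nat.mul_div_cancel_left _ (by omega)]

lemma reidx (f g : ArithmeticFunction ℂ) (M u H : ℕ) (c : ℕ → ℂ)
    (hg : ∀ m, g m ≠ 0 → M < m ∧ m ≤ 2 * M) :
    ∑ k ∈ Ioc u (u + H), (f * g) k * c k =
      ∑ m ∈ Ioc M (2 * M), ∑ n ∈ Ioc (u / m) ((u + H) / m), g m * f n * c (m * n) := by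
  have h1 : ∀ k ∈ Ioc u (u + H), (f * g) k * c k =
      ∑ m ∈ Ioc M (2 * M), if m ∣ k then g m * f (k / m) * c k else 0 := by
    intro k hk
    have hk0 : k ≠ 0 := by have := (mem_Ioc.1 hk).1; omega
    rw [ArithmeticFunction.mul_apply, Nat.sum_divisorsAntidiagonal' (f := fun a b => f a * g b), sum_mul,
      ← sum_filter]
    symm
    apply sum_subset_zero_on_sdiff
    · intro m hm
      rw [mem_filter] at hm
      exact Nat.mem_divisors.2 ⟨hm.2, hk0⟩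
    · intro m hm
      rw [mem_sdiff, mem_filter, mem_Ioc, Nat.mem_divisors] at hm
      have : g m = 0 := by
        by_contra hc
        exact hm.2 ⟨hg m hc, hm.1.1⟩
      rw [this]; ring
    · intro m _
      ring
  rw [sum_congr rfl h1, sum_comm]
  apply sum_congr rfl
  intro m hm
  have hm1 : 1 ≤ m := by have := (mem_Ioc.1 hm).1; omega
  rw [inner_re m u H hm1 (fun k n => g m * f n * c k), sum_filter]

lemma bsum (z r y : ℕ) (e : Fin 12 → ℕ) (i : Fin 12) (Y : ℕ) :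
    ∑ n ∈ Icc 1 Y, ‖(∏ j ∈ univ.erase i, gcl z r y e j) n‖ ^ 2 ≤ Y * (1 + Real.log Y) ^ (2 ^ 24) := by
  refine le_trans ?_ (sum_tau_pow 24 Y)
  apply sum_le_sum
  intro n _
  have := Fcl_bound z r y e (univ.erase i) n
  calc ‖(∏ j ∈ univ.erase i, gcl z r y e j) n‖ ^ 2 ≤ ((n.divisors.card : ℝ) ^ 12) ^ 2 := by
        gcongr
    _ = (n.divisors.card : ℝ) ^ 24 := by rw [← pow_mul]

lemma asum (z r y : ℕ) (e : Fin 12 → ℕ) (i : Fin 12) (M : ℕ) :
    ∑ m ∈ Ioc M (2 * M), ‖gcl z r y e i m‖ ^ 2 ≤ M := by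
  have h : ∀ m ∈ Ioc M (2 * M), ‖gcl z r y e i m‖ ^ 2 ≤ 1 := by
    intro m _
    exact pow_le_one₀ (norm_nonneg _) (gcl_bound z r y e i m)
  refine (sum_le_card_nsmul _ _ _ h).trans ?_
  rw [Nat.card_Ioc, nsmul_eq_mul, mul_one]
  have : 2 * M - M = M := by omega
  rw [this]

lemma ylog (x H M K : ℕ) (hH : 1 ≤ H) (hx : H ≤ x) (hM : 1 ≤ M) :
    (((x + H) / M : ℕ) : ℝ) * (1 + Real.log (((x + H) / M : ℕ) : ℝ)) ^ K ≤
      2 * x / M * ((2 : ℝ) ^ K * (1 + Real.log x) ^ K) := by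
  set Y := (x + H) / M with hY
  have hx1 : (1 : ℝ) ≤ x := by exact_mod_cast (by omega : 1 ≤ x)
  have hlx : 0 ≤ Real.log x := Real.log_nonneg hx1
  have hMr : (1 : ℝ) ≤ M := by exact_mod_cast hM
  rcases Nat.eq_zero_or_pos Y with h0 | hpos
  · rw [h0]
    simp only [Nat.cast_zero, zero_mul]
    positivity
  · have hY1 : (1 : ℝ) ≤ Y := by exact_mod_cast hpos
    have hYle : (Y : ℝ) ≤ 2 * x / M := by
      rw [le_div_iff₀ (by linarith)]
      have h : Y * M ≤ x + H := by rw [hY]; exact Nat.div_mul_le_self _ _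
      have h' : Y * M ≤ 2 * x := by omega
      exact_mod_cast h'
    have hY2 : (Y : ℝ) ≤ 2 * x := by
      have h : Y ≤ x + H := by rw [hY]; exact Nat.div_le_self _ _
      have h' : Y ≤ 2 * x := by omega
      exact_mod_cast h'
    have hlog : Real.log Y ≤ 1 + Real.log x := by
      have h1 : Real.log Y ≤ Real.log (2 * x) := Real.log_le_log (by linarith) hY2
      rw [Real.log_mul (by norm_num) (by linarith only [hx1])] at h1
      have h2 : Real.log 2 ≤ 1 := by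
        have := Real.log_two_lt_d9
        linarith only [this]
      linarith only [h1, h2]
    have hl0 : 0 ≤ Real.log Y := Real.log_nonneg hY1
    have h3 : 1 + Real.log Y ≤ 2 * (1 + Real.log x) := by linarith only [hlx, hlog]
    rw [← mul_pow]
    gcongr

lemma fin_le (C0 x H M q K L lq : ℝ) (hC : 0 ≤ C0) (hx : 0 ≤ x) (hH : 0 ≤ H) (hM : 0 < M) (hq : 0 < q)
    (hK : 0 ≤ K) (hL : 0 ≤ L) (hlq : 0 ≤ lq) :
    C0 * H * M * (2 * x / M * (K * L)) * ((M + H / q + H / M + q) * lq) ≤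
      C0 * 4 * K * x * H * L * (2 * M + H / q + H / (2 * M) + q) * lq := by
  have e1 : C0 * H * M * (2 * x / M * (K * L)) * ((M + H / q + H / M + q) * lq) =
      (C0 * 2 * K * x * H * L * lq) * (M + H / q + H / M + q) := by
    field_simp
  have e2 : C0 * 4 * K * x * H * L * (2 * M + H / q + H / (2 * M) + q) * lq =
      (C0 * 2 * K * x * H * L * lq) * (2 * (2 * M + H / q + H / (2 * M) + q)) := by ring
  rw [e1, e2]
  apply mul_le_mul_of_nonneg_left _ (by positivity)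
  have e3 : H / (2 * M) = H / M / 2 := by field_simp
  rw [e3]
  have h1 : 0 ≤ H / q := by positivity
  have h2 : 0 ≤ H / M := by positivity
  linarith only [hM, hq, h1]

end ClsTwoAux

open ClsTwoAux

theorem cls_two : ∃ (C : ℝ) (c : ℕ), 1 ≤ C ∧ ∀ (x H q z r y : ℕ) (e : Fin 12 → ℕ) (i : Fin 12) (a : ℤ) (α : ℝ), 1 ≤ H → H ≤ x →
    1 ≤ q → IsCoprime a (q : ℤ) → |α - a / q| ≤ 1 / (q : ℝ) ^ 2 → 1 ≤ e i →
    ∑ u ∈ range (x + 1), ‖∑ n ∈ Ioc u (u + H), Fcl z r y e n * ex (n * α)‖ ^ 2 ≤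
      C * x * H * (1 + Real.log x) ^ c * ((2 : ℝ) ^ e i + H / q + H / (2 : ℝ) ^ e i + q) * (1 + Real.log q) := by
  obtain ⟨K, hK⟩ : ∃ K : ℕ, K = 2 ^ 24 := ⟨_, rfl⟩
  obtain ⟨C0, hC0, hwb⟩ := win_bilin
  have h2K : (1 : ℝ) ≤ (2 : ℝ) ^ K := one_le_pow₀ (by norm_num)
  refine ⟨C0 * 4 * (2 : ℝ) ^ K, K, ?_, ?_⟩
  · nlinarith
  intro x H q z r y e i a α hH hx hq hcop hα he
  obtain ⟨k, hk⟩ : ∃ k, e i = k + 1 := ⟨e i - 1, by omega⟩
  obtain ⟨M, hM⟩ : ∃ M : ℕ, M = 2 ^ k := ⟨_, rfl⟩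
  have hM1 : 1 ≤ M := by rw [hM]; exact Nat.one_le_two_pow
  have h2M : 2 ^ e i = 2 * M := by rw [hk, hM, pow_succ]; ring
  have h2M' : 2 ^ e i / 2 = M := by rw [h2M]; omega
  have hg : ∀ m, gcl z r y e i m ≠ 0 → M < m ∧ m ≤ 2 * M := by
    intro m hm
    have := gcl_supp z r y e i m hm
    rw [h2M', h2M] at this
    exact ⟨this.1, this.2.1⟩
  have hre : ∀ u : ℕ, ∑ n ∈ Ioc u (u + H), Fcl z r y e n * ex (n * α) =
      ∑ m ∈ Ioc M (2 * M), ∑ n ∈ Ioc (u / m) ((u + H) / m),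
        gcl z r y e i m * (∏ j ∈ univ.erase i, gcl z r y e j) n * ex (m * n * α) := by
    intro u
    rw [Fcl_split z r y e i]
    rw [reidx _ _ M u H (fun n => ex (n * α)) hg]
    apply sum_congr rfl
    intro m _
    apply sum_congr rfl
    intro n _
    push_cast
    rfl
  simp only [hre]
  refine (hwb M x H q a α (fun m => gcl z r y e i m) (fun n => (∏ j ∈ univ.erase i, gcl z r y e j) n)
    hM1 hH hq hcop hα).trans ?_
  have hA := asum z r y e i M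
  have hB := (bsum z r y e i ((x + H) / M))
  rw [← hK] at hB
  have hB2 := hB.trans (ylog x H M K hH hx hM1)
  have hx1 : (1 : ℝ) ≤ x := by exact_mod_cast (by omega : 1 ≤ x)
  have hq1 : (1 : ℝ) ≤ q := by exact_mod_cast hq
  have hlx : 0 ≤ Real.log x := Real.log_nonneg hx1
  have hlq : 0 ≤ Real.log q := Real.log_nonneg hq1
  have hMr : (1 : ℝ) ≤ M := by exact_mod_cast hM1
  have h2Mr : ((2 : ℝ) ^ e i) = 2 * M := by exact_mod_cast h2M
  rw [h2Mr]
  refine le_trans ?_ (fin_le C0 x H M q ((2 : ℝ) ^ K) ((1 + Real.log x) ^ K) (1 + Real.log q) (by linarith only [hC0])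
    (by linarith only [hx1]) (Nat.cast_nonneg H) (by linarith only [hMr]) (by linarith only [hq1]) (by linarith only [h2K]) (by (clear * -; positivity)) (by linarith only [hlq]))
  have hA0 : 0 ≤ ∑ m ∈ Ioc M (2 * M), ‖gcl z r y e i m‖ ^ 2 := sum_nonneg fun _ _ => by (clear * -; positivity)
  have hB0 : 0 ≤ ∑ n ∈ Icc 1 ((x + H) / M), ‖(∏ j ∈ univ.erase i, gcl z r y e j) n‖ ^ 2 :=
    sum_nonneg fun _ _ => by (clear * -; positivity)
  have hC0' : 0 ≤ C0 := by linarith only [hC0]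
  gcongr

end Pool.Agent.VM
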