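import Pool.Agent.Lib.VM.Defs

/-!
# Module HB: Heath-Brown's identity with cells and coprimality

Work in the ring `ArithmeticFunction ℂ`. `Z = ζ`, `μz n = μ n` for `n ≤ z`, `0` otherwise, `Λ * Z = log`, `μ * Z = 1`.
`1 - μz * Z = (μ - μz) * Z`, and `μ - μz` is supported on `n > z`, so `(1 - μz * Z)^6 * Λ` vanishes at all `n ≤ z^6`. Binomial formula:
for `n ≤ z^6`, `Λ n = ∑_{j=1}^6 (-1)^(j-1) C(6,j) (μz^j * Z^(j-1) * log) n` (`Z * Λ = log`; in `ArithmeticFunction ℝ` this is
`ArithmeticFunction.vonMangoldt_mul_zeta`, cast to `ℂ`).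
The value at `n` of a product of twelve functions is the sum over `x : Fin 12 → ℕ` with `∏ x i = n` of the product of the values (write a
lemma: `(∏ i, G i) n = ∑ x ∈ (Fintype.piFinset fun _ => n.divisors).filter (∏ x = n), ∏ G i (x i)`, or use induction / `Finset.prod_mul_distrib`
style expansions). Here `x i`, `i < 6`, are the variables with `μ`, `x i`, `i ≥ 6`, the smooth ones, `x 6` carries the logarithm, and the
padded variables (`j ≤ i < 6` or `i ≥ 6 + j`) are `1`.
Every `x ≥ 1`, `x ≤ N ≤ 2^E`, lies in exactly one cell `2^c / 2 < x ≤ 2^c`, `c ≤ E`, and `x = 1` iff `c = 0` (`2^0/2 = 0`, `2^1/2 = 1`), so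
`∑_{c ≤ E} cellM r z c x = μ(x)[x ≤ z][(x,r)=1]`, the same for `cellS`, and the padded variables are exactly selected by the factor of `wt12`
(`z ≥ 1` as `1 ≤ N ≤ z^6`; `y = 0` for `i > 6`). `∏ x i = n` is coprime to `r` iff all `x i` are. `log x = ∑_{1 ≤ y < x} log((y+1)/y)` (telescoping),
`x 6 ≤ n ≤ N`, so the sum over `y ∈ Ico 1 N` of `log((y+1)/y) [y < x 6]` is `log (x 6)`. If `n` is not coprime to `r` the right side is `0`.
An economical way: put `S y j = ` the product of the six/twelve functions `(∑_{c ≤ E} cell ...)` and expand `∏_i ∑_c = ∑_e ∏_i`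
(`Finset.prod_univ_sum`); the weights with `e i = 0` for the padded indices replace the sum over `c` by the term `c = 0`, which is the function `1`
(on coprime `n`). So `∑_e wt12 e * Fcl z r y e = ∑_j (-1)^(j-1) C(6,j) μz'^j * S_y * Z'^(j-1)` in the ring, where `'` means restricted to `n ≤ N`
(cells up to `2^E`) and to `n` coprime to `r`.
-/

set_option autoImplicit false

open Finset

namespace Pool.Agent.VM

open Pool.Agent.VK Pool.Agent.HLT

namespace HBAux

/-- evaluation -/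
def ev (n : ℕ) : ArithmeticFunction ℂ →+ ℂ where
  toFun f := f n
  map_zero' := rfl
  map_add' _ _ := rfl

lemma ev_apply (n : ℕ) (f : ArithmeticFunction ℂ) : ev n f = f n := rfl

lemma sum_apply {ι : Type*} (s : Finset ι) (f : ι → ArithmeticFunction ℂ) (n : ℕ) :
    (∑ i ∈ s, f i) n = ∑ i ∈ s, f i n := by
  rw [← ev_apply, map_sum]
  rfl

lemma nat_mul_apply (k : ℕ) (f : ArithmeticFunction ℂ) (n : ℕ) :
    ((k : ArithmeticFunction ℂ) * f) n = k * f n := by
  rw [← nsmul_eq_mul, ← ev_apply, map_nsmul, ev_apply, nsmul_eq_mul]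

/-- restriction to the integers coprime to `r` -/
noncomputable def res (r : ℕ) (f : ArithmeticFunction ℂ) : ArithmeticFunction ℂ :=
  ⟨fun n => if n.Coprime r then f n else 0, by simp⟩

lemma res_apply (r : ℕ) (f : ArithmeticFunction ℂ) (n : ℕ) :
    res r f n = if n.Coprime r then f n else 0 := rfl

lemma res_mul (r : ℕ) (f g : ArithmeticFunction ℂ) : res r (f * g) = res r f * res r g := by
  ext n
  rw [res_apply, ArithmeticFunction.mul_apply, ArithmeticFunction.mul_apply]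
  by_cases h : n.Coprime r
  · rw [if_pos h]
    refine sum_congr rfl fun x hx => ?_
    have hx' := Nat.mem_divisorsAntidiagonal.1 hx
    have h2 : x.1.Coprime r ∧ x.2.Coprime r := by
      rw [← Nat.coprime_mul_iff_left, hx'.1]; exact h
    rw [res_apply, res_apply, if_pos h2.1, if_pos h2.2]
  · rw [if_neg h]
    symm
    refine sum_eq_zero fun x hx => ?_
    have hx' := Nat.mem_divisorsAntidiagonal.1 hx
    rw [res_apply, res_apply]
    by_cases h1 : x.1.Coprime r
    · by_cases h2 : x.2.Coprime r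
      · exfalso
        apply h
        rw [← hx'.1]
        exact Nat.Coprime.mul_left h1 h2
      · rw [if_neg h2, mul_zero]
    · rw [if_neg h1, zero_mul]

lemma res_one (r : ℕ) : res r 1 = 1 := by
  ext n
  rw [res_apply, ArithmeticFunction.one_apply]
  by_cases h : n = 1
  · rw [if_pos h, h, if_pos (Nat.coprime_one_left r)]
  · rw [if_neg h]
    simp

/-- complex zeta -/
noncomputable def ZC : ArithmeticFunction ℂ := ⟨fun n => if n = 0 then 0 else 1, by simp⟩

/-- complex Moebius function -/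
noncomputable def MC : ArithmeticFunction ℂ :=
  ⟨fun n => ((ArithmeticFunction.moebius n : ℤ) : ℂ), by simp⟩

/-- complex von Mangoldt function -/
noncomputable def LamC : ArithmeticFunction ℂ :=
  ⟨fun n => ((ArithmeticFunction.vonMangoldt n : ℝ) : ℂ), by simp⟩

/-- complex logarithm function -/
noncomputable def LogC : ArithmeticFunction ℂ := ⟨fun n => ((Real.log n : ℝ) : ℂ), by simp⟩

lemma MC_mul_ZC : MC * ZC = 1 := by
  ext n
  have h := congrArg (fun f : ArithmeticFunction ℤ => f n) ArithmeticFunction.moebius_mul_coe_zeta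
  simp only [ArithmeticFunction.mul_apply, ArithmeticFunction.one_apply] at h
  rw [ArithmeticFunction.mul_apply, ArithmeticFunction.one_apply]
  have h2 := congrArg (Int.cast : ℤ → ℂ) h
  push_cast at h2
  rw [← h2]
  refine sum_congr rfl fun x _ => ?_
  show ((ArithmeticFunction.moebius x.1 : ℤ) : ℂ) * (if x.2 = 0 then 0 else 1) = _
  congr 1
  simp only [ArithmeticFunction.natCoe_apply, ArithmeticFunction.zeta_apply]
  split_ifs <;> simp

lemma LamC_mul_ZC : LamC * ZC = LogC := by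
  ext n
  have h := congrArg (fun f : ArithmeticFunction ℝ => f n)
    ArithmeticFunction.vonMangoldt_mul_zeta
  simp only [ArithmeticFunction.mul_apply, ArithmeticFunction.log_apply] at h
  rw [ArithmeticFunction.mul_apply]
  show _ = ((Real.log n : ℝ) : ℂ)
  rw [← h]
  push_cast
  refine sum_congr rfl fun x _ => ?_
  show ((ArithmeticFunction.vonMangoldt x.1 : ℝ) : ℂ) * (if x.2 = 0 then 0 else 1) = _
  congr 1
  simp only [ArithmeticFunction.natCoe_apply, ArithmeticFunction.zeta_apply]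
  split_ifs <;> simp

/-- agreement up to `N` -/
def Ag (N : ℕ) (f g : ArithmeticFunction ℂ) : Prop := ∀ n ≤ N, f n = g n

lemma Ag.mul {N : ℕ} {f g f' g' : ArithmeticFunction ℂ} (h1 : Ag N f f') (h2 : Ag N g g') :
    Ag N (f * g) (f' * g') := by
  intro n hn
  rw [ArithmeticFunction.mul_apply, ArithmeticFunction.mul_apply]
  refine sum_congr rfl fun x hx => ?_
  have hx' := Nat.mem_divisorsAntidiagonal.1 hx
  have ha : x.1 ≤ n := Nat.divisor_le (Nat.fst_mem_divisors_of_mem_antidiagonal hx)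
  have hb : x.2 ≤ n := Nat.divisor_le (Nat.snd_mem_divisors_of_mem_antidiagonal hx)
  rw [h1 _ (ha.trans hn), h2 _ (hb.trans hn)]

lemma Ag.pow {N : ℕ} {f f' : ArithmeticFunction ℂ} (h1 : Ag N f f') (k : ℕ) :
    Ag N (f ^ k) (f' ^ k) := by
  induction k with
  | zero => intro n _; rw [pow_zero, pow_zero]
  | succ k ih => rw [pow_succ, pow_succ]; exact ih.mul h1

/-- lower bound for the support -/
def Sp (f : ArithmeticFunction ℂ) (a : ℕ) : Prop := ∀ n, f n ≠ 0 → a ≤ n

lemma Sp.mul {f g : ArithmeticFunction ℂ} {a b : ℕ} (h1 : Sp f a) (h2 : Sp g b) :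
    Sp (f * g) (a * b) := by
  intro n hn
  rw [ArithmeticFunction.mul_apply] at hn
  obtain ⟨x, hx, hx2⟩ := exists_ne_zero_of_sum_ne_zero hn
  have hx' := Nat.mem_divisorsAntidiagonal.1 hx
  rw [← hx'.1]
  exact Nat.mul_le_mul (h1 _ (left_ne_zero_of_mul hx2)) (h2 _ (right_ne_zero_of_mul hx2))

lemma Sp.one (f : ArithmeticFunction ℂ) : Sp f 1 := by
  intro n hn
  rcases Nat.eq_zero_or_pos n with rfl | h
  · exact absurd f.map_zero hn
  · exact h

lemma Sp.pow {f : ArithmeticFunction ℂ} {a : ℕ} (h1 : Sp f a) (k : ℕ) : Sp (f ^ k) (a ^ k) := by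
  induction k with
  | zero => rw [pow_zero, pow_zero]; exact Sp.one 1
  | succ k ih => rw [pow_succ, pow_succ]; exact ih.mul h1

/-- the truncated Moebius function -/
noncomputable def Mz (z : ℕ) : ArithmeticFunction ℂ :=
  ⟨fun n => if n ≤ z then ((ArithmeticFunction.moebius n : ℤ) : ℂ) else 0, by simp⟩

lemma Mz_apply (z n : ℕ) : Mz z n =
    if n ≤ z then ((ArithmeticFunction.moebius n : ℤ) : ℂ) else 0 := rfl

/-- Heath-Brown's identity -/
lemma hb_ring (z r n : ℕ) (hn : n ≤ z ^ 6) :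
    res r LamC n = ∑ j ∈ Icc 1 6, ((-1 : ℂ) ^ (j - 1) * (Nat.choose 6 j : ℂ)) *
      (res r (Mz z) ^ j * res r LogC * res r ZC ^ (j - 1)) n := by
  obtain ⟨M, hM⟩ : ∃ M, M = res r (Mz z) := ⟨_, rfl⟩
  obtain ⟨Z, hZ⟩ : ∃ Z, Z = res r ZC := ⟨_, rfl⟩
  obtain ⟨U, hU⟩ : ∃ U, U = res r MC := ⟨_, rfl⟩
  obtain ⟨A, hA⟩ : ∃ A, A = res r LamC := ⟨_, rfl⟩
  have h1 : U * Z = 1 := by rw [hU, hZ, ← res_mul, MC_mul_ZC, res_one]
  have h2 : res r LogC = A * Z := by rw [hA, hZ, ← res_mul, LamC_mul_ZC]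
  have h3 : Sp (U - M) (z + 1) := by
    intro k hk
    by_contra hc
    apply hk
    have h4 : (U - M) k = U k - M k := map_sub (ev k) U M
    rw [h4, hU, hM, res_apply, res_apply]
    have h5 : Mz z k = MC k := by
      show (if k ≤ z then _ else _) = _
      rw [if_pos (by omega)]
      rfl
    rw [h5, sub_self]
  have h4 : ((1 - M * Z) ^ 6 * A : ArithmeticFunction ℂ) n = 0 := by
    have h5 : (1 - M * Z) ^ 6 * A = (U - M) ^ 6 * (Z ^ 6 * A) := by
      rw [← h1]; ring
    rw [h5]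
    by_contra hc
    have h6 := ((h3.pow 6).mul (Sp.one (Z ^ 6 * A))) n hc
    have h7 : z ^ 6 < (z + 1) ^ 6 := Nat.pow_lt_pow_left (Nat.lt_succ_self z) (by norm_num)
    omega
  rw [← hM, ← hZ, ← hA, h2]
  have h5 : A = (1 - M * Z) ^ 6 * A
      + ((6 : ℕ) : ArithmeticFunction ℂ) * (M ^ 1 * (A * Z) * Z ^ 0)
      - ((15 : ℕ) : ArithmeticFunction ℂ) * (M ^ 2 * (A * Z) * Z ^ 1)
      + ((20 : ℕ) : ArithmeticFunction ℂ) * (M ^ 3 * (A * Z) * Z ^ 2)
      - ((15 : ℕ) : ArithmeticFunction ℂ) * (M ^ 4 * (A * Z) * Z ^ 3)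
      + ((6 : ℕ) : ArithmeticFunction ℂ) * (M ^ 5 * (A * Z) * Z ^ 4)
      - ((1 : ℕ) : ArithmeticFunction ℂ) * (M ^ 6 * (A * Z) * Z ^ 5) := by
    push_cast
    ring
  have h6 := congrArg (ev n) h5
  rw [map_sub, map_add, map_sub, map_add, map_sub, map_add] at h6
  simp only [ev_apply, nat_mul_apply] at h6
  rw [h4] at h6
  rw [h6]
  have h7 : (Icc 1 6 : Finset ℕ) = {1, 2, 3, 4, 5, 6} := by decide
  have c1 : Nat.choose 6 1 = 6 := rfl
  have c2 : Nat.choose 6 2 = 15 := rfl
  have c3 : Nat.choose 6 3 = 20 := rfl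
  have c4 : Nat.choose 6 4 = 15 := rfl
  have c5 : Nat.choose 6 5 = 6 := rfl
  have c6 : Nat.choose 6 6 = 1 := rfl
  rw [h7, sum_insert (by decide), sum_insert (by decide), sum_insert (by decide),
    sum_insert (by decide), sum_insert (by decide), sum_singleton, c1, c2, c3, c4, c5, c6]
  push_cast
  ring

/-- every integer lies in one cell -/
lemma cell_unique {x E : ℕ} (h1 : 1 ≤ x) (hx : x ≤ 2 ^ E) : ∃ c ∈ range (E + 1),
    (2 ^ c / 2 < x ∧ x ≤ 2 ^ c) ∧ ∀ d, 2 ^ d / 2 < x → x ≤ 2 ^ d → d = c := by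
  have ex : ∃ c, x ≤ 2 ^ c := ⟨E, hx⟩
  classical
  have hc := Nat.find_spec ex
  have hE : Nat.find ex ≤ E := Nat.find_min' ex hx
  have h2 : 2 ^ Nat.find ex / 2 < x := by
    rcases Nat.eq_zero_or_pos (Nat.find ex) with h | h
    · rw [h, pow_zero]; omega
    · obtain ⟨k, hk⟩ : ∃ k, Nat.find ex = k + 1 := ⟨Nat.find ex - 1, by omega⟩
      have h3 : ¬ x ≤ 2 ^ k := Nat.find_min ex (by omega)
      rw [hk, pow_succ, Nat.mul_div_cancel _ (by norm_num)]
      omega
  refine ⟨Nat.find ex, mem_range.2 (by omega), ⟨h2, hc⟩, fun d hd1 hd2 => ?_⟩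
  have h4 : Nat.find ex ≤ d := Nat.find_min' ex hd2
  rcases h4.eq_or_lt with h5 | h5
  · exact h5.symm
  · exfalso
    obtain ⟨k, hk⟩ : ∃ k, d = k + 1 := ⟨d - 1, by omega⟩
    rw [hk, pow_succ, Nat.mul_div_cancel _ (by norm_num)] at hd1
    have h6 : 2 ^ Nat.find ex ≤ 2 ^ k := Nat.pow_le_pow_right (by norm_num) (by omega)
    omega

lemma sum_cell {x E : ℕ} (h1 : 1 ≤ x) (hx : x ≤ 2 ^ E) (v : ℂ) (f : ℕ → ℂ)
    (hf : ∀ c, f c = if 2 ^ c / 2 < x ∧ x ≤ 2 ^ c then v else 0) :
    ∑ c ∈ range (E + 1), f c = v := by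
  obtain ⟨c, hc, h2, h3⟩ := cell_unique h1 hx
  rw [sum_eq_single c]
  · rw [hf, if_pos h2]
  · intro d _ hd
    rw [hf, if_neg]
    rintro ⟨h4, h5⟩
    exact hd (h3 d h4 h5)
  · intro h; exact absurd hc h

lemma ag_M {z r N E : ℕ} (hE : N ≤ 2 ^ E) :
    Ag N (∑ c ∈ range (E + 1), cellM r z c) (res r (Mz z)) := by
  intro n hn
  rcases Nat.eq_zero_or_pos n with rfl | h1
  · simp
  rw [sum_apply]
  apply sum_cell h1 (hn.trans hE)
  intro c
  rw [cellM_apply, res_apply, Mz_apply]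
  by_cases a1 : 2 ^ c / 2 < n <;> by_cases a2 : n ≤ 2 ^ c <;> by_cases a3 : n.Coprime r <;>
    by_cases a4 : n ≤ z <;> simp [a1, a2, a3, a4]

/-- smooth variable above `y` -/
noncomputable def Zy (y : ℕ) : ArithmeticFunction ℂ := ⟨fun n => if y < n then 1 else 0, by simp⟩

lemma Zy_apply (y n : ℕ) : Zy y n = if y < n then 1 else 0 := rfl

lemma ag_S {r y N E : ℕ} (hE : N ≤ 2 ^ E) :
    Ag N (∑ c ∈ range (E + 1), cellS r y c) (res r (Zy y)) := by
  intro n hn
  rcases Nat.eq_zero_or_pos n with rfl | h1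
  · simp
  rw [sum_apply]
  apply sum_cell h1 (hn.trans hE)
  intro c
  rw [cellS, ind_apply, res_apply, Zy_apply]
  simp only [max_lt_iff]
  by_cases a1 : 2 ^ c / 2 < n <;> by_cases a2 : n ≤ 2 ^ c <;> by_cases a3 : n.Coprime r <;>
    by_cases a4 : y < n <;> simp [a1, a2, a3, a4]

lemma Zy_zero : Zy 0 = ZC := by
  ext n
  show (if 0 < n then (1 : ℂ) else 0) = if n = 0 then 0 else 1
  rcases Nat.eq_zero_or_pos n with rfl | h
  · simp
  · rw [if_pos h, if_neg (by omega)]

/-- the factor of the index `i` with the cell `c` -/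
noncomputable def gg (z r y : ℕ) (i : Fin 12) (c : ℕ) : ArithmeticFunction ℂ :=
  if i.val < 6 then cellM r z c else if i.val = 6 then cellS r y c else cellS r 0 c

/-- cells of the index `i` -/
def cl (E j : ℕ) (i : Fin 12) : Finset ℕ :=
  if (j ≤ i.val ∧ i.val < 6) ∨ 6 + j ≤ i.val then {0} else range (E + 1)

lemma cellM_zero {z : ℕ} (hz : 1 ≤ z) (r : ℕ) : cellM r z 0 = 1 := by
  ext n
  rw [cellM_apply, ArithmeticFunction.one_apply]
  by_cases h : n = 1
  · subst h
    simp [hz]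
  · rw [if_neg h, if_neg]
    rintro ⟨h1, h2, -⟩
    apply h
    have h3 : (2 : ℕ) ^ 0 / 2 = 0 := rfl
    rw [h3] at h1
    rw [pow_zero] at h2
    omega

lemma cellS_zero (r : ℕ) : cellS r 0 0 = 1 := by
  ext n
  rw [cellS, ind_apply, ArithmeticFunction.one_apply]
  by_cases h : n = 1
  · subst h
    simp
  · rw [if_neg h, if_neg]
    rintro ⟨h1, h2, -⟩
    apply h
    have h3 : max 0 ((2 : ℕ) ^ 0 / 2) = 0 := rfl
    rw [h3] at h1
    rw [pow_zero] at h2
    omega

lemma prod_cl {z : ℕ} (hz : 1 ≤ z) (r y E : ℕ) {j : ℕ} (hj1 : 1 ≤ j) (hj6 : j ≤ 6) :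
    ∏ i : Fin 12, ∑ c ∈ cl E j i, gg z r y i c =
      (∑ c ∈ range (E + 1), cellM r z c) ^ j * (∑ c ∈ range (E + 1), cellS r y c) *
        (∑ c ∈ range (E + 1), cellS r 0 c) ^ (j - 1) := by
  obtain ⟨M, hM⟩ : ∃ M, M = ∑ c ∈ range (E + 1), cellM r z c := ⟨_, rfl⟩
  obtain ⟨S, hS⟩ : ∃ S, S = ∑ c ∈ range (E + 1), cellS r y c := ⟨_, rfl⟩
  obtain ⟨T, hT⟩ : ∃ T, T = ∑ c ∈ range (E + 1), cellS r 0 c := ⟨_, rfl⟩
  rw [← hM, ← hS, ← hT]
  have key : ∀ i : Fin 12, ∑ c ∈ cl E j i, gg z r y i c =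
      if i.val < j then M else if i.val < 6 then 1 else if i.val = 6 then S else
        if i.val < 6 + j then T else 1 := by
    intro i
    unfold cl gg
    by_cases h1 : i.val < j
    · rw [if_pos h1, if_neg (by omega), hM]
      refine sum_congr rfl fun c _ => ?_
      rw [if_pos (by omega)]
    · rw [if_neg h1]
      by_cases h2 : i.val < 6
      · rw [if_pos h2, if_pos (by omega), sum_singleton, if_pos h2, cellM_zero hz]
      · rw [if_neg h2]
        by_cases h3 : i.val = 6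
        · rw [if_pos h3, if_neg (by omega), hS]
          refine sum_congr rfl fun c _ => ?_
          rw [if_neg h2, if_pos h3]
        · rw [if_neg h3]
          by_cases h4 : i.val < 6 + j
          · rw [if_pos h4, if_neg (by omega), hT]
            refine sum_congr rfl fun c _ => ?_
            rw [if_neg h2, if_neg h3]
          · rw [if_neg h4, if_pos (by omega), sum_singleton, if_neg h2, if_neg h3, cellS_zero]
  rw [prod_congr rfl fun i _ => key i]
  interval_cases j <;> simp [Fin.prod_univ_succ] <;> ring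

lemma sum_Fcl {z : ℕ} (hz : 1 ≤ z) (r y E n : ℕ) {j : ℕ} (hj1 : 1 ≤ j) (hj6 : j ≤ 6) :
    ∑ e ∈ Fintype.piFinset (fun _ : Fin 12 => range (E + 1)),
      (if ∀ i : Fin 12, ((j ≤ i.val ∧ i.val < 6) ∨ 6 + j ≤ i.val) → e i = 0 then (1 : ℂ) else 0) *
        Fcl z r y e n =
      ((∑ c ∈ range (E + 1), cellM r z c) ^ j * (∑ c ∈ range (E + 1), cellS r y c) *
        (∑ c ∈ range (E + 1), cellS r 0 c) ^ (j - 1)) n := by
  classical
  rw [← prod_cl hz r y E hj1 hj6, prod_univ_sum, sum_apply]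
  have h1 : Fintype.piFinset (cl E j) =
      (Fintype.piFinset (fun _ : Fin 12 => range (E + 1))).filter
        (fun e => ∀ i : Fin 12, ((j ≤ i.val ∧ i.val < 6) ∨ 6 + j ≤ i.val) → e i = 0) := by
    ext e
    rw [mem_filter, Fintype.mem_piFinset, Fintype.mem_piFinset]
    constructor
    · intro h
      refine ⟨fun i => ?_, fun i hi => ?_⟩
      · have h2 := h i
        unfold cl at h2
        split_ifs at h2
        · rw [mem_singleton] at h2
          rw [h2, mem_range]
          omega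
        · exact h2
      · have h2 := h i
        unfold cl at h2
        rw [if_pos hi, mem_singleton] at h2
        exact h2
    · rintro ⟨h2, h3⟩ i
      unfold cl
      split_ifs with h4
      · rw [mem_singleton]
        exact h3 i h4
      · exact h2 i
  rw [h1, sum_filter]
  refine sum_congr rfl fun e _ => ?_
  split_ifs
  · rw [one_mul]
    rfl
  · rw [zero_mul]

end HBAux

open HBAux

/-- The weights of `y` are nonnegative and sum up to `log N`. -/
theorem sum_log_ratio (N : ℕ) (hN : 1 ≤ N) :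
    (∀ y ∈ Ico 1 N, 0 ≤ Real.log (((y : ℝ) + 1) / y)) ∧ ∑ y ∈ Ico 1 N, Real.log (((y : ℝ) + 1) / y) = Real.log N := by
  constructor
  · intro y hy
    rw [mem_Ico] at hy
    have h1 : (0 : ℝ) < y := by exact_mod_cast hy.1
    apply Real.log_nonneg
    rw [le_div_iff₀ h1]
    linarith
  · induction N, hN using Nat.le_induction with
    | base => simp
    | succ n hn ih =>
      rw [sum_Ico_succ_top hn, ih]
      have h1 : (0 : ℝ) < n := by exact_mod_cast hn
      rw [Real.log_div (by positivity) (by positivity)]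
      push_cast
      ring

theorem hb (z r N E : ℕ) (hz : N ≤ z ^ 6) (hE : N ≤ 2 ^ E) (n : ℕ) (h1 : 1 ≤ n) (hn : n ≤ N) :
    (if n.Coprime r then ((ArithmeticFunction.vonMangoldt n : ℝ) : ℂ) else 0) =
      ∑ y ∈ Ico 1 N, ((Real.log (((y : ℝ) + 1) / y) : ℝ) : ℂ) *
        ∑ e ∈ Fintype.piFinset (fun _ : Fin 12 => range (E + 1)), (wt12 e : ℂ) * Fcl z r y e n := by
  classical
  have hz1 : 1 ≤ z := by
    rcases Nat.eq_zero_or_pos z with rfl | h
    · simp at hz; omega
    · exact h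
  -- the logarithm
  have hlog : ∀ b ≤ N, ∑ y ∈ Ico 1 N, ((Real.log (((y : ℝ) + 1) / y) : ℝ) : ℂ) *
      res r (Zy y) b = res r LogC b := by
    intro b hb
    rw [res_apply]
    by_cases hc : b.Coprime r
    · rw [if_pos hc]
      rcases Nat.eq_zero_or_pos b with rfl | hb1
      · simp
      · have h2 : ∀ y ∈ Ico 1 N, ((Real.log (((y : ℝ) + 1) / y) : ℝ) : ℂ) * res r (Zy y) b =
            if y < b then ((Real.log (((y : ℝ) + 1) / y) : ℝ) : ℂ) else 0 := by
          intro y _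
          rw [res_apply, if_pos hc]
          show _ * (if y < b then (1 : ℂ) else 0) = _
          split_ifs
          · rw [mul_one]
          · rw [mul_zero]
        rw [sum_congr rfl h2, ← sum_filter]
        have h3 : (Ico 1 N).filter (fun y => y < b) = Ico 1 b := by
          ext y
          rw [mem_filter, mem_Ico, mem_Ico]
          omega
        rw [h3]
        show _ = ((Real.log b : ℝ) : ℂ)
        rw [← (sum_log_ratio b hb1).2]
        push_cast
        rfl
    · rw [if_neg hc]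
      refine sum_eq_zero fun y _ => ?_
      rw [res_apply, if_neg hc, mul_zero]
  have hinner : ∀ y, ∑ e ∈ Fintype.piFinset (fun _ : Fin 12 => range (E + 1)),
      (wt12 e : ℂ) * Fcl z r y e n = ∑ j ∈ Icc 1 6, ((-1 : ℂ) ^ (j - 1) * (Nat.choose 6 j : ℂ)) *
        (res r (Mz z) ^ j * res r (Zy y) * res r ZC ^ (j - 1)) n := by
    intro y
    have h2 : ∀ e : Fin 12 → ℕ, (wt12 e : ℂ) * Fcl z r y e n = ∑ j ∈ Icc 1 6,
        ((-1 : ℂ) ^ (j - 1) * (Nat.choose 6 j : ℂ)) *
        ((if ∀ i : Fin 12, ((j ≤ i.val ∧ i.val < 6) ∨ 6 + j ≤ i.val) → e i = 0 then (1 : ℂ)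
          else 0) * Fcl z r y e n) := by
      intro e
      unfold wt12
      rw [Complex.ofReal_sum, sum_mul]
      refine sum_congr rfl fun j _ => ?_
      rw [← mul_assoc]
      congr 1
      push_cast
      congr 1
      split_ifs <;> simp
    rw [sum_congr rfl fun e _ => h2 e, sum_comm]
    refine sum_congr rfl fun j hj => ?_
    rw [mem_Icc] at hj
    rw [← mul_sum, sum_Fcl hz1 r y E n hj.1 hj.2]
    congr 1
    have h3 : Ag N (∑ c ∈ range (E + 1), cellS r 0 c) (res r ZC) := by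
      rw [← Zy_zero]; exact ag_S hE
    exact (((ag_M hE).pow j).mul (ag_S hE)).mul (h3.pow (j - 1)) n hn
  rw [sum_congr rfl fun y _ => by rw [hinner y]]
  have h4 := hb_ring z r n (hn.trans hz)
  rw [res_apply] at h4
  refine Eq.trans h4 ?_
  simp only [mul_sum]
  rw [sum_comm]
  refine sum_congr rfl fun j _ => ?_
  have h5 : ∀ y : ℕ, ((Real.log (((y : ℝ) + 1) / y) : ℝ) : ℂ) *
      (((-1 : ℂ) ^ (j - 1) * (Nat.choose 6 j : ℂ)) *
        (res r (Mz z) ^ j * res r (Zy y) * res r ZC ^ (j - 1)) n) =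
      ((-1 : ℂ) ^ (j - 1) * (Nat.choose 6 j : ℂ)) *
      (((Real.log (((y : ℝ) + 1) / y) : ℝ) : ℂ) *
        ((res r (Mz z) ^ j * res r ZC ^ (j - 1)) * res r (Zy y)) n) := by
    intro y
    rw [show res r (Mz z) ^ j * res r (Zy y) * res r ZC ^ (j - 1) =
      (res r (Mz z) ^ j * res r ZC ^ (j - 1)) * res r (Zy y) by ring]
    ring
  rw [sum_congr rfl fun y _ => h5 y, ← mul_sum]
  congr 1
  rw [show res r (Mz z) ^ j * res r LogC * res r ZC ^ (j - 1) =
      (res r (Mz z) ^ j * res r ZC ^ (j - 1)) * res r LogC by ring]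
  obtain ⟨F, hF⟩ : ∃ F, F = res r (Mz z) ^ j * res r ZC ^ (j - 1) := ⟨_, rfl⟩
  rw [← hF, ArithmeticFunction.mul_apply]
  have h6 : ∀ y : ℕ, ((Real.log (((y : ℝ) + 1) / y) : ℝ) : ℂ) * (F * res r (Zy y)) n =
      ∑ x ∈ n.divisorsAntidiagonal, F x.1 * (((Real.log (((y : ℝ) + 1) / y) : ℝ) : ℂ) *
        res r (Zy y) x.2) := by
    intro y
    rw [ArithmeticFunction.mul_apply, mul_sum]
    refine sum_congr rfl fun x _ => ?_
    ring
  rw [sum_congr rfl fun y _ => h6 y, sum_comm]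
  refine sum_congr rfl fun x hx => ?_
  rw [← mul_sum, hlog]
  exact (Nat.divisor_le (Nat.snd_mem_divisors_of_mem_antidiagonal hx)).trans hn

/-- `|wt12| ≤ 64`. -/
theorem wt12_le (e : Fin 12 → ℕ) : |wt12 e| ≤ 64 := by
  unfold wt12
  refine (abs_sum_le_sum_abs _ _).trans ?_
  have h1 : ∀ j ∈ Icc 1 6, |(-1 : ℝ) ^ (j - 1) * (Nat.choose 6 j : ℝ) *
      (if ∀ i : Fin 12, ((j ≤ i.val ∧ i.val < 6) ∨ 6 + j ≤ i.val) → e i = 0 then 1 else 0)| ≤
      (Nat.choose 6 j : ℝ) := by
    intro j _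
    rw [abs_mul, abs_mul, abs_pow, abs_neg, abs_one, one_pow, one_mul, Nat.abs_cast]
    split_ifs
    · rw [abs_one, mul_one]
    · rw [abs_zero, mul_zero]
      positivity
  refine (sum_le_sum h1).trans ?_
  have h2 : ∑ j ∈ Icc 1 6, Nat.choose 6 j = 63 := by decide
  have h3 : ∑ j ∈ Icc 1 6, (Nat.choose 6 j : ℝ) = 63 := by exact_mod_cast h2
  rw [h3]
  norm_num

end Pool.Agent.VM
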