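import Pool.Agent.Lib.VM.ClsMinor
import Pool.Agent.Lib.VM.ClsTwo
import Pool.Agent.Lib.VM.HB

/-!
# Module BlkMinor: minor arcs for `Λ` on a dyadic block

`L = log X`. Let `e', s, C` be from `cls_minor ε`, `C2, c` from `cls_two`. `A1 = B + c + 40`, `A3 = B + 40`, `A = 2 (A1 + A3) + 10`.
Dirichlet (`VL.SI3Aux.dirichlet` or `Real.exists_int_int_abs_mul_sub_le`): `q ≤ R := ⌊H X^(-e')⌋`, `a` coprime to `q`,
`|α - a/q| ≤ 1/(q (R+1)) ≤ X^e'/(q H)`. `β = α - a/q`.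
(MIN) `q max 1 (H|β|) ≥ L^A3`: otherwise `q < L^A3 ≤ q0`, so `a/q ≠ a0/q0`, `1/(q q0) ≤ |a/q - a0/q0| ≤ |β| + 1/q0² ≤ L^A3/(q H) + 1/q0²`, so
`1 ≤ q0 L^A3/H + q/q0 ≤ L^(A3-A) + L^(A3-A) < 1`.
`hb` with `r = q`, `N = 4X`, `z = ⌈(4X)^(1/6)⌉` (so `2z ≤ X^(1/6 + ε/2)`), `E = ⌈log(4X)/log 2⌉ ≤ 3L`: for `n ≤ 4X`
`Λ(n) 1_{(n,q)=1} = ∑_y w_y ∑_e wt12 e Fcl z q y e n`, `w_y ≥ 0`, `∑ w_y = log(4X) ≤ 2L`. By Cauchy twice, with `S_{y,e}(u)` the window sum of `Fcl`: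
`∑_u |window sum of Λ 1|² ≤ 2L ∑_y w_y (E+1)^12 64² ∑_e ∑_u |S_{y,e}(u)|² ≤ 4 L² (E+1)^24 64² max_{y,e} ∑_u |S_{y,e}(u)|²`.
For each `(y,e)`:
(i) some `i` with `L^A1 < 2^(e i) ≤ H/L^A1` (`e i ≥ 1`): `cls_two` with `(a0, q0)`, `x = 2X`:
`≤ C2 2X H (1+log 2X)^c (H/L^A1 + H/L^A + H/L^A1 + H/L^A)(1 + L) ≤ X H² L^(c+3-A1)` up to a constant;
(ii) a Moebius cell `i < 6` with `2^(e i) > H/L^A1 ≥ 2z`: `gcl = 0` (`gcl_moebius`), so `Fcl = 0`;
(iii) otherwise all cells are `≤ L^A1 ≤ X^s`, or smooth and `> H/L^A1 ≥ H X^(-s)`: `cls_minor`: `≤ C X H² (L^(-2 A3) + X^(-s))`.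
Finally `Λ - Λ 1_{(·,q)=1}`: supported on the powers of the primes dividing `q`, at most `L²·4` of them up to `4X`, values `≤ 2L`; its window sums contribute
`≤ H ∑_u ∑_{window} |·|² ≤ H² ∑_{n ≤ 4X} |·|² ≤ 16 H² L^4·(const)`.
-/

set_option autoImplicit false

open Finset Filter

namespace Pool.Agent.VM

open Pool.Agent.VK Pool.Agent.HLT

namespace BlkMinorAux

lemma logpow (a : ℕ) (C η : ℝ) (hη : 0 < η) :
    ∀ᶠ X : ℕ in atTop, C * Real.log X ^ a ≤ (X : ℝ) ^ η := by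
  have h1 : ∀ᶠ x : ℝ in atTop, C * Real.log x ^ a ≤ x ^ η := by
    have h2 := (isLittleO_log_rpow_rpow_atTop (a : ℝ) hη).bound
      (by positivity : (0 : ℝ) < 1 / (|C| + 1))
    filter_upwards [h2, eventually_ge_atTop 1] with x hx hx1
    have hl : 0 ≤ Real.log x := Real.log_nonneg hx1
    rw [Real.rpow_natCast, Real.norm_of_nonneg (by positivity),
      Real.norm_of_nonneg (by positivity)] at hx
    have hC : C ≤ |C| + 1 := by linarith [le_abs_self C]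
    calc C * Real.log x ^ a ≤ (|C| + 1) * Real.log x ^ a :=
          mul_le_mul_of_nonneg_right hC (by positivity)
      _ ≤ (|C| + 1) * (1 / (|C| + 1) * x ^ η) := mul_le_mul_of_nonneg_left hx (by positivity)
      _ = x ^ η := by
          have : |C| + 1 ≠ 0 := by positivity
          field_simp
  exact tendsto_natCast_atTop_atTop.eventually h1

lemma shift_cover (X h : ℕ) (hh : h ≤ 2 * X) (g : ℕ → ℝ) (hg : ∀ n, 0 ≤ g n) :
    ∑ u ∈ Icc X (2 * X), ∑ n ∈ Ioc u (u + h), g n ≤ h * ∑ n ∈ Icc 1 (4 * X), g n := by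
  have h1 : ∀ u ∈ Icc X (2 * X), ∑ n ∈ Ioc u (u + h), g n = ∑ i ∈ range h, g (u + (i + 1)) := by
    intro u _
    rw [← Finset.sum_image (f := g) (g := fun i => u + (i + 1)) (s := range h)]
    · refine Finset.sum_congr ?_ fun _ _ => rfl
      ext n
      simp only [Finset.mem_Ioc, Finset.mem_image, Finset.mem_range]
      constructor
      · rintro ⟨ha, hb⟩
        exact ⟨n - u - 1, by omega, by omega⟩
      · rintro ⟨i, hi, rfl⟩
        omega
    · intro i _ j _ hij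
      simp only at hij
      omega
  rw [Finset.sum_congr rfl h1, Finset.sum_comm]
  have h2 : ∀ i ∈ range h, ∑ u ∈ Icc X (2 * X), g (u + (i + 1)) ≤ ∑ n ∈ Icc 1 (4 * X), g n := by
    intro i hi
    rw [Finset.mem_range] at hi
    rw [← Finset.sum_image (f := g) (g := fun u => u + (i + 1)) (s := Icc X (2 * X))]
    · refine Finset.sum_le_sum_of_subset_of_nonneg ?_ fun n _ _ => hg n
      intro n hn
      simp only [Finset.mem_image, Finset.mem_Icc] at hn ⊢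
      obtain ⟨u, hu, rfl⟩ := hn
      omega
    · intro u _ v _ huv
      simp only at huv
      omega
  refine (Finset.sum_le_sum h2).trans ?_
  rw [Finset.sum_const, Finset.card_range, nsmul_eq_mul]

/-- Dirichlet's theorem. -/
lemma dirichlet (α H P : ℝ) (hP : 0 < P) (hPH : P ≤ H) : ∃ (q Q : ℕ) (a : ℤ), 1 ≤ q ∧ q ≤ Q ∧
    (Q : ℝ) ≤ H / P ∧ H / P ≤ (Q + 1 : ℕ) ∧ IsCoprime a (q : ℤ) ∧
    |α - a / q| ≤ 1 / ((q : ℝ) * (Q + 1 : ℕ)) := by
  have hH : 0 < H := lt_of_lt_of_le hP hPH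
  have hn1 : 0 < ⌊H / P⌋₊ := by
    rw [Nat.floor_pos, le_div_iff₀ hP]
    simpa using hPH
  obtain ⟨r, hr1, hr2⟩ := Real.exists_rat_abs_sub_le_and_den_le α hn1
  have hcast : (r : ℝ) = (r.num : ℝ) / (r.den : ℝ) := by
    exact_mod_cast congrArg (fun t : ℚ => (t : ℝ)) (Rat.num_div_den r).symm
  rw [hcast] at hr1
  refine ⟨r.den, ⌊H / P⌋₊, r.num, r.den_pos, hr2, Nat.floor_le (by positivity), ?_, ?_, ?_⟩
  · push_cast
    exact (Nat.lt_floor_add_one _).le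
  · rw [Int.isCoprime_iff_gcd_eq_one]
    have := r.reduced
    rwa [Nat.Coprime] at this
  · refine hr1.trans (le_of_eq ?_)
    push_cast
    rw [mul_comm]

lemma ratio_ne {q q0 : ℕ} {a a0 : ℤ} (hcop : IsCoprime a (q : ℤ)) (hcop0 : IsCoprime a0 (q0 : ℤ))
    (h : a * q0 = a0 * q) : q = q0 := by
  have h1 : (q : ℤ) ∣ q0 := by
    have : (q : ℤ) ∣ a * q0 := ⟨a0, by rw [h]; ring⟩
    exact hcop.symm.dvd_of_dvd_mul_left this
  have h2 : (q0 : ℤ) ∣ q := by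
    have : (q0 : ℤ) ∣ a0 * q := ⟨a, by rw [← h]; ring⟩
    exact hcop0.symm.dvd_of_dvd_mul_left this
  exact Nat.dvd_antisymm (Int.natCast_dvd_natCast.1 h1) (Int.natCast_dvd_natCast.1 h2)

lemma min_lemma (q q0 H : ℕ) (a a0 : ℤ) (α T : ℝ) (hq : 1 ≤ q) (hq0 : 1 ≤ q0) (hH : 1 ≤ H)
    (hcop : IsCoprime a (q : ℤ)) (hcop0 : IsCoprime a0 (q0 : ℤ))
    (hα0 : |α - a0 / q0| ≤ 1 / (q0 : ℝ) ^ 2) (hT1 : T ≤ q0)
    (hT2 : T * (q0 / H) + T / q0 ≤ 1) : T ≤ q * max 1 (H * |α - a / q|) := by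
  by_contra hcon
  push Not at hcon
  have hq' : (1 : ℝ) ≤ q := by exact_mod_cast hq
  have hq0' : (1 : ℝ) ≤ q0 := by exact_mod_cast hq0
  have hH' : (1 : ℝ) ≤ H := by exact_mod_cast hH
  have h1 : (q : ℝ) < T := by
    refine lt_of_le_of_lt ?_ hcon
    exact le_mul_of_one_le_right (by positivity) (le_max_left _ _)
  have h2 : (q : ℝ) * (H * |α - a / q|) < T := by
    refine lt_of_le_of_lt ?_ hcon
    exact mul_le_mul_of_nonneg_left (le_max_right _ _) (by positivity)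
  have hne : a * q0 - a0 * q ≠ 0 := by
    intro h
    have h3 := ratio_ne hcop hcop0 (sub_eq_zero.1 h)
    rw [h3] at h1
    linarith only [hT1, h1]
  have h4 : (1 : ℝ) ≤ |(a : ℝ) * q0 - a0 * q| := by
    have := Int.one_le_abs hne
    exact_mod_cast this
  have h5 : (a : ℝ) * q0 - a0 * q = q * q0 * ((α - a0 / q0) - (α - a / q)) := by
    field_simp
    ring
  rw [h5, abs_mul, abs_of_pos (by positivity)] at h4
  have h6 : |(α - a0 / q0) - (α - a / q)| ≤ |α - a0 / q0| + |α - a / q| := abs_sub _ _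
  have h7 : (q : ℝ) * q0 * |(α - a0 / q0) - (α - a / q)| ≤
      q * q0 * (1 / (q0 : ℝ) ^ 2 + |α - a / q|) :=
    mul_le_mul_of_nonneg_left (h6.trans (by linarith only [hα0])) (by positivity)
  have h8 : (q : ℝ) * q0 * (1 / (q0 : ℝ) ^ 2 + |α - a / q|) =
      q / q0 + (q0 / H) * (q * (H * |α - a / q|)) := by
    field_simp
  have h9 : (q : ℝ) / q0 < T / q0 := div_lt_div_of_pos_right h1 (by positivity)
  have h10 : ((q0 : ℝ) / H) * (q * (H * |α - a / q|)) ≤ (q0 / H) * T :=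
    mul_le_mul_of_nonneg_left h2.le (by positivity)
  have h11 : ((q0 : ℝ) / H) * T = T * (q0 / H) := mul_comm _ _
  linarith only [hT2, h4, h7, h8, h9, h10]

lemma cs_two {ι κ : Type*} (Y : Finset ι) (Ω : Finset κ) (w : ι → ℝ) (t : κ → ℝ) (S : ι → κ → ℂ)
    (hw : ∀ y ∈ Y, 0 ≤ w y) (ht : ∀ e, |t e| ≤ 64) :
    ‖∑ y ∈ Y, (w y : ℂ) * ∑ e ∈ Ω, (t e : ℂ) * S y e‖ ^ 2 ≤
      (∑ y ∈ Y, w y) * (4096 * Ω.card) * ∑ y ∈ Y, w y * ∑ e ∈ Ω, ‖S y e‖ ^ 2 := by
  have h1 : ‖∑ y ∈ Y, (w y : ℂ) * ∑ e ∈ Ω, (t e : ℂ) * S y e‖ ≤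
      ∑ y ∈ Y, w y * (64 * ∑ e ∈ Ω, ‖S y e‖) := by
    refine (norm_sum_le _ _).trans (Finset.sum_le_sum fun y hy => ?_)
    rw [norm_mul, Complex.norm_real, Real.norm_of_nonneg (hw y hy)]
    apply mul_le_mul_of_nonneg_left _ (hw y hy)
    rw [Finset.mul_sum]
    refine (norm_sum_le _ _).trans (Finset.sum_le_sum fun e _ => ?_)
    rw [norm_mul, Complex.norm_real, Real.norm_eq_abs]
    exact mul_le_mul_of_nonneg_right (ht e) (norm_nonneg _)
  have h2 : (∑ y ∈ Y, w y * (64 * ∑ e ∈ Ω, ‖S y e‖)) ^ 2 ≤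
      (∑ y ∈ Y, w y) * ∑ y ∈ Y, w y * (64 * ∑ e ∈ Ω, ‖S y e‖) ^ 2 := by
    refine Finset.sum_sq_le_sum_mul_sum_of_sq_eq_mul Y hw (fun y hy =>
      mul_nonneg (hw y hy) (sq_nonneg _)) fun y _ => ?_
    ring
  have h3 : ∀ y ∈ Y, w y * (64 * ∑ e ∈ Ω, ‖S y e‖) ^ 2 ≤
      (4096 * Ω.card) * (w y * ∑ e ∈ Ω, ‖S y e‖ ^ 2) := by
    intro y hy
    have h4 := sq_sum_le_card_mul_sum_sq (s := Ω) (f := fun e => ‖S y e‖)
    have h5 : (64 * ∑ e ∈ Ω, ‖S y e‖) ^ 2 ≤ 4096 * (Ω.card * ∑ e ∈ Ω, ‖S y e‖ ^ 2) := by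
      rw [mul_pow]
      norm_num
      exact h4
    calc w y * (64 * ∑ e ∈ Ω, ‖S y e‖) ^ 2 ≤ w y * (4096 * (Ω.card * ∑ e ∈ Ω, ‖S y e‖ ^ 2)) :=
          mul_le_mul_of_nonneg_left h5 (hw y hy)
      _ = _ := by ring
  have hw0 : 0 ≤ ∑ y ∈ Y, w y := Finset.sum_nonneg hw
  calc ‖∑ y ∈ Y, (w y : ℂ) * ∑ e ∈ Ω, (t e : ℂ) * S y e‖ ^ 2
      ≤ (∑ y ∈ Y, w y * (64 * ∑ e ∈ Ω, ‖S y e‖)) ^ 2 := pow_le_pow_left₀ (norm_nonneg _) h1 2
    _ ≤ _ := h2
    _ ≤ (∑ y ∈ Y, w y) * ∑ y ∈ Y, (4096 * Ω.card) * (w y * ∑ e ∈ Ω, ‖S y e‖ ^ 2) :=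
        mul_le_mul_of_nonneg_left (Finset.sum_le_sum h3) hw0
    _ = _ := by rw [← Finset.mul_sum]; ring

lemma part1 {ι κ : Type*} (V : Finset ℕ) (Y : Finset ι) (Ω : Finset κ) (w : ι → ℝ) (t : κ → ℝ)
    (S : ι → κ → ℕ → ℂ) (hw : ∀ y ∈ Y, 0 ≤ w y) (ht : ∀ e, |t e| ≤ 64) (Bd : ℝ)
    (hS : ∀ y ∈ Y, ∀ e ∈ Ω, ∑ u ∈ V, ‖S y e u‖ ^ 2 ≤ Bd) :
    ∑ u ∈ V, ‖∑ y ∈ Y, (w y : ℂ) * ∑ e ∈ Ω, (t e : ℂ) * S y e u‖ ^ 2 ≤
      (∑ y ∈ Y, w y) ^ 2 * 4096 * (Ω.card : ℝ) ^ 2 * Bd := by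
  have hw0 : 0 ≤ ∑ y ∈ Y, w y := Finset.sum_nonneg hw
  refine (Finset.sum_le_sum fun u _ => cs_two Y Ω w t (fun y e => S y e u) hw ht).trans ?_
  rw [← Finset.mul_sum, Finset.sum_comm]
  have h1 : ∑ y ∈ Y, ∑ u ∈ V, w y * ∑ e ∈ Ω, ‖S y e u‖ ^ 2 ≤
      ∑ y ∈ Y, w y * (Ω.card * Bd) := by
    refine Finset.sum_le_sum fun y hy => ?_
    rw [← Finset.mul_sum, Finset.sum_comm]
    apply mul_le_mul_of_nonneg_left _ (hw y hy)
    refine (Finset.sum_le_sum fun e he => hS y hy e he).trans ?_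
    rw [Finset.sum_const, nsmul_eq_mul]
  rw [← Finset.sum_mul] at h1
  calc _ ≤ (∑ y ∈ Y, w y) * (4096 * Ω.card) * ((∑ y ∈ Y, w y) * (Ω.card * Bd)) :=
        mul_le_mul_of_nonneg_left h1 (by positivity)
    _ = _ := by ring

/-- the prime powers which are not coprime to `q` -/
lemma part2 (q N E : ℕ) (hN : 1 ≤ N) (hE : N ≤ 2 ^ E) (hq : 1 ≤ q) :
    ∑ n ∈ Icc 1 N, ‖((ArithmeticFunction.vonMangoldt n : ℝ) : ℂ) -
      (if n.Coprime q then ((ArithmeticFunction.vonMangoldt n : ℝ) : ℂ) else 0)‖ ^ 2 ≤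
      q * (E + 1) * Real.log N ^ 2 := by
  classical
  set S : Finset ℕ := (q.primeFactors ×ˢ range (E + 1)).image (fun p => p.1 ^ p.2) with hS
  have hN1 : (1 : ℝ) ≤ N := by exact_mod_cast hN
  have hlog : 0 ≤ Real.log N := Real.log_nonneg hN1
  have hpt : ∀ n ∈ Icc 1 N, ‖((ArithmeticFunction.vonMangoldt n : ℝ) : ℂ) -
      (if n.Coprime q then ((ArithmeticFunction.vonMangoldt n : ℝ) : ℂ) else 0)‖ ^ 2 ≤
      if n ∈ S then Real.log N ^ 2 else 0 := by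
    intro n hn
    rw [Finset.mem_Icc] at hn
    by_cases hc : n.Coprime q
    · rw [if_pos hc, sub_self, norm_zero, zero_pow (by norm_num)]
      split_ifs <;> positivity
    · rw [if_neg hc, sub_zero, Complex.norm_real,
        Real.norm_of_nonneg ArithmeticFunction.vonMangoldt_nonneg]
      by_cases hv : ArithmeticFunction.vonMangoldt n = 0
      · rw [hv, zero_pow (by norm_num)]
        split_ifs <;> positivity
      · have hpp := ArithmeticFunction.vonMangoldt_ne_zero_iff.1 hv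
        obtain ⟨p, k, hp, hk, rfl⟩ := hpp
        have hp' : p.Prime := hp.nat_prime
        have hmem : p ^ k ∈ S := by
          rw [hS, Finset.mem_image]
          refine ⟨(p, k), ?_, rfl⟩
          rw [Finset.mem_product, Nat.mem_primeFactors, Finset.mem_range]
          refine ⟨⟨hp', ?_, by omega⟩, ?_⟩
          · by_contra hpq
            exact hc (Nat.Coprime.pow_left k ((hp'.coprime_iff_not_dvd).2 hpq))
          · have h1 : 2 ^ k ≤ 2 ^ E := by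
              calc 2 ^ k ≤ p ^ k := Nat.pow_le_pow_left hp'.two_le k
                _ ≤ N := hn.2
                _ ≤ 2 ^ E := hE
            have h2 := (Nat.pow_le_pow_iff_right (by norm_num : 1 < 2)).1 h1
            simp only
            omega
        rw [if_pos hmem]
        apply pow_le_pow_left₀ ArithmeticFunction.vonMangoldt_nonneg
        refine ArithmeticFunction.vonMangoldt_le_log.trans ?_
        apply Real.log_le_log
        · exact_mod_cast hn.1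
        · exact_mod_cast hn.2
  refine (Finset.sum_le_sum hpt).trans ?_
  rw [← Finset.sum_filter, Finset.sum_const, nsmul_eq_mul]
  apply mul_le_mul_of_nonneg_right _ (sq_nonneg _)
  have h1 : ((Icc 1 N).filter (fun n => n ∈ S)).card ≤ S.card :=
    Finset.card_le_card fun n hn => (Finset.mem_filter.1 hn).2
  have h2 : S.card ≤ q.primeFactors.card * (E + 1) := by
    rw [hS]
    refine Finset.card_image_le.trans ?_
    rw [Finset.card_product, Finset.card_range]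
  have h3 : q.primeFactors.card ≤ q := by
    calc q.primeFactors.card ≤ (Icc 1 q).card := by
          apply Finset.card_le_card
          intro p hp
          rw [Finset.mem_Icc]
          exact ⟨(Nat.prime_of_mem_primeFactors hp).one_le, Nat.le_of_mem_primeFactors hp⟩
      _ = q := by rw [Nat.card_Icc]; omega
  have h4 : ((Icc 1 N).filter (fun n => n ∈ S)).card ≤ q * (E + 1) :=
    h1.trans (h2.trans (Nat.mul_le_mul_right _ h3))
  exact_mod_cast h4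

lemma two_calc (X H L C2 l2 lq S : ℝ) (B c : ℕ) (hX : 0 ≤ X) (hH : 0 ≤ H) (hL : 1024 ≤ L)
    (hC2 : 1 ≤ C2) (hbig : 16 * C2 * 2 ^ c ≤ L) (hl2 : 0 ≤ l2) (hl2' : 1 + l2 ≤ 2 * L)
    (hlq : 0 ≤ lq) (hlq' : 1 + lq ≤ 2 * L) (hS0 : 0 ≤ S) (hS : S ≤ 4 * (H / L ^ (B + c + 40))) :
    C2 * (2 * X) * H * (1 + l2) ^ c * S * (1 + lq) ≤ X * H ^ 2 / L ^ (B + 30) := by
  have hL0 : 0 < L := by linarith
  calc C2 * (2 * X) * H * (1 + l2) ^ c * S * (1 + lq)
      ≤ C2 * (2 * X) * H * (2 * L) ^ c * (4 * (H / L ^ (B + c + 40))) * (2 * L) := by gcongr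
    _ = (16 * C2 * 2 ^ c) * (X * H ^ 2 / L ^ (B + 39)) := by
        have h1 : L ^ (B + c + 40) = L ^ (B + 39) * L ^ c * L := by ring
        rw [h1, mul_pow]
        field_simp
        ring
    _ ≤ L * (X * H ^ 2 / L ^ (B + 39)) := by gcongr
    _ = X * H ^ 2 / L ^ (B + 38) := by
        have h1 : L ^ (B + 39) = L ^ (B + 38) * L := by ring
        rw [h1]
        field_simp
    _ ≤ X * H ^ 2 / L ^ (B + 30) := by
        apply div_le_div_of_nonneg_left (by positivity) (by positivity)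
        exact pow_le_pow_right₀ (by linarith only [hL]) (by omega)

lemma minor_calc (X H L C1 M Xs : ℝ) (B : ℕ) (hX : 0 ≤ X) (hL : 1024 ≤ L) (hC1 : 1 ≤ C1)
    (hbig : 2 * C1 ≤ L) (hM : L ^ (B + 40) ≤ M) (hXs : 2 * C1 * L ^ (B + 30) ≤ Xs) :
    C1 * X * H ^ 2 * (1 / M ^ 2 + Xs⁻¹) ≤ X * H ^ 2 / L ^ (B + 30) := by
  have hL0 : 0 < L := by linarith
  have h1 : 1 / M ^ 2 ≤ 1 / (2 * C1 * L ^ (B + 30)) := by
    apply one_div_le_one_div_of_le (by positivity)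
    calc 2 * C1 * L ^ (B + 30) ≤ L * L ^ (B + 30) := by gcongr
      _ = L ^ (B + 31) := by ring
      _ ≤ L ^ (2 * (B + 40)) := pow_le_pow_right₀ (by linarith) (by omega)
      _ = (L ^ (B + 40)) ^ 2 := by ring
      _ ≤ M ^ 2 := by gcongr
  have h2 : Xs⁻¹ ≤ 1 / (2 * C1 * L ^ (B + 30)) := by
    rw [inv_eq_one_div]
    exact one_div_le_one_div_of_le (by positivity) hXs
  calc C1 * X * H ^ 2 * (1 / M ^ 2 + Xs⁻¹)
      ≤ C1 * X * H ^ 2 * (1 / (2 * C1 * L ^ (B + 30)) + 1 / (2 * C1 * L ^ (B + 30))) := by gcongr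
    _ = _ := by
      field_simp
      ring

lemma clog_le (X : ℕ) (L : ℝ) (hLX : Real.log X = L) (hX : 1 ≤ X) (hL : 1024 ≤ L) :
    ((Nat.clog 2 (4 * X) : ℕ) : ℝ) + 1 ≤ 2 * L := by
  have h1 : 2 ^ (Nat.clog 2 (4 * X)).pred < 4 * X :=
    Nat.pow_pred_clog_lt_self (by norm_num) (by omega)
  have h2 : ((2 : ℝ) ^ (Nat.clog 2 (4 * X)).pred) ≤ 4 * X := by exact_mod_cast h1.le
  have hX0 : (0 : ℝ) < X := by exact_mod_cast hX
  have h3 := Real.log_le_log (by positivity) h2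
  rw [Real.log_pow, Real.log_mul (by norm_num) (by positivity), hLX] at h3
  have h4 : Real.log 4 = 2 * Real.log 2 := by
    rw [show (4 : ℝ) = 2 ^ 2 by norm_num, Real.log_pow]
    norm_num
  rw [h4] at h3
  have h5 := Real.log_two_gt_d9
  have h6 := Real.log_two_lt_d9
  have h7 : ((Nat.clog 2 (4 * X) : ℕ) : ℝ) ≤ ((Nat.clog 2 (4 * X)).pred : ℝ) + 1 := by
    have : Nat.clog 2 (4 * X) ≤ (Nat.clog 2 (4 * X)).pred + 1 := by
      rw [Nat.pred_eq_sub_one]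
      omega
    exact_mod_cast this
  have h8 : (((Nat.clog 2 (4 * X)).pred : ℕ) : ℝ) * 0.69 ≤ ((Nat.clog 2 (4 * X)).pred : ℝ) * Real.log 2 :=
    mul_le_mul_of_nonneg_left (by linarith) (Nat.cast_nonneg _)
  linarith only [hL, h3, h5, h6, h7, h8]

lemma part3 (X H q E : ℕ) (B : ℕ) (L : ℝ) (α : ℝ) (hX : 1 ≤ X) (hLX : Real.log X = L) (hL : 1024 ≤ L)
    (hHX : H ≤ X) (hq : 1 ≤ q) (hE : 4 * X ≤ 2 ^ E) (hE2 : (E : ℝ) + 1 ≤ 2 * L) (hqX : (q : ℝ) ≤ (X : ℝ) ^ (39 / 100 : ℝ))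
    (hp : 32 * L ^ (B + 3) ≤ (X : ℝ) ^ (61 / 100 : ℝ)) :
    ∑ u ∈ Icc X (2 * X), ‖∑ n ∈ Ioc u (u + H), (((ArithmeticFunction.vonMangoldt n : ℝ) : ℂ) -
      (if n.Coprime q then ((ArithmeticFunction.vonMangoldt n : ℝ) : ℂ) else 0)) * ex (n * α)‖ ^ 2 ≤
      1 / 4 * (X * (H : ℝ) ^ 2 / L ^ B) := by
  have hX0 : (0 : ℝ) < X := by exact_mod_cast hX
  have hL0 : 0 < L := by linarith
  set D : ℕ → ℂ := fun n => ((ArithmeticFunction.vonMangoldt n : ℝ) : ℂ) -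
      (if n.Coprime q then ((ArithmeticFunction.vonMangoldt n : ℝ) : ℂ) else 0) with hD
  have h1 : ∀ u ∈ Icc X (2 * X), ‖∑ n ∈ Ioc u (u + H), D n * ex (n * α)‖ ^ 2 ≤
      H * ∑ n ∈ Ioc u (u + H), ‖D n‖ ^ 2 := by
    intro u _
    have h2 : ‖∑ n ∈ Ioc u (u + H), D n * ex (n * α)‖ ≤ ∑ n ∈ Ioc u (u + H), ‖D n‖ := by
      refine (norm_sum_le _ _).trans (Finset.sum_le_sum fun n _ => ?_)
      rw [norm_mul, norm_ex, mul_one]
    have h3 := sq_sum_le_card_mul_sum_sq (s := Ioc u (u + H)) (f := fun n => ‖D n‖)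
    rw [Nat.card_Ioc, Nat.add_sub_cancel_left] at h3
    exact (pow_le_pow_left₀ (norm_nonneg _) h2 2).trans h3
  refine (Finset.sum_le_sum h1).trans ?_
  rw [← Finset.mul_sum]
  have h4 := shift_cover X H (by omega) (fun n => ‖D n‖ ^ 2) (fun n => sq_nonneg _)
  have h5 := part2 q (4 * X) E (by omega) hE hq
  have hlog4 : Real.log ((4 * X : ℕ) : ℝ) ≤ 2 * L := by
    push_cast
    rw [Real.log_mul (by norm_num) (by positivity), hLX]
    have h4 : Real.log 4 = 2 * Real.log 2 := by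
      rw [show (4 : ℝ) = 2 ^ 2 by norm_num, Real.log_pow]
      norm_num
    have h6 := Real.log_two_lt_d9
    linarith only [hL, h4, h6]
  have hlog0 : 0 ≤ Real.log ((4 * X : ℕ) : ℝ) := Real.log_nonneg (by exact_mod_cast (by omega : 1 ≤ 4 * X))
  have h6 : (q : ℝ) * (E + 1) * Real.log ((4 * X : ℕ) : ℝ) ^ 2 ≤ (X : ℝ) ^ (39 / 100 : ℝ) * (2 * L) * (2 * L) ^ 2 := by
    gcongr
  have h7 : (X : ℝ) ^ (39 / 100 : ℝ) * (X : ℝ) ^ (61 / 100 : ℝ) = X := by
    rw [← Real.rpow_add hX0]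
    norm_num
  have h8 : (X : ℝ) ^ (39 / 100 : ℝ) * (2 * L) * (2 * L) ^ 2 ≤ 1 / 4 * (X / L ^ B) := by
    have h9 : 32 * L ^ (B + 3) * (X : ℝ) ^ (39 / 100 : ℝ) ≤ X := by
      calc 32 * L ^ (B + 3) * (X : ℝ) ^ (39 / 100 : ℝ) ≤
          (X : ℝ) ^ (61 / 100 : ℝ) * (X : ℝ) ^ (39 / 100 : ℝ) := by gcongr
        _ = X := by rw [mul_comm, h7]
    have h10 : (X : ℝ) ^ (39 / 100 : ℝ) * (2 * L) * (2 * L) ^ 2 =
        1 / 4 * ((32 * L ^ (B + 3) * (X : ℝ) ^ (39 / 100 : ℝ)) / L ^ B) := by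
      have : L ^ (B + 3) = L ^ B * L ^ 3 := by ring
      rw [this]
      field_simp
      ring
    rw [h10]
    gcongr
  calc (H : ℝ) * ∑ u ∈ Icc X (2 * X), ∑ n ∈ Ioc u (u + H), ‖D n‖ ^ 2
      ≤ H * (H * (1 / 4 * (X / L ^ B))) := by
        apply mul_le_mul_of_nonneg_left _ (Nat.cast_nonneg _)
        refine h4.trans ?_
        apply mul_le_mul_of_nonneg_left _ (Nat.cast_nonneg _)
        exact h5.trans (h6.trans h8)
    _ = _ := by ring

end BlkMinorAux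

open BlkMinorAux

theorem blk_minor (B : ℕ) (ε : ℝ) (hε : 0 < ε) : ∃ A : ℕ, ∀ᶠ X : ℕ in atTop, ∀ (q0 H : ℕ) (a0 : ℤ) (α : ℝ),
    IsCoprime a0 (q0 : ℤ) → |α - a0 / q0| ≤ 1 / (q0 : ℝ) ^ 2 → Real.log X ^ A ≤ q0 → (q0 : ℝ) ≤ H / Real.log X ^ A →
    (X : ℝ) ^ (1 / 6 + ε) ≤ H → (H : ℝ) ≤ (X : ℝ) ^ (39 / 100 : ℝ) →
    ∑ u ∈ Icc X (2 * X), ‖∑ n ∈ Ioc u (u + H), ((ArithmeticFunction.vonMangoldt n : ℝ) : ℂ) * ex (n * α)‖ ^ 2 ≤
      X * (H : ℝ) ^ 2 / Real.log X ^ B := by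
  classical
  obtain ⟨e', s, C1, he0, he1, hs0, hC1, hev⟩ := cls_minor ε hε
  obtain ⟨C2, c, hC2, htwo⟩ := cls_two
  refine ⟨2 * ((B + c + 40) + (B + 40)) + 10, ?_⟩
  have hlogtop : Tendsto (fun X : ℕ => Real.log (X : ℝ)) atTop atTop :=
    Real.tendsto_log_atTop.comp tendsto_natCast_atTop_atTop
  filter_upwards [hev, eventually_ge_atTop 1, hlogtop.eventually_ge_atTop 1024,
    hlogtop.eventually_ge_atTop (16 * C2 * 2 ^ c), hlogtop.eventually_ge_atTop (2 * C1),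
    logpow (B + c + 40) 8 ε hε, logpow (B + c + 40) 1 s hs0, logpow (B + 30) (2 * C1) s hs0,
    logpow (B + 3) 32 (61 / 100) (by norm_num)] with X hX hX1 hL hL2 hL1 hp1 hp2 hp3 hp4
  intro q0 H a0 α hcop0 hα0 hq0L hq0H hHl hHu
  set L := Real.log X with hLdef
  have hL0 : 0 < L := by linarith only [he0, he1, hL]
  have hL1' : 1 ≤ L := by linarith only [he0, he1, hL]
  have hX0 : (0 : ℝ) < X := by exact_mod_cast hX1
  have hX1' : (1 : ℝ) ≤ X := by exact_mod_cast hX1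
  have hH1' : (1 : ℝ) ≤ H := by
    refine le_trans ?_ hHl
    exact Real.one_le_rpow hX1' (by (clear * - hε; positivity))
  have hH1 : 1 ≤ H := by exact_mod_cast hH1'
  have hH0 : (0 : ℝ) < H := by linarith only [he0, he1, hH1']
  have hHX' : (H : ℝ) ≤ X := by
    refine hHu.trans ?_
    calc (X : ℝ) ^ (39 / 100 : ℝ) ≤ (X : ℝ) ^ (1 : ℝ) :=
          Real.rpow_le_rpow_of_exponent_le hX1' (by norm_num)
      _ = X := Real.rpow_one _
  have hHX : H ≤ X := by exact_mod_cast hHX'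
  set A := 2 * ((B + c + 40) + (B + 40)) + 10 with hA
  have hq01' : (1 : ℝ) ≤ q0 := (one_le_pow₀ hL1').trans hq0L
  have hq01 : 1 ≤ q0 := by exact_mod_cast hq01'
  have hlog4 : 1 + Real.log ((4 * X : ℕ) : ℝ) ≤ 2 * L := by
    push_cast
    rw [Real.log_mul (by norm_num) (by (clear * - hX1; positivity)), ← hLdef]
    have h4 : Real.log 4 = 2 * Real.log 2 := by
      rw [show (4 : ℝ) = 2 ^ 2 by norm_num, Real.log_pow]
      norm_num
    have h6 := Real.log_two_lt_d9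
    linarith only [he0, he1, hL, h4, h6]
  -- Dirichlet
  have hPH : (X : ℝ) ^ e' ≤ H := by
    refine le_trans ?_ hHl
    exact Real.rpow_le_rpow_of_exponent_le hX1' (by linarith only [hε, he0, he1])
  have hP0 : 0 < (X : ℝ) ^ e' := by (clear * - hX1; positivity)
  obtain ⟨q, Q, a, hq1, hqQ, hQ1, hQ2, hcop, hα⟩ := dirichlet α H ((X : ℝ) ^ e') hP0 hPH
  have hq0' : (0 : ℝ) < q := by exact_mod_cast hq1
  have hqH : (q : ℝ) ≤ H * (X : ℝ) ^ (-e') := by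
    rw [Real.rpow_neg hX0.le, ← div_eq_mul_inv]
    refine le_trans ?_ hQ1
    exact_mod_cast hqQ
  have hαq : |α - a / q| ≤ (X : ℝ) ^ e' / (q * H) := by
    refine hα.trans ?_
    rw [div_le_div_iff₀ (by (clear * - hq1; positivity)) (by (clear * - hH1 hq1; positivity))]
    rw [div_le_iff₀ hP0] at hQ2
    calc 1 * ((q : ℝ) * H) = q * H := one_mul _
      _ ≤ q * ((Q + 1 : ℕ) * (X : ℝ) ^ e') := mul_le_mul_of_nonneg_left hQ2 hq0'.le
      _ = (X : ℝ) ^ e' * (q * (Q + 1 : ℕ)) := by ring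
  -- the main lower bound
  have hMIN : L ^ (B + 40) ≤ q * max 1 (H * |α - a / q|) := by
    have hT1 : L ^ (B + 40) ≤ q0 := (pow_le_pow_right₀ hL1' (by omega)).trans hq0L
    refine min_lemma q q0 H a a0 α _ hq1 hq01 hH1 hcop hcop0 hα0 hT1 ?_
    have h1 : (q0 : ℝ) / H ≤ 1 / L ^ A := by
      rw [div_le_div_iff₀ hH0 (by (clear * - hL; positivity))]
      rw [le_div_iff₀ (by (clear * - hL; positivity))] at hq0H
      linarith only [hq0H]
    have h2 : L ^ (B + 40) * 2 ≤ L ^ A := by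
      calc L ^ (B + 40) * 2 ≤ L ^ (B + 40) * L := by
            apply mul_le_mul_of_nonneg_left _ (by (clear * - hL; positivity))
            linarith only [he0, he1, hL]
        _ = L ^ (B + 41) := by ring
        _ ≤ L ^ A := pow_le_pow_right₀ hL1' (by omega)
    have h3 : L ^ (B + 40) * (q0 / H) ≤ 1 / 2 := by
      calc L ^ (B + 40) * (q0 / H) ≤ L ^ (B + 40) * (1 / L ^ A) :=
            mul_le_mul_of_nonneg_left h1 (by (clear * - hL; positivity))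
        _ = L ^ (B + 40) / L ^ A := by ring
        _ ≤ 1 / 2 := by
            rw [div_le_div_iff₀ (by (clear * - hL; positivity)) (by norm_num)]
            linarith only [h2]
    have h4 : L ^ (B + 40) / q0 ≤ 1 / 2 := by
      rw [div_le_div_iff₀ (by (clear * - hq01; positivity)) (by norm_num)]
      linarith only [hq0L, h2]
    linarith only [h3, h4]
  set z : ℕ := ⌈((4 * X : ℕ) : ℝ) ^ (1 / 6 : ℝ)⌉₊ with hz
  have hz6 : 4 * X ≤ z ^ 6 := by
    have h1 : ((4 * X : ℕ) : ℝ) ^ (1 / 6 : ℝ) ≤ z := Nat.le_ceil _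
    have h2 : (((4 * X : ℕ) : ℝ) ^ (1 / 6 : ℝ)) ^ (6 : ℕ) = ((4 * X : ℕ) : ℝ) := by
      rw [← Real.rpow_natCast, ← Real.rpow_mul (by (clear * - hX1; positivity))]
      norm_num
    have h3 : ((4 * X : ℕ) : ℝ) ≤ (z : ℝ) ^ 6 := by
      rw [← h2]
      exact pow_le_pow_left₀ (by (clear * - hX1; positivity)) h1 6
    exact_mod_cast h3
  have hz2 : 2 * (z : ℝ) ≤ H / L ^ (B + c + 40) := by
    have h1 : (z : ℝ) ≤ 4 * (X : ℝ) ^ (1 / 6 : ℝ) := by
      have h2 : (z : ℝ) < ((4 * X : ℕ) : ℝ) ^ (1 / 6 : ℝ) + 1 := Nat.ceil_lt_add_one (by (clear * - hX1; positivity))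
      have h3 : ((4 * X : ℕ) : ℝ) ^ (1 / 6 : ℝ) ≤ 2 * (X : ℝ) ^ (1 / 6 : ℝ) := by
        push_cast
        rw [Real.mul_rpow (by norm_num) (by (clear * - hX1; positivity))]
        apply mul_le_mul_of_nonneg_right _ (by (clear * - hX1; positivity))
        calc (4 : ℝ) ^ (1 / 6 : ℝ) ≤ (4 : ℝ) ^ (1 / 2 : ℝ) :=
              Real.rpow_le_rpow_of_exponent_le (by norm_num) (by norm_num)
          _ = 2 := by
              rw [← Real.sqrt_eq_rpow, show (4 : ℝ) = 2 ^ 2 by norm_num]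
              exact Real.sqrt_sq (by norm_num)
      have h4 : (1 : ℝ) ≤ (X : ℝ) ^ (1 / 6 : ℝ) := Real.one_le_rpow hX1' (by norm_num)
      linarith only [he0, he1, h2, h3, h4]
    rw [le_div_iff₀ (by (clear * - hL; positivity))]
    calc 2 * (z : ℝ) * L ^ (B + c + 40) ≤ 2 * (4 * (X : ℝ) ^ (1 / 6 : ℝ)) * L ^ (B + c + 40) := by
          gcongr
      _ = (X : ℝ) ^ (1 / 6 : ℝ) * (8 * L ^ (B + c + 40)) := by ring
      _ ≤ (X : ℝ) ^ (1 / 6 : ℝ) * (X : ℝ) ^ ε := by gcongr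
      _ = (X : ℝ) ^ (1 / 6 + ε) := by rw [← Real.rpow_add hX0]
      _ ≤ H := hHl
  -- the classes
  have hcls : ∀ (y : ℕ) (e : Fin 12 → ℕ),
      ∑ u ∈ Icc X (2 * X), ‖∑ n ∈ Ioc u (u + H), Fcl z q y e n * ex (n * α)‖ ^ 2 ≤
        X * (H : ℝ) ^ 2 / L ^ (B + 30) := by
    intro y e
    by_cases hi : ∃ i : Fin 12, L ^ (B + c + 40) < (2 : ℝ) ^ e i ∧ (2 : ℝ) ^ e i ≤ H / L ^ (B + c + 40)
    · obtain ⟨i, hi1, hi2⟩ := hi
      have hei : 1 ≤ e i := by
        by_contra h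
        have h0 : e i = 0 := by omega
        rw [h0, pow_zero] at hi1
        have : 1 ≤ L ^ (B + c + 40) := one_le_pow₀ hL1'
        linarith only [hi1, this]
      have h1 := htwo (2 * X) H q0 z q y e i a0 α hH1 (by omega) hq01 hcop0 hα0 hei
      have h2 : ∑ u ∈ Icc X (2 * X), ‖∑ n ∈ Ioc u (u + H), Fcl z q y e n * ex (n * α)‖ ^ 2 ≤
          ∑ u ∈ range (2 * X + 1), ‖∑ n ∈ Ioc u (u + H), Fcl z q y e n * ex (n * α)‖ ^ 2 := by
        refine Finset.sum_le_sum_of_subset_of_nonneg ?_ fun _ _ _ => sq_nonneg _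
        intro u hu
        rw [Finset.mem_Icc] at hu
        rw [Finset.mem_range]
        omega
      refine h2.trans (h1.trans ?_)
      have hA1 : H / L ^ A ≤ H / L ^ (B + c + 40) := by
        apply div_le_div_of_nonneg_left hH0.le (by (clear * - hL; positivity))
        exact pow_le_pow_right₀ hL1' (by omega)
      have h3 : (H : ℝ) / q0 ≤ H / L ^ (B + c + 40) := by
        apply div_le_div_of_nonneg_left hH0.le (by (clear * - hL; positivity))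
        exact (pow_le_pow_right₀ hL1' (by omega)).trans hq0L
      have h4 : (H : ℝ) / 2 ^ e i ≤ H / L ^ (B + c + 40) :=
        div_le_div_of_nonneg_left hH0.le (by (clear * - hL; positivity)) hi1.le
      have h5 : (q0 : ℝ) ≤ H / L ^ (B + c + 40) := hq0H.trans hA1
      have h6 : (0 : ℝ) ≤ Real.log ((2 * X : ℕ) : ℝ) :=
        Real.log_nonneg (by exact_mod_cast (by omega : 1 ≤ 2 * X))
      have h7 : 1 + Real.log ((2 * X : ℕ) : ℝ) ≤ 2 * L := by
        refine le_trans ?_ hlog4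
        have : Real.log ((2 * X : ℕ) : ℝ) ≤ Real.log ((4 * X : ℕ) : ℝ) := by
          apply Real.log_le_log
          · exact_mod_cast (by omega : 0 < 2 * X)
          · exact_mod_cast (by omega : 2 * X ≤ 4 * X)
        linarith only [this]
      have hq0X : (q0 : ℝ) ≤ X := by
        refine h5.trans ((div_le_self hH0.le (one_le_pow₀ hL1')).trans hHX')
      have h8 : 0 ≤ Real.log (q0 : ℝ) := Real.log_nonneg hq01'
      have h9 : 1 + Real.log (q0 : ℝ) ≤ 2 * L := by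
        have : Real.log (q0 : ℝ) ≤ L := Real.log_le_log (by linarith only [he0, he1, hq01']) hq0X
        linarith only [he0, he1, hL, this]
      have h10 := two_calc X H L C2 (Real.log ((2 * X : ℕ) : ℝ)) (Real.log (q0 : ℝ))
        ((2 : ℝ) ^ e i + H / q0 + H / (2 : ℝ) ^ e i + q0) B c hX0.le hH0.le hL hC2 hL2 h6 h7 h8 h9
        (by (clear * - hH1 hq01; positivity)) (by linarith only [hq0H, hi2, hA1, h3, h4])
      refine le_trans (le_of_eq ?_) h10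
      push_cast
      ring
    · push Not at hi
      by_cases hm : ∃ i : Fin 12, i.val < 6 ∧ L ^ (B + c + 40) < (2 : ℝ) ^ e i
      · obtain ⟨i, hi6, hi1⟩ := hm
        have h1 : 2 * (z : ℝ) ≤ (2 : ℝ) ^ e i := hz2.trans (hi i hi1).le
        have h2 : 2 * z ≤ 2 ^ e i := by exact_mod_cast h1
        have h3 : z ≤ 2 ^ e i / 2 := by
          rw [Nat.le_div_iff_mul_le (by norm_num)]
          omega
        have h4 : Fcl z q y e = 0 := by
          unfold Fcl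
          exact Finset.prod_eq_zero (Finset.mem_univ i) (gcl_moebius z q y e i hi6 h3)
        rw [h4]
        simp only [ArithmeticFunction.zero_apply, zero_mul, Finset.sum_const_zero, norm_zero]
        rw [Finset.sum_eq_zero (fun _ _ => by norm_num)]
        (clear * - hX1 hL hH1; positivity)
      · push Not at hm
        have h1 : ∀ i : Fin 12, (2 : ℝ) ^ e i ≤ (X : ℝ) ^ s ∨
            (6 ≤ i.val ∧ H * (X : ℝ) ^ (-s) ≤ (2 : ℝ) ^ e i) := by
          intro i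
          by_cases h : L ^ (B + c + 40) < (2 : ℝ) ^ e i
          · right
            refine ⟨?_, ?_⟩
            · by_contra h6
              exact absurd (hm i (by omega)) (not_le.2 h)
            · refine le_trans ?_ (hi i h).le
              rw [Real.rpow_neg hX0.le, ← div_eq_mul_inv]
              apply div_le_div_of_nonneg_left hH0.le (by (clear * - hL; positivity))
              linarith only [hp2]
          · left
            push Not at h
            linarith only [hp2, h]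
        refine (hX H q z y e a α hHl hHu hq1 hqH hcop hαq h1).trans ?_
        rw [Real.rpow_neg hX0.le]
        exact minor_calc X H L C1 _ _ B hX0.le hL hC1 hL1 hMIN hp3
  -- Heath-Brown
  set E := Nat.clog 2 (4 * X) with hE
  have hE2 : 4 * X ≤ 2 ^ E := Nat.le_pow_clog (by norm_num) _
  have hE3 : (E : ℝ) + 1 ≤ 2 * L := clog_le X L rfl hX1 hL
  obtain ⟨hw0, hw1⟩ := sum_log_ratio (4 * X) (by omega)
  have hwin : ∀ u ∈ Icc X (2 * X),
      ∑ n ∈ Ioc u (u + H), ((ArithmeticFunction.vonMangoldt n : ℝ) : ℂ) * ex (n * α) =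
      (∑ y ∈ Ico 1 (4 * X), ((Real.log (((y : ℝ) + 1) / y) : ℝ) : ℂ) *
        ∑ e ∈ Fintype.piFinset (fun _ : Fin 12 => range (E + 1)), (wt12 e : ℂ) *
          ∑ n ∈ Ioc u (u + H), Fcl z q y e n * ex (n * α)) +
      ∑ n ∈ Ioc u (u + H), (((ArithmeticFunction.vonMangoldt n : ℝ) : ℂ) -
        (if n.Coprime q then ((ArithmeticFunction.vonMangoldt n : ℝ) : ℂ) else 0)) * ex (n * α) := by
    intro u hu
    rw [Finset.mem_Icc] at hu
    have h1 : ∑ y ∈ Ico 1 (4 * X), ((Real.log (((y : ℝ) + 1) / y) : ℝ) : ℂ) *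
        ∑ e ∈ Fintype.piFinset (fun _ : Fin 12 => range (E + 1)), (wt12 e : ℂ) *
          ∑ n ∈ Ioc u (u + H), Fcl z q y e n * ex (n * α) =
        ∑ n ∈ Ioc u (u + H), (if n.Coprime q then ((ArithmeticFunction.vonMangoldt n : ℝ) : ℂ) else 0) *
          ex (n * α) := by
      have h2 : ∀ n ∈ Ioc u (u + H), (if n.Coprime q then ((ArithmeticFunction.vonMangoldt n : ℝ) : ℂ) else 0) *
          ex (n * α) = ∑ y ∈ Ico 1 (4 * X), ((Real.log (((y : ℝ) + 1) / y) : ℝ) : ℂ) *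
        ∑ e ∈ Fintype.piFinset (fun _ : Fin 12 => range (E + 1)), (wt12 e : ℂ) *
          (Fcl z q y e n * ex (n * α)) := by
        intro n hn
        rw [Finset.mem_Ioc] at hn
        rw [hb z q (4 * X) E hz6 hE2 n (by omega) (by omega), Finset.sum_mul]
        refine Finset.sum_congr rfl fun y _ => ?_
        rw [mul_assoc, Finset.sum_mul]
        congr 1
        refine Finset.sum_congr rfl fun e _ => ?_
        ring
      rw [Finset.sum_congr rfl h2, Finset.sum_comm]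
      refine Finset.sum_congr rfl fun y _ => ?_
      rw [← Finset.mul_sum, Finset.sum_comm]
      congr 1
      refine Finset.sum_congr rfl fun e _ => ?_
      rw [← Finset.mul_sum]
    rw [h1, ← Finset.sum_add_distrib]
    refine Finset.sum_congr rfl fun n _ => ?_
    ring
  have hp1' : ∑ u ∈ Icc X (2 * X), ‖∑ y ∈ Ico 1 (4 * X), ((Real.log (((y : ℝ) + 1) / y) : ℝ) : ℂ) *
        ∑ e ∈ Fintype.piFinset (fun _ : Fin 12 => range (E + 1)), (wt12 e : ℂ) *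
          ∑ n ∈ Ioc u (u + H), Fcl z q y e n * ex (n * α)‖ ^ 2 ≤ 1 / 4 * (X * (H : ℝ) ^ 2 / L ^ B) := by
    have h1 := part1 (Icc X (2 * X)) (Ico 1 (4 * X))
      (Fintype.piFinset (fun _ : Fin 12 => range (E + 1)))
      (fun y => Real.log (((y : ℝ) + 1) / y)) wt12
      (fun y e u => ∑ n ∈ Ioc u (u + H), Fcl z q y e n * ex (n * α)) hw0 wt12_le
      (X * (H : ℝ) ^ 2 / L ^ (B + 30)) (fun y _ e _ => hcls y e)
    refine h1.trans ?_
    rw [hw1]
    have h2 : ((Fintype.piFinset (fun _ : Fin 12 => range (E + 1))).card : ℝ) ≤ (2 * L) ^ 12 := by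
      rw [Fintype.card_piFinset]
      simp only [Finset.card_range, Finset.prod_const, Finset.card_univ, Fintype.card_fin]
      push_cast
      gcongr
    have h3 : 0 ≤ Real.log ((4 * X : ℕ) : ℝ) :=
      Real.log_nonneg (by exact_mod_cast (by omega : 1 ≤ 4 * X))
    have h4 : Real.log ((4 * X : ℕ) : ℝ) ≤ 2 * L := by linarith only [he0, he1, hlog4]
    calc Real.log ((4 * X : ℕ) : ℝ) ^ 2 * 4096 *
          ((Fintype.piFinset (fun _ : Fin 12 => range (E + 1))).card : ℝ) ^ 2 *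
          (X * (H : ℝ) ^ 2 / L ^ (B + 30))
        ≤ (2 * L) ^ 2 * 4096 * ((2 * L) ^ 12) ^ 2 * (X * (H : ℝ) ^ 2 / L ^ (B + 30)) := by gcongr
      _ = 2 ^ 38 * (X * (H : ℝ) ^ 2 / L ^ (B + 4)) := by
          have : L ^ (B + 30) = L ^ (B + 4) * L ^ 26 := by ring
          rw [this]
          field_simp
          ring
      _ ≤ 1 / 4 * L ^ 4 * (X * (H : ℝ) ^ 2 / L ^ (B + 4)) := by
          have h5 : (1024 : ℝ) ^ 4 ≤ L ^ 4 := pow_le_pow_left₀ (by norm_num) hL 4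
          have h6 : (2 : ℝ) ^ 38 ≤ 1 / 4 * L ^ 4 := by
            norm_num at h5 ⊢
            linarith only [h5]
          gcongr
      _ = 1 / 4 * (X * (H : ℝ) ^ 2 / L ^ B) := by
          have : L ^ (B + 4) = L ^ B * L ^ 4 := by ring
          rw [this]
          field_simp
  have hqX : (q : ℝ) ≤ (X : ℝ) ^ (39 / 100 : ℝ) := by
    refine hqH.trans (le_trans ?_ hHu)
    apply mul_le_of_le_one_right hH0.le
    exact Real.rpow_le_one_of_one_le_of_nonpos hX1' (by linarith only [he0])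
  have hp2' := part3 X H q E B L α hX1 rfl hL hHX hq1 hE2 hE3 hqX hp4
  calc ∑ u ∈ Icc X (2 * X), ‖∑ n ∈ Ioc u (u + H), ((ArithmeticFunction.vonMangoldt n : ℝ) : ℂ) * ex (n * α)‖ ^ 2
      ≤ ∑ u ∈ Icc X (2 * X), (2 * ‖∑ y ∈ Ico 1 (4 * X), ((Real.log (((y : ℝ) + 1) / y) : ℝ) : ℂ) *
        ∑ e ∈ Fintype.piFinset (fun _ : Fin 12 => range (E + 1)), (wt12 e : ℂ) *
          ∑ n ∈ Ioc u (u + H), Fcl z q y e n * ex (n * α)‖ ^ 2 +
        2 * ‖∑ n ∈ Ioc u (u + H), (((ArithmeticFunction.vonMangoldt n : ℝ) : ℂ) -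
        (if n.Coprime q then ((ArithmeticFunction.vonMangoldt n : ℝ) : ℂ) else 0)) * ex (n * α)‖ ^ 2) := by
        refine Finset.sum_le_sum fun u hu => ?_
        rw [hwin u hu]
        have h1 := norm_add_le (∑ y ∈ Ico 1 (4 * X), ((Real.log (((y : ℝ) + 1) / y) : ℝ) : ℂ) *
          ∑ e ∈ Fintype.piFinset (fun _ : Fin 12 => range (E + 1)), (wt12 e : ℂ) *
          ∑ n ∈ Ioc u (u + H), Fcl z q y e n * ex (n * α))
          (∑ n ∈ Ioc u (u + H), (((ArithmeticFunction.vonMangoldt n : ℝ) : ℂ) -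
          (if n.Coprime q then ((ArithmeticFunction.vonMangoldt n : ℝ) : ℂ) else 0)) * ex (n * α))
        refine (pow_le_pow_left₀ (norm_nonneg _) h1 2).trans ?_
        nlinarith only [sq_nonneg (‖∑ y ∈ Ico 1 (4 * X), ((Real.log (((y : ℝ) + 1) / y) : ℝ) : ℂ) *
          ∑ e ∈ Fintype.piFinset (fun _ : Fin 12 => range (E + 1)), (wt12 e : ℂ) *
          ∑ n ∈ Ioc u (u + H), Fcl z q y e n * ex (n * α)‖ -
          ‖∑ n ∈ Ioc u (u + H), (((ArithmeticFunction.vonMangoldt n : ℝ) : ℂ) -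
          (if n.Coprime q then ((ArithmeticFunction.vonMangoldt n : ℝ) : ℂ) else 0)) * ex (n * α)‖)]
    _ ≤ 2 * (1 / 4 * (X * (H : ℝ) ^ 2 / L ^ B)) + 2 * (1 / 4 * (X * (H : ℝ) ^ 2 / L ^ B)) := by
        rw [Finset.sum_add_distrib, ← Finset.mul_sum, ← Finset.mul_sum]
        linarith only [hp1', hp2']
    _ = X * (H : ℝ) ^ 2 / L ^ B := by ring

end Pool.Agent.VM
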