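import Pool.Agent.Lib.VM.MuFBound
import Pool.Agent.Lib.VK.Prime
import Pool.Agent.Lib.VK.DefsC

/-!
# Module VkMu: the Moebius function twisted by `χ(n) n^(-iv)`, Vinogradov-Korobov range

Copy of `VK.vk_prime` (file VK/Prime.lean) with `mu_fbound`, `mu_triv` in place of `f_bound_vk`, `f_triv`. `λ = log N`. Sequence
`b n = (1/2) μ(n) χ(n) n^(-iv)` for `n ≥ 2`, `b n = 0` for `n ≤ 1`, so `|b n| ≤ 1/2 ≤ log n` for `n ≥ 2` (`unsm_vk` asks `|b n| ≤ log n`). For `m ≥ 1` the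
sequence `b n (log n)^m` is `(1/2) lg (tw (muc χ) v) m` (at `n = 1` both vanish), its `LSeries` at `s` is `(1/2) Lm (muc χ) m (s + iv)`; abscissa
`≤ 1` from `abscissa_le_one`, `tw_abscissa`. With `c0` of `mu_fbound A`: `m = 20 (c0 + 2A + 10)`, `B = B0 + 2A + 10` and `Δ = λ^(-(A+3))`: `H1 = C ℓ^(19m/20 + c0)`,
`H2 = C (2λ)^(m+1)`; `unsm_vk`: `N (H λ^(A+3-m) + λ^(-(A+2)))`, `19m/20 + c0 + A + 3 - m = c0 + A + 3 - m/20 ≤ -(A+2)`. The full sum is
`2 ∑ b n` plus the term `n = 1`. `nit n v = n^(-iv)` by definition.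
-/

set_option autoImplicit false

open Finset Filter Pool.Agent.Lib.SW

namespace Pool.Agent.VM

open Pool.Agent.VK

namespace MuAux

open PrimeAux

lemma norm_muc_le {q : ℕ} (χ : DirichletCharacter ℂ q) (n : ℕ) : ‖muc χ n‖ ≤ 1 := by
  unfold muc
  rw [norm_mul]
  have h1 := norm_chf_le χ n
  have h2 : ‖(((ArithmeticFunction.moebius n : ℤ)) : ℂ)‖ ≤ 1 := by
    rw [Complex.norm_intCast]
    exact_mod_cast ArithmeticFunction.abs_moebius_le_one
  calc ‖chf χ n‖ * ‖(((ArithmeticFunction.moebius n : ℤ)) : ℂ)‖ ≤ 1 * 1 :=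
        mul_le_mul h1 h2 (norm_nonneg _) zero_le_one
    _ = 1 := one_mul 1

lemma abscissa_muc {q : ℕ} (χ : DirichletCharacter ℂ q) :
    LSeries.abscissaOfAbsConv (muc χ) ≤ 1 := abscissa_le_one (norm_muc_le χ)

/-- half of the twisted Moebius function, without the term `n = 1` -/
noncomputable def bb {q : ℕ} (χ : DirichletCharacter ℂ q) (v : ℝ) (n : ℕ) : ℂ :=
  if n ≤ 1 then 0 else (1 / 2 : ℂ) * tw (muc χ) v n

lemma norm_bb_le {q : ℕ} (χ : DirichletCharacter ℂ q) (v : ℝ) (n : ℕ) : ‖bb χ v n‖ ≤ Real.log n := by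
  unfold bb
  split_ifs with h
  · rw [norm_zero]
    exact Real.log_natCast_nonneg n
  · have hn : 0 < n := by omega
    rw [norm_mul, norm_tw v hn]
    have h1 := norm_muc_le χ n
    have h2 : Real.log 2 ≤ Real.log n := by
      apply Real.log_le_log (by norm_num)
      have : 2 ≤ n := by omega
      exact_mod_cast this
    have h3 : (0.6931471803 : ℝ) < Real.log 2 := Real.log_two_gt_d9
    have h4 : ‖(1 / 2 : ℂ)‖ = 1 / 2 := by norm_num
    rw [h4]
    linarith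

lemma bb_lg {q : ℕ} (χ : DirichletCharacter ℂ q) (v : ℝ) {m : ℕ} (hm : m ≠ 0) (n : ℕ) :
    bb χ v n * ((Real.log n : ℝ) : ℂ) ^ m = (1 / 2 : ℂ) * lg (tw (muc χ) v) m n := by
  unfold bb lg
  split_ifs with h
  · have h1 : Real.log (n : ℝ) = 0 := by
      interval_cases n <;> simp
    rw [h1, Complex.ofReal_zero, zero_pow hm, mul_zero, mul_zero, mul_zero]
  · ring

end MuAux

open MuAux PrimeAux

namespace MuAux

theorem bb_bound (A C0 : ℕ) : ∃ B : ℕ, ∀ᶠ N : ℕ in atTop, ∀ (q : ℕ) [NeZero q] (χ : DirichletCharacter ℂ q),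
    (q : ℝ) ≤ Real.log N ^ A → ∀ v : ℝ, Real.log N ^ B ≤ |v| → |v| ≤ (N : ℝ) ^ C0 → ∀ y : ℕ, y ≤ N →
    ‖∑ n ∈ Icc 1 y, bb χ v n‖ ≤ N / Real.log N ^ A := by
  obtain ⟨c0, hF0⟩ := mu_fbound A
  obtain ⟨m, hm⟩ : ∃ m : ℕ, m = 20 * (c0 + 2 * A + 10) := ⟨_, rfl⟩
  obtain ⟨B0, C1, hC1, hF⟩ := hF0 m
  obtain ⟨C2, hC2, hT⟩ := mu_triv m
  obtain ⟨C3, hC3, hU⟩ := unsm_vk m
  refine ⟨B0 + 2 * A + 10, ?_⟩
  obtain ⟨B, hB⟩ : ∃ B : ℕ, B = B0 + 2 * A + 10 := ⟨_, rfl⟩
  rw [← hB]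
  -- the constants
  obtain ⟨G, hG⟩ : ∃ G : ℝ, G = (C0 + 2 : ℝ) := ⟨_, rfl⟩
  have hG2 : 2 ≤ G := by
    rw [hG]
    have : (0 : ℝ) ≤ C0 := Nat.cast_nonneg _
    linarith
  obtain ⟨E, hE⟩ : ∃ E : ℝ, E = (19 / 20 : ℝ) * m + c0 := ⟨_, rfl⟩
  rw [← hE] at hF
  have hE0 : 0 ≤ E := by rw [hE]; positivity
  obtain ⟨p, hp⟩ : ∃ p : ℕ, p = 19 * (c0 + 2 * A + 10) + c0 := ⟨_, rfl⟩
  have hE1 : E ≤ (p : ℝ) := by
    rw [hE, hm, hp]
    push_cast
    linarith
  obtain ⟨c1, hc1⟩ : ∃ c : ℝ, c = C3 * (2 * (C1 * G ^ E)) := ⟨_, rfl⟩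
  obtain ⟨c2, hc2⟩ : ∃ c : ℝ, c = C3 * (4 * (C2 * 2 ^ (m + 1))) := ⟨_, rfl⟩
  obtain ⟨c4, hc4⟩ : ∃ c : ℝ, c = 2 ^ (A + 2) * ((A + 2).factorial : ℝ) := ⟨_, rfl⟩
  obtain ⟨c5, hc5⟩ : ∃ c : ℝ, c = 2 ^ (A + 3) * ((A + 3).factorial : ℝ) := ⟨_, rfl⟩
  have hGE : 0 < G ^ E := Real.rpow_pos_of_pos (by linarith only [hG]) _
  have hc1p : 0 < c1 := by rw [hc1]; positivity
  have hc2p : 0 < c2 := by rw [hc2]; positivity
  have hc4p : 0 < c4 := by rw [hc4]; positivity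
  have hc5p : 0 < c5 := by rw [hc5]; positivity
  obtain ⟨K, hK⟩ : ∃ K : ℝ, K = 2 + 4 * c1 + 4 * c2 + 4 * C3 + 4 * c4 + c5 + 2 * G ^ B0 := ⟨_, rfl⟩
  have hGB : 0 < G ^ B0 := by (clear * - hG2; positivity)
  have hlog : Tendsto (fun N : ℕ => Real.log N) atTop atTop :=
    Real.tendsto_log_atTop.comp tendsto_natCast_atTop_atTop
  have hTt : Tendsto (fun N : ℕ => (N : ℝ) ^ (C0 + 2)) atTop atTop :=
    (tendsto_pow_atTop (by omega)).comp tendsto_natCast_atTop_atTop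
  filter_upwards [hlog.eventually_ge_atTop K, hTt.eventually hF, eventually_ge_atTop 9]
    with N hNK hFN hN9
  intro q _ χ hq v hv1 hv2 y hyN
  set L := Real.log N with hL
  have hN9' : (9 : ℝ) ≤ N := by exact_mod_cast hN9
  have hN0 : (0 : ℝ) < N := by linarith only [hN9']
  have hK' : 2 ≤ L ∧ 4 * c1 ≤ L ∧ 4 * c2 ≤ L ∧ 4 * C3 ≤ L ∧ 4 * c4 ≤ L ∧ c5 ≤ L ∧
      2 * G ^ B0 ≤ L := by
    rw [hK] at hNK
    refine ⟨?_, ?_, ?_, ?_, ?_, ?_, ?_⟩ <;> linarith only [hC3, hc1p, hc2p, hc4p, hc5p, hGB, hNK]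
  obtain ⟨hL2, hLc1, hLc2, hLC3, hLc4, hLc5, hLG⟩ := hK'
  have hL1 : 1 ≤ L := by linarith only [hC3, hc1p, hc2p, hc4p, hc5p, hK, hGB, hNK]
  have hL0 : 0 < L := by linarith only [hC3, hc1p, hc2p, hc4p, hc5p, hK, hGB, hNK]
  -- the height `T`
  set T : ℝ := (N : ℝ) ^ (C0 + 2) with hTdef
  have hlogT : Real.log T = G * L := by
    rw [hTdef, Real.log_pow, hG]
    push_cast
    ring
  have hqT : (q : ℝ) ≤ Real.log T ^ A := by
    refine hq.trans ?_
    rw [hlogT]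
    exact pow_le_pow_left₀ hL0.le (le_mul_of_one_le_left hL0.le (by linarith only [hG])) _
  have hv0 : 0 < |v| := lt_of_lt_of_le (by (clear * - hL2; positivity)) hv1
  have hLB : L ≤ L ^ B := by
    calc L = L ^ 1 := (pow_one L).symm
      _ ≤ L ^ B := pow_le_pow_right₀ hL1 (by omega)
  have hV1 : 1 ≤ |v| / 2 := by linarith only [hC3, hc1p, hc2p, hc4p, hc5p, hK, hGB, hNK, hv1, hLB]
  -- the sequence
  set b : ℕ → ℂ := bb χ v with hb
  have hbn : ∀ n, ‖b n‖ ≤ Real.log n := norm_bb_le χ v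
  set H1 : ℝ := C1 * Real.log T ^ E with hH1
  set H2 : ℝ := C2 * (2 * L) ^ (m + 1) with hH2
  have hH10 : 0 ≤ H1 := mul_nonneg hC1.le (Real.rpow_nonneg (by rw [hlogT]; (clear * - hG2 hL2; positivity)) _)
  have hH20 : 0 ≤ H2 := by (clear * - hC2 hL2; positivity)
  set H : ℝ := 2 * (H1 + H2 / (L ^ B / 2)) with hH
  have hH0 : 0 ≤ H := by (clear * - hC2 hL2 hH10; positivity)
  have hsN3 : 3 ≤ Real.sqrt N := by
    rw [show (3 : ℝ) = Real.sqrt (3 ^ 2) by rw [Real.sqrt_sq (by norm_num)]]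
    exact Real.sqrt_le_sqrt (by linarith only [hN9'])
  have hriesz : ∀ x : ℕ, Real.sqrt N ≤ x → x ≤ 2 * N + 1 →
      ‖∑ n ∈ Icc 1 x, b n * ((Real.log n : ℝ) : ℂ) ^ m * (1 - (n : ℂ) / (x : ℂ))‖ ≤ H * x := by
    intro x hx1 hx2
    have hx3 : (3 : ℝ) ≤ x := hsN3.trans hx1
    have hx0 : (0 : ℝ) < x := by linarith only [hsN3, hx1]
    have hx3' : 3 ≤ x := by exact_mod_cast hx3
    have hlx1 : 1 ≤ Real.log x := Unsmooth.one_le_log hx3'
    have hlx2 : Real.log x ≤ 2 * L := by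
      have h1 : (x : ℝ) ≤ N * N := by
        have h0 : (x : ℝ) ≤ 2 * N + 1 := by exact_mod_cast hx2
        calc (x : ℝ) ≤ 2 * N + 1 := h0
          _ ≤ 9 * N := by linarith only [hN9']
          _ ≤ N * N := mul_le_mul_of_nonneg_right hN9' hN0.le
      have h2 := Real.log_le_log hx0 h1
      rw [Real.log_mul hN0.ne' hN0.ne'] at h2
      linarith only [h2]
    have hσ1 : 0 < 1 / Real.log x := by (clear * - hlx1; positivity)
    have hσ2 : 1 / Real.log x ≤ 1 := by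
      rw [div_le_one (by linarith only [hlx1])]
      exact hlx1
    have hre : ∀ y : ℝ, ((((1 + 1 / Real.log x : ℝ) : ℂ) + y * Complex.I) +
        v * Complex.I).re = 1 + 1 / Real.log x := by
      intro y
      simp only [Complex.add_re, Complex.ofReal_re, Complex.mul_re, Complex.ofReal_im, Complex.I_re,
        Complex.I_im]
      ring
    have him : ∀ y : ℝ, ((((1 + 1 / Real.log x : ℝ) : ℂ) + y * Complex.I) +
        v * Complex.I).im = y + v := by
      intro y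
      simp only [Complex.add_im, Complex.ofReal_re, Complex.mul_im, Complex.ofReal_im, Complex.I_re,
        Complex.I_im]
      ring
    have h := riesz_two (lg (tw (muc χ) v) m) (tw_abscissa (abscissa_muc χ) m v) (x : ℝ) H1 H2 (|v| / 2)
      hx3 hH10 hH20 hV1 (by
        intro y hy
        rw [tw_LSeries]
        refine hFN q χ hqT _ ?_ ?_ ?_ ?_
        · rw [hre]
          linarith only [hσ1]
        · rw [hre]
          linarith only [hσ2]
        · rw [him]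
          have h1 : |v| / 2 ≤ |y + v| := by
            have := abs_sub_abs_le_abs_add v y
            rw [add_comm v y] at this
            linarith only [hy, this]
          refine le_trans ?_ h1
          rw [hlogT, mul_pow]
          have h2 : L ^ (B0 + 1) ≤ L ^ B := pow_le_pow_right₀ hL1 (by omega)
          have h3 : G ^ B0 * L ^ B0 ≤ L ^ (B0 + 1) / 2 := by
            rw [pow_succ]
            have h4 : 0 ≤ L ^ B0 := by (clear * - hL2; positivity)
            have h5 : G ^ B0 ≤ L / 2 := by linarith only [hC3, hc1p, hc2p, hc4p, hc5p, hK, hNK]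
            calc G ^ B0 * L ^ B0 ≤ L / 2 * L ^ B0 := mul_le_mul_of_nonneg_right h5 h4
              _ = L ^ B0 * L / 2 := by ring
          linarith only [hv1, h2, h3]
        · rw [him]
          have h1 : |y + v| ≤ 3 / 2 * |v| := by
            have := abs_add_le y v
            linarith only [hy, this]
          refine h1.trans ?_
          rw [hTdef, pow_add]
          have h2 : (81 : ℝ) ≤ (N : ℝ) ^ 2 := by
            calc (81 : ℝ) = 9 ^ 2 := by norm_num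
              _ ≤ (N : ℝ) ^ 2 := pow_le_pow_left₀ (by norm_num) hN9' 2
          have h3 : 0 ≤ (N : ℝ) ^ C0 := by (clear * - hN9; positivity)
          calc 3 / 2 * |v| ≤ 3 / 2 * (N : ℝ) ^ C0 := mul_le_mul_of_nonneg_left hv2 (by norm_num)
            _ ≤ (N : ℝ) ^ C0 * 81 / 8 := by linarith only [hC3, hc1p, hc2p, hc4p, hc5p, hK, hGB, hv2, hNK, hv1, hLB]
            _ ≤ (N : ℝ) ^ C0 * (N : ℝ) ^ 2 / 8 := by
                refine div_le_div_of_nonneg_right ?_ (by norm_num)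
                exact mul_le_mul_of_nonneg_left h2 h3) (by
        intro y
        rw [tw_LSeries]
        refine (hT q χ _ ?_ ?_).trans ?_
        · rw [hre]
          linarith only [hσ1]
        · rw [hre]
          linarith only [hσ2]
        · rw [hre, hH2]
          refine mul_le_mul_of_nonneg_left ?_ hC2.le
          have h1 : 1 / (1 + 1 / Real.log x - 1) = Real.log x := by
            rw [add_sub_cancel_left, one_div_one_div]
          rw [h1]
          exact pow_le_pow_left₀ (by linarith only [hlx1]) hlx2 _)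
    rw [Nat.floor_natCast] at h
    have h5 : ∑ n ∈ Icc 1 x, b n * ((Real.log n : ℝ) : ℂ) ^ m * (1 - (n : ℂ) / (x : ℂ)) =
        (1 / 2 : ℂ) * ∑ n ∈ Icc 1 x, lg (tw (muc χ) v) m n * (1 - (n : ℂ) / (((x : ℕ) : ℝ) : ℂ)) := by
      rw [Finset.mul_sum]
      refine Finset.sum_congr rfl fun n _ => ?_
      rw [Complex.ofReal_natCast, hb, bb_lg χ v (by omega) n]
      ring
    rw [h5, norm_mul]
    have h7 : ‖(1 / 2 : ℂ)‖ ≤ 1 := by norm_num
    refine (mul_le_mul h7 h (norm_nonneg _) zero_le_one).trans ?_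
    rw [one_mul]
    rw [hH]
    refine mul_le_mul_of_nonneg_right ?_ hx0.le
    have h6 : H2 / (|v| / 2) ≤ H2 / (L ^ B / 2) :=
      div_le_div_of_nonneg_left hH20 (by (clear * - hL2; positivity)) (by linarith only [hv1])
    linarith only [h6]
  -- unsmoothing
  have hs0 : 0 < Real.sqrt N := by linarith only [hsN3]
  have hlp4 : L ^ (A + 2) ≤ c4 * Real.sqrt N := by
    rw [hc4]
    exact Unsmooth.logpow_le (A + 2) (by linarith only [hN9'])
  have hlp5 : L ^ (A + 3) ≤ c5 * Real.sqrt N := by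
    rw [hc5]
    exact Unsmooth.logpow_le (A + 3) (by linarith only [hN9'])
  have hΔs : L ^ (A + 2) ≤ Real.sqrt N := by
    have h1 : L ^ (A + 2) * L ≤ Real.sqrt N * L := by
      calc L ^ (A + 2) * L = L ^ (A + 3) := by ring
        _ ≤ c5 * Real.sqrt N := hlp5
        _ ≤ L * Real.sqrt N := mul_le_mul_of_nonneg_right hLc5 hs0.le
        _ = Real.sqrt N * L := mul_comm _ _
    exact le_of_mul_le_mul_right h1 hL0
  have hPA2 : 0 < L ^ (A + 2) := by (clear * - hL2; positivity)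
  have hmain := hU b N H (L ^ (A + 2))⁻¹ hN9 hH0 (inv_pos.2 hPA2)
    (inv_le_one_of_one_le₀ (one_le_pow₀ hL1)) (by
      rw [inv_mul_eq_div, one_le_div hPA2]
      exact hΔs) hbn hriesz y hyN
  change ‖∑ n ∈ Icc 1 y, b n‖ ≤ _
  refine hmain.trans ?_
  rw [← hL]
  -- the final estimate
  have hLA : 0 < L ^ A := by (clear * - hL2; positivity)
  rw [le_div_iff₀ hLA]
  have hNs : Real.sqrt N * Real.sqrt N = N := Real.mul_self_sqrt hN0.le
  -- part 4
  have p4 : Real.sqrt N * L * L ^ A ≤ N * (1 / 4) := by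
    have h1 : L ^ (A + 2) * 4 ≤ Real.sqrt N * L := by
      calc L ^ (A + 2) * 4 ≤ c4 * Real.sqrt N * 4 := by linarith only [hlp4]
        _ = 4 * c4 * Real.sqrt N := by ring
        _ ≤ L * Real.sqrt N := mul_le_mul_of_nonneg_right hLc4 hs0.le
        _ = Real.sqrt N * L := mul_comm _ _
    have h2 : L ^ (A + 1) * 4 ≤ Real.sqrt N := by
      have h3 : (L ^ (A + 1) * 4) * L ≤ Real.sqrt N * L := by
        calc (L ^ (A + 1) * 4) * L = L ^ (A + 2) * 4 := by ring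
          _ ≤ _ := h1
      exact le_of_mul_le_mul_right h3 hL0
    calc Real.sqrt N * L * L ^ A = Real.sqrt N * (L ^ (A + 1) * 4) * (1 / 4) := by ring
      _ ≤ Real.sqrt N * Real.sqrt N * (1 / 4) := by
          refine mul_le_mul_of_nonneg_right ?_ (by norm_num)
          exact mul_le_mul_of_nonneg_left h2 hs0.le
      _ = N * (1 / 4) := by rw [hNs]
  -- part 3
  have p3 : C3 * ((L ^ (A + 2))⁻¹ * L) * L ^ A ≤ 1 / 4 := by
    have e : C3 * ((L ^ (A + 2))⁻¹ * L) * L ^ A = C3 / L := by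
      rw [pow_add]
      field_simp
    rw [e, div_le_div_iff₀ hL0 (by norm_num)]
    linarith only [hc1p, hc2p, hc4p, hc5p, hK, hGB, hNK]
  -- part 1
  have hTE : Real.log T ^ E ≤ G ^ E * L ^ p := by
    rw [hlogT, Real.mul_rpow (by linarith only [hG]) hL0.le]
    refine mul_le_mul_of_nonneg_left ?_ hGE.le
    rw [← Real.rpow_natCast]
    exact Real.rpow_le_rpow_of_exponent_le hL1 hE1
  have p1 : C3 * (2 * H1 / ((L ^ (A + 2))⁻¹ * L ^ m)) * L ^ A ≤ 1 / 4 := by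
    have h1 : C3 * (2 * H1 / ((L ^ (A + 2))⁻¹ * L ^ m)) * L ^ A ≤
        C3 * (2 * (C1 * (G ^ E * L ^ p)) / ((L ^ (A + 2))⁻¹ * L ^ m)) * L ^ A := by
      rw [hH1]
      gcongr
    refine h1.trans ?_
    have e : C3 * (2 * (C1 * (G ^ E * L ^ p)) / ((L ^ (A + 2))⁻¹ * L ^ m)) *
        L ^ A = c1 * (L ^ (p + (2 * A + 2)) / L ^ m) := by
      have e1 : L ^ (p + (2 * A + 2)) = L ^ p * L ^ (A + 2) * L ^ A := by
        rw [← pow_add, ← pow_add]
        congr 1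
        omega
      rw [e1, hc1]
      field_simp
    rw [e]
    have h2 : L ^ (p + (2 * A + 2)) / L ^ m ≤ 1 / L := by
      rw [div_le_div_iff₀ (by (clear * - hL2; positivity)) hL0, one_mul, ← pow_succ]
      exact pow_le_pow_right₀ hL1 (by omega)
    calc c1 * (L ^ (p + (2 * A + 2)) / L ^ m) ≤ c1 * (1 / L) := mul_le_mul_of_nonneg_left h2 hc1p.le
      _ ≤ 1 / 4 := by
          rw [mul_one_div, div_le_div_iff₀ hL0 (by norm_num)]
          linarith only [hC3, hc2p, hc4p, hc5p, hK, hGB, hNK]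
  -- part 2
  have p2 : C3 * (2 * (H2 / (L ^ B / 2)) / ((L ^ (A + 2))⁻¹ * L ^ m)) * L ^ A ≤ 1 / 4 := by
    have e : C3 * (2 * (H2 / (L ^ B / 2)) / ((L ^ (A + 2))⁻¹ * L ^ m)) * L ^ A =
        c2 * (L ^ (2 * A + 3) / L ^ B) := by
      have e1 : L ^ (2 * A + 3) * L ^ m = L ^ (m + 1) * L ^ (A + 2) * L ^ A := by
        rw [← pow_add, ← pow_add, ← pow_add]
        congr 1
        ring
      have e2 : c2 * (L ^ (2 * A + 3) / L ^ B) = c2 * ((L ^ (2 * A + 3) * L ^ m) / (L ^ B * L ^ m)) := by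
        field_simp
      rw [e2, e1, hc2, hH2, mul_pow]
      field_simp
      ring
    rw [e]
    have h2 : L ^ (2 * A + 3) / L ^ B ≤ 1 / L := by
      rw [div_le_div_iff₀ (by (clear * - hL2; positivity)) hL0, one_mul, ← pow_succ]
      exact pow_le_pow_right₀ hL1 (by omega)
    calc c2 * (L ^ (2 * A + 3) / L ^ B) ≤ c2 * (1 / L) := mul_le_mul_of_nonneg_left h2 hc2p.le
      _ ≤ 1 / 4 := by
          rw [mul_one_div, div_le_div_iff₀ hL0 (by norm_num)]
          linarith only [hC3, hc1p, hc4p, hc5p, hK, hGB, hNK]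
  have e : (C3 * N * (H / ((L ^ (A + 2))⁻¹ * L ^ m) + (L ^ (A + 2))⁻¹ * L) + Real.sqrt N * L) * L ^ A =
      N * (C3 * (2 * H1 / ((L ^ (A + 2))⁻¹ * L ^ m)) * L ^ A +
        C3 * (2 * (H2 / (L ^ B / 2)) / ((L ^ (A + 2))⁻¹ * L ^ m)) * L ^ A +
        C3 * ((L ^ (A + 2))⁻¹ * L) * L ^ A) + Real.sqrt N * L * L ^ A := by
    rw [hH]
    ring
  rw [e]
  have h9 : N * (C3 * (2 * H1 / ((L ^ (A + 2))⁻¹ * L ^ m)) * L ^ A +
        C3 * (2 * (H2 / (L ^ B / 2)) / ((L ^ (A + 2))⁻¹ * L ^ m)) * L ^ A +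
        C3 * ((L ^ (A + 2))⁻¹ * L) * L ^ A) ≤ N * (3 / 4) :=
    mul_le_mul_of_nonneg_left (by linarith only [p3, p1, p2]) hN0.le
  linarith only [p4, h9]

end MuAux

theorem vk_mu (A C0 : ℕ) : ∃ B : ℕ, ∀ᶠ N : ℕ in atTop, ∀ (q : ℕ) [NeZero q] (χ : DirichletCharacter ℂ q),
    (q : ℝ) ≤ Real.log N ^ A → ∀ v : ℝ, Real.log N ^ B ≤ |v| → |v| ≤ (N : ℝ) ^ C0 → ∀ y : ℕ, y ≤ N →
    ‖∑ n ∈ Icc 1 y, ((ArithmeticFunction.moebius n : ℤ) : ℂ) * (χ (n : ZMod q) * nit n v)‖ ≤ N / Real.log N ^ A := by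
  obtain ⟨B, hB⟩ := MuAux.bb_bound (A + 1) C0
  refine ⟨B, ?_⟩
  have hlog : Tendsto (fun N : ℕ => Real.log N) atTop atTop :=
    Real.tendsto_log_atTop.comp tendsto_natCast_atTop_atTop
  filter_upwards [hB, hlog.eventually_ge_atTop 4, eventually_ge_atTop 9,
    hlog.eventually_ge_atTop (2 ^ (A + 1) * ((A + 1).factorial : ℝ))] with N hN hL4 hN9 hLc
  intro q _ χ hq v hv1 hv2 y hyN
  set L := Real.log N with hL
  have hL0 : 0 < L := by linarith only [hL4]
  have hLA : 0 < L ^ A := pow_pos hL0 A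
  have hN9' : (9 : ℝ) ≤ N := by exact_mod_cast hN9
  have hN0 : (0 : ℝ) < N := by linarith only [hN9']
  have h1 := hN q χ (hq.trans (pow_le_pow_right₀ (by linarith only [hL4]) (by omega))) v hv1 hv2 y hyN
  -- the sum in terms of `bb`
  have h2 : ∀ n ∈ Icc 1 y, ((ArithmeticFunction.moebius n : ℤ) : ℂ) * (χ (n : ZMod q) * nit n v) =
      2 * bb χ v n + (if n = 1 then 1 else 0) := by
    intro n hn
    rw [Finset.mem_Icc] at hn
    rcases eq_or_ne n 1 with rfl | h1n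
    · rw [if_pos rfl]
      unfold bb nit
      simp
    · rw [if_neg h1n, add_zero]
      unfold bb
      rw [if_neg (by omega)]
      unfold tw muc nit chf
      ring
  rw [Finset.sum_congr rfl h2, Finset.sum_add_distrib, ← Finset.mul_sum]
  have h3 : ‖∑ n ∈ Icc 1 y, (if n = 1 then (1 : ℂ) else 0)‖ ≤ 1 := by
    rw [Finset.sum_ite_eq' (Icc 1 y) 1 (fun _ => (1 : ℂ))]
    split_ifs <;> simp
  have h4 : ‖(2 : ℂ) * ∑ n ∈ Icc 1 y, bb χ v n‖ ≤ 2 * (N / L ^ (A + 1)) := by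
    rw [norm_mul, Complex.norm_ofNat]
    exact mul_le_mul_of_nonneg_left h1 (by norm_num)
  refine (norm_add_le _ _).trans ?_
  have h5 : 2 * ((N : ℝ) / L ^ (A + 1)) ≤ N / L ^ A / 2 := by
    rw [pow_succ, ← div_div]
    have h6 : 0 ≤ (N : ℝ) / L ^ A := by positivity
    have h7 : (N : ℝ) / L ^ A / L ≤ N / L ^ A / 4 :=
      div_le_div_of_nonneg_left h6 (by norm_num) hL4
    linarith only [h7]
  have h6 : 1 ≤ (N : ℝ) / L ^ A / 2 := by
    have h7 : L ^ (A + 1) ≤ 2 ^ (A + 1) * ((A + 1).factorial : ℝ) * Real.sqrt N :=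
      Unsmooth.logpow_le (A + 1) (by linarith only [hN9'])
    have hs0 : 0 < Real.sqrt N := Real.sqrt_pos.2 hN0
    have h8 : L ^ A ≤ Real.sqrt N := by
      have h9 : L ^ A * L ≤ Real.sqrt N * L := by
        calc L ^ A * L = L ^ (A + 1) := by ring
          _ ≤ 2 ^ (A + 1) * ((A + 1).factorial : ℝ) * Real.sqrt N := h7
          _ ≤ L * Real.sqrt N := mul_le_mul_of_nonneg_right hLc hs0.le
          _ = Real.sqrt N * L := mul_comm _ _
      exact le_of_mul_le_mul_right h9 hL0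
    have h10 : 2 ≤ Real.sqrt N := by
      rw [show (2 : ℝ) = Real.sqrt (2 ^ 2) by rw [Real.sqrt_sq (by norm_num)]]
      exact Real.sqrt_le_sqrt (by linarith only [hN9'])
    rw [div_div, le_div_iff₀ (by (clear * - hL4; positivity)), one_mul]
    calc L ^ A * 2 ≤ Real.sqrt N * Real.sqrt N :=
          mul_le_mul h8 h10 (by norm_num) hs0.le
      _ = N := Real.mul_self_sqrt hN0.le
  linarith only [h3, h4, h5, h6]

end Pool.Agent.VM
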