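import Pool.Agent.Lib.VM.Defs

/-!
# Module DpMul: Dirichlet polynomials of products

`dp_mul`: `(f * g) n = ∑_{(a,b), ab = n} f a g b`; all pairs with `f a g b ≠ 0` have `a ≤ N1`, `b ≤ N2`, `ab ≤ N1 N2 ≤ N`.
`dp_prod`: induction on `D` (or on the finite product, using `dp_mul`), then restrict the sums to the supports:
`(∏ G) n ≠ 0` implies `∏ 2^(e i - 1) < n ≤ ∏ 2^(e i)`.
-/

set_option autoImplicit false

open Finset

namespace Pool.Agent.VM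

open Pool.Agent.VK Pool.Agent.HLT

theorem dp_mul (f g : ArithmeticFunction ℂ) (φ : ℕ → ℂ) (hφ : ∀ m n : ℕ, 1 ≤ m → 1 ≤ n → φ (m * n) = φ m * φ n)
    (N1 N2 N : ℕ) (hf : ∀ n, f n ≠ 0 → n ≤ N1) (hg : ∀ n, g n ≠ 0 → n ≤ N2) (hN : N1 * N2 ≤ N) :
    ∑ n ∈ Icc 1 N, (f * g) n * φ n = (∑ n ∈ Icc 1 N1, f n * φ n) * ∑ n ∈ Icc 1 N2, g n * φ n := by
  rw [Finset.sum_mul_sum, ← Finset.sum_product']
  have hmaps : ∀ x ∈ Icc 1 N1 ×ˢ Icc 1 N2, x.1 * x.2 ∈ Icc 1 N := by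
    intro x hx
    rw [Finset.mem_product, Finset.mem_Icc, Finset.mem_Icc] at hx
    rw [Finset.mem_Icc]
    exact ⟨Nat.mul_pos hx.1.1 hx.2.1, (Nat.mul_le_mul hx.1.2 hx.2.2).trans hN⟩
  rw [← Finset.sum_fiberwise_of_maps_to hmaps]
  refine Finset.sum_congr rfl fun n hn => ?_
  rw [Finset.mem_Icc] at hn
  rw [ArithmeticFunction.mul_apply, Finset.sum_mul]
  symm
  have hsub : (Icc 1 N1 ×ˢ Icc 1 N2).filter (fun x => x.1 * x.2 = n) ⊆ n.divisorsAntidiagonal := by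
    intro x hx
    rw [Finset.mem_filter] at hx
    rw [Nat.mem_divisorsAntidiagonal]
    exact ⟨hx.2, by omega⟩
  have h1 : ∀ x ∈ n.divisorsAntidiagonal,
      x ∉ (Icc 1 N1 ×ˢ Icc 1 N2).filter (fun x => x.1 * x.2 = n) →
      f x.1 * g x.2 * φ n = 0 := by
    intro x hx hx'
    rw [Nat.mem_divisorsAntidiagonal] at hx
    by_contra hne
    apply hx'
    have hf0 : f x.1 ≠ 0 := by
      intro h0; apply hne; rw [h0, zero_mul, zero_mul]
    have hg0 : g x.2 ≠ 0 := by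
      intro h0; apply hne; rw [h0, mul_zero, zero_mul]
    have hx1 : x.1 ≠ 0 := by
      intro h0; apply hx.2; rw [← hx.1, h0, zero_mul]
    have hx2 : x.2 ≠ 0 := by
      intro h0; apply hx.2; rw [← hx.1, h0, mul_zero]
    rw [Finset.mem_filter, Finset.mem_product, Finset.mem_Icc, Finset.mem_Icc]
    exact ⟨⟨⟨Nat.one_le_iff_ne_zero.2 hx1, hf _ hf0⟩, ⟨Nat.one_le_iff_ne_zero.2 hx2, hg _ hg0⟩⟩,
      hx.1⟩
  rw [← Finset.sum_subset hsub h1]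
  refine Finset.sum_congr rfl fun x hx => ?_
  rw [Finset.mem_filter, Finset.mem_product, Finset.mem_Icc, Finset.mem_Icc] at hx
  rw [← hx.2, hφ _ _ hx.1.1.1 hx.1.2.1]
  ring

private lemma dp_supp {J : ℕ} (D : Finset (Fin J)) (hD : D.Nonempty) (e : Fin J → ℕ)
    (G : Fin J → ArithmeticFunction ℂ)
    (hG : ∀ i n, G i n ≠ 0 → 2 ^ (e i - 1) < n ∧ n ≤ 2 ^ e i) :
    ∀ n, (∏ i ∈ D, G i) n ≠ 0 → ∏ i ∈ D, 2 ^ (e i - 1) < n ∧ n ≤ ∏ i ∈ D, 2 ^ e i := by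
  induction hD using Finset.Nonempty.cons_induction with
  | singleton a =>
    intro n hn
    rw [Finset.prod_singleton] at hn
    rw [Finset.prod_singleton, Finset.prod_singleton]
    exact hG a n hn
  | cons a s ha hs ih =>
    intro n hn
    rw [Finset.prod_cons, ArithmeticFunction.mul_apply] at hn
    obtain ⟨x, hx, hx'⟩ := Finset.exists_ne_zero_of_sum_ne_zero hn
    rw [Nat.mem_divisorsAntidiagonal] at hx
    have h1 := hG a x.1 (left_ne_zero_of_mul hx')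
    have h2 := ih x.2 (right_ne_zero_of_mul hx')
    rw [Finset.prod_cons, Finset.prod_cons, ← hx.1]
    exact ⟨Nat.mul_lt_mul'' h1.1 h2.1, Nat.mul_le_mul h1.2 h2.2⟩

private lemma dp_icc {J : ℕ} (D : Finset (Fin J)) (hD : D.Nonempty) (e : Fin J → ℕ)
    (G : Fin J → ArithmeticFunction ℂ)
    (hG : ∀ i n, G i n ≠ 0 → 2 ^ (e i - 1) < n ∧ n ≤ 2 ^ e i)
    (φ : ℕ → ℂ) (hφ : ∀ m n : ℕ, 1 ≤ m → 1 ≤ n → φ (m * n) = φ m * φ n) :
    ∑ n ∈ Icc 1 (∏ i ∈ D, 2 ^ e i), (∏ i ∈ D, G i) n * φ n =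
      ∏ i ∈ D, ∑ n ∈ Icc 1 (2 ^ e i), G i n * φ n := by
  induction hD using Finset.Nonempty.cons_induction with
  | singleton a => simp only [Finset.prod_singleton]
  | cons a s ha hs ih =>
    rw [Finset.prod_cons, Finset.prod_cons, Finset.prod_cons, ← ih]
    exact dp_mul _ _ φ hφ _ _ _ (fun n hn => (hG a n hn).2)
      (fun n hn => (dp_supp s hs e G hG n hn).2) le_rfl

theorem dp_prod {J : ℕ} (D : Finset (Fin J)) (hD : D.Nonempty) (e : Fin J → ℕ) (G : Fin J → ArithmeticFunction ℂ)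
    (hG : ∀ i n, G i n ≠ 0 → 2 ^ (e i - 1) < n ∧ n ≤ 2 ^ e i)
    (φ : ℕ → ℂ) (hφ : ∀ m n : ℕ, 1 ≤ m → 1 ≤ n → φ (m * n) = φ m * φ n) :
    ∑ n ∈ bx D e, (∏ i ∈ D, G i) n * φ n = ∏ i ∈ D, ∑ n ∈ Ioc (2 ^ (e i - 1)) (2 ^ e i), G i n * φ n := by
  have h1 : ∑ n ∈ bx D e, (∏ i ∈ D, G i) n * φ n =
      ∑ n ∈ Icc 1 (∏ i ∈ D, 2 ^ e i), (∏ i ∈ D, G i) n * φ n := by
    apply Finset.sum_subset
    · intro n hn
      rw [bx, Finset.mem_Ioc] at hn
      rw [Finset.mem_Icc]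
      exact ⟨by omega, hn.2⟩
    · intro n _ hn'
      by_contra hne
      apply hn'
      rw [bx, Finset.mem_Ioc]
      exact dp_supp D hD e G hG n (left_ne_zero_of_mul hne)
  rw [h1, dp_icc D hD e G hG φ hφ]
  refine Finset.prod_congr rfl fun i _ => ?_
  symm
  apply Finset.sum_subset
  · intro n hn
    rw [Finset.mem_Ioc] at hn
    rw [Finset.mem_Icc]
    exact ⟨Nat.one_le_of_lt hn.1, hn.2⟩
  · intro n _ hn'
    by_contra hne
    apply hn'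
    rw [Finset.mem_Ioc]
    exact hG i n (left_ne_zero_of_mul hne)

/-- The twist `χ(n) n^(-it)` is multiplicative. -/
theorem twist_mul {q : ℕ} (χ : DirichletCharacter ℂ q) (t : ℝ) (m n : ℕ) (hm : 1 ≤ m) (hn : 1 ≤ n) :
    χ ((m * n : ℕ) : ZMod q) * nit (m * n) t = (χ (m : ZMod q) * nit m t) * (χ (n : ZMod q) * nit n t) := by
  have h1 : nit (m * n) t = nit m t * nit n t := by
    unfold nit
    push_cast
    rw [← Complex.natCast_mul_natCast_cpow]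
  rw [h1, Nat.cast_mul, map_mul]
  ring

end Pool.Agent.VM
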