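import Pool.Agent.Lib.HLT.TauPow
import Pool.Agent.Lib.VK.GaussWin

/-!
# Module GaussDiff: Plancherel for a difference of two Gaussians

Copy of `VK.gauss_win` (file VK/GaussWin.lean). Plancherel:
`∫ |∑ c_n g(v - log n)|² dv = (1/2π) ∫ |∑ c_n n^(-it)|² |ĝ(t)|² dt`, `g = gs σ - gs σ'`,
`ĝ(t) = exp(-σ²t²/2) - exp(-σ'²t²/2) ∈ [0,1]`. For `|t| ≤ T1`: `ĝ ≤ 1 - exp(-σ'²t²/2) ≤ (σ' T1)²`. For `T1 ≤ |t| ≤ T`: `ĝ ≤ 1`.
For `|t| > T`: `ĝ² ≤ exp(-σ²t²) ≤ exp(-σ²T²/2) exp(-σ²t²/2)`, `|∑ c_n n^(-it)| ≤ ∑ |c_n|`,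
`(1/2π) ∫ exp(-σ²t²/2) dt = 1/(σ √(2π))`.
-/

set_option autoImplicit false

open Finset Filter MeasureTheory

namespace Pool.Agent.VM

open Pool.Agent.VK Pool.Agent.HLT

namespace GaussDiffAux

open Pool.Agent.VK.GaussWinAux
open Pool.Agent.P4f18dfS (wt)
open Pool.Agent.P4f18dfS.MVAux (gauss_int wt_integrable wt_integrableC norm_exp_I)

/-- `√2 / √(σ1² + σ2²)` -/
noncomputable def De (σ1 σ2 : ℝ) : ℝ := Real.sqrt 2 / Real.sqrt (σ1 ^ 2 + σ2 ^ 2)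

lemma De_pos {σ1 σ2 : ℝ} (h1 : 0 < σ1) : 0 < De σ1 σ2 := by
  unfold De
  have : 0 < σ1 ^ 2 + σ2 ^ 2 := by positivity
  positivity

lemma De_sq {σ1 σ2 : ℝ} (h1 : 0 < σ1) : De σ1 σ2 ^ 2 = 2 / (σ1 ^ 2 + σ2 ^ 2) := by
  unfold De
  have : 0 < σ1 ^ 2 + σ2 ^ 2 := by positivity
  rw [div_pow, Real.sq_sqrt (by norm_num), Real.sq_sqrt this.le]

lemma wt_De {σ1 σ2 : ℝ} (h1 : 0 < σ1) (t : ℝ) :
    wt 0 (De σ1 σ2) t = Real.exp (-(σ1 ^ 2 * t ^ 2 / 2)) * Real.exp (-(σ2 ^ 2 * t ^ 2 / 2)) := by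
  have h0 : 0 < σ1 ^ 2 + σ2 ^ 2 := by positivity
  unfold wt
  rw [← Real.exp_add, sub_zero, div_pow, De_sq h1]
  congr 1
  field_simp
  ring

lemma gs_mul2 {σ1 σ2 : ℝ} (h1 : 0 < σ1) (h2 : 0 < σ2) (a b v : ℝ) :
    gs σ1 (v - a) * gs σ2 (v - b) =
      (Real.exp (-(De σ1 σ2 ^ 2 * (a - b) ^ 2 / 4)) / (2 * Real.pi * (σ1 * σ2))) *
        wt ((a * σ2 ^ 2 + b * σ1 ^ 2) / (σ1 ^ 2 + σ2 ^ 2)) (De σ1 σ2 * (σ1 * σ2)) v := by
  have h0 : 0 < σ1 ^ 2 + σ2 ^ 2 := by positivity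
  unfold gs wt
  have hpi := Real.pi_pos
  have h3 : Real.sqrt (2 * Real.pi) * Real.sqrt (2 * Real.pi) = 2 * Real.pi :=
    Real.mul_self_sqrt (by positivity)
  have h4 : Real.exp (-((v - a) ^ 2 / (2 * σ1 ^ 2))) * Real.exp (-((v - b) ^ 2 / (2 * σ2 ^ 2))) =
      Real.exp (-(De σ1 σ2 ^ 2 * (a - b) ^ 2 / 4)) *
      Real.exp (-((v - (a * σ2 ^ 2 + b * σ1 ^ 2) / (σ1 ^ 2 + σ2 ^ 2)) / (De σ1 σ2 * (σ1 * σ2))) ^ 2) := by
    rw [← Real.exp_add, ← Real.exp_add]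
    congr 1
    rw [div_pow _ (De σ1 σ2 * (σ1 * σ2)), mul_pow (De σ1 σ2), De_sq h1]
    field_simp
    ring
  calc Real.exp (-((v - a) ^ 2 / (2 * σ1 ^ 2))) / (σ1 * Real.sqrt (2 * Real.pi)) *
      (Real.exp (-((v - b) ^ 2 / (2 * σ2 ^ 2))) / (σ2 * Real.sqrt (2 * Real.pi))) =
      (Real.exp (-((v - a) ^ 2 / (2 * σ1 ^ 2))) * Real.exp (-((v - b) ^ 2 / (2 * σ2 ^ 2)))) /
        ((Real.sqrt (2 * Real.pi) * Real.sqrt (2 * Real.pi)) * (σ1 * σ2)) := by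
        field_simp
    _ = _ := by
        rw [h4, h3]
        ring

lemma gs_mul2_integrable {σ1 σ2 : ℝ} (h1 : 0 < σ1) (h2 : 0 < σ2) (a b : ℝ) :
    Integrable (fun v : ℝ => gs σ1 (v - a) * gs σ2 (v - b)) := by
  have hD : 0 < De σ1 σ2 * (σ1 * σ2) := mul_pos (De_pos h1) (mul_pos h1 h2)
  exact ((wt_integrable hD _).const_mul _).congr
    (Filter.Eventually.of_forall fun v => (gs_mul2 h1 h2 a b v).symm)

/-- the value of the integral of a product of two Gaussians -/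
noncomputable def Vv (σ1 σ2 x : ℝ) : ℝ :=
  Real.sqrt Real.pi * De σ1 σ2 * Real.exp (-(De σ1 σ2 ^ 2 * x ^ 2 / 4))

lemma gs_mul2_int {σ1 σ2 : ℝ} (h1 : 0 < σ1) (h2 : 0 < σ2) (a b : ℝ) :
    ∫ v : ℝ, gs σ1 (v - a) * gs σ2 (v - b) = (1 / (2 * Real.pi)) * Vv σ1 σ2 (a - b) := by
  have hD : 0 < De σ1 σ2 * (σ1 * σ2) := mul_pos (De_pos h1) (mul_pos h1 h2)
  simp_rw [gs_mul2 h1 h2 a b]
  rw [integral_const_mul, wt_int hD]
  unfold Vv
  have hpi := Real.pi_pos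
  field_simp

/-- pointwise expansion -/
lemma expD (S : Finset ℕ) (c : ℕ → ℂ) (σ σ' v : ℝ) :
    ((‖∑ n ∈ S, c n * ((gs σ (v - Real.log n) - gs σ' (v - Real.log n) : ℝ) : ℂ)‖ ^ 2 : ℝ) : ℂ) =
      ∑ m ∈ S, ∑ n ∈ S, (c m * (starRingEnd ℂ) (c n)) *
        ((gs σ (v - Real.log m) * gs σ (v - Real.log n) -
          gs σ (v - Real.log m) * gs σ' (v - Real.log n) -
          gs σ' (v - Real.log m) * gs σ (v - Real.log n) +
          gs σ' (v - Real.log m) * gs σ' (v - Real.log n) : ℝ) : ℂ) := by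
  rw [← Complex.normSq_eq_norm_sq, ← Complex.mul_conj, map_sum, Finset.sum_mul_sum]
  refine Finset.sum_congr rfl fun m _ => Finset.sum_congr rfl fun n _ => ?_
  rw [map_mul, Complex.conj_ofReal]
  push_cast
  ring

lemma int4 {σ σ' : ℝ} (h1 : 0 < σ) (h2 : 0 < σ') (a b : ℝ) :
    Integrable (fun v : ℝ => gs σ (v - a) * gs σ (v - b) - gs σ (v - a) * gs σ' (v - b) -
          gs σ' (v - a) * gs σ (v - b) + gs σ' (v - a) * gs σ' (v - b)) :=
  (((gs_mul2_integrable h1 h1 a b).sub (gs_mul2_integrable h1 h2 a b)).sub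
    (gs_mul2_integrable h2 h1 a b)).add (gs_mul2_integrable h2 h2 a b)

lemma int4_eq {σ σ' : ℝ} (h1 : 0 < σ) (h2 : 0 < σ') (a b : ℝ) :
    ∫ v : ℝ, (gs σ (v - a) * gs σ (v - b) - gs σ (v - a) * gs σ' (v - b) -
          gs σ' (v - a) * gs σ (v - b) + gs σ' (v - a) * gs σ' (v - b)) =
      (1 / (2 * Real.pi)) * (Vv σ σ (a - b) - Vv σ σ' (a - b) - Vv σ' σ (a - b) +
        Vv σ' σ' (a - b)) := by
  have i11 := gs_mul2_integrable h1 h1 a b
  have i12 := gs_mul2_integrable h1 h2 a b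
  have i21 := gs_mul2_integrable h2 h1 a b
  have i22 := gs_mul2_integrable h2 h2 a b
  have e1 := integral_add ((i11.sub i12).sub i21) i22
  have e2 := integral_sub (i11.sub i12) i21
  have e3 := integral_sub i11 i12
  simp only [Pi.sub_apply] at e1 e2 e3
  rw [gs_mul2_int h1 h1, gs_mul2_int h1 h2] at e3
  rw [e3, gs_mul2_int h2 h1] at e2
  rw [e2, gs_mul2_int h2 h2] at e1
  rw [e1]
  ring

lemma integrableD (S : Finset ℕ) (c : ℕ → ℂ) {σ σ' : ℝ} (h1 : 0 < σ) (h2 : 0 < σ') :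
    Integrable (fun v : ℝ =>
      ‖∑ n ∈ S, c n * ((gs σ (v - Real.log n) - gs σ' (v - Real.log n) : ℝ) : ℂ)‖ ^ 2) := by
  have h3 : Integrable (fun v : ℝ => ∑ m ∈ S, ∑ n ∈ S, (c m * (starRingEnd ℂ) (c n)) *
        ((gs σ (v - Real.log m) * gs σ (v - Real.log n) -
          gs σ (v - Real.log m) * gs σ' (v - Real.log n) -
          gs σ' (v - Real.log m) * gs σ (v - Real.log n) +
          gs σ' (v - Real.log m) * gs σ' (v - Real.log n) : ℝ) : ℂ)) := by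
    refine integrable_finsetSum _ fun m _ => integrable_finsetSum _ fun n _ => ?_
    exact ((int4 h1 h2 _ _).ofReal).const_mul _
  have h4 : Integrable (fun v : ℝ => ((‖∑ n ∈ S, c n *
      ((gs σ (v - Real.log n) - gs σ' (v - Real.log n) : ℝ) : ℂ)‖ ^ 2 : ℝ) : ℂ)) :=
    h3.congr (Filter.Eventually.of_forall fun v => (expD S c σ σ' v).symm)
  refine h4.re.congr (Filter.Eventually.of_forall fun v => ?_)
  simp only [RCLike.re_to_complex, Complex.ofReal_re]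

lemma integralD (S : Finset ℕ) (c : ℕ → ℂ) {σ σ' : ℝ} (h1 : 0 < σ) (h2 : 0 < σ') :
    ((∫ v : ℝ, ‖∑ n ∈ S, c n * ((gs σ (v - Real.log n) - gs σ' (v - Real.log n) : ℝ) : ℂ)‖ ^ 2 : ℝ)
      : ℂ) =
      ∑ m ∈ S, ∑ n ∈ S, (c m * (starRingEnd ℂ) (c n)) *
        (((1 / (2 * Real.pi)) * (Vv σ σ (Real.log m - Real.log n) -
          Vv σ σ' (Real.log m - Real.log n) - Vv σ' σ (Real.log m - Real.log n) +
          Vv σ' σ' (Real.log m - Real.log n)) : ℝ) : ℂ) := by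
  rw [← integral_complex_ofReal]
  simp_rw [expD S c σ σ']
  rw [integral_finsetSum]
  · refine Finset.sum_congr rfl fun m _ => ?_
    rw [integral_finsetSum]
    · refine Finset.sum_congr rfl fun n _ => ?_
      rw [integral_const_mul, integral_complex_ofReal, int4_eq h1 h2]
    · intro n _
      exact ((int4 h1 h2 _ _).ofReal).const_mul _
  · intro m _
    exact integrable_finsetSum _ fun n _ => ((int4 h1 h2 _ _).ofReal).const_mul _

/-- Parseval -/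
lemma parsevalD (S : Finset ℕ) (hS : ∀ n ∈ S, 1 ≤ n) (c : ℕ → ℂ) {σ σ' : ℝ} (h1 : 0 < σ)
    (h2 : 0 < σ') :
    ∫ v : ℝ, ‖∑ n ∈ S, c n * ((gs σ (v - Real.log n) - gs σ' (v - Real.log n) : ℝ) : ℂ)‖ ^ 2 =
      (1 / (2 * Real.pi)) * ((∫ t : ℝ, wt 0 (De σ σ) t * ‖∑ n ∈ S, c n * nit n t‖ ^ 2) -
        (∫ t : ℝ, wt 0 (De σ σ') t * ‖∑ n ∈ S, c n * nit n t‖ ^ 2) -
        (∫ t : ℝ, wt 0 (De σ' σ) t * ‖∑ n ∈ S, c n * nit n t‖ ^ 2) +
        ∫ t : ℝ, wt 0 (De σ' σ') t * ‖∑ n ∈ S, c n * nit n t‖ ^ 2) := by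
  have h3 := integralD S c h1 h2
  have g11 := integralG S hS c (Δ := De σ σ) (De_pos h1)
  have g12 := integralG S hS c (Δ := De σ σ') (De_pos h1)
  have g21 := integralG S hS c (Δ := De σ' σ) (De_pos h2)
  have g22 := integralG S hS c (Δ := De σ' σ') (De_pos h2)
  have h4 : ((∫ v : ℝ, ‖∑ n ∈ S, c n *
      ((gs σ (v - Real.log n) - gs σ' (v - Real.log n) : ℝ) : ℂ)‖ ^ 2 : ℝ) : ℂ) =
      (((1 / (2 * Real.pi)) * ((∫ t : ℝ, wt 0 (De σ σ) t * ‖∑ n ∈ S, c n * nit n t‖ ^ 2) -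
        (∫ t : ℝ, wt 0 (De σ σ') t * ‖∑ n ∈ S, c n * nit n t‖ ^ 2) -
        (∫ t : ℝ, wt 0 (De σ' σ) t * ‖∑ n ∈ S, c n * nit n t‖ ^ 2) +
        ∫ t : ℝ, wt 0 (De σ' σ') t * ‖∑ n ∈ S, c n * nit n t‖ ^ 2) : ℝ) : ℂ) := by
    rw [Complex.ofReal_mul, Complex.ofReal_add, Complex.ofReal_sub, Complex.ofReal_sub, h3, g11,
      g12, g21, g22, ← Finset.sum_sub_distrib, ← Finset.sum_sub_distrib, ← Finset.sum_add_distrib,
      Finset.mul_sum]
    refine Finset.sum_congr rfl fun m _ => ?_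
    rw [← Finset.sum_sub_distrib, ← Finset.sum_sub_distrib, ← Finset.sum_add_distrib,
      Finset.mul_sum]
    refine Finset.sum_congr rfl fun n _ => ?_
    unfold Vv
    push_cast
    ring
  exact_mod_cast h4

end GaussDiffAux

open GaussDiffAux Pool.Agent.VK.GaussWinAux
open Pool.Agent.P4f18dfS (wt)
open Pool.Agent.P4f18dfS.MVAux (wt_integrable)

theorem gauss_diff (S : Finset ℕ) (hS : ∀ n ∈ S, 1 ≤ n) (c : ℕ → ℂ) (σ σ' T1 T : ℝ) (hσ : 0 < σ) (hσσ : σ ≤ σ')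
    (h1 : 0 < T1) (hT : T1 ≤ T) :
    Integrable (fun v : ℝ => ‖∑ n ∈ S, c n * ((gs σ (v - Real.log n) - gs σ' (v - Real.log n) : ℝ) : ℂ)‖ ^ 2) ∧
    ∫ v : ℝ, ‖∑ n ∈ S, c n * ((gs σ (v - Real.log n) - gs σ' (v - Real.log n) : ℝ) : ℂ)‖ ^ 2 ≤
      (σ' * T1) ^ 4 * (∫ t in (-T1)..T1, ‖∑ n ∈ S, c n * nit n t‖ ^ 2) +
        ((∫ t in T1..T, ‖∑ n ∈ S, c n * nit n t‖ ^ 2) + ∫ t in (-T)..(-T1), ‖∑ n ∈ S, c n * nit n t‖ ^ 2) +
        (∑ n ∈ S, ‖c n‖) ^ 2 * (Real.exp (-(σ ^ 2 * T ^ 2 / 2)) / σ) := by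
  have hσ' : 0 < σ' := lt_of_lt_of_le hσ hσσ
  have hT0 : 0 < T := lt_of_lt_of_le h1 hT
  refine ⟨integrableD S c hσ hσ', ?_⟩
  rw [parsevalD S hS c hσ hσ']
  have i11 := integrableG S hS c (Δ := De σ σ) (De_pos hσ)
  have i12 := integrableG S hS c (Δ := De σ σ') (De_pos hσ)
  have i21 := integrableG S hS c (Δ := De σ' σ) (De_pos hσ')
  have i22 := integrableG S hS c (Δ := De σ' σ') (De_pos hσ')
  set G : ℝ → ℝ := fun t => ‖∑ n ∈ S, c n * nit n t‖ ^ 2 with hG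
  have hGc : Continuous G := G_continuous S hS c
  have hG0 : ∀ t, 0 ≤ G t := fun t => by positivity
  set A : ℝ := ∑ n ∈ S, ‖c n‖ with hA
  have hA0 : 0 ≤ A := Finset.sum_nonneg fun _ _ => norm_nonneg _
  have hGA : ∀ t, G t ≤ A ^ 2 := fun t =>
    pow_le_pow_left₀ (norm_nonneg _) (norm_G_le S hS c t) 2
  have hpi := Real.pi_pos
  have hpi3 := Real.pi_gt_three
  have hs2 : (0:ℝ) < Real.sqrt 2 / σ := by positivity
  have hwt2 : ∀ t, wt 0 (Real.sqrt 2 / σ) t = Real.exp (-(σ ^ 2 * t ^ 2 / 2)) := by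
    intro t
    unfold wt
    congr 1
    rw [sub_zero, div_div_eq_mul_div, div_pow, Real.sq_sqrt (by norm_num : (0:ℝ) ≤ 2)]
    ring
  -- the four integrals as one
  have hsum : (∫ t : ℝ, wt 0 (De σ σ) t * G t) - (∫ t : ℝ, wt 0 (De σ σ') t * G t) -
      (∫ t : ℝ, wt 0 (De σ' σ) t * G t) + (∫ t : ℝ, wt 0 (De σ' σ') t * G t) =
      ∫ t : ℝ, (Real.exp (-(σ ^ 2 * t ^ 2 / 2)) - Real.exp (-(σ' ^ 2 * t ^ 2 / 2))) ^ 2 * G t := by
    have e1 := integral_add ((i11.sub i12).sub i21) i22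
    have e2 := integral_sub (i11.sub i12) i21
    have e3 := integral_sub i11 i12
    simp only [Pi.sub_apply] at e1 e2 e3
    rw [← e3, ← e2, ← e1]
    refine integral_congr_ae (Filter.Eventually.of_forall fun t => ?_)
    simp only
    rw [wt_De hσ, wt_De hσ, wt_De hσ', wt_De hσ']
    ring
  have hintE : Integrable (fun t : ℝ => (Real.exp (-(σ ^ 2 * t ^ 2 / 2)) -
      Real.exp (-(σ' ^ 2 * t ^ 2 / 2))) ^ 2 * G t) := by
    refine (((i11.sub i12).sub i21).add i22).congr (Filter.Eventually.of_forall fun t => ?_)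
    simp only [Pi.sub_apply, Pi.add_apply]
    rw [wt_De hσ, wt_De hσ, wt_De hσ', wt_De hσ']
    ring
  rw [hsum]
  -- the dominating function
  have hI0 : Integrable ((Set.Ioc (-T1) T1).indicator fun t => (σ' * T1) ^ 4 * G t) := by
    rw [integrable_indicator_iff measurableSet_Ioc]
    exact ((continuous_const.mul hGc).integrableOn_Icc).mono_set Set.Ioc_subset_Icc_self
  have hI1 : Integrable ((Set.Ioc T1 T).indicator G) := by
    rw [integrable_indicator_iff measurableSet_Ioc]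
    exact (hGc.integrableOn_Icc).mono_set Set.Ioc_subset_Icc_self
  have hI2 : Integrable ((Set.Ioc (-T) (-T1)).indicator G) := by
    rw [integrable_indicator_iff measurableSet_Ioc]
    exact (hGc.integrableOn_Icc).mono_set Set.Ioc_subset_Icc_self
  have hI3 : Integrable (fun t : ℝ => A ^ 2 * Real.exp (-(σ ^ 2 * T ^ 2 / 2)) *
      wt 0 (Real.sqrt 2 / σ) t) := (wt_integrable hs2 0).const_mul _
  have hE0 : ∀ t : ℝ, 0 ≤ Real.exp (-(σ ^ 2 * t ^ 2 / 2)) - Real.exp (-(σ' ^ 2 * t ^ 2 / 2)) := by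
    intro t
    rw [sub_nonneg]
    apply Real.exp_le_exp.mpr
    have h3 : σ ^ 2 ≤ σ' ^ 2 := pow_le_pow_left₀ hσ.le hσσ 2
    have h4 : σ ^ 2 * t ^ 2 ≤ σ' ^ 2 * t ^ 2 := mul_le_mul_of_nonneg_right h3 (sq_nonneg t)
    linarith only [h4]
  have hE1 : ∀ t : ℝ, Real.exp (-(σ ^ 2 * t ^ 2 / 2)) - Real.exp (-(σ' ^ 2 * t ^ 2 / 2)) ≤
      Real.exp (-(σ ^ 2 * t ^ 2 / 2)) := by
    intro t
    have := (Real.exp_pos (-(σ' ^ 2 * t ^ 2 / 2))).le
    linarith only [this]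
  have hE2 : ∀ t : ℝ, Real.exp (-(σ ^ 2 * t ^ 2 / 2)) ≤ 1 := by
    intro t
    rw [Real.exp_le_one_iff]
    have : 0 ≤ σ ^ 2 * t ^ 2 := by (clear * - hσ; positivity)
    linarith only [this]
  have hpt : ∀ t, (Real.exp (-(σ ^ 2 * t ^ 2 / 2)) - Real.exp (-(σ' ^ 2 * t ^ 2 / 2))) ^ 2 * G t ≤
      (Set.Ioc (-T1) T1).indicator (fun t => (σ' * T1) ^ 4 * G t) t +
      (Set.Ioc T1 T).indicator G t + (Set.Ioc (-T) (-T1)).indicator G t +
      A ^ 2 * Real.exp (-(σ ^ 2 * T ^ 2 / 2)) * wt 0 (Real.sqrt 2 / σ) t := by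
    intro t
    rw [hwt2]
    have hn3 : 0 ≤ A ^ 2 * Real.exp (-(σ ^ 2 * T ^ 2 / 2)) * Real.exp (-(σ ^ 2 * t ^ 2 / 2)) := by
      (clear * -; positivity)
    have hn0 : 0 ≤ (Set.Ioc (-T1) T1).indicator (fun t => (σ' * T1) ^ 4 * G t) t :=
      Set.indicator_nonneg (fun x _ => mul_nonneg (by (clear * - h1 hσ'; positivity)) (hG0 x)) t
    have hn1 : 0 ≤ (Set.Ioc T1 T).indicator G t := Set.indicator_nonneg (fun x _ => hG0 x) t
    have hn2 : 0 ≤ (Set.Ioc (-T) (-T1)).indicator G t := Set.indicator_nonneg (fun x _ => hG0 x) t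
    have hb1 : (Real.exp (-(σ ^ 2 * t ^ 2 / 2)) - Real.exp (-(σ' ^ 2 * t ^ 2 / 2))) ^ 2 ≤ 1 := by
      have h5 := (hE1 t).trans (hE2 t)
      exact pow_le_one₀ (hE0 t) h5
    have hb1' : (Real.exp (-(σ ^ 2 * t ^ 2 / 2)) - Real.exp (-(σ' ^ 2 * t ^ 2 / 2))) ^ 2 * G t ≤
        G t := mul_le_of_le_one_left (hG0 t) hb1
    by_cases ht : t ∈ Set.Ioc (-T1) T1
    · have h3 : (Real.exp (-(σ ^ 2 * t ^ 2 / 2)) - Real.exp (-(σ' ^ 2 * t ^ 2 / 2))) ^ 2 * G t ≤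
          (Set.Ioc (-T1) T1).indicator (fun t => (σ' * T1) ^ 4 * G t) t := by
        rw [Set.indicator_of_mem ht]
        refine mul_le_mul_of_nonneg_right ?_ (hG0 t)
        have ht2 : t ^ 2 ≤ T1 ^ 2 := by
          rw [Set.mem_Ioc] at ht
          nlinarith only [ht]
        have h4 : Real.exp (-(σ ^ 2 * t ^ 2 / 2)) - Real.exp (-(σ' ^ 2 * t ^ 2 / 2)) ≤
            (σ' * T1) ^ 2 := by
          have h5 := Real.add_one_le_exp (-(σ' ^ 2 * t ^ 2 / 2))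
          have h6 := hE2 t
          have h7 : σ' ^ 2 * t ^ 2 ≤ σ' ^ 2 * T1 ^ 2 :=
            mul_le_mul_of_nonneg_left ht2 (by (clear * - hσ'; positivity))
          have h8 : 0 ≤ σ' ^ 2 * T1 ^ 2 := by (clear * - h1 hσ'; positivity)
          rw [mul_pow]
          linarith only [h5, h6, h7, h8]
        calc _ ≤ ((σ' * T1) ^ 2) ^ 2 := pow_le_pow_left₀ (hE0 t) h4 2
          _ = (σ' * T1) ^ 4 := by ring
      linarith only [hn3, hn1, hn2, h3]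
    · by_cases ht1 : t ∈ Set.Ioc T1 T
      · have h3 : (Set.Ioc T1 T).indicator G t = G t := Set.indicator_of_mem ht1 _
        linarith only [hn3, hn0, hn2, hb1', h3]
      · by_cases ht2 : t ∈ Set.Ioc (-T) (-T1)
        · have h3 : (Set.Ioc (-T) (-T1)).indicator G t = G t := Set.indicator_of_mem ht2 _
          linarith only [hn3, hn0, hn1, hb1', h3]
        · have hTt : T ^ 2 ≤ t ^ 2 := by
            rw [Set.mem_Ioc, not_and_or, not_lt, not_le] at ht ht1 ht2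
            rcases ht with ht | ht
            · rcases ht2 with h5 | h5
              · nlinarith only [h1, hT, ht, h5]
              · linarith only [ht, h5]
            · rcases ht1 with h5 | h5
              · linarith only [ht, h5]
              · nlinarith only [h1, hT, ht, h5]
          have h3 : (Real.exp (-(σ ^ 2 * t ^ 2 / 2)) - Real.exp (-(σ' ^ 2 * t ^ 2 / 2))) ^ 2 ≤
              Real.exp (-(σ ^ 2 * T ^ 2 / 2)) * Real.exp (-(σ ^ 2 * t ^ 2 / 2)) := by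
            refine (pow_le_pow_left₀ (hE0 t) (hE1 t) 2).trans ?_
            rw [sq]
            refine mul_le_mul_of_nonneg_right ?_ (Real.exp_pos _).le
            apply Real.exp_le_exp.mpr
            have : σ ^ 2 * T ^ 2 ≤ σ ^ 2 * t ^ 2 := mul_le_mul_of_nonneg_left hTt (by (clear * - hσ; positivity))
            linarith only [this]
          have h4 : (Real.exp (-(σ ^ 2 * t ^ 2 / 2)) - Real.exp (-(σ' ^ 2 * t ^ 2 / 2))) ^ 2 * G t ≤
              A ^ 2 * Real.exp (-(σ ^ 2 * T ^ 2 / 2)) * Real.exp (-(σ ^ 2 * t ^ 2 / 2)) := by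
            calc _ ≤ (Real.exp (-(σ ^ 2 * T ^ 2 / 2)) * Real.exp (-(σ ^ 2 * t ^ 2 / 2))) * A ^ 2 :=
                  mul_le_mul h3 (hGA t) (hG0 t) (by (clear * -; positivity))
              _ = _ := by ring
          linarith only [hn0, hn1, hn2, h4]
  have hmain : ∫ t : ℝ, (Real.exp (-(σ ^ 2 * t ^ 2 / 2)) - Real.exp (-(σ' ^ 2 * t ^ 2 / 2))) ^ 2 *
      G t ≤ (σ' * T1) ^ 4 * (∫ t in (-T1)..T1, G t) + (∫ t in T1..T, G t) +
        (∫ t in (-T)..(-T1), G t) + A ^ 2 * Real.exp (-(σ ^ 2 * T ^ 2 / 2)) *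
        (Real.sqrt Real.pi * (Real.sqrt 2 / σ)) := by
    have h3 := integral_mono hintE (((hI0.add hI1).add hI2).add hI3) hpt
    refine h3.trans (le_of_eq ?_)
    have e1 := integral_add ((hI0.add hI1).add hI2) hI3
    have e2 := integral_add (hI0.add hI1) hI2
    have e3 := integral_add hI0 hI1
    simp only [Pi.add_apply] at e1 e2 e3 ⊢
    rw [e1, e2, e3, integral_indicator measurableSet_Ioc, integral_indicator measurableSet_Ioc,
      integral_indicator measurableSet_Ioc, integral_const_mul, integral_const_mul, wt_int hs2,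
      intervalIntegral.integral_of_le (by linarith only [h1]), intervalIntegral.integral_of_le hT,
      intervalIntegral.integral_of_le (by linarith only [hT])]
  have hJ0 : 0 ≤ ∫ t in (-T1)..T1, G t :=
    intervalIntegral.integral_nonneg (by linarith only [h1]) fun t _ => hG0 t
  have hJ1 : 0 ≤ ∫ t in T1..T, G t :=
    intervalIntegral.integral_nonneg hT fun t _ => hG0 t
  have hJ2 : 0 ≤ ∫ t in (-T)..(-T1), G t :=
    intervalIntegral.integral_nonneg (by linarith only [hT]) fun t _ => hG0 t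
  refine (mul_le_mul_of_nonneg_left hmain (by (clear * -; positivity))).trans ?_
  have h2 : (1 / (2 * Real.pi)) ≤ 1 := by
    rw [div_le_one (by (clear * -; positivity))]
    linarith only [hpi3]
  have h3 : (1 / (2 * Real.pi)) * (Real.sqrt Real.pi * Real.sqrt 2) ≤ 1 := by
    have h4 : Real.sqrt Real.pi ≤ Real.pi := by
      rw [Real.sqrt_le_left hpi.le]
      nlinarith only [hpi, hpi3]
    have h5 : Real.sqrt 2 ≤ 2 := by
      rw [Real.sqrt_le_left (by norm_num)]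
      norm_num
    have h6 : Real.sqrt Real.pi * Real.sqrt 2 ≤ Real.pi * 2 :=
      mul_le_mul h4 h5 (Real.sqrt_nonneg _) hpi.le
    calc (1 / (2 * Real.pi)) * (Real.sqrt Real.pi * Real.sqrt 2) ≤
        (1 / (2 * Real.pi)) * (Real.pi * 2) := mul_le_mul_of_nonneg_left h6 (by (clear * -; positivity))
      _ = 1 := by field_simp
  have hK : 0 ≤ (σ' * T1) ^ 4 * (∫ t in (-T1)..T1, G t) + (∫ t in T1..T, G t) +
        (∫ t in (-T)..(-T1), G t) := by (clear * - h1 hσ' hJ0 hJ1 hJ2; positivity)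
  rw [mul_add]
  apply add_le_add
  · calc (1 / (2 * Real.pi)) * ((σ' * T1) ^ 4 * (∫ t in (-T1)..T1, G t) + (∫ t in T1..T, G t) +
        (∫ t in (-T)..(-T1), G t)) ≤ 1 * ((σ' * T1) ^ 4 * (∫ t in (-T1)..T1, G t) +
        (∫ t in T1..T, G t) + (∫ t in (-T)..(-T1), G t)) := mul_le_mul_of_nonneg_right h2 hK
      _ = _ := by ring
  · calc (1 / (2 * Real.pi)) * (A ^ 2 * Real.exp (-(σ ^ 2 * T ^ 2 / 2)) *
        (Real.sqrt Real.pi * (Real.sqrt 2 / σ))) =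
        ((1 / (2 * Real.pi)) * (Real.sqrt Real.pi * Real.sqrt 2)) *
          (A ^ 2 * (Real.exp (-(σ ^ 2 * T ^ 2 / 2)) / σ)) := by ring
      _ ≤ 1 * (A ^ 2 * (Real.exp (-(σ ^ 2 * T ^ 2 / 2)) / σ)) :=
        mul_le_mul_of_nonneg_right h3 (by (clear * - hσ; positivity))
      _ = _ := one_mul _

end Pool.Agent.VM
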