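import Pool.Agent.Lib.VK.DefsC
import Pool.Agent.Lib.VK.ResSum
import Pool.Agent.Lib.VK.SmoothSum

/-!
# Module SmoothBd: a power saving for short smooth sums

`nit n t = n^(-it)`, so apply the two inputs with `-t`. Write `N = N2`; pieces `Ioc N1 N2` with `N2 ≤ 2 N1`, so `N1 ≥ N/2`.
If `N1 ^ (1/2) ≤ |t|`: `VK.res_sum` with `M = N = N1`, `K = ⌈4/δ⌉` (`|t| ≤ X ≤ N1^K` as `N1 ≥ X^δ/2`), `q^2 ≤ N1` since
`q ≤ X^c`, `c ≤ δ/4`: the bound is `C N1^(1 - 1/(C K^6)) ≤ N X^(-c)` if `c` is small in terms of `δ`, `C`, `K`.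
Otherwise `|t| < N1^(1/2)`: `VK.smooth_sum` gives `C (N1/|t| + q |t|) ≤ C (N X^(-7/50) + X^c N^(1/2))` and `N^(1/2) ≥ X^(δ/2)`.
-/

set_option autoImplicit false

open Finset Filter

namespace Pool.Agent.VM

open Pool.Agent.VK Pool.Agent.HLT

theorem smooth_bd (δ : ℝ) (hδ : 0 < δ) : ∃ c : ℝ, 0 < c ∧ ∀ᶠ X : ℕ in atTop, ∀ (q N1 N2 : ℕ) (f : ZMod q → ℂ) (t : ℝ),
    1 ≤ q → (q : ℝ) ≤ (X : ℝ) ^ c → (∀ a, ‖f a‖ ≤ 1) → (X : ℝ) ^ δ ≤ N2 → N2 ≤ 2 * N1 →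
    (X : ℝ) ^ (7 / 50 : ℝ) ≤ |t| → |t| ≤ X →
    ‖∑ n ∈ Ioc N1 N2, f (n : ZMod q) * nit n t‖ ≤ N2 * (X : ℝ) ^ (-c) := by
  obtain ⟨C1, hC1, hres⟩ := res_sum
  obtain ⟨C2, hC2, hsm⟩ := smooth_sum
  obtain ⟨K, hKδ, hK1⟩ : ∃ K : ℕ, 2 / δ ≤ K ∧ 1 ≤ K :=
    ⟨⌈2 / δ⌉₊, Nat.le_ceil _, Nat.one_le_iff_ne_zero.mpr (Nat.ceil_pos.mpr (by positivity)).ne'⟩
  have hKr : (1 : ℝ) ≤ K := by exact_mod_cast hK1
  have hP : 0 < C1 * (K : ℝ) ^ 6 := by positivity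
  obtain ⟨η, hη⟩ : ∃ η : ℝ, η = δ / (4 * (C1 * (K : ℝ) ^ 6)) := ⟨_, rfl⟩
  have hη0 : 0 < η := by rw [hη]; positivity
  obtain ⟨c, hc0, hc1, hc2, hc3⟩ : ∃ c : ℝ, 0 < c ∧ c ≤ 7 / 100 ∧ c ≤ δ / 16 ∧ c ≤ η :=
    ⟨min (7 / 100) (min (δ / 16) η), lt_min (by norm_num) (lt_min (by positivity) hη0),
      min_le_left _ _, (min_le_right _ _).trans (min_le_left _ _),
      (min_le_right _ _).trans (min_le_right _ _)⟩
  refine ⟨c, hc0, ?_⟩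
  have ev : ∀ (e A : ℝ), 0 < e → ∀ᶠ X : ℕ in atTop, A ≤ (X : ℝ) ^ e := fun e A he =>
    ((tendsto_rpow_atTop he).comp tendsto_natCast_atTop_atTop).eventually_ge_atTop A
  filter_upwards [eventually_ge_atTop 1, ev (δ / 2) 2 (by positivity), ev η C1 hη0,
    ev (7 / 100) (2 * C2) (by norm_num), ev (δ / 8) (2 * C2) (by positivity)]
    with X hX e1 e2 e3 e4 q N1 N2 f t hq hqc hf hN2 hN12 ht1 ht2
  have hX1 : (1 : ℝ) ≤ X := by exact_mod_cast hX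
  have hX0 : (0 : ℝ) < X := by linarith only [hc0, hc1, hX1]
  rcases le_or_gt N2 N1 with hle | hlt
  · rw [Ioc_eq_empty (by omega), sum_empty, norm_zero]
    (clear * - hX; positivity)
  have hN1 : (X : ℝ) ^ (δ / 2) ≤ N1 := by
    have h1 : (X : ℝ) ^ δ = (X : ℝ) ^ (δ / 2) * (X : ℝ) ^ (δ / 2) := by
      rw [← Real.rpow_add hX0]
      congr 1
      ring
    have h3 : (N2 : ℝ) ≤ 2 * N1 := by exact_mod_cast hN12
    nlinarith only [e1, hN2, h1, h3, Real.rpow_pos_of_pos hX0 (δ / 2)]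
  have hN1' : (1 : ℝ) ≤ N1 := (Real.one_le_rpow hX1 (by (clear * - hδ; positivity))).trans hN1
  have hN1pos : (0 : ℝ) < N1 := by linarith only [hc0, hc1, e1, hN1]
  have hN12r : (N1 : ℝ) ≤ N2 := by exact_mod_cast hlt.le
  have hsum : (∑ n ∈ Ioc N1 N2, f (n : ZMod q) * nit n t) =
      ∑ n ∈ Ioc N1 N2, f (n : ZMod q) * ((n : ℝ) : ℂ) ^ (((-t : ℝ) : ℂ) * Complex.I) := by
    refine sum_congr rfl fun n _ => ?_
    rw [nit, Complex.ofReal_neg, neg_mul]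
  rw [hsum]
  rcases le_or_gt ((N1 : ℝ) ^ (1 / 2 : ℝ)) |t| with hA | hB
  · have hq2 : q ^ 2 ≤ N1 := by
      have h1 : (q : ℝ) ^ 2 ≤ N1 := by
        calc (q : ℝ) ^ 2 ≤ ((X : ℝ) ^ c) ^ 2 := by gcongr
          _ = (X : ℝ) ^ (c * 2) := by
              rw [Real.rpow_mul hX0.le]
              norm_num
          _ ≤ (X : ℝ) ^ (δ / 2) := Real.rpow_le_rpow_of_exponent_le hX1 (by linarith only [hc0, hc2])
          _ ≤ N1 := hN1
      exact_mod_cast h1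
    have htK : |-t| ≤ (N1 : ℝ) ^ K := by
      rw [abs_neg]
      calc |t| ≤ (X : ℝ) := ht2
        _ = (X : ℝ) ^ (1 : ℝ) := (Real.rpow_one _).symm
        _ ≤ (X : ℝ) ^ (δ / 2 * K) := Real.rpow_le_rpow_of_exponent_le hX1 (by
              have := (div_le_iff₀ hδ).mp hKδ
              linarith only [this])
        _ = ((X : ℝ) ^ (δ / 2)) ^ K := by rw [Real.rpow_mul hX0.le, Real.rpow_natCast]
        _ ≤ (N1 : ℝ) ^ K := by gcongr
    have h5 := hres q K N1 N1 N2 f (-t) hq hK1 hq2 le_rfl hN12 hf (by rw [abs_neg]; exact hA) htK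
    refine h5.trans ?_
    have h6 : (N1 : ℝ) ^ (1 - 1 / (C1 * (K : ℝ) ^ 6)) =
        N1 * (N1 : ℝ) ^ (-(1 / (C1 * (K : ℝ) ^ 6))) := by
      rw [sub_eq_add_neg, Real.rpow_add hN1pos, Real.rpow_one]
    have h7 : (N1 : ℝ) ^ (-(1 / (C1 * (K : ℝ) ^ 6))) ≤ (X : ℝ) ^ (-(2 * η)) := by
      calc (N1 : ℝ) ^ (-(1 / (C1 * (K : ℝ) ^ 6)))
          ≤ ((X : ℝ) ^ (δ / 2)) ^ (-(1 / (C1 * (K : ℝ) ^ 6))) :=
            Real.rpow_le_rpow_of_nonpos (by (clear * - hX; positivity)) hN1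
              (neg_nonpos.mpr (by (clear * - hC1 hK1; positivity)))
        _ = (X : ℝ) ^ (-(2 * η)) := by
            rw [← Real.rpow_mul hX0.le]
            congr 1
            rw [hη]
            field_simp
            ring
    have h8 : C1 * (X : ℝ) ^ (-(2 * η)) ≤ (X : ℝ) ^ (-c) := by
      calc C1 * (X : ℝ) ^ (-(2 * η)) ≤ (X : ℝ) ^ η * (X : ℝ) ^ (-(2 * η)) := by gcongr
        _ = (X : ℝ) ^ (-η) := by
            rw [← Real.rpow_add hX0]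
            congr 1
            ring
        _ ≤ (X : ℝ) ^ (-c) := Real.rpow_le_rpow_of_exponent_le hX1 (by linarith only [hc3])
    rw [h6]
    calc C1 * (N1 * (N1 : ℝ) ^ (-(1 / (C1 * (K : ℝ) ^ 6))))
        ≤ C1 * (N2 * (X : ℝ) ^ (-(2 * η))) := by gcongr
      _ = N2 * (C1 * (X : ℝ) ^ (-(2 * η))) := by ring
      _ ≤ N2 * (X : ℝ) ^ (-c) := by gcongr
  · have ht1' : 1 ≤ |t| := (Real.one_le_rpow hX1 (by norm_num)).trans ht1
    have ht0 : 0 < |t| := by linarith only [hc0, hc1, ht1']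
    have h5 := hsm q N1 N2 f (-t) hq (by exact_mod_cast hN1') hN12 hf (by rw [abs_neg]; exact ht1')
    rw [abs_neg] at h5
    refine h5.trans ?_
    have h6 : (N1 : ℝ) / |t| ≤ N2 * (X : ℝ) ^ (-(7 / 50) : ℝ) := by
      rw [Real.rpow_neg hX0.le, ← div_eq_mul_inv]
      gcongr
    have h7 : (q : ℝ) * |t| ≤ N2 * (X : ℝ) ^ (c - δ / 4) := by
      have h71 : (N1 : ℝ) ^ (1 / 2 : ℝ) = N1 * (N1 : ℝ) ^ (-(1 / 2) : ℝ) := by
        nth_rw 2 [← Real.rpow_one (N1 : ℝ)]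
        rw [← Real.rpow_add hN1pos]
        norm_num
      have h72 : (N1 : ℝ) ^ (-(1 / 2) : ℝ) ≤ (X : ℝ) ^ (-(δ / 4)) := by
        calc (N1 : ℝ) ^ (-(1 / 2) : ℝ) ≤ ((X : ℝ) ^ (δ / 2)) ^ (-(1 / 2) : ℝ) :=
              Real.rpow_le_rpow_of_nonpos (by (clear * - hX; positivity)) hN1 (by norm_num)
          _ = (X : ℝ) ^ (-(δ / 4)) := by
              rw [← Real.rpow_mul hX0.le]
              congr 1
              ring
      calc (q : ℝ) * |t| ≤ (X : ℝ) ^ c * (N1 : ℝ) ^ (1 / 2 : ℝ) := by gcongr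
        _ = N1 * ((X : ℝ) ^ c * (N1 : ℝ) ^ (-(1 / 2) : ℝ)) := by rw [h71]; ring
        _ ≤ N2 * ((X : ℝ) ^ c * (X : ℝ) ^ (-(δ / 4))) := by gcongr
        _ = N2 * (X : ℝ) ^ (c - δ / 4) := by
            rw [← Real.rpow_add hX0]
            congr 2
    have h8 : C2 * (X : ℝ) ^ (-(7 / 50) : ℝ) ≤ 1 / 2 * (X : ℝ) ^ (-c) := by
      calc C2 * (X : ℝ) ^ (-(7 / 50) : ℝ)
          ≤ (1 / 2 * (X : ℝ) ^ (7 / 100 : ℝ)) * (X : ℝ) ^ (-(7 / 50) : ℝ) := by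
            gcongr
            linarith only [e3]
        _ = 1 / 2 * (X : ℝ) ^ (-(7 / 100) : ℝ) := by
            rw [mul_assoc, ← Real.rpow_add hX0]
            norm_num
        _ ≤ 1 / 2 * (X : ℝ) ^ (-c) := by
            have := Real.rpow_le_rpow_of_exponent_le hX1 (by linarith only [hc1] : -(7 / 100) ≤ -c)
            linarith only [this]
    have h9 : C2 * (X : ℝ) ^ (c - δ / 4) ≤ 1 / 2 * (X : ℝ) ^ (-c) := by
      calc C2 * (X : ℝ) ^ (c - δ / 4)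
          ≤ (1 / 2 * (X : ℝ) ^ (δ / 8)) * (X : ℝ) ^ (c - δ / 4) := by
            gcongr
            linarith only [e4]
        _ = 1 / 2 * (X : ℝ) ^ (c - δ / 8) := by
            rw [mul_assoc, ← Real.rpow_add hX0]
            congr 2
            ring
        _ ≤ 1 / 2 * (X : ℝ) ^ (-c) := by
            have := Real.rpow_le_rpow_of_exponent_le hX1 (by linarith only [hc2] : c - δ / 8 ≤ -c)
            linarith only [this]
    calc C2 * ((N1 : ℝ) / |t| + q * |t|)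
        ≤ C2 * (N2 * (X : ℝ) ^ (-(7 / 50) : ℝ) + N2 * (X : ℝ) ^ (c - δ / 4)) := by gcongr
      _ = N2 * (C2 * (X : ℝ) ^ (-(7 / 50) : ℝ) + C2 * (X : ℝ) ^ (c - δ / 4)) := by ring
      _ ≤ N2 * (X : ℝ) ^ (-c) := by
          have h10 : C2 * (X : ℝ) ^ (-(7 / 50) : ℝ) + C2 * (X : ℝ) ^ (c - δ / 4) ≤
            (X : ℝ) ^ (-c) := by linarith only [h8, h9]
          gcongr

end Pool.Agent.VM
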