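import Pool.Agent.Lib.VM.VkMu
import Pool.Agent.Lib.VM.SmoothBd
import Pool.Agent.Lib.VM.CellBasic

/-!
# Module SupCell: pointwise bound for every cell of length at least `X^δ`

`L = log X`, `N = 2^(e i) ≥ X^δ`. The factor `χ(n)` kills the integers not coprime to `q`.
Smooth cell: `gcl_smooth` gives `ind q y' N` with `N/2 ≤ y'`: the sum is `∑_{n ∈ Ioc y' N} χ(n) n^(-it)`, `smooth_bd δ`: `≤ N X^(-c) ≤ N/L^B`
(`q ≤ L^A ≤ X^c`).
Moebius cell (`i < 6`): the sum over `n ∈ (N/2, min N z]` of `μ(n) χ(n) n^(-it)` is a difference of two sums over `Icc 1 y`, `y ≤ N`: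
`vk_mu A' C0` at `N` with `A' = A + B + 2`, `C0 = ⌈1/δ⌉`: `|t| ≤ X ≤ N^C0`, `|t| ≥ X^(7/50) ≥ (log N)^B'` if `N ≤ X^2` (hypothesis), and `q ≤ L^A ≤ (log N)^A'`
as `log N ≥ δ L`. The bound is `2 N/(log N)^A' ≤ 2 N/(δ L)^A' ≤ N/L^B`.
-/

set_option autoImplicit false

open Finset Filter

namespace Pool.Agent.VM

open Pool.Agent.VK Pool.Agent.HLT

private theorem spc_log (k : ℕ) (K c : ℝ) (hK : 0 ≤ K) (hc : 0 < c) : ∀ᶠ X : ℕ in atTop,
    (K * Real.log X) ^ k ≤ (X : ℝ) ^ c := by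
  have hc' : 0 < c / (k + 1) := by positivity
  have h1 := (isLittleO_log_rpow_atTop hc').bound (show (0 : ℝ) < 1 / (K + 1) by positivity)
  have h3 : ∀ᶠ x : ℝ in atTop, (K * Real.log x) ^ k ≤ x ^ c := by
    filter_upwards [h1, eventually_ge_atTop (1 : ℝ)] with x hx1 hx3
    have hx0 : 0 < x := by linarith
    have hl : 0 ≤ Real.log x := Real.log_nonneg hx3
    rw [Real.norm_of_nonneg hl, Real.norm_of_nonneg (by positivity)] at hx1
    have e1 : K * Real.log x ≤ x ^ (c / (k + 1)) := by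
      have e2 : (K + 1) * Real.log x ≤ x ^ (c / (k + 1)) := by
        calc (K + 1) * Real.log x ≤ (K + 1) * (1 / (K + 1) * x ^ (c / (k + 1))) := by gcongr
          _ = x ^ (c / (k + 1)) := by
              field_simp
      nlinarith only [hl, e2]
    calc (K * Real.log x) ^ k ≤ (x ^ (c / (k + 1))) ^ k :=
          pow_le_pow_left₀ (by positivity) e1 k
      _ = x ^ (c / (k + 1) * k) := by rw [← Real.rpow_natCast, ← Real.rpow_mul hx0.le]
      _ ≤ x ^ c := by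
          apply Real.rpow_le_rpow_of_exponent_le hx3
          rw [div_mul_eq_mul_div, div_le_iff₀ (by positivity)]
          nlinarith only [hc]
  exact tendsto_natCast_atTop_atTop.eventually h3

private theorem spc_moeb (N z q : ℕ) [NeZero q] (χ : DirichletCharacter ℂ q) (t : ℝ) (e : ℕ)
    (R : ℝ) (hN : N = 2 ^ e)
    (h : ∀ y : ℕ, y ≤ N → ‖∑ n ∈ Icc 1 y, ((ArithmeticFunction.moebius n : ℤ) : ℂ) *
      (χ (n : ZMod q) * nit n t)‖ ≤ R) :
    ‖∑ n ∈ Icc 1 N, cellM q z e n * (χ (n : ZMod q) * nit n t)‖ ≤ 2 * R := by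
  set f : ℕ → ℂ := fun n => ((ArithmeticFunction.moebius n : ℤ) : ℂ) *
      (χ (n : ZMod q) * nit n t) with hf
  have h1 : ∑ n ∈ Icc 1 N, cellM q z e n * (χ (n : ZMod q) * nit n t) =
      ∑ n ∈ Ioc (N / 2) (min N z), f n := by
    rw [← Finset.sum_subset (s₁ := Ioc (N / 2) (min N z)) (s₂ := Icc 1 N)]
    · apply Finset.sum_congr rfl
      intro n hn
      rw [mem_Ioc, le_min_iff] at hn
      by_cases hc : n.Coprime q
      · rw [cellM_apply, if_pos ⟨by rw [← hN]; exact hn.1, by rw [← hN]; exact hn.2.1, hn.2.2, hc⟩]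
      · have h0 : χ (n : ZMod q) = 0 := by
          apply χ.map_nonunit
          rwa [ZMod.isUnit_iff_coprime]
        rw [hf]
        simp only [h0, zero_mul, mul_zero]
    · intro n hn
      rw [mem_Ioc, le_min_iff] at hn
      rw [mem_Icc]
      omega
    · intro n hn hn2
      rw [mem_Ioc, le_min_iff] at hn2
      rw [cellM_apply, if_neg, zero_mul]
      rintro ⟨k1, k2, k3, -⟩
      exact hn2 ⟨by rw [hN]; exact k1, by rw [hN]; exact k2, k3⟩
  rw [h1]
  have hR : 0 ≤ R := (norm_nonneg _).trans (h 0 (Nat.zero_le _))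
  rcases le_or_gt (N / 2) (min N z) with hle | hlt
  · have h2 : ∑ n ∈ Ioc (N / 2) (min N z), f n =
        ∑ n ∈ Icc 1 (min N z), f n - ∑ n ∈ Icc 1 (N / 2), f n := by
      rw [eq_sub_iff_add_eq]
      have e1 : Icc 1 (min N z) = Ioc 0 (min N z) := rfl
      have e2 : Icc 1 (N / 2) = Ioc 0 (N / 2) := rfl
      rw [e1, e2, add_comm]
      exact Finset.sum_Ioc_consecutive f (Nat.zero_le _) hle
    rw [h2]
    have h3 := h (min N z) (min_le_left _ _)
    have h4 := h (N / 2) (Nat.div_le_self _ _)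
    refine (norm_sub_le _ _).trans ?_
    linarith
  · rw [Ioc_eq_empty (by omega), sum_empty, norm_zero]
    positivity

private theorem spc_smooth (N y' q : ℕ) [NeZero q] (χ : DirichletCharacter ℂ q) (t : ℝ) :
    ∑ n ∈ Icc 1 N, ind q y' N n * (χ (n : ZMod q) * nit n t) =
      ∑ n ∈ Ioc y' N, χ (n : ZMod q) * nit n t := by
  rw [← Finset.sum_subset (s₁ := Ioc y' N) (s₂ := Icc 1 N)]
  · apply Finset.sum_congr rfl
    intro n hn
    rw [mem_Ioc] at hn
    by_cases hc : n.Coprime q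
    · rw [ind_apply, if_pos ⟨hn.1, hn.2, hc⟩, one_mul]
    · have h0 : χ (n : ZMod q) = 0 := by
        apply χ.map_nonunit
        rwa [ZMod.isUnit_iff_coprime]
      simp only [h0, zero_mul, mul_zero]
  · intro n hn
    rw [mem_Ioc] at hn
    rw [mem_Icc]
    omega
  · intro n hn hn2
    rw [mem_Ioc] at hn2
    rw [ind_apply, if_neg, zero_mul]
    rintro ⟨k1, k2, -⟩
    exact hn2 ⟨k1, k2⟩

theorem sup_cell (A B : ℕ) (δ : ℝ) (hδ : 0 < δ) : ∀ᶠ X : ℕ in atTop, ∀ (q : ℕ) [NeZero q] (χ : DirichletCharacter ℂ q)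
    (z y : ℕ) (e : Fin 12 → ℕ) (i : Fin 12) (t : ℝ), (q : ℝ) ≤ Real.log X ^ A → (X : ℝ) ^ δ ≤ (2 : ℝ) ^ e i →
    (2 : ℝ) ^ e i ≤ (X : ℝ) ^ 2 → (X : ℝ) ^ (7 / 50 : ℝ) ≤ |t| → |t| ≤ X →
    ‖∑ n ∈ Icc 1 (2 ^ e i), gcl z q y e i n * (χ (n : ZMod q) * nit n t)‖ ≤ (2 : ℝ) ^ e i / Real.log X ^ B := by
  obtain ⟨c, hc, hsm⟩ := smooth_bd δ hδ
  set A' : ℕ := A + B + 2 with hA'
  obtain ⟨B', hB'⟩ := vk_mu A' ⌈1 / δ⌉₊
  obtain ⟨N0, hN0⟩ := eventually_atTop.1 hB'
  have hev1 : ∀ᶠ X : ℕ in atTop, max 2 (N0 : ℝ) ≤ (X : ℝ) ^ δ :=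
    tendsto_natCast_atTop_atTop.eventually ((tendsto_rpow_atTop hδ).eventually_ge_atTop _)
  have hev2 : ∀ᶠ X : ℕ in atTop, max 1 (2 / δ ^ A') ≤ Real.log X :=
    (Real.tendsto_log_atTop.comp tendsto_natCast_atTop_atTop).eventually_ge_atTop _
  filter_upwards [hsm, hev1, hev2, spc_log A 1 c zero_le_one hc, spc_log B 1 c zero_le_one hc,
    spc_log B' 2 (7 / 50) (by norm_num) (by norm_num), eventually_ge_atTop 1] with X hsm hX1 hX2
    hX3 hX4 hX5 hX6 q _ χ z y e i t hq he1 he2 ht1 ht2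
  have hx1 : (1 : ℝ) ≤ X := by exact_mod_cast hX6
  have hx0 : (0 : ℝ) < X := by linarith only [hx1]
  set L : ℝ := Real.log X with hL
  have hL1 : 1 ≤ L := (le_max_left _ _).trans hX2
  have hL2 : 2 / δ ^ A' ≤ L := (le_max_right _ _).trans hX2
  have hL0 : 0 < L := by linarith only [hL1]
  rw [one_mul] at hX3 hX4
  set N : ℕ := 2 ^ e i with hN
  have hNr : (2 : ℝ) ^ e i = (N : ℝ) := by
    rw [hN]
    push_cast
    rfl
  rw [hNr] at he1 he2 ⊢
  have hN2 : (2 : ℝ) ≤ N := (le_max_left _ _).trans (hX1.trans he1)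
  have hN2' : 2 ≤ N := by exact_mod_cast hN2
  have hN0' : N0 ≤ N := by
    have : (N0 : ℝ) ≤ N := (le_max_right _ _).trans (hX1.trans he1)
    exact_mod_cast this
  have hNpos : (0 : ℝ) < N := by linarith only [hN2]
  have he0 : e i ≠ 0 := by
    intro h
    rw [h] at hN
    omega
  have hdvd : 2 ∣ N := by
    rw [hN]
    exact dvd_pow_self 2 he0
  by_cases hi : i.val < 6
  · have hg : ∀ n, gcl z q y e i n = cellM q z (e i) n := by
      intro n
      unfold gcl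
      rw [if_pos hi]
    simp only [hg]
    have hlogN1 : δ * L ≤ Real.log N := by
      have := Real.log_le_log (by (clear * - hX6; positivity)) he1
      rwa [Real.log_rpow hx0] at this
    have hlogN2 : Real.log N ≤ 2 * L := by
      have := Real.log_le_log hNpos he2
      rwa [Real.log_pow] at this
    have hδL : 0 < δ * L := by (clear * - hδ hL1; positivity)
    have hkey : 2 ≤ δ ^ A' * L := by
      rw [div_le_iff₀ (by (clear * - hδ; positivity))] at hL2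
      linarith only [hL2]
    have hLA : ∀ k : ℕ, k + 1 ≤ A' → 2 * L ^ k ≤ (δ * L) ^ A' := by
      intro k hk
      calc 2 * L ^ k ≤ δ ^ A' * L * L ^ k := by gcongr
        _ = δ ^ A' * L ^ (k + 1) := by ring
        _ ≤ δ ^ A' * L ^ A' := by gcongr
        _ = (δ * L) ^ A' := by rw [mul_pow]
    have hpow : (δ * L) ^ A' ≤ Real.log N ^ A' := pow_le_pow_left₀ hδL.le hlogN1 A'
    have hqN : (q : ℝ) ≤ Real.log N ^ A' := by
      have e1 := hLA A (by omega)
      have e2 : 0 ≤ L ^ A := by (clear * - hL1; positivity)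
      linarith only [hq, hpow, e1]
    have ht3 : Real.log N ^ B' ≤ |t| := by
      refine le_trans ?_ (hX5.trans ht1)
      exact pow_le_pow_left₀ (by linarith only [hlogN1, hδL]) hlogN2 B'
    have ht4 : |t| ≤ (N : ℝ) ^ ⌈1 / δ⌉₊ := by
      refine ht2.trans ?_
      have e1 : (1 : ℝ) ≤ δ * ⌈1 / δ⌉₊ := by
        have := Nat.le_ceil (1 / δ)
        rw [div_le_iff₀ hδ] at this
        linarith only [this]
      calc (X : ℝ) = (X : ℝ) ^ (1 : ℝ) := (Real.rpow_one _).symm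
        _ ≤ (X : ℝ) ^ (δ * ⌈1 / δ⌉₊) := Real.rpow_le_rpow_of_exponent_le hx1 e1
        _ = ((X : ℝ) ^ δ) ^ ⌈1 / δ⌉₊ := by rw [Real.rpow_mul hx0.le, Real.rpow_natCast]
        _ ≤ (N : ℝ) ^ ⌈1 / δ⌉₊ := by gcongr
    have hfin := spc_moeb N z q χ t (e i) (N / Real.log N ^ A') hN
      (hN0 N hN0' q χ hqN t ht3 ht4)
    refine hfin.trans ?_
    have e1 := hLA B (by omega)
    have e2 : 0 < (δ * L) ^ A' := by (clear * - hδ hL1; positivity)
    calc 2 * ((N : ℝ) / Real.log N ^ A') ≤ 2 * ((N : ℝ) / (δ * L) ^ A') := by gcongr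
      _ ≤ 2 * ((N : ℝ) / (2 * L ^ B)) := by gcongr
      _ = N / L ^ B := by
          field_simp
  · obtain ⟨y', hy', hgy⟩ := gcl_smooth z q y e i (by omega)
    rw [hgy, ← hN, spc_smooth]
    have hq1 : 1 ≤ q := Nat.one_le_iff_ne_zero.2 (NeZero.ne q)
    have h1 := hsm q y' N (fun a => χ a) t hq1 (hq.trans hX3) (fun a => χ.norm_le_one a) he1
      (by omega) ht1 ht2
    refine h1.trans ?_
    rw [Real.rpow_neg hx0.le, ← div_eq_mul_inv]
    gcongr

end Pool.Agent.VM
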