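import Pool.Agent.Lib.HLT.TauPow
import Pool.Agent.Lib.VK.SharpWin

/-!
# Module WinDiff: difference of the averages over a short and a long window

Write `g_σ(v) = ∑_{n ≤ N} c_n gs σ (v - log n)`, `I_h = [log u, log(u+h)]`, `I_Y = [log u, log(u+Y)]`. As in WinGen (`VK.sharp_win`),
with the SAME `σ` for both windows: `|∑_{u<n≤u+h} c_n - ∫_{I_h} g_σ| ≤ E1 := C K (1 + XσΛ + N exp(-Λ²/2))` and the same with `Y`. So
`D(u) = (1/h)∑_{(u,u+h]} c - (1/Y)∑_{(u,u+Y]} c = (1/h)∫_{I_h}(g_σ - g_σ') - (1/Y)∫_{I_Y}(g_σ - g_σ')`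
`+ [(1/h)∫_{I_h} g_σ' - (1/Y)∫_{I_Y} g_σ'] + O(E1/h)`.
First two terms: `((1/h)∫_{I_h}|G|)² ≤ (1/h²)(h/X)∫_{I_h}|G|²`, every `v` is in `I_h(u)` for at most `h+1` values of `u`: the sum over `u`
is `≤ (2/X)∫|G|²`; the same with `Y`.
Bracket: for `v ∈ [log X, log 3X]`, `|g_σ'(v)| ≤ C K X` and `|g_σ'(v) - g_σ'(v')| ≤ C K X |v - v'| / σ'`.
With `g0 = g_σ'(log u)`: `(1/h)∫_{I_h} g_σ' = g0 log(1+h/u)/h + O((1/u)(C K X/σ')(Y/X))`, `log(1+h/u)/h = 1/u + O(h/u²)`. So the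
bracket is `O(K Y/X + K Y/(Xσ')) = O(K Y/(Xσ'))` as `σ' ≤ 1`.
-/

set_option autoImplicit false

open Finset Filter MeasureTheory

namespace Pool.Agent.VM

open Pool.Agent.VK Pool.Agent.HLT Pool.Agent.VK.SharpWinAux

namespace WinDiffAux

lemma approx {X h N : ℕ} {c : ℕ → ℂ} {K σ Λ : ℝ} (hX : 1 ≤ X) (hh : 1 ≤ h) (hhX : h ≤ X)
    (hN : 3 * X ≤ N) (hσ : 0 < σ) (hΛ : 1 ≤ Λ) (hσΛ : σ * Λ ≤ 1) (hK : ∀ n ∈ Icc 1 N, ‖c n‖ ≤ K)
    {u : ℕ} (hu : u ∈ Icc X (2 * X)) :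
    ‖(∑ n ∈ Ioc u (u + h), c n) - ∫ v in (Real.log u)..(Real.log ((u + h : ℕ) : ℝ)),
      ∑ n ∈ Icc 1 N, c n * (gs σ (v - Real.log n) : ℂ)‖ ≤
      15 * K * (1 + X * σ * Λ + N * Real.exp (-(Λ ^ 2 / 2))) := by
  have hX0 : (0:ℝ) < X := by exact_mod_cast hX
  have hX1 : (1:ℝ) ≤ X := by exact_mod_cast hX
  have hK0 : 0 ≤ K := (norm_nonneg _).trans (hK 1 (by rw [Finset.mem_Icc]; omega))
  have hL0 : 0 < σ * Λ := by positivity
  set F : ℝ → ℂ := fun v => ∑ n ∈ Icc 1 N, c n * (gs σ (v - Real.log n) : ℂ) with hF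
  set e : ℝ := Real.exp (-(Λ ^ 2 / 2)) with he
  have he0 : 0 < e := Real.exp_pos _
  set B : ℝ := 1 + X * σ * Λ + N * e with hB
  rw [Finset.mem_Icc] at hu
  have hu0 : (0:ℝ) < u := by exact_mod_cast (by omega : 0 < u)
  have huh0 : (0:ℝ) < ((u + h : ℕ) : ℝ) := by exact_mod_cast (by omega : 0 < u + h)
  have hab : Real.log u ≤ Real.log ((u + h : ℕ) : ℝ) :=
    Real.log_le_log hu0 (by exact_mod_cast (by omega : u ≤ u + h))
  have h1 : ∫ v in (Real.log u)..(Real.log ((u + h : ℕ) : ℝ)), F v =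
      ∑ n ∈ Icc 1 N, c n *
        ((∫ v in (Real.log u)..(Real.log ((u + h : ℕ) : ℝ)), gs σ (v - Real.log n) : ℝ) : ℂ) := by
    simp only [hF]
    rw [intervalIntegral.integral_finsetSum]
    · refine Finset.sum_congr rfl fun n _ => ?_
      rw [intervalIntegral.integral_const_mul, intervalIntegral.integral_ofReal]
    · intro n _
      refine Continuous.intervalIntegrable ?_ _ _
      exact continuous_const.mul (Complex.continuous_ofReal.comp
        ((gs_continuous σ).comp (continuous_id.sub continuous_const)))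
  have h2 : ∑ n ∈ Ioc u (u + h), c n = ∑ n ∈ Icc 1 N, c n *
      (((if Real.log u < Real.log n ∧ Real.log n ≤ Real.log ((u + h : ℕ) : ℝ) then 1 else 0 : ℝ)) : ℂ) := by
    have h3 : Ioc u (u + h) = (Icc 1 N).filter
        (fun n : ℕ => Real.log u < Real.log n ∧ Real.log n ≤ Real.log ((u + h : ℕ) : ℝ)) := by
      ext n
      rw [Finset.mem_filter, Finset.mem_Ioc, Finset.mem_Icc]
      constructor
      · rintro ⟨ha, hb⟩
        have hn0 : (0:ℝ) < n := by exact_mod_cast (by omega : 0 < n)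
        refine ⟨⟨by omega, by omega⟩, ?_, ?_⟩
        · exact Real.log_lt_log hu0 (by exact_mod_cast ha)
        · exact Real.log_le_log hn0 (by exact_mod_cast hb)
      · rintro ⟨⟨ha, hb⟩, h4, h5⟩
        have hn0 : (0:ℝ) < n := by exact_mod_cast (by omega : 0 < n)
        have h6 : (u:ℝ) < n := (Real.log_lt_log_iff hu0 hn0).mp h4
        have h7 : (n:ℝ) ≤ ((u + h : ℕ) : ℝ) := (Real.log_le_log_iff hn0 huh0).mp h5
        exact ⟨by exact_mod_cast h6, by exact_mod_cast h7⟩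
    rw [h3, Finset.sum_filter]
    refine Finset.sum_congr rfl fun n _ => ?_
    split_ifs <;> simp
  rw [h1, h2, ← Finset.sum_sub_distrib]
  refine (norm_sum_le _ _).trans ?_
  have h3 : ∀ n ∈ Icc 1 N, ‖c n *
      (((if Real.log u < Real.log n ∧ Real.log n ≤ Real.log ((u + h : ℕ) : ℝ) then 1 else 0 : ℝ)) : ℂ) -
      c n * ((∫ v in (Real.log u)..(Real.log ((u + h : ℕ) : ℝ)), gs σ (v - Real.log n) : ℝ) : ℂ)‖ ≤
      K * (2 * e + (if |Real.log n - Real.log u| < σ * Λ then 1 else 0) +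
        (if |Real.log n - Real.log ((u + h : ℕ) : ℝ)| < σ * Λ then 1 else 0)) := by
    intro n hn
    rw [← mul_sub, norm_mul, ← Complex.ofReal_sub, Complex.norm_real, Real.norm_eq_abs,
      abs_sub_comm]
    exact mul_le_mul (hK n hn) (phi_bound hσ hΛ hab) (abs_nonneg _) hK0
  refine (Finset.sum_le_sum h3).trans ?_
  rw [← Finset.mul_sum, Finset.sum_add_distrib, Finset.sum_add_distrib, Finset.sum_const,
    Nat.card_Icc, nsmul_eq_mul]
  have hS : ∀ n ∈ Icc 1 N, 1 ≤ n := fun n hn => by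
    rw [Finset.mem_Icc] at hn
    omega
  have h4 := count hu0 hL0.le hσΛ (Icc 1 N) hS
  have h5 := count huh0 hL0.le hσΛ (Icc 1 N) hS
  have hu2 : (u:ℝ) ≤ 2 * X := by exact_mod_cast hu.2
  have hu3 : ((u + h : ℕ) : ℝ) ≤ 3 * X := by exact_mod_cast (by omega : u + h ≤ 3 * X)
  have h6 : (N + 1 - 1 : ℕ) = N := by omega
  rw [h6]
  have h7 : 3 * (u:ℝ) * (σ * Λ) ≤ 6 * (X * (σ * Λ)) := by nlinarith only [hL0, hu2]
  have h8 : 3 * ((u + h : ℕ) : ℝ) * (σ * Λ) ≤ 9 * (X * (σ * Λ)) := by nlinarith only [hL0, hu3]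
  have h9 : (0:ℝ) ≤ X * (σ * Λ) := by (clear * - hX hσ hΛ; positivity)
  have h10 : (0:ℝ) ≤ N * e := by (clear * -; positivity)
  have h11 : (N : ℝ) * (2 * e) = 2 * (N * e) := by
    ring
  have hB' : B = 1 + X * (σ * Λ) + N * e := by
    rw [hB]
    ring
  rw [h11, mul_comm 15 K, mul_assoc K 15 B]
  apply mul_le_mul_of_nonneg_left _ hK0
  rw [hB']
  linarith only [h4, h5, h7, h8, h10]

/-- pointwise comparison used for the sum over `n` -/
lemma gs_small {τ y : ℝ} (hτ : 0 < τ) (hy : 1 ≤ y) : gs τ y ≤ 1 := by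
  unfold gs
  have hpi : (1:ℝ) ≤ Real.sqrt (2 * Real.pi) := by
    rw [Real.one_le_sqrt]
    nlinarith [Real.pi_gt_three]
  rw [div_le_one (by positivity)]
  have h1 : y ^ 2 / (2 * τ ^ 2) ≥ 1 / (2 * τ ^ 2) := by
    apply div_le_div_of_nonneg_right _ (by positivity)
    nlinarith
  have h2 : Real.exp (-(y ^ 2 / (2 * τ ^ 2))) ≤ Real.exp (-(1 / (2 * τ ^ 2))) := by
    apply Real.exp_le_exp.mpr
    linarith
  have h3 : Real.exp (-(1 / (2 * τ ^ 2))) ≤ τ := by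
    rw [Real.exp_neg]
    have h4 := Real.add_one_le_exp (1 / (2 * τ ^ 2))
    have h5 : 1 / τ ≤ 1 / (2 * τ ^ 2) + 1 := by
      rw [div_add' _ _ _ (by positivity), div_le_div_iff₀ hτ (by positivity)]
      nlinarith only [hτ, sq_nonneg (τ - 1), sq_nonneg τ]
    have h6 : 1 / τ ≤ Real.exp (1 / (2 * τ ^ 2)) := h5.trans h4
    rw [inv_le_comm₀ (Real.exp_pos _) hτ, ← one_div]
    exact h6
  calc Real.exp (-(y ^ 2 / (2 * τ ^ 2))) ≤ τ := h2.trans h3
    _ ≤ τ * Real.sqrt (2 * Real.pi) := by nlinarith only [hτ, hpi]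

/-- comparison of neighbouring values, with an exponential weight -/
lemma gs_near {τ y z : ℝ} (hτ : 0 < τ) (hτ2 : τ ≤ 2) (hyz : |y - z| ≤ 4 * τ) :
    gs τ y * Real.exp (-z) ≤ 2 * Real.exp 16 * gs (2 * τ) z := by
  unfold gs
  have hs : 0 < Real.sqrt (2 * Real.pi) := by positivity
  have e1 : Real.exp (-(y ^ 2 / (2 * τ ^ 2))) / (τ * Real.sqrt (2 * Real.pi)) * Real.exp (-z) =
      Real.exp (-(y ^ 2 / (2 * τ ^ 2)) + -z) / (τ * Real.sqrt (2 * Real.pi)) := by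
    rw [Real.exp_add]; ring
  have e2 : 2 * Real.exp 16 * (Real.exp (-(z ^ 2 / (2 * (2 * τ) ^ 2))) /
      (2 * τ * Real.sqrt (2 * Real.pi))) =
      Real.exp (16 + -(z ^ 2 / (2 * (2 * τ) ^ 2))) / (τ * Real.sqrt (2 * Real.pi)) := by
    rw [Real.exp_add]; field_simp
  rw [e1, e2]
  apply div_le_div_of_nonneg_right _ (by positivity)
  apply Real.exp_le_exp.mpr
  have hz2 : z ^ 2 ≤ 2 * y ^ 2 + 32 * τ ^ 2 := by
    have h1 : (y - z) ^ 2 ≤ (4 * τ) ^ 2 := by
      rw [← sq_abs]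
      exact pow_le_pow_left₀ (abs_nonneg _) hyz 2
    nlinarith only [h1, sq_nonneg (2 * y - z)]
  have h3 : z ^ 2 / (4 * τ ^ 2) - 8 ≤ y ^ 2 / (2 * τ ^ 2) := by
    rw [div_sub' (by positivity), div_le_div_iff₀ (by positivity) (by positivity)]
    nlinarith only [hτ, hz2, mul_le_mul_of_nonneg_left hz2 (by positivity : 0 ≤ τ ^ 2)]
  have h4 : -z ≤ z ^ 2 / (8 * τ ^ 2) + 8 := by
    have h5 : -z ≤ z ^ 2 / (8 * τ ^ 2) + 2 * τ ^ 2 := by
      rw [div_add' _ _ _ (by positivity), le_div_iff₀ (by positivity)]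
      nlinarith only [sq_nonneg (z + 4 * τ ^ 2)]
    nlinarith only [hτ, hτ2, h5]
  have h6 : z ^ 2 / (2 * (2 * τ) ^ 2) = z ^ 2 / (8 * τ ^ 2) := by ring_nf
  have h7 : z ^ 2 / (4 * τ ^ 2) = 2 * (z ^ 2 / (8 * τ ^ 2)) := by
    field_simp
    ring
  rw [h6]
  rw [h7] at h3
  linarith

lemma term_le {X n : ℕ} {τ v : ℝ} (hX : 1 ≤ X) (hn : 1 ≤ n) (hτ : 0 < τ) (hτ2 : τ ≤ 2)
    (hXτ : 1 ≤ X * τ) (hv : Real.log X ≤ v) :
    gs τ (v - Real.log n) ≤ (if n ≤ X then 1 else 0) +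
      ∫ w in (Real.log n)..(Real.log ((n + 1 : ℕ) : ℝ)), 4 * Real.exp 16 * Real.exp v *
        gs (2 * τ) (v - w) := by
  have hX0 : (0:ℝ) < X := by exact_mod_cast hX
  have hn0 : (0:ℝ) < n := by exact_mod_cast hn
  have hn1 : (0:ℝ) < ((n + 1 : ℕ) : ℝ) := by positivity
  have hle : Real.log n ≤ Real.log ((n + 1 : ℕ) : ℝ) :=
    Real.log_le_log hn0 (by exact_mod_cast (by omega : n ≤ n + 1))
  have hint0 : 0 ≤ ∫ w in (Real.log n)..(Real.log ((n + 1 : ℕ) : ℝ)), 4 * Real.exp 16 *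
      Real.exp v * gs (2 * τ) (v - w) := by
    apply intervalIntegral.integral_nonneg hle
    intro w _
    have := gs_nonneg (σ := 2 * τ) (by positivity) (v - w)
    positivity
  by_cases h4 : 4 * n ≤ X
  · rw [if_pos (by omega)]
    have h5 : (4:ℝ) * n ≤ X := by exact_mod_cast h4
    have h6 : 1 ≤ v - Real.log n := by
      have h7 : Real.log (4 * n) ≤ Real.log X := Real.log_le_log (by positivity) h5
      rw [Real.log_mul (by norm_num) hn0.ne'] at h7
      have h8 : 1 ≤ Real.log 4 := by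
        rw [Real.le_log_iff_exp_le (by norm_num)]
        have := Real.exp_one_lt_d9
        linarith only [this]
      linarith only [hv, h7, h8]
    have := gs_small hτ h6
    linarith only [hint0, this]
  · have h5 : (X:ℝ) ≤ 4 * n := by exact_mod_cast (by omega : X ≤ 4 * n)
    have hd : (1:ℝ) / n ≤ 4 * τ := by
      rw [div_le_iff₀ hn0]
      nlinarith only [hτ, hXτ, h5]
    have hlen : 1 / ((n:ℝ) + 1) ≤ Real.log ((n + 1 : ℕ) : ℝ) - Real.log n := by
      rw [← Real.log_div hn1.ne' hn0.ne']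
      have h6 := Real.one_sub_inv_le_log_of_pos (x := ((n + 1 : ℕ) : ℝ) / n) (by positivity)
      have h7 : 1 - (((n + 1 : ℕ) : ℝ) / n)⁻¹ = 1 / ((n:ℝ) + 1) := by
        push_cast
        field_simp
        ring
      rw [h7] at h6
      exact h6
    have hlen2 : Real.log ((n + 1 : ℕ) : ℝ) - Real.log n ≤ 1 / n := by
      rw [← Real.log_div hn1.ne' hn0.ne']
      have h6 := Real.log_le_sub_one_of_pos (x := ((n + 1 : ℕ) : ℝ) / n) (by positivity)
      have h7 : ((n + 1 : ℕ) : ℝ) / n - 1 = 1 / n := by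
        push_cast
        field_simp
        ring
      rw [h7] at h6
      exact h6
    have hpt : ∀ w ∈ Set.Icc (Real.log n) (Real.log ((n + 1 : ℕ) : ℝ)),
        ((n:ℝ) + 1) * gs τ (v - Real.log n) ≤ 4 * Real.exp 16 * Real.exp v *
          gs (2 * τ) (v - w) := by
      intro w hw
      have h6 : |v - Real.log n - (v - w)| ≤ 4 * τ := by
        have : v - Real.log n - (v - w) = w - Real.log n := by ring
        rw [this, abs_of_nonneg (by linarith only [hw, hw.1])]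
        linarith only [hd, hlen2, hw, hw.2]
      have h7 := gs_near hτ hτ2 h6
      have hg0 := gs_nonneg hτ (v - Real.log n)
      have h8 : (n:ℝ) + 1 ≤ 2 * Real.exp w := by
        have h9 : (n:ℝ) ≤ Real.exp w := by
          rw [← Real.log_le_iff_le_exp hn0]
          exact hw.1
        have : (1:ℝ) ≤ n := by exact_mod_cast hn
        linarith only [h9, this]
      have h10 : Real.exp w = Real.exp v * Real.exp (-(v - w)) := by
        rw [← Real.exp_add]; congr 1; ring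
      calc ((n:ℝ) + 1) * gs τ (v - Real.log n) ≤ 2 * Real.exp w * gs τ (v - Real.log n) :=
            mul_le_mul_of_nonneg_right h8 hg0
        _ = 2 * Real.exp v * (gs τ (v - Real.log n) * Real.exp (-(v - w))) := by
            rw [h10]; ring
        _ ≤ 2 * Real.exp v * (2 * Real.exp 16 * gs (2 * τ) (v - w)) :=
            mul_le_mul_of_nonneg_left h7 (by positivity)
        _ = _ := by ring
    have hcont : Continuous (fun w : ℝ => 4 * Real.exp 16 * Real.exp v * gs (2 * τ) (v - w)) :=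
      continuous_const.mul ((gs_continuous _).comp (continuous_const.sub continuous_id))
    have h11 : ∫ _w in (Real.log n)..(Real.log ((n + 1 : ℕ) : ℝ)),
        ((n:ℝ) + 1) * gs τ (v - Real.log n) ≤
        ∫ w in (Real.log n)..(Real.log ((n + 1 : ℕ) : ℝ)), 4 * Real.exp 16 * Real.exp v *
          gs (2 * τ) (v - w) :=
      intervalIntegral.integral_mono_on hle (continuous_const.intervalIntegrable _ _)
        (hcont.intervalIntegrable _ _) hpt
    rw [intervalIntegral.integral_const, smul_eq_mul] at h11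
    have hg0 := gs_nonneg hτ (v - Real.log n)
    have h12 : gs τ (v - Real.log n) ≤ (Real.log ((n + 1 : ℕ) : ℝ) - Real.log n) *
        (((n:ℝ) + 1) * gs τ (v - Real.log n)) := by
      have h13 : 1 ≤ (Real.log ((n + 1 : ℕ) : ℝ) - Real.log n) * ((n:ℝ) + 1) := by
        rw [div_le_iff₀ (by positivity)] at hlen
        linarith only [hlen]
      nlinarith only [hg0, h13]
    have h14 : (0:ℝ) ≤ (if n ≤ X then 1 else 0) := by split_ifs <;> norm_num
    linarith only [h11, h12, h14]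

lemma sum_gs {X N : ℕ} {τ v : ℝ} (hX : 1 ≤ X) (hN : X ≤ N) (hτ : 0 < τ) (hτ2 : τ ≤ 2)
    (hXτ : 1 ≤ X * τ) (hv : Real.log X ≤ v) (hv2 : v ≤ Real.log (3 * X)) :
    ∑ n ∈ Icc 1 N, gs τ (v - Real.log n) ≤ (1 + 12 * Real.exp 16) * X := by
  have hX0 : (0:ℝ) < X := by exact_mod_cast hX
  have h1 : ∑ n ∈ Icc 1 N, gs τ (v - Real.log n) ≤ ∑ n ∈ Icc 1 N, ((if n ≤ X then (1:ℝ) else 0) +
      ∫ w in (Real.log n)..(Real.log ((n + 1 : ℕ) : ℝ)), 4 * Real.exp 16 * Real.exp v *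
        gs (2 * τ) (v - w)) := by
    apply Finset.sum_le_sum
    intro n hn
    rw [Finset.mem_Icc] at hn
    exact term_le hX hn.1 hτ hτ2 hXτ hv
  rw [Finset.sum_add_distrib] at h1
  have h2 : ∑ n ∈ Icc 1 N, (if n ≤ X then (1:ℝ) else 0) = X := by
    rw [← Finset.sum_filter, Finset.sum_const, nsmul_eq_mul, mul_one]
    have : (Icc 1 N).filter (fun n => n ≤ X) = Icc 1 X := by
      ext n
      rw [Finset.mem_filter, Finset.mem_Icc, Finset.mem_Icc]
      omega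
    rw [this, Nat.card_Icc]
    simp
  have hcont : Continuous (fun w : ℝ => 4 * Real.exp 16 * Real.exp v * gs (2 * τ) (v - w)) :=
    continuous_const.mul ((gs_continuous _).comp (continuous_const.sub continuous_id))
  have h3 : ∑ n ∈ Icc 1 N, ∫ w in (Real.log n)..(Real.log ((n + 1 : ℕ) : ℝ)), 4 * Real.exp 16 *
      Real.exp v * gs (2 * τ) (v - w) =
      ∫ w in (Real.log ((0 + 1 : ℕ) : ℝ))..(Real.log ((N + 1 : ℕ) : ℝ)), 4 * Real.exp 16 *
      Real.exp v * gs (2 * τ) (v - w) := by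
    rw [← intervalIntegral.sum_integral_adjacent_intervals (μ := volume)
      (f := fun w => 4 * Real.exp 16 * Real.exp v * gs (2 * τ) (v - w))
      (a := fun j : ℕ => Real.log ((j + 1 : ℕ) : ℝ)) (n := N)
      (fun k _ => hcont.intervalIntegrable _ _)]
    symm
    refine Finset.sum_bij (fun i _ => i + 1) ?_ ?_ ?_ ?_
    · intro i hi
      rw [Finset.mem_range] at hi
      rw [Finset.mem_Icc]
      omega
    · intro i _ i' _ hii
      omega
    · intro n hn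
      rw [Finset.mem_Icc] at hn
      exact ⟨n - 1, by rw [Finset.mem_range]; omega, by omega⟩
    · intro i _
      rfl
  have h4 : ∫ w in (Real.log ((0 + 1 : ℕ) : ℝ))..(Real.log ((N + 1 : ℕ) : ℝ)), 4 * Real.exp 16 *
      Real.exp v * gs (2 * τ) (v - w) ≤ 4 * Real.exp 16 * Real.exp v := by
    have hle : Real.log ((0 + 1 : ℕ) : ℝ) ≤ Real.log ((N + 1 : ℕ) : ℝ) :=
      Real.log_le_log (by norm_num) (by exact_mod_cast (by omega : 0 + 1 ≤ N + 1))
    rw [intervalIntegral.integral_of_le hle]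
    have h5 : Integrable (fun w : ℝ => 4 * Real.exp 16 * Real.exp v * gs (2 * τ) (v - w)) :=
      (flip_intble (by positivity) v).const_mul _
    refine (setIntegral_le_integral h5 (Filter.Eventually.of_forall fun w => ?_)).trans ?_
    · have := gs_nonneg (σ := 2 * τ) (by positivity) (v - w)
      show 0 ≤ 4 * Real.exp 16 * Real.exp v * gs (2 * τ) (v - w)
      positivity
    · rw [integral_const_mul, flip_int (by positivity), mul_one]
  have h5 : Real.exp v ≤ 3 * X := by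
    have := Real.exp_le_exp.mpr hv2
    rwa [Real.exp_log (by positivity)] at this
  rw [h2, h3] at h1
  have h6 : 4 * Real.exp 16 * Real.exp v ≤ 4 * Real.exp 16 * (3 * X) :=
    mul_le_mul_of_nonneg_left h5 (by positivity)
  linarith only [h1, h4, h6]

/-- derivative of the Gaussian -/
lemma gs_hasDeriv (σ y : ℝ) : HasDerivAt (gs σ) (-(y / σ ^ 2) * gs σ y) y := by
  unfold gs
  have h0 : HasDerivAt (fun y : ℝ => y ^ 2) (2 * y) y := by simpa using hasDerivAt_pow 2 y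
  have h1 : HasDerivAt (fun y : ℝ => -(y ^ 2 / (2 * σ ^ 2))) (-(2 * y / (2 * σ ^ 2))) y :=
    (h0.div_const _).fun_neg
  have h2 := (h1.exp).div_const (σ * Real.sqrt (2 * Real.pi))
  refine h2.congr_deriv ?_
  by_cases hσ : σ = 0
  · simp [hσ]
  · field_simp

lemma gs_deriv_bd {σ y : ℝ} (hσ : 0 < σ) : |(-(y / σ ^ 2)) * gs σ y| ≤ 4 / σ * gs (2 * σ) y := by
  have hg := gs_nonneg hσ y
  rw [abs_mul, abs_neg, abs_of_nonneg hg, abs_div, abs_of_pos (by positivity : 0 < σ ^ 2)]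
  unfold gs
  have hs : 0 < Real.sqrt (2 * Real.pi) := by positivity
  have h1 : |y| / σ * Real.exp (-(y ^ 2 / (2 * σ ^ 2))) ≤ 2 * Real.exp (-(y ^ 2 / (2 * (2 * σ) ^ 2))) := by
    set x := |y| / σ with hx
    have hx0 : 0 ≤ x := by positivity
    have e1 : y ^ 2 / (2 * σ ^ 2) = x ^ 2 / 2 := by
      rw [hx, div_pow, sq_abs]
      field_simp
    have e2 : y ^ 2 / (2 * (2 * σ) ^ 2) = x ^ 2 / 8 := by
      rw [hx, div_pow, sq_abs]
      field_simp
      ring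
    rw [e1, e2]
    have h2 : x ≤ 2 * Real.exp (3 * x ^ 2 / 8) := by
      have h3 := Real.add_one_le_exp (3 * x ^ 2 / 8)
      nlinarith only [h3, sq_nonneg (x - 1)]
    have h3 : Real.exp (-(x ^ 2 / 8)) = Real.exp (3 * x ^ 2 / 8) * Real.exp (-(x ^ 2 / 2)) := by
      rw [← Real.exp_add]; congr 1; ring
    rw [h3]
    have := mul_le_mul_of_nonneg_right h2 (Real.exp_pos (-(x ^ 2 / 2))).le
    linarith
  calc |y| / σ ^ 2 * (Real.exp (-(y ^ 2 / (2 * σ ^ 2))) / (σ * Real.sqrt (2 * Real.pi))) =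
      (|y| / σ * Real.exp (-(y ^ 2 / (2 * σ ^ 2)))) / (σ * (σ * Real.sqrt (2 * Real.pi))) := by
        field_simp
    _ ≤ (2 * Real.exp (-(y ^ 2 / (2 * (2 * σ) ^ 2)))) / (σ * (σ * Real.sqrt (2 * Real.pi))) :=
        div_le_div_of_nonneg_right h1 (by positivity)
    _ = 4 / σ * (Real.exp (-(y ^ 2 / (2 * (2 * σ) ^ 2))) / (2 * σ * Real.sqrt (2 * Real.pi))) := by
        field_simp
        ring

/-- the constant of the sum -/
noncomputable def c1 : ℝ := 1 + 12 * Real.exp 16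

lemma c1_pos : 1 ≤ c1 := by
  unfold c1
  have := Real.exp_pos 16
  linarith

/-- the smooth sum -/
noncomputable def FF (N : ℕ) (c : ℕ → ℂ) (σ v : ℝ) : ℂ :=
  ∑ n ∈ Icc 1 N, c n * (gs σ (v - Real.log n) : ℂ)

lemma FF_cont (N : ℕ) (c : ℕ → ℂ) (σ : ℝ) : Continuous (FF N c σ) := by
  unfold FF
  refine continuous_finsetSum _ fun n _ => continuous_const.mul ?_
  exact Complex.continuous_ofReal.comp ((gs_continuous σ).comp (continuous_id.sub continuous_const))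

lemma FF_bd {X N : ℕ} {c : ℕ → ℂ} {K σ v : ℝ} (hX : 1 ≤ X) (hN : 3 * X ≤ N) (hσ : 0 < σ)
    (hσ1 : σ ≤ 1) (hXσ : 1 ≤ X * σ) (hK0 : 0 ≤ K) (hK : ∀ n ∈ Icc 1 N, ‖c n‖ ≤ K)
    (hv : Real.log X ≤ v) (hv2 : v ≤ Real.log (3 * X)) : ‖FF N c σ v‖ ≤ K * (c1 * X) := by
  unfold FF
  refine (norm_sum_le _ _).trans ?_
  have h1 : ∀ n ∈ Icc 1 N, ‖c n * (gs σ (v - Real.log n) : ℂ)‖ ≤ K * gs σ (v - Real.log n) := by
    intro n hn
    rw [norm_mul, Complex.norm_real, Real.norm_eq_abs, abs_of_nonneg (gs_nonneg hσ _)]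
    exact mul_le_mul_of_nonneg_right (hK n hn) (gs_nonneg hσ _)
  refine (Finset.sum_le_sum h1).trans ?_
  rw [← Finset.mul_sum]
  exact mul_le_mul_of_nonneg_left (sum_gs hX (by omega) hσ (by linarith) hXσ hv hv2) hK0

lemma FF_lip {X N : ℕ} {c : ℕ → ℂ} {K σ v w : ℝ} (hX : 1 ≤ X) (hN : 3 * X ≤ N) (hσ : 0 < σ)
    (hσ1 : σ ≤ 1) (hXσ : 1 ≤ X * σ) (hK0 : 0 ≤ K) (hK : ∀ n ∈ Icc 1 N, ‖c n‖ ≤ K)
    (hv : v ∈ Set.Icc (Real.log X) (Real.log (3 * X)))
    (hw : w ∈ Set.Icc (Real.log X) (Real.log (3 * X))) :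
    ‖FF N c σ w - FF N c σ v‖ ≤ K * (4 / σ * (c1 * X)) * |w - v| := by
  have hder : ∀ t ∈ Set.Icc (Real.log X) (Real.log (3 * X)), HasDerivWithinAt (FF N c σ)
      (∑ n ∈ Icc 1 N, c n * ((-((t - Real.log n) / σ ^ 2) * gs σ (t - Real.log n) : ℝ) : ℂ))
      (Set.Icc (Real.log X) (Real.log (3 * X))) t := by
    intro t _
    apply HasDerivAt.hasDerivWithinAt
    unfold FF
    apply HasDerivAt.fun_sum
    intro n _
    apply HasDerivAt.const_mul
    have h1 : HasDerivAt (fun t : ℝ => gs σ (t - Real.log n))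
        (-((t - Real.log n) / σ ^ 2) * gs σ (t - Real.log n)) t := by
      have h2 := (gs_hasDeriv σ (t - Real.log n)).comp t ((hasDerivAt_id t).sub_const (Real.log n))
      rw [mul_one] at h2
      exact h2
    exact h1.ofReal_comp
  have hbd : ∀ t ∈ Set.Icc (Real.log X) (Real.log (3 * X)),
      ‖∑ n ∈ Icc 1 N, c n * ((-((t - Real.log n) / σ ^ 2) * gs σ (t - Real.log n) : ℝ) : ℂ)‖ ≤
      K * (4 / σ * (c1 * X)) := by
    intro t ht
    refine (norm_sum_le _ _).trans ?_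
    have h1 : ∀ n ∈ Icc 1 N, ‖c n * ((-((t - Real.log n) / σ ^ 2) *
        gs σ (t - Real.log n) : ℝ) : ℂ)‖ ≤ K * (4 / σ * gs (2 * σ) (t - Real.log n)) := by
      intro n hn
      rw [norm_mul, Complex.norm_real, Real.norm_eq_abs]
      exact mul_le_mul (hK n hn) (gs_deriv_bd hσ) (abs_nonneg _) hK0
    refine (Finset.sum_le_sum h1).trans ?_
    rw [← Finset.mul_sum, ← Finset.mul_sum]
    apply mul_le_mul_of_nonneg_left _ hK0
    apply mul_le_mul_of_nonneg_left _ (by positivity)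
    have h2 : (X:ℝ) * σ ≤ X * (2 * σ) := by
      have : (0:ℝ) ≤ X := Nat.cast_nonneg X
      nlinarith only [hXσ]
    exact sum_gs hX (by omega) (by positivity) (by linarith only [hσ1]) (hXσ.trans h2) ht.1 ht.2
  have := (convex_Icc (Real.log X) (Real.log (3 * X))).norm_image_sub_le_of_norm_hasDerivWithin_le
    hder hbd hv hw
  rwa [Real.norm_eq_abs] at this

lemma one_side {X m N : ℕ} {c : ℕ → ℂ} {K σ : ℝ} (hX : 1 ≤ X) (hm : 1 ≤ m) (hmX : m ≤ X)
    (hN : 3 * X ≤ N) (hσ : 0 < σ) (hσ1 : σ ≤ 1) (hXσ : 1 ≤ X * σ) (hK0 : 0 ≤ K)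
    (hK : ∀ n ∈ Icc 1 N, ‖c n‖ ≤ K) {u : ℕ} (hu : u ∈ Icc X (2 * X)) :
    ‖(∫ v in (Real.log u)..(Real.log ((u + m : ℕ) : ℝ)), FF N c σ v) / (m : ℂ) -
      FF N c σ (Real.log u) / (u : ℂ)‖ ≤ 5 * (K * c1) * (m / (X * σ)) := by
  rw [Finset.mem_Icc] at hu
  have hX0 : (0:ℝ) < X := by exact_mod_cast hX
  have hm0 : (0:ℝ) < m := by exact_mod_cast hm
  have hu0 : (0:ℝ) < u := by exact_mod_cast (by omega : 0 < u)
  have huX : (X:ℝ) ≤ u := by exact_mod_cast hu.1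
  have hum0 : (0:ℝ) < ((u + m : ℕ) : ℝ) := by exact_mod_cast (by omega : 0 < u + m)
  have hum3 : ((u + m : ℕ) : ℝ) ≤ 3 * X := by exact_mod_cast (by omega : u + m ≤ 3 * X)
  have hle : Real.log u ≤ Real.log ((u + m : ℕ) : ℝ) :=
    Real.log_le_log hu0 (by exact_mod_cast (by omega : u ≤ u + m))
  have hlX : Real.log X ≤ Real.log u := Real.log_le_log hX0 huX
  have hl3 : Real.log ((u + m : ℕ) : ℝ) ≤ Real.log (3 * X) := Real.log_le_log hum0 hum3
  have hc1 := c1_pos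
  set a := Real.log u with ha
  set b := Real.log ((u + m : ℕ) : ℝ) with hb
  set L := b - a with hL
  have hL0 : 0 ≤ L := by linarith only [hle]
  have hL1 : L ≤ m / u := by
    rw [hL, hb, ha, ← Real.log_div hum0.ne' hu0.ne']
    have h1 := Real.log_le_sub_one_of_pos (x := ((u + m : ℕ) : ℝ) / u) (by positivity)
    have h2 : ((u + m : ℕ) : ℝ) / u - 1 = m / u := by
      push_cast
      field_simp
      ring
    rwa [h2] at h1
  have hL2 : m / u - (m / u) ^ 2 ≤ L := by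
    rw [hL, hb, ha, ← Real.log_div hum0.ne' hu0.ne']
    have h1 := Real.one_sub_inv_le_log_of_pos (x := ((u + m : ℕ) : ℝ) / u) (by (clear * - hm hu0; positivity))
    refine le_trans ?_ h1
    have h2 : 1 - (((u + m : ℕ) : ℝ) / u)⁻¹ = (m / u : ℝ) / (1 + m / u) := by
      push_cast
      field_simp
      ring
    rw [h2, le_div_iff₀ (by (clear * - hm hu0; positivity))]
    have h3 : (0:ℝ) ≤ m / u := by (clear * - hm hu0; positivity)
    nlinarith only [h3, mul_nonneg (mul_nonneg h3 h3) h3]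
  set F := FF N c σ with hF
  set g0 := F a with hg0
  have hmu : (m:ℝ) / u ≤ m / X := div_le_div_of_nonneg_left hm0.le hX0 huX
  have hmu0 : (0:ℝ) ≤ m / u := by (clear * - hm hu0; positivity)
  -- the integral
  have hint : ∫ v in a..b, F v = (∫ v in a..b, (F v - g0)) + (L : ℂ) * g0 := by
    rw [intervalIntegral.integral_sub ((FF_cont N c σ).intervalIntegrable _ _)
      (continuous_const.intervalIntegrable _ _), intervalIntegral.integral_const, hL]
    rw [Complex.real_smul]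
    ring
  have hI : ‖∫ v in a..b, (F v - g0)‖ ≤ K * (4 / σ * (c1 * X)) * L * |b - a| := by
    apply intervalIntegral.norm_integral_le_of_norm_le_const
    intro v hv
    rw [Set.uIoc_of_le hle] at hv
    have h1 := FF_lip (v := a) (w := v) hX hN hσ hσ1 hXσ hK0 hK ⟨hlX, by linarith only [hl3, hle]⟩
      ⟨by linarith only [hlX, hv, hv.1], by linarith only [hl3, hv, hv.2]⟩
    refine h1.trans ?_
    apply mul_le_mul_of_nonneg_left _ (by (clear * - hX hσ hK0 hc1; positivity))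
    rw [abs_of_nonneg (by linarith only [hv, hv.1])]
    linarith only [hv, hv.2]
  rw [abs_of_nonneg hL0] at hI
  have hg0b : ‖g0‖ ≤ K * (c1 * X) := FF_bd hX hN hσ hσ1 hXσ hK0 hK hlX (by linarith only [hl3, hle])
  have hdec : (∫ v in a..b, F v) / (m : ℂ) - g0 / (u : ℂ) =
      (∫ v in a..b, (F v - g0)) / (m : ℂ) + (((L / m - 1 / u : ℝ)) : ℂ) * g0 := by
    rw [hint]
    push_cast
    ring
  rw [hdec]
  refine (norm_add_le _ _).trans ?_
  rw [norm_div, norm_mul, Complex.norm_natCast, Complex.norm_real, Real.norm_eq_abs]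
  have hA : ‖∫ v in a..b, (F v - g0)‖ / m ≤ 4 * (K * c1) * (m / (X * σ)) := by
    rw [div_le_iff₀ hm0]
    have h1 : L * L ≤ (m / X) * (m / X) := mul_self_le_mul_self hL0 (hL1.trans hmu)
    calc _ ≤ K * (4 / σ * (c1 * X)) * L * L := hI
      _ = K * (4 / σ * (c1 * X)) * (L * L) := by ring
      _ ≤ K * (4 / σ * (c1 * X)) * ((m / X) * (m / X)) :=
          mul_le_mul_of_nonneg_left h1 (by (clear * - hX hσ hK0 hc1; positivity))
      _ = 4 * (K * c1) * (m / (X * σ)) * m := by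
          field_simp
  have hB : |L / m - 1 / u| * ‖g0‖ ≤ (K * c1) * (m / (X * σ)) := by
    have h1 : |L / m - 1 / u| ≤ m / X ^ 2 := by
      have h2 : L / m ≤ 1 / u := by
        rw [div_le_div_iff₀ hm0 hu0]
        rw [le_div_iff₀ hu0] at hL1
        linarith only [hL1]
      have h3 : 1 / u - m / u ^ 2 ≤ L / m := by
        rw [le_div_iff₀ hm0]
        have : (1 / (u:ℝ) - m / u ^ 2) * m = m / u - (m / u) ^ 2 := by
          field_simp
        rw [this]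
        exact hL2
      have h4 : (m:ℝ) / u ^ 2 ≤ m / X ^ 2 := by
        apply div_le_div_of_nonneg_left hm0.le (by (clear * - hX; positivity))
        exact pow_le_pow_left₀ hX0.le huX 2
      rw [abs_le]
      constructor
      · linarith only [h3, h4]
      · have : (0:ℝ) ≤ m / X ^ 2 := by (clear * - hX hm; positivity)
        linarith only [h2, h3, h4]
    calc |L / m - 1 / u| * ‖g0‖ ≤ (m / X ^ 2) * (K * (c1 * X)) :=
          mul_le_mul h1 hg0b (norm_nonneg _) (by (clear * - hX hm; positivity))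
      _ = (K * c1) * (m / X) := by
          field_simp
      _ ≤ (K * c1) * (m / (X * σ)) := by
          apply mul_le_mul_of_nonneg_left _ (by (clear * - hK0 hc1; positivity))
          apply div_le_div_of_nonneg_left hm0.le (by (clear * - hX hσ; positivity))
          nlinarith only [hσ1]
  calc _ ≤ 4 * (K * c1) * (m / (X * σ)) + (K * c1) * (m / (X * σ)) := add_le_add hA hB
    _ = _ := by ring

end WinDiffAux

open WinDiffAux

theorem win_diff : ∃ C : ℝ, 1 ≤ C ∧ ∀ (X h Y N : ℕ) (c : ℕ → ℂ) (K σ σ' Λ : ℝ), 1 ≤ X → 1 ≤ h → h ≤ Y → Y ≤ X →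
    3 * X ≤ N → 0 < σ → σ ≤ σ' → 1 ≤ X * σ' → 1 ≤ Λ → σ' * Λ ≤ 1 → 0 ≤ K → (∀ n ∈ Icc 1 N, ‖c n‖ ≤ K) →
    Integrable (fun v : ℝ => ‖∑ n ∈ Icc 1 N, c n * ((gs σ (v - Real.log n) - gs σ' (v - Real.log n) : ℝ) : ℂ)‖ ^ 2) →
    ∑ u ∈ Icc X (2 * X), ‖(∑ n ∈ Ioc u (u + h), c n) / (h : ℂ) - (∑ n ∈ Ioc u (u + Y), c n) / (Y : ℂ)‖ ^ 2 ≤
      C * ((1 / X) * (∫ v : ℝ, ‖∑ n ∈ Icc 1 N, c n * ((gs σ (v - Real.log n) - gs σ' (v - Real.log n) : ℝ) : ℂ)‖ ^ 2) +
        X * K ^ 2 * ((1 + X * σ * Λ + N * Real.exp (-(Λ ^ 2 / 2))) / h + Y / (X * σ')) ^ 2) := by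
  have hc1 := c1_pos
  refine ⟨6 * (30 + 10 * c1) ^ 2, by nlinarith, ?_⟩
  intro X h Y N c K σ σ' Λ hX hh hhY hYX hN hσ hσσ hXσ hΛ hσΛ hK0 hK hint
  have hX0 : (0:ℝ) < X := by exact_mod_cast hX
  have hX1 : (1:ℝ) ≤ X := by exact_mod_cast hX
  have hh0 : (0:ℝ) < h := by exact_mod_cast hh
  have hY1 : 1 ≤ Y := hh.trans hhY
  have hY0 : (0:ℝ) < Y := by exact_mod_cast hY1
  have hhY' : (h:ℝ) ≤ Y := by exact_mod_cast hhY
  have hσ' : 0 < σ' := lt_of_lt_of_le hσ hσσ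
  have hσ'1 : σ' ≤ 1 := by nlinarith only [hσ, hσσ, hΛ, hσΛ]
  have hσΛ1 : σ * Λ ≤ 1 := by nlinarith only [hσσ, hΛ, hσΛ]
  set G : ℝ → ℂ := fun v => ∑ n ∈ Icc 1 N, c n *
    ((gs σ (v - Real.log n) - gs σ' (v - Real.log n) : ℝ) : ℂ) with hG
  have hGF : ∀ v, G v = FF N c σ v - FF N c σ' v := by
    intro v
    simp only [hG, FF]
    rw [← Finset.sum_sub_distrib]
    refine Finset.sum_congr rfl fun n _ => ?_
    push_cast
    ring
  have hGc : Continuous G := by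
    have : G = fun v => FF N c σ v - FF N c σ' v := funext hGF
    rw [this]
    exact (FF_cont N c σ).sub (FF_cont N c σ')
  set B : ℝ := 1 + X * σ * Λ + N * Real.exp (-(Λ ^ 2 / 2)) with hB
  have hB0 : 0 ≤ B := by (clear * - hX hσ hΛ; positivity)
  set R : ℝ := B / h + Y / (X * σ') with hR
  have hR0 : 0 ≤ R := by (clear * - hX hh hσ hΛ hY1 hσ'; positivity)
  -- Cauchy-Schwarz for the difference
  have hcs : ∀ m : ℕ, 1 ≤ m → m ≤ X → ∀ u ∈ Icc X (2 * X),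
      (‖∫ v in (Real.log u)..(Real.log ((u + m : ℕ) : ℝ)), G v‖ / m) ^ 2 ≤
      (1 / (m * X)) * ∫ v in (Real.log u)..(Real.log ((u + m : ℕ) : ℝ)), ‖G v‖ ^ 2 := by
    intro m hm hmX u hu
    rw [Finset.mem_Icc] at hu
    have hm0 : (0:ℝ) < m := by exact_mod_cast hm
    have hu0 : (0:ℝ) < u := by exact_mod_cast (by omega : 0 < u)
    have hab : Real.log u < Real.log ((u + m : ℕ) : ℝ) :=
      Real.log_lt_log hu0 (by exact_mod_cast (by omega : u < u + m))
    have h0 : 0 ≤ ∫ v in (Real.log u)..(Real.log ((u + m : ℕ) : ℝ)), ‖G v‖ ^ 2 :=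
      intervalIntegral.integral_nonneg hab.le fun v _ => by (clear * -; positivity)
    have h1 : ‖∫ v in (Real.log u)..(Real.log ((u + m : ℕ) : ℝ)), G v‖ ^ 2 ≤
        (m / X) * ∫ v in (Real.log u)..(Real.log ((u + m : ℕ) : ℝ)), ‖G v‖ ^ 2 := by
      refine (cs hab G hGc).trans ?_
      apply mul_le_mul_of_nonneg_right _ h0
      rw [← Real.log_div (by (clear * - hm; positivity)) hu0.ne']
      have h1 := Real.log_le_sub_one_of_pos (x := ((u + m : ℕ) : ℝ) / u) (by (clear * - hm hu0; positivity))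
      have h2 : ((u + m : ℕ) : ℝ) / u - 1 = m / u := by
        push_cast
        field_simp
        ring
      rw [h2] at h1
      refine h1.trans ?_
      exact div_le_div_of_nonneg_left hm0.le hX0 (by exact_mod_cast hu.1)
    rw [div_pow, div_le_iff₀ (by (clear * - hm; positivity))]
    refine h1.trans (le_of_eq ?_)
    field_simp
  have hpt : ∀ u ∈ Icc X (2 * X), ‖(∑ n ∈ Ioc u (u + h), c n) / (h : ℂ) -
      (∑ n ∈ Ioc u (u + Y), c n) / (Y : ℂ)‖ ^ 2 ≤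
      3 * ((1 / (h * X)) * ∫ v in (Real.log u)..(Real.log ((u + h : ℕ) : ℝ)), ‖G v‖ ^ 2) +
      3 * ((1 / (Y * X)) * ∫ v in (Real.log u)..(Real.log ((u + Y : ℕ) : ℝ)), ‖G v‖ ^ 2) +
      3 * ((30 + 10 * c1) * (K * R)) ^ 2 := by
    intro u hu
    have a1 := approx hX hh (hhY.trans hYX) hN hσ hΛ hσΛ1 hK hu
    have a2 := approx hX hY1 hYX hN hσ hΛ hσΛ1 hK hu
    have b1 := one_side hX hh (hhY.trans hYX) hN hσ' hσ'1 hXσ hK0 hK hu
    have b2 := one_side hX hY1 hYX hN hσ' hσ'1 hXσ hK0 hK hu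
    have c1' := hcs h hh (hhY.trans hYX) u hu
    have c2' := hcs Y hY1 hYX u hu
    have hsplit : ∀ m : ℕ, ∫ v in (Real.log u)..(Real.log ((u + m : ℕ) : ℝ)), FF N c σ v =
        (∫ v in (Real.log u)..(Real.log ((u + m : ℕ) : ℝ)), G v) +
        ∫ v in (Real.log u)..(Real.log ((u + m : ℕ) : ℝ)), FF N c σ' v := by
      intro m
      rw [← intervalIntegral.integral_add (hGc.intervalIntegrable _ _)
        ((FF_cont N c σ').intervalIntegrable _ _)]
      congr 1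
      funext v
      rw [hGF]
      ring
    have e1 := hsplit h
    have e2 := hsplit Y
    change ‖(∑ n ∈ Ioc u (u + h), c n) -
      ∫ v in (Real.log u)..(Real.log ((u + h : ℕ) : ℝ)), FF N c σ v‖ ≤ _ at a1
    change ‖(∑ n ∈ Ioc u (u + Y), c n) -
      ∫ v in (Real.log u)..(Real.log ((u + Y : ℕ) : ℝ)), FF N c σ v‖ ≤ _ at a2
    rw [e1, ← hB] at a1
    rw [e2, ← hB] at a2
    set S1 := ∑ n ∈ Ioc u (u + h), c n
    set S2 := ∑ n ∈ Ioc u (u + Y), c n
    set P1 := ∫ v in (Real.log u)..(Real.log ((u + h : ℕ) : ℝ)), G v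
    set P2 := ∫ v in (Real.log u)..(Real.log ((u + Y : ℕ) : ℝ)), G v
    set Q1 := ∫ v in (Real.log u)..(Real.log ((u + h : ℕ) : ℝ)), FF N c σ' v
    set Q2 := ∫ v in (Real.log u)..(Real.log ((u + Y : ℕ) : ℝ)), FF N c σ' v
    set g := FF N c σ' (Real.log u) / (u : ℂ)
    have hdec : S1 / (h : ℂ) - S2 / (Y : ℂ) = P1 / (h : ℂ) + (-(P2 / (Y : ℂ)) +
        ((S1 - (P1 + Q1)) / (h : ℂ) + (-((S2 - (P2 + Q2)) / (Y : ℂ)) +
        ((Q1 / (h : ℂ) - g) + (-(Q2 / (Y : ℂ) - g)))))) := by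
      ring
    have hn : ‖S1 / (h : ℂ) - S2 / (Y : ℂ)‖ ≤ ‖P1‖ / h + ‖P2‖ / Y + (30 + 10 * c1) * (K * R) := by
      rw [hdec]
      have n1 : ‖P1 / (h : ℂ)‖ = ‖P1‖ / h := by rw [norm_div, Complex.norm_natCast]
      have n2 : ‖-(P2 / (Y : ℂ))‖ = ‖P2‖ / Y := by rw [norm_neg, norm_div, Complex.norm_natCast]
      have n3 : ‖(S1 - (P1 + Q1)) / (h : ℂ)‖ ≤ 15 * (K * (B / h)) := by
        rw [norm_div, Complex.norm_natCast, div_le_iff₀ hh0]
        refine a1.trans (le_of_eq ?_)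
        field_simp
      have n4 : ‖-((S2 - (P2 + Q2)) / (Y : ℂ))‖ ≤ 15 * (K * (B / h)) := by
        rw [norm_neg, norm_div, Complex.norm_natCast, div_le_iff₀ hY0]
        refine a2.trans ?_
        have : 15 * (K * (B / h)) * Y = 15 * K * B * (Y / h) := by
          field_simp
        rw [this]
        have h1 : 1 ≤ (Y:ℝ) / h := by rw [le_div_iff₀ hh0]; linarith only [hhY']
        have h2 : 0 ≤ 15 * K * B := by (clear * - hX hσ hΛ hK0; positivity)
        nlinarith only [h1, h2]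
      have n6 : ‖-(Q2 / (Y : ℂ) - g)‖ ≤ 5 * (K * c1) * (Y / (X * σ')) := by
        rw [norm_neg]
        exact b2
      have n5 : ‖Q1 / (h : ℂ) - g‖ ≤ 5 * (K * c1) * (Y / (X * σ')) := by
        refine b1.trans ?_
        apply mul_le_mul_of_nonneg_left _ (by (clear * - hc1 hK0; positivity))
        exact div_le_div_of_nonneg_right hhY' (by (clear * - hX hσ'; positivity))
      have t1 := norm_add_le (P1 / (h : ℂ)) (-(P2 / (Y : ℂ)) +
        ((S1 - (P1 + Q1)) / (h : ℂ) + (-((S2 - (P2 + Q2)) / (Y : ℂ)) +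
        ((Q1 / (h : ℂ) - g) + (-(Q2 / (Y : ℂ) - g))))))
      have t2 := norm_add_le (-(P2 / (Y : ℂ)))
        ((S1 - (P1 + Q1)) / (h : ℂ) + (-((S2 - (P2 + Q2)) / (Y : ℂ)) +
        ((Q1 / (h : ℂ) - g) + (-(Q2 / (Y : ℂ) - g)))))
      have t3 := norm_add_le ((S1 - (P1 + Q1)) / (h : ℂ)) (-((S2 - (P2 + Q2)) / (Y : ℂ)) +
        ((Q1 / (h : ℂ) - g) + (-(Q2 / (Y : ℂ) - g))))
      have t4 := norm_add_le (-((S2 - (P2 + Q2)) / (Y : ℂ)))
        ((Q1 / (h : ℂ) - g) + (-(Q2 / (Y : ℂ) - g)))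
      have t5 := norm_add_le (Q1 / (h : ℂ) - g) (-(Q2 / (Y : ℂ) - g))
      have hfin : 30 * (K * (B / h)) + 10 * (K * c1) * (Y / (X * σ')) ≤
          (30 + 10 * c1) * (K * R) := by
        have q1 : 0 ≤ K * (B / h) := by (clear * - hX hh hσ hΛ hK0; positivity)
        have q2 : 0 ≤ K * (Y / (X * σ')) := by (clear * - hX hK0 hY1 hσ'; positivity)
        rw [hR]
        nlinarith only [hc1, q1, q2]
      rw [n1] at t1
      rw [n2] at t2
      linarith only [n3, n4, n6, n5, t1, t2, t3, t4, t5, hfin]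
    have hP1 : 0 ≤ ‖P1‖ / h := by (clear * - hh; positivity)
    have hP2 : 0 ≤ ‖P2‖ / Y := by (clear * - hY1; positivity)
    have hT : 0 ≤ (30 + 10 * c1) * (K * R) := by (clear * - hc1 hX hh hσ hΛ hK0 hY1 hσ'; positivity)
    set p1 := ‖P1‖ / h
    set p2 := ‖P2‖ / Y
    set T := (30 + 10 * c1) * (K * R)
    have hsq : ‖S1 / (h : ℂ) - S2 / (Y : ℂ)‖ ^ 2 ≤ (p1 + p2 + T) ^ 2 :=
      pow_le_pow_left₀ (norm_nonneg _) hn 2
    nlinarith only [c1', c2', hsq, sq_nonneg (p1 - p2), sq_nonneg (p1 - T), sq_nonneg (p2 - T)]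
  refine (Finset.sum_le_sum hpt).trans ?_
  rw [Finset.sum_add_distrib, Finset.sum_add_distrib, Finset.sum_const, Nat.card_Icc,
    nsmul_eq_mul, ← Finset.mul_sum, ← Finset.mul_sum, ← Finset.mul_sum, ← Finset.mul_sum]
  have hI0 : 0 ≤ ∫ v : ℝ, ‖G v‖ ^ 2 := integral_nonneg fun v => by (clear * -; positivity)
  have hcov : ∀ m : ℕ, 1 ≤ m → (1 / (m * X) : ℝ) * ∑ u ∈ Icc X (2 * X),
      ∫ v in (Real.log u)..(Real.log ((u + m : ℕ) : ℝ)), ‖G v‖ ^ 2 ≤
      (1 / X) * ∫ v : ℝ, ‖G v‖ ^ 2 := by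
    intro m hm
    have hm0 : (0:ℝ) < m := by exact_mod_cast hm
    have h1 := cover X m hX (fun v => ‖G v‖ ^ 2) (hGc.norm.pow 2) (fun v => by (clear * -; positivity)) hint
    have h2 := mul_le_mul_of_nonneg_left h1 (by (clear * - hX hm; positivity) : (0:ℝ) ≤ 1 / (m * X))
    refine h2.trans (le_of_eq ?_)
    field_simp
  have h1 := hcov h hh
  have h2 := hcov Y hY1
  have h3 : ((2 * X + 1 - X : ℕ) : ℝ) ≤ 2 * X := by
    have : 2 * X + 1 - X ≤ 2 * X := by omega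
    exact_mod_cast this
  have h4 : ((2 * X + 1 - X : ℕ) : ℝ) * (3 * ((30 + 10 * c1) * (K * R)) ^ 2) ≤
      (2 * X) * (3 * ((30 + 10 * c1) * (K * R)) ^ 2) :=
    mul_le_mul_of_nonneg_right h3 (by (clear * -; positivity))
  have h5 : 6 * ((1 / X : ℝ) * ∫ v : ℝ, ‖G v‖ ^ 2) ≤ 6 * (30 + 10 * c1) ^ 2 *
      ((1 / X : ℝ) * ∫ v : ℝ, ‖G v‖ ^ 2) := by
    have q0 : 0 ≤ (1 / X : ℝ) * ∫ v : ℝ, ‖G v‖ ^ 2 := mul_nonneg (by (clear * - hX; positivity)) hI0
    have q1 : 1 ≤ (30 + 10 * c1) ^ 2 := by nlinarith only [hc1]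
    nlinarith only [q0, q1]
  calc _ ≤ 3 * ((1 / X : ℝ) * ∫ v : ℝ, ‖G v‖ ^ 2) + 3 * ((1 / X : ℝ) * ∫ v : ℝ, ‖G v‖ ^ 2) +
        (2 * X) * (3 * ((30 + 10 * c1) * (K * R)) ^ 2) := by linarith only [h1, h2, h4]
    _ ≤ 6 * (30 + 10 * c1) ^ 2 * ((1 / X : ℝ) * ∫ v : ℝ, ‖G v‖ ^ 2) +
        (2 * X) * (3 * ((30 + 10 * c1) * (K * R)) ^ 2) := by linarith only [h5]
    _ = _ := by ring

end Pool.Agent.VM
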