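import Pool.Agent.Lib.VK.MeanVal
import Pool.Agent.Lib.VM.DpMul
import Pool.Agent.Lib.VM.GaussDiff
import Pool.Agent.Lib.VM.SupCell
import Pool.Agent.Lib.VM.WinDiff

/-!
# Module ClsTwoMaj: classes with a factor between `X^δ` and `h X^(-δ)`, difference of windows

`L = log X`, `Z = ∏ 2^(e j)`, `N = 2^14 X`, `c n = Fcl z q y e n χ(n)`. If `Fcl` vanishes on `(X,4X]` trivial; otherwise `X < Z ≤ N` (`Fcl_supp`, as in module
ScLarge). `η = min δ (1/100) / 4`, `ν = η/10`, `K = X^ν` (`Fcl_bound`, `tau_small`), `σ = (h/X) X^(-η)`, `σ' = X^(-7/50-η)`, `Λ = log X`, `T1 = X^(7/50)`,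
`T = (X/h) X^(2η)` (`≤ X`).
For `T1 ≤ |t| ≤ T`: `∑ c_n n^(-it) = A(t) R(t)` (`Fcl_split`, `dp_mul`, `twist_mul`), `A(t)` = the sum over the cell `i`,
`|A(t)| ≤ 2^(e i)/L^B'` (`sup_cell`), `R(t) = ∑_{m ≤ M} b(m) χ(m) m^(-it)`, `b = ∏_{j ≠ i} gcl j`, `M = Z/2^(e i) ≤ 2^14 X/2^(e i)`,
`∫_{-T}^{T} |R|² ≤ C (1 + 2T + M) ∑ |b|² ≤ C' M' M' (1 + log N)^c`, `M' = 2^14 X/2^(e i) ≥ T` since `2^(e i) ≤ h X^(-δ)`
(`VK.mean_value`, `|b| ≤ τ^12`, `HLT.sum_tau_pow`; `c = 2^24` must be hidden behind an existential). So the integral of `|∑ c_n n^(-it)|²` over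
`T1 ≤ |t| ≤ T` is `≤ C'' X² (1+log N)^c/L^(2B') ≤ X²/L^(B+2)` for `B' = B + c + 5`.
`∫_{-T1}^{T1} |∑ c_n n^(-it)|² ≤ C (1 + 2T1 + N) N X^(2ν)`, `(σ' T1)^4 = X^(-4η)`. `gauss_diff`, `win_diff` (`Y = YY X`) as in module DjsWin: the errors
`X^(-4η + 3ν)`, `exp(-X^(2η)/2)`, `X^(2ν) (X^(-η) L + X^(-1/100+η))²` are power savings.
-/

set_option autoImplicit false

open Finset Filter MeasureTheory

namespace Pool.Agent.VM

open Pool.Agent.VK Pool.Agent.HLT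

namespace ClsTwoMajAux

theorem win_core (s : ℝ) (hspos : 0 < s) (hs2 : 100 * s ≤ 1 / 1000) : ∃ Cw : ℝ, 1 ≤ Cw ∧
    ∀ᶠ X : ℕ in atTop, ∀ (h : ℕ) (c : ℕ → ℂ) (M : ℝ), (X : ℝ) ^ (1 / 10 : ℝ) ≤ h →
    (h : ℝ) ≤ (X : ℝ) ^ (2 / 5 : ℝ) → (∀ n ∈ Icc 1 (2 ^ 14 * X), ‖c n‖ ≤ (X : ℝ) ^ (2 * s)) →
    ∫ t in ((X : ℝ) ^ (7 / 50 : ℝ))..(X / h * (X : ℝ) ^ (100 * s)),
      ‖∑ n ∈ Icc 1 (2 ^ 14 * X), c n * nit n t‖ ^ 2 ≤ M →
    ∫ t in (-(X / h * (X : ℝ) ^ (100 * s)))..(-((X : ℝ) ^ (7 / 50 : ℝ))),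
      ‖∑ n ∈ Icc 1 (2 ^ 14 * X), c n * nit n t‖ ^ 2 ≤ M →
    ∑ u ∈ Icc X (2 * X), ‖(∑ n ∈ Ioc u (u + h), c n) / (h : ℂ) -
        (∑ n ∈ Ioc u (u + YY X), c n) / (YY X : ℂ)‖ ^ 2 ≤
      Cw * (M / X) + X * (X : ℝ) ^ (-s) := by
  obtain ⟨Cw, hCw, hwin⟩ := win_diff
  obtain ⟨Cm, hCm, hmean⟩ := mean_value
  have hXat : Tendsto (fun X : ℕ => (X : ℝ)) atTop atTop := tendsto_natCast_atTop_atTop
  have ev2 : ∀ᶠ X : ℕ in atTop, Real.log X ≤ (X : ℝ) ^ s := by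
    have h1 := (isLittleO_log_rpow_atTop hspos).bound one_pos
    filter_upwards [hXat.eventually h1, eventually_ge_atTop 1] with X hX hX1
    rw [one_mul, Real.norm_eq_abs, Real.norm_eq_abs, abs_of_nonneg (Real.log_nonneg (by
      exact_mod_cast hX1)), abs_of_nonneg (Real.rpow_nonneg (Nat.cast_nonneg _) _)] at hX
    exact hX
  have ev3 : ∀ᶠ X : ℕ in atTop, Cm * 2 ^ 30 ≤ (X : ℝ) ^ s :=
    ((tendsto_rpow_atTop hspos).comp hXat).eventually_ge_atTop _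
  have ev4 : ∀ᶠ X : ℕ in atTop,
      (2 : ℝ) ^ 28 * (X : ℝ) ^ (4 : ℝ) * Real.exp (-((X : ℝ) ^ (100 * s) / 2)) ≤ 1 := by
    have h1 := (tendsto_rpow_mul_exp_neg_mul_atTop_nhds_zero (4 / (100 * s)) (1 / 2)
      (by norm_num)).comp ((tendsto_rpow_atTop (show 0 < 100 * s by positivity)).comp hXat)
    have h2 := h1.const_mul ((2 : ℝ) ^ 28)
    rw [mul_zero] at h2
    filter_upwards [h2.eventually_lt_const one_pos, eventually_ge_atTop 1] with X hX hX1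
    have hX0 : (0 : ℝ) ≤ X := Nat.cast_nonneg _
    simp only [Function.comp_apply] at hX
    rw [← Real.rpow_mul hX0, mul_div_cancel₀ _ (by positivity)] at hX
    have h3 : -(((X : ℝ) ^ (100 * s)) / 2) = -(1 / 2) * (X : ℝ) ^ (100 * s) := by ring
    rw [h3, mul_assoc]
    exact hX.le
  have ev5 : ∀ᶠ X : ℕ in atTop, (7 : ℝ) ≤ Real.log X :=
    (Real.tendsto_log_atTop.comp hXat).eventually_ge_atTop _
  have ev6 : ∀ᶠ X : ℕ in atTop, Cw * 27 ≤ (X : ℝ) ^ s :=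
    ((tendsto_rpow_atTop hspos).comp hXat).eventually_ge_atTop _
  refine ⟨2 * Cw, by linarith only [hspos, hs2, hCw], ?_⟩
  filter_upwards [ev2, ev3, ev4, ev5, ev6, eventually_ge_atTop 1] with X ev2 ev3
    ev4 ev5 ev6 hX1
  intro h c M hh1 hh2 hcK hI1 hI2
  have hXr1 : (1 : ℝ) ≤ X := by exact_mod_cast hX1
  have hX0 : (0 : ℝ) < X := by linarith only [hspos, hs2, hXr1]
  have hrp : ∀ a b : ℝ, a ≤ b → (X : ℝ) ^ a ≤ (X : ℝ) ^ b := fun a b hab =>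
    Real.rpow_le_rpow_of_exponent_le hXr1 hab
  have hadd : ∀ a b : ℝ, (X : ℝ) ^ a * (X : ℝ) ^ b = (X : ℝ) ^ (a + b) := fun a b =>
    (Real.rpow_add hX0 a b).symm
  have hpos : ∀ a : ℝ, 0 < (X : ℝ) ^ a := fun a => Real.rpow_pos_of_pos hX0 a
  have hge1 : ∀ a : ℝ, 0 ≤ a → 1 ≤ (X : ℝ) ^ a := fun a ha => Real.one_le_rpow hXr1 ha
  have hX1' : (X : ℝ) ^ (1 : ℝ) = X := Real.rpow_one _
  have hh0 : (0 : ℝ) < h := lt_of_lt_of_le (hpos _) hh1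
  have hh1' : 1 ≤ h := by
    have : 0 < h := by exact_mod_cast hh0
    omega
  have hhr1 : (1 : ℝ) ≤ h := by exact_mod_cast hh1'
  set N : ℕ := 2 ^ 14 * X with hN
  have hNr : (N : ℝ) = 2 ^ 14 * X := by rw [hN]; push_cast; ring
  set K : ℝ := (X : ℝ) ^ (2 * s) with hK
  have hK0 : 0 < K := hpos _
  -- parameters
  set η : ℝ := 50 * s with hη
  set σ : ℝ := h / X * (X : ℝ) ^ (-η) with hσ
  set σ' : ℝ := (X : ℝ) ^ (-(7 / 50) - η) with hσ'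
  set Λ : ℝ := Real.log X with hΛ
  set T1 : ℝ := (X : ℝ) ^ (7 / 50 : ℝ) with hT1
  set T : ℝ := X / h * (X : ℝ) ^ (100 * s) with hT
  have hσ0 : 0 < σ := by (clear * - hX1 hh1'; positivity)
  have hσ'0 : 0 < σ' := hpos _
  have hhX : (h : ℝ) / X ≤ (X : ℝ) ^ (-(3 / 5) : ℝ) := by
    rw [div_le_iff₀ hX0]
    calc (h : ℝ) ≤ (X : ℝ) ^ (2 / 5 : ℝ) := hh2
      _ = (X : ℝ) ^ (-(3 / 5) : ℝ) * (X : ℝ) ^ (1 : ℝ) := by rw [hadd]; norm_num
      _ = _ := by rw [hX1']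
  have hXh : (X : ℝ) ^ (3 / 5 : ℝ) ≤ X / h := by
    rw [le_div_iff₀ hh0]
    calc (X : ℝ) ^ (3 / 5 : ℝ) * h ≤ (X : ℝ) ^ (3 / 5 : ℝ) * (X : ℝ) ^ (2 / 5 : ℝ) :=
          mul_le_mul_of_nonneg_left hh2 (hpos _).le
      _ = X := by rw [hadd]; norm_num
  have hσσ : σ ≤ σ' := by
    calc σ ≤ (X : ℝ) ^ (-(3 / 5) : ℝ) * (X : ℝ) ^ (-η) :=
          mul_le_mul_of_nonneg_right hhX (hpos _).le
      _ = (X : ℝ) ^ (-(3 / 5) + -η) := hadd _ _
      _ ≤ σ' := hrp _ _ (by linarith only [hspos, hs2])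
  have hT1pos : 0 < T1 := hpos _
  have hT1T : T1 ≤ T := by
    calc T1 ≤ (X : ℝ) ^ (3 / 5 : ℝ) := hrp _ _ (by norm_num)
      _ ≤ X / h := hXh
      _ ≤ X / h * (X : ℝ) ^ (100 * s) := le_mul_of_one_le_right (by (clear * - hX1 hh1'; positivity))
          (hge1 _ (by (clear * - hspos; positivity)))
  obtain ⟨hint, hgd⟩ := gauss_diff (Icc 1 N) (fun n hn => (Finset.mem_Icc.1 hn).1) c σ σ' T1 T
    hσ0 hσσ hT1pos hT1T
  -- the mean value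
  have hI0 : ∫ t in (-T1)..T1, ‖∑ n ∈ Icc 1 N, c n * nit n t‖ ^ 2 ≤ (X : ℝ) ^ (2 + 5 * s) := by
    have h1 := hmean N c (-T1) (2 * T1) (by rw [hN]; omega) (by (clear * - hX1; positivity))
    have h2 : -T1 + 2 * T1 = T1 := by ring
    rw [h2] at h1
    refine h1.trans ?_
    have h3 : ∑ n ∈ Icc 1 N, ‖c n‖ ^ 2 ≤ N * K ^ 2 := by
      calc ∑ n ∈ Icc 1 N, ‖c n‖ ^ 2 ≤ ∑ n ∈ Icc 1 N, K ^ 2 :=
            Finset.sum_le_sum fun n hn => pow_le_pow_left₀ (norm_nonneg _) (hcK n hn) 2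
        _ = N * K ^ 2 := by
            rw [Finset.sum_const, Nat.card_Icc, nsmul_eq_mul]
            simp
    have h4 : T1 ≤ X := by
      calc T1 ≤ (X : ℝ) ^ (1 : ℝ) := hrp _ _ (by norm_num)
        _ = X := hX1'
    have h5 : 1 + 2 * T1 + N ≤ 2 ^ 15 * X := by
      rw [hNr]
      linarith only [hspos, hs2, hXr1, h4]
    have h6 : 0 ≤ 1 + 2 * T1 + (N : ℝ) := by (clear * - hX1; positivity)
    calc Cm * (1 + 2 * T1 + N) * ∑ n ∈ Icc 1 N, ‖c n‖ ^ 2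
        ≤ Cm * (2 ^ 15 * X) * (N * K ^ 2) :=
          mul_le_mul (mul_le_mul_of_nonneg_left h5 (by linarith only [hspos, hs2, hCm])) h3
            (Finset.sum_nonneg fun _ _ => by (clear * -; positivity)) (by (clear * - hCm hX1; positivity))
      _ = Cm * 2 ^ 29 * (X ^ 2 * K ^ 2) := by rw [hNr]; ring
      _ ≤ (X : ℝ) ^ s * (X ^ 2 * K ^ 2) := by
          refine mul_le_mul_of_nonneg_right ?_ (by (clear * - hX1; positivity))
          refine le_trans ?_ ev3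
          have : (0 : ℝ) ≤ Cm := by linarith only [hspos, hs2, hCm]
          nlinarith only [hspos, hs2, hCm]
      _ = (X : ℝ) ^ (2 + 5 * s) := by
          rw [hK, ← Real.rpow_natCast (X : ℝ) 2, ← Real.rpow_natCast ((X : ℝ) ^ (2 * s)) 2,
            ← Real.rpow_mul hX0.le, hadd, hadd]
          congr 1
          push_cast
          ring
  -- the third term
  have hσT : σ ^ 2 * T ^ 2 = (X : ℝ) ^ (100 * s) := by
    have h1 : σ * T = (X : ℝ) ^ η := by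
      calc σ * T = (h / X * (X / h)) * ((X : ℝ) ^ (-η) * (X : ℝ) ^ (100 * s)) := by
            rw [hσ, hT]; ring
        _ = (X : ℝ) ^ η := by
            rw [div_mul_div_cancel₀ hX0.ne', div_self hh0.ne', one_mul, hadd]
            congr 1
            rw [hη]
            ring
    rw [← mul_pow, h1, ← Real.rpow_natCast, ← Real.rpow_mul hX0.le]
    congr 1
    rw [hη]
    push_cast
    ring
  have h3rd : (∑ n ∈ Icc 1 N, ‖c n‖) ^ 2 * (Real.exp (-(σ ^ 2 * T ^ 2 / 2)) / σ) ≤ 1 := by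
    have h1 : ∑ n ∈ Icc 1 N, ‖c n‖ ≤ N * K := by
      calc ∑ n ∈ Icc 1 N, ‖c n‖ ≤ ∑ n ∈ Icc 1 N, K := Finset.sum_le_sum fun n hn => hcK n hn
        _ = N * K := by
            rw [Finset.sum_const, Nat.card_Icc, nsmul_eq_mul]
            simp
    have h2 : (∑ n ∈ Icc 1 N, ‖c n‖) ^ 2 ≤ (N * K) ^ 2 :=
      pow_le_pow_left₀ (Finset.sum_nonneg fun _ _ => norm_nonneg _) h1 2
    have h3 : 1 / σ ≤ (X : ℝ) ^ (1 + η) := by
      rw [div_le_iff₀ hσ0, hσ]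
      calc (1 : ℝ) ≤ h := hhr1
        _ = (X : ℝ) ^ (1 : ℝ) * (h / X) := by rw [hX1', mul_div_cancel₀ _ hX0.ne']
        _ = (X : ℝ) ^ (1 + η) * (h / X * (X : ℝ) ^ (-η)) := by
            rw [← hadd 1 η]
            have : (X : ℝ) ^ η * (X : ℝ) ^ (-η) = 1 := by
              rw [hadd, add_neg_cancel, Real.rpow_zero]
            linear_combination (-(X : ℝ) ^ (1 : ℝ) * (h / X)) * this
    rw [hσT]
    set E : ℝ := Real.exp (-((X : ℝ) ^ (100 * s) / 2)) with hE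
    have hE0 : 0 < E := Real.exp_pos _
    calc (∑ n ∈ Icc 1 N, ‖c n‖) ^ 2 * (E / σ) = (∑ n ∈ Icc 1 N, ‖c n‖) ^ 2 * (E * (1 / σ)) := by
          ring
      _ ≤ (N * K) ^ 2 * (E * (X : ℝ) ^ (1 + η)) :=
          mul_le_mul h2 (mul_le_mul_of_nonneg_left h3 hE0.le) (by (clear * - hX1 hh1'; positivity)) (by (clear * - hX1; positivity))
      _ = 2 ^ 28 * ((X : ℝ) ^ 2 * K ^ 2 * (X : ℝ) ^ (1 + η)) * E := by rw [hNr]; ring
      _ ≤ 2 ^ 28 * (X : ℝ) ^ (4 : ℝ) * E := by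
          refine mul_le_mul_of_nonneg_right (mul_le_mul_of_nonneg_left ?_ (by (clear * -; positivity))) hE0.le
          rw [hK, ← Real.rpow_natCast (X : ℝ) 2, ← Real.rpow_natCast ((X : ℝ) ^ (2 * s)) 2,
            ← Real.rpow_mul hX0.le, hadd, hadd]
          refine hrp _ _ ?_
          rw [hη]
          push_cast
          linarith only [hspos, hs2]
      _ ≤ 1 := ev4
  -- the first term
  have h1st : (σ' * T1) ^ 4 * (∫ t in (-T1)..T1, ‖∑ n ∈ Icc 1 N, c n * nit n t‖ ^ 2) ≤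
      (X : ℝ) ^ (2 - 99 * s) := by
    have h1 : (σ' * T1) ^ 4 = (X : ℝ) ^ (-(200 * s)) := by
      rw [hσ', hT1, hadd, ← Real.rpow_natCast, ← Real.rpow_mul hX0.le]
      congr 1
      rw [hη]
      push_cast
      ring
    rw [h1]
    calc _ ≤ (X : ℝ) ^ (-(200 * s)) * (X : ℝ) ^ (2 + 5 * s) :=
          mul_le_mul_of_nonneg_left hI0 (hpos _).le
      _ = (X : ℝ) ^ (-(200 * s) + (2 + 5 * s)) := hadd _ _
      _ ≤ (X : ℝ) ^ (2 - 99 * s) := hrp _ _ (by linarith only [hspos])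
  have hone : (1 : ℝ) ≤ (X : ℝ) ^ (2 - 99 * s) := hge1 _ (by linarith only [hspos, hs2])
  have hInt : ∫ v : ℝ, ‖∑ n ∈ Icc 1 N, c n *
      ((gs σ (v - Real.log n) - gs σ' (v - Real.log n) : ℝ) : ℂ)‖ ^ 2 ≤
      2 * M + 2 * (X : ℝ) ^ (2 - 99 * s) := by linarith only [hI1, hI2, hgd, h3rd, h1st, hone]
  -- the windows
  have hY0 : (X : ℝ) ^ (17 / 20 : ℝ) ≤ YY X := Nat.le_ceil _
  have hY1 : (YY X : ℝ) ≤ 2 * (X : ℝ) ^ (17 / 20 : ℝ) := by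
    have h1 : (YY X : ℝ) < (X : ℝ) ^ (17 / 20 : ℝ) + 1 := Nat.ceil_lt_add_one (hpos _).le
    have h2 := hge1 (17 / 20) (by norm_num)
    linarith only [h1, h2]
  have hhY : h ≤ YY X := by
    have h1 : (h : ℝ) ≤ YY X := (hh2.trans (hrp _ _ (by norm_num))).trans hY0
    exact_mod_cast h1
  have hYX : YY X ≤ X := by
    refine Nat.ceil_le.2 ?_
    calc (X : ℝ) ^ (17 / 20 : ℝ) ≤ (X : ℝ) ^ (1 : ℝ) := hrp _ _ (by norm_num)
      _ = X := hX1'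
  have hXσ' : 1 ≤ X * σ' := by
    calc (1 : ℝ) ≤ (X : ℝ) ^ (1 + (-(7 / 50) - η)) := hge1 _ (by rw [hη]; linarith only [hspos, hs2])
      _ = (X : ℝ) ^ (1 : ℝ) * σ' := (hadd _ _).symm
      _ = X * σ' := by rw [hX1']
  have hΛ1 : 1 ≤ Λ := by linarith only [hspos, hs2, ev5]
  have hσΛ : σ' * Λ ≤ 1 := by
    calc σ' * Λ ≤ σ' * (X : ℝ) ^ s := mul_le_mul_of_nonneg_left ev2 hσ'0.le
      _ = (X : ℝ) ^ ((-(7 / 50) - η) + s) := hadd _ _
      _ ≤ (X : ℝ) ^ (0 : ℝ) := hrp _ _ (by rw [hη]; linarith only [hspos, hs2])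
      _ = 1 := Real.rpow_zero _
  have hfin := hwin X h (YY X) N c K σ σ' Λ hX1 hh1' hhY hYX (by rw [hN]; omega) hσ0 hσσ hXσ' hΛ1
    hσΛ hK0.le hcK hint
  refine hfin.trans ?_
  -- the error
  have hNexp : (N : ℝ) * Real.exp (-(Λ ^ 2 / 2)) ≤ 1 := by
    have h1 : (N : ℝ) ≤ Real.exp (14 + Λ) := by
      rw [Real.exp_add, hΛ, Real.exp_log hX0, hNr]
      refine mul_le_mul_of_nonneg_right ?_ hX0.le
      have h2 : (2 : ℝ) ≤ Real.exp 1 := by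
        have := Real.add_one_le_exp (1 : ℝ)
        linarith only [this]
      calc (2 : ℝ) ^ 14 ≤ (Real.exp 1) ^ 14 := pow_le_pow_left₀ (by norm_num) h2 14
        _ = Real.exp 14 := by rw [← Real.exp_nat_mul]; norm_num
    calc (N : ℝ) * Real.exp (-(Λ ^ 2 / 2)) ≤ Real.exp (14 + Λ) * Real.exp (-(Λ ^ 2 / 2)) :=
          mul_le_mul_of_nonneg_right h1 (Real.exp_pos _).le
      _ = Real.exp (14 + Λ + -(Λ ^ 2 / 2)) := (Real.exp_add _ _).symm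
      _ ≤ Real.exp 0 := Real.exp_le_exp.2 (by nlinarith only [hspos, hs2, ev5])
      _ = 1 := Real.exp_zero
  have hE : (1 + X * σ * Λ + N * Real.exp (-(Λ ^ 2 / 2))) / h + YY X / (X * σ') ≤
      5 * (X : ℝ) ^ (-(49 * s)) := by
    have h1 : 1 / (h : ℝ) ≤ (X : ℝ) ^ (-(49 * s)) := by
      rw [div_le_iff₀ hh0]
      calc (1 : ℝ) ≤ (X : ℝ) ^ (-(49 * s) + (1 / 10)) := hge1 _ (by linarith only [hspos, hs2])
        _ = (X : ℝ) ^ (-(49 * s)) * (X : ℝ) ^ (1 / 10) := (hadd _ _).symm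
        _ ≤ (X : ℝ) ^ (-(49 * s)) * h := mul_le_mul_of_nonneg_left hh1 (hpos _).le
    have h2 : X * σ * Λ / h ≤ (X : ℝ) ^ (-(49 * s)) := by
      have h3 : X * σ * Λ / h = (X : ℝ) ^ (-η) * Λ := by
        rw [hσ]
        field_simp
      rw [h3]
      calc (X : ℝ) ^ (-η) * Λ ≤ (X : ℝ) ^ (-η) * (X : ℝ) ^ s :=
            mul_le_mul_of_nonneg_left ev2 (hpos _).le
        _ = (X : ℝ) ^ (-η + s) := hadd _ _
        _ = (X : ℝ) ^ (-(49 * s)) := by congr 1; rw [hη]; ring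
    have h4 : (N * Real.exp (-(Λ ^ 2 / 2))) / h ≤ (X : ℝ) ^ (-(49 * s)) :=
      (div_le_div_of_nonneg_right hNexp hh0.le).trans h1
    have h5 : YY X / (X * σ') ≤ 2 * (X : ℝ) ^ (-(49 * s)) := by
      rw [div_le_iff₀ (by (clear * - hX1; positivity))]
      calc (YY X : ℝ) ≤ 2 * (X : ℝ) ^ (17 / 20 : ℝ) := hY1
        _ ≤ 2 * (X : ℝ) ^ (-(49 * s) + (1 + (-(7 / 50) - η))) :=
            mul_le_mul_of_nonneg_left (hrp _ _ (by rw [hη]; linarith only [hspos, hs2])) zero_le_two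
        _ = 2 * (X : ℝ) ^ (-(49 * s)) * (X * σ') := by
            rw [← hadd, ← hadd, hX1']
            ring
    have h6 : (1 + X * σ * Λ + N * Real.exp (-(Λ ^ 2 / 2))) / h =
        1 / h + X * σ * Λ / h + (N * Real.exp (-(Λ ^ 2 / 2))) / h := by ring
    rw [h6]
    linarith only [h1, h2, h4, h5]
  have hE0 : 0 ≤ (1 + X * σ * Λ + N * Real.exp (-(Λ ^ 2 / 2))) / h + YY X / (X * σ') := by
    (clear * - hX1 hh1' ev5; positivity)
  have hA1 : 1 / X * (∫ v : ℝ, ‖∑ n ∈ Icc 1 N, c n *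
      ((gs σ (v - Real.log n) - gs σ' (v - Real.log n) : ℝ) : ℂ)‖ ^ 2) ≤
      2 * (M / X) + 2 * (X : ℝ) ^ (1 - 94 * s) := by
    rw [one_div, inv_mul_le_iff₀ hX0]
    refine hInt.trans ?_
    have h1 : X * (2 * (M / X) + 2 * (X : ℝ) ^ (1 - 94 * s)) =
        2 * M + 2 * (X : ℝ) ^ (1 + (1 - 94 * s)) := by
      rw [← hadd, hX1']
      field_simp
    rw [h1]
    have h2 := hrp (2 - 99 * s) (1 + (1 - 94 * s)) (by linarith only [hspos])
    linarith only [h2]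
  have hA2 : X * K ^ 2 * ((1 + X * σ * Λ + N * Real.exp (-(Λ ^ 2 / 2))) / h +
      YY X / (X * σ')) ^ 2 ≤ 25 * (X : ℝ) ^ (1 - 94 * s) := by
    calc _ ≤ X * K ^ 2 * (5 * (X : ℝ) ^ (-(49 * s))) ^ 2 :=
          mul_le_mul_of_nonneg_left (pow_le_pow_left₀ hE0 hE 2) (by (clear * - hX1; positivity))
      _ = 25 * ((X : ℝ) ^ (1 : ℝ) * (X : ℝ) ^ (4 * s) * (X : ℝ) ^ (-(98 * s))) := by
          rw [hX1']
          have h1 : K ^ 2 = (X : ℝ) ^ (4 * s) := by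
            rw [hK, ← Real.rpow_natCast, ← Real.rpow_mul hX0.le]
            congr 1
            push_cast
            ring
          have h2 : ((X : ℝ) ^ (-(49 * s))) ^ 2 = (X : ℝ) ^ (-(98 * s)) := by
            rw [← Real.rpow_natCast, ← Real.rpow_mul hX0.le]
            congr 1
            push_cast
            ring
          rw [mul_pow, h1, h2]
          ring
      _ = 25 * (X : ℝ) ^ (1 - 94 * s) := by
          rw [hadd, hadd]
          congr 2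
          ring
  calc _ ≤ Cw * (2 * (M / X) + 2 * (X : ℝ) ^ (1 - 94 * s) + 25 * (X : ℝ) ^ (1 - 94 * s)) :=
        mul_le_mul_of_nonneg_left (add_le_add hA1 hA2) (by linarith only [hspos, hs2, hCw])
    _ = 2 * Cw * (M / X) + Cw * 27 * (X : ℝ) ^ (1 - 94 * s) := by ring
    _ ≤ 2 * Cw * (M / X) + (X : ℝ) ^ s * (X : ℝ) ^ (1 - 94 * s) :=
        add_le_add le_rfl (mul_le_mul_of_nonneg_right ev6 (hpos _).le)
    _ = 2 * Cw * (M / X) + (X : ℝ) ^ (s + (1 - 94 * s)) := by rw [hadd]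
    _ ≤ 2 * Cw * (M / X) + (X : ℝ) ^ (1 + -s) := add_le_add le_rfl (hrp _ _ (by linarith only [hspos]))
    _ = 2 * Cw * (M / X) + X * (X : ℝ) ^ (-s) := by rw [← hadd, hX1']

lemma continuous_nit {n : ℕ} (hn : 1 ≤ n) : Continuous fun t : ℝ => nit n t := by
  unfold nit
  have h : ((n : ℝ) : ℂ) ≠ 0 := by
    have : n ≠ 0 := by omega
    exact_mod_cast this
  exact Continuous.const_cpow (by fun_prop) (Or.inl h)

/-- one interval of the integral of a product -/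
lemma mid {q : ℕ} (χ : DirichletCharacter ℂ q) (z y : ℕ) (e : Fin 12 → ℕ) (i : Fin 12)
    (N : ℕ) {Cm a V : ℝ} {k : ℕ} (hCm : 1 ≤ Cm)
    (hmean : ∀ (N : ℕ) (a : ℕ → ℂ) (t0 T : ℝ), 1 ≤ N → 0 ≤ T →
      ∫ t in t0..(t0 + T), ‖∑ n ∈ Icc 1 N, a n * nit n t‖ ^ 2 ≤
        Cm * (1 + T + N) * ∑ n ∈ Icc 1 N, ‖a n‖ ^ 2)
    (hk : ∀ D : ℕ, ∑ d ∈ Icc 1 D, (d.divisors.card : ℝ) ^ 24 ≤ D * (1 + Real.log D) ^ k)
    (hZN : ∏ j, 2 ^ e j ≤ N) (ha : 0 ≤ a) {t0 t1 : ℝ} (h01 : t0 ≤ t1)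
    (hV : t1 - t0 ≤ ((∏ j ∈ univ.erase i, 2 ^ e j : ℕ) : ℝ))
    (hsup : ∀ t, t0 ≤ t → t ≤ t1 →
      ‖∑ n ∈ Icc 1 (2 ^ e i), gcl z q y e i n * (χ (n : ZMod q) * nit n t)‖ ≤ a)
    (hlog : 1 + Real.log ((∏ j ∈ univ.erase i, 2 ^ e j : ℕ) : ℝ) ≤ V) :
    ∫ t in t0..t1, ‖∑ n ∈ Icc 1 N, Fcl z q y e n * χ (n : ZMod q) * nit n t‖ ^ 2 ≤
      a ^ 2 * (3 * Cm * ((∏ j ∈ univ.erase i, 2 ^ e j : ℕ) : ℝ) ^ 2 * V ^ k) := by
  set N1 : ℕ := ∏ j ∈ univ.erase i, 2 ^ e j with hN1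
  have hN1pos : 1 ≤ N1 := Nat.one_le_iff_ne_zero.2 (Finset.prod_ne_zero_iff.2 fun j _ => by positivity)
  have hN1r : (1 : ℝ) ≤ N1 := by exact_mod_cast hN1pos
  set b : ArithmeticFunction ℂ := ∏ j ∈ univ.erase i, gcl z q y e j with hb
  have e1 : ∀ t, ∑ n ∈ Icc 1 N, Fcl z q y e n * χ (n : ZMod q) * nit n t =
      (∑ n ∈ Icc 1 N1, b n * (χ (n : ZMod q) * nit n t)) *
        ∑ n ∈ Icc 1 (2 ^ e i), gcl z q y e i n * (χ (n : ZMod q) * nit n t) := by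
    intro t
    have h1 := dp_mul b (gcl z q y e i) (fun n => χ (n : ZMod q) * nit n t)
      (fun m n hm hn => twist_mul χ t m n hm hn) N1 (2 ^ e i) N
      (fun n hn => Fcl_le z q y e (univ.erase i) n hn)
      (fun n hn => (gcl_supp z q y e i n hn).2.1)
      (by rw [hN1, prod_erase_mul _ _ (mem_univ i)]; exact hZN)
    rw [← h1, Fcl_split z q y e i]
    exact Finset.sum_congr rfl fun n _ => mul_assoc _ _ _
  have hc1 : Continuous fun t : ℝ =>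
      ‖∑ n ∈ Icc 1 N, Fcl z q y e n * χ (n : ZMod q) * nit n t‖ ^ 2 := by
    refine Continuous.pow (Continuous.norm ?_) 2
    exact continuous_finsetSum _ fun n hn => continuous_const.mul
      (continuous_nit (Finset.mem_Icc.1 hn).1)
  have hc2 : Continuous fun t : ℝ =>
      ‖∑ n ∈ Icc 1 N1, (b n * χ (n : ZMod q)) * nit n t‖ ^ 2 := by
    refine Continuous.pow (Continuous.norm ?_) 2
    exact continuous_finsetSum _ fun n hn => continuous_const.mul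
      (continuous_nit (Finset.mem_Icc.1 hn).1)
  have h2 : ∫ t in t0..t1, ‖∑ n ∈ Icc 1 N, Fcl z q y e n * χ (n : ZMod q) * nit n t‖ ^ 2 ≤
      ∫ t in t0..t1, a ^ 2 * ‖∑ n ∈ Icc 1 N1, (b n * χ (n : ZMod q)) * nit n t‖ ^ 2 := by
    refine intervalIntegral.integral_mono_on h01 (hc1.intervalIntegrable _ _)
      ((continuous_const.mul hc2).intervalIntegrable _ _) fun t ht => ?_
    rw [e1, norm_mul, mul_pow, mul_comm]
    have h3 : ∑ n ∈ Icc 1 N1, b n * (χ (n : ZMod q) * nit n t) =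
        ∑ n ∈ Icc 1 N1, (b n * χ (n : ZMod q)) * nit n t :=
      Finset.sum_congr rfl fun n _ => (mul_assoc _ _ _).symm
    rw [h3]
    exact mul_le_mul_of_nonneg_right
      (pow_le_pow_left₀ (norm_nonneg _) (hsup t ht.1 ht.2) 2) (by positivity)
  refine h2.trans ?_
  rw [intervalIntegral.integral_const_mul]
  refine mul_le_mul_of_nonneg_left ?_ (by positivity)
  have h4 := hmean N1 (fun n => b n * χ (n : ZMod q)) t0 (t1 - t0) hN1pos (by linarith only [h01])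
  rw [add_sub_cancel] at h4
  refine h4.trans ?_
  have h5 : ∑ n ∈ Icc 1 N1, ‖b n * χ (n : ZMod q)‖ ^ 2 ≤ N1 * V ^ k := by
    calc ∑ n ∈ Icc 1 N1, ‖b n * χ (n : ZMod q)‖ ^ 2
        ≤ ∑ n ∈ Icc 1 N1, (n.divisors.card : ℝ) ^ 24 := by
          refine Finset.sum_le_sum fun n _ => ?_
          rw [norm_mul]
          have h6 : ‖b n‖ * ‖χ (n : ZMod q)‖ ≤ (n.divisors.card : ℝ) ^ 12 * 1 :=
            mul_le_mul (Fcl_bound z q y e _ n) (χ.norm_le_one _) (norm_nonneg _) (by positivity)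
          rw [mul_one] at h6
          refine (pow_le_pow_left₀ (by positivity) h6 2).trans (le_of_eq ?_)
          rw [← pow_mul]
      _ ≤ N1 * (1 + Real.log N1) ^ k := hk N1
      _ ≤ N1 * V ^ k := by
          refine mul_le_mul_of_nonneg_left (pow_le_pow_left₀ ?_ hlog k) (by positivity)
          have := Real.log_nonneg hN1r
          linarith only [this]
  have h7 : 1 + (t1 - t0) + N1 ≤ 3 * N1 := by linarith only [hV, hN1r]
  have h8 : 0 ≤ ∑ n ∈ Icc 1 N1, ‖b n * χ (n : ZMod q)‖ ^ 2 :=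
    Finset.sum_nonneg fun _ _ => by positivity
  calc Cm * (1 + (t1 - t0) + N1) * ∑ n ∈ Icc 1 N1, ‖b n * χ (n : ZMod q)‖ ^ 2
      ≤ Cm * (3 * N1) * (N1 * V ^ k) :=
        mul_le_mul (mul_le_mul_of_nonneg_left h7 (by linarith only [hCm])) h5 h8 (by positivity)
    _ = 3 * Cm * (N1 : ℝ) ^ 2 * V ^ k := by ring

end ClsTwoMajAux

open ClsTwoMajAux in
theorem cls_two_maj (A B : ℕ) (δ : ℝ) (hδ : 0 < δ) : ∀ᶠ X : ℕ in atTop, ∀ (q : ℕ) [NeZero q] (χ : DirichletCharacter ℂ q)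
    (h z y : ℕ) (e : Fin 12 → ℕ) (i : Fin 12), (q : ℝ) ≤ Real.log X ^ A → (X : ℝ) ^ (1 / 10 : ℝ) ≤ h →
    (h : ℝ) ≤ (X : ℝ) ^ (2 / 5 : ℝ) → (X : ℝ) ^ δ ≤ (2 : ℝ) ^ e i → (2 : ℝ) ^ e i ≤ h * (X : ℝ) ^ (-δ) →
    ∑ u ∈ Icc X (2 * X), ‖(∑ n ∈ Ioc u (u + h), Fcl z q y e n * χ (n : ZMod q)) / (h : ℂ) -
        (∑ n ∈ Ioc u (u + YY X), Fcl z q y e n * χ (n : ZMod q)) / (YY X : ℂ)‖ ^ 2 ≤
      X / Real.log X ^ B := by
  set s : ℝ := min δ (1 / 1000) / 100 with hs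
  have hspos : 0 < s := by
    rw [hs]
    have : 0 < min δ (1 / 1000) := lt_min hδ (by norm_num)
    positivity
  have hs1 : 100 * s ≤ δ := by
    rw [hs]
    have := min_le_left δ (1 / 1000)
    linarith
  have hs2 : 100 * s ≤ 1 / 1000 := by
    rw [hs]
    have := min_le_right δ (1 / 1000)
    linarith
  obtain ⟨Cw, hCw, hcore⟩ := win_core s hspos hs2
  obtain ⟨Cm, hCm, hmean⟩ := mean_value
  obtain ⟨Ct, hCt, htau⟩ := tau_small (s / 12) (by positivity)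
  obtain ⟨k, hk⟩ : ∃ k : ℕ, ∀ D : ℕ, ∑ d ∈ Icc 1 D, (d.divisors.card : ℝ) ^ 24 ≤
      D * (1 + Real.log D) ^ k := ⟨2 ^ 24, fun D => sum_tau_pow 24 D⟩
  have hsup := sup_cell A (B + k + 5) δ hδ
  have hXat : Tendsto (fun X : ℕ => (X : ℝ)) atTop atTop := tendsto_natCast_atTop_atTop
  have hLat : Tendsto (fun X : ℕ => Real.log (X : ℝ)) atTop atTop :=
    Real.tendsto_log_atTop.comp hXat
  have ev1 : ∀ᶠ X : ℕ in atTop, Ct ^ 12 * ((2 : ℝ) ^ 14) ^ s ≤ (X : ℝ) ^ s :=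
    ((tendsto_rpow_atTop hspos).comp hXat).eventually_ge_atTop _
  have ev2 : ∀ᶠ X : ℕ in atTop, (16 : ℝ) ≤ Real.log X := hLat.eventually_ge_atTop _
  have ev3 : ∀ᶠ X : ℕ in atTop,
      2 * (Cw * (3 * Cm * 2 ^ 28 * 2 ^ k)) ≤ Real.log X := hLat.eventually_ge_atTop _
  have ev4 : ∀ᶠ X : ℕ in atTop, 2 * Real.log X ^ B ≤ (X : ℝ) ^ s := by
    have h1 := (isLittleO_log_rpow_rpow_atTop (B : ℝ) hspos).bound
      (show (0 : ℝ) < 1 / 2 by norm_num)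
    filter_upwards [hXat.eventually h1, eventually_ge_atTop 1, ev2] with X hX hX1 hX2
    rw [Real.rpow_natCast, Real.norm_eq_abs, Real.norm_eq_abs, abs_of_nonneg (by positivity),
      abs_of_nonneg (Real.rpow_nonneg (Nat.cast_nonneg _) _)] at hX
    linarith only [hX]
  filter_upwards [hcore, hsup, ev1, ev2, ev3, ev4, eventually_ge_atTop 1] with X hcore hsup ev1
    ev2 ev3 ev4 hX1
  intro q _ χ h z y e i hq hh1 hh2 hei1 hei2
  have hXr1 : (1 : ℝ) ≤ X := by exact_mod_cast hX1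
  have hX0 : (0 : ℝ) < X := by linarith only [hspos, hs2, hXr1]
  have hrp : ∀ a b : ℝ, a ≤ b → (X : ℝ) ^ a ≤ (X : ℝ) ^ b := fun a b hab =>
    Real.rpow_le_rpow_of_exponent_le hXr1 hab
  have hadd : ∀ a b : ℝ, (X : ℝ) ^ a * (X : ℝ) ^ b = (X : ℝ) ^ (a + b) := fun a b =>
    (Real.rpow_add hX0 a b).symm
  have hpos : ∀ a : ℝ, 0 < (X : ℝ) ^ a := fun a => Real.rpow_pos_of_pos hX0 a
  have hge1 : ∀ a : ℝ, 0 ≤ a → 1 ≤ (X : ℝ) ^ a := fun a ha => Real.one_le_rpow hXr1 ha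
  have hX1' : (X : ℝ) ^ (1 : ℝ) = X := Real.rpow_one _
  have hh0 : (0 : ℝ) < h := lt_of_lt_of_le (hpos _) hh1
  have hL0 : 0 < Real.log X := by linarith only [hspos, hs2, ev2]
  have hhX : h ≤ X := by
    have : (h : ℝ) ≤ X := by
      calc (h : ℝ) ≤ (X : ℝ) ^ (2 / 5 : ℝ) := hh2
        _ ≤ (X : ℝ) ^ (1 : ℝ) := hrp _ _ (by norm_num)
        _ = X := hX1'
    exact_mod_cast this
  have hYX : YY X ≤ X := by
    refine Nat.ceil_le.2 ?_
    calc (X : ℝ) ^ (17 / 20 : ℝ) ≤ (X : ℝ) ^ (1 : ℝ) := hrp _ _ (by norm_num)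
      _ = X := hX1'
  by_cases hF : ∀ n ∈ Ioc X (4 * X), Fcl z q y e n = 0
  · -- trivial case
    have h1 : ∀ u ∈ Icc X (2 * X), ‖(∑ n ∈ Ioc u (u + h), Fcl z q y e n * χ (n : ZMod q)) / (h : ℂ) -
        (∑ n ∈ Ioc u (u + YY X), Fcl z q y e n * χ (n : ZMod q)) / (YY X : ℂ)‖ ^ 2 = 0 := by
      intro u hu
      rw [Finset.mem_Icc] at hu
      have h2 : ∀ H, H ≤ X → ∑ n ∈ Ioc u (u + H), Fcl z q y e n * χ (n : ZMod q) = 0 := by
        intro H hH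
        refine Finset.sum_eq_zero fun n hn => ?_
        rw [Finset.mem_Ioc] at hn
        rw [hF n (by rw [Finset.mem_Ioc]; omega), zero_mul]
      rw [h2 h hhX, h2 _ hYX, zero_div, zero_div, sub_zero, norm_zero]
      norm_num
    rw [Finset.sum_eq_zero h1]
    (clear * - ev2 hX1; positivity)
  push Not at hF
  obtain ⟨n0, hn0, hn0'⟩ := hF
  rw [Finset.mem_Ioc] at hn0
  obtain ⟨hZ1, hZ2⟩ := Fcl_supp z q y e n0 hn0'
  set N : ℕ := 2 ^ 14 * X with hN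
  have hZN : ∏ j, 2 ^ e j ≤ N := by
    refine hZ2.trans ?_
    rw [hN]
    omega
  have hXZ : X < ∏ j, 2 ^ e j := by omega
  set N1 : ℕ := ∏ j ∈ univ.erase i, 2 ^ e j with hN1
  have hN1Z : N1 * 2 ^ e i = ∏ j, 2 ^ e j := prod_erase_mul _ _ (mem_univ i)
  have hN1Zr : (N1 : ℝ) * 2 ^ e i ≤ 2 ^ 14 * X := by
    have h1 : N1 * 2 ^ e i ≤ 2 ^ 14 * X := by rw [hN1Z]; exact hZN
    exact_mod_cast h1
  have hXN1 : (X : ℝ) < N1 * 2 ^ e i := by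
    have h1 : X < N1 * 2 ^ e i := by rw [hN1Z]; exact hXZ
    exact_mod_cast h1
  have hN1pos : 1 ≤ N1 := Nat.one_le_iff_ne_zero.2 (Finset.prod_ne_zero_iff.2 fun j _ => by (clear * -; positivity))
  have hN1r : (1 : ℝ) ≤ N1 := by exact_mod_cast hN1pos
  have he0 : (0 : ℝ) < 2 ^ e i := by (clear * -; positivity)
  set T : ℝ := X / h * (X : ℝ) ^ (100 * s) with hT
  have hT0 : 0 < T := by (clear * - hX1 hh0; positivity)
  have hTN1 : T ≤ N1 := by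
    have h1 : T * 2 ^ e i ≤ N1 * 2 ^ e i := by
      calc T * 2 ^ e i ≤ T * (h * (X : ℝ) ^ (-δ)) := mul_le_mul_of_nonneg_left hei2 hT0.le
        _ = X * ((X : ℝ) ^ (100 * s) * (X : ℝ) ^ (-δ)) := by
            rw [hT]
            field_simp
        _ = X * (X : ℝ) ^ (100 * s + -δ) := by rw [hadd]
        _ ≤ X * (X : ℝ) ^ (0 : ℝ) :=
            mul_le_mul_of_nonneg_left (hrp _ _ (by linarith only [hs1])) hX0.le
        _ = X := by rw [Real.rpow_zero, mul_one]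
        _ ≤ N1 * 2 ^ e i := hXN1.le
    exact le_of_mul_le_mul_right h1 he0
  have hTX : T ≤ X := by
    calc T = X * ((X : ℝ) ^ (100 * s) / h) := by rw [hT]; ring
      _ ≤ X * 1 := by
          refine mul_le_mul_of_nonneg_left ?_ hX0.le
          rw [div_le_one hh0]
          exact (hrp _ _ (by linarith only [hspos, hs2])).trans hh1
      _ = X := mul_one _
  have heX : (2 : ℝ) ^ e i ≤ (X : ℝ) ^ 2 := by
    calc (2 : ℝ) ^ e i ≤ h * (X : ℝ) ^ (-δ) := hei2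
      _ ≤ h * (X : ℝ) ^ (0 : ℝ) := mul_le_mul_of_nonneg_left (hrp _ _ (by linarith only [hspos, hs1])) hh0.le
      _ = h := by rw [Real.rpow_zero, mul_one]
      _ ≤ X := by exact_mod_cast hhX
      _ ≤ (X : ℝ) ^ 2 := by nlinarith only [hXr1]
  -- the logarithm
  have hlog : 1 + Real.log (N1 : ℝ) ≤ 2 * Real.log X := by
    have h1 : (N1 : ℝ) ≤ 2 ^ 14 * X := by
      refine le_trans ?_ hN1Zr
      have : (1 : ℝ) ≤ 2 ^ e i := one_le_pow₀ (by norm_num)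
      nlinarith only [this]
    have h2 : Real.log N1 ≤ Real.log (2 ^ 14 * X) := Real.log_le_log (by linarith only [hspos, hs2, hN1r]) h1
    rw [Real.log_mul (by (clear * -; positivity)) hX0.ne', Real.log_pow] at h2
    have h3 : Real.log 2 ≤ 1 := by
      have := Real.log_two_lt_d9
      linarith only [hspos, hs2, this]
    push_cast at h2
    linarith only [hspos, hs2, ev2, h2, h3]
  set a : ℝ := (2 : ℝ) ^ e i / Real.log X ^ (B + k + 5) with ha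
  have ha0 : 0 ≤ a := by (clear * - ev2; positivity)
  set M : ℝ := a ^ 2 * (3 * Cm * (N1 : ℝ) ^ 2 * (2 * Real.log X) ^ k) with hM
  have hT1pos : 0 < (X : ℝ) ^ (7 / 50 : ℝ) := hpos _
  have hT1T : (X : ℝ) ^ (7 / 50 : ℝ) ≤ T := by
    calc (X : ℝ) ^ (7 / 50 : ℝ) ≤ (X : ℝ) ^ (3 / 5 : ℝ) := hrp _ _ (by norm_num)
      _ ≤ X / h := by
          rw [le_div_iff₀ hh0]
          calc (X : ℝ) ^ (3 / 5 : ℝ) * h ≤ (X : ℝ) ^ (3 / 5 : ℝ) * (X : ℝ) ^ (2 / 5 : ℝ) :=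
                mul_le_mul_of_nonneg_left hh2 (hpos _).le
            _ = X := by rw [hadd]; norm_num
      _ ≤ T := le_mul_of_one_le_right (by (clear * - hX1 hh0; positivity)) (hge1 _ (by (clear * - hδ; positivity)))
  have hI : ∀ t0 t1 : ℝ, t0 ≤ t1 → t1 - t0 ≤ T →
      (∀ t : ℝ, t0 ≤ t → t ≤ t1 → (X : ℝ) ^ (7 / 50 : ℝ) ≤ |t| ∧ |t| ≤ T) →
      ∫ t in t0..t1, ‖∑ n ∈ Icc 1 N, Fcl z q y e n * χ (n : ZMod q) * nit n t‖ ^ 2 ≤ M := by
    intro t0 t1 h01 hlen ht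
    refine mid χ z y e i N hCm hmean hk hZN ha0 h01 (hlen.trans hTN1) (fun t h2 h3 => ?_) hlog
    obtain ⟨h4, h5⟩ := ht t h2 h3
    exact hsup q χ z y e i t hq hei1 heX h4 (h5.trans hTX)
  have hI1 : ∫ t in ((X : ℝ) ^ (7 / 50 : ℝ))..T,
      ‖∑ n ∈ Icc 1 N, Fcl z q y e n * χ (n : ZMod q) * nit n t‖ ^ 2 ≤ M := by
    refine hI _ _ hT1T (by linarith only [hT1pos]) fun t h2 h3 => ?_
    rw [abs_of_pos (by linarith only [hT1pos, h2])]
    exact ⟨h2, h3⟩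
  have hI2 : ∫ t in (-T)..(-((X : ℝ) ^ (7 / 50 : ℝ))),
      ‖∑ n ∈ Icc 1 N, Fcl z q y e n * χ (n : ZMod q) * nit n t‖ ^ 2 ≤ M := by
    refine hI _ _ (by linarith only [hT1T]) (by linarith only [hT1pos]) fun t h2 h3 => ?_
    rw [abs_of_neg (by linarith only [hT1pos, h3])]
    exact ⟨by linarith only [h3], by linarith only [h2]⟩
  have hcK : ∀ n ∈ Icc 1 N, ‖Fcl z q y e n * χ (n : ZMod q)‖ ≤ (X : ℝ) ^ (2 * s) := by
    intro n hn
    rw [Finset.mem_Icc] at hn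
    rw [norm_mul]
    have h0 : ‖Fcl z q y e n‖ * ‖χ (n : ZMod q)‖ ≤ (n.divisors.card : ℝ) ^ 12 * 1 :=
      mul_le_mul (Fcl_bound z q y e _ n) (χ.norm_le_one _) (norm_nonneg _) (by (clear * -; positivity))
    rw [mul_one] at h0
    refine h0.trans ?_
    have h1 := htau n hn.1
    have hnr : (n : ℝ) ≤ 2 ^ 14 * X := by
      have : n ≤ 2 ^ 14 * X := hn.2
      exact_mod_cast this
    have h2 : (n : ℝ) ^ (s / 12) ≤ (2 ^ 14 * X : ℝ) ^ (s / 12) :=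
      Real.rpow_le_rpow (Nat.cast_nonneg _) hnr (by (clear * - hδ; positivity))
    have h3 : (n.divisors.card : ℝ) ≤ Ct * (2 ^ 14 * X : ℝ) ^ (s / 12) :=
      h1.trans (mul_le_mul_of_nonneg_left h2 (by linarith only [hspos, hs2, hCt]))
    have h4 : (n.divisors.card : ℝ) ^ 12 ≤ (Ct * (2 ^ 14 * X : ℝ) ^ (s / 12)) ^ 12 :=
      pow_le_pow_left₀ (Nat.cast_nonneg _) h3 12
    have h5 : (Ct * (2 ^ 14 * X : ℝ) ^ (s / 12)) ^ 12 =
        Ct ^ 12 * ((2 : ℝ) ^ 14) ^ s * (X : ℝ) ^ s := by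
      rw [mul_pow, ← Real.rpow_natCast ((2 ^ 14 * X : ℝ) ^ (s / 12)), ← Real.rpow_mul (by (clear * - hX1; positivity)),
        Real.mul_rpow (by (clear * -; positivity)) hX0.le]
      have : s / 12 * ((12 : ℕ) : ℝ) = s := by push_cast; ring
      rw [this]
      ring
    calc (n.divisors.card : ℝ) ^ 12 ≤ Ct ^ 12 * ((2 : ℝ) ^ 14) ^ s * (X : ℝ) ^ s :=
          h4.trans h5.le
      _ ≤ (X : ℝ) ^ s * (X : ℝ) ^ s := mul_le_mul_of_nonneg_right ev1 (hpos _).le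
      _ = (X : ℝ) ^ (2 * s) := by rw [hadd]; congr 1; ring
  refine (hcore h (fun n => Fcl z q y e n * χ (n : ZMod q)) M hh1 hh2 hcK hI1 hI2).trans ?_
  -- final estimates
  set L : ℝ := Real.log X with hL
  have hMb : M ≤ 3 * Cm * 2 ^ 28 * 2 ^ k * X ^ 2 / L ^ (B + 1) := by
    have h1 : M = 3 * Cm * 2 ^ k * ((N1 : ℝ) * 2 ^ e i) ^ 2 * (L ^ k / (L ^ (B + k + 5)) ^ 2) := by
      rw [hM, ha, mul_pow (2 : ℝ)]
      ring
    have h2 : ((N1 : ℝ) * 2 ^ e i) ^ 2 ≤ (2 ^ 14 * X) ^ 2 :=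
      pow_le_pow_left₀ (by (clear * -; positivity)) hN1Zr 2
    have hL1 : 1 ≤ L := by linarith only [hspos, hs2, ev2]
    have h3 : L ^ k / (L ^ (B + k + 5)) ^ 2 ≤ 1 / L ^ (B + 1) := by
      rw [div_le_div_iff₀ (by (clear * - ev2; positivity)) (by (clear * - ev2; positivity)), one_mul, ← pow_add, ← pow_mul]
      exact pow_le_pow_right₀ hL1 (by omega)
    rw [h1]
    calc 3 * Cm * 2 ^ k * ((N1 : ℝ) * 2 ^ e i) ^ 2 * (L ^ k / (L ^ (B + k + 5)) ^ 2)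
        ≤ 3 * Cm * 2 ^ k * (2 ^ 14 * X) ^ 2 * (1 / L ^ (B + 1)) := by
          refine mul_le_mul (mul_le_mul_of_nonneg_left h2 (by (clear * - hCm; positivity))) h3 (by (clear * - ev2; positivity))
            (by (clear * - hCm hX1; positivity))
      _ = 3 * Cm * 2 ^ 28 * 2 ^ k * X ^ 2 / L ^ (B + 1) := by ring
  have h1 : Cw * (M / X) ≤ X / L ^ B / 2 := by
    have h2 : M / X ≤ 3 * Cm * 2 ^ 28 * 2 ^ k * X / L ^ (B + 1) := by
      rw [div_le_iff₀ hX0]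
      refine hMb.trans (le_of_eq ?_)
      ring
    calc Cw * (M / X) ≤ Cw * (3 * Cm * 2 ^ 28 * 2 ^ k * X / L ^ (B + 1)) :=
          mul_le_mul_of_nonneg_left h2 (by linarith only [hspos, hs2, hCw])
      _ = (2 * (Cw * (3 * Cm * 2 ^ 28 * 2 ^ k))) * (X / L ^ (B + 1) / 2) := by ring
      _ ≤ L * (X / L ^ (B + 1) / 2) := mul_le_mul_of_nonneg_right ev3 (by (clear * - hX1 ev2; positivity))
      _ = X / L ^ B / 2 := by
          rw [pow_succ]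
          field_simp
  have h2 : X * (X : ℝ) ^ (-s) ≤ X / L ^ B / 2 := by
    rw [Real.rpow_neg hX0.le, ← div_eq_mul_inv, div_div]
    refine div_le_div_of_nonneg_left hX0.le (by (clear * - ev2; positivity)) ?_
    linarith only [ev4]
  linarith only [h1, h2]

end Pool.Agent.VM
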