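import Pool.Agent.Lib.VM.VarDiff
import Pool.Agent.Lib.VL.VarChi3

/-!
# Module VarChi6: variance of `χ Λ` in short intervals, exponent 1/6

`h > X^(39/100)`: `VL.var_chi3 A (1/20)`. Otherwise: `cc χ n = lam (chf χ) n - δ` with a constant `δ`, so
`(1/h)∑_{(u,u+h]} cc - (1/Y)∑_{(u,u+Y]} cc` equals the same difference for `lam (chf χ)` (`Y = YY X`): `var_diff A (A+2) ε` and `VL.var_chi3 (A+2) (1/20)` for the window
`Y` (`X^(1/3 + 1/20) ≤ Y ≤ X`): `∑_u |∑_{(u,u+h]} cc|² ≤ 2 h² (∑ |difference|² + ∑ |(1/Y)∑_{(u,u+Y]} cc|²) ≤ 4 X h²/L^(A+2)`.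
`var_all6` = `VL.VarChi3Aux.all_gen (1/6) var_chi6 (by norm_num) A ε hε`.
-/

set_option autoImplicit false

open Finset Filter Pool.Agent.Lib.SW

namespace Pool.Agent.VM

open Pool.Agent.VK Pool.Agent.HLT Pool.Agent.VL

namespace VarChi6Aux

/-- the averages of `cc` and of `lam` differ by the same constant for all windows -/
lemma avg {q : ℕ} (χ : DirichletCharacter ℂ q) (u : ℕ) {h Y : ℕ} (hh : 1 ≤ h) (hY : 1 ≤ Y) :
    (∑ n ∈ Ioc u (u + h), cc χ n) / (h : ℂ) =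
      ((∑ n ∈ Ioc u (u + h), lam (chf χ) n) / (h : ℂ) -
        (∑ n ∈ Ioc u (u + Y), lam (chf χ) n) / (Y : ℂ)) +
      (∑ n ∈ Ioc u (u + Y), cc χ n) / (Y : ℂ) := by
  classical
  have key : ∀ H : ℕ, 1 ≤ H → (∑ n ∈ Ioc u (u + H), cc χ n) / (H : ℂ) =
      (∑ n ∈ Ioc u (u + H), lam (chf χ) n) / (H : ℂ) - (if χ = 1 then 1 else 0) := by
    intro H hH
    have hH0 : (H : ℂ) ≠ 0 := by exact_mod_cast (by omega : H ≠ 0)
    unfold cc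
    rw [Finset.sum_sub_distrib, Finset.sum_const, Nat.card_Ioc, Nat.add_sub_cancel_left, sub_div,
      nsmul_eq_mul, mul_div_cancel_left₀ _ hH0]
  rw [key h hh, key Y hY]
  ring

lemma num {X h Y L D S : ℝ} {A : ℕ} (hX : 0 ≤ X) (hL : 2 ≤ L) (hY : 0 < Y)
    (hD : D ≤ X / L ^ (A + 2)) (hS : S ≤ X * Y ^ 2 / L ^ (A + 2)) :
    2 * h ^ 2 * (D + S / Y ^ 2) ≤ X * h ^ 2 / L ^ A := by
  have hL0 : 0 < L := by linarith
  have h1 : S / Y ^ 2 ≤ X / L ^ (A + 2) := by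
    rw [div_le_iff₀ (by positivity)]
    refine hS.trans (le_of_eq ?_)
    ring
  have h2 : 2 * h ^ 2 * (D + S / Y ^ 2) ≤ 2 * h ^ 2 * (X / L ^ (A + 2) + X / L ^ (A + 2)) :=
    mul_le_mul_of_nonneg_left (add_le_add hD h1) (by positivity)
  refine h2.trans ?_
  have h3 : 2 * h ^ 2 * (X / L ^ (A + 2) + X / L ^ (A + 2)) = (4 / L ^ 2) * (X * h ^ 2 / L ^ A) := by
    rw [pow_add]
    field_simp
    ring
  rw [h3]
  have h4 : 4 / L ^ 2 ≤ 1 := by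
    rw [div_le_one (by positivity)]
    nlinarith only [hL]
  have h5 : 0 ≤ X * h ^ 2 / L ^ A := by positivity
  calc (4 / L ^ 2) * (X * h ^ 2 / L ^ A) ≤ 1 * (X * h ^ 2 / L ^ A) :=
        mul_le_mul_of_nonneg_right h4 h5
    _ = _ := one_mul _

end VarChi6Aux

open VarChi6Aux in
theorem var_chi6 (A : ℕ) (ε : ℝ) (hε : 0 < ε) : ∀ᶠ X : ℕ in atTop, ∀ (q : ℕ) [NeZero q]
    (χ : DirichletCharacter ℂ q), (q : ℝ) ≤ Real.log X ^ A → ∀ h : ℕ, (X : ℝ) ^ (1 / 6 + ε) ≤ h → h ≤ X →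
    ∑ u ∈ Icc X (2 * X), ‖∑ n ∈ Ioc u (u + h), cc χ n‖ ^ 2 ≤ X * (h : ℝ) ^ 2 / Real.log X ^ A := by
  filter_upwards [Pool.Agent.VL.var_chi3 A (1 / 20) (by norm_num),
    Pool.Agent.VL.var_chi3 (A + 2) (1 / 20) (by norm_num), var_diff A (A + 2) ε hε,
    (Real.tendsto_log_atTop.comp tendsto_natCast_atTop_atTop).eventually_ge_atTop 2,
    eventually_ge_atTop 2] with X hv hv2 hd hL hX
  simp only [Function.comp_def] at hL
  intro q _ χ hq h hXh hhX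
  have hX1 : (1 : ℝ) ≤ X := by exact_mod_cast (by omega : 1 ≤ X)
  have hX0 : (0 : ℝ) < X := by linarith
  rcases le_or_gt ((X : ℝ) ^ (39 / 100 : ℝ)) h with hc | hc
  · refine hv q χ hq h ?_ hhX
    exact (Real.rpow_le_rpow_of_exponent_le hX1 (by norm_num)).trans hc
  · have hh1 : 1 ≤ h := by
      have h1 : (1 : ℝ) ≤ (X : ℝ) ^ (1 / 6 + ε) := Real.one_le_rpow hX1 (by positivity)
      exact_mod_cast h1.trans hXh
    have hY0 : (X : ℝ) ^ (17 / 20 : ℝ) ≤ (YY X : ℕ) := Nat.le_ceil _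
    have hY1 : (X : ℝ) ^ (1 / 3 + 1 / 20 : ℝ) ≤ (YY X : ℕ) :=
      (Real.rpow_le_rpow_of_exponent_le hX1 (by norm_num)).trans hY0
    have hY2 : YY X ≤ X := by
      unfold YY
      rw [Nat.ceil_le]
      calc (X : ℝ) ^ (17 / 20 : ℝ) ≤ (X : ℝ) ^ (1 : ℝ) :=
            Real.rpow_le_rpow_of_exponent_le hX1 (by norm_num)
        _ = X := Real.rpow_one _
    have hY3 : 1 ≤ YY X := by
      have h1 : (1 : ℝ) ≤ (X : ℝ) ^ (17 / 20 : ℝ) := Real.one_le_rpow hX1 (by norm_num)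
      exact_mod_cast h1.trans hY0
    have hYr : (0 : ℝ) < (YY X : ℕ) := by exact_mod_cast hY3
    have hhr : (0 : ℝ) < h := by exact_mod_cast hh1
    have h1 := hd q χ hq h hXh hc.le
    have h2 := hv2 q χ (hq.trans (pow_le_pow_right₀ (by linarith only [hL]) (by omega))) (YY X) hY1 hY2
    have hpt : ∀ u ∈ Icc X (2 * X), ‖∑ n ∈ Ioc u (u + h), cc χ n‖ ^ 2 ≤ 2 * (h : ℝ) ^ 2 *
        (‖(∑ n ∈ Ioc u (u + h), lam (chf χ) n) / (h : ℂ) -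
          (∑ n ∈ Ioc u (u + YY X), lam (chf χ) n) / (YY X : ℂ)‖ ^ 2 +
          ‖∑ n ∈ Ioc u (u + YY X), cc χ n‖ ^ 2 / ((YY X : ℕ) : ℝ) ^ 2) := by
      intro u _
      have e1 : ‖∑ n ∈ Ioc u (u + h), cc χ n‖ =
          h * ‖(∑ n ∈ Ioc u (u + h), cc χ n) / (h : ℂ)‖ := by
        rw [norm_div, Complex.norm_natCast]
        field_simp
      rw [e1, avg χ u hh1 hY3, mul_pow, mul_assoc 2, mul_comm 2, mul_assoc]
      refine mul_le_mul_of_nonneg_left ?_ (by positivity)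
      have e2 : ‖∑ n ∈ Ioc u (u + YY X), cc χ n‖ ^ 2 / ((YY X : ℕ) : ℝ) ^ 2 =
          ‖(∑ n ∈ Ioc u (u + YY X), cc χ n) / (YY X : ℂ)‖ ^ 2 := by
        rw [norm_div, Complex.norm_natCast, div_pow]
      rw [e2]
      refine (pow_le_pow_left₀ (norm_nonneg _) (norm_add_le _ _) 2).trans ?_
      nlinarith only [sq_nonneg (‖(∑ n ∈ Ioc u (u + h), lam (chf χ) n) / (h : ℂ) -
          (∑ n ∈ Ioc u (u + YY X), lam (chf χ) n) / (YY X : ℂ)‖ -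
          ‖(∑ n ∈ Ioc u (u + YY X), cc χ n) / (YY X : ℂ)‖)]
    refine (Finset.sum_le_sum hpt).trans ?_
    rw [← Finset.mul_sum, Finset.sum_add_distrib, ← Finset.sum_div]
    exact num hX0.le hL hYr h1 h2

theorem var_all6 (A : ℕ) (ε : ℝ) (hε : 0 < ε) : ∃ c : ℕ, ∀ᶠ x : ℕ in atTop, ∀ (q : ℕ) [NeZero q]
    (χ : DirichletCharacter ℂ q), (q : ℝ) ≤ Real.log x ^ A → ∀ h : ℕ, (x : ℝ) ^ (1 / 6 + ε) ≤ h →
    (h : ℝ) ≤ x / Real.log x ^ c →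
    ∑ u ∈ range (2 * x + 1), ‖∑ n ∈ Ioc u (u + h), cc χ n‖ ^ 2 ≤ x * (h : ℝ) ^ 2 / Real.log x ^ A := by
  exact VarChi3Aux.all_gen (1 / 6) var_chi6 (by norm_num) A ε hε

end Pool.Agent.VM
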