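import Pool.Agent.Lib.VM.Defs
import Pool.Agent.Lib.VM.C2Count
import Pool.Agent.Lib.VK.MeanVal

/-!
# Module C2AP: centred fourth moment with residue classes

Sketch. Expanding the squares, `U(t) - E = ∑_{(m,n) ∈ P} f(m) conj f(n) (m/n)^(-it)` with
`P = {(m,n) ∈ S × S : m ≡ n (q), m ≠ n}` (the diagonal `m = n` is `E = ∑ |f|^2` as `|n^(-it)| = 1`). With
`Δ = T` and `e exp(-t^2/T^2) ≥ 1` on `[-T,T]`:
`∫_{-T}^{T} (U-E)^2 = ∫ |U-E|^2 ≤ e K^4 ∑_{(m,n) ∈ P} ∑_{(m',n') ∈ P} |∫ exp(-t^2/T^2) (m n'/(n m'))^(-it) dt|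
 = e √π T K^4 ∑∑ exp(-T^2 (log(m n') - log(n m'))^2/4)`.
`|log A - log B| ≥ |A - B| / (1024 M^2)` for `0 < A, B ≤ 1024 M^2`. Write `m = n + k q`, `m' = n' + k' q`, `k, k' ≠ 0`,
`|k|, |k'| ≤ R := 31 M / q` (natural division): `m n' - n m' = q (k n' - k' n)`. So the double sum is
`≤ ∑_{l ∈ ℤ} a(l) exp(-c^2 l^2)`, `c = T q / (2048 M^2)`, with `a(l)` the count of `c2_count` (the map
`((m,n),(m',n')) ↦ ((k,k'),(n,n'))` is injective), `a(l) ≤ 248 M R (1 + log R) + 4 R^2 ≤ C (M^2/q)(1 + log M)`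
(if `R = 0` there is nothing to count; `R ≤ 31 M / q`, `log R ≤ 4 + log M`). Finally
`∑_l exp(-c^2 l^2) ≤ 1 + 4/c` (`gsum'` in VK.MeanVal; finite sum since `|l|` is bounded), so the total is
`≤ C K^4 T (M^2/q) (1 + log M) (1 + M^2/(T q))`.
-/

set_option autoImplicit false

open Finset Filter MeasureTheory

namespace Pool.Agent.VM

open Pool.Agent.VK Pool.Agent.HLT

namespace C2AP

open Pool.Agent.P4f18dfS Pool.Agent.P4f18dfS.MVAux Pool.Agent.VK.MeanValAux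

/-- the exponential polynomial with frequencies `lam` -/
noncomputable def ep {ι : Type*} (s : Finset ι) (a : ι → ℂ) (lam : ι → ℝ) (t : ℝ) : ℂ :=
  ∑ i ∈ s, a i * Complex.exp (-(Complex.I * (lam i : ℂ) * t))

lemma conj_exp (x t : ℝ) : (starRingEnd ℂ) (Complex.exp (-(Complex.I * (x : ℂ) * t))) =
    Complex.exp (Complex.I * (x : ℂ) * t) := by
  rw [← Complex.exp_conj]
  congr 1
  simp only [map_neg, map_mul, Complex.conj_I, Complex.conj_ofReal]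
  ring

lemma hint {Δ : ℝ} (hΔ : 0 < Δ) (x : ℝ) :
    Integrable (fun t : ℝ => (wt 0 Δ t : ℂ) * Complex.exp (-(Complex.I * (x : ℂ) * t))) := by
  have h2 : Integrable (fun t : ℝ => Complex.exp (-(Complex.I * (x : ℂ) * t)) * (wt 0 Δ t : ℂ)) := by
    refine (wt_integrableC hΔ 0).bdd_mul (c := 1) ?_ ?_
    · apply Continuous.aestronglyMeasurable
      exact Complex.continuous_exp.comp
        ((continuous_const.mul Complex.continuous_ofReal).neg)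
    · exact Filter.Eventually.of_forall fun t => (norm_exp_I x t).le
  exact h2.congr (Filter.Eventually.of_forall fun t => mul_comm _ _)

lemma expand_pt {ι : Type*} (s : Finset ι) (a : ι → ℂ) (lam : ι → ℝ) (Δ t : ℝ) :
    ((wt 0 Δ t * ‖ep s a lam t‖ ^ 2 : ℝ) : ℂ) =
      ∑ i ∈ s, ∑ j ∈ s, (a i * (starRingEnd ℂ) (a j)) *
        ((wt 0 Δ t : ℂ) * Complex.exp (-(Complex.I * ((lam i - lam j : ℝ) : ℂ) * t))) := by
  have h1 : ((‖ep s a lam t‖ ^ 2 : ℝ) : ℂ) = ep s a lam t * (starRingEnd ℂ) (ep s a lam t) := by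
    rw [Complex.mul_conj, Complex.normSq_eq_norm_sq]
  rw [Complex.ofReal_mul, h1]
  unfold ep
  rw [map_sum, Finset.sum_mul_sum, Finset.mul_sum]
  refine Finset.sum_congr rfl fun i _ => ?_
  rw [Finset.mul_sum]
  refine Finset.sum_congr rfl fun j _ => ?_
  rw [map_mul, conj_exp]
  have h2 : Complex.exp (-(Complex.I * ((lam i - lam j : ℝ) : ℂ) * t)) =
      Complex.exp (-(Complex.I * (lam i : ℂ) * t)) * Complex.exp (Complex.I * (lam j : ℂ) * t) := by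
    rw [← Complex.exp_add]
    congr 1
    push_cast
    ring
  rw [h2]
  ring

lemma ep_integrable {ι : Type*} (s : Finset ι) (a : ι → ℂ) (lam : ι → ℝ) {Δ : ℝ} (hΔ : 0 < Δ) :
    Integrable (fun t : ℝ => wt 0 Δ t * ‖ep s a lam t‖ ^ 2) := by
  have h1 : Integrable (fun t : ℝ => ∑ i ∈ s, ∑ j ∈ s, (a i * (starRingEnd ℂ) (a j)) *
        ((wt 0 Δ t : ℂ) * Complex.exp (-(Complex.I * ((lam i - lam j : ℝ) : ℂ) * t)))) := by
    refine integrable_finsetSum _ fun i _ => integrable_finsetSum _ fun j _ => ?_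
    exact (hint hΔ _).const_mul _
  refine h1.re.congr (Filter.Eventually.of_forall fun t => ?_)
  simp only
  rw [← expand_pt]
  exact Complex.ofReal_re _

lemma ep_le {ι : Type*} (s : Finset ι) (a : ι → ℂ) (lam : ι → ℝ) {Δ : ℝ} (hΔ : 0 < Δ) :
    ∫ t : ℝ, wt 0 Δ t * ‖ep s a lam t‖ ^ 2 ≤ Real.sqrt Real.pi * Δ *
      ∑ i ∈ s, ∑ j ∈ s, ‖a i‖ * ‖a j‖ * Real.exp (-(Δ ^ 2 * (lam i - lam j) ^ 2 / 4)) := by
  have h2 : ∫ t : ℝ, wt 0 Δ t * ‖ep s a lam t‖ ^ 2 ≤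
      ‖((∫ t : ℝ, wt 0 Δ t * ‖ep s a lam t‖ ^ 2 : ℝ) : ℂ)‖ := by
    rw [Complex.norm_real]
    exact le_abs_self _
  refine h2.trans ?_
  rw [← integral_complex_ofReal]
  simp_rw [expand_pt]
  rw [integral_finsetSum _ fun i _ => integrable_finsetSum _ fun j _ => (hint hΔ _).const_mul _]
  have h3 : ∀ i ∈ s, ‖∫ t : ℝ, ∑ j ∈ s, (a i * (starRingEnd ℂ) (a j)) *
      ((wt 0 Δ t : ℂ) * Complex.exp (-(Complex.I * ((lam i - lam j : ℝ) : ℂ) * t)))‖ ≤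
      ∑ j ∈ s, Real.sqrt Real.pi * Δ *
        (‖a i‖ * ‖a j‖ * Real.exp (-(Δ ^ 2 * (lam i - lam j) ^ 2 / 4))) := by
    intro i _
    rw [integral_finsetSum _ fun j _ => (hint hΔ _).const_mul _]
    refine (norm_sum_le _ _).trans (Finset.sum_le_sum fun j _ => ?_)
    rw [integral_const_mul, norm_mul, norm_gauss hΔ, norm_mul, RCLike.norm_conj]
    exact le_of_eq (by ring)
  refine (norm_sum_le _ _).trans ((Finset.sum_le_sum h3).trans (le_of_eq ?_))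
  rw [Finset.mul_sum]
  exact Finset.sum_congr rfl fun i _ => (Finset.mul_sum _ _ _).symm

lemma wt_ge {T t : ℝ} (hT : 0 < T) (ht : t ∈ Set.Icc (-T) T) : 1 ≤ 3 * wt 0 T t := by
  unfold wt
  have h1 : ((t - 0) / T) ^ 2 ≤ 1 := by
    rw [sub_zero, div_pow, div_le_one (by positivity), ← sq_abs t]
    exact pow_le_pow_left₀ (abs_nonneg _) (abs_le.2 ht) 2
  have h2 : Real.exp (-1) ≤ Real.exp (-((t - 0) / T) ^ 2) := Real.exp_le_exp.2 (by linarith)
  have h3 : Real.exp 1 ≤ 3 := by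
    have := Real.exp_one_lt_d9
    linarith
  have h4 : Real.exp (-1) * Real.exp 1 = 1 := by rw [← Real.exp_add]; norm_num
  have h5 : 0 < Real.exp (-1) := Real.exp_pos _
  nlinarith only [h2, h3, h4, h5]

lemma ep_continuous {ι : Type*} (s : Finset ι) (a : ι → ℂ) (lam : ι → ℝ) :
    Continuous (ep s a lam) := by
  unfold ep
  refine continuous_finsetSum _ fun i _ => continuous_const.mul ?_
  exact Complex.continuous_exp.comp ((continuous_const.mul Complex.continuous_ofReal).neg)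

lemma ep_interval {ι : Type*} (s : Finset ι) (a : ι → ℂ) (lam : ι → ℝ) {T : ℝ} (hT : 0 < T) :
    ∫ t in (-T)..T, ‖ep s a lam t‖ ^ 2 ≤ 6 * T *
      ∑ i ∈ s, ∑ j ∈ s, ‖a i‖ * ‖a j‖ * Real.exp (-(T ^ 2 * (lam i - lam j) ^ 2 / 4)) := by
  have hi := ep_integrable s a lam hT
  have h1 : ∫ t in (-T)..T, ‖ep s a lam t‖ ^ 2 ≤
      ∫ t in (-T)..T, 3 * (wt 0 T t * ‖ep s a lam t‖ ^ 2) := by
    refine intervalIntegral.integral_mono_on (by linarith)
      (((ep_continuous s a lam).norm.pow 2).intervalIntegrable _ _)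
      ((hi.const_mul 3).intervalIntegrable) ?_
    intro t ht
    have h2 := wt_ge hT ht
    have h3 : 0 ≤ ‖ep s a lam t‖ ^ 2 := by positivity
    nlinarith
  refine h1.trans ?_
  rw [intervalIntegral.integral_const_mul, intervalIntegral.integral_of_le (by linarith)]
  have h2 : ∫ t in Set.Ioc (-T) T, wt 0 T t * ‖ep s a lam t‖ ^ 2 ≤
      ∫ t : ℝ, wt 0 T t * ‖ep s a lam t‖ ^ 2 :=
    setIntegral_le_integral hi (Filter.Eventually.of_forall fun t => by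
      have := wt_pos 0 T t
      positivity)
  have h3 := ep_le s a lam hT
  have hpi : Real.sqrt Real.pi ≤ 2 := by
    rw [Real.sqrt_le_left (by norm_num)]
    have := Real.pi_lt_four
    linarith
  have hsum : 0 ≤ ∑ i ∈ s, ∑ j ∈ s, ‖a i‖ * ‖a j‖ *
      Real.exp (-(T ^ 2 * (lam i - lam j) ^ 2 / 4)) :=
    Finset.sum_nonneg fun _ _ => Finset.sum_nonneg fun _ _ => by positivity
  have h4 : Real.sqrt Real.pi * T * ∑ i ∈ s, ∑ j ∈ s, ‖a i‖ * ‖a j‖ *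
      Real.exp (-(T ^ 2 * (lam i - lam j) ^ 2 / 4)) ≤ 2 * T * ∑ i ∈ s, ∑ j ∈ s, ‖a i‖ * ‖a j‖ *
      Real.exp (-(T ^ 2 * (lam i - lam j) ^ 2 / 4)) :=
    mul_le_mul_of_nonneg_right (mul_le_mul_of_nonneg_right hpi hT.le) hsum
  linarith

/-- the off-diagonal pairs -/
def PR (q : ℕ) (S : Finset ℕ) : Finset (ℕ × ℕ) :=
  (S ×ˢ S).filter (fun p => p.2 % q = p.1 % q ∧ p.1 ≠ p.2)

lemma nit_eq {n : ℕ} (hn : 1 ≤ n) (t : ℝ) :
    nit n t = Complex.exp (-(Complex.I * (Real.log n : ℂ) * t)) := by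
  have h0 : (n : ℂ) ≠ 0 := by exact_mod_cast (by omega : n ≠ 0)
  unfold nit
  push_cast
  rw [Complex.cpow_def_of_ne_zero h0]
  congr 1
  rw [← Complex.natCast_log]
  ring

lemma UU_expand {q : ℕ} (hq : 1 ≤ q) {S : Finset ℕ} (hS : ∀ n ∈ S, 1 ≤ n) (f : ℕ → ℂ) (t : ℝ) :
    ((UU q S f t - ∑ n ∈ S, ‖f n‖ ^ 2 : ℝ) : ℂ) =
      ep (PR q S) (fun p => f p.1 * (starRingEnd ℂ) (f p.2))
        (fun p => Real.log p.1 - Real.log p.2) t := by
  classical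
  have hterm : ∀ m ∈ S, ∀ n ∈ S, (f m * nit m t) * (starRingEnd ℂ) (f n * nit n t) =
      (f m * (starRingEnd ℂ) (f n)) *
        Complex.exp (-(Complex.I * ((Real.log m - Real.log n : ℝ) : ℂ) * t)) := by
    intro m hm n hn
    rw [map_mul, nit_eq (hS m hm), nit_eq (hS n hn), conj_exp]
    have h2 : Complex.exp (-(Complex.I * ((Real.log m - Real.log n : ℝ) : ℂ) * t)) =
        Complex.exp (-(Complex.I * (Real.log m : ℂ) * t)) *
          Complex.exp (Complex.I * (Real.log n : ℂ) * t) := by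
      rw [← Complex.exp_add]
      congr 1
      push_cast
      ring
    rw [h2]
    ring
  have h1 : ((UU q S f t : ℝ) : ℂ) = ∑ m ∈ S, ∑ n ∈ S.filter (fun n => n % q = m % q),
      (f m * nit m t) * (starRingEnd ℂ) (f n * nit n t) := by
    rw [← Finset.sum_fiberwise_of_maps_to (s := S) (t := range q) (g := fun m => m % q)
      (fun m _ => Finset.mem_range.2 (Nat.mod_lt _ (by omega)))]
    unfold UU
    rw [Complex.ofReal_sum]
    refine Finset.sum_congr rfl fun b _ => ?_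
    rw [← Complex.normSq_eq_norm_sq, ← Complex.mul_conj, map_sum, Finset.sum_mul_sum]
    refine Finset.sum_congr rfl fun m hm => ?_
    rw [(Finset.mem_filter.1 hm).2]
  have h2 : ∀ m ∈ S, ∑ n ∈ S.filter (fun n => n % q = m % q),
      (f m * nit m t) * (starRingEnd ℂ) (f n * nit n t) =
      ((‖f m‖ ^ 2 : ℝ) : ℂ) + ∑ n ∈ S.filter (fun n => n % q = m % q ∧ m ≠ n),
        (f m * (starRingEnd ℂ) (f n)) *
          Complex.exp (-(Complex.I * ((Real.log m - Real.log n : ℝ) : ℂ) * t)) := by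
    intro m hm
    have hmem : m ∈ S.filter (fun n => n % q = m % q) := Finset.mem_filter.2 ⟨hm, rfl⟩
    rw [← Finset.add_sum_erase _ _ hmem]
    congr 1
    · rw [hterm m hm m hm, sub_self]
      simp only [Complex.ofReal_zero, mul_zero, zero_mul, neg_zero, Complex.exp_zero, mul_one]
      rw [Complex.mul_conj, Complex.normSq_eq_norm_sq]
    · have e : (S.filter (fun n => n % q = m % q)).erase m =
          S.filter (fun n => n % q = m % q ∧ m ≠ n) := by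
        ext n
        simp only [Finset.mem_erase, Finset.mem_filter]
        constructor
        · rintro ⟨h1, h2, h3⟩
          exact ⟨h2, h3, fun h => h1 h.symm⟩
        · rintro ⟨h1, h2, h3⟩
          exact ⟨fun h => h3 h.symm, h1, h2⟩
      rw [e]
      exact Finset.sum_congr rfl fun n hn => hterm m hm n (Finset.mem_filter.1 hn).1
  rw [Complex.ofReal_sub, h1, Finset.sum_congr rfl h2, Finset.sum_add_distrib, Complex.ofReal_sum,
    add_sub_cancel_left]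
  unfold ep PR
  rw [Finset.sum_filter, Finset.sum_product]
  refine Finset.sum_congr rfl fun m _ => ?_
  rw [Finset.sum_filter]

/-- the counting function -/
def kk (q : ℕ) (p : ℕ × ℕ) : ℤ := ((p.1 : ℤ) - p.2) / q

def ll (q : ℕ) (z : (ℕ × ℕ) × (ℕ × ℕ)) : ℤ := kk q z.1 * z.2.2 - kk q z.2 * z.1.2

lemma kk_mul {q : ℕ} {S : Finset ℕ} {p : ℕ × ℕ} (hp : p ∈ PR q S) :
    kk q p * q = (p.1 : ℤ) - p.2 := by
  unfold PR at hp
  obtain ⟨-, h1, -⟩ := Finset.mem_filter.1 hp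
  unfold kk
  apply Int.ediv_mul_cancel
  have h2 : (p.1 : ℤ) % q = (p.2 : ℤ) % q := by exact_mod_cast h1.symm
  exact Int.dvd_of_emod_eq_zero (Int.emod_eq_emod_iff_emod_sub_eq_zero.1 h2)

lemma mem_PR {q : ℕ} {S : Finset ℕ} {p : ℕ × ℕ} (hp : p ∈ PR q S) : p.1 ∈ S ∧ p.2 ∈ S ∧ p.1 ≠ p.2 := by
  unfold PR at hp
  obtain ⟨h0, -, h1⟩ := Finset.mem_filter.1 hp
  exact ⟨(Finset.mem_product.1 h0).1, (Finset.mem_product.1 h0).2, h1⟩

lemma kk_bound {q M : ℕ} (hq : 1 ≤ q) {S : Finset ℕ} (hS : ∀ n ∈ S, M < n ∧ n ≤ 32 * M)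
    {p : ℕ × ℕ} (hp : p ∈ PR q S) :
    kk q p ≠ 0 ∧ -((31 * M / q : ℕ) : ℤ) ≤ kk q p ∧ kk q p ≤ ((31 * M / q : ℕ) : ℤ) := by
  have h1 := kk_mul hp
  obtain ⟨h2, h3, h4⟩ := mem_PR hp
  have h5 := hS _ h2
  have h6 := hS _ h3
  have hq0 : (0 : ℤ) < q := by exact_mod_cast hq
  have e : ((31 * M / q : ℕ) : ℤ) = (31 * (M : ℤ)) / q := by push_cast; rfl
  refine ⟨?_, ?_, ?_⟩
  · intro h0
    rw [h0, zero_mul] at h1
    apply h4
    omega
  · have h7 : -kk q p ≤ ((31 * M / q : ℕ) : ℤ) := by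
      rw [e, Int.le_ediv_iff_mul_le hq0, neg_mul, h1]
      omega
    omega
  · rw [e, Int.le_ediv_iff_mul_le hq0, h1]
    omega

lemma count_le {q M : ℕ} (hq : 1 ≤ q) {S : Finset ℕ} (hS : ∀ n ∈ S, M < n ∧ n ≤ 32 * M) (l : ℤ) :
    ((PR q S ×ˢ PR q S).filter (fun z => ll q z = l)).card ≤
      (((Icc (-((31 * M / q : ℕ) : ℤ)) ((31 * M / q : ℕ) : ℤ) ×ˢ
          Icc (-((31 * M / q : ℕ) : ℤ)) ((31 * M / q : ℕ) : ℤ)) ×ˢ
          (Ioc M (32 * M) ×ˢ Ioc M (32 * M))).filter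
      (fun z => z.1.1 ≠ 0 ∧ z.1.2 ≠ 0 ∧ z.1.1 * (z.2.2 : ℤ) - z.1.2 * (z.2.1 : ℤ) = l)).card := by
  apply Finset.card_le_card_of_injOn (fun z => ((kk q z.1, kk q z.2), (z.1.2, z.2.2)))
  · intro z hz
    obtain ⟨hz1, hz2⟩ := Finset.mem_filter.1 (Finset.mem_coe.1 hz)
    obtain ⟨ha, hb⟩ := Finset.mem_product.1 hz1
    obtain ⟨a1, a2, a3⟩ := kk_bound hq hS ha
    obtain ⟨b1, b2, b3⟩ := kk_bound hq hS hb
    have a4 := hS _ (mem_PR ha).2.1
    have b4 := hS _ (mem_PR hb).2.1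
    simp only [Finset.coe_filter, Set.mem_setOf_eq, Finset.mem_product, Finset.mem_Icc,
      Finset.mem_Ioc]
    exact ⟨⟨⟨⟨a2, a3⟩, ⟨b2, b3⟩⟩, ⟨a4, b4⟩⟩, a1, b1, hz2⟩
  · intro z hz z' hz' h
    obtain ⟨hz1, -⟩ := Finset.mem_filter.1 (Finset.mem_coe.1 hz)
    obtain ⟨hz1', -⟩ := Finset.mem_filter.1 (Finset.mem_coe.1 hz')
    obtain ⟨ha, hb⟩ := Finset.mem_product.1 hz1
    obtain ⟨ha', hb'⟩ := Finset.mem_product.1 hz1'
    simp only [Prod.mk.injEq] at h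
    obtain ⟨⟨h1, h2⟩, h3, h4⟩ := h
    have e1 := kk_mul ha
    have e2 := kk_mul hb
    have e3 := kk_mul ha'
    have e4 := kk_mul hb'
    rw [h1] at e1
    rw [h2] at e2
    have f1 : z.1.1 = z'.1.1 := by omega
    have f2 : z.2.1 = z'.2.1 := by omega
    exact Prod.ext (Prod.ext f1 h3) (Prod.ext f2 h4)

lemma gsum_int {c : ℝ} (hc : 0 < c) (t : Finset ℤ) :
    ∑ l ∈ t, Real.exp (-(c ^ 2 * (l : ℝ) ^ 2)) ≤ 1 + 4 / c := by
  classical
  obtain ⟨B, hB⟩ : ∃ B : ℕ, ∀ l ∈ t, l.natAbs ≤ B := ⟨t.sup Int.natAbs, fun l hl => Finset.le_sup hl⟩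
  have h1 := gsum2 hc (2 * B + 1) (B + 1) (by omega)
  refine le_trans ?_ h1
  have h2 : ∑ l ∈ t, Real.exp (-(c ^ 2 * (l : ℝ) ^ 2)) =
      ∑ m ∈ t.image (fun l : ℤ => (l + (B + 1)).toNat),
        Real.exp (-(c ^ 2 * ((m : ℝ) - ((B + 1 : ℕ) : ℝ)) ^ 2)) := by
    rw [Finset.sum_image]
    · refine Finset.sum_congr rfl fun l hl => ?_
      have hlB := hB l hl
      have e : (((l + (B + 1)).toNat : ℕ) : ℤ) = l + (B + 1) := Int.toNat_of_nonneg (by omega)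
      have e' : (((l + (B + 1)).toNat : ℕ) : ℝ) = (l : ℝ) + (B + 1) := by exact_mod_cast e
      rw [e']
      push_cast
      congr 3
      ring
    · intro l hl l' hl' h
      have hlB := hB l hl
      have hlB' := hB l' hl'
      simp only at h
      omega
  rw [h2]
  refine Finset.sum_le_sum_of_subset_of_nonneg ?_ (fun _ _ _ => (Real.exp_pos _).le)
  intro m hm
  obtain ⟨l, hl, rfl⟩ := Finset.mem_image.1 hm
  have hlB := hB l hl
  rw [Finset.mem_Icc]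
  omega

lemma exponent {q M : ℕ} {S : Finset ℕ} (hM : 1 ≤ M) (hS : ∀ n ∈ S, M < n ∧ n ≤ 32 * M)
    {T c : ℝ} (hc : c = T * q / (2048 * (M : ℝ) ^ 2)) {p p' : ℕ × ℕ} (hp : p ∈ PR q S)
    (hp' : p' ∈ PR q S) :
    Real.exp (-(T ^ 2 * ((Real.log p.1 - Real.log p.2) - (Real.log p'.1 - Real.log p'.2)) ^ 2 / 4)) ≤
      Real.exp (-(c ^ 2 * ((ll q (p, p') : ℤ) : ℝ) ^ 2)) := by
  obtain ⟨a1, a2, -⟩ := mem_PR hp
  obtain ⟨b1, b2, -⟩ := mem_PR hp'
  have a1' := hS _ a1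
  have a2' := hS _ a2
  have b1' := hS _ b1
  have b2' := hS _ b2
  have hM0 : (0 : ℝ) < M := by exact_mod_cast hM
  have c1 : (0 : ℝ) < p.1 := by exact_mod_cast (by omega : 0 < p.1)
  have c2 : (0 : ℝ) < p.2 := by exact_mod_cast (by omega : 0 < p.2)
  have c3 : (0 : ℝ) < p'.1 := by exact_mod_cast (by omega : 0 < p'.1)
  have c4 : (0 : ℝ) < p'.2 := by exact_mod_cast (by omega : 0 < p'.2)
  have e1 : (Real.log p.1 - Real.log p.2) - (Real.log p'.1 - Real.log p'.2) =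
      Real.log ((p.1 * p'.2 : ℕ) : ℝ) - Real.log ((p.2 * p'.1 : ℕ) : ℝ) := by
    push_cast
    rw [Real.log_mul c1.ne' c4.ne', Real.log_mul c2.ne' c3.ne']
    ring
  have hA : p.1 * p'.2 ≤ 1024 * M ^ 2 := by
    calc p.1 * p'.2 ≤ (32 * M) * (32 * M) := Nat.mul_le_mul a1'.2 b2'.2
      _ = 1024 * M ^ 2 := by ring
  have hB : p.2 * p'.1 ≤ 1024 * M ^ 2 := by
    calc p.2 * p'.1 ≤ (32 * M) * (32 * M) := Nat.mul_le_mul a2'.2 b1'.2
      _ = 1024 * M ^ 2 := by ring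
  have h1 := log_diff (Nat.mul_pos (by omega : 0 < p.1) (by omega : 0 < p'.2))
    (Nat.mul_pos (by omega : 0 < p.2) (by omega : 0 < p'.1)) hA hB
  rw [e1]
  refine Real.exp_le_exp.2 ?_
  have e2 : ((p.1 * p'.2 : ℕ) : ℝ) - ((p.2 * p'.1 : ℕ) : ℝ) = q * ((ll q (p, p') : ℤ) : ℝ) := by
    have f1 := kk_mul hp
    have f2 := kk_mul hp'
    have f3 : ((p.1 * p'.2 : ℕ) : ℤ) - ((p.2 * p'.1 : ℕ) : ℤ) = q * ll q (p, p') := by
      unfold ll
      simp only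
      push_cast
      linear_combination (-(p'.2 : ℤ)) * f1 + (p.2 : ℤ) * f2
    exact_mod_cast f3
  have e3 : c ^ 2 * ((ll q (p, p') : ℤ) : ℝ) ^ 2 =
      T ^ 2 * ((((p.1 * p'.2 : ℕ) : ℝ) - ((p.2 * p'.1 : ℕ) : ℝ)) / ((1024 * M ^ 2 : ℕ) : ℝ)) ^ 2 / 4 := by
    rw [e2, hc]
    push_cast
    field_simp
    ring
  rw [e3]
  have h2 := mul_le_mul_of_nonneg_left h1 (sq_nonneg T)
  linarith only [h2]

lemma numA {M q R L : ℝ} (hM : 1 ≤ M) (hq : 1 ≤ q) (hL : 0 ≤ L) (hR : 1 ≤ R) (hR1 : R ≤ 31 * M / q)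
    (hlog : Real.log R ≤ 4 + L) :
    248 * M * R * (1 + Real.log R) + 4 * R ^ 2 ≤ 42284 * (M ^ 2 / q) * (1 + L) := by
  have hM0 : 0 < M := by linarith
  have hq0 : 0 < q := by linarith
  have hR2 : R ≤ 31 * M := hR1.trans (div_le_self (by positivity) hq)
  have hl0 : 0 ≤ Real.log R := Real.log_nonneg hR
  have h1 : 248 * M * R * (1 + Real.log R) ≤ 248 * M * (31 * M / q) * (5 * (1 + L)) :=
    mul_le_mul (mul_le_mul_of_nonneg_left hR1 (by positivity)) (by linarith) (by linarith)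
      (by positivity)
  have h2 : 4 * R ^ 2 ≤ 4 * ((31 * M / q) * (31 * M)) := by
    have : R ^ 2 ≤ (31 * M / q) * (31 * M) := by
      rw [sq]
      exact mul_le_mul hR1 hR2 (by linarith) (by positivity)
    linarith only [this]
  have h3 : 248 * M * (31 * M / q) * (5 * (1 + L)) = 38440 * (M ^ 2 / q) * (1 + L) := by ring
  have h4 : 4 * ((31 * M / q) * (31 * M)) = 3844 * (M ^ 2 / q) := by ring
  have h5 : 0 ≤ (M ^ 2 / q) * L := by positivity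
  calc _ ≤ 38440 * (M ^ 2 / q) * (1 + L) + 3844 * (M ^ 2 / q) := by linarith only [h1, h2, h3, h4]
    _ ≤ _ := by linarith only [h5]

lemma numB {M q L T K : ℝ} (hM : 1 ≤ M) (hq : 1 ≤ q) (hL : 0 ≤ L) (hT : 1 ≤ T) (hK : 0 ≤ K) :
    6 * T * (K ^ 4 * (42284 * (M ^ 2 / q) * (1 + L) * (1 + 4 / (T * q / (2048 * M ^ 2))))) ≤
      2078343168 * K ^ 4 * (T * M ^ 2 / q + M ^ 4 / q ^ 2) * (1 + L) ^ 2 := by
  have hM0 : 0 < M := by linarith
  have hq0 : 0 < q := by linarith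
  have hT0 : 0 < T := by linarith
  have e1 : 6 * T * (K ^ 4 * (42284 * (M ^ 2 / q) * (1 + L) * (1 + 4 / (T * q / (2048 * M ^ 2))))) =
      253704 * K ^ 4 * (T * M ^ 2 / q + 8192 * (M ^ 4 / q ^ 2)) * (1 + L) := by
    field_simp
    ring
  rw [e1]
  have h1 : T * M ^ 2 / q + 8192 * (M ^ 4 / q ^ 2) ≤ 8192 * (T * M ^ 2 / q + M ^ 4 / q ^ 2) := by
    have : 0 ≤ T * M ^ 2 / q := by positivity
    linarith
  have h2 : 1 + L ≤ (1 + L) ^ 2 := by nlinarith only [hL]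
  calc 253704 * K ^ 4 * (T * M ^ 2 / q + 8192 * (M ^ 4 / q ^ 2)) * (1 + L) ≤
      253704 * K ^ 4 * (8192 * (T * M ^ 2 / q + M ^ 4 / q ^ 2)) * (1 + L) ^ 2 :=
        mul_le_mul (mul_le_mul_of_nonneg_left h1 (by positivity)) h2 (by linarith) (by positivity)
    _ = _ := by ring

end C2AP

open C2AP in
theorem c2_ap : ∃ C : ℝ, 1 ≤ C ∧ ∀ (q M : ℕ) (S : Finset ℕ) (f : ℕ → ℂ) (T K : ℝ), 1 ≤ q → 1 ≤ M →
    (∀ n ∈ S, M < n ∧ n ≤ 32 * M) → (∀ n ∈ S, ‖f n‖ ≤ K) → 0 ≤ K → 1 ≤ T →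
    ∫ t in (-T)..T, (UU q S f t - ∑ n ∈ S, ‖f n‖ ^ 2) ^ 2 ≤
      C * K ^ 4 * (T * (M : ℝ) ^ 2 / q + (M : ℝ) ^ 4 / (q : ℝ) ^ 2) * (1 + Real.log M) ^ 2 := by
  classical
  refine ⟨2078343168, by norm_num, ?_⟩
  intro q M S f T K hq hM hS hf hK hT
  have hMr : (1 : ℝ) ≤ M := by exact_mod_cast hM
  have hqr : (1 : ℝ) ≤ q := by exact_mod_cast hq
  have hT0 : 0 < T := by linarith
  have hL : 0 ≤ Real.log M := Real.log_nonneg hMr
  have hS1 : ∀ n ∈ S, 1 ≤ n := fun n hn => by have := hS n hn; omega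
  obtain ⟨a, ha⟩ : ∃ a : ℕ × ℕ → ℂ, a = fun p => f p.1 * (starRingEnd ℂ) (f p.2) := ⟨_, rfl⟩
  obtain ⟨lam, hlam⟩ : ∃ lam : ℕ × ℕ → ℝ, lam = fun p => Real.log p.1 - Real.log p.2 := ⟨_, rfl⟩
  have hpt : ∀ t : ℝ, (UU q S f t - ∑ n ∈ S, ‖f n‖ ^ 2) ^ 2 = ‖ep (PR q S) a lam t‖ ^ 2 := by
    intro t
    rw [ha, hlam, ← UU_expand hq hS1 f t, Complex.norm_real, Real.norm_eq_abs, sq_abs]
  simp_rw [hpt]
  refine (ep_interval (PR q S) a lam hT0).trans ?_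
  have hRHS : 0 ≤ 2078343168 * K ^ 4 * (T * (M : ℝ) ^ 2 / q + (M : ℝ) ^ 4 / (q : ℝ) ^ 2) *
      (1 + Real.log M) ^ 2 := by positivity
  rcases (PR q S).eq_empty_or_nonempty with he | ⟨p₀, hp₀⟩
  · rw [he]
    simpa using hRHS
  have hR1 : 1 ≤ 31 * M / q := by
    obtain ⟨h1, h2, h3⟩ := kk_bound hq hS hp₀
    by_contra hcon
    have h0 : 31 * M / q = 0 := by omega
    rw [h0] at h2 h3
    apply h1
    simp only [Nat.cast_zero, neg_zero] at h2 h3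
    exact le_antisymm h3 h2
  obtain ⟨R, hR⟩ : ∃ R : ℕ, R = 31 * M / q := ⟨_, rfl⟩
  obtain ⟨c, hc⟩ : ∃ c : ℝ, c = T * q / (2048 * (M : ℝ) ^ 2) := ⟨_, rfl⟩
  have hc0 : 0 < c := by rw [hc]; positivity
  obtain ⟨A, hA⟩ : ∃ A : ℝ, A = 248 * M * R * (1 + Real.log R) + 4 * (R : ℝ) ^ 2 := ⟨_, rfl⟩
  have hAl : ∀ l : ℤ, ((((PR q S ×ˢ PR q S).filter (fun z => ll q z = l)).card : ℕ) : ℝ) ≤ A := by
    intro l
    have h1 := count_le hq hS l
    rw [← hR] at h1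
    have h2 := c2_count M R hM (by rw [hR]; exact hR1) l
    rw [hA]
    exact (Nat.cast_le.2 h1).trans h2
  have hterm : ∀ p ∈ PR q S, ∀ p' ∈ PR q S,
      ‖a p‖ * ‖a p'‖ * Real.exp (-(T ^ 2 * (lam p - lam p') ^ 2 / 4)) ≤
        K ^ 4 * Real.exp (-(c ^ 2 * ((ll q (p, p') : ℤ) : ℝ) ^ 2)) := by
    intro p hp p' hp'
    have hap : ∀ p ∈ PR q S, ‖a p‖ ≤ K ^ 2 := by
      intro p hp
      obtain ⟨h1, h2, -⟩ := mem_PR hp
      rw [ha]
      simp only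
      rw [norm_mul, RCLike.norm_conj, sq]
      exact mul_le_mul (hf _ h1) (hf _ h2) (norm_nonneg _) hK
    have h1 : ‖a p‖ * ‖a p'‖ ≤ K ^ 4 := by
      calc ‖a p‖ * ‖a p'‖ ≤ K ^ 2 * K ^ 2 :=
            mul_le_mul (hap p hp) (hap p' hp') (norm_nonneg _) (by (clear * -; positivity))
        _ = K ^ 4 := by ring
    have h2 := exponent hM hS hc hp hp'
    rw [hlam]
    exact mul_le_mul h1 h2 (Real.exp_pos _).le (by (clear * -; positivity))
  have hsum : ∑ p ∈ PR q S, ∑ p' ∈ PR q S,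
      ‖a p‖ * ‖a p'‖ * Real.exp (-(T ^ 2 * (lam p - lam p') ^ 2 / 4)) ≤
        K ^ 4 * (A * (1 + 4 / c)) := by
    refine (Finset.sum_le_sum fun p hp => Finset.sum_le_sum fun p' hp' => hterm p hp p' hp').trans ?_
    rw [← Finset.sum_product' (f := fun p p' =>
      K ^ 4 * Real.exp (-(c ^ 2 * ((ll q (p, p') : ℤ) : ℝ) ^ 2))), ← Finset.mul_sum]
    refine mul_le_mul_of_nonneg_left ?_ (by positivity)
    have h3 : ∑ z ∈ PR q S ×ˢ PR q S, Real.exp (-(c ^ 2 * ((ll q (z.1, z.2) : ℤ) : ℝ) ^ 2)) =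
        ∑ l ∈ (PR q S ×ˢ PR q S).image (ll q),
          ((((PR q S ×ˢ PR q S).filter (fun z => ll q z = l)).card : ℕ) : ℝ) *
            Real.exp (-(c ^ 2 * (l : ℝ) ^ 2)) := by
      rw [← Finset.sum_fiberwise_of_maps_to (s := PR q S ×ˢ PR q S)
        (t := (PR q S ×ˢ PR q S).image (ll q)) (g := ll q)
        (fun z hz => Finset.mem_image_of_mem _ hz)]
      refine Finset.sum_congr rfl fun l _ => ?_
      rw [← nsmul_eq_mul, ← Finset.sum_const]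
      refine Finset.sum_congr rfl fun z hz => ?_
      rw [← (Finset.mem_filter.1 hz).2]
    rw [h3]
    calc ∑ l ∈ (PR q S ×ˢ PR q S).image (ll q),
          ((((PR q S ×ˢ PR q S).filter (fun z => ll q z = l)).card : ℕ) : ℝ) *
            Real.exp (-(c ^ 2 * (l : ℝ) ^ 2)) ≤
        ∑ l ∈ (PR q S ×ˢ PR q S).image (ll q), A * Real.exp (-(c ^ 2 * (l : ℝ) ^ 2)) :=
          Finset.sum_le_sum fun l _ => mul_le_mul_of_nonneg_right (hAl l) (Real.exp_pos _).le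
      _ = A * ∑ l ∈ (PR q S ×ˢ PR q S).image (ll q), Real.exp (-(c ^ 2 * (l : ℝ) ^ 2)) := by
          rw [Finset.mul_sum]
      _ ≤ A * (1 + 4 / c) := by
          refine mul_le_mul_of_nonneg_left (gsum_int hc0 _) ?_
          exact (Nat.cast_nonneg _).trans (hAl 0)
  have hRr : (1 : ℝ) ≤ R := by rw [hR]; exact_mod_cast hR1
  have hRle : (R : ℝ) ≤ 31 * M / q := by
    rw [hR]
    refine Nat.cast_div_le.trans (le_of_eq ?_)
    push_cast
    rfl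
  have hlogR : Real.log R ≤ 4 + Real.log M := by
    have h1 : (R : ℝ) ≤ 32 * M := by
      have := hRle.trans (div_le_self (by (clear * - hM; positivity)) hqr)
      linarith only [hMr, this]
    have h2 : Real.log R ≤ Real.log (32 * M) := Real.log_le_log (by linarith only [hRr]) h1
    rw [Real.log_mul (by norm_num) (by linarith only [hMr])] at h2
    have h3 : Real.log 32 = 5 * Real.log 2 := by
      rw [show (32 : ℝ) = 2 ^ 5 by norm_num, Real.log_pow]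
      norm_num
    have h4 := Real.log_two_lt_d9
    linarith only [h2, h3, h4]
  have hAb := numA hMr hqr hL hRr hRle hlogR
  rw [← hA] at hAb
  have hfac : 0 ≤ 1 + 4 / c := by (clear * - hc0; positivity)
  calc 6 * T * ∑ p ∈ PR q S, ∑ p' ∈ PR q S,
      ‖a p‖ * ‖a p'‖ * Real.exp (-(T ^ 2 * (lam p - lam p') ^ 2 / 4)) ≤
      6 * T * (K ^ 4 * (A * (1 + 4 / c))) := mul_le_mul_of_nonneg_left hsum (by (clear * - hT; positivity))
    _ ≤ 6 * T * (K ^ 4 * (42284 * ((M : ℝ) ^ 2 / q) * (1 + Real.log M) * (1 + 4 / c))) :=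
        mul_le_mul_of_nonneg_left (mul_le_mul_of_nonneg_left
          (mul_le_mul_of_nonneg_right hAb hfac) (by (clear * -; positivity))) (by (clear * - hT; positivity))
    _ ≤ _ := by
        rw [hc]
        exact numB hMr hqr hL hT hK

end Pool.Agent.VM
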