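import Pool.Agent.Lib.VM.Djs

/-!
# Module CharUU: characters

`char_UU`: `∑_χ χ(m) conj χ(n) = φ(q)` if `m ≡ n (q)` and `n` is coprime to `q`, `0` for other coprime `m, n`
(`DirichletCharacter.sum_char_inv_mul_char_eq`, `ℂ` has enough roots of unity); expand the square, `m % q = n % q`.
`char_ex`: `cf χ = (1/φ(q)) ∑_{b : (ZMod q)ˣ} e(a b/q) conj χ(b)`; orthogonality gives the expansion; Parseval:
`∑_χ |cf χ|^2 = (1/φ(q)) ∑_{b unit} |e(ab/q)|^2 = 1`. For `a` coprime to `q`: put `g(a) = ∑_{b unit} e(a b/q) conj χ(b)`. The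
substitution `b → a⁻¹ b` shows that `|g(a)|` is the same for all `a` coprime to `q`, and Parseval in `a` over all of `ZMod q`:
`∑_{a mod q} |g(a)|^2 = q φ(q)`; so `φ(q) |g(a)|^2 ≤ q φ(q)`, i.e. `|cf χ| ≤ √q/φ(q)`.
-/

set_option autoImplicit false

open Finset

namespace Pool.Agent.VM

open Pool.Agent.VK Pool.Agent.HLT

private lemma cuu_orth {q : ℕ} [NeZero q] {x : ZMod q} (hx : IsUnit x) (y : ZMod q) :
    ∑ χ : DirichletCharacter ℂ q, (starRingEnd ℂ) (χ x) * χ y =
      if x = y then (q.totient : ℂ) else 0 := by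
  classical
  rw [← DirichletCharacter.sum_char_inv_mul_char_eq ℂ hx y]
  refine Finset.sum_congr rfl fun χ _ => ?_
  congr 1
  obtain ⟨u, rfl⟩ := hx
  have h1 : ‖χ (u : ZMod q)‖ = 1 := χ.unit_norm_eq_one u
  have h2 : χ (u : ZMod q) * χ (u : ZMod q)⁻¹ = 1 := by
    rw [← map_mul, ZMod.mul_inv_of_unit _ u.isUnit, map_one]
  rw [← Complex.inv_eq_conj h1]
  exact inv_eq_of_mul_eq_one_right h2

/-- Parseval -/
private lemma cuu_parseval {q : ℕ} [NeZero q] (g : ZMod q → ℂ) (hg : ∀ b, g b ≠ 0 → IsUnit b) :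
    ∑ χ : DirichletCharacter ℂ q, ‖∑ b, g b * χ b‖ ^ 2 = (q.totient : ℝ) * ∑ b, ‖g b‖ ^ 2 := by
  classical
  have h : (∑ χ : DirichletCharacter ℂ q, (‖∑ b, g b * χ b‖ : ℂ) ^ 2) =
      (q.totient : ℂ) * ∑ b, (‖g b‖ : ℂ) ^ 2 := by
    have h1 : ∀ χ : DirichletCharacter ℂ q, (‖∑ b, g b * χ b‖ : ℂ) ^ 2 =
        ∑ x, ∑ y, (starRingEnd ℂ) (g x) * g y * ((starRingEnd ℂ) (χ x) * χ y) := by
      intro χ
      rw [← Complex.conj_mul', map_sum, Finset.sum_mul_sum]
      refine Finset.sum_congr rfl fun x _ => Finset.sum_congr rfl fun y _ => ?_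
      rw [map_mul]
      ring
    simp_rw [h1]
    rw [Finset.sum_comm]
    have h2 : ∀ x : ZMod q, ∑ χ : DirichletCharacter ℂ q, ∑ y,
        (starRingEnd ℂ) (g x) * g y * ((starRingEnd ℂ) (χ x) * χ y) =
        (q.totient : ℂ) * (‖g x‖ : ℂ) ^ 2 := by
      intro x
      rw [Finset.sum_comm]
      by_cases hx : g x = 0
      · simp [hx]
      · have h3 : ∀ y : ZMod q, ∑ χ : DirichletCharacter ℂ q,
            (starRingEnd ℂ) (g x) * g y * ((starRingEnd ℂ) (χ x) * χ y) =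
            if x = y then (starRingEnd ℂ) (g x) * g y * (q.totient : ℂ) else 0 := by
          intro y
          rw [← Finset.mul_sum, cuu_orth (hg x hx)]
          split_ifs <;> simp
        simp_rw [h3]
        rw [Finset.sum_ite_eq, if_pos (Finset.mem_univ _), Complex.conj_mul', mul_comm]
    simp_rw [h2]
    rw [Finset.mul_sum]
  exact_mod_cast h

private lemma cuu_sum_range {q : ℕ} [NeZero q] (h : ZMod q → ℝ) :
    ∑ b ∈ range q, h (b : ZMod q) = ∑ b : ZMod q, h b := by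
  refine Finset.sum_nbij' (fun b => (b : ZMod q)) (fun x => x.val) ?_ ?_ ?_ ?_ ?_
  · intro b _
    exact Finset.mem_univ _
  · intro x _
    exact Finset.mem_range.2 (ZMod.val_lt x)
  · intro b hb
    exact ZMod.val_natCast_of_lt (Finset.mem_range.1 hb)
  · intro x _
    exact ZMod.natCast_zmod_val x
  · intro b _
    rfl

theorem char_UU (q : ℕ) [NeZero q] (S : Finset ℕ) (f : ℕ → ℂ) (hf : ∀ n ∈ S, f n ≠ 0 → n.Coprime q) (t : ℝ) :
    ∑ χ : DirichletCharacter ℂ q, ‖∑ n ∈ S, f n * (χ (n : ZMod q) * nit n t)‖ ^ 2 =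
      (q.totient : ℝ) * UU q S f t := by
  classical
  set g : ZMod q → ℂ := fun b => ∑ n ∈ S.filter (fun n : ℕ => (n : ZMod q) = b), f n * nit n t
    with hg
  have h1 : ∀ χ : DirichletCharacter ℂ q, ∑ n ∈ S, f n * (χ (n : ZMod q) * nit n t) =
      ∑ b, g b * χ b := by
    intro χ
    rw [← Finset.sum_fiberwise S (fun n : ℕ => (n : ZMod q))]
    refine Finset.sum_congr rfl fun b _ => ?_
    rw [hg]
    dsimp only
    rw [Finset.sum_mul]
    refine Finset.sum_congr rfl fun n hn => ?_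
    rw [(Finset.mem_filter.1 hn).2]
    ring
  have h2 : ∀ b, g b ≠ 0 → IsUnit b := by
    intro b hb
    obtain ⟨n, hn, hn0⟩ := Finset.exists_ne_zero_of_sum_ne_zero hb
    rw [Finset.mem_filter] at hn
    have h3 : f n ≠ 0 := fun h0 => hn0 (by rw [h0, zero_mul])
    rw [← hn.2]
    exact (ZMod.isUnit_iff_coprime n q).2 (hf n hn.1 h3)
  simp_rw [h1]
  rw [cuu_parseval g h2]
  congr 1
  rw [UU, ← cuu_sum_range (fun b => ‖g b‖ ^ 2)]
  refine Finset.sum_congr rfl fun b hb => ?_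
  rw [hg]
  dsimp only
  congr 2
  refine Finset.sum_congr ?_ fun _ _ => rfl
  refine Finset.filter_congr fun n _ => ?_
  rw [ZMod.natCast_eq_natCast_iff']
  rw [Nat.mod_eq_of_lt (Finset.mem_range.1 hb)]

private lemma cuu_ex {q : ℕ} [NeZero q] (a : ℤ) (n : ℕ) :
    ex (n * (a / q)) = ZMod.stdAddChar ((a : ZMod q) * (n : ZMod q)) := by
  have h1 : (a : ZMod q) * (n : ZMod q) = ((a * n : ℤ) : ZMod q) := by push_cast; rfl
  rw [h1, ZMod.stdAddChar_coe]
  unfold ex
  congr 1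
  push_cast
  ring

/-- the bound for the Gauss sums -/
private lemma cuu_gauss {q : ℕ} [NeZero q] (χ : DirichletCharacter ℂ q) {a : ZMod q}
    (ha : IsUnit a) :
    ‖∑ b, ZMod.stdAddChar (a * b) * (starRingEnd ℂ) (χ b)‖ ≤ Real.sqrt q := by
  classical
  set g : ZMod q → ℂ := fun x => ∑ b, ZMod.stdAddChar (x * b) * (starRingEnd ℂ) (χ b) with hg
  have hqpos : 0 < q.totient := Nat.totient_pos.2 (NeZero.pos q)
  -- all units give the same norm
  have h1 : ∀ u : (ZMod q)ˣ, ‖g (u : ZMod q)‖ = ‖g 1‖ := by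
    intro u
    have h2 : g 1 = (starRingEnd ℂ) (χ u) * g u := by
      rw [hg]
      dsimp only
      rw [Finset.mul_sum, ← Equiv.sum_comp (Units.mulLeft u)]
      refine Finset.sum_congr rfl fun b _ => ?_
      rw [Units.mulLeft_apply, one_mul, map_mul χ, map_mul (starRingEnd ℂ)]
      ring
    rw [h2, norm_mul, RCLike.norm_conj, χ.unit_norm_eq_one, one_mul]
  -- Parseval
  have hψ : ∀ x : ZMod q, ∀ b b' : ZMod q, (starRingEnd ℂ) (ZMod.stdAddChar (x * b)) *
      ZMod.stdAddChar (x * b') = (ZMod.stdAddChar (N := q)) (x * (b' - b)) := by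
    intro x b b'
    have h3 : ‖(ZMod.stdAddChar (x * b) : ℂ)‖ = 1 := by
      rw [ZMod.stdAddChar_apply]
      exact Circle.norm_coe _
    rw [← Complex.inv_eq_conj h3, mul_sub, sub_eq_neg_add, AddChar.map_add_eq_mul,
      AddChar.map_neg_eq_inv]
  have h2 : (∑ x, (‖g x‖ : ℂ) ^ 2) = (q : ℂ) * ∑ b, (‖χ b‖ : ℂ) ^ 2 := by
    have h3 : ∀ x, (‖g x‖ : ℂ) ^ 2 = ∑ b, ∑ b', χ b * (starRingEnd ℂ) (χ b') *
        (ZMod.stdAddChar (N := q)) (x * (b' - b)) := by
      intro x
      rw [← Complex.conj_mul', hg]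
      dsimp only
      rw [map_sum, Finset.sum_mul_sum]
      refine Finset.sum_congr rfl fun b _ => Finset.sum_congr rfl fun b' _ => ?_
      rw [map_mul, Complex.conj_conj, ← hψ]
      ring
    simp_rw [h3]
    rw [Finset.sum_comm, Finset.mul_sum]
    refine Finset.sum_congr rfl fun b _ => ?_
    rw [Finset.sum_comm]
    have h4 : ∀ b' : ZMod q, ∑ x : ZMod q, χ b * (starRingEnd ℂ) (χ b') *
        (ZMod.stdAddChar (N := q)) (x * (b' - b)) =
        if b' = b then χ b * (starRingEnd ℂ) (χ b') * (q : ℂ) else 0 := by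
      intro b'
      rw [← Finset.mul_sum, AddChar.sum_mulShift _ (ZMod.isPrimitive_stdAddChar q), ZMod.card]
      simp only [sub_eq_zero]
      split_ifs <;> simp
    simp_rw [h4]
    rw [Finset.sum_ite_eq', if_pos (Finset.mem_univ _), Complex.mul_conj']
    ring
  have h3 : (∑ x, ‖g x‖ ^ 2) = (q : ℝ) * ∑ b, ‖χ b‖ ^ 2 := by exact_mod_cast h2
  have hcard : (Fintype.card (ZMod q)ˣ : ℝ) = q.totient := by
    rw [ZMod.card_units_eq_totient]
  have hsumu : ∀ h : ZMod q → ℝ, ∑ u : (ZMod q)ˣ, h u =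
      ∑ x ∈ (Finset.univ : Finset (ZMod q)ˣ).map ⟨Units.val, Units.val_injective⟩, h x := by
    intro h
    rw [Finset.sum_map]
    rfl
  have h4 : (q.totient : ℝ) * ‖g 1‖ ^ 2 ≤ ∑ x, ‖g x‖ ^ 2 := by
    calc (q.totient : ℝ) * ‖g 1‖ ^ 2 = ∑ u : (ZMod q)ˣ, ‖g (u : ZMod q)‖ ^ 2 := by
          simp_rw [h1]
          rw [Finset.sum_const, Finset.card_univ, nsmul_eq_mul, hcard]
      _ ≤ ∑ x, ‖g x‖ ^ 2 := by
          rw [hsumu (fun x => ‖g x‖ ^ 2)]
          exact Finset.sum_le_sum_of_subset_of_nonneg (Finset.subset_univ _)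
            fun _ _ _ => by positivity
  have h5 : ∑ b, ‖χ b‖ ^ 2 ≤ (q.totient : ℝ) := by
    have h6 : ∑ b, ‖χ b‖ ^ 2 = ∑ u : (ZMod q)ˣ, ‖χ (u : ZMod q)‖ ^ 2 := by
      rw [hsumu (fun x => ‖χ x‖ ^ 2)]
      symm
      refine Finset.sum_subset (Finset.subset_univ _) fun x _ hx => ?_
      have : ¬ IsUnit x := by
        intro h
        obtain ⟨u, rfl⟩ := h
        exact hx (Finset.mem_map.2 ⟨u, Finset.mem_univ _, rfl⟩)
      rw [χ.map_nonunit this, norm_zero]
      norm_num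
    rw [h6]
    simp_rw [χ.unit_norm_eq_one]
    rw [Finset.sum_const, Finset.card_univ, nsmul_eq_mul, hcard]
    norm_num
  have hqp : (0 : ℝ) < q.totient := by exact_mod_cast hqpos
  have h6 : ‖g 1‖ ^ 2 ≤ q := by
    have h7 : (q.totient : ℝ) * ‖g 1‖ ^ 2 ≤ q.totient * q := by
      have : (q : ℝ) * ∑ b, ‖χ b‖ ^ 2 ≤ q * q.totient :=
        mul_le_mul_of_nonneg_left h5 (by positivity)
      linarith [mul_comm (q : ℝ) q.totient]
    exact le_of_mul_le_mul_left h7 hqp
  obtain ⟨u, rfl⟩ := ha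
  show ‖g u‖ ≤ _
  rw [h1]
  exact Real.le_sqrt_of_sq_le h6

theorem char_ex (q : ℕ) [NeZero q] (a : ℤ) : ∃ cf : DirichletCharacter ℂ q → ℂ,
    (∀ n : ℕ, n.Coprime q → ex (n * (a / q)) = ∑ χ : DirichletCharacter ℂ q, cf χ * χ (n : ZMod q)) ∧
    ∑ χ : DirichletCharacter ℂ q, ‖cf χ‖ ^ 2 ≤ 1 ∧
    (IsCoprime a (q : ℤ) → ∀ χ, ‖cf χ‖ ≤ Real.sqrt q / q.totient) := by
  classical
  have hqpos : 0 < q.totient := Nat.totient_pos.2 (NeZero.pos q)
  have hqp : (0 : ℝ) < q.totient := by exact_mod_cast hqpos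
  have hqc : (q.totient : ℂ) ≠ 0 := by exact_mod_cast hqpos.ne'
  refine ⟨fun χ => (∑ b : ZMod q, ZMod.stdAddChar ((a : ZMod q) * b) * (starRingEnd ℂ) (χ b)) /
    q.totient, ?_, ?_, ?_⟩
  · intro n hn
    have hnu : IsUnit (n : ZMod q) := (ZMod.isUnit_iff_coprime n q).2 hn
    rw [cuu_ex]
    have h1 : ∀ χ : DirichletCharacter ℂ q,
        (∑ b : ZMod q, ZMod.stdAddChar ((a : ZMod q) * b) * (starRingEnd ℂ) (χ b)) /
          q.totient * χ (n : ZMod q) = ∑ b : ZMod q, ZMod.stdAddChar ((a : ZMod q) * b) /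
          q.totient * ((starRingEnd ℂ) (χ b) * χ (n : ZMod q)) := by
      intro χ
      rw [Finset.sum_div, Finset.sum_mul]
      refine Finset.sum_congr rfl fun b _ => ?_
      ring
    simp_rw [h1]
    rw [Finset.sum_comm]
    have h2 : ∀ b : ZMod q, ∑ χ : DirichletCharacter ℂ q, ZMod.stdAddChar ((a : ZMod q) * b) /
        (q.totient : ℂ) * ((starRingEnd ℂ) (χ b) * χ (n : ZMod q)) =
        if b = (n : ZMod q) then ZMod.stdAddChar ((a : ZMod q) * b) else 0 := by
      intro b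
      rw [← Finset.mul_sum]
      by_cases hb : IsUnit b
      · rw [cuu_orth hb]
        split_ifs
        · field_simp
        · rw [mul_zero]
      · have h3 : b ≠ (n : ZMod q) := fun h => hb (h ▸ hnu)
        rw [if_neg h3]
        have h4 : ∀ χ : DirichletCharacter ℂ q, (starRingEnd ℂ) (χ b) * χ (n : ZMod q) = 0 := by
          intro χ
          rw [χ.map_nonunit hb, map_zero, zero_mul]
        simp_rw [h4]
        simp
    simp_rw [h2]
    rw [Finset.sum_ite_eq', if_pos (Finset.mem_univ _)]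
  · set g : ZMod q → ℂ := fun b => if IsUnit b then
      (starRingEnd ℂ) (ZMod.stdAddChar ((a : ZMod q) * b)) else 0 with hg
    have h1 : ∀ χ : DirichletCharacter ℂ q,
        ‖(∑ b : ZMod q, ZMod.stdAddChar ((a : ZMod q) * b) * (starRingEnd ℂ) (χ b)) /
          (q.totient : ℂ)‖ ^ 2 = ‖∑ b, g b * χ b‖ ^ 2 / (q.totient : ℝ) ^ 2 := by
      intro χ
      rw [norm_div, div_pow, Complex.norm_natCast]
      congr 2
      rw [← RCLike.norm_conj, map_sum]
      congr 1
      refine Finset.sum_congr rfl fun b _ => ?_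
      rw [map_mul, RCLike.conj_conj, hg]
      dsimp only
      split_ifs with hb
      · rfl
      · rw [χ.map_nonunit hb, mul_zero, mul_zero]
    simp_rw [h1]
    rw [← Finset.sum_div, cuu_parseval g (fun b hb => by
      by_contra h
      exact hb (by rw [hg]; dsimp only; rw [if_neg h]))]
    have h2 : ∑ b, ‖g b‖ ^ 2 ≤ (q.totient : ℝ) := by
      have hcard : (Fintype.card (ZMod q)ˣ : ℝ) = q.totient := by
        rw [ZMod.card_units_eq_totient]
      have hsumu : ∀ h : ZMod q → ℝ, ∑ u : (ZMod q)ˣ, h u =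
          ∑ x ∈ (Finset.univ : Finset (ZMod q)ˣ).map ⟨Units.val, Units.val_injective⟩, h x := by
        intro h
        rw [Finset.sum_map]
        rfl
      have h6 : ∑ b, ‖g b‖ ^ 2 = ∑ u : (ZMod q)ˣ, ‖g (u : ZMod q)‖ ^ 2 := by
        rw [hsumu (fun x => ‖g x‖ ^ 2)]
        symm
        refine Finset.sum_subset (Finset.subset_univ _) fun x _ hx => ?_
        have : ¬ IsUnit x := by
          intro h
          obtain ⟨u, rfl⟩ := h
          exact hx (Finset.mem_map.2 ⟨u, Finset.mem_univ _, rfl⟩)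
        rw [hg]
        dsimp only
        rw [if_neg this, norm_zero]
        norm_num
      rw [h6]
      have h7 : ∀ u : (ZMod q)ˣ, ‖g (u : ZMod q)‖ = 1 := by
        intro u
        rw [hg]
        dsimp only
        rw [if_pos u.isUnit, RCLike.norm_conj, ZMod.stdAddChar_apply]
        exact Circle.norm_coe _
      simp_rw [h7]
      rw [Finset.sum_const, Finset.card_univ, nsmul_eq_mul, hcard]
      norm_num
    rw [div_le_one (by positivity), sq]
    exact mul_le_mul_of_nonneg_left h2 hqp.le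
  · intro hco χ
    have hau : IsUnit (a : ZMod q) := by
      obtain ⟨u, v, huv⟩ := hco
      refine IsUnit.of_mul_eq_one (u : ZMod q) ?_
      have := congrArg (fun z : ℤ => (z : ZMod q)) huv
      push_cast at this
      rw [ZMod.natCast_self, mul_zero, add_zero] at this
      rw [mul_comm]
      exact this
    rw [norm_div, Complex.norm_natCast]
    exact div_le_div_of_nonneg_right (cuu_gauss χ hau) hqp.le

end Pool.Agent.VM
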