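import Pool.Agent.Lib.VM.LongWin
import Pool.Agent.Lib.VM.CellBasic

/-!
# Module LongCl: long window for a class

`s = 1/1000`, `Z = ∏ 2^(e i)`. If `Fcl` does not vanish on the window `(u, u+Y] ⊆ (X, 4X]` (`Y = YY X ≤ X`) then `X < Z ≤ 2^14 X`
(`Fcl_supp`). The six Moebius cells contribute `≤ X^(6s)` to `Z`, so the largest of the six smooth cells, `i0`, has
`2^(e i0) ≥ (X^(1-6s))^(1/6) = X^(1/6 - s)`. `Fcl_split` at `i0`, `gcl_smooth`: `Fcl = b * ind q y' (2^(e i0))`, `2^(e i0)/2 ≤ y'`. `long_win` with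
`N1 = y'`, `M = ⌈4X/y'⌉ ≤ X^(5/6 + 2s)` (`X` large), `∑ |b m|/m ≤ 1` (`prod_sum_div`, `gcl_sum_div`), `∑_{m ≤ M} |b m| ≤ M X^s`
(`Fcl_bound`, `tau_small`): the bound is `Y/q + 2 X^s X^(5/6 + 3 s + s) ≤ Y/q + X^(21/25)`.
-/

set_option autoImplicit false

open Finset Filter

namespace Pool.Agent.VM

open Pool.Agent.VK Pool.Agent.HLT

namespace LongClAux

lemma ev_ge (C s : ℝ) (hs : 0 < s) : ∀ᶠ X : ℕ in atTop, C ≤ (X : ℝ) ^ s :=
  ((tendsto_rpow_atTop hs).comp tendsto_natCast_atTop_atTop).eventually_ge_atTop C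

/-- divisor bound for arguments up to `2^14 X` -/
lemma ev_tau (s : ℝ) (hs : 0 < s) : ∀ᶠ X : ℕ in atTop, ∀ n : ℕ, 1 ≤ n → n ≤ 2 ^ 14 * X →
    (n.divisors.card : ℝ) ^ 12 ≤ (X : ℝ) ^ s := by
  obtain ⟨C, hC1, hC⟩ := tau_small (s / 24) (by positivity)
  filter_upwards [ev_ge (C ^ 12 * ((2 : ℝ) ^ (14 : ℕ)) ^ (s / 2)) (s / 2) (by positivity)]
    with X hX n hn hnX
  have h1 := hC n hn
  have hn0 : (0 : ℝ) ≤ n := Nat.cast_nonneg n
  have hnX' : (n : ℝ) ≤ (2 : ℝ) ^ (14 : ℕ) * X := by exact_mod_cast hnX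
  have h2 : (n.divisors.card : ℝ) ^ 12 ≤ (C * (n : ℝ) ^ (s / 24)) ^ 12 :=
    pow_le_pow_left₀ (by positivity) h1 12
  have h3 : (C * (n : ℝ) ^ (s / 24)) ^ 12 = C ^ 12 * (n : ℝ) ^ (s / 2) := by
    rw [mul_pow, ← Real.rpow_natCast ((n : ℝ) ^ (s / 24)), ← Real.rpow_mul hn0]
    congr 2
    push_cast
    ring
  have h4 : (n : ℝ) ^ (s / 2) ≤ ((2 : ℝ) ^ (14 : ℕ) * X) ^ (s / 2) :=
    Real.rpow_le_rpow hn0 hnX' (by positivity)
  have h5 : ((2 : ℝ) ^ (14 : ℕ) * X) ^ (s / 2) = ((2 : ℝ) ^ (14 : ℕ)) ^ (s / 2) * (X : ℝ) ^ (s / 2) :=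
    Real.mul_rpow (by positivity) (by positivity)
  have h6 : (X : ℝ) ^ (s / 2) * (X : ℝ) ^ (s / 2) = (X : ℝ) ^ s := by
    rcases Nat.eq_zero_or_pos X with rfl | hXp
    · push_cast
      rw [Real.zero_rpow (by positivity), Real.zero_rpow hs.ne']
      ring
    · rw [← Real.rpow_add (by exact_mod_cast hXp)]
      congr 1
      ring
  calc (n.divisors.card : ℝ) ^ 12 ≤ C ^ 12 * (n : ℝ) ^ (s / 2) := h3 ▸ h2
    _ ≤ C ^ 12 * (((2 : ℝ) ^ (14 : ℕ)) ^ (s / 2) * (X : ℝ) ^ (s / 2)) :=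
        mul_le_mul_of_nonneg_left (h5 ▸ h4) (by positivity)
    _ = (C ^ 12 * ((2 : ℝ) ^ (14 : ℕ)) ^ (s / 2)) * (X : ℝ) ^ (s / 2) := by ring
    _ ≤ (X : ℝ) ^ (s / 2) * (X : ℝ) ^ (s / 2) := mul_le_mul_of_nonneg_right hX (by positivity)
    _ = _ := h6

/-- the largest smooth cell -/
lemma big_cell (X s : ℝ) (hX : 1 ≤ X) (e : Fin 12 → ℕ)
    (hM : ∀ i : Fin 12, i.val < 6 → (2 : ℝ) ^ e i ≤ X ^ s) (hZ : X ≤ ∏ i : Fin 12, (2 : ℝ) ^ e i) :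
    ∃ i0 : Fin 12, 6 ≤ i0.val ∧ X ^ (1 / 6 - s) ≤ (2 : ℝ) ^ e i0 := by
  by_contra hc
  push Not at hc
  have hX0 : (0 : ℝ) < X := by linarith
  obtain ⟨T, hT⟩ : ∃ T : Finset (Fin 12), T = univ.filter (fun i => i.val < 6) := ⟨_, rfl⟩
  have hTc : T.card = 6 := by rw [hT]; decide
  have hTc2 : Tᶜ.card = 6 := by rw [hT]; decide
  have h1 : ∏ i ∈ T, (2 : ℝ) ^ e i ≤ (X ^ s) ^ 6 := by
    calc ∏ i ∈ T, (2 : ℝ) ^ e i ≤ ∏ _i ∈ T, X ^ s := by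
          apply Finset.prod_le_prod
          · intro i _
            positivity
          · intro i hi
            rw [hT, Finset.mem_filter] at hi
            exact hM i hi.2
      _ = _ := by rw [Finset.prod_const, hTc]
  have h2 : ∏ i ∈ Tᶜ, (2 : ℝ) ^ e i < (X ^ (1 / 6 - s)) ^ 6 := by
    calc ∏ i ∈ Tᶜ, (2 : ℝ) ^ e i < ∏ _i ∈ Tᶜ, X ^ (1 / 6 - s) := by
          apply Finset.prod_lt_prod_of_nonempty
          · intro i _
            positivity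
          · intro i hi
            rw [hT, Finset.mem_compl, Finset.mem_filter] at hi
            apply hc i
            by_contra h
            exact hi ⟨Finset.mem_univ _, by omega⟩
          · rw [← Finset.card_pos, hTc2]
            norm_num
      _ = _ := by rw [Finset.prod_const, hTc2]
  have h3 : (X ^ s) ^ 6 * (X ^ (1 / 6 - s)) ^ 6 = X := by
    rw [← mul_pow, ← Real.rpow_add hX0, ← Real.rpow_natCast, ← Real.rpow_mul hX0.le]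
    have : (s + (1 / 6 - s)) * ((6 : ℕ) : ℝ) = 1 := by push_cast; ring
    rw [this, Real.rpow_one]
  have h4 : ∏ i : Fin 12, (2 : ℝ) ^ e i = (∏ i ∈ T, (2 : ℝ) ^ e i) * ∏ i ∈ Tᶜ, (2 : ℝ) ^ e i :=
    (Finset.prod_mul_prod_compl T _).symm
  have h5 : (∏ i ∈ T, (2 : ℝ) ^ e i) * ∏ i ∈ Tᶜ, (2 : ℝ) ^ e i < (X ^ s) ^ 6 * (X ^ (1 / 6 - s)) ^ 6 :=
    mul_lt_mul' h1 h2 (Finset.prod_nonneg fun i _ => by positivity) (by positivity)
  linarith only [hZ, h3, h4, h5]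

end LongClAux

open LongClAux

theorem long_cl : ∃ s : ℝ, 0 < s ∧ ∀ᶠ X : ℕ in atTop, ∀ (q z y u : ℕ) (e : Fin 12 → ℕ) (a : ℤ), 1 ≤ q →
    (q : ℝ) ≤ (X : ℝ) ^ s → IsCoprime a (q : ℤ) → (∀ i : Fin 12, i.val < 6 → (2 : ℝ) ^ e i ≤ (X : ℝ) ^ s) →
    X ≤ u → u ≤ 3 * X →
    ‖∑ n ∈ Ioc u (u + YY X), Fcl z q y e n * ex (n * (a / q))‖ ≤ YY X / q + (X : ℝ) ^ (21 / 25 : ℝ) := by
  refine ⟨1 / 1000, by norm_num, ?_⟩
  filter_upwards [ev_tau (1 / 1000) (by norm_num), ev_ge 2 (1 / 6 - 1 / 1000) (by norm_num),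
    ev_ge 9 (1 / 1000) (by norm_num), ev_ge 2 (1 / 1000) (by norm_num), ev_ge 2 (3 / 20) (by norm_num),
    eventually_ge_atTop 1]
    with X hX1 hX2 hX3 hX4 hX5 hX6
  intro q z y u e a hq hqX hcop hM hu1 hu2
  have hx1 : (1 : ℝ) ≤ X := by exact_mod_cast hX6
  have hx0 : (0 : ℝ) < X := by linarith only [hx1]
  have hmono : ∀ {u v : ℝ}, u ≤ v → (X : ℝ) ^ u ≤ (X : ℝ) ^ v := fun huv =>
    Real.rpow_le_rpow_of_exponent_le hx1 huv
  have hq0 : (0 : ℝ) < q := by exact_mod_cast hq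
  have hYX : YY X ≤ X := by
    unfold YY
    rw [Nat.ceil_le]
    have : (X : ℝ) ^ (17 / 20 : ℝ) ≤ (X : ℝ) ^ (1 : ℝ) := hmono (by norm_num)
    rwa [Real.rpow_one] at this
  by_cases hzero : ∀ n ∈ Ioc u (u + YY X), Fcl z q y e n = 0
  · have h1 : ∑ n ∈ Ioc u (u + YY X), Fcl z q y e n * ex (n * (a / q)) = 0 := by
      apply Finset.sum_eq_zero
      intro n hn
      rw [hzero n hn, zero_mul]
    rw [h1, norm_zero]
    positivity
  push Not at hzero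
  obtain ⟨n0, hn0, hn0'⟩ := hzero
  rw [Finset.mem_Ioc] at hn0
  obtain ⟨hZ1, hZ2⟩ := Fcl_supp z q y e n0 hn0'
  have hXZ : X ≤ ∏ i, 2 ^ e i := by omega
  have hZX : ∏ i, 2 ^ e i ≤ 2 ^ 14 * X := by
    calc ∏ i, 2 ^ e i ≤ 2 ^ 12 * n0 := hZ2
      _ ≤ 2 ^ 12 * (4 * X) := Nat.mul_le_mul_left _ (by omega)
      _ = 2 ^ 14 * X := by ring
  obtain ⟨i0, hi6, hi0⟩ := big_cell X (1 / 1000) hx1 e hM (by exact_mod_cast hXZ)
  obtain ⟨y', hy', hg⟩ := gcl_smooth z q y e i0 hi6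
  have hsp := Fcl_split z q y e i0
  rw [hg] at hsp
  -- the lower bound for y'
  have he1 : 1 ≤ e i0 := by
    by_contra hc
    have h0 : e i0 = 0 := by omega
    rw [h0, pow_zero] at hi0
    linarith only [hX2, hi0]
  have hy2 : (X : ℝ) ^ (1 / 6 - 1 / 1000 : ℝ) / 2 ≤ y' := by
    obtain ⟨k, hk⟩ : ∃ k, e i0 = k + 1 := ⟨e i0 - 1, by omega⟩
    rw [hk] at hy' hi0
    have h1 : 2 ^ (k + 1) / 2 = 2 ^ k := by rw [pow_succ]; simp
    rw [h1] at hy'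
    have h2 : ((2 : ℝ) ^ k) ≤ y' := by exact_mod_cast hy'
    rw [pow_succ] at hi0
    linarith only [hi0, h2]
  have hy1 : 1 ≤ y' := by
    have : (1 : ℝ) ≤ y' := by linarith only [hX2, hy2]
    exact_mod_cast this
  have hy0 : (0 : ℝ) < y' := by exact_mod_cast hy1
  obtain ⟨M, hMd⟩ : ∃ M : ℕ, M = 4 * X / y' + 1 := ⟨_, rfl⟩
  have hMy : u + YY X ≤ M * y' := by
    have h1 := Nat.lt_div_mul_add (show 0 < y' by omega) (a := 4 * X)
    have h2 : M * y' = 4 * X / y' * y' + y' := by rw [hMd]; ring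
    omega
  have hb : ∀ m, (∏ j ∈ univ.erase i0, gcl z q y e j) m ≠ 0 → m.Coprime q :=
    fun m hm => Fcl_coprime z q y e _ m hm
  have hfin := long_win q y' (2 ^ e i0) u (YY X) M a (∏ j ∈ univ.erase i0, gcl z q y e j) hq hcop hy1 hb hMy
  rw [hsp]
  refine hfin.trans ?_
  have hs1 : ∑ m ∈ Icc 1 M, ‖(∏ j ∈ univ.erase i0, gcl z q y e j) m‖ / m ≤ 1 :=
    prod_sum_div _ _ M fun i _ => gcl_sum_div z q y e i M
  have hprodle : ∏ i ∈ univ.erase i0, 2 ^ e i ≤ ∏ i, 2 ^ e i := by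
    apply Finset.prod_le_prod_of_subset_of_one_le' (Finset.subset_univ _)
    intro i _ _
    exact Nat.one_le_two_pow
  have hbb : ∀ m, ‖(∏ j ∈ univ.erase i0, gcl z q y e j) m‖ ≤ (X : ℝ) ^ (1 / 1000 : ℝ) := by
    intro n
    by_cases hz : (∏ j ∈ univ.erase i0, gcl z q y e j) n = 0
    · rw [hz, norm_zero]
      (clear * - hX6; positivity)
    · have h1 : n ≤ ∏ i, 2 ^ e i := (Fcl_le z q y e _ n hz).trans hprodle
      have h2 : 1 ≤ n := by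
        rcases Nat.eq_zero_or_pos n with rfl | hn
        · simp at hz
        · exact hn
      exact (Fcl_bound z q y e _ n).trans (hX1 n h2 (h1.trans hZX))
  have hs2 : ∑ m ∈ Icc 1 M, ‖(∏ j ∈ univ.erase i0, gcl z q y e j) m‖ ≤ M * (X : ℝ) ^ (1 / 1000 : ℝ) := by
    refine (Finset.sum_le_sum fun m _ => hbb m).trans ?_
    rw [Finset.sum_const, Nat.card_Icc, nsmul_eq_mul, Nat.add_sub_cancel]
  -- the bound for M
  have hMle : (M : ℝ) ≤ (X : ℝ) ^ (1 / 1000 : ℝ) * (X : ℝ) ^ (1 - (1 / 6 - 1 / 1000) : ℝ) := by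
    have h1 : (M : ℝ) ≤ 4 * X / y' + 1 := by
      rw [hMd]
      push_cast
      have h2 : ((4 * X / y' : ℕ) : ℝ) ≤ ((4 * X : ℕ) : ℝ) / y' := Nat.cast_div_le
      push_cast at h2
      linarith only [h2]
    have h2 : 4 * (X : ℝ) / y' ≤ 8 * (X : ℝ) ^ (1 - (1 / 6 - 1 / 1000) : ℝ) := by
      have h3 : (0 : ℝ) < (X : ℝ) ^ (1 / 6 - 1 / 1000 : ℝ) / 2 := by (clear * - hX6; positivity)
      have h4 : 4 * (X : ℝ) / y' ≤ 4 * (X : ℝ) / ((X : ℝ) ^ (1 / 6 - 1 / 1000 : ℝ) / 2) :=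
        div_le_div_of_nonneg_left (by (clear * - hX6; positivity)) h3 hy2
      refine h4.trans (le_of_eq ?_)
      rw [Real.rpow_sub hx0 1, Real.rpow_one]
      field_simp
      norm_num
    have h3 : (1 : ℝ) ≤ (X : ℝ) ^ (1 - (1 / 6 - 1 / 1000) : ℝ) := Real.one_le_rpow hx1 (by norm_num)
    calc (M : ℝ) ≤ 9 * (X : ℝ) ^ (1 - (1 / 6 - 1 / 1000) : ℝ) := by linarith only [h1, h2, h3]
      _ ≤ _ := mul_le_mul_of_nonneg_right hX3 (by (clear * - hX6; positivity))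
  have hA : (YY X : ℝ) / q * ∑ m ∈ Icc 1 M, ‖(∏ j ∈ univ.erase i0, gcl z q y e j) m‖ / m ≤ (YY X : ℝ) / q :=
    mul_le_of_le_one_right (by (clear * - hq; positivity)) hs1
  have hB : 2 * (q : ℝ) * ∑ m ∈ Icc 1 M, ‖(∏ j ∈ univ.erase i0, gcl z q y e j) m‖ ≤ (X : ℝ) ^ (21 / 25 : ℝ) := by
    calc 2 * (q : ℝ) * ∑ m ∈ Icc 1 M, ‖(∏ j ∈ univ.erase i0, gcl z q y e j) m‖
        ≤ (X : ℝ) ^ (1 / 1000 : ℝ) * (X : ℝ) ^ (1 / 1000 : ℝ) *
          ((X : ℝ) ^ (1 / 1000 : ℝ) * (X : ℝ) ^ (1 - (1 / 6 - 1 / 1000) : ℝ) * (X : ℝ) ^ (1 / 1000 : ℝ)) := by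
          apply mul_le_mul
          · exact mul_le_mul hX4 hqX hq0.le (by (clear * - hX6; positivity))
          · refine hs2.trans ?_
            exact mul_le_mul_of_nonneg_right hMle (by (clear * - hX6; positivity))
          · exact Finset.sum_nonneg fun m _ => norm_nonneg _
          · (clear * - hX6; positivity)
      _ = (X : ℝ) ^ (1 / 1000 + 1 / 1000 + (1 / 1000 + (1 - (1 / 6 - 1 / 1000)) + 1 / 1000) : ℝ) := by
          rw [← Real.rpow_add hx0, ← Real.rpow_add hx0, ← Real.rpow_add hx0, ← Real.rpow_add hx0]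
      _ ≤ _ := hmono (by norm_num)
  linarith only [hA, hB]

end Pool.Agent.VM
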