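import Pool.Agent.Lib.HLT.Geom
import Pool.Agent.Lib.VK.DefsC

/-!
# Module MainTerm: short windows with a phase from the difference of windows and the long window

`W_h(u) = ∑_{n ∈ (u,u+h]} F n`, `D(u) = W_h(u)/h - W_Y(u)/Y`, `m = H / h` (natural division), so `H - m h < h`.
For `u ∈ [X, 2X - H]` (all `u + k h`, `k < m`, are in `[X, 2X]`; everything is `≤ 4X`):
`∑_{n ∈ (u,u+H]} F n ex(nβ) = ∑_{k<m} ∑_{n ∈ (u+kh, u+(k+1)h]} F n ex(nβ) + O(h K)` and
(1) `|ex(nβ) - ex((u+kh)β)| ≤ 2π h |β|` on the `k`-th piece: error `≤ 7 H K h |β|`;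
(2) `W_h(u+kh) = (h/Y) W_Y(u+kh) + h D(u+kh)`;
(3) `|W_Y(u+kh) - W_Y(u)| ≤ 2 k h K ≤ 2 H K`: error `≤ m (h/Y) 2 H K ≤ 2 H² K / Y`;
(4) `(h/Y) |W_Y(u)| |∑_{k<m} ex((u+kh)β)| ≤ h Gb min(m, 1/(2 h |β|)) ≤ Gb H / max 1 (H|β|)` (geometric sum,
    `|sin(π h β)| ≥ 2 h |β|` for `h |β| ≤ 1/2`; `m ≤ H/h`);
(5) `|h ∑_k ex D(u+kh)|² ≤ h² m ∑_{k<m} |D(u+kh)|²`, sum over `u`: `≤ h² m² X D2 ≤ H² X D2`.
The square of a sum of five terms is `≤ 5` times the sum of the squares. For the `≤ H` values `u ∈ (2X - H, 2X]` use `|·| ≤ H K`.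
-/

set_option autoImplicit false

open Finset

namespace Pool.Agent.VM

open Pool.Agent.VK Pool.Agent.HLT

namespace MainTermAux

lemma norm_ex_sub (θ θ' : ℝ) : ‖ex θ - ex θ'‖ ≤ 2 * Real.pi * |θ - θ'| := by
  have h1 : ex θ - ex θ' = ex θ' * (ex (θ - θ') - 1) := by
    rw [mul_sub, mul_one, ← ex_add]
    congr 2
    ring
  rw [h1, norm_mul, norm_ex, one_mul, norm_ex_sub_one]
  have h2 : |Real.sin (Real.pi * (θ - θ'))| ≤ |Real.pi * (θ - θ')| := Real.abs_sin_le_abs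
  rw [abs_mul, abs_of_pos Real.pi_pos] at h2
  linarith

/-- geometric sum -/
lemma geo (m h u : ℕ) (β : ℝ) (hβ : h * |β| ≤ 1 / 2) :
    2 * (h * |β|) * ‖∑ k ∈ range m, ex (((u + k * h : ℕ) : ℝ) * β)‖ ≤ 1 := by
  have e1 : ∑ k ∈ range m, ex (((u + k * h : ℕ) : ℝ) * β) = ex (u * β) * ∑ k ∈ range m, ex (h * β) ^ k := by
    rw [mul_sum]
    refine sum_congr rfl fun k _ => ?_
    rw [← ex_nat_mul, ← ex_add]
    congr 1
    push_cast
    ring
  rw [e1, norm_mul, norm_ex, one_mul]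
  set z := ex (h * β) with hz
  have h1 : ‖∑ k ∈ range m, z ^ k‖ * ‖z - 1‖ ≤ 2 := by
    rw [← norm_mul, geom_sum_mul]
    calc ‖z ^ m - 1‖ ≤ ‖z ^ m‖ + ‖(1 : ℂ)‖ := norm_sub_le _ _
      _ = 2 := by
          rw [norm_pow, hz, norm_ex, one_pow, norm_one]
          norm_num
  have h2 : 4 * (h * |β|) ≤ ‖z - 1‖ := by
    rw [hz, norm_ex_sub_one]
    have h3 : |Real.pi * (h * β)| = Real.pi * (h * |β|) := by
      rw [abs_mul, abs_mul, abs_of_pos Real.pi_pos, Nat.abs_cast]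
    have h4 := Real.mul_abs_le_abs_sin (x := Real.pi * (h * β)) (by
      rw [h3]
      have := Real.pi_pos
      nlinarith only [hβ, this])
    rw [h3] at h4
    have h5 : 2 / Real.pi * (Real.pi * (h * |β|)) = 2 * (h * |β|) := by
      have := Real.pi_pos.ne'
      field_simp
    rw [h5] at h4
    linarith
  have h6 : 0 ≤ ‖∑ k ∈ range m, z ^ k‖ := norm_nonneg _
  nlinarith only [h1, h2, h6]

lemma split (f : ℕ → ℂ) (u h m : ℕ) :
    ∑ n ∈ Ioc u (u + m * h), f n = ∑ k ∈ range m, ∑ n ∈ Ioc (u + k * h) (u + k * h + h), f n := by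
  induction m with
  | zero => simp
  | succ m ih =>
    rw [sum_range_succ, ← ih, show u + (m + 1) * h = u + m * h + h by ring]
    exact (sum_Ioc_consecutive f (by omega) (by omega)).symm

lemma triv (f : ℕ → ℂ) (a L : ℕ) (K : ℝ) (hf : ∀ n ∈ Ioc a (a + L), ‖f n‖ ≤ K) :
    ‖∑ n ∈ Ioc a (a + L), f n‖ ≤ L * K := by
  refine (norm_sum_le _ _).trans ((sum_le_sum hf).trans ?_)
  rw [sum_const, Nat.card_Ioc, Nat.add_sub_cancel_left, nsmul_eq_mul]

/-- the phase on a short piece -/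
lemma phase (F : ℕ → ℂ) (v h : ℕ) (β K : ℝ) (hK : 0 ≤ K) (hF : ∀ n ∈ Ioc v (v + h), ‖F n‖ ≤ K) :
    ‖∑ n ∈ Ioc v (v + h), F n * ex (n * β) - ex (v * β) * ∑ n ∈ Ioc v (v + h), F n‖ ≤
      h * (K * (7 * (h * |β|))) := by
  have e1 : ∑ n ∈ Ioc v (v + h), F n * ex (n * β) - ex (v * β) * ∑ n ∈ Ioc v (v + h), F n =
      ∑ n ∈ Ioc v (v + h), F n * (ex (n * β) - ex (v * β)) := by
    rw [mul_sum, ← sum_sub_distrib]
    refine sum_congr rfl fun n _ => ?_
    ring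
  rw [e1]
  refine triv _ v h _ fun n hn => ?_
  rw [norm_mul]
  refine mul_le_mul (hF n hn) ?_ (norm_nonneg _) hK
  refine (norm_ex_sub _ _).trans ?_
  rw [mem_Ioc] at hn
  have h1 : |(n : ℝ) * β - v * β| ≤ h * |β| := by
    rw [← sub_mul, abs_mul]
    refine mul_le_mul_of_nonneg_right ?_ (abs_nonneg _)
    have h2 : (v : ℝ) < n := by exact_mod_cast hn.1
    have h3 : (n : ℝ) ≤ v + h := by exact_mod_cast hn.2
    rw [abs_of_pos (by linarith)]
    linarith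
  have h4 : 2 * Real.pi ≤ 7 := by
    have := Real.pi_lt_d2
    linarith
  calc 2 * Real.pi * |(n : ℝ) * β - v * β| ≤ 7 * |(n : ℝ) * β - v * β| :=
        mul_le_mul_of_nonneg_right h4 (abs_nonneg _)
    _ ≤ 7 * (h * |β|) := by linarith

/-- the long window moves slowly -/
lemma slow (F : ℕ → ℂ) (u d Y : ℕ) (K : ℝ) (hF : ∀ n ∈ Ioc u (u + d + Y), ‖F n‖ ≤ K)
    (hdY : d ≤ Y) :
    ‖∑ n ∈ Ioc (u + d) (u + d + Y), F n - ∑ n ∈ Ioc u (u + Y), F n‖ ≤ 2 * (d * K) := by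
  have e1 : ∑ n ∈ Ioc u (u + d), F n + ∑ n ∈ Ioc (u + d) (u + d + Y), F n = ∑ n ∈ Ioc u (u + d + Y), F n :=
    sum_Ioc_consecutive F (by omega) (by omega)
  have e2 : ∑ n ∈ Ioc u (u + Y), F n + ∑ n ∈ Ioc (u + Y) (u + d + Y), F n = ∑ n ∈ Ioc u (u + d + Y), F n :=
    sum_Ioc_consecutive F (by omega) (by omega)
  have e3 : ∑ n ∈ Ioc (u + d) (u + d + Y), F n - ∑ n ∈ Ioc u (u + Y), F n =
      ∑ n ∈ Ioc (u + Y) (u + Y + d), F n - ∑ n ∈ Ioc u (u + d), F n := by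
    have e4 : u + d + Y = u + Y + d := by ring
    rw [e4] at e1 e2 ⊢
    linear_combination e1 - e2
  rw [e3]
  refine (norm_sub_le _ _).trans ?_
  have h1 := triv F (u + Y) d K (fun n hn => hF n (by rw [mem_Ioc] at hn ⊢; omega))
  have h2 := triv F u d K (fun n hn => hF n (by rw [mem_Ioc] at hn ⊢; omega))
  linarith

/-- the square of a sum of five terms -/
lemma five (a b c d e : ℝ) : (a + b + c + d + e) ^ 2 ≤ 5 * (a ^ 2 + b ^ 2 + c ^ 2 + d ^ 2 + e ^ 2) := by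
  nlinarith [sq_nonneg (a - b), sq_nonneg (a - c), sq_nonneg (a - d), sq_nonneg (a - e),
    sq_nonneg (b - c), sq_nonneg (b - d), sq_nonneg (b - e), sq_nonneg (c - d), sq_nonneg (c - e),
    sq_nonneg (d - e)]

/-- one value of `u` -/
lemma one_u (X H h Y u : ℕ) (F : ℕ → ℂ) (β K Gb : ℝ) (hh : 1 ≤ h) (hhH : h ≤ H)
    (hHY : H ≤ Y) (hYX : Y ≤ X) (hK : 0 ≤ K) (hGb : 0 ≤ Gb) (hF : ∀ n ∈ Icc 1 (4 * X), ‖F n‖ ≤ K)
    (hβ : h * |β| ≤ 1 / 2) (hu : u + H ≤ 2 * X)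
    (hG : ‖∑ n ∈ Ioc u (u + Y), F n‖ ≤ Gb * Y) :
    ‖∑ n ∈ Ioc u (u + H), F n * ex (n * β)‖ ^ 2 ≤
      5 * ((H * (Gb / max 1 (H * |β|))) ^ 2 + (2 * H * (K * (H / Y))) ^ 2 +
        (h ^ 2 * (H / h : ℕ) * ∑ k ∈ range (H / h),
          ‖(∑ n ∈ Ioc (u + k * h) (u + k * h + h), F n) / (h : ℂ) -
            (∑ n ∈ Ioc (u + k * h) (u + k * h + Y), F n) / (Y : ℂ)‖ ^ 2) +
        (7 * H * (K * (h * |β|))) ^ 2 + (h * K) ^ 2) := by
  set m := H / h with hm
  have hmH : m * h ≤ H := Nat.div_mul_le_self H h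
  have hmH2 : H < m * h + h := by
    have := Nat.lt_div_mul_add (a := H) (b := h) (by omega)
    rw [← hm] at this
    exact this
  have hh0 : (0 : ℝ) < h := by exact_mod_cast hh
  have hH0 : (0 : ℝ) < H := by exact_mod_cast (by omega : 0 < H)
  have hY0 : (0 : ℝ) < Y := by exact_mod_cast (by omega : 0 < Y)
  have hmHr : (m : ℝ) * h ≤ H := by exact_mod_cast hmH
  set D : ℕ → ℂ := fun v => (∑ n ∈ Ioc v (v + h), F n) / (h : ℂ) - (∑ n ∈ Ioc v (v + Y), F n) / (Y : ℂ) with hD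
  -- decomposition
  have e0 : ∑ n ∈ Ioc u (u + H), F n * ex (n * β) =
      ∑ k ∈ range m, ∑ n ∈ Ioc (u + k * h) (u + k * h + h), F n * ex (n * β) +
        ∑ n ∈ Ioc (u + m * h) (u + H), F n * ex (n * β) := by
    rw [← split (fun n => F n * ex (n * β)) u h m]
    exact (sum_Ioc_consecutive _ (by omega) (by omega)).symm
  set WY : ℂ := ∑ n ∈ Ioc u (u + Y), F n with hWY
  set T1 : ℂ := (h / Y : ℂ) * WY * ∑ k ∈ range m, ex (((u + k * h : ℕ) : ℝ) * β) with hT1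
  set T2 : ℂ := (h / Y : ℂ) * ∑ k ∈ range m, ex (((u + k * h : ℕ) : ℝ) * β) *
    (∑ n ∈ Ioc (u + k * h) (u + k * h + Y), F n - WY) with hT2
  set T3 : ℂ := h * ∑ k ∈ range m, ex (((u + k * h : ℕ) : ℝ) * β) * D (u + k * h) with hT3
  set T4 : ℂ := ∑ k ∈ range m, (∑ n ∈ Ioc (u + k * h) (u + k * h + h), F n * ex (n * β) -
    ex (((u + k * h : ℕ) : ℝ) * β) * ∑ n ∈ Ioc (u + k * h) (u + k * h + h), F n) with hT4
  set T5 : ℂ := ∑ n ∈ Ioc (u + m * h) (u + H), F n * ex (n * β) with hT5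
  have hhc : (h : ℂ) ≠ 0 := by exact_mod_cast hh0.ne'
  have hYc : (Y : ℂ) ≠ 0 := by exact_mod_cast hY0.ne'
  have e1 : ∑ n ∈ Ioc u (u + H), F n * ex (n * β) = T1 + T2 + T3 + T4 + T5 := by
    rw [e0, hT1, hT2, hT3, hT4]
    rw [mul_sum (range m), mul_sum (range m), mul_sum (range m), ← sum_add_distrib, ← sum_add_distrib,
      ← sum_add_distrib]
    congr 1
    refine sum_congr rfl fun k _ => ?_
    rw [hD]
    dsimp only
    generalize (∑ n ∈ Ioc (u + k * h) (u + k * h + h), F n * ex (n * β)) = p1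
    generalize (∑ n ∈ Ioc (u + k * h) (u + k * h + h), F n) = p2
    generalize (∑ n ∈ Ioc (u + k * h) (u + k * h + Y), F n) = p3
    field_simp
    ring
  have b1 : ‖T1‖ ≤ H * (Gb / max 1 (H * |β|)) := by
    rw [hT1, norm_mul, norm_mul, norm_div, Complex.norm_natCast, Complex.norm_natCast]
    set g := ‖∑ k ∈ range m, ex (((u + k * h : ℕ) : ℝ) * β)‖ with hg
    have hg0 : 0 ≤ g := norm_nonneg _
    have h1 : (h : ℝ) / Y * ‖WY‖ ≤ h * Gb := by
      calc (h : ℝ) / Y * ‖WY‖ ≤ h / Y * (Gb * Y) := mul_le_mul_of_nonneg_left hG (by (clear * - hh hY0; positivity))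
        _ = h * Gb := by field_simp
    have h2 : h * g ≤ H / max 1 (H * |β|) := by
      rw [le_div_iff₀ (by (clear * -; positivity))]
      rcases le_total 1 (H * |β|) with h3 | h3
      · rw [max_eq_right h3]
        have h4 := geo m h u β hβ
        rw [← hg] at h4
        nlinarith only [hβ, hh0, h3, h4]
      · rw [max_eq_left h3, mul_one]
        have h5 : g ≤ m := by
          rw [hg]
          refine (norm_sum_le _ _).trans ?_
          simp [norm_ex]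
        nlinarith only [hmHr, h5]
    calc (h : ℝ) / Y * ‖WY‖ * g ≤ h * Gb * g := mul_le_mul_of_nonneg_right h1 hg0
      _ = Gb * (h * g) := by ring
      _ ≤ Gb * (H / max 1 (H * |β|)) := mul_le_mul_of_nonneg_left h2 hGb
      _ = _ := by ring
  have b2 : ‖T2‖ ≤ 2 * H * (K * (H / Y)) := by
    rw [hT2, norm_mul, norm_div, Complex.norm_natCast, Complex.norm_natCast]
    have h1 : ‖∑ k ∈ range m, ex (((u + k * h : ℕ) : ℝ) * β) *
        (∑ n ∈ Ioc (u + k * h) (u + k * h + Y), F n - WY)‖ ≤ m * (2 * (H * K)) := by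
      refine (norm_sum_le _ _).trans ?_
      calc ∑ k ∈ range m, ‖ex (((u + k * h : ℕ) : ℝ) * β) *
            (∑ n ∈ Ioc (u + k * h) (u + k * h + Y), F n - WY)‖ ≤ ∑ _k ∈ range m, 2 * (H * K) := by
            refine sum_le_sum fun k hk => ?_
            rw [mem_range] at hk
            have hkh : k * h + h ≤ H := by
              calc k * h + h = (k + 1) * h := by ring
                _ ≤ m * h := Nat.mul_le_mul_right h hk
                _ ≤ H := hmH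
            rw [norm_mul, norm_ex, one_mul]
            refine (slow F u (k * h) Y K (fun n hn => hF n ?_) (by omega)).trans ?_
            · rw [mem_Ioc] at hn
              rw [mem_Icc]
              omega
            · have : ((k * h : ℕ) : ℝ) ≤ H := by exact_mod_cast (by omega : k * h ≤ H)
              nlinarith only [hK, this]
        _ = m * (2 * (H * K)) := by rw [sum_const, card_range, nsmul_eq_mul]
    calc (h : ℝ) / Y * ‖∑ k ∈ range m, ex (((u + k * h : ℕ) : ℝ) * β) *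
        (∑ n ∈ Ioc (u + k * h) (u + k * h + Y), F n - WY)‖ ≤ h / Y * (m * (2 * (H * K))) :=
          mul_le_mul_of_nonneg_left h1 (by (clear * - hh hY0; positivity))
      _ = (m * h) * (2 * (H * K) / Y) := by ring
      _ ≤ H * (2 * (H * K) / Y) := mul_le_mul_of_nonneg_right hmHr (by (clear * - hK hH0 hY0; positivity))
      _ = _ := by ring
  have b3 : ‖T3‖ ^ 2 ≤ h ^ 2 * m * ∑ k ∈ range m, ‖D (u + k * h)‖ ^ 2 := by
    rw [hT3, norm_mul, Complex.norm_natCast, mul_pow, mul_assoc]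
    refine mul_le_mul_of_nonneg_left ?_ (by (clear * - hh; positivity))
    have h1 : ‖∑ k ∈ range m, ex (((u + k * h : ℕ) : ℝ) * β) * D (u + k * h)‖ ≤
        ∑ k ∈ range m, ‖D (u + k * h)‖ := by
      refine (norm_sum_le _ _).trans (le_of_eq (sum_congr rfl fun k _ => ?_))
      rw [norm_mul, norm_ex, one_mul]
    have h2 := sq_sum_le_card_mul_sum_sq (s := range m) (f := fun k => ‖D (u + k * h)‖)
    rw [card_range] at h2
    exact (pow_le_pow_left₀ (norm_nonneg _) h1 2).trans h2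
  have b4 : ‖T4‖ ≤ 7 * H * (K * (h * |β|)) := by
    rw [hT4]
    refine (norm_sum_le _ _).trans ?_
    calc ∑ k ∈ range m, ‖∑ n ∈ Ioc (u + k * h) (u + k * h + h), F n * ex (n * β) -
          ex (((u + k * h : ℕ) : ℝ) * β) * ∑ n ∈ Ioc (u + k * h) (u + k * h + h), F n‖
        ≤ ∑ _k ∈ range m, h * (K * (7 * (h * |β|))) := by
          refine sum_le_sum fun k hk => ?_
          rw [mem_range] at hk
          have hkh : k * h + h ≤ H := by
            calc k * h + h = (k + 1) * h := by ring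
              _ ≤ m * h := Nat.mul_le_mul_right h hk
              _ ≤ H := hmH
          refine phase F (u + k * h) h β K hK fun n hn => hF n ?_
          rw [mem_Ioc] at hn
          rw [mem_Icc]
          omega
      _ = (m * h) * (7 * (K * (h * |β|))) := by rw [sum_const, card_range, nsmul_eq_mul]; ring
      _ ≤ H * (7 * (K * (h * |β|))) := mul_le_mul_of_nonneg_right hmHr (by (clear * - hh hK; positivity))
      _ = _ := by ring
  have b5 : ‖T5‖ ≤ h * K := by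
    obtain ⟨d, hd⟩ := Nat.exists_eq_add_of_le hmH
    have h1 := triv (fun n => F n * ex (n * β)) (u + m * h) d K (fun n hn => by
      rw [norm_mul, norm_ex, mul_one]
      refine hF n ?_
      rw [mem_Ioc] at hn
      rw [mem_Icc]
      omega)
    have h2 : u + m * h + d = u + H := by omega
    rw [h2] at h1
    refine h1.trans (mul_le_mul_of_nonneg_right ?_ hK)
    exact_mod_cast (by omega : d ≤ h)
  rw [e1]
  have h6 : ‖T1 + T2 + T3 + T4 + T5‖ ≤ ‖T1‖ + ‖T2‖ + ‖T3‖ + ‖T4‖ + ‖T5‖ := by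
    refine (norm_add_le _ _).trans (add_le_add ?_ le_rfl)
    refine (norm_add_le _ _).trans (add_le_add ?_ le_rfl)
    refine (norm_add_le _ _).trans (add_le_add ?_ le_rfl)
    exact norm_add_le _ _
  refine (pow_le_pow_left₀ (norm_nonneg _) h6 2).trans ?_
  refine (five _ _ _ _ _).trans ?_
  have c1 := pow_le_pow_left₀ (norm_nonneg _) b1 2
  have c2 := pow_le_pow_left₀ (norm_nonneg _) b2 2
  have c4 := pow_le_pow_left₀ (norm_nonneg _) b4 2
  have c5 := pow_le_pow_left₀ (norm_nonneg _) b5 2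
  linarith only [b3, c1, c2, c4, c5]

end MainTermAux

open MainTermAux

theorem main_term : ∃ C : ℝ, 1 ≤ C ∧ ∀ (X H h Y : ℕ) (F : ℕ → ℂ) (β K D2 Gb : ℝ), 1 ≤ X → 1 ≤ h → h ≤ H → H ≤ Y → Y ≤ X →
    0 ≤ K → 0 ≤ Gb → 0 ≤ D2 → (∀ n ∈ Icc 1 (4 * X), ‖F n‖ ≤ K) → h * |β| ≤ 1 / 2 →
    ∑ u ∈ Icc X (2 * X), ‖(∑ n ∈ Ioc u (u + h), F n) / (h : ℂ) - (∑ n ∈ Ioc u (u + Y), F n) / (Y : ℂ)‖ ^ 2 ≤ X * D2 →
    (∀ u ∈ Icc X (2 * X), ‖∑ n ∈ Ioc u (u + Y), F n‖ ≤ Gb * Y) →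
    ∑ u ∈ Icc X (2 * X), ‖∑ n ∈ Ioc u (u + H), F n * ex (n * β)‖ ^ 2 ≤
      C * X * (H : ℝ) ^ 2 * ((Gb / max 1 (H * |β|)) ^ 2 + D2 + K ^ 2 * ((h : ℝ) / H + h * |β| + (H : ℝ) / Y) ^ 2) +
        C * (H : ℝ) ^ 3 * K ^ 2 := by
  refine ⟨490, by norm_num, ?_⟩
  intro X H h Y F β K D2 Gb hX hh hhH hHY hYX hK hGb hD2 hF hβ hD hG
  classical
  set D : ℕ → ℝ := fun v => ‖(∑ n ∈ Ioc v (v + h), F n) / (h : ℂ) - (∑ n ∈ Ioc v (v + Y), F n) / (Y : ℂ)‖ ^ 2 with hDd
  set m := H / h with hm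
  have hmH : m * h ≤ H := Nat.div_mul_le_self H h
  have hh0 : (0 : ℝ) < h := by exact_mod_cast hh
  have hH0 : (0 : ℝ) < H := by exact_mod_cast (by omega : 0 < H)
  have hY0 : (0 : ℝ) < Y := by exact_mod_cast (by omega : 0 < Y)
  have hX0 : (1 : ℝ) ≤ X := by exact_mod_cast hX
  have hmHr : (m : ℝ) * h ≤ H := by exact_mod_cast hmH
  have hβ0 : 0 ≤ |β| := abs_nonneg _
  set P : ℝ := Gb / max 1 (H * |β|) with hP
  have hP0 : 0 ≤ P := by positivity
  -- splitting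
  have hsub : (Icc X (2 * X)) = Icc X (2 * X - H) ∪ Ioc (2 * X - H) (2 * X) := by
    ext u
    simp only [mem_union, mem_Icc, mem_Ioc]
    omega
  have hdis : Disjoint (Icc X (2 * X - H)) (Ioc (2 * X - H) (2 * X)) := by
    rw [disjoint_left]
    intro u hu hu'
    rw [mem_Icc] at hu
    rw [mem_Ioc] at hu'
    omega
  -- the second part
  have hB : ∑ u ∈ Ioc (2 * X - H) (2 * X), ‖∑ n ∈ Ioc u (u + H), F n * ex (n * β)‖ ^ 2 ≤
      (H : ℝ) ^ 3 * K ^ 2 := by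
    calc ∑ u ∈ Ioc (2 * X - H) (2 * X), ‖∑ n ∈ Ioc u (u + H), F n * ex (n * β)‖ ^ 2
        ≤ ∑ _u ∈ Ioc (2 * X - H) (2 * X), ((H : ℝ) * K) ^ 2 := by
          refine sum_le_sum fun u hu => ?_
          rw [mem_Ioc] at hu
          refine pow_le_pow_left₀ (norm_nonneg _) (triv _ u H K fun n hn => ?_) 2
          rw [norm_mul, norm_ex, mul_one]
          refine hF n ?_
          rw [mem_Ioc] at hn
          rw [mem_Icc]
          omega
      _ = (H : ℝ) ^ 3 * K ^ 2 := by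
          rw [sum_const, Nat.card_Ioc, nsmul_eq_mul, show 2 * X - (2 * X - H) = H by omega]
          ring
  -- the first part
  have hcard : ((Icc X (2 * X - H)).card : ℝ) ≤ 2 * X := by
    rw [Nat.card_Icc]
    have h1 : 2 * X - H + 1 - X ≤ X + 1 := by omega
    have h2 : ((2 * X - H + 1 - X : ℕ) : ℝ) ≤ X + 1 := by exact_mod_cast h1
    linarith only [hX0, h2]
  have hDsum : ∑ u ∈ Icc X (2 * X - H), (h ^ 2 * (m : ℕ) * ∑ k ∈ range m, D (u + k * h) : ℝ) ≤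
      (H : ℝ) ^ 2 * (X * D2) := by
    rw [← mul_sum, sum_comm]
    have h1 : ∀ k ∈ range m, ∑ u ∈ Icc X (2 * X - H), D (u + k * h) ≤ X * D2 := by
      intro k hk
      rw [mem_range] at hk
      have hkh : k * h ≤ H := by
        calc k * h ≤ m * h := Nat.mul_le_mul_right h hk.le
          _ ≤ H := hmH
      calc ∑ u ∈ Icc X (2 * X - H), D (u + k * h)
          = ∑ v ∈ (Icc X (2 * X - H)).image (fun u => u + k * h), D v := by
            rw [sum_image]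
            intro a _ b _ hab
            dsimp only at hab
            omega
        _ ≤ ∑ v ∈ Icc X (2 * X), D v := by
            refine sum_le_sum_of_subset_of_nonneg ?_ fun v _ _ => sq_nonneg _
            intro v hv
            rw [mem_image] at hv
            obtain ⟨u, hu, rfl⟩ := hv
            rw [mem_Icc] at hu ⊢
            omega
        _ ≤ X * D2 := hD
    have h2 : ∑ k ∈ range m, ∑ u ∈ Icc X (2 * X - H), D (u + k * h) ≤ m * (X * D2) := by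
      refine (sum_le_sum h1).trans ?_
      rw [sum_const, card_range, nsmul_eq_mul]
    calc (h : ℝ) ^ 2 * (m : ℕ) * ∑ k ∈ range m, ∑ u ∈ Icc X (2 * X - H), D (u + k * h)
        ≤ (h : ℝ) ^ 2 * m * (m * (X * D2)) := mul_le_mul_of_nonneg_left h2 (by (clear * - hh; positivity))
      _ = (m * h) ^ 2 * (X * D2) := by ring
      _ ≤ (H : ℝ) ^ 2 * (X * D2) := by
          refine mul_le_mul_of_nonneg_right (pow_le_pow_left₀ (by (clear * - hh; positivity)) hmHr 2) (by (clear * - hX hD2; positivity))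
  set Q : ℝ := (H * P) ^ 2 + (2 * H * (K * (H / Y))) ^ 2 + (7 * H * (K * (h * |β|))) ^ 2 + (h * K) ^ 2 with hQ
  have hQ0 : 0 ≤ Q := by (clear * -; positivity)
  have hA : ∑ u ∈ Icc X (2 * X - H), ‖∑ n ∈ Ioc u (u + H), F n * ex (n * β)‖ ^ 2 ≤
      5 * (2 * X * Q) + 5 * ((H : ℝ) ^ 2 * (X * D2)) := by
    calc ∑ u ∈ Icc X (2 * X - H), ‖∑ n ∈ Ioc u (u + H), F n * ex (n * β)‖ ^ 2
        ≤ ∑ u ∈ Icc X (2 * X - H), (5 * Q + 5 * (h ^ 2 * (m : ℕ) * ∑ k ∈ range m, D (u + k * h) : ℝ)) := by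
          refine sum_le_sum fun u hu => ?_
          rw [mem_Icc] at hu
          have h1 := one_u X H h Y u F β K Gb hh hhH hHY hYX hK hGb hF hβ (by omega)
            (hG u (by rw [mem_Icc]; omega))
          refine h1.trans (le_of_eq ?_)
          rw [hQ]
          ring
      _ = (Icc X (2 * X - H)).card * (5 * Q) +
          5 * ∑ u ∈ Icc X (2 * X - H), (h ^ 2 * (m : ℕ) * ∑ k ∈ range m, D (u + k * h) : ℝ) := by
          rw [sum_add_distrib, sum_const, nsmul_eq_mul, ← mul_sum]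
      _ ≤ 2 * X * (5 * Q) + 5 * ((H : ℝ) ^ 2 * (X * D2)) := by
          refine add_le_add (mul_le_mul_of_nonneg_right hcard (by (clear * -; positivity))) ?_
          exact mul_le_mul_of_nonneg_left hDsum (by norm_num)
      _ = _ := by ring
  rw [hsub, sum_union hdis]
  refine (add_le_add hA hB).trans ?_
  -- numerics
  set x : ℝ := (h : ℝ) / H with hx
  set y : ℝ := h * |β| with hy
  set z : ℝ := (H : ℝ) / Y with hz
  have hx0 : 0 ≤ x := by (clear * - hh hH0; positivity)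
  have hy0 : 0 ≤ y := by (clear * - hh; positivity)
  have hz0 : 0 ≤ z := by (clear * - hH0 hY0; positivity)
  have hhx : (h : ℝ) = H * x := by rw [hx]; field_simp
  have hsq : x ^ 2 + y ^ 2 + z ^ 2 ≤ (x + y + z) ^ 2 := by
    nlinarith only [hx0, hy0, hz0, mul_nonneg hx0 hy0, mul_nonneg hx0 hz0, mul_nonneg hy0 hz0]
  have hQ2 : Q = (H : ℝ) ^ 2 * (P ^ 2 + K ^ 2 * (4 * z ^ 2 + 49 * y ^ 2 + x ^ 2)) := by
    rw [hQ, hhx]
    ring
  have hQ3 : Q ≤ (H : ℝ) ^ 2 * (P ^ 2 + 49 * (K ^ 2 * (x + y + z) ^ 2)) := by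
    rw [hQ2]
    refine mul_le_mul_of_nonneg_left ?_ (by (clear * - hH0; positivity))
    have h1 : K ^ 2 * (4 * z ^ 2 + 49 * y ^ 2 + x ^ 2) ≤ K ^ 2 * (49 * (x + y + z) ^ 2) := by
      refine mul_le_mul_of_nonneg_left ?_ (by (clear * -; positivity))
      nlinarith only [hsq, sq_nonneg x, sq_nonneg z]
    linarith only [h1]
  have hH2 : (0 : ℝ) ≤ (H : ℝ) ^ 2 := by (clear * - hH0; positivity)
  have hXH : 0 ≤ (X : ℝ) * (H : ℝ) ^ 2 := by (clear * - hX hH0; positivity)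
  calc 5 * (2 * X * Q) + 5 * ((H : ℝ) ^ 2 * (X * D2)) + (H : ℝ) ^ 3 * K ^ 2
      ≤ 5 * (2 * X * ((H : ℝ) ^ 2 * (P ^ 2 + 49 * (K ^ 2 * (x + y + z) ^ 2)))) +
        5 * ((H : ℝ) ^ 2 * (X * D2)) + (H : ℝ) ^ 3 * K ^ 2 := by
        have := mul_le_mul_of_nonneg_left hQ3 (by (clear * - hX; positivity) : (0 : ℝ) ≤ 5 * (2 * X))
        linarith only [this]
    _ = X * (H : ℝ) ^ 2 * (10 * P ^ 2 + 5 * D2 + 490 * (K ^ 2 * (x + y + z) ^ 2)) + (H : ℝ) ^ 3 * K ^ 2 := by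
        ring
    _ ≤ X * (H : ℝ) ^ 2 * (490 * (P ^ 2 + D2 + K ^ 2 * (x + y + z) ^ 2)) + 490 * ((H : ℝ) ^ 3 * K ^ 2) := by
        refine add_le_add (mul_le_mul_of_nonneg_left ?_ hXH) ?_
        · nlinarith only [hD2, sq_nonneg P]
        · have : 0 ≤ (H : ℝ) ^ 3 * K ^ 2 := by (clear * - hH0; positivity)
          linarith only [this]
    _ = _ := by ring

end Pool.Agent.VM
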