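import Pool.Agent.Lib.HLT.Defs
import Pool.Agent.Lib.VK.DefsC

/-!
# Module PartSum: partial summation in windows

Abel summation: with `W_j = ∑_{n ∈ (u,u+j]} F n`,
`∑_{n ∈ (u,u+H]} F n ex(nβ) = ex((u+H)β) W_H - ∑_{j=1}^{H-1} (ex((u+j+1)β) - ex((u+j)β)) W_j`, and `|ex(x+β) - ex(x)| ≤ 2π|β| ≤ 7|β|`. So
`|·|² ≤ 2 |W_H|² + 2 · 49 β² H ∑_{j<H} |W_j|²`; sum over `u`.
-/

set_option autoImplicit false

open Finset

namespace Pool.Agent.VM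

open Pool.Agent.VK Pool.Agent.HLT

namespace PartSumAux

lemma ex_step (x β : ℝ) : ‖ex (x + β) - ex x‖ ≤ 7 * |β| := by
  have h1 : ex (x + β) - ex x = ex x * (ex β - 1) := by
    rw [ex_add]
    ring
  rw [h1, norm_mul, norm_ex, one_mul]
  have h2 : ex β = Complex.exp (Complex.I * ((2 * Real.pi * β : ℝ) : ℂ)) := by
    unfold ex
    congr 1
    push_cast
    ring
  rw [h2]
  refine (Real.norm_exp_I_mul_ofReal_sub_one_le).trans ?_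
  rw [Real.norm_eq_abs, abs_mul, abs_mul, abs_two, abs_of_pos Real.pi_pos]
  have h3 := Real.pi_lt_d2
  have h4 := abs_nonneg β
  nlinarith

lemma abel (F e : ℕ → ℂ) (u H : ℕ) :
    ∑ n ∈ Ioc u (u + H), F n * e n = e (u + H) * ∑ n ∈ Ioc u (u + H), F n -
      ∑ j ∈ range H, (e (u + j + 1) - e (u + j)) * ∑ n ∈ Ioc u (u + j), F n := by
  induction H with
  | zero => simp
  | succ H ih =>
    have h1 : Ioc u (u + (H + 1)) = insert (u + H + 1) (Ioc u (u + H)) := by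
      ext n
      rw [mem_insert, mem_Ioc, mem_Ioc]
      omega
    have h2 : u + H + 1 ∉ Ioc u (u + H) := by
      rw [mem_Ioc]
      omega
    rw [h1, sum_insert h2, sum_insert h2, ih, sum_range_succ]
    rw [show u + (H + 1) = u + H + 1 by ring]
    ring

lemma pointwise (F : ℕ → ℂ) (β : ℝ) (u H : ℕ) (hH : 1 ≤ H) :
    ‖∑ n ∈ Ioc u (u + H), F n * ex (n * β)‖ ^ 2 ≤
      2 * ‖∑ n ∈ Ioc u (u + H), F n‖ ^ 2 +
        2 * (49 * |β| ^ 2 * H * ∑ j ∈ Ico 1 H, ‖∑ n ∈ Ioc u (u + j), F n‖ ^ 2) := by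
  rw [abel F (fun n => ex (n * β)) u H]
  set A : ℂ := ex ((u + H : ℕ) * β) * ∑ n ∈ Ioc u (u + H), F n with hA
  set B : ℂ := ∑ j ∈ range H, (ex ((u + j + 1 : ℕ) * β) - ex ((u + j : ℕ) * β)) *
    ∑ n ∈ Ioc u (u + j), F n with hB
  have h1 : ‖A - B‖ ^ 2 ≤ 2 * ‖A‖ ^ 2 + 2 * ‖B‖ ^ 2 := by
    have h2 := norm_sub_le A B
    have h3 : ‖A - B‖ ^ 2 ≤ (‖A‖ + ‖B‖) ^ 2 := pow_le_pow_left₀ (norm_nonneg _) h2 2
    nlinarith [sq_nonneg (‖A‖ - ‖B‖)]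
  have hA2 : ‖A‖ = ‖∑ n ∈ Ioc u (u + H), F n‖ := by
    rw [hA, norm_mul, norm_ex, one_mul]
  have hB2 : ‖B‖ ≤ ∑ j ∈ Ico 1 H, 7 * |β| * ‖∑ n ∈ Ioc u (u + j), F n‖ := by
    rw [hB]
    refine (norm_sum_le _ _).trans ?_
    have h4 : ∑ j ∈ Ico 1 H, 7 * |β| * ‖∑ n ∈ Ioc u (u + j), F n‖ =
        ∑ j ∈ range H, 7 * |β| * ‖∑ n ∈ Ioc u (u + j), F n‖ := by
      apply sum_subset
      · intro j hj
        rw [mem_Ico] at hj
        rw [mem_range]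
        omega
      · intro j hj hj2
        rw [mem_range] at hj
        rw [mem_Ico] at hj2
        have h5 : j = 0 := by omega
        subst h5
        simp
    rw [h4]
    refine sum_le_sum fun j _ => ?_
    rw [norm_mul]
    refine mul_le_mul_of_nonneg_right ?_ (norm_nonneg _)
    have h6 : ((u + j + 1 : ℕ) : ℝ) * β = (u + j : ℕ) * β + β := by
      push_cast
      ring
    rw [h6]
    exact ex_step _ _
  have hB3 : ‖B‖ ^ 2 ≤ 49 * |β| ^ 2 * H * ∑ j ∈ Ico 1 H, ‖∑ n ∈ Ioc u (u + j), F n‖ ^ 2 := by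
    have h5 : ‖B‖ ^ 2 ≤ (∑ j ∈ Ico 1 H, 7 * |β| * ‖∑ n ∈ Ioc u (u + j), F n‖) ^ 2 :=
      pow_le_pow_left₀ (norm_nonneg _) hB2 2
    refine h5.trans ?_
    refine (sq_sum_le_card_mul_sum_sq).trans ?_
    rw [Nat.card_Ico]
    have h7 : ((H - 1 : ℕ) : ℝ) ≤ H := by exact_mod_cast Nat.sub_le H 1
    have h8 : ∑ j ∈ Ico 1 H, (7 * |β| * ‖∑ n ∈ Ioc u (u + j), F n‖) ^ 2 =
        49 * |β| ^ 2 * ∑ j ∈ Ico 1 H, ‖∑ n ∈ Ioc u (u + j), F n‖ ^ 2 := by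
      rw [mul_sum]
      refine sum_congr rfl fun j _ => ?_
      ring
    rw [h8]
    have h9 : (0 : ℝ) ≤ 49 * |β| ^ 2 * ∑ j ∈ Ico 1 H, ‖∑ n ∈ Ioc u (u + j), F n‖ ^ 2 :=
      mul_nonneg (by positivity) (sum_nonneg fun _ _ => sq_nonneg _)
    calc _ ≤ (H : ℝ) * (49 * |β| ^ 2 * ∑ j ∈ Ico 1 H, ‖∑ n ∈ Ioc u (u + j), F n‖ ^ 2) :=
          mul_le_mul_of_nonneg_right h7 h9
      _ = _ := by ring
  rw [hA2] at h1
  have h10 : ‖A - B‖ ^ 2 ≤ 2 * ‖∑ n ∈ Ioc u (u + H), F n‖ ^ 2 +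
        2 * (49 * |β| ^ 2 * H * ∑ j ∈ Ico 1 H, ‖∑ n ∈ Ioc u (u + j), F n‖ ^ 2) := by linarith
  exact h10

end PartSumAux

open PartSumAux in
theorem part_sum (X H : ℕ) (F : ℕ → ℂ) (β W : ℝ) (hH : 1 ≤ H)
    (hW : ∀ h : ℕ, 1 ≤ h → h ≤ H → ∑ u ∈ Icc X (2 * X), ‖∑ n ∈ Ioc u (u + h), F n‖ ^ 2 ≤ W) :
    ∑ u ∈ Icc X (2 * X), ‖∑ n ∈ Ioc u (u + H), F n * ex (n * β)‖ ^ 2 ≤ 2 * (1 + 49 * (H * |β|) ^ 2) * W := by
  have hW0 : 0 ≤ W := le_trans (sum_nonneg fun _ _ => sq_nonneg _) (hW 1 le_rfl hH)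
  have hH0 : (0 : ℝ) ≤ H := Nat.cast_nonneg H
  calc ∑ u ∈ Icc X (2 * X), ‖∑ n ∈ Ioc u (u + H), F n * ex (n * β)‖ ^ 2
      ≤ ∑ u ∈ Icc X (2 * X), (2 * ‖∑ n ∈ Ioc u (u + H), F n‖ ^ 2 +
        2 * (49 * |β| ^ 2 * H * ∑ j ∈ Ico 1 H, ‖∑ n ∈ Ioc u (u + j), F n‖ ^ 2)) :=
        sum_le_sum fun u _ => pointwise F β u H hH
    _ = 2 * ∑ u ∈ Icc X (2 * X), ‖∑ n ∈ Ioc u (u + H), F n‖ ^ 2 +
        2 * (49 * |β| ^ 2 * H * ∑ j ∈ Ico 1 H, ∑ u ∈ Icc X (2 * X),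
          ‖∑ n ∈ Ioc u (u + j), F n‖ ^ 2) := by
        rw [sum_add_distrib, ← mul_sum, ← mul_sum, ← mul_sum, sum_comm]
    _ ≤ 2 * W + 2 * (49 * |β| ^ 2 * H * ∑ _j ∈ Ico 1 H, W) := by
        refine add_le_add (mul_le_mul_of_nonneg_left (hW H hH le_rfl) (by norm_num)) ?_
        refine mul_le_mul_of_nonneg_left ?_ (by norm_num)
        refine mul_le_mul_of_nonneg_left ?_ (by positivity)
        refine sum_le_sum fun j hj => ?_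
        rw [mem_Ico] at hj
        exact hW j hj.1 hj.2.le
    _ ≤ 2 * W + 2 * (49 * |β| ^ 2 * H * (H * W)) := by
        rw [sum_const, Nat.card_Ico, nsmul_eq_mul]
        have h7 : ((H - 1 : ℕ) : ℝ) ≤ H := by exact_mod_cast Nat.sub_le H 1
        refine add_le_add le_rfl (mul_le_mul_of_nonneg_left ?_ (by norm_num))
        exact mul_le_mul_of_nonneg_left (mul_le_mul_of_nonneg_right h7 hW0) (by positivity)
    _ = _ := by ring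

end Pool.Agent.VM
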