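import Pool.Agent.Lib.VK.DefsC
import Pool.Agent.Lib.VL.TypeOneWin

/-!
# Module TOneDif: Type I sums, difference of a short and a long window

Adapt `VL.type_one_win` (file VL/TypeOneWin.lean). Detect `m ∣ n` by additive characters: with `gam M c d = ∑_{d ∣ m ≤ M} c m / m`
(`|gam| ≤ K (1 + log M)/d`),
`∑_{n ∈ (u,u+h]} (∑_{m ∣ n} c m) ex(n a0/q) = ∑_{d ≤ M} gam d ∑_{l mod d, (l,d)=1} ex(u β) D_h(β)`, `β = a0/q + l/d`,
`D_h(β) = ∑_{1 ≤ j ≤ h} ex(j β)`. The difference of the two averages has the multiplier `m(β) = D_h(β)/h - D_Y(β)/Y`.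
If `β` is an integer, `m(β) = 0`. Otherwise `nrm β ≥ 1/(q d)` and `|m(β)| ≤ 2 mn h β / h`
(`mn X β / X` is nonincreasing in `X`; `|D_h(β)| ≤ mn h β`).
Dyadic classes `d ∈ [D, 2D)`: the points `l/d` are `1/(4D²)`-spaced, so by `VL.ls_dual`
`∑_{u ≤ x} |class|² ≤ C (x + D²) K² (1+log M)² D^(-2) ∑_β |m(β)|²` and by `VL.spaced_sum` (restricted to the non-integral `β`, for which
`mn h β² ≤ min(h, q d)²`) `∑_β |m(β)|² ≤ (4/h²) C (min(h, 2qD)² + h D²)`. The sum over the `≤ 2(1+log M)` classes (Cauchy) of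
`D^(-2)(x + D²)(min(1, 2qD/h)² + D²/h)` is `≤ C (1+log M)(x (q/h)² + x/h + 1 + M²/h)`: for `D ≤ h/q` use
`D^(-2)(2qD/h)² = 4(q/h)²`, for `D > h/q` use `D^(-2) ≤ (q/h)²`.
-/

set_option autoImplicit false

open Finset Filter

namespace Pool.Agent.VM

open Pool.Agent.VK Pool.Agent.HLT Pool.Agent.VL

namespace TOneDif

open Pool.Agent.VL.TOWAux

/-- the multiplier -/
noncomputable def mult (h Y : ℕ) (β : ℝ) : ℂ :=
  (∑ j ∈ Icc 1 h, ex (j * β)) / (h : ℂ) - (∑ j ∈ Icc 1 Y, ex (j * β)) / (Y : ℂ)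

lemma mult_int {h Y : ℕ} (hh : 1 ≤ h) (hY : 1 ≤ Y) {β : ℝ} {k : ℤ} (hk : β = k) :
    mult h Y β = 0 := by
  have h1 : ∀ N : ℕ, 1 ≤ N → (∑ j ∈ Icc 1 N, ex (j * β)) / (N : ℂ) = 1 := by
    intro N hN
    have h2 : ∀ j ∈ Icc 1 N, ex (j * β) = 1 := by
      intro j _
      rw [ex_nat_mul, hk, ex_int, one_pow]
    rw [Finset.sum_congr rfl h2, Finset.sum_const, Nat.card_Icc, Nat.add_sub_cancel]
    have hN0 : (N : ℂ) ≠ 0 := by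
      have : N ≠ 0 := by omega
      exact_mod_cast this
    simp [hN0]
  unfold mult
  rw [h1 h hh, h1 Y hY, sub_self]

lemma mn_div_anti {X X' : ℝ} (hX : 0 < X) (h : X ≤ X') (α : ℝ) : mn X' α / X' ≤ mn X α / X := by
  have hX' : 0 < X' := lt_of_lt_of_le hX h
  have hn := nrm_nonneg α
  by_cases h1 : 2 * nrm α * X ≤ 1
  · have e : mn X α = X := by unfold mn; rw [if_pos h1]
    rw [e, div_self hX.ne', div_le_one hX']
    exact mn_le_left hX'.le α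
  · have e : mn X α = 1 / (2 * nrm α) := by unfold mn; rw [if_neg h1]
    have h2 : 0 < nrm α := by
      rcases hn.eq_or_lt with h0 | h0
      · exfalso; apply h1; rw [← h0]; norm_num
      · exact h0
    rw [e]
    calc mn X' α / X' ≤ (1 / (2 * nrm α)) / X' :=
          div_le_div_of_nonneg_right (mn_le_right hX'.le h2) hX'.le
      _ ≤ (1 / (2 * nrm α)) / X := div_le_div_of_nonneg_left (by positivity) hX h

lemma norm_mult {h Y : ℕ} (hh : 1 ≤ h) (hY : h ≤ Y) (β : ℝ) :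
    ‖mult h Y β‖ ≤ 2 * (mn h β / h) := by
  have hh0 : (0 : ℝ) < h := by exact_mod_cast hh
  have hY0 : (0 : ℝ) < Y := by exact_mod_cast (by omega : 0 < Y)
  have hhY : (h : ℝ) ≤ Y := by exact_mod_cast hY
  unfold mult
  refine (norm_sub_le _ _).trans ?_
  rw [norm_div, norm_div, Complex.norm_natCast, Complex.norm_natCast]
  have h1 : ‖∑ j ∈ Icc 1 h, ex (j * β)‖ / (h : ℝ) ≤ mn h β / h :=
    div_le_div_of_nonneg_right (geom h β) hh0.le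
  have h2 : ‖∑ j ∈ Icc 1 Y, ex (j * β)‖ / (Y : ℝ) ≤ mn Y β / Y :=
    div_le_div_of_nonneg_right (geom Y β) hY0.le
  have h3 := mn_div_anti hh0 hhY β
  linarith

lemma term_le {V q d b : ℕ} {h : ℝ} (hh : 0 ≤ h) (hV : 1 ≤ V) (hq : 1 ≤ q) {a0 : ℤ} (hd : 1 ≤ d)
    (hdV : d < 2 * V) (hni : ¬ ∃ k : ℤ, (b : ℝ) / d + a0 / q = k) :
    mn h ((b : ℝ) / d + a0 / q) ^ 2 ≤ (q : ℝ) ^ 2 * (V : ℝ) ^ 2 := by
  have hV0 : (0 : ℝ) < V := by exact_mod_cast hV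
  have hq0 : (0 : ℝ) < q := by exact_mod_cast hq
  have hd0 : (0 : ℝ) < d := by exact_mod_cast hd
  have hdV' : (d : ℝ) ≤ 2 * V := by exact_mod_cast hdV.le
  set k : ℤ := round ((b : ℝ) / d + a0 / q) with hk
  set z : ℤ := b * q + a0 * d - k * (d * q) with hz
  have e : (b : ℝ) / d + a0 / q - k = z / (d * q) := by
    rw [hz]
    push_cast
    field_simp
  have hz0 : z ≠ 0 := by
    intro h0
    rw [h0, Int.cast_zero, zero_div, sub_eq_zero] at e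
    exact hni ⟨k, e⟩
  have h5 : (1 : ℝ) ≤ |(z : ℝ)| := by
    have : 1 ≤ |z| := Int.one_le_abs hz0
    exact_mod_cast this
  have h6 : 1 / (2 * V * q) ≤ nrm ((b : ℝ) / d + a0 / q) := by
    unfold nrm
    rw [← hk, e, abs_div, abs_of_pos (by positivity : (0 : ℝ) < d * q)]
    refine div_le_div₀ (by linarith only [h5]) h5 (by positivity) ?_
    exact mul_le_mul_of_nonneg_right hdV' hq0.le
  have h12 : 0 < nrm ((b : ℝ) / d + a0 / q) := lt_of_lt_of_le (by positivity) h6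
  have h13 : mn h ((b : ℝ) / d + a0 / q) ≤ q * V := by
    refine (mn_le_right hh h12).trans ?_
    calc 1 / (2 * nrm ((b : ℝ) / d + a0 / q)) ≤ 1 / (2 * (1 / (2 * V * q))) :=
          div_le_div_of_nonneg_left zero_le_one (by positivity) (by linarith only [h6])
      _ = q * V := by field_simp
  calc mn h ((b : ℝ) / d + a0 / q) ^ 2 ≤ (q * V) ^ 2 := pow_le_pow_left₀ (mn_nonneg hh _) h13 2
    _ = (q : ℝ) ^ 2 * (V : ℝ) ^ 2 := by ring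

/-- the numerical inequality -/
lemma num {x h q V M G : ℝ} (hx : 1 ≤ x) (hh : 1 ≤ h) (hV : 1 ≤ V) (hVM : V ≤ M) (hG0 : 0 ≤ G)
    (hG1 : G ≤ h ^ 2) (hG2 : G ≤ q ^ 2 * V ^ 2) :
    (x + 1 + 4 * V ^ 2) * ((G + 4 * V ^ 2 * h) / (V ^ 2 * h ^ 2)) ≤
      16 * (x * (q ^ 2 / h ^ 2 + 1 / h) + M ^ 2 / h + 1) := by
  have hh0 : 0 < h := by linarith
  have hV0 : 0 < V := by linarith
  have e1 : (G + 4 * V ^ 2 * h) / (V ^ 2 * h ^ 2) = G / (V ^ 2 * h ^ 2) + 4 / h := by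
    field_simp
  have h1 : G / (V ^ 2 * h ^ 2) ≤ q ^ 2 / h ^ 2 := by
    rw [div_le_div_iff₀ (by positivity) (by positivity)]
    calc G * h ^ 2 ≤ (q ^ 2 * V ^ 2) * h ^ 2 := mul_le_mul_of_nonneg_right hG2 (by positivity)
      _ = q ^ 2 * (V ^ 2 * h ^ 2) := by ring
  have h2 : 4 * V ^ 2 * (G / (V ^ 2 * h ^ 2)) ≤ 4 := by
    have e2 : 4 * V ^ 2 * (G / (V ^ 2 * h ^ 2)) = 4 * (G / h ^ 2) := by
      field_simp
    rw [e2]
    have : G / h ^ 2 ≤ 1 := by rw [div_le_one (by positivity)]; exact hG1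
    linarith only [this]
  have h3 : 4 * V ^ 2 * (4 / h) ≤ 16 * (M ^ 2 / h) := by
    have : V ^ 2 ≤ M ^ 2 := pow_le_pow_left₀ hV0.le hVM 2
    have h4 : V ^ 2 / h ≤ M ^ 2 / h := div_le_div_of_nonneg_right this hh0.le
    calc 4 * V ^ 2 * (4 / h) = 16 * (V ^ 2 / h) := by ring
      _ ≤ _ := by linarith only [h4]
  have h0 : 0 ≤ G / (V ^ 2 * h ^ 2) := by positivity
  have h0' : 0 ≤ 1 / h := by positivity
  have h00 : 0 ≤ q ^ 2 / h ^ 2 := by positivity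
  have h5 : (x + 1) * (G / (V ^ 2 * h ^ 2)) ≤ (2 * x) * (q ^ 2 / h ^ 2) :=
    mul_le_mul (by linarith only [hx]) h1 h0 (by linarith only [hx])
  have h6 : (x + 1) * (4 / h) ≤ (2 * x) * (4 / h) :=
    mul_le_mul_of_nonneg_right (by linarith only [hx]) (by positivity)
  have h7 : 0 ≤ x * (q ^ 2 / h ^ 2) := by positivity
  have h8 : 0 ≤ x * (1 / h) := by positivity
  have h9 : (2 * x) * (4 / h) = 8 * (x * (1 / h)) := by ring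
  rw [e1]
  calc (x + 1 + 4 * V ^ 2) * (G / (V ^ 2 * h ^ 2) + 4 / h) =
      (x + 1) * (G / (V ^ 2 * h ^ 2)) + (x + 1) * (4 / h) + 4 * V ^ 2 * (G / (V ^ 2 * h ^ 2)) +
        4 * V ^ 2 * (4 / h) := by ring
    _ ≤ (2 * x) * (q ^ 2 / h ^ 2) + 8 * (x * (1 / h)) + 4 + 16 * (M ^ 2 / h) := by linarith only [h2, h3, h5, h6, h9]
    _ ≤ 16 * (x * (q ^ 2 / h ^ 2 + 1 / h) + M ^ 2 / h + 1) := by
        rw [mul_add x]
        linarith only [h7, h8]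

/-- one class -/
lemma class_bound {C₁ C₂ : ℝ} (hC₁ : 1 ≤ C₁) (hC₂ : 1 ≤ C₂)
    (hsp : ∀ {ι : Type} (s : Finset ι) (β : ι → ℝ) (δ H G : ℝ), 0 < δ → δ ≤ 1 → 1 ≤ H →
      (∀ i ∈ s, ∀ j ∈ s, i ≠ j → δ ≤ nrm (β i - β j)) → 0 ≤ G → (∀ i ∈ s, mn H (β i) ^ 2 ≤ G) →
      ∑ i ∈ s, mn H (β i) ^ 2 ≤ C₂ * (G + H / δ))
    (hls : ∀ {ι : Type} (s : Finset ι) (β : ι → ℝ) (c : ι → ℂ) (δ : ℝ) (X : ℕ), 0 < δ → δ ≤ 1 →
      (∀ i ∈ s, ∀ j ∈ s, i ≠ j → δ ≤ nrm (β i - β j)) →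
      ∑ y ∈ range X, ‖∑ i ∈ s, c i * ex (y * β i)‖ ^ 2 ≤ C₁ * (X + 1 / δ) * ∑ i ∈ s, ‖c i‖ ^ 2)
    {M x h Y q : ℕ} {a0 : ℤ} {c : ℕ → ℂ} {K : ℝ} (hM : 1 ≤ M) (hh : 1 ≤ h) (hhY : h ≤ Y)
    (hYx : Y ≤ x) (hq : 1 ≤ q) (hK : 0 ≤ K) (hc : ∀ m, ‖c m‖ ≤ K) (i : ℕ)
    (hi : i ≤ Nat.log 2 M) :
    ∑ u ∈ range (x + 1), ‖∑ p ∈ PV M i, gam M c p.1 * mult h Y ((p.2 : ℝ) / p.1 + a0 / q) *
        ex (u * ((p.2 : ℝ) / p.1 + a0 / q))‖ ^ 2 ≤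
      64 * (C₁ * C₂) * (K ^ 2 * (1 + Real.log M) ^ 2 *
        (x * ((q : ℝ) ^ 2 / (h : ℝ) ^ 2 + 1 / h) + (M : ℝ) ^ 2 / h + 1)) := by
  classical
  obtain ⟨V, hV⟩ : ∃ V : ℕ, V = 2 ^ i := ⟨_, rfl⟩
  have hV1 : 1 ≤ V := by rw [hV]; exact Nat.one_le_two_pow
  have hVM : V ≤ M := by
    rw [hV]
    refine (Nat.pow_le_pow_right (by norm_num) hi).trans ?_
    exact Nat.pow_log_le_self 2 (by omega)
  have hVr : (1 : ℝ) ≤ V := by exact_mod_cast hV1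
  have hV0 : (0 : ℝ) < V := by linarith only [hVr]
  have hVMr : (V : ℝ) ≤ M := by exact_mod_cast hVM
  have hMr : (1 : ℝ) ≤ M := by exact_mod_cast hM
  have hhr : (1 : ℝ) ≤ h := by exact_mod_cast hh
  have hh0 : (0 : ℝ) ≤ h := by linarith only [hhr]
  have hh00 : (0 : ℝ) < h := by linarith only [hhr]
  have hxr : (1 : ℝ) ≤ x := by exact_mod_cast (by omega : 1 ≤ x)
  have hq0 : (0 : ℝ) < q := by exact_mod_cast hq
  have hlog : 0 ≤ Real.log M := Real.log_nonneg hMr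
  have hmem : ∀ p ∈ PV M i, 1 ≤ p.1 ∧ p.1 ≤ M ∧ p.2 < p.1 ∧ Nat.Coprime p.2 p.1 ∧ V ≤ p.1 ∧
      p.1 < 2 * V := by
    intro p hp
    unfold PV at hp
    rw [Finset.mem_filter, mem_PP] at hp
    obtain ⟨⟨h1, h2, h3, h4⟩, h5⟩ := hp
    refine ⟨h1, h2, h3, h4, ?_, ?_⟩
    · rw [hV, ← h5]
      exact Nat.pow_log_le_self 2 (by omega)
    · have h6 := Nat.lt_pow_succ_log_self (b := 2) (by norm_num) p.1
      rw [h5, pow_succ] at h6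
      rw [hV]
      omega
  obtain ⟨β, hβ⟩ : ∃ β : ℕ × ℕ → ℝ, ∀ p, β p = (p.2 : ℝ) / p.1 + a0 / q := ⟨_, fun _ => rfl⟩
  obtain ⟨w, hw⟩ : ∃ w : ℕ × ℕ → ℂ, ∀ p, w p = gam M c p.1 * mult h Y (β p) := ⟨_, fun _ => rfl⟩
  obtain ⟨δ, hδ⟩ : ∃ δ : ℝ, δ = 1 / (4 * (V : ℝ) ^ 2) := ⟨_, rfl⟩
  have hδ0 : 0 < δ := by rw [hδ]; (clear * - hV1; positivity)
  have hδ1 : δ ≤ 1 := by
    rw [hδ, div_le_one (by (clear * - hV1; positivity))]
    nlinarith only [hVr]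
  set s : Finset (ℕ × ℕ) := (PV M i).filter (fun p => ¬ ∃ k : ℤ, β p = k) with hs
  have hsub : s ⊆ PV M i := Finset.filter_subset _ _
  have hspace : ∀ p ∈ s, ∀ p' ∈ s, p ≠ p' → δ ≤ nrm (β p - β p') := by
    intro p hp p' hp' hne
    obtain ⟨h1, h2, h3, h4, h5, h6⟩ := hmem p (hsub hp)
    obtain ⟨h1', h2', h3', h4', h5', h6'⟩ := hmem p' (hsub hp')
    rw [hβ, hβ, hδ]
    exact spacing hV1 h1 h1' h6 h6' h3 h3' h4 h4' hne _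
  obtain ⟨G, hG⟩ : ∃ G : ℝ, G = min ((h : ℝ) ^ 2) ((q : ℝ) ^ 2 * (V : ℝ) ^ 2) := ⟨_, rfl⟩
  have hG0 : 0 ≤ G := by rw [hG]; exact le_min (by (clear * - hh; positivity)) (by (clear * - hq hV1; positivity))
  have hG1 : G ≤ (h : ℝ) ^ 2 := by rw [hG]; exact min_le_left _ _
  have hG2 : G ≤ (q : ℝ) ^ 2 * (V : ℝ) ^ 2 := by rw [hG]; exact min_le_right _ _
  have hterm : ∀ p ∈ s, mn h (β p) ^ 2 ≤ G := by
    intro p hp
    obtain ⟨h1, h2, h3, h4, h5, h6⟩ := hmem p (hsub hp)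
    have hni := (Finset.mem_filter.1 hp).2
    rw [hG]
    refine le_min ?_ ?_
    · exact pow_le_pow_left₀ (mn_nonneg hh0 _) (mn_le_left hh0 _) 2
    · rw [hβ] at hni ⊢
      exact term_le hh0 hV1 hq h1 h6 hni
  have h1 := hls s β w δ (x + 1) hδ0 hδ1 hspace
  have h2 := hsp s β δ h G hδ0 hδ1 hhr hspace hG0 hterm
  have hsum : ∀ u : ℕ, ∑ p ∈ PV M i, gam M c p.1 * mult h Y ((p.2 : ℝ) / p.1 + a0 / q) *
        ex (u * ((p.2 : ℝ) / p.1 + a0 / q)) = ∑ p ∈ s, w p * ex (u * β p) := by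
    intro u
    have e0 : ∀ p ∈ PV M i, gam M c p.1 * mult h Y ((p.2 : ℝ) / p.1 + a0 / q) *
        ex (u * ((p.2 : ℝ) / p.1 + a0 / q)) = w p * ex (u * β p) := by
      intro p _
      rw [hw, hβ]
    rw [Finset.sum_congr rfl e0, hs, Finset.sum_filter]
    refine Finset.sum_congr rfl fun p _ => ?_
    by_cases hk : ∃ k : ℤ, β p = k
    · rw [if_neg (not_not.2 hk)]
      obtain ⟨k, hk⟩ := hk
      rw [hw, mult_int hh (hh.trans hhY) hk]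
      simp
    · rw [if_pos hk]
  simp only [hsum]
  obtain ⟨B, hB⟩ : ∃ B : ℝ, B = K / V * (1 + Real.log M) * (2 / h) := ⟨_, rfl⟩
  have hwn : ∀ p ∈ s, ‖w p‖ ^ 2 ≤ B ^ 2 * mn h (β p) ^ 2 := by
    intro p hp
    obtain ⟨h1, h2, h3, h4, h5, h6⟩ := hmem p (hsub hp)
    rw [← mul_pow]
    refine pow_le_pow_left₀ (norm_nonneg _) ?_ 2
    rw [hw, norm_mul]
    have e1 : ‖gam M c p.1‖ ≤ K / V * (1 + Real.log M) := by
      refine (norm_gam hK hc h1 h2).trans ?_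
      refine mul_le_mul_of_nonneg_right ?_ (by linarith only [hlog])
      exact div_le_div_of_nonneg_left hK hV0 (by exact_mod_cast h5)
    calc ‖gam M c p.1‖ * ‖mult h Y (β p)‖ ≤
          (K / V * (1 + Real.log M)) * (2 * (mn h (β p) / h)) :=
          mul_le_mul e1 (norm_mult hh hhY _) (norm_nonneg _) (by (clear * - hK hV1; positivity))
      _ = B * mn h (β p) := by rw [hB]; ring
  have h3 : ∑ p ∈ s, ‖w p‖ ^ 2 ≤ B ^ 2 * (C₂ * (G + h / δ)) := by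
    refine (Finset.sum_le_sum hwn).trans ?_
    rw [← Finset.mul_sum]
    exact mul_le_mul_of_nonneg_left h2 (by (clear * -; positivity))
  have e1 : 1 / δ = 4 * (V : ℝ) ^ 2 := by rw [hδ, one_div_one_div]
  have e2 : (h : ℝ) / δ = 4 * (V : ℝ) ^ 2 * h := by
    rw [div_eq_mul_one_div, e1]
    ring
  rw [e1] at h1
  rw [e2] at h3
  refine h1.trans ?_
  have h4 : C₁ * (((x + 1 : ℕ) : ℝ) + 4 * (V : ℝ) ^ 2) * ∑ p ∈ s, ‖w p‖ ^ 2 ≤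
      C₁ * (((x + 1 : ℕ) : ℝ) + 4 * (V : ℝ) ^ 2) *
        (B ^ 2 * (C₂ * (G + 4 * (V : ℝ) ^ 2 * h))) := by
    refine mul_le_mul_of_nonneg_left h3 ?_
    have : (0 : ℝ) ≤ ((x + 1 : ℕ) : ℝ) := Nat.cast_nonneg _
    have : 0 ≤ 4 * (V : ℝ) ^ 2 := by (clear * - hV1; positivity)
    exact mul_nonneg (by linarith only [hC₁]) (by linarith only [this])
  refine h4.trans ?_
  have e3 : C₁ * (((x + 1 : ℕ) : ℝ) + 4 * (V : ℝ) ^ 2) *
        (B ^ 2 * (C₂ * (G + 4 * (V : ℝ) ^ 2 * h))) =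
      (4 * (C₁ * C₂) * (K ^ 2 * (1 + Real.log M) ^ 2)) *
        (((x : ℝ) + 1 + 4 * (V : ℝ) ^ 2) *
          ((G + 4 * (V : ℝ) ^ 2 * h) / ((V : ℝ) ^ 2 * (h : ℝ) ^ 2))) := by
    rw [hB]
    push_cast
    field_simp
    ring
  rw [e3]
  have hCC : 0 ≤ C₁ * C₂ := mul_nonneg (by linarith only [hC₁]) (by linarith only [hC₂])
  have h5 := num hxr hhr hVr hVMr hG0 hG1 hG2
  calc (4 * (C₁ * C₂) * (K ^ 2 * (1 + Real.log M) ^ 2)) *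
        (((x : ℝ) + 1 + 4 * (V : ℝ) ^ 2) *
          ((G + 4 * (V : ℝ) ^ 2 * h) / ((V : ℝ) ^ 2 * (h : ℝ) ^ 2))) ≤
      (4 * (C₁ * C₂) * (K ^ 2 * (1 + Real.log M) ^ 2)) *
        (16 * (x * ((q : ℝ) ^ 2 / (h : ℝ) ^ 2 + 1 / h) + (M : ℝ) ^ 2 / h + 1)) :=
        mul_le_mul_of_nonneg_left h5 (by (clear * - hC₁ hC₂; positivity))
    _ = _ := by ring

end TOneDif

open TOneDif Pool.Agent.VL.TOWAux in
theorem type_one_dif : ∃ C : ℝ, 1 ≤ C ∧ ∀ (M x h Y q : ℕ) (a0 : ℤ) (c : ℕ → ℂ) (K : ℝ), 1 ≤ M → 1 ≤ h → h ≤ Y → Y ≤ x →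
    1 ≤ q → 0 ≤ K → (∀ m, ‖c m‖ ≤ K) →
    ∑ u ∈ range (x + 1),
        ‖(∑ n ∈ Ioc u (u + h), (∑ m ∈ (Icc 1 M).filter (fun m => m ∣ n), c m) * ex (n * (a0 / q))) / (h : ℂ) -
          (∑ n ∈ Ioc u (u + Y), (∑ m ∈ (Icc 1 M).filter (fun m => m ∣ n), c m) * ex (n * (a0 / q))) / (Y : ℂ)‖ ^ 2 ≤
      C * K ^ 2 * (1 + Real.log M) ^ 4 * (x * ((q : ℝ) ^ 2 / (h : ℝ) ^ 2 + 1 / h) + (M : ℝ) ^ 2 / h + 1) := by
  obtain ⟨C₂, hC₂, hsp⟩ := spaced_sum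
  obtain ⟨C₁, hC₁, hls⟩ := ls_dual
  have hCC : 1 ≤ C₁ * C₂ := one_le_mul_of_one_le_of_one_le hC₁ hC₂
  refine ⟨256 * (C₁ * C₂), by linarith, ?_⟩
  intro M x h Y q a0 c K hM hh hhY hYx hq hK hc
  have hMr : (1 : ℝ) ≤ M := by exact_mod_cast hM
  have hlog : 0 ≤ Real.log M := Real.log_nonneg hMr
  have hh0 : (0 : ℝ) < h := by exact_mod_cast hh
  obtain ⟨I, hI⟩ : ∃ I : ℕ, I = Nat.log 2 M + 1 := ⟨_, rfl⟩
  have hIr : (I : ℝ) ≤ 2 * (1 + Real.log M) := by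
    have h1 : ((Nat.log 2 M : ℕ) : ℝ) * Real.log 2 ≤ Real.log M := by
      rw [← Real.log_pow]
      refine Real.log_le_log (by positivity) ?_
      exact_mod_cast Nat.pow_log_le_self 2 (by omega : M ≠ 0)
    have h2 := Real.log_two_gt_d9
    have h3 : (0 : ℝ) ≤ ((Nat.log 2 M : ℕ) : ℝ) := Nat.cast_nonneg _
    rw [hI]
    push_cast
    nlinarith only [hlog, h1, h2]
  obtain ⟨T, hT⟩ : ∃ T : ℝ, T = x * ((q : ℝ) ^ 2 / (h : ℝ) ^ 2 + 1 / h) + (M : ℝ) ^ 2 / h + 1 :=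
    ⟨_, rfl⟩
  have hT0 : 0 ≤ T := by rw [hT]; positivity
  have hwin : ∀ u : ℕ,
      (∑ n ∈ Ioc u (u + h), (∑ m ∈ (Icc 1 M).filter (fun m => m ∣ n), c m) * ex (n * (a0 / q))) / (h : ℂ) -
        (∑ n ∈ Ioc u (u + Y), (∑ m ∈ (Icc 1 M).filter (fun m => m ∣ n), c m) * ex (n * (a0 / q))) / (Y : ℂ) =
      ∑ p ∈ PP M, gam M c p.1 * mult h Y ((p.2 : ℝ) / p.1 + a0 / q) *
        ex (u * ((p.2 : ℝ) / p.1 + a0 / q)) := by
    intro u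
    rw [window, window, Finset.sum_div, Finset.sum_div, ← Finset.sum_sub_distrib]
    refine Finset.sum_congr rfl fun p _ => ?_
    unfold mult
    ring
  have hpt : ∀ u : ℕ,
      ‖(∑ n ∈ Ioc u (u + h), (∑ m ∈ (Icc 1 M).filter (fun m => m ∣ n), c m) * ex (n * (a0 / q))) / (h : ℂ) -
        (∑ n ∈ Ioc u (u + Y), (∑ m ∈ (Icc 1 M).filter (fun m => m ∣ n), c m) * ex (n * (a0 / q))) / (Y : ℂ)‖ ^ 2 ≤
      I * ∑ i ∈ range I, ‖∑ p ∈ PV M i, gam M c p.1 * mult h Y ((p.2 : ℝ) / p.1 + a0 / q) *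
        ex (u * ((p.2 : ℝ) / p.1 + a0 / q))‖ ^ 2 := by
    intro u
    rw [hwin, ← Finset.sum_fiberwise_of_maps_to (s := PP M) (t := range I)
      (g := fun p => Nat.log 2 p.1) (fun p hp => by
        rw [Finset.mem_range, hI, Nat.lt_succ_iff]
        exact Nat.log_mono_right (mem_PP.1 hp).2.1)]
    have h1 : ‖∑ i ∈ range I, ∑ p ∈ PP M with Nat.log 2 p.1 = i,
        gam M c p.1 * mult h Y ((p.2 : ℝ) / p.1 + a0 / q) *
        ex (u * ((p.2 : ℝ) / p.1 + a0 / q))‖ ≤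
        ∑ i ∈ range I, ‖∑ p ∈ PV M i, gam M c p.1 * mult h Y ((p.2 : ℝ) / p.1 + a0 / q) *
        ex (u * ((p.2 : ℝ) / p.1 + a0 / q))‖ :=
      norm_sum_le _ _
    refine (pow_le_pow_left₀ (norm_nonneg _) h1 2).trans ?_
    have h2 := sq_sum_le_card_mul_sum_sq (s := range I) (f := fun i => ‖∑ p ∈ PV M i,
      gam M c p.1 * mult h Y ((p.2 : ℝ) / p.1 + a0 / q) *
        ex (u * ((p.2 : ℝ) / p.1 + a0 / q))‖)
    rw [card_range] at h2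
    exact h2
  refine (Finset.sum_le_sum fun u _ => hpt u).trans ?_
  rw [← Finset.mul_sum, Finset.sum_comm, ← hT]
  have hcl : ∑ i ∈ range I, ∑ u ∈ range (x + 1), ‖∑ p ∈ PV M i, gam M c p.1 *
      mult h Y ((p.2 : ℝ) / p.1 + a0 / q) * ex (u * ((p.2 : ℝ) / p.1 + a0 / q))‖ ^ 2 ≤
      ∑ _i ∈ range I, 64 * (C₁ * C₂) * (K ^ 2 * (1 + Real.log M) ^ 2 * T) := by
    refine Finset.sum_le_sum fun i hi => ?_
    rw [hT]
    have hi' := Finset.mem_range.1 hi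
    exact class_bound hC₁ hC₂ hsp hls hM hh hhY hYx hq hK hc i (by omega)
  rw [Finset.sum_const, card_range, nsmul_eq_mul] at hcl
  have hI0 : (0 : ℝ) ≤ I := Nat.cast_nonneg _
  have hW0 : 0 ≤ 64 * (C₁ * C₂) * (K ^ 2 * (1 + Real.log M) ^ 2 * T) := by positivity
  calc (I : ℝ) * _ ≤ I * (I * (64 * (C₁ * C₂) * (K ^ 2 * (1 + Real.log M) ^ 2 * T))) :=
        mul_le_mul_of_nonneg_left hcl hI0
    _ = (I * I) * (64 * (C₁ * C₂) * (K ^ 2 * (1 + Real.log M) ^ 2 * T)) := by ring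
    _ ≤ ((2 * (1 + Real.log M)) * (2 * (1 + Real.log M))) *
        (64 * (C₁ * C₂) * (K ^ 2 * (1 + Real.log M) ^ 2 * T)) :=
        mul_le_mul_of_nonneg_right (mul_le_mul hIr hIr hI0 (by positivity)) hW0
    _ = 256 * (C₁ * C₂) * K ^ 2 * (1 + Real.log M) ^ 4 * T := by ring

end Pool.Agent.VM
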