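import Pool.Agent.Lib.VM.TOneRed
import Pool.Agent.Lib.VM.TOneDif

/-!
# Module TOneSmall: Type I class, small modulus, difference of windows

As in module TOneLarge: `ρ = min δ (1/20) / 8`, `s = ρ/20`, `Δ = ⌈X^(1-ρ)⌉`, `E = ⌊X^ρ⌋`, `F = b * ind q N1 N2`, `U = Δ (u/Δ)`,
`Y = YY X ≤ Δ` (`Y ≤ 2 X^(17/20)`, `1 - ρ > 17/20`), windows `(u, u+Y] ⊆ (U, U+2Δ]`. With the SAME coefficients `cj` for both windows
`t1_red` gives `|(1/h)∑_{(u,u+h]} - (1/Y)∑_{(u,u+Y]}|² ≤ 2 |the same for ∑_{m ∣ n} cj m|² + 4 X^(2s) ((1/h)∑_{(u,u+h]} er² + (1/Y)∑_{(u,u+Y]} er²)`,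
and the sum over `u` of the last term is `≤ 8 X^(2s) ∑_{n ≤ 4X} er n² ≤ X^(1+4s-ρ)` (`t1_err`).
Main part: at most `2X^ρ + 2` values of `U`; `type_one_dif` (`x = 2X`, `a0 = a` arbitrary, `K' = X^(2s)`) for each:
`C X^(4s) (1+log M)^4 (2X (q²/h² + 1/h) + M²/h + 1)`, `q ≤ X^s`, `h ≥ X^(1/10)`, `M²/h ≤ 16 X^(2+2ρ)/(N1² h) ≤ 16 X^(1+2ρ-2δ)`.
Total `≤ X^(1-s)`.
-/

set_option autoImplicit false

open Finset Filter

namespace Pool.Agent.VM

open Pool.Agent.VK Pool.Agent.HLT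

/-- each `n` lies in at most `h` windows -/
private theorem tos_window (f : ℕ → ℝ) (hf : ∀ n, 0 ≤ f n) (X h : ℕ) (hh : 1 ≤ h) (hhX : h ≤ 2 * X) :
    ∑ u ∈ Icc X (2 * X), (∑ n ∈ Ioc u (u + h), f n) / (h : ℝ) ≤ ∑ n ∈ Icc 1 (4 * X), f n := by
  have hh' : (0 : ℝ) < h := by exact_mod_cast hh
  rw [← Finset.sum_div, div_le_iff₀ hh']
  have h1 : ∑ u ∈ Icc X (2 * X), ∑ n ∈ Ioc u (u + h), f n =
      ∑ n ∈ Icc 1 (4 * X), ∑ u ∈ (Icc X (2 * X)).filter (fun u => n ∈ Ioc u (u + h)), f n := by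
    apply Finset.sum_comm'
    intro u n
    simp only [mem_Icc, mem_Ioc, mem_filter]
    omega
  rw [h1, Finset.sum_mul]
  apply Finset.sum_le_sum
  intro n _
  rw [Finset.sum_const, nsmul_eq_mul, mul_comm]
  apply mul_le_mul_of_nonneg_left _ (hf n)
  have h2 : (Icc X (2 * X)).filter (fun u => n ∈ Ioc u (u + h)) ⊆ Ico (n - h) n := by
    intro u
    simp only [mem_Icc, mem_Ioc, mem_filter, mem_Ico]
    omega
  have h3 := Finset.card_le_card h2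
  rw [Nat.card_Ico] at h3
  exact_mod_cast h3.trans (by omega)

/-- the comparison of averages for a fixed `u` -/
private theorem tos_avg (F G : ℕ → ℂ) (e : ℕ → ℝ) (K : ℝ) (u h : ℕ) (w : ℕ → ℂ)
    (hw : ∀ n, ‖w n‖ = 1) (hh : 1 ≤ h)
    (hFG : ∀ n ∈ Ioc u (u + h), ‖F n - G n‖ ≤ K * e n) :
    ‖(∑ n ∈ Ioc u (u + h), F n * w n) / (h : ℂ) - (∑ n ∈ Ioc u (u + h), G n * w n) / (h : ℂ)‖ ^ 2 ≤
      K ^ 2 * ((∑ n ∈ Ioc u (u + h), e n ^ 2) / (h : ℝ)) := by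
  have hh' : (0 : ℝ) < h := by exact_mod_cast hh
  rw [← sub_div, ← Finset.sum_sub_distrib, norm_div, Complex.norm_natCast]
  have h1 : ‖∑ n ∈ Ioc u (u + h), (F n * w n - G n * w n)‖ ≤ ∑ n ∈ Ioc u (u + h), K * e n := by
    refine (norm_sum_le _ _).trans (Finset.sum_le_sum fun n hn => ?_)
    rw [← sub_mul, norm_mul, hw, mul_one]
    exact hFG n hn
  have h2 : (∑ n ∈ Ioc u (u + h), K * e n) ^ 2 ≤ h * ∑ n ∈ Ioc u (u + h), (K * e n) ^ 2 := by
    have := sq_sum_le_card_mul_sum_sq (s := Ioc u (u + h)) (f := fun n => K * e n)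
    rw [Nat.card_Ioc, Nat.add_sub_cancel_left] at this
    exact this
  have h3 : ‖∑ n ∈ Ioc u (u + h), (F n * w n - G n * w n)‖ ^ 2 ≤
      h * ∑ n ∈ Ioc u (u + h), (K * e n) ^ 2 :=
    (pow_le_pow_left₀ (norm_nonneg _) h1 2).trans h2
  rw [div_pow]
  calc ‖∑ n ∈ Ioc u (u + h), (F n * w n - G n * w n)‖ ^ 2 / (h : ℝ) ^ 2
      ≤ (h * ∑ n ∈ Ioc u (u + h), (K * e n) ^ 2) / (h : ℝ) ^ 2 := by gcongr
    _ = K ^ 2 * ((∑ n ∈ Ioc u (u + h), e n ^ 2) / (h : ℝ)) := by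
        simp only [mul_pow]
        rw [← Finset.mul_sum]
        field_simp

private theorem tos_norm4 (A B C D : ℂ) :
    ‖A - B‖ ^ 2 ≤ 2 * ‖C - D‖ ^ 2 + 4 * (‖A - C‖ ^ 2 + ‖B - D‖ ^ 2) := by
  have h1 : ‖A - B‖ ≤ ‖C - D‖ + (‖A - C‖ + ‖B - D‖) := by
    have : A - B = (C - D) + ((A - C) - (B - D)) := by ring
    rw [this]
    exact (norm_add_le _ _).trans (by gcongr; exact norm_sub_le _ _)
  have h2 := pow_le_pow_left₀ (norm_nonneg _) h1 2
  nlinarith [sq_nonneg (‖C - D‖ - (‖A - C‖ + ‖B - D‖)), sq_nonneg (‖A - C‖ - ‖B - D‖)]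

/-- splitting according to the value of `u / Δ` -/
private theorem tos_split (g : ℕ → ℕ → ℝ) (hg : ∀ j u, 0 ≤ g j u) (X Δ : ℕ) :
    ∑ u ∈ Icc X (2 * X), g (u / Δ) u ≤
      ∑ j ∈ Icc (X / Δ) (2 * X / Δ), ∑ u ∈ range (2 * X + 1), g j u := by
  rw [Finset.sum_comm]
  have h1 : ∑ u ∈ Icc X (2 * X), g (u / Δ) u ≤
      ∑ u ∈ Icc X (2 * X), ∑ j ∈ Icc (X / Δ) (2 * X / Δ), g j u := by
    apply Finset.sum_le_sum
    intro u hu
    rw [mem_Icc] at hu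
    apply Finset.single_le_sum (f := fun j => g j u) (fun j _ => hg j u)
    rw [mem_Icc]
    exact ⟨Nat.div_le_div_right hu.1, Nat.div_le_div_right hu.2⟩
  refine h1.trans (Finset.sum_le_sum_of_subset_of_nonneg ?_ ?_)
  · intro u hu
    rw [mem_Icc] at hu
    rw [mem_range]
    omega
  · intro u _ _
    exact Finset.sum_nonneg fun j _ => hg j u

/-- the truncated coefficients -/
private noncomputable def tosC (q N1 N2 E M U : ℕ) (b : ArithmeticFunction ℂ) (m : ℕ) : ℂ :=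
  if m ∈ Icc 1 M then cj q N1 N2 E U b m else 0

private theorem tos_core (X h Y q N1 N2 Δ E M : ℕ) (a : ℤ) (b : ArithmeticFunction ℂ)
    (K K' B R : ℝ) (hK : 0 ≤ K) (hb : ∀ m, ‖b m‖ ≤ K) (hh : 1 ≤ h) (hhY : h ≤ Y) (hYD : Y ≤ Δ)
    (hDX : 8 * Δ ≤ X) (hq : 1 ≤ q) (hN1 : 1 ≤ N1) (hN : N1 ≤ N2) (hM : 2 * X * E ≤ M * N1)
    (hK0 : 0 ≤ K') (hK' : ∀ U m : ℕ, 1 ≤ m → m ≤ M → ‖cj q N1 N2 E U b m‖ ≤ K')
    (hC : ∀ c : ℕ → ℂ, (∀ m, ‖c m‖ ≤ K') → ∑ u ∈ range (2 * X + 1),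
        ‖(∑ n ∈ Ioc u (u + h), (∑ m ∈ (Icc 1 M).filter (fun m => m ∣ n), c m) *
            ex (n * (a / q))) / (h : ℂ) -
          (∑ n ∈ Ioc u (u + Y), (∑ m ∈ (Icc 1 M).filter (fun m => m ∣ n), c m) *
            ex (n * (a / q))) / (Y : ℂ)‖ ^ 2 ≤ B)
    (hR : ∑ n ∈ Icc 1 (4 * X), er X Δ q N1 N2 E n ^ 2 ≤ R) :
    ∑ u ∈ Icc X (2 * X), ‖(∑ n ∈ Ioc u (u + h), (b * ind q N1 N2) n * ex (n * (a / q))) / (h : ℂ) -
        (∑ n ∈ Ioc u (u + Y), (b * ind q N1 N2) n * ex (n * (a / q))) / (Y : ℂ)‖ ^ 2 ≤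
      2 * (((2 * X / Δ + 1 - X / Δ : ℕ) : ℝ) * B) + 8 * K ^ 2 * R := by
  have hY : 1 ≤ Y := hh.trans hhY
  have hD : 1 ≤ Δ := hY.trans hYD
  have hcb : ∀ j m, ‖tosC q N1 N2 E M (Δ * j) b m‖ ≤ K' := by
    intro j m
    unfold tosC
    split_ifs with hm
    · rw [mem_Icc] at hm
      exact hK' _ m hm.1 hm.2
    · rw [norm_zero]
      exact hK0
  set G : ℕ → ℕ → ℂ := fun j n => ∑ m ∈ (Icc 1 M).filter (fun m => m ∣ n),
    tosC q N1 N2 E M (Δ * j) b m with hG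
  have hG2 : ∀ j n, G j n = ∑ m ∈ (Icc 1 M).filter (fun m => m ∣ n),
      cj q N1 N2 E (Δ * j) b m := by
    intro j n
    rw [hG]
    apply Finset.sum_congr rfl
    intro m hm
    rw [mem_filter] at hm
    unfold tosC
    rw [if_pos hm.1]
  set g : ℕ → ℕ → ℝ := fun j u =>
    ‖(∑ n ∈ Ioc u (u + h), G j n * ex (n * (a / q))) / (h : ℂ) -
      (∑ n ∈ Ioc u (u + Y), G j n * ex (n * (a / q))) / (Y : ℂ)‖ ^ 2 with hg
  have hpt : ∀ u ∈ Icc X (2 * X),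
      ‖(∑ n ∈ Ioc u (u + h), (b * ind q N1 N2) n * ex (n * (a / q))) / (h : ℂ) -
        (∑ n ∈ Ioc u (u + Y), (b * ind q N1 N2) n * ex (n * (a / q))) / (Y : ℂ)‖ ^ 2 ≤
      2 * g (u / Δ) u + 4 * K ^ 2 * ((∑ n ∈ Ioc u (u + h), er X Δ q N1 N2 E n ^ 2) / (h : ℝ) +
        (∑ n ∈ Ioc u (u + Y), er X Δ q N1 N2 E n ^ 2) / (Y : ℝ)) := by
    intro u hu
    rw [mem_Icc] at hu
    have hU1 : Δ * (u / Δ) ≤ u := Nat.mul_div_le u Δ
    have hU2 : u < Δ * (u / Δ) + Δ := by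
      have := Nat.lt_mul_div_succ u (show 0 < Δ by omega)
      rw [Nat.mul_add, Nat.mul_one] at this
      exact this
    have hred : ∀ n, u < n → n ≤ u + Y →
        ‖(b * ind q N1 N2) n - G (u / Δ) n‖ ≤ K * er X Δ q N1 N2 E n := by
      intro n hn1 hn2
      rw [hG2]
      apply t1_red X Δ q N1 N2 E (Δ * (u / Δ)) M n b K hK hb hq hN1 hN
      · omega
      · omega
      · omega
      · omega
      · calc E * (Δ * (u / Δ)) ≤ E * (2 * X) := Nat.mul_le_mul_left _ (hU1.trans hu.2)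
          _ = 2 * X * E := by ring
          _ ≤ M * N1 := hM
    have h1 := tos_norm4
      ((∑ n ∈ Ioc u (u + h), (b * ind q N1 N2) n * ex (n * (a / q))) / (h : ℂ))
      ((∑ n ∈ Ioc u (u + Y), (b * ind q N1 N2) n * ex (n * (a / q))) / (Y : ℂ))
      ((∑ n ∈ Ioc u (u + h), G (u / Δ) n * ex (n * (a / q))) / (h : ℂ))
      ((∑ n ∈ Ioc u (u + Y), G (u / Δ) n * ex (n * (a / q))) / (Y : ℂ))
    have h2 := tos_avg (fun n => (b * ind q N1 N2) n) (G (u / Δ)) (er X Δ q N1 N2 E) K u h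
      (fun n => ex (n * (a / q))) (fun n => norm_ex _) hh (by
        intro n hn
        rw [mem_Ioc] at hn
        exact hred n hn.1 (by omega))
    have h3 := tos_avg (fun n => (b * ind q N1 N2) n) (G (u / Δ)) (er X Δ q N1 N2 E) K u Y
      (fun n => ex (n * (a / q))) (fun n => norm_ex _) hY (by
        intro n hn
        rw [mem_Ioc] at hn
        exact hred n hn.1 hn.2)
    refine h1.trans ?_
    rw [hg]
    simp only at h2 h3 ⊢
    linarith only [h2, h3]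
  have hsplit := tos_split g (fun j u => by rw [hg]; positivity) X Δ
  have hB : ∑ j ∈ Icc (X / Δ) (2 * X / Δ), ∑ u ∈ range (2 * X + 1), g j u ≤
      ((2 * X / Δ + 1 - X / Δ : ℕ) : ℝ) * B := by
    refine (Finset.sum_le_card_nsmul _ _ B fun j _ => ?_).trans ?_
    · exact hC (tosC q N1 N2 E M (Δ * j) b) (hcb j)
    · rw [Nat.card_Icc, nsmul_eq_mul]
  have hw1 := tos_window (fun n => er X Δ q N1 N2 E n ^ 2) (fun n => sq_nonneg _) X h hh (by omega)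
  have hw2 := tos_window (fun n => er X Δ q N1 N2 E n ^ 2) (fun n => sq_nonneg _) X Y hY (by omega)
  have hsum := Finset.sum_le_sum hpt
  rw [Finset.sum_add_distrib, ← Finset.mul_sum, ← Finset.mul_sum, Finset.sum_add_distrib] at hsum
  have hK2 : 0 ≤ 4 * K ^ 2 := by (clear * -; positivity)
  have h5 := mul_le_mul_of_nonneg_left (add_le_add (hw1.trans hR) (hw2.trans hR)) hK2
  linarith only [hsplit, hB, hsum, h5]

/-- the estimate for one value of `U` -/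
private theorem tos_B (C x z q h M E N1 lg : ℝ) (hC : 1 ≤ C) (hz : 1 ≤ z) (hq0 : 0 ≤ q)
    (hq : q ≤ z) (hh : z ^ 320 ≤ h) (hxz : z ^ 300 ≤ x) (hN1 : 1 ≤ N1)
    (hNh : x * z ^ 320 ≤ N1 ^ 2 * h) (hE0 : 0 ≤ E) (hE : E ≤ z ^ 20) (hM0 : 0 ≤ M)
    (hM : M ≤ 2 * x * E / N1 + 1) (_hlg0 : 0 ≤ lg) (hlg : lg ≤ z) :
    C * (z ^ 2) ^ 2 * lg * (2 * x * (q ^ 2 / h ^ 2 + 1 / h) + M ^ 2 / h + 1) ≤
      15 * C * z ^ 5 * (x / z ^ 280) := by
  have hz0 : 0 < z := by linarith only [hz]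
  have hx0 : 0 < x := lt_of_lt_of_le (by positivity) hxz
  have hh0 : 0 < h := lt_of_lt_of_le (by positivity) hh
  have hN0 : 0 < N1 := by linarith only [hN1]
  have k1 : 1 / h ≤ 1 / z ^ 280 := by
    apply one_div_le_one_div_of_le (by positivity)
    exact (pow_le_pow_right₀ hz (by norm_num)).trans hh
  have k2 : q ^ 2 / h ^ 2 ≤ 1 / z ^ 280 := by
    rw [div_le_div_iff₀ (by positivity) (by positivity)]
    calc q ^ 2 * z ^ 280 ≤ z ^ 2 * z ^ 280 := by gcongr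
      _ = z ^ 282 := by ring
      _ ≤ z ^ 640 := pow_le_pow_right₀ hz (by norm_num)
      _ = (z ^ 320) ^ 2 := by ring
      _ ≤ h ^ 2 := by gcongr
      _ = 1 * h ^ 2 := by ring
  have k3 : 1 ≤ x / z ^ 280 := by
    rw [le_div_iff₀ (by positivity), one_mul]
    exact (pow_le_pow_right₀ hz (by norm_num)).trans hxz
  have k4 : M ^ 2 / h ≤ 8 * (x / z ^ 280) + 2 := by
    have e1 : M ^ 2 ≤ 2 * (2 * x * E / N1) ^ 2 + 2 := by
      have e2 := pow_le_pow_left₀ hM0 hM 2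
      nlinarith only [e2, sq_nonneg (2 * x * E / N1 - 1)]
    have hh1 : 1 ≤ h := (one_le_pow₀ hz).trans hh
    have e3 : (2 * x * E / N1) ^ 2 / h ≤ 4 * (x / z ^ 280) := by
      rw [div_pow, div_div, div_le_iff₀ (by positivity)]
      calc (2 * x * E) ^ 2 ≤ (2 * x * z ^ 20) ^ 2 := by gcongr
        _ = 4 * (x / z ^ 280) * (x * z ^ 320) := by
            field_simp
            ring
        _ ≤ 4 * (x / z ^ 280) * (N1 ^ 2 * h) := by gcongr
    calc M ^ 2 / h ≤ (2 * (2 * x * E / N1) ^ 2 + 2) / h := by gcongr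
      _ = 2 * ((2 * x * E / N1) ^ 2 / h) + 2 / h := by ring
      _ ≤ 2 * (4 * (x / z ^ 280)) + 2 / 1 := by gcongr
      _ = 8 * (x / z ^ 280) + 2 := by ring
  have k5 : 2 * x * (q ^ 2 / h ^ 2 + 1 / h) + M ^ 2 / h + 1 ≤ 15 * (x / z ^ 280) := by
    have e1 : 2 * x * (q ^ 2 / h ^ 2 + 1 / h) ≤ 2 * x * (1 / z ^ 280 + 1 / z ^ 280) := by gcongr
    have e2 : 2 * x * (1 / z ^ 280 + 1 / z ^ 280) = 4 * (x / z ^ 280) := by ring
    linarith only [k3, k4, e1, e2]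
  calc C * (z ^ 2) ^ 2 * lg * (2 * x * (q ^ 2 / h ^ 2 + 1 / h) + M ^ 2 / h + 1)
      ≤ C * (z ^ 2) ^ 2 * z * (15 * (x / z ^ 280)) := by gcongr
    _ = 15 * C * z ^ 5 * (x / z ^ 280) := by ring

private theorem tos_final (C x z cnt R : ℝ) (hC : 1 ≤ C) (hx : 0 ≤ x) (hz : 90 * C + 64 ≤ z)
    (hcnt : cnt ≤ 3 * z ^ 20) (hR : R ≤ z * (4 * (x / z ^ 20))) :
    2 * (cnt * (15 * C * z ^ 5 * (x / z ^ 280))) + 8 * z ^ 2 * R ≤ x * z⁻¹ := by
  have hz1 : 1 ≤ z := by linarith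
  have hz0 : 0 < z := by linarith
  have h1 : 2 * (cnt * (15 * C * z ^ 5 * (x / z ^ 280))) ≤
      2 * (3 * z ^ 20 * (15 * C * z ^ 5 * (x / z ^ 280))) := by gcongr
  have h2 : 8 * z ^ 2 * R ≤ 8 * z ^ 2 * (z * (4 * (x / z ^ 20))) := by gcongr
  have h3 : 2 * (3 * z ^ 20 * (15 * C * z ^ 5 * (x / z ^ 280))) = (90 * C) * (x / z ^ 255) := by
    field_simp
    ring
  have h4 : 8 * z ^ 2 * (z * (4 * (x / z ^ 20))) = 32 * (x / z ^ 17) := by
    field_simp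
    ring
  have h5 : (90 * C) * (x / z ^ 255) ≤ x * z⁻¹ / 2 := by
    have e1 : (90 * C) * (x / z ^ 255) ≤ z * (x / z ^ 255) := by
      gcongr
      linarith
    have e2 : z * (x / z ^ 255) = x * z⁻¹ * (1 / z ^ 253) := by
      field_simp
    have e3 : 1 / z ^ 253 ≤ 1 / 2 := by
      apply one_div_le_one_div_of_le (by norm_num)
      calc (2 : ℝ) ≤ z := by linarith only [hC, hz]
        _ = z ^ 1 := (pow_one z).symm
        _ ≤ z ^ 253 := pow_le_pow_right₀ hz1 (by norm_num)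
    have e4 : x * z⁻¹ * (1 / z ^ 253) ≤ x * z⁻¹ * (1 / 2) := by gcongr
    linarith only [e1, e2, e4]
  have h6 : 32 * (x / z ^ 17) ≤ x * z⁻¹ / 2 := by
    have e1 : 32 * (x / z ^ 17) = x * z⁻¹ * (32 / z ^ 16) := by
      field_simp
    have e3 : 32 / z ^ 16 ≤ 1 / 2 := by
      rw [div_le_div_iff₀ (by positivity) (by norm_num)]
      calc (32 : ℝ) * 2 ≤ z := by linarith only [hC, hz]
        _ = z ^ 1 := (pow_one z).symm
        _ ≤ z ^ 16 := pow_le_pow_right₀ hz1 (by norm_num)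
        _ = 1 * z ^ 16 := by ring
    rw [e1]
    have e4 : x * z⁻¹ * (32 / z ^ 16) ≤ x * z⁻¹ * (1 / 2) := by gcongr
    linarith only [e4]
  linarith only [h1, h2, h3, h4, h5, h6]

private theorem tos_log (t : ℝ) (ht : 0 < t) : ∀ᶠ X : ℕ in atTop,
    1 + 3 * Real.log X ≤ (X : ℝ) ^ t := by
  have h1 := (isLittleO_log_rpow_atTop ht).bound (show (0 : ℝ) < 1 / 6 by norm_num)
  have h2 := (tendsto_rpow_atTop ht).eventually_ge_atTop 2
  have h3 : ∀ᶠ x : ℝ in atTop, 1 + 3 * Real.log x ≤ x ^ t := by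
    filter_upwards [h1, h2, eventually_ge_atTop (1 : ℝ)] with x hx1 hx2 hx3
    rw [Real.norm_of_nonneg (Real.log_nonneg hx3), Real.norm_of_nonneg (by positivity)] at hx1
    linarith
  exact tendsto_natCast_atTop_atTop.eventually h3

theorem t1_small (δ : ℝ) (hδ : 0 < δ) : ∃ s : ℝ, 0 < s ∧ ∀ᶠ X : ℕ in atTop,
    ∀ (q h N1 N2 : ℕ) (a : ℤ) (b : ArithmeticFunction ℂ), (X : ℝ) ^ (1 / 10 : ℝ) ≤ h → (h : ℝ) ≤ (X : ℝ) ^ (2 / 5 : ℝ) →
    1 ≤ q → (q : ℝ) ≤ (X : ℝ) ^ s → Real.sqrt (X / h) * (X : ℝ) ^ δ ≤ N1 → N1 ≤ N2 → (∀ n, ‖b n‖ ≤ (X : ℝ) ^ s) →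
    ∑ u ∈ Icc X (2 * X), ‖(∑ n ∈ Ioc u (u + h), (b * ind q N1 N2) n * ex (n * (a / q))) / (h : ℂ) -
        (∑ n ∈ Ioc u (u + YY X), (b * ind q N1 N2) n * ex (n * (a / q))) / (YY X : ℂ)‖ ^ 2 ≤
      X * (X : ℝ) ^ (-s) := by
  obtain ⟨C, hC1, hC⟩ := type_one_dif
  set s : ℝ := min δ (1 / 20) / 160 with hs_def
  have hs : 0 < s := by positivity
  have hs1 : s * 160 ≤ δ := by
    rw [hs_def, div_mul_cancel₀ _ (by norm_num)]
    exact min_le_left _ _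
  have hs2 : s ≤ 1 / 3200 := by
    have : min δ (1 / 20) ≤ 1 / 20 := min_le_right _ _
    rw [hs_def]
    linarith
  obtain ⟨Cτ, hCτ, hτ⟩ := tau_small (s / 4) (by positivity)
  have hev1 : ∀ᶠ X : ℕ in atTop, 90 * C + 64 ≤ (X : ℝ) ^ s :=
    tendsto_natCast_atTop_atTop.eventually ((tendsto_rpow_atTop hs).eventually_ge_atTop _)
  have hev2 : ∀ᶠ X : ℕ in atTop, Cτ ≤ (X : ℝ) ^ (s / 4) :=
    tendsto_natCast_atTop_atTop.eventually
      ((tendsto_rpow_atTop (show 0 < s / 4 by positivity)).eventually_ge_atTop _)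
  refine ⟨s, hs, ?_⟩
  filter_upwards [t1_err s hs, tos_log (s / 4) (by positivity), hev1, hev2,
    eventually_ge_atTop 16] with X herr hlog hz hCτX hX16 q h N1 N2 a b hh1 hh2 hq1 hq2 hN1 hN hb
  set x : ℝ := (X : ℝ) with hx_def
  have hx16 : (16 : ℝ) ≤ x := by rw [hx_def]; exact_mod_cast hX16
  have hx0 : 0 < x := by linarith only [hs, hs2, hx16]
  have hx1 : 1 ≤ x := by linarith only [hs, hs2, hx16]
  set z : ℝ := x ^ s with hz_def
  have hz1 : 1 ≤ z := by linarith only [hC1, hs, hs2, hz]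
  have hz0 : 0 < z := by linarith only [hC1, hs, hs2, hz]
  have hzp : ∀ n : ℕ, z ^ n = x ^ (s * n) := by
    intro n
    rw [hz_def, ← Real.rpow_natCast, ← Real.rpow_mul hx0.le]
  have hzle : ∀ (n : ℕ) (t : ℝ), s * n ≤ t → z ^ n ≤ x ^ t := by
    intro n t hnt
    rw [hzp]
    exact Real.rpow_le_rpow_of_exponent_le hx1 hnt
  have hzh : z ^ 320 ≤ (h : ℝ) := (hzle 320 _ (by push_cast; linarith only [hs2])).trans hh1
  have hzx : z ^ 300 ≤ x := by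
    have := hzle 300 1 (by push_cast; linarith only [hs, hs2])
    rwa [Real.rpow_one] at this
  have hzδ : z ^ 160 ≤ x ^ δ := hzle 160 _ (by push_cast; linarith only [hs1])
  have hh0 : (0 : ℝ) < h := lt_of_lt_of_le (by (clear * - hX16; positivity)) hzh
  have hhN : 1 ≤ h := by
    have : (0 : ℝ) < (h : ℝ) := hh0
    exact_mod_cast this
  -- N1
  have hN1pos : (0 : ℝ) < N1 := lt_of_lt_of_le (by (clear * - hX16 hhN; positivity)) hN1
  have hN1N : 1 ≤ N1 := by exact_mod_cast hN1pos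
  have hN1R : (1 : ℝ) ≤ N1 := by exact_mod_cast hN1N
  have hNh : x * z ^ 320 ≤ (N1 : ℝ) ^ 2 * h := by
    have e1 : (Real.sqrt (x / h) * z ^ 160) ^ 2 ≤ (N1 : ℝ) ^ 2 := by
      apply pow_le_pow_left₀ (by (clear * - hX16 hhN; positivity))
      refine le_trans ?_ hN1
      gcongr
    rw [mul_pow, Real.sq_sqrt (by (clear * - hX16 hhN; positivity))] at e1
    have e2 : x / h * (z ^ 160) ^ 2 * h = x * z ^ 320 := by
      field_simp
    calc x * z ^ 320 = x / h * (z ^ 160) ^ 2 * h := e2.symm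
      _ ≤ (N1 : ℝ) ^ 2 * h := by gcongr
  -- parameters
  set Δ : ℕ := ⌈x / z ^ 20⌉₊ with hΔ_def
  set E : ℕ := ⌊z ^ 20⌋₊ with hE_def
  set M : ℕ := 2 * X * E / N1 + 1 with hM_def
  have hz20 : 1 ≤ z ^ 20 := one_le_pow₀ hz1
  have hE1 : 1 ≤ E := by
    rw [hE_def]
    exact Nat.one_le_floor_iff _ |>.2 hz20
  have hEle : (E : ℝ) ≤ z ^ 20 := Nat.floor_le (by (clear * - hX16; positivity))
  have hEge : z ^ 20 / 2 ≤ (E : ℝ) := by
    have e1 : z ^ 20 < E + 1 := Nat.lt_floor_add_one _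
    have e2 : (1 : ℝ) ≤ E := by exact_mod_cast hE1
    linarith only [e1, e2]
  have hxz20 : 1 ≤ x / z ^ 20 := by
    rw [le_div_iff₀ (by (clear * - hX16; positivity)), one_mul]
    exact (pow_le_pow_right₀ hz1 (by norm_num)).trans hzx
  have hΔge : x / z ^ 20 ≤ Δ := Nat.le_ceil _
  have hΔle : (Δ : ℝ) ≤ 2 * (x / z ^ 20) := by
    have : (Δ : ℝ) < x / z ^ 20 + 1 := Nat.ceil_lt_add_one (by (clear * - hX16; positivity))
    linarith only [hxz20, this]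
  have hz64 : 64 ≤ z := by linarith only [hC1, hs, hs2, hz]
  have hDX : 8 * Δ ≤ X := by
    have e1 : (8 : ℝ) * Δ ≤ x := by
      have e2 : x / z ^ 20 ≤ x / 64 := by
        gcongr
        calc (64 : ℝ) ≤ z := hz64
          _ = z ^ 1 := (pow_one z).symm
          _ ≤ z ^ 20 := pow_le_pow_right₀ hz1 (by norm_num)
      linarith only [hs, hs2, hxz20, hΔle, e2]
    rw [hx_def] at e1
    exact_mod_cast e1
  have hYD : YY X ≤ Δ := by
    unfold YY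
    rw [hΔ_def, ← hx_def]
    apply Nat.ceil_le_ceil
    rw [le_div_iff₀ (by (clear * - hX16; positivity))]
    have e1 : z ^ 20 ≤ x ^ (3 / 20 : ℝ) := hzle 20 _ (by push_cast; linarith only [hs, hs2])
    calc x ^ (17 / 20 : ℝ) * z ^ 20 ≤ x ^ (17 / 20 : ℝ) * x ^ (3 / 20 : ℝ) := by gcongr
      _ = x ^ (1 : ℝ) := by
          rw [← Real.rpow_add hx0]
          norm_num
      _ = x := Real.rpow_one x
  have hhY : h ≤ YY X := by
    have e1 : (h : ℝ) ≤ (YY X : ℝ) := by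
      refine hh2.trans (le_trans ?_ (Nat.le_ceil _))
      exact Real.rpow_le_rpow_of_exponent_le hx1 (by norm_num)
    exact_mod_cast e1
  have hMN : 2 * X * E ≤ M * N1 := by
    have := Nat.lt_mul_div_succ (2 * X * E) (show 0 < N1 by omega)
    rw [hM_def]
    calc 2 * X * E ≤ N1 * (2 * X * E / N1 + 1) := this.le
      _ = (2 * X * E / N1 + 1) * N1 := by ring
  have hM1 : 1 ≤ M := Nat.le_add_left 1 _
  have hMle : (M : ℝ) ≤ 2 * x * E / N1 + 1 := by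
    rw [hM_def]
    push_cast
    have := Nat.cast_div_le (α := ℝ) (m := 2 * X * E) (n := N1)
    push_cast at this
    rw [← hx_def] at this
    linarith only [this]
  have hMx : (M : ℝ) ≤ x ^ 3 := by
    have e1 : 2 * x * E / N1 ≤ 2 * x * E := div_le_self (by (clear * - hX16 hE1; positivity)) hN1R
    have e2 : (E : ℝ) ≤ x := hEle.trans ((pow_le_pow_right₀ hz1 (by norm_num)).trans hzx)
    have e3 : 2 * x * E ≤ 2 * x * x := by gcongr
    nlinarith only [hs, hs2, hx16, hx0, hMle, e1, e3, mul_pos hx0 hx0, mul_le_mul_of_nonneg_right hx16 (mul_pos hx0 hx0).le]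
  have hM0 : (0 : ℝ) < M := by exact_mod_cast hM1
  have hlogM : Real.log M ≤ 3 * Real.log x := by
    have := Real.log_le_log hM0 hMx
    rw [Real.log_pow] at this
    exact_mod_cast this
  have hlogM0 : 0 ≤ Real.log M := Real.log_nonneg (by exact_mod_cast hM1)
  have hlg : (1 + Real.log M) ^ 4 ≤ z := by
    have e1 : 1 + Real.log M ≤ x ^ (s / 4) := by linarith only [hlog, hlogM]
    calc (1 + Real.log M) ^ 4 ≤ (x ^ (s / 4)) ^ 4 := pow_le_pow_left₀ (by linarith only [hs, hs2, hlogM0]) e1 4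
      _ = z := by
        rw [← Real.rpow_natCast, ← Real.rpow_mul hx0.le, hz_def]
        congr 1
        push_cast
        ring
  -- bound for the coefficients
  have hcj : ∀ U m : ℕ, 1 ≤ m → m ≤ M → ‖cj q N1 N2 E U b m‖ ≤ z ^ 2 := by
    intro U m hm1 hm2
    refine (cj_bound q N1 N2 E U b z hz0.le hb m hm1).trans ?_
    have e1 := hτ m hm1
    have e2 : (m : ℝ) ^ (s / 4) ≤ (x ^ 3) ^ (s / 4) := by
      apply Real.rpow_le_rpow (by (clear * - hm1; positivity)) _ (by (clear * - hδ; positivity))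
      refine le_trans ?_ hMx
      exact_mod_cast hm2
    have e3 : (x ^ 3) ^ (s / 4) * x ^ (s / 4) = z := by
      rw [← Real.mul_rpow (by (clear * - hX16; positivity)) (by (clear * - hX16; positivity)), ← pow_succ, ← Real.rpow_natCast,
        ← Real.rpow_mul hx0.le, hz_def]
      congr 1
      push_cast
      ring
    have e4 : (m.divisors.card : ℝ) ≤ z := by
      calc (m.divisors.card : ℝ) ≤ Cτ * (m : ℝ) ^ (s / 4) := e1
        _ ≤ x ^ (s / 4) * (x ^ 3) ^ (s / 4) := by gcongr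
        _ = z := by rw [mul_comm, e3]
    calc z * (m.divisors.card : ℝ) ≤ z * z := by gcongr
      _ = z ^ 2 := by ring
  have hqX : q ≤ X := by
    have e1 : (q : ℝ) ≤ x := hq2.trans (by
      calc z = z ^ 1 := (pow_one z).symm
        _ ≤ z ^ 300 := pow_le_pow_right₀ hz1 (by norm_num)
        _ ≤ x := hzx)
    rw [hx_def] at e1
    exact_mod_cast e1
  have hR := herr Δ q N1 N2 E hN1N (hN1N.trans hN) hE1 hq1 hqX
  have hR2 : z * ((Δ : ℝ) + x / E) ≤ z * (4 * (x / z ^ 20)) := by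
    have e1 : x / E ≤ x / (z ^ 20 / 2) := by gcongr
    have e2 : x / (z ^ 20 / 2) = 2 * (x / z ^ 20) := by
      field_simp
    gcongr
    linarith only [hΔle, e1, e2]
  have hcore := tos_core X h (YY X) q N1 N2 Δ E M a b z (z ^ 2) (15 * C * z ^ 5 * (x / z ^ 280))
    (z * ((Δ : ℝ) + x / E)) hz0.le hb hhN hhY hYD hDX hq1 hN1N hN hMN (by (clear * - hX16; positivity)) hcj
    (by
      intro c hc
      have e1 := hC M (2 * X) h (YY X) q a c (z ^ 2) hM1 hhN hhY (by omega) hq1 (by (clear * - hX16; positivity)) hc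
      refine e1.trans ?_
      push_cast
      rw [← hx_def]
      exact tos_B C x z q h M E N1 ((1 + Real.log M) ^ 4) hC1 hz1 (by (clear * - hq1; positivity)) hq2 hzh hzx hN1R
        hNh (by (clear * - hE1; positivity)) hEle hM0.le hMle (by (clear * -; positivity)) hlg)
    hR
  refine hcore.trans ?_
  rw [Real.rpow_neg hx0.le, ← hz_def]
  apply tos_final C x z _ _ hC1 hx0.le hz _ hR2
  have e1 : ((2 * X / Δ + 1 - X / Δ : ℕ) : ℝ) ≤ ((2 * X / Δ + 1 : ℕ) : ℝ) := by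
    exact_mod_cast Nat.sub_le _ _
  refine e1.trans ?_
  push_cast
  have e2 := Nat.cast_div_le (α := ℝ) (m := 2 * X) (n := Δ)
  push_cast at e2
  rw [← hx_def] at e2
  have e3 : 2 * x / Δ ≤ 2 * x / (x / z ^ 20) := by gcongr
  have e4 : 2 * x / (x / z ^ 20) = 2 * z ^ 20 := by
    field_simp
  linarith only [hz20, e2, e3, e4]

end Pool.Agent.VM
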