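import Pool.Agent.Lib.VM.DjsWin
import Pool.Agent.Lib.VM.TOneSmall
import Pool.Agent.Lib.VM.CellBasic

/-!
# Module ScSmall: smooth classes, small modulus, difference of windows

The same as module ScLarge, with `djs_win ε` (value `s1`, may be taken `≤ min ε (1/1000)`) and `t1_small (s1/2)` (value `s2`),
`s = min s1 s2 / 100`, windows `(u, u + YY X] ⊆ (X, 4X]`. For the D class the factors `G j = gcl (φ j)` are `ind q y' (2^(e (φ j)))` with
`2^(e-1) = 2^e/2 ≤ y'` (`gcl_smooth`). `a` is arbitrary.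
-/

set_option autoImplicit false

open Finset Filter

namespace Pool.Agent.VM

open Pool.Agent.VK Pool.Agent.HLT

namespace ScSmallAux

lemma ev_rpow (c K : ℝ) (hc : 0 < c) : ∀ᶠ X : ℕ in atTop, K < (X : ℝ) ^ c :=
  ((tendsto_rpow_atTop hc).comp tendsto_natCast_atTop_atTop).eventually (eventually_gt_atTop K)

lemma ev_tau (σ : ℝ) (hσ : 0 < σ) : ∀ᶠ X : ℕ in atTop, ∀ n : ℕ, n ≤ 2 ^ 14 * X →
    (n.divisors.card : ℝ) ^ 12 ≤ (X : ℝ) ^ σ := by
  obtain ⟨C, hC, hτ⟩ := tau_small (σ / 24) (by positivity)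
  filter_upwards [ev_rpow (σ / 2) (C ^ 12 * ((2 : ℝ) ^ 14) ^ (σ / 2)) (by positivity),
    eventually_ge_atTop 1] with X hX hX1 n hn
  have hX1' : (1 : ℝ) ≤ X := by exact_mod_cast hX1
  rcases Nat.eq_zero_or_pos n with rfl | hn0
  · rw [Nat.divisors_zero, card_empty, Nat.cast_zero, zero_pow (by norm_num)]
    positivity
  · have h1 := hτ n hn0
    have hn' : (n : ℝ) ≤ 2 ^ 14 * X := by exact_mod_cast hn
    have hn0' : (0 : ℝ) ≤ n := Nat.cast_nonneg _
    calc (n.divisors.card : ℝ) ^ 12 ≤ (C * (n : ℝ) ^ (σ / 24)) ^ 12 :=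
          pow_le_pow_left₀ (Nat.cast_nonneg _) h1 12
      _ = C ^ 12 * (n : ℝ) ^ (σ / 2) := by
          rw [mul_pow, ← Real.rpow_natCast ((n : ℝ) ^ (σ / 24)) 12, ← Real.rpow_mul hn0']
          congr 2
          push_cast
          ring
      _ ≤ C ^ 12 * (2 ^ 14 * X : ℝ) ^ (σ / 2) := by
          refine mul_le_mul_of_nonneg_left ?_ (by positivity)
          exact Real.rpow_le_rpow hn0' hn' (by positivity)
      _ = (C ^ 12 * ((2 : ℝ) ^ 14) ^ (σ / 2)) * (X : ℝ) ^ (σ / 2) := by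
          rw [Real.mul_rpow (by positivity) (by positivity)]
          ring
      _ ≤ (X : ℝ) ^ (σ / 2) * (X : ℝ) ^ (σ / 2) := by
          exact mul_le_mul_of_nonneg_right hX.le (by positivity)
      _ = (X : ℝ) ^ σ := by
          rw [← Real.rpow_add (by linarith)]
          congr 1
          ring

end ScSmallAux

open ScSmallAux

theorem sc_small (ε : ℝ) (hε : 0 < ε) : ∃ s : ℝ, 0 < s ∧ ∀ᶠ X : ℕ in atTop,
    ∀ (h q z y : ℕ) (e : Fin 12 → ℕ) (a : ℤ), (X : ℝ) ^ (1 / 6 + ε) ≤ h → (h : ℝ) ≤ (X : ℝ) ^ (2 / 5 : ℝ) →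
    1 ≤ q → (q : ℝ) ≤ (X : ℝ) ^ s →
    (∀ i : Fin 12, (2 : ℝ) ^ e i ≤ (X : ℝ) ^ s ∨ (6 ≤ i.val ∧ h * (X : ℝ) ^ (-s) ≤ (2 : ℝ) ^ e i)) →
    ∑ u ∈ Icc X (2 * X), ‖(∑ n ∈ Ioc u (u + h), Fcl z q y e n * ex (n * (a / q))) / (h : ℂ) -
        (∑ n ∈ Ioc u (u + YY X), Fcl z q y e n * ex (n * (a / q))) / (YY X : ℂ)‖ ^ 2 ≤
      X * (X : ℝ) ^ (-s) := by
  classical
  obtain ⟨s0, hs0, hdjs⟩ := djs_win ε hε
  set s1 : ℝ := min (min s0 ε) (1 / 1000) with hs1def
  have hs1 : 0 < s1 := lt_min (lt_min hs0 hε) (by norm_num)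
  have hs10 : s1 ≤ s0 := (min_le_left _ _).trans (min_le_left _ _)
  have hs1ε : s1 ≤ ε := (min_le_left _ _).trans (min_le_right _ _)
  have hs1m : s1 ≤ 1 / 1000 := min_le_right _ _
  obtain ⟨s2, hs2, ht1⟩ := t1_small (s1 / 2) (by positivity)
  set σ : ℝ := min s1 s2 with hσdef
  have hσ : 0 < σ := lt_min hs1 hs2
  have hσ1 : σ ≤ s1 := min_le_left _ _
  have hσ2 : σ ≤ s2 := min_le_right _ _
  refine ⟨σ / 100, by positivity, ?_⟩
  set s : ℝ := σ / 100 with hsdef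
  have hs : 0 < s := by positivity
  have hsσ : s * 100 = σ := by rw [hsdef]; ring
  filter_upwards [hdjs, ht1, ev_tau σ hσ, ev_rpow (s1 / 2) 2 (by positivity),
    ev_rpow s1 (2 ^ 14) hs1, ev_rpow (5 * ε) (2 ^ 14) (by positivity),
    eventually_ge_atTop 2] with X hdjs ht1 hτ hE3 hE4 hE5 hX2
  intro h q z y e a hh1 hh2 hq1 hq2 he
  have hX2' : (2 : ℝ) ≤ X := by exact_mod_cast hX2
  have hX0 : (0 : ℝ) < X := by linarith only [hX2']
  have hX1 : (1 : ℝ) ≤ X := by linarith only [hX2']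
  have hX1s : (1 : ℝ) < X := by linarith only [hX2']
  have hmono : ∀ u v : ℝ, u ≤ v → (X : ℝ) ^ u ≤ (X : ℝ) ^ v := fun u v huv =>
    Real.rpow_le_rpow_of_exponent_le hX1 huv
  have hYX : YY X ≤ X := by
    unfold YY
    rw [Nat.ceil_le]
    calc (X : ℝ) ^ (17 / 20 : ℝ) ≤ (X : ℝ) ^ (1 : ℝ) := hmono _ _ (by norm_num)
      _ = X := Real.rpow_one _
  have hhX' : (h : ℝ) ≤ X := by
    calc (h : ℝ) ≤ (X : ℝ) ^ (2 / 5 : ℝ) := hh2
      _ ≤ (X : ℝ) ^ (1 : ℝ) := hmono _ _ (by norm_num)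
      _ = X := Real.rpow_one _
  have hhX : h ≤ X := by exact_mod_cast hhX'
  have hh0 : (0 : ℝ) < h := lt_of_lt_of_le (by (clear * - hX2; positivity)) hh1
  -- trivial case
  by_cases hF0 : ∀ n ∈ Ioc X (4 * X), Fcl z q y e n = 0
  · have hz : ∑ u ∈ Icc X (2 * X), ‖(∑ n ∈ Ioc u (u + h), Fcl z q y e n * ex (n * (a / q))) / (h : ℂ) -
        (∑ n ∈ Ioc u (u + YY X), Fcl z q y e n * ex (n * (a / q))) / (YY X : ℂ)‖ ^ 2 = 0 := by
      refine Finset.sum_eq_zero fun u hu => ?_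
      rw [mem_Icc] at hu
      have w1 : ∑ n ∈ Ioc u (u + h), Fcl z q y e n * ex (n * (a / q)) = 0 := by
        refine Finset.sum_eq_zero fun n hn => ?_
        rw [mem_Ioc] at hn
        rw [hF0 n (mem_Ioc.2 ⟨by omega, by omega⟩), zero_mul]
      have w2 : ∑ n ∈ Ioc u (u + YY X), Fcl z q y e n * ex (n * (a / q)) = 0 := by
        refine Finset.sum_eq_zero fun n hn => ?_
        rw [mem_Ioc] at hn
        rw [hF0 n (mem_Ioc.2 ⟨by omega, by omega⟩), zero_mul]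
      rw [w1, w2]
      simp
    rw [hz]
    (clear * - hX2; positivity)
  push Not at hF0
  obtain ⟨n0, hn0, hn0F⟩ := hF0
  rw [mem_Ioc] at hn0
  obtain ⟨hsup1, hsup2⟩ := Fcl_supp z q y e n0 hn0F
  set Z : ℕ := ∏ i, 2 ^ e i with hZ
  have hZlo : X < Z := lt_of_lt_of_le hn0.1 hsup1
  have hZhi : Z ≤ 2 ^ 14 * X := by
    calc Z ≤ 2 ^ 12 * n0 := hsup2
      _ ≤ 2 ^ 12 * (4 * X) := Nat.mul_le_mul_left _ hn0.2
      _ = 2 ^ 14 * X := by ring
  have hhalf : ∀ k : ℕ, 1 ≤ k → 2 ^ k / 2 = 2 ^ (k - 1) := by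
    intro k hk
    obtain ⟨m, rfl⟩ : ∃ m, k = m + 1 := ⟨k - 1, by omega⟩
    rw [pow_succ]
    simp
  have hfin : ∀ v : ℝ, s ≤ v → (X : ℝ) * (X : ℝ) ^ (-v) ≤ X * (X : ℝ) ^ (-s) := fun v hv =>
    mul_le_mul_of_nonneg_left (hmono _ _ (by linarith only [hv])) hX0.le
  -- type I
  by_cases hI : ∃ i0 : Fin 12, 6 ≤ i0.val ∧
      2 * (Real.sqrt (X / h) * (X : ℝ) ^ (s1 / 2)) < (2 : ℝ) ^ e i0
  · obtain ⟨i0, hi6, hi0⟩ := hI
    obtain ⟨y', hy', hgy'⟩ := gcl_smooth z q y e i0 hi6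
    have hXh : (1 : ℝ) ≤ X / h := by rwa [one_le_div hh0]
    have hsq : (1 : ℝ) ≤ Real.sqrt (X / h) := Real.one_le_sqrt.2 hXh
    have hge1 : (1 : ℝ) ≤ Real.sqrt (X / h) * (X : ℝ) ^ (s1 / 2) := by
      have := one_le_mul_of_one_le_of_one_le hsq (Real.one_le_rpow hX1 (by (clear * - hε hs0; positivity) : 0 ≤ s1 / 2))
      exact this
    have hei : 1 ≤ e i0 := by
      by_contra hcon
      have : e i0 = 0 := by omega
      rw [this, pow_zero] at hi0
      linarith only [hi0, hge1]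
    have hN1 : Real.sqrt (X / h) * (X : ℝ) ^ (s1 / 2) ≤ y' := by
      have k1 : ((2 ^ e i0 / 2 : ℕ) : ℝ) ≤ y' := by exact_mod_cast hy'
      rw [hhalf _ hei] at k1
      have k2 : (2 : ℝ) ^ e i0 = 2 * 2 ^ (e i0 - 1) := by
        rw [← pow_succ']
        congr 1
        omega
      push_cast at k1
      rw [k2] at hi0
      linarith only [hi0, k1]
    have hN12 : y' ≤ 2 ^ e i0 := by
      by_contra hcon
      push Not at hcon
      apply hn0F
      rw [Fcl_split z q y e i0, hgy']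
      have : ind q y' (2 ^ e i0) = 0 := by
        ext n
        rw [ind_apply, if_neg]
        · simp
        · rintro ⟨k1, k2, -⟩
          omega
      rw [this, mul_zero]
      simp
    have hb : ∀ n, ‖(∏ j ∈ univ.erase i0, gcl z q y e j) n‖ ≤ (X : ℝ) ^ s2 := by
      intro n
      by_cases hbn : (∏ j ∈ univ.erase i0, gcl z q y e j) n = 0
      · rw [hbn, norm_zero]
        (clear * - hX2; positivity)
      · have k1 := Fcl_le z q y e (univ.erase i0) n hbn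
        have k2 : ∏ i ∈ univ.erase i0, 2 ^ e i ≤ Z := by
          rw [hZ]
          exact Finset.prod_le_prod_of_subset_of_one_le' (erase_subset _ _)
            fun i _ _ => Nat.one_le_two_pow
        exact (Fcl_bound z q y e (univ.erase i0) n).trans
          ((hτ n (k1.trans (k2.trans hZhi))).trans (hmono _ _ hσ2))
    have key := ht1 q h y' (2 ^ e i0) a (∏ j ∈ univ.erase i0, gcl z q y e j)
      ((hmono _ _ (by linarith only [hε])).trans hh1) hh2 hq1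
      (hq2.trans (hmono _ _ (by linarith only [hs2, hσ2, hsdef]))) hN1 hN12 hb
    rw [← hgy', ← Fcl_split z q y e i0] at key
    exact key.trans (hfin s2 (by linarith only [hs2, hσ2, hsdef]))
  push Not at hI
  -- the long factors
  set Lc : Finset (Fin 12) := univ.filter (fun i => (X : ℝ) ^ s < (2 : ℝ) ^ e i) with hLc
  have hLc1 : ∀ i ∈ Lc, 6 ≤ i.val ∧ h * (X : ℝ) ^ (-s) ≤ (2 : ℝ) ^ e i := by
    intro i hi
    rcases he i with hi' | hi'
    · exact absurd (mem_filter.1 hi).2 (not_lt.2 hi')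
    · exact hi'
  have hLe : ∀ i ∈ Lc, 1 ≤ e i := by
    intro i hi
    by_contra hcon
    have h0 : e i = 0 := by omega
    have h1 := (mem_filter.1 hi).2
    rw [h0, pow_zero] at h1
    exact absurd (Real.one_le_rpow hX1 hs.le) (not_le.2 h1)
  set t : ℝ := Real.sqrt (X / h) * (X : ℝ) ^ s1 with ht
  have hXh : (1 : ℝ) ≤ X / h := by rwa [one_le_div hh0]
  have hsq : (1 : ℝ) ≤ Real.sqrt (X / h) := Real.one_le_sqrt.2 hXh
  have ht1' : 1 ≤ t := one_le_mul_of_one_le_of_one_le hsq (Real.one_le_rpow hX1 hs1.le)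
  have hLup : ∀ i ∈ Lc, (2 : ℝ) ^ e i ≤ t := by
    intro i hi
    refine (hI i (hLc1 i hi).1).trans ?_
    have k1 : (X : ℝ) ^ s1 = (X : ℝ) ^ (s1 / 2) * (X : ℝ) ^ (s1 / 2) := by
      rw [← Real.rpow_add hX0]
      congr 1
      ring
    rw [ht, k1]
    have k2 : 0 ≤ Real.sqrt (X / h) * (X : ℝ) ^ (s1 / 2) := by (clear * - hX2 hh0; positivity)
    calc 2 * (Real.sqrt (X / h) * (X : ℝ) ^ (s1 / 2))
        ≤ (X : ℝ) ^ (s1 / 2) * (Real.sqrt (X / h) * (X : ℝ) ^ (s1 / 2)) :=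
          mul_le_mul_of_nonneg_right hE3.le k2
      _ = _ := by ring
  set P : ℕ := ∏ i ∈ Lcᶜ, 2 ^ e i with hP
  have hP1 : 1 ≤ P := Nat.one_le_iff_ne_zero.2 (Finset.prod_ne_zero_iff.2 fun i _ => by (clear * -; positivity))
  have hPle : (P : ℝ) ≤ (X : ℝ) ^ (12 * s) := by
    have k1 : (P : ℝ) = ∏ i ∈ Lcᶜ, (2 : ℝ) ^ e i := by
      rw [hP]
      push_cast
      rfl
    rw [k1]
    calc ∏ i ∈ Lcᶜ, (2 : ℝ) ^ e i ≤ ∏ _i ∈ Lcᶜ, (X : ℝ) ^ s := by
          refine Finset.prod_le_prod (fun i _ => by (clear * -; positivity)) fun i hi => ?_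
          rw [mem_compl, hLc, mem_filter] at hi
          push Not at hi
          exact hi (mem_univ i)
      _ = ((X : ℝ) ^ s) ^ (Lcᶜ).card := by rw [prod_const]
      _ ≤ ((X : ℝ) ^ s) ^ 12 := by
          refine pow_le_pow_right₀ (Real.one_le_rpow hX1 hs.le) ?_
          exact (card_le_univ _).trans (by simp)
      _ = (X : ℝ) ^ (12 * s) := by
          rw [← Real.rpow_natCast, ← Real.rpow_mul hX0.le]
          congr 1
          push_cast
          ring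
  have hPZ : (P : ℝ) * ∏ i ∈ Lc, (2 : ℝ) ^ e i = Z := by
    rw [hP, hZ]
    push_cast
    rw [prod_compl_mul_prod]
  set Q : ℝ := ∏ i ∈ Lc, (2 : ℝ) ^ e i with hQ
  have hQ0 : 0 < Q := Finset.prod_pos fun i _ => by (clear * -; positivity)
  have hZlo' : (X : ℝ) < Z := by exact_mod_cast hZlo
  have hZhi' : (Z : ℝ) ≤ 2 ^ 14 * X := by exact_mod_cast hZhi
  have hP1' : (1 : ℝ) ≤ P := by exact_mod_cast hP1
  have hQlo : (X : ℝ) ^ (1 - 12 * s) ≤ Q := by
    have k1 : (X : ℝ) ^ (12 * s) * (X : ℝ) ^ (1 - 12 * s) = X := by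
      rw [← Real.rpow_add hX0]
      simp
    have k2 : (X : ℝ) ≤ (X : ℝ) ^ (12 * s) * Q := by
      calc (X : ℝ) ≤ P * Q := by rw [hPZ]; exact hZlo'.le
        _ ≤ (X : ℝ) ^ (12 * s) * Q := mul_le_mul_of_nonneg_right hPle hQ0.le
    have k3 : (0 : ℝ) < (X : ℝ) ^ (12 * s) := by (clear * - hX2; positivity)
    by_contra hcon
    push Not at hcon
    have := mul_lt_mul_of_pos_left hcon k3
    linarith only [k1, k2, this]
  have hQhi : Q ≤ 2 ^ 14 * X := by
    have : Q ≤ P * Q := le_mul_of_one_le_left hQ0.le hP1'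
    rw [hPZ] at this
    linarith only [hZhi', this]
  have hJ3 : 3 ≤ Lc.card := by
    by_contra hcon
    push Not at hcon
    have k1 : Q ≤ t ^ 2 := by
      calc Q ≤ ∏ _i ∈ Lc, t := Finset.prod_le_prod (fun i _ => by (clear * -; positivity)) hLup
        _ = t ^ Lc.card := by rw [prod_const]
        _ ≤ t ^ 2 := pow_le_pow_right₀ ht1' (by omega)
    have k2 : t ^ 2 ≤ (X : ℝ) ^ (1 - (1 / 6 + ε) + 2 * s1) := by
      rw [ht, mul_pow, Real.sq_sqrt (by (clear * - hX2 hh0; positivity))]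
      have k3 : (X : ℝ) / h ≤ (X : ℝ) ^ (1 - (1 / 6 + ε)) := by
        rw [Real.rpow_sub hX0, Real.rpow_one]
        exact div_le_div_of_nonneg_left hX0.le (by (clear * - hX2; positivity)) hh1
      have k4 : ((X : ℝ) ^ s1) ^ 2 = (X : ℝ) ^ (2 * s1) := by
        rw [← Real.rpow_natCast, ← Real.rpow_mul hX0.le]
        congr 1
        push_cast
        ring
      rw [k4, Real.rpow_add hX0]
      exact mul_le_mul_of_nonneg_right k3 (by (clear * - hX2; positivity))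
    have k5 : (X : ℝ) ^ (1 - (1 / 6 + ε) + 2 * s1) < (X : ℝ) ^ (1 - 12 * s) :=
      Real.rpow_lt_rpow_of_exponent_lt hX1s (by linarith only [hε, hs1, hs1m, hσ1, hsdef])
    linarith only [hQlo, k1, k2, k5]
  have hJ5 : Lc.card ≤ 5 := by
    by_contra hcon
    push Not at hcon
    have k0 : (X : ℝ) ^ (1 / 6 + ε - s) ≤ h * (X : ℝ) ^ (-s) := by
      rw [sub_eq_add_neg, Real.rpow_add hX0]
      exact mul_le_mul_of_nonneg_right hh1 (by (clear * - hX2; positivity))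
    have k0' : 1 ≤ (X : ℝ) ^ (1 / 6 + ε - s) := Real.one_le_rpow hX1 (by linarith only [hε, hs1m, hσ1, hsdef])
    have k1 : ((X : ℝ) ^ (1 / 6 + ε - s)) ^ 6 ≤ Q := by
      calc ((X : ℝ) ^ (1 / 6 + ε - s)) ^ 6 ≤ ((X : ℝ) ^ (1 / 6 + ε - s)) ^ Lc.card :=
            pow_le_pow_right₀ k0' (by omega)
        _ = ∏ _i ∈ Lc, (X : ℝ) ^ (1 / 6 + ε - s) := by rw [prod_const]
        _ ≤ Q := Finset.prod_le_prod (fun i _ => by (clear * - hX2; positivity)) fun i hi =>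
            k0.trans (hLc1 i hi).2
    have k2 : ((X : ℝ) ^ (1 / 6 + ε - s)) ^ 6 = X * (X : ℝ) ^ (6 * ε - 6 * s) := by
      rw [← Real.rpow_natCast, ← Real.rpow_mul hX0.le]
      nth_rw 2 [← Real.rpow_one (X : ℝ)]
      rw [← Real.rpow_add hX0]
      congr 1
      push_cast
      ring
    have k3 : (X : ℝ) ^ (5 * ε) ≤ (X : ℝ) ^ (6 * ε - 6 * s) := hmono _ _ (by linarith only [hs1ε, hσ1, hsdef, hs])
    have k4 : (X : ℝ) * (2 ^ 14) < X * (X : ℝ) ^ (6 * ε - 6 * s) :=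
      mul_lt_mul_of_pos_left (by linarith only [hE5, k3]) hX0
    linarith only [hQhi, k1, k2, k4]
  obtain ⟨φ, hφL, hFφ, hprod⟩ := Fcl_class z q y e Lc Lc.card rfl
  choose y' hy' hgy' using fun j => gcl_smooth z q y e (φ j) (hLc1 _ (hφL j)).1
  have hQφ : ∏ j, (2 : ℝ) ^ e (φ j) = Q := (hprod fun i => (2 : ℝ) ^ e i).symm
  have hD : DCl X h q Lc.card P s1 (fun j => e (φ j)) (fun j => gcl z q y e (φ j))
      (∏ i ∈ Lcᶜ, gcl z q y e i) := by
    refine ⟨hJ3, hJ5, fun j => ⟨hLe _ (hφL j), ?_, hLup _ (hφL j)⟩, ?_, ?_, ?_, ?_, ?_, ?_, ?_⟩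
    · refine le_trans ?_ (hLc1 _ (hφL j)).2
      exact mul_le_mul_of_nonneg_left (hmono _ _ (by linarith only [hs1, hσ1, hsdef])) hh0.le
    · rw [hQφ]
      exact (hmono _ _ (by linarith only [hσ1, hsdef, hs])).trans hQlo
    · rw [hQφ]
      refine hQhi.trans ?_
      rw [Real.rpow_add hX0, Real.rpow_one, mul_comm]
      exact mul_le_mul_of_nonneg_left hE4.le hX0.le
    · intro j n
      exact gcl_bound z q y e (φ j) n
    · intro j n hn
      have := gcl_supp z q y e (φ j) n hn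
      rw [hhalf _ (hLe _ (hφL j))] at this
      exact this
    · exact hPle.trans (hmono _ _ (by linarith only [hσ1, hsdef, hs]))
    · intro n
      by_cases hbn : (∏ i ∈ Lcᶜ, gcl z q y e i) n = 0
      · rw [hbn, norm_zero]
        (clear * - hX2; positivity)
      · have k1 := Fcl_le z q y e Lcᶜ n hbn
        have k2 : ∏ i ∈ Lcᶜ, 2 ^ e i ≤ Z := by
          rw [hZ]
          exact Finset.prod_le_prod_of_subset_of_one_le' (subset_univ _)
            fun i _ _ => Nat.one_le_two_pow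
        exact (Fcl_bound z q y e Lcᶜ n).trans
          ((hτ n (k1.trans (k2.trans hZhi))).trans (hmono _ _ hσ1))
    · intro n hn
      exact ⟨Fcl_le z q y e Lcᶜ n hn, Fcl_coprime z q y e Lcᶜ n hn⟩
  have key := hdjs Lc.card q h P (fun j => e (φ j)) y' (fun j => gcl z q y e (φ j))
    (∏ i ∈ Lcᶜ, gcl z q y e i) a (hD.mono (by omega) hs10) hh1 hh2 hq1
    (hq2.trans (hmono _ _ (by linarith only [hs0, hs10, hσ1, hsdef])))
    (fun j => ⟨hgy' j, by rw [← hhalf _ (hLe _ (hφL j))]; exact hy' j⟩)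
    (by
      have k1 : ((P * ∏ j, 2 ^ e (φ j) : ℕ) : ℝ) ≤ ((2 ^ 14 * X : ℕ) : ℝ) := by
        push_cast
        rw [hQφ, hPZ]
        linarith only [hZhi', hZhi']
      exact_mod_cast k1)
  rw [← hFφ] at key
  exact key.trans (hfin s0 (by linarith only [hs0, hs10, hσ1, hsdef]))

end Pool.Agent.VM
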