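import Pool.Agent.Lib.VM.ScLarge
import Pool.Agent.Lib.VM.ScSmall
import Pool.Agent.Lib.VM.LongCl
import Pool.Agent.Lib.VM.MainTerm
import Pool.Agent.Lib.VM.PartSum

/-!
# Module ClsMinor: smooth classes near a rational with denominator `≤ H X^(-e')`

Parameters: `s1 = min` of the values of `sc_small (ε/2)` and `long_cl` and `1/1000`, `κ = s1`, `e' = min (min (κ/8) (ε/8)) (1/1000)`,
`s2` = the value of `sc_large (ε/2) (e'/2) κ` (may be taken `≤ e'`), `s = s2/10` (so `s ≤ s1` as well). `β = α - a/q`, `|β| ≤ X^e'/(q H)`.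
`F n = Fcl z q y e n * ex(n a/q)`, `Fcl n ex(nα) = F n ex(nβ)`, `|F n| ≤ K := X^ν`, `ν = s/10`, for `n ≤ 4X` (`Fcl_bound`, `tau_small`).
Small modulus `q ≤ X^κ`: `h = ⌈H X^(-2e')⌉`; `h ≥ X^(1/6+ε-2e') ≥ X^(1/6 + ε/2)`, `H X^(-s) ≥ h X^(-s1)`, so `sc_small (ε/2)` gives the
difference bound with `D2 = X^(-s1)`; `long_cl` gives the long window with `Gb = 1/q + X^(21/25)/YY X ≤ 1/q + X^(-1/100)`
(the Moebius cells are `≤ X^s`; `u ≤ 2X`); `h |β| ≤ 2 X^(-e') ≤ 1/2`. `main_term` (`Y = YY X ≥ H`):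
`≤ C X H² (2/(q max 1 (H|β|))² + 2 X^(-1/50) + X^(-s1) + X^(2ν) (2 X^(-2e') + 2 X^(-e') + X^(-9/20))²) + C H³ X^(2ν)`.
Large modulus `q > X^κ`: `H |β| ≤ X^(e' - κ) ≤ 1`. `part_sum` with `W = X H² X^(-2s)`: for `1 ≤ h ≤ H`: if `h ≥ H X^(-s2/4)`:
`sc_large (ε/2) (e'/2) κ` (`q ≤ H X^(-e') ≤ h X^(s2/4 - e') ≤ h X^(-e'/2)`, cells `≥ H X^(-s) ≥ h X^(-s2)`) gives `X h² X^(-s2)`; if `h < H X^(-s2/4)`: trivially
`(X + 1) h² X^(2ν) ≤ 2 X H² X^(2ν - s2/2)`.
-/

set_option autoImplicit false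

open Finset Filter

namespace Pool.Agent.VM

open Pool.Agent.VK Pool.Agent.HLT

namespace ClsMinorAux

lemma ev_ge (C δ : ℝ) (hδ : 0 < δ) : ∀ᶠ X : ℕ in atTop, C ≤ (X : ℝ) ^ δ :=
  ((tendsto_rpow_atTop hδ).comp tendsto_natCast_atTop_atTop).eventually_ge_atTop C

lemma phase (F : ℂ) (n : ℕ) (α : ℝ) (a : ℤ) (q : ℕ) :
    F * ex (n * α) = F * ex (n * (a / q)) * ex (n * (α - a / q)) := by
  rw [mul_assoc, ← ex_add]
  congr 2
  ring

/-- the small modulus: the estimate of the right side of `main_term` -/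
lemma small_final {x H Gq m D E5 s : ℝ} {C Q : ℝ} (hx : 0 < x) (hC : 0 ≤ C)
    (hG : Gq ^ 2 ≤ 2 * Q + 2 * x ^ (-s)) (hD : D ≤ x ^ (-s)) (hE : E5 ≤ 25 * x ^ (-s))
    (hm : m ≤ x * H ^ 2 * x ^ (-s)) (hQ : 0 ≤ Q) :
    C * x * H ^ 2 * (Gq ^ 2 + D + E5) + C * m ≤ (100 * C + 200) * x * H ^ 2 * (Q + x ^ (-s)) := by
  have h0 : 0 < x ^ (-s) := Real.rpow_pos_of_pos hx _
  have h1 : 0 ≤ C * x * H ^ 2 := by positivity
  have h2 : C * x * H ^ 2 * (Gq ^ 2 + D + E5) ≤ C * x * H ^ 2 * (2 * Q + 28 * x ^ (-s)) :=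
    mul_le_mul_of_nonneg_left (by linarith) h1
  have h3 : C * m ≤ C * (x * H ^ 2 * x ^ (-s)) := mul_le_mul_of_nonneg_left hm hC
  have h4 : 0 ≤ C * x * H ^ 2 * Q := by positivity
  have h5 : 0 ≤ C * x * H ^ 2 * x ^ (-s) := by positivity
  have h6 : 0 ≤ 200 * x * H ^ 2 * (Q + x ^ (-s)) := by positivity
  nlinarith only [h2, h3, h4, h5, h6]

lemma sq_two {p y M : ℝ} (hp : 0 ≤ p) (hy : 0 ≤ y) (hM : 1 ≤ M) :
    ((p + y) / M) ^ 2 ≤ 2 * (p / M) ^ 2 + 2 * y ^ 2 := by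
  have hM0 : 0 < M := by linarith
  have h1 : y / M ≤ y := div_le_self hy hM
  have h2 : 0 ≤ y / M := by positivity
  have h3 : 0 ≤ p / M := by positivity
  rw [add_div]
  nlinarith only [hy, h1, h2, sq_nonneg (p / M - y / M), mul_le_mul h1 h1 h2 hy]

end ClsMinorAux

open ClsMinorAux in
theorem cls_minor (ε : ℝ) (hε : 0 < ε) : ∃ e' s C : ℝ, 0 < e' ∧ e' ≤ 1 / 1000 ∧ 0 < s ∧ 1 ≤ C ∧ ∀ᶠ X : ℕ in atTop,
    ∀ (H q z y : ℕ) (e : Fin 12 → ℕ) (a : ℤ) (α : ℝ), (X : ℝ) ^ (1 / 6 + ε) ≤ H → (H : ℝ) ≤ (X : ℝ) ^ (39 / 100 : ℝ) →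
    1 ≤ q → (q : ℝ) ≤ H * (X : ℝ) ^ (-e') → IsCoprime a (q : ℤ) → |α - a / q| ≤ (X : ℝ) ^ e' / (q * H) →
    (∀ i : Fin 12, (2 : ℝ) ^ e i ≤ (X : ℝ) ^ s ∨ (6 ≤ i.val ∧ H * (X : ℝ) ^ (-s) ≤ (2 : ℝ) ^ e i)) →
    ∑ u ∈ Icc X (2 * X), ‖∑ n ∈ Ioc u (u + H), Fcl z q y e n * ex (n * α)‖ ^ 2 ≤
      C * X * (H : ℝ) ^ 2 * (1 / (q * max 1 (H * |α - a / q|)) ^ 2 + (X : ℝ) ^ (-s)) := by
  obtain ⟨sa, hsa, hA⟩ := sc_small (ε / 2) (by linarith)
  obtain ⟨sb, hsb, hB⟩ := long_cl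
  obtain ⟨s1, hs1⟩ : ∃ s1, s1 = min (min sa sb) (1 / 1000) := ⟨_, rfl⟩
  have hs1p : 0 < s1 := by rw [hs1]; exact lt_min (lt_min hsa hsb) (by norm_num)
  have hs1a : s1 ≤ sa := by rw [hs1]; exact (min_le_left _ _).trans (min_le_left _ _)
  have hs1b : s1 ≤ sb := by rw [hs1]; exact (min_le_left _ _).trans (min_le_right _ _)
  have hs1c : s1 ≤ 1 / 1000 := by rw [hs1]; exact min_le_right _ _
  obtain ⟨e', he'⟩ : ∃ e', e' = min (min (s1 / 8) (ε / 8)) (1 / 1000) := ⟨_, rfl⟩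
  have he'p : 0 < e' := by rw [he']; exact lt_min (lt_min (by linarith) (by linarith)) (by norm_num)
  have he'1 : e' ≤ s1 / 8 := by rw [he']; exact (min_le_left _ _).trans (min_le_left _ _)
  have he'2 : e' ≤ ε / 8 := by rw [he']; exact (min_le_left _ _).trans (min_le_right _ _)
  have he'3 : e' ≤ 1 / 1000 := by rw [he']; exact min_le_right _ _
  obtain ⟨sc, hsc, hC⟩ := sc_large (ε / 2) (e' / 2) s1 (by linarith only [he'p, he'2]) (by linarith only [he'p]) hs1p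
  obtain ⟨s2, hs2⟩ : ∃ s2, s2 = min sc e' := ⟨_, rfl⟩
  have hs2p : 0 < s2 := by rw [hs2]; exact lt_min hsc he'p
  have hs2c : s2 ≤ sc := by rw [hs2]; exact min_le_left _ _
  have hs2e : s2 ≤ e' := by rw [hs2]; exact min_le_right _ _
  obtain ⟨s, hs⟩ : ∃ s, s = s2 / 10 := ⟨_, rfl⟩
  have hsp : 0 < s := by rw [hs]; linarith only [hs2p]
  obtain ⟨ν, hν⟩ : ∃ ν, ν = s / 10 := ⟨_, rfl⟩
  have hνp : 0 < ν := by rw [hν]; linarith only [hsp]
  obtain ⟨Ct, hCt, htau⟩ := tau_small (ν / 24) (by linarith only [hνp])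
  obtain ⟨Cm, hCm, hM⟩ := main_term
  refine ⟨e', s, 100 * Cm + 200, he'p, he'3, hsp, by linarith only [hCm], ?_⟩
  filter_upwards [hA, hB, hC, ev_ge (Ct ^ 12 * (4 : ℝ) ^ (ν / 2)) (ν / 2) (by linarith only [hνp]),
    ev_ge 4 e' he'p, ev_ge 2 (3 / 20) (by norm_num), eventually_ge_atTop 1] with X hA hB hC hX1 hX2 hX3 hX4
  intro H q z y e a α hH1 hH2 hq1 hq2 hcop hα hcell
  obtain ⟨x, hx⟩ : ∃ x : ℝ, x = X := ⟨_, rfl⟩
  have hx1 : 1 ≤ x := by rw [hx]; exact_mod_cast hX4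
  have hx0 : 0 < x := by linarith only [hx1]
  have hmono : ∀ {c d : ℝ}, c ≤ d → x ^ c ≤ x ^ d := fun h => Real.rpow_le_rpow_of_exponent_le hx1 h
  have hxadd : ∀ c d : ℝ, x ^ c * x ^ d = x ^ (c + d) := fun c d => (Real.rpow_add hx0 c d).symm
  rw [← hx] at hX1 hX2 hX3 hH1 hH2 hq2 hα hcell ⊢
  simp only [← hx] at hA hB hC
  obtain ⟨β, hβ⟩ : ∃ β : ℝ, β = α - a / q := ⟨_, rfl⟩
  rw [← hβ] at hα ⊢
  have hHR1 : (1 : ℝ) ≤ H := (Real.one_le_rpow hx1 (by linarith only [hε])).trans hH1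
  have hHR0 : (0 : ℝ) < H := by linarith only [hHR1]
  have hqR1 : (1 : ℝ) ≤ q := by exact_mod_cast hq1
  have hqR0 : (0 : ℝ) < q := by linarith only [hqR1]
  have hHN : 1 ≤ H := by exact_mod_cast hHR1
  -- the phase
  have hph : ∀ u : ℕ, ∑ n ∈ Ioc u (u + H), Fcl z q y e n * ex (n * α) =
      ∑ n ∈ Ioc u (u + H), (Fcl z q y e n * ex (n * (a / q))) * ex (n * β) := by
    intro u
    apply sum_congr rfl
    intro n _
    rw [hβ]
    exact phase _ n α a q
  simp only [hph]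
  -- the pointwise bound
  have hK : ∀ n ∈ Icc 1 (4 * X), ‖Fcl z q y e n * ex (n * (a / q))‖ ≤ x ^ ν := by
    intro n hn
    rw [mem_Icc] at hn
    rw [norm_mul, norm_ex, mul_one]
    have h1 := Fcl_bound z q y e univ n
    have h2 := htau n hn.1
    have hnx : (n : ℝ) ≤ 4 * x := by rw [hx]; exact_mod_cast hn.2
    have hn1 : (1 : ℝ) ≤ n := by exact_mod_cast hn.1
    have h3 : (n.divisors.card : ℝ) ^ 12 ≤ (Ct * (n : ℝ) ^ (ν / 24)) ^ 12 :=
      pow_le_pow_left₀ (by (clear * -; positivity)) h2 12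
    have h4 : (Ct * (n : ℝ) ^ (ν / 24)) ^ 12 = Ct ^ 12 * (n : ℝ) ^ (ν / 2) := by
      rw [mul_pow, ← Real.rpow_natCast ((n : ℝ) ^ (ν / 24)), ← Real.rpow_mul (by (clear * - hn1; positivity))]
      congr 2
      push_cast
      ring
    have h5 : (n : ℝ) ^ (ν / 2) ≤ (4 : ℝ) ^ (ν / 2) * x ^ (ν / 2) := by
      rw [← Real.mul_rpow (by norm_num) hx0.le]
      exact Real.rpow_le_rpow (by linarith only [hn1]) hnx (by linarith only [hνp])
    calc ‖Fcl z q y e n‖ ≤ (n.divisors.card : ℝ) ^ 12 := h1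
      _ ≤ Ct ^ 12 * (n : ℝ) ^ (ν / 2) := by rw [← h4]; exact h3
      _ ≤ Ct ^ 12 * ((4 : ℝ) ^ (ν / 2) * x ^ (ν / 2)) :=
          mul_le_mul_of_nonneg_left h5 (by (clear * - hCt; positivity))
      _ = (Ct ^ 12 * (4 : ℝ) ^ (ν / 2)) * x ^ (ν / 2) := by ring
      _ ≤ x ^ (ν / 2) * x ^ (ν / 2) := mul_le_mul_of_nonneg_right hX1 (by (clear * - hx1; positivity))
      _ = x ^ ν := by rw [hxadd]; congr 1; ring
  have hHβ : H * |β| ≤ x ^ e' / q := by
    calc (H : ℝ) * |β| ≤ H * (x ^ e' / (q * H)) := mul_le_mul_of_nonneg_left hα hHR0.le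
      _ = x ^ e' / q := by field_simp
  rcases le_or_gt (q : ℝ) (x ^ s1) with hqs | hqs
  · -- small modulus
    obtain ⟨h, hh⟩ : ∃ h : ℕ, h = ⌈(H : ℝ) * x ^ (-(2 * e'))⌉₊ := ⟨_, rfl⟩
    have hlo : (H : ℝ) * x ^ (-(2 * e')) ≤ h := by rw [hh]; exact Nat.le_ceil _
    have hone : 1 ≤ (H : ℝ) * x ^ (-(2 * e')) := by
      calc (1 : ℝ) ≤ x ^ (1 / 6 + ε + -(2 * e')) := Real.one_le_rpow hx1 (by linarith only [hε, he'2])
        _ = x ^ (1 / 6 + ε) * x ^ (-(2 * e')) := (hxadd _ _).symm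
        _ ≤ H * x ^ (-(2 * e')) := mul_le_mul_of_nonneg_right hH1 (by (clear * - hx1; positivity))
    have hhi : (h : ℝ) ≤ 2 * (H * x ^ (-(2 * e'))) := by
      have h1 : (h : ℝ) < H * x ^ (-(2 * e')) + 1 := by
        rw [hh]; exact Nat.ceil_lt_add_one (by (clear * - hx1 hHN; positivity))
      linarith only [hone, h1]
    have hhH : h ≤ H := by
      rw [hh]
      apply Nat.ceil_le.2
      exact mul_le_of_le_one_right hHR0.le (Real.rpow_le_one_of_one_le_of_nonpos hx1 (by linarith only [he'p]))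
    have hh1 : 1 ≤ h := by
      have : (1 : ℝ) ≤ h := hone.trans hlo
      exact_mod_cast this
    have hhR : (h : ℝ) ≤ H := by exact_mod_cast hhH
    have hY0 : x ^ (17 / 20 : ℝ) ≤ YY X := by rw [hx]; exact Nat.le_ceil _
    have hYpos : (0 : ℝ) < YY X := lt_of_lt_of_le (by (clear * - hx1; positivity)) hY0
    have hHY : H ≤ YY X := by
      have : (H : ℝ) ≤ YY X := (hH2.trans (hmono (by norm_num))).trans hY0
      exact_mod_cast this
    have hYX : YY X ≤ X := by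
      unfold YY
      apply Nat.ceil_le.2
      rw [← hx]
      calc x ^ (17 / 20 : ℝ) ≤ x ^ (1 : ℝ) := hmono (by norm_num)
        _ = x := Real.rpow_one x
    have hhlo : x ^ (1 / 6 + ε / 2) ≤ h := by
      calc x ^ (1 / 6 + ε / 2) ≤ x ^ (1 / 6 + ε + -(2 * e')) := hmono (by linarith only [hε, he'2])
        _ = x ^ (1 / 6 + ε) * x ^ (-(2 * e')) := (hxadd _ _).symm
        _ ≤ H * x ^ (-(2 * e')) := mul_le_mul_of_nonneg_right hH1 (by (clear * - hx1; positivity))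
        _ ≤ h := hlo
    have hh25 : (h : ℝ) ≤ x ^ (2 / 5 : ℝ) := hhR.trans (hH2.trans (hmono (by norm_num)))
    have hβh : h * |β| ≤ 2 * x ^ (-e') := by
      calc (h : ℝ) * |β| ≤ 2 * (H * x ^ (-(2 * e'))) * |β| :=
            mul_le_mul_of_nonneg_right hhi (abs_nonneg _)
        _ = 2 * x ^ (-(2 * e')) * (H * |β|) := by ring
        _ ≤ 2 * x ^ (-(2 * e')) * x ^ e' := by
            apply mul_le_mul_of_nonneg_left _ (by (clear * - hx1; positivity))
            refine hHβ.trans (div_le_self (by (clear * - hx1; positivity)) hqR1)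
        _ = 2 * x ^ (-e') := by rw [mul_assoc, hxadd]; congr 2; ring
    have hβh2 : h * |β| ≤ 1 / 2 := by
      refine hβh.trans ?_
      rw [Real.rpow_neg hx0.le]
      have : (x ^ e')⁻¹ ≤ 4⁻¹ := inv_anti₀ (by norm_num) hX2
      linarith only [this]
    have hcell1 : ∀ i : Fin 12, (2 : ℝ) ^ e i ≤ x ^ sa ∨
        (6 ≤ i.val ∧ h * x ^ (-sa) ≤ (2 : ℝ) ^ e i) := by
      intro i
      rcases hcell i with h1 | ⟨h1, h2⟩
      · left; exact h1.trans (hmono (by linarith only [hsa, hs1a, he'1, hs2e, hs]))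
      · right
        refine ⟨h1, le_trans ?_ h2⟩
        exact mul_le_mul hhR (hmono (by linarith only [hsa, hs1a, he'1, hs2e, hs])) (by (clear * - hx1; positivity)) hHR0.le
    have hD := hA h q z y e a hhlo hh25 hq1 (hqs.trans (hmono hs1a)) hcell1
    have hL : ∀ u ∈ Icc X (2 * X), ‖∑ n ∈ Ioc u (u + YY X), Fcl z q y e n * ex (n * (a / q))‖ ≤
        (1 / q + x ^ (-(1 / 100) : ℝ)) * YY X := by
      intro u hu
      rw [mem_Icc] at hu
      have h1 := hB q z y u e a hq1 (hqs.trans (hmono hs1b)) hcop (by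
        intro i hi
        rcases hcell i with h1 | ⟨h1, h2⟩
        · exact h1.trans (hmono (by linarith only [hsb, hs1b, he'1, hs2e, hs]))
        · omega) hu.1 (by omega)
      refine h1.trans ?_
      have h2 : x ^ (21 / 25 : ℝ) ≤ x ^ (-(1 / 100) : ℝ) * YY X := by
        calc x ^ (21 / 25 : ℝ) = x ^ (-(1 / 100) : ℝ) * x ^ (17 / 20 : ℝ) := by
              rw [hxadd]; norm_num
          _ ≤ _ := mul_le_mul_of_nonneg_left hY0 (by (clear * - hx1; positivity))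
      rw [add_mul, one_div, inv_mul_eq_div]
      linarith only [h2]
    have hm := hM X H h (YY X) (fun n => Fcl z q y e n * ex (n * (a / q))) β (x ^ ν) (x ^ (-sa))
      (1 / q + x ^ (-(1 / 100) : ℝ)) hX4 hh1 hhH hHY hYX (by (clear * - hx1; positivity)) (by (clear * - hq1 hx1; positivity))
      (by (clear * - hx1; positivity)) hK hβh2 (by rw [← hx]; exact hD) hL
    refine hm.trans ?_
    rw [← hx]
    rw [show Cm * (H : ℝ) ^ 3 * (x ^ ν) ^ 2 = Cm * ((H : ℝ) ^ 3 * (x ^ ν) ^ 2) by ring]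
    have hν2 : (x ^ ν) ^ 2 = x ^ (2 * ν) := by
      rw [← Real.rpow_natCast, ← Real.rpow_mul hx0.le]
      congr 1
      push_cast
      ring
    refine small_final hx0 (by linarith only [hCm]) ?_ (hmono (by linarith only [hsa, hs1a, he'1, hs2e, hs])) ?_ ?_ (by (clear * - hq1; positivity))
    · refine (sq_two (by (clear * - hq1; positivity)) (by (clear * - hx1; positivity)) (le_max_left _ _)).trans ?_
      have h1 : (1 / (q : ℝ) / max 1 (H * |β|)) ^ 2 = 1 / (q * max 1 (H * |β|)) ^ 2 := by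
        rw [div_div, div_pow, one_pow]
      have h2 : (x ^ (-(1 / 100) : ℝ)) ^ 2 ≤ x ^ (-s) := by
        rw [← Real.rpow_natCast, ← Real.rpow_mul hx0.le]
        apply hmono
        push_cast
        linarith only [hs1c, he'p, he'1, hs2e, hs]
      rw [h1]
      linarith only [h2]
    · have h1 : (h : ℝ) / H ≤ 2 * x ^ (-e') := by
        rw [div_le_iff₀ hHR0]
        calc (h : ℝ) ≤ 2 * (H * x ^ (-(2 * e'))) := hhi
          _ ≤ 2 * (H * x ^ (-e')) := by
              apply mul_le_mul_of_nonneg_left _ (by norm_num)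
              exact mul_le_mul_of_nonneg_left (hmono (by linarith only [he'p])) hHR0.le
          _ = 2 * x ^ (-e') * H := by ring
      have h2 : (H : ℝ) / YY X ≤ x ^ (-e') := by
        rw [div_le_iff₀ hYpos]
        calc (H : ℝ) ≤ x ^ (39 / 100 : ℝ) := hH2
          _ ≤ x ^ (-e' + 17 / 20) := hmono (by linarith only [hs1c, he'1])
          _ = x ^ (-e') * x ^ (17 / 20 : ℝ) := (hxadd _ _).symm
          _ ≤ x ^ (-e') * YY X := mul_le_mul_of_nonneg_left hY0 (by (clear * - hx1; positivity))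
      have h3 : (h : ℝ) / H + h * |β| + (H : ℝ) / YY X ≤ 5 * x ^ (-e') := by linarith only [hβh, h1, h2]
      have h4 : ((h : ℝ) / H + h * |β| + (H : ℝ) / YY X) ^ 2 ≤ (5 * x ^ (-e')) ^ 2 :=
        pow_le_pow_left₀ (by (clear * - hHN hh1 hYpos; positivity)) h3 2
      calc (x ^ ν) ^ 2 * ((h : ℝ) / H + h * |β| + (H : ℝ) / YY X) ^ 2
          ≤ (x ^ ν) ^ 2 * (5 * x ^ (-e')) ^ 2 := mul_le_mul_of_nonneg_left h4 (by (clear * - hx1; positivity))
        _ = 25 * (x ^ (2 * ν) * (x ^ (-e') * x ^ (-e'))) := by rw [hν2]; ring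
        _ = 25 * x ^ (2 * ν + (-e' + -e')) := by rw [hxadd, hxadd]
        _ ≤ 25 * x ^ (-s) := by
            apply mul_le_mul_of_nonneg_left _ (by norm_num)
            apply hmono
            linarith only [hs2e, hs, hsp, hν]
    · rw [hν2]
      calc (H : ℝ) ^ 3 * x ^ (2 * ν) = H * x ^ (2 * ν) * H ^ 2 := by ring
        _ ≤ x ^ (39 / 100 : ℝ) * x ^ (2 * ν) * H ^ 2 := by
            apply mul_le_mul_of_nonneg_right _ (by (clear * - hHN; positivity))
            exact mul_le_mul_of_nonneg_right hH2 (by (clear * - hx1; positivity))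
        _ = x ^ (39 / 100 + 2 * ν) * H ^ 2 := by rw [hxadd]
        _ ≤ x ^ (1 + -s) * H ^ 2 := by
            apply mul_le_mul_of_nonneg_right _ (by (clear * - hHN; positivity))
            apply hmono
            linarith only [hs1c, he'1, hs2e, hs, hsp, hν]
        _ = x * H ^ 2 * x ^ (-s) := by rw [Real.rpow_add hx0, Real.rpow_one]; ring
  · -- large modulus
    have hHβ1 : H * |β| ≤ 1 := by
      refine hHβ.trans ?_
      rw [div_le_one hqR0]
      exact (hmono (by linarith only [hs1p, he'1])).trans hqs.le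
    have hW : ∀ h : ℕ, 1 ≤ h → h ≤ H →
        ∑ u ∈ Icc X (2 * X), ‖∑ n ∈ Ioc u (u + h), Fcl z q y e n * ex (n * (a / q))‖ ^ 2 ≤
          2 * (x * (H : ℝ) ^ 2 * x ^ (-s)) := by
      intro h hh1 hhH
      have hhR : (h : ℝ) ≤ H := by exact_mod_cast hhH
      have hh0 : (0 : ℝ) ≤ h := Nat.cast_nonneg h
      rcases le_or_gt ((H : ℝ) * x ^ (-(s2 / 4))) h with hc | hc
      · have h1 := hC h q z y e a (by
            calc x ^ (1 / 6 + ε / 2) ≤ x ^ (1 / 6 + ε + -(s2 / 4)) := hmono (by linarith only [hε, he'2, hs2e])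
              _ = x ^ (1 / 6 + ε) * x ^ (-(s2 / 4)) := (hxadd _ _).symm
              _ ≤ H * x ^ (-(s2 / 4)) := mul_le_mul_of_nonneg_right hH1 (by (clear * - hx1; positivity))
              _ ≤ h := hc) (hhR.trans (hH2.trans (hmono (by norm_num)))) hqs.le (by
            calc (q : ℝ) ≤ H * x ^ (-e') := hq2
              _ ≤ H * x ^ (-(s2 / 4) + -(e' / 2)) :=
                  mul_le_mul_of_nonneg_left (hmono (by linarith only [he'p, hs2e])) hHR0.le
              _ = H * x ^ (-(s2 / 4)) * x ^ (-(e' / 2)) := by rw [← hxadd]; ring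
              _ ≤ h * x ^ (-(e' / 2)) := mul_le_mul_of_nonneg_right hc (by (clear * - hx1; positivity))) hcop (by
            intro i
            rcases hcell i with h1 | ⟨h1, h2⟩
            · left; exact h1.trans (hmono (by linarith only [hsc, hs2c, hs]))
            · right
              refine ⟨h1, le_trans ?_ h2⟩
              exact mul_le_mul hhR (hmono (by linarith only [hsc, hs2c, hs])) (by (clear * - hx1; positivity)) hHR0.le)
        refine h1.trans ?_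
        have h2 : x * (h : ℝ) ^ 2 * x ^ (-sc) ≤ x * (H : ℝ) ^ 2 * x ^ (-s) := by
          apply mul_le_mul _ (hmono (by linarith only [hsc, hs2c, hs])) (by (clear * - hx1; positivity)) (by (clear * - hx1 hHN; positivity))
          exact mul_le_mul_of_nonneg_left (pow_le_pow_left₀ hh0 hhR 2) hx0.le
        have h3 : 0 ≤ x * (H : ℝ) ^ 2 * x ^ (-s) := by (clear * - hx1 hHN; positivity)
        linarith only [h2, h3]
      · have hb : ∀ u ∈ Icc X (2 * X),
            ‖∑ n ∈ Ioc u (u + h), Fcl z q y e n * ex (n * (a / q))‖ ^ 2 ≤ (h * x ^ ν) ^ 2 := by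
          intro u hu
          rw [mem_Icc] at hu
          apply pow_le_pow_left₀ (norm_nonneg _)
          refine (norm_sum_le_of_le _ (fun n hn => ?_)).trans
            (b := ∑ n ∈ Ioc u (u + h), x ^ ν) ?_
          · apply hK
            rw [mem_Ioc] at hn
            rw [mem_Icc]
            have h5 : (H : ℝ) ≤ x := hH2.trans
              ((hmono (by norm_num : (39 / 100 : ℝ) ≤ 1)).trans (Real.rpow_one x).le)
            have h6 : H ≤ X := by
              rw [hx] at h5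
              exact_mod_cast h5
            omega
          · rw [sum_const, Nat.card_Ioc, nsmul_eq_mul]
            simp
        refine (sum_le_card_nsmul _ _ _ hb).trans ?_
        rw [Nat.card_Icc, nsmul_eq_mul]
        have h1 : ((2 * X + 1 - X : ℕ) : ℝ) ≤ 2 * x := by
          have h2 : 2 * X + 1 - X = X + 1 := by omega
          rw [h2]
          push_cast
          rw [← hx]
          linarith only [hx1]
        have hν2 : (x ^ ν) ^ 2 = x ^ (2 * ν) := by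
          rw [← Real.rpow_natCast, ← Real.rpow_mul hx0.le]
          congr 1
          push_cast
          ring
        have h3 : (h : ℝ) ^ 2 ≤ (H * x ^ (-(s2 / 4))) ^ 2 := pow_le_pow_left₀ hh0 hc.le 2
        calc ((2 * X + 1 - X : ℕ) : ℝ) * (h * x ^ ν) ^ 2 ≤ 2 * x * (h * x ^ ν) ^ 2 :=
              mul_le_mul_of_nonneg_right h1 (by (clear * - hx1 hh1; positivity))
          _ = 2 * x * ((h : ℝ) ^ 2 * x ^ (2 * ν)) := by rw [mul_pow, hν2]
          _ ≤ 2 * x * ((H * x ^ (-(s2 / 4))) ^ 2 * x ^ (2 * ν)) := by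
              apply mul_le_mul_of_nonneg_left _ (by (clear * - hx1; positivity))
              exact mul_le_mul_of_nonneg_right h3 (by (clear * - hx1; positivity))
          _ = 2 * x * ((H : ℝ) ^ 2 * (x ^ (-(s2 / 4)) * x ^ (-(s2 / 4)) * x ^ (2 * ν))) := by ring
          _ = 2 * x * ((H : ℝ) ^ 2 * x ^ (-(s2 / 4) + -(s2 / 4) + 2 * ν)) := by rw [hxadd, hxadd]
          _ ≤ 2 * x * ((H : ℝ) ^ 2 * x ^ (-s)) := by
              apply mul_le_mul_of_nonneg_left _ (by (clear * - hx1; positivity))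
              apply mul_le_mul_of_nonneg_left _ (by (clear * - hHN; positivity))
              apply hmono
              linarith only [hs, hsp, hν]
          _ = 2 * (x * (H : ℝ) ^ 2 * x ^ (-s)) := by ring
    have hp := part_sum X H (fun n => Fcl z q y e n * ex (n * (a / q))) β
      (2 * (x * (H : ℝ) ^ 2 * x ^ (-s))) hHN hW
    refine hp.trans ?_
    have h0 : 0 ≤ x * (H : ℝ) ^ 2 * x ^ (-s) := by (clear * - hx1 hHN; positivity)
    have h1 : (H * |β|) ^ 2 ≤ 1 := pow_le_one₀ (by (clear * - hHN; positivity)) hHβ1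
    have h2 : 2 * (1 + 49 * (H * |β|) ^ 2) * (2 * (x * (H : ℝ) ^ 2 * x ^ (-s))) ≤
        200 * (x * (H : ℝ) ^ 2 * x ^ (-s)) := by nlinarith only [hs1c, he'1, hs2e, hs, hν, hνp, h0, h1]
    refine h2.trans ?_
    have h3 : 0 ≤ 1 / (q * max 1 (H * |β|)) ^ 2 := by (clear * - hq1; positivity)
    have h4 : 0 ≤ (100 * Cm + 200) * x * (H : ℝ) ^ 2 := by (clear * - hCm hx1 hHN; positivity)
    have h5 : 0 ≤ (100 * Cm + 200) * x * (H : ℝ) ^ 2 * (1 / (q * max 1 (H * |β|)) ^ 2) :=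
      mul_nonneg h4 h3
    have h6 : 0 ≤ 100 * Cm * (x * (H : ℝ) ^ 2 * x ^ (-s)) := by (clear * - hCm hx1 hHN; positivity)
    nlinarith only [h5, h6]

end Pool.Agent.VM
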