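import Pool.Agent.Lib.VM.ScSmall

/-!
# Module ClsSmMaj: smooth classes twisted by a character of small modulus

`χ(n) = ∑_{a < q} γ_a ex(n a/q)` for all `n`, `γ_a = (1/q) ∑_{b < q} χ(b) ex(-a b/q)`, `|γ_a| ≤ 1` (finite Fourier transform on `ZMod q`; direct:
`∑_{a<q} ex(a (n-b)/q) = q` if `n ≡ b (q)`, `0` otherwise). So the difference for `Fcl χ` is `∑_a γ_a` (difference for `Fcl ex(n a/q)`), Cauchy:
`≤ q ∑_{a<q} ∑_u |·|² ≤ q² X X^(-s1) ≤ X X^(-s)` with `s = s1/3`, `q ≤ X^s`, `s1` the value of `sc_small ε`.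
-/

set_option autoImplicit false

open Finset Filter

namespace Pool.Agent.VM

open Pool.Agent.VK Pool.Agent.HLT

namespace ClsSmMajAux

lemma ex_eq_one_iff {N : ℕ} (hN : 0 < N) (k : ℤ) : ex (k / N) = 1 ↔ (N : ℤ) ∣ k := by
  unfold ex
  rw [Complex.exp_eq_one_iff]
  have hN' : (N : ℂ) ≠ 0 := by exact_mod_cast hN.ne'
  have hpi : (2 * (Real.pi : ℂ) * Complex.I) ≠ 0 := Complex.two_pi_I_ne_zero
  constructor
  · rintro ⟨m, hm⟩
    refine ⟨m, ?_⟩
    have h1 : ((k : ℂ) / N) * (2 * (Real.pi : ℂ) * Complex.I) =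
        m * (2 * (Real.pi : ℂ) * Complex.I) := by
      rw [← hm]
      push_cast
      ring
    have h2 := mul_right_cancel₀ hpi h1
    rw [div_eq_iff hN'] at h2
    have h3 : ((k : ℤ) : ℂ) = ((N * m : ℤ) : ℂ) := by
      rw [h2]
      push_cast
      ring
    exact_mod_cast h3
  · rintro ⟨m, rfl⟩
    refine ⟨m, ?_⟩
    push_cast
    field_simp

lemma sum_ex {N : ℕ} (hN : 0 < N) (k : ℤ) :
    ∑ ξ ∈ range N, ex (k * (ξ / N)) = if (N : ℤ) ∣ k then (N : ℂ) else 0 := by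
  have h1 : ∀ ξ : ℕ, ex (k * (ξ / N)) = ex (k / N) ^ ξ := by
    intro ξ
    rw [← ex_nat_mul]
    congr 1
    ring
  simp_rw [h1]
  split_ifs with h
  · rw [(ex_eq_one_iff hN k).2 h]
    simp
  · have hne : ex (k / N) ≠ 1 := fun h' => h ((ex_eq_one_iff hN k).1 h')
    rw [geom_sum_eq hne]
    have h2 : ex (k / N) ^ N = 1 := by
      rw [← ex_nat_mul]
      have h3 : ((N : ℝ) * ((k : ℝ) / N)) = ((k : ℤ) : ℝ) := by
        have : (N : ℝ) ≠ 0 := by exact_mod_cast hN.ne'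
        field_simp
      rw [h3]
      exact ex_int k
    rw [h2, sub_self, zero_div]

/-- Fourier coefficients -/
noncomputable def gam (q : ℕ) (χ : DirichletCharacter ℂ q) (a : ℕ) : ℂ :=
  (∑ b ∈ range q, χ (b : ZMod q) * ex (-(b * (a / q)))) / q

lemma norm_gam {q : ℕ} [NeZero q] (χ : DirichletCharacter ℂ q) (a : ℕ) : ‖gam q χ a‖ ≤ 1 := by
  have hq : (0 : ℝ) < q := by exact_mod_cast Nat.pos_of_ne_zero (NeZero.ne q)
  unfold gam
  rw [norm_div, Complex.norm_natCast, div_le_one hq]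
  refine (norm_sum_le _ _).trans ?_
  calc ∑ b ∈ range q, ‖χ (b : ZMod q) * ex (-(b * (a / q)))‖ ≤ ∑ _b ∈ range q, (1 : ℝ) := by
        refine Finset.sum_le_sum fun b _ => ?_
        rw [norm_mul, norm_ex, mul_one]
        exact χ.norm_le_one _
    _ = q := by simp

lemma fourier {q : ℕ} [NeZero q] (χ : DirichletCharacter ℂ q) (n : ℕ) :
    χ (n : ZMod q) = ∑ a ∈ range q, gam q χ a * ex (n * (a / q)) := by
  have hq : 0 < q := Nat.pos_of_ne_zero (NeZero.ne q)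
  have hqc : (q : ℂ) ≠ 0 := by exact_mod_cast hq.ne'
  have h1 : ∑ a ∈ range q, gam q χ a * ex (n * (a / q)) =
      (∑ b ∈ range q, χ (b : ZMod q) * ∑ a ∈ range q, ex (((n : ℤ) - b : ℤ) * (a / q))) / q := by
    have h0 : ∀ a ∈ range q, gam q χ a * ex (n * (a / q)) =
        ∑ b ∈ range q, χ (b : ZMod q) * ex (((n : ℤ) - b : ℤ) * (a / q)) / q := by
      intro a _
      unfold gam
      rw [Finset.sum_div, Finset.sum_mul]
      refine Finset.sum_congr rfl fun b _ => ?_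
      have h2 : ex (((n : ℤ) - b : ℤ) * (a / q)) = ex (-(b * (a / q))) * ex (n * (a / q)) := by
        rw [← ex_add]
        congr 1
        push_cast
        ring
      rw [h2]
      ring
    rw [Finset.sum_congr rfl h0, Finset.sum_comm, Finset.sum_div]
    refine Finset.sum_congr rfl fun b _ => ?_
    rw [Finset.mul_sum, Finset.sum_div]
  rw [h1, eq_div_iff hqc]
  have h2 : ∀ b ∈ range q, χ (b : ZMod q) * ∑ a ∈ range q, ex (((n : ℤ) - b : ℤ) * (a / q)) =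
      if b = n % q then χ (n : ZMod q) * q else 0 := by
    intro b hb
    rw [Finset.mem_range] at hb
    rw [sum_ex hq]
    by_cases h : b = n % q
    · rw [if_pos h]
      have h3 : (q : ℤ) ∣ (n : ℤ) - b := by
        rw [h]
        push_cast
        exact Int.dvd_self_sub_emod
      rw [if_pos h3, h, ZMod.natCast_mod]
    · rw [if_neg h, if_neg, mul_zero]
      intro h3
      apply h
      have h4 : n ≡ b [MOD q] := by
        rw [Nat.modEq_iff_dvd]
        obtain ⟨c, hc⟩ := h3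
        exact ⟨-c, by linarith⟩
      have h5 : n % q = b % q := h4
      rw [h5, Nat.mod_eq_of_lt hb]
  rw [Finset.sum_congr rfl h2, Finset.sum_ite_eq' (range q) (n % q)]
  rw [if_pos (Finset.mem_range.2 (Nat.mod_lt n hq))]

/-- the difference of the averages -/
noncomputable def dif (F : ℕ → ℂ) (u h Y : ℕ) (g : ℕ → ℂ) : ℂ :=
  (∑ n ∈ Ioc u (u + h), F n * g n) / (h : ℂ) - (∑ n ∈ Ioc u (u + Y), F n * g n) / (Y : ℂ)

lemma dif_sum (F : ℕ → ℂ) (u h Y : ℕ) {ι : Type} (s : Finset ι) (c : ι → ℂ) (g : ι → ℕ → ℂ) :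
    dif F u h Y (fun n => ∑ a ∈ s, c a * g a n) = ∑ a ∈ s, c a * dif F u h Y (g a) := by
  unfold dif
  simp_rw [mul_sub, Finset.sum_sub_distrib, Finset.mul_sum]
  congr 1
  · rw [Finset.sum_comm, Finset.sum_div]
    refine Finset.sum_congr rfl fun a _ => ?_
    rw [mul_div_assoc', Finset.mul_sum]
    congr 1
    exact Finset.sum_congr rfl fun n _ => by ring
  · rw [Finset.sum_comm, Finset.sum_div]
    refine Finset.sum_congr rfl fun a _ => ?_
    rw [mul_div_assoc', Finset.mul_sum]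
    congr 1
    exact Finset.sum_congr rfl fun n _ => by ring

end ClsSmMajAux

open ClsSmMajAux

theorem cls_sm_maj (ε : ℝ) (hε : 0 < ε) : ∃ s : ℝ, 0 < s ∧ ∀ᶠ X : ℕ in atTop, ∀ (q : ℕ) [NeZero q]
    (χ : DirichletCharacter ℂ q) (h z y : ℕ) (e : Fin 12 → ℕ), (X : ℝ) ^ (1 / 6 + ε) ≤ h →
    (h : ℝ) ≤ (X : ℝ) ^ (2 / 5 : ℝ) → (q : ℝ) ≤ (X : ℝ) ^ s →
    (∀ i : Fin 12, (2 : ℝ) ^ e i ≤ (X : ℝ) ^ s ∨ (6 ≤ i.val ∧ h * (X : ℝ) ^ (-s) ≤ (2 : ℝ) ^ e i)) →
    ∑ u ∈ Icc X (2 * X), ‖(∑ n ∈ Ioc u (u + h), Fcl z q y e n * χ (n : ZMod q)) / (h : ℂ) -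
        (∑ n ∈ Ioc u (u + YY X), Fcl z q y e n * χ (n : ZMod q)) / (YY X : ℂ)‖ ^ 2 ≤
      X * (X : ℝ) ^ (-s) := by
  obtain ⟨s1, hs1, hev⟩ := sc_small ε hε
  refine ⟨s1 / 3, by positivity, ?_⟩
  filter_upwards [hev, eventually_ge_atTop 1] with X hX hX1
  intro q _ χ h z y e h1 h2 h3 h4
  have hXr : (1 : ℝ) ≤ X := by exact_mod_cast hX1
  have hX0 : (0 : ℝ) < X := by linarith
  have hq : 1 ≤ q := Nat.pos_of_ne_zero (NeZero.ne q)
  have hss : (X : ℝ) ^ (s1 / 3) ≤ (X : ℝ) ^ s1 :=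
    Real.rpow_le_rpow_of_exponent_le hXr (by linarith)
  have h4' : ∀ i : Fin 12, (2 : ℝ) ^ e i ≤ (X : ℝ) ^ s1 ∨
      (6 ≤ i.val ∧ h * (X : ℝ) ^ (-s1) ≤ (2 : ℝ) ^ e i) := by
    intro i
    rcases h4 i with h5 | ⟨h5, h6⟩
    · exact Or.inl (h5.trans hss)
    · refine Or.inr ⟨h5, le_trans ?_ h6⟩
      exact mul_le_mul_of_nonneg_left (Real.rpow_le_rpow_of_exponent_le hXr (by linarith))
        (Nat.cast_nonneg h)
  have key : ∀ a : ℕ, ∑ u ∈ Icc X (2 * X),
      ‖dif (fun n => Fcl z q y e n) u h (YY X) (fun n => ex (n * (a / q)))‖ ^ 2 ≤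
      X * (X : ℝ) ^ (-s1) := by
    intro a
    have := hX h q z y e (a : ℤ) h1 h2 hq (h3.trans hss) h4'
    simpa only [dif, Int.cast_natCast] using this
  have hterm : ∀ u ∈ Icc X (2 * X),
      ‖(∑ n ∈ Ioc u (u + h), Fcl z q y e n * χ (n : ZMod q)) / (h : ℂ) -
        (∑ n ∈ Ioc u (u + YY X), Fcl z q y e n * χ (n : ZMod q)) / (YY X : ℂ)‖ ^ 2 ≤
      q * ∑ a ∈ range q,
        ‖dif (fun n => Fcl z q y e n) u h (YY X) (fun n => ex (n * (a / q)))‖ ^ 2 := by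
    intro u _
    have e1 : (∑ n ∈ Ioc u (u + h), Fcl z q y e n * χ (n : ZMod q)) / (h : ℂ) -
        (∑ n ∈ Ioc u (u + YY X), Fcl z q y e n * χ (n : ZMod q)) / (YY X : ℂ) =
        ∑ a ∈ range q, gam q χ a *
          dif (fun n => Fcl z q y e n) u h (YY X) (fun n => ex (n * (a / q))) := by
      rw [← dif_sum]
      unfold dif
      simp_rw [fourier χ]
    rw [e1]
    have e2 : ‖∑ a ∈ range q, gam q χ a *
          dif (fun n => Fcl z q y e n) u h (YY X) (fun n => ex (n * (a / q)))‖ ≤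
        ∑ a ∈ range q, ‖dif (fun n => Fcl z q y e n) u h (YY X) (fun n => ex (n * (a / q)))‖ := by
      refine (norm_sum_le _ _).trans (Finset.sum_le_sum fun a _ => ?_)
      rw [norm_mul]
      exact mul_le_of_le_one_left (norm_nonneg _) (norm_gam χ a)
    calc _ ≤ (∑ a ∈ range q,
          ‖dif (fun n => Fcl z q y e n) u h (YY X) (fun n => ex (n * (a / q)))‖) ^ 2 := by
          exact pow_le_pow_left₀ (norm_nonneg _) e2 2
      _ ≤ _ := by
          have := sq_sum_le_card_mul_sum_sq (s := range q)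
            (f := fun a => ‖dif (fun n => Fcl z q y e n) u h (YY X) (fun n => ex (n * (a / q)))‖)
          rwa [Finset.card_range] at this
  refine (Finset.sum_le_sum hterm).trans ?_
  rw [← Finset.mul_sum, Finset.sum_comm]
  calc (q : ℝ) * ∑ a ∈ range q, ∑ u ∈ Icc X (2 * X),
        ‖dif (fun n => Fcl z q y e n) u h (YY X) (fun n => ex (n * (a / q)))‖ ^ 2
      ≤ q * ∑ _a ∈ range q, (X * (X : ℝ) ^ (-s1)) :=
        mul_le_mul_of_nonneg_left (Finset.sum_le_sum fun a _ => key a) (Nat.cast_nonneg q)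
    _ = q * q * (X * (X : ℝ) ^ (-s1)) := by
        rw [Finset.sum_const, Finset.card_range, nsmul_eq_mul]
        ring
    _ ≤ (X : ℝ) ^ (s1 / 3) * (X : ℝ) ^ (s1 / 3) * (X * (X : ℝ) ^ (-s1)) := by
        refine mul_le_mul_of_nonneg_right ?_ (by positivity)
        exact mul_le_mul h3 h3 (Nat.cast_nonneg q) (by positivity)
    _ = X * (X : ℝ) ^ (-(s1 / 3)) := by
        rw [← Real.rpow_add hX0, mul_left_comm, ← Real.rpow_add hX0]
        congr 2
        ring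

end Pool.Agent.VM
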