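import Mathlib

/-!
# Data of a class with three to five long smooth factors

`A` is the convolution of the tiny factors (support `≤ P ≤ X^s`), `G i` the long factors, in the cells `(2^(e i - 1), 2^(e i)]`.
-/

set_option autoImplicit false

open Finset Filter

namespace Pool.Agent.VM

structure DCl (X h r J P : ℕ) (s : ℝ) (e : Fin J → ℕ) (G : Fin J → ArithmeticFunction ℂ)
    (A : ArithmeticFunction ℂ) : Prop where
  J3 : 3 ≤ J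
  J5 : J ≤ 5
  cell : ∀ i, 1 ≤ e i ∧ h * (X : ℝ) ^ (-s) ≤ (2 : ℝ) ^ e i ∧ (2 : ℝ) ^ e i ≤ Real.sqrt (X / h) * (X : ℝ) ^ s
  lo : (X : ℝ) ^ (1 - s) ≤ ∏ i, (2 : ℝ) ^ e i
  hi : ∏ i, (2 : ℝ) ^ e i ≤ (X : ℝ) ^ (1 + s)
  bd : ∀ i n, ‖G i n‖ ≤ 1
  supp : ∀ i n, G i n ≠ 0 → 2 ^ (e i - 1) < n ∧ n ≤ 2 ^ e i ∧ n.Coprime r
  Ple : (P : ℝ) ≤ (X : ℝ) ^ s
  Abd : ∀ n, ‖A n‖ ≤ (X : ℝ) ^ s
  Asupp : ∀ n, A n ≠ 0 → n ≤ P ∧ n.Coprime r

theorem DCl.mono {X h r J P : ℕ} {s s' : ℝ} {e : Fin J → ℕ} {G : Fin J → ArithmeticFunction ℂ}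
    {A : ArithmeticFunction ℂ} (H : DCl X h r J P s e G A) (hX : 1 ≤ X) (hs : s ≤ s') :
    DCl X h r J P s' e G A := by
  have hX' : (1 : ℝ) ≤ X := by exact_mod_cast hX
  have h1 : (X : ℝ) ^ s ≤ (X : ℝ) ^ s' := Real.rpow_le_rpow_of_exponent_le hX' hs
  have h2 : (X : ℝ) ^ (-s') ≤ (X : ℝ) ^ (-s) := Real.rpow_le_rpow_of_exponent_le hX' (by linarith)
  refine ⟨H.J3, H.J5, fun i => ⟨(H.cell i).1, ?_, ?_⟩, ?_, ?_, H.bd, H.supp, H.Ple.trans h1,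
    fun n => (H.Abd n).trans h1, H.Asupp⟩
  · exact (mul_le_mul_of_nonneg_left h2 (Nat.cast_nonneg _)).trans (H.cell i).2.1
  · exact (H.cell i).2.2.trans (mul_le_mul_of_nonneg_left h1 (Real.sqrt_nonneg _))
  · exact (Real.rpow_le_rpow_of_exponent_le hX' (by linarith)).trans H.lo
  · exact H.hi.trans (Real.rpow_le_rpow_of_exponent_le hX' (by linarith))

end Pool.Agent.VM
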