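import Pool.Agent.Lib.HLT.TauPow
import Pool.Agent.Lib.VK.DefsC

/-!
# Package VM: definitions

Dirichlet polynomials over residue classes, cells, the twelve-fold convolutions of Heath-Brown's identity.
-/

set_option autoImplicit false

open Finset Filter

namespace Pool.Agent.VM

open Pool.Agent.VK Pool.Agent.HLT

/-- The sum over the residue classes modulo `q` of the squared Dirichlet polynomials `sum f(n) n^(-it)`. -/
noncomputable def UU (q : ℕ) (S : Finset ℕ) (f : ℕ → ℂ) (t : ℝ) : ℝ :=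
  ∑ b ∈ range q, ‖∑ n ∈ S.filter (fun n => n % q = b), f n * nit n t‖ ^ 2

/-- The box `(∏ 2^(e i - 1), ∏ 2^(e i)]`, `i` in `D`. -/
def bx {J : ℕ} (D : Finset (Fin J)) (e : Fin J → ℕ) : Finset ℕ :=
  Ioc (∏ i ∈ D, 2 ^ (e i - 1)) (∏ i ∈ D, 2 ^ (e i))

/-- Indicator of `N1 < n ≤ N2`, `n` coprime to `r`. -/
noncomputable def ind (r N1 N2 : ℕ) : ArithmeticFunction ℂ :=
  ⟨fun n => if N1 < n ∧ n ≤ N2 ∧ n.Coprime r then 1 else 0, by simp⟩

/-- Smooth cell: `2^e / 2 < n ≤ 2^e`, `y < n`, `n` coprime to `r`. -/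
noncomputable def cellS (r y e : ℕ) : ArithmeticFunction ℂ := ind r (max y (2 ^ e / 2)) (2 ^ e)

/-- Moebius cell: `μ(n)` on `2^e / 2 < n ≤ 2^e`, `n ≤ z`, `n` coprime to `r`. -/
noncomputable def cellM (r z e : ℕ) : ArithmeticFunction ℂ :=
  ⟨fun n => if 2 ^ e / 2 < n ∧ n ≤ 2 ^ e ∧ n ≤ z ∧ n.Coprime r then
    ((ArithmeticFunction.moebius n : ℤ) : ℂ) else 0, by simp⟩

/-- The twelve factors: `i < 6` Moebius cells, `i = 6` smooth with the cut `y < n`, `i > 6` smooth. -/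
noncomputable def gcl (z r y : ℕ) (e : Fin 12 → ℕ) (i : Fin 12) : ArithmeticFunction ℂ :=
  if i.val < 6 then cellM r z (e i) else if i.val = 6 then cellS r y (e i) else cellS r 0 (e i)

/-- The twelve-fold Dirichlet convolution. -/
noncomputable def Fcl (z r y : ℕ) (e : Fin 12 → ℕ) : ArithmeticFunction ℂ := ∏ i, gcl z r y e i

/-- The weights of Heath-Brown's identity (`K = 6`). -/
noncomputable def wt12 (e : Fin 12 → ℕ) : ℝ :=
  ∑ j ∈ Icc 1 6, (-1 : ℝ) ^ (j - 1) * (Nat.choose 6 j : ℝ) *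
    (if ∀ i : Fin 12, ((j ≤ i.val ∧ i.val < 6) ∨ 6 + j ≤ i.val) → e i = 0 then 1 else 0)

/-- The length of the long windows. -/
noncomputable def YY (X : ℕ) : ℕ := ⌈(X : ℝ) ^ (17 / 20 : ℝ)⌉₊

lemma ind_apply (r N1 N2 n : ℕ) :
    ind r N1 N2 n = if N1 < n ∧ n ≤ N2 ∧ n.Coprime r then 1 else 0 := rfl

lemma cellM_apply (r z e n : ℕ) :
    cellM r z e n = if 2 ^ e / 2 < n ∧ n ≤ 2 ^ e ∧ n ≤ z ∧ n.Coprime r then
      ((ArithmeticFunction.moebius n : ℤ) : ℂ) else 0 := rfl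

end Pool.Agent.VM
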