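import Pool.Agent.Lib.VM.CharUU

/-!
# Module Djl: D class, large modulus, integral bound

Let `c = min (κ0/2) (1/10)`, `s2` the value of `vlv ε e1 c` (may be taken `≤ min ε, e1, κ0, 1/10`), `s = s2/100`, `ν = s/10`.
`T = (X/h) X^s`, `F = A * ∏ G i`, `F(t,χ) = ∑_{n ≤ N} F(n) χ(n) n^(-it)`.
(1) `F n ≠ 0` implies `n` coprime to `q` and `n ≤ P ∏ 2^(e i) ≤ N` (`prod_coprime`, `prod_le`), so by `char_ex` and Cauchy
`|∑ F(n) ex(n a/q) n^(-it)|² ≤ (q/φ²) (∑_χ |F(t,χ)|)²`.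
(2) `dp_mul`, `dp_prod` (twist `χ(n) n^(-it)`, `twist_mul`): `F(t,χ) = A(t,χ) ∏ L_i(t,χ)`, `|A(t,χ)| ≤ P X^s ≤ X^(2s)`.
(3) Level of `(t,χ)`: the vector `k`, `k_i = 0` if `|L_i|² ≤ 2^(e i)`, otherwise `k_i ≥ 1` with
`2^(e i) 4^(k_i - 1) < |L_i|² ≤ 2^(e i) 4^(k_i)`; `|L_i| ≤ 2^(e i)` gives `k_i ≤ e i + 1`, so there are `≤ (3 log X + 3)^5` vectors.
Put `V_i² = 2^(e i)` if `k_i = 0`, `V_i² = 2^(e i) 4^(k_i - 1)` otherwise, `Ac = {i : k_i ≥ 1}`; at level `k`: `|L_i|² ≤ 4 V_i²`.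
(4) For fixed `k` let `n_k(t)` be the number of `χ` at level `k`, `Tt = {t ∈ [-T,T] : n_k(t) ≥ φ(q) X^(-s2)}` (Borel: the `|L_i|` are
continuous in `t`). Pointwise, `(∑_{χ at level k} |F(t,χ)|)² ≤ n_k(t) ∑_χ |F(t,χ)|² ≤ φ X^(-s2) ∑_χ |F(t,χ)|²` if `t ∉ Tt`, and
`≤ φ² X^(4s) 4^5 ∏ V_i²` if `t ∈ Tt`.
(5) `∑_χ |F(t,χ)|² = φ UU q (Icc 1 N) F t` (`char_UU`), `mvt_ap` (support `≤ P ∏ 2^(e i) ≤ X^(1+2s)`): `∫ ≤ φ C (1 + T + X^(1+2s)/q) X^(1+8s)`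
(`|F n| ≤ X^s τ(n)^6 ≤ X^(3s)`), and `q T ≤ X^(1+s-e1) ≤ X`: the FEW part is at most
`(q/φ²) φ X^(-s2) φ C (1 + T + X^(1+2s)/q) X^(1+8s) ≤ C X^(2 + 11 s - s2)`.
(6) On `Tt`, for `D ⊆ Ac` nonempty, `UU q (bx D e) (∏_{i ∈ D} G i) t = (1/φ) ∑_χ ∏_{i ∈ D} |L_i(t,χ)|² ≥ (n_k(t)/φ) ∏ V_i² ≥ X^(-s2) ∏ V_i²`
(`char_UU`, `dp_prod`). Hence if `Tt` is nonempty: `D = {i}`: `V_i² ≤ X^(s2) UU q (bx {i} e) (G i) t ≤ X^(s2) q (2^(e i)/q + 1)² ≤ 4 X^(s2) (2^(e i))²/q`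
(`2^(e i) ≥ h X^(-s) ≥ q`), so `V_i² ≤ (2^(e i))² X^(-c)` for `i ∈ Ac`, clear for `i ∉ Ac`; so `vlv` applies:
`vol(Tt) q ∏ V_i² ≤ X^(2 - s2)`. The FULL part is `≤ (q/φ²) φ² X^(4s) 4^5 ∏ V_i² vol(Tt) ≤ 4^5 X^(2 + 4s - s2)`.
(7) Cauchy over the levels costs a power of `log X`. Total `≤ X^(2 - s)`.
-/

set_option autoImplicit false

open Finset Filter MeasureTheory

namespace Pool.Agent.VM

open Pool.Agent.VK Pool.Agent.HLT

namespace DjlAux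

/-- level predicate -/
def Lv (E : ℝ) (k : ℕ) (x : ℝ) : Prop := x ≤ E * 4 ^ k ∧ (1 ≤ k → E * 4 ^ (k - 1) < x)

lemma Lv_exists {E x : ℝ} {m : ℕ} (h : x ≤ E * 4 ^ m) : ∃ k ≤ m, Lv E k x := by
  classical
  have hex : ∃ k, x ≤ E * 4 ^ k := ⟨m, h⟩
  refine ⟨Nat.find hex, Nat.find_min' hex h, Nat.find_spec hex, fun h1 => ?_⟩
  exact not_le.1 (Nat.find_min hex (by omega))

lemma Lv_le {E x : ℝ} {k : ℕ} (hE : 0 ≤ E) (h : Lv E k x) : x ≤ 4 * (E * 4 ^ (k - 1)) := by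
  rcases Nat.eq_zero_or_pos k with h0 | h0
  · subst h0
    have := h.1
    simp only [pow_zero, mul_one, Nat.zero_sub] at this ⊢
    linarith
  · have := h.1
    have e1 : k = (k - 1) + 1 := by omega
    rw [e1, pow_succ] at this
    linarith

lemma measurable_Lv (E : ℝ) (k : ℕ) (f : ℝ → ℝ) (hf : Measurable f) :
    MeasurableSet {t | Lv E k (f t)} := by
  unfold Lv
  rw [Set.ofPred_and]
  refine (measurableSet_le hf measurable_const).inter ?_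
  by_cases h : 1 ≤ k
  · simp only [h, true_imp_iff]
    exact measurableSet_lt measurable_const hf
  · simp only [h, false_imp_iff, Set.ofPred_true]
    exact MeasurableSet.univ

lemma continuous_nit' {n : ℕ} (hn : 1 ≤ n) : Continuous fun t : ℝ => nit n t := by
  unfold nit
  have hn0 : ((n : ℝ) : ℂ) ≠ 0 := by
    have : n ≠ 0 := by omega
    exact_mod_cast this
  exact Continuous.const_cpow (by fun_prop) (Or.inl hn0)

noncomputable def LL {q J : ℕ} (e : Fin J → ℕ) (G : Fin J → ArithmeticFunction ℂ)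
    (χ : DirichletCharacter ℂ q) (i : Fin J) (t : ℝ) : ℂ :=
  ∑ n ∈ Ioc (2 ^ (e i - 1)) (2 ^ e i), G i n * (χ (n : ZMod q) * nit n t)

lemma LL_cont {q J : ℕ} (e : Fin J → ℕ) (G : Fin J → ArithmeticFunction ℂ)
    (χ : DirichletCharacter ℂ q) (i : Fin J) : Continuous (LL e G χ i) := by
  unfold LL
  refine continuous_finsetSum _ fun n hn => ?_
  rw [mem_Ioc] at hn
  exact continuous_const.mul (continuous_const.mul (continuous_nit' (Nat.one_le_of_lt hn.1)))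

lemma LL_bd {q J : ℕ} (e : Fin J → ℕ) (G : Fin J → ArithmeticFunction ℂ)
    (hG : ∀ i n, ‖G i n‖ ≤ 1) (χ : DirichletCharacter ℂ q) (i : Fin J) (t : ℝ) :
    ‖LL e G χ i t‖ ≤ 2 ^ e i := by
  unfold LL
  refine (norm_sum_le _ _).trans ?_
  calc ∑ n ∈ Ioc (2 ^ (e i - 1)) (2 ^ e i), ‖G i n * (χ (n : ZMod q) * nit n t)‖
      ≤ ∑ n ∈ Ioc (2 ^ (e i - 1)) (2 ^ e i), (1 : ℝ) := by
        refine sum_le_sum fun n hn => ?_
        rw [mem_Ioc] at hn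
        rw [norm_mul, norm_mul, norm_nit (Nat.one_le_of_lt hn.1), mul_one]
        exact mul_le_one₀ (hG i n) (norm_nonneg _) (χ.norm_le_one _)
    _ ≤ 2 ^ e i := by
        rw [sum_const, nsmul_eq_mul, mul_one, Nat.card_Ioc]
        calc (((2 ^ e i - 2 ^ (e i - 1) : ℕ)) : ℝ) ≤ ((2 ^ e i : ℕ) : ℝ) := by
              exact_mod_cast Nat.sub_le _ _
          _ = 2 ^ e i := by push_cast; rfl

open Classical in
/-- the characters at level `k` -/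
noncomputable def Sk {J : ℕ} (q : ℕ) [NeZero q] (e : Fin J → ℕ) (G : Fin J → ArithmeticFunction ℂ)
    (k : Fin J → ℕ) (t : ℝ) : Finset (DirichletCharacter ℂ q) :=
  univ.filter (fun χ => ∀ i, Lv (2 ^ e i) (k i) (‖LL e G χ i t‖ ^ 2))

lemma Sk_meas {J : ℕ} (q : ℕ) [NeZero q] (e : Fin J → ℕ) (G : Fin J → ArithmeticFunction ℂ)
    (k : Fin J → ℕ) : Measurable (fun t : ℝ => ((Sk q e G k t).card : ℝ)) := by
  classical
  have e1 : (fun t : ℝ => ((Sk q e G k t).card : ℝ)) = fun t =>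
      ∑ χ : DirichletCharacter ℂ q,
        ({t : ℝ | ∀ i, Lv (2 ^ e i) (k i) (‖LL e G χ i t‖ ^ 2)}).indicator (fun _ => (1 : ℝ)) t := by
    funext t
    unfold Sk
    rw [card_eq_sum_ones, sum_filter]
    push_cast
    refine sum_congr rfl fun χ _ => ?_
    rw [Set.indicator_apply]
    rfl
  rw [e1]
  refine Finset.measurable_sum _ fun χ _ => ?_
  refine measurable_const.indicator ?_
  rw [Set.ofPred_forall]
  refine MeasurableSet.iInter fun i => ?_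
  exact measurable_Lv _ _ _ ((LL_cont e G χ i).norm.pow 2).measurable

/-- every character has a level -/
lemma Sk_cover {J : ℕ} (q : ℕ) [NeZero q] (e : Fin J → ℕ) (G : Fin J → ArithmeticFunction ℂ)
    (hG : ∀ i n, ‖G i n‖ ≤ 1) (t : ℝ) (χ : DirichletCharacter ℂ q) :
    ∃ k ∈ Fintype.piFinset (fun i => range (e i + 1)), χ ∈ Sk q e G k t := by
  classical
  have h1 : ∀ i, ∃ k ≤ e i, Lv (2 ^ e i) k (‖LL e G χ i t‖ ^ 2) := by
    intro i
    refine Lv_exists ?_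
    have h2 := LL_bd e G hG χ i t
    calc ‖LL e G χ i t‖ ^ 2 ≤ (2 ^ e i) ^ 2 := pow_le_pow_left₀ (norm_nonneg _) h2 2
      _ = 1 * 4 ^ e i := by rw [one_mul, ← pow_mul, mul_comm, pow_mul]; norm_num
      _ ≤ 2 ^ e i * 4 ^ e i := by
          refine mul_le_mul_of_nonneg_right ?_ (by positivity)
          exact one_le_pow₀ (by norm_num)
  choose k hk hk2 using h1
  refine ⟨k, ?_, ?_⟩
  · rw [Fintype.mem_piFinset]
    intro i
    rw [mem_range]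
    have := hk i
    omega
  · unfold Sk
    rw [mem_filter]
    exact ⟨mem_univ _, hk2⟩

/-- Cauchy over the levels -/
lemma levels {ι κ : Type} [Fintype ι] [DecidableEq ι] (K : Finset κ) (S : κ → Finset ι)
    (hS : ∀ χ, ∃ k ∈ K, χ ∈ S k) (x : ι → ℝ) (hx : ∀ χ, 0 ≤ x χ) :
    (∑ χ, x χ) ^ 2 ≤ K.card * ∑ k ∈ K, (∑ χ ∈ S k, x χ) ^ 2 := by
  have h1 : ∑ χ, x χ ≤ ∑ k ∈ K, ∑ χ ∈ S k, x χ := by
    have h2 : ∀ χ : ι, x χ ≤ ∑ k ∈ K, if χ ∈ S k then x χ else 0 := by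
      intro χ
      obtain ⟨k, hk, hk2⟩ := hS χ
      calc x χ = if χ ∈ S k then x χ else 0 := by rw [if_pos hk2]
        _ ≤ _ := single_le_sum (f := fun k => if χ ∈ S k then x χ else 0)
            (fun k _ => by split_ifs; exact hx χ; exact le_rfl) hk
    refine (sum_le_sum fun χ _ => h2 χ).trans ?_
    rw [sum_comm]
    refine le_of_eq (sum_congr rfl fun k _ => ?_)
    rw [← sum_filter]
    refine sum_congr ?_ fun _ _ => rfl
    ext χ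
    simp
  have h3 : 0 ≤ ∑ χ, x χ := sum_nonneg fun χ _ => hx χ
  exact (pow_le_pow_left₀ h3 h1 2).trans (sq_sum_le_card_mul_sum_sq)

/-- few characters -/
lemma fewc {ι : Type} [Fintype ι] (S : Finset ι) (x : ι → ℝ) (c : ℝ) (hc : (S.card : ℝ) ≤ c) :
    (∑ χ ∈ S, x χ) ^ 2 ≤ c * ∑ χ, x χ ^ 2 := by
  classical
  calc (∑ χ ∈ S, x χ) ^ 2 ≤ S.card * ∑ χ ∈ S, x χ ^ 2 := sq_sum_le_card_mul_sum_sq
    _ ≤ c * ∑ χ, x χ ^ 2 := by
        refine mul_le_mul hc ?_ (sum_nonneg fun _ _ => sq_nonneg _) ((Nat.cast_nonneg _).trans hc)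
        exact sum_le_sum_of_subset_of_nonneg (subset_univ _) fun _ _ _ => sq_nonneg _

/-- many characters -/
lemma manyc {ι : Type} (S : Finset ι) (x : ι → ℝ) (φ B : ℝ) (hφ : (S.card : ℝ) ≤ φ)
    (hB : ∀ χ ∈ S, x χ ^ 2 ≤ B) (hB0 : 0 ≤ B) :
    (∑ χ ∈ S, x χ) ^ 2 ≤ φ ^ 2 * B := by
  have h0 : 0 ≤ φ := (Nat.cast_nonneg _).trans hφ
  calc (∑ χ ∈ S, x χ) ^ 2 ≤ S.card * ∑ χ ∈ S, x χ ^ 2 := sq_sum_le_card_mul_sum_sq
    _ ≤ S.card * ∑ _χ ∈ S, B := by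
        refine mul_le_mul_of_nonneg_left (sum_le_sum hB) (Nat.cast_nonneg _)
    _ = (S.card : ℝ) ^ 2 * B := by rw [sum_const, nsmul_eq_mul]; ring
    _ ≤ φ ^ 2 * B := mul_le_mul_of_nonneg_right (pow_le_pow_left₀ (Nat.cast_nonneg _) hφ 2) hB0

/-- expansion into characters -/
lemma ptw (q : ℕ) [NeZero q] (a : ℤ) (ha : IsCoprime a (q : ℤ)) (N0 N : ℕ) (F : ℕ → ℂ)
    (hF : ∀ n, F n ≠ 0 → n ≤ N0 ∧ n.Coprime q) (hN : N0 ≤ N) (t : ℝ) :
    ‖∑ n ∈ Icc 1 N, F n * ex (n * (a / q)) * nit n t‖ ^ 2 ≤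
      q / (q.totient : ℝ) ^ 2 *
        (∑ χ : DirichletCharacter ℂ q, ‖∑ n ∈ Icc 1 N0, F n * (χ (n : ZMod q) * nit n t)‖) ^ 2 := by
  obtain ⟨cf, h1, -, h3⟩ := char_ex q a
  have h4 := h3 ha
  have e1 : ∑ n ∈ Icc 1 N, F n * ex (n * (a / q)) * nit n t =
      ∑ n ∈ Icc 1 N0, F n * ex (n * (a / q)) * nit n t := by
    symm
    refine sum_subset (Icc_subset_Icc_right hN) fun n hn hn' => ?_
    by_contra hne
    have := (hF n (left_ne_zero_of_mul (left_ne_zero_of_mul hne))).1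
    rw [mem_Icc] at hn hn'
    omega
  have e2 : ∑ n ∈ Icc 1 N0, F n * ex (n * (a / q)) * nit n t =
      ∑ χ : DirichletCharacter ℂ q, cf χ * ∑ n ∈ Icc 1 N0, F n * (χ (n : ZMod q) * nit n t) := by
    simp_rw [mul_sum]
    rw [sum_comm]
    refine sum_congr rfl fun n _ => ?_
    by_cases hF0 : F n = 0
    · simp [hF0]
    · rw [h1 n (hF n hF0).2, mul_sum, sum_mul]
      refine sum_congr rfl fun χ _ => ?_
      ring
  rw [e1, e2]
  have h5 : ‖∑ χ : DirichletCharacter ℂ q, cf χ *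
      ∑ n ∈ Icc 1 N0, F n * (χ (n : ZMod q) * nit n t)‖ ≤
      Real.sqrt q / q.totient *
        ∑ χ : DirichletCharacter ℂ q, ‖∑ n ∈ Icc 1 N0, F n * (χ (n : ZMod q) * nit n t)‖ := by
    refine (norm_sum_le _ _).trans ?_
    rw [mul_sum]
    refine sum_le_sum fun χ _ => ?_
    rw [norm_mul]
    exact mul_le_mul_of_nonneg_right (h4 χ) (norm_nonneg _)
  refine (pow_le_pow_left₀ (norm_nonneg _) h5 2).trans (le_of_eq ?_)
  rw [mul_pow, div_pow, Real.sq_sqrt (Nat.cast_nonneg _)]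

lemma UU_cont (q : ℕ) (S : Finset ℕ) (f : ℕ → ℂ) (hS : ∀ n ∈ S, 1 ≤ n) : Continuous (UU q S f) := by
  unfold UU
  refine continuous_finsetSum _ fun b _ => ?_
  refine (continuous_finsetSum _ fun n hn => ?_).norm.pow 2
  exact continuous_const.mul (continuous_nit' (hS n (mem_filter.1 hn).1))

lemma class_card (q A B b : ℕ) :
    ((Ioc A B).filter (fun n => n % q = b)).card ≤ B / q + 1 := by
  classical
  calc ((Ioc A B).filter (fun n => n % q = b)).card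
      = (((Ioc A B).filter (fun n => n % q = b)).image (fun n => n / q)).card := by
        symm
        refine card_image_of_injOn ?_
        intro x hx y hy hxy
        rw [mem_coe, mem_filter] at hx hy
        dsimp only at hxy
        rw [← Nat.div_add_mod x q, ← Nat.div_add_mod y q, hxy, hx.2, hy.2]
    _ ≤ (range (B / q + 1)).card := by
        refine card_le_card ?_
        intro m hm
        rw [mem_image] at hm
        obtain ⟨n, hn, rfl⟩ := hm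
        rw [mem_filter, mem_Ioc] at hn
        rw [mem_range]
        exact Nat.lt_succ_of_le (Nat.div_le_div_right hn.1.2)
    _ = B / q + 1 := card_range _

lemma UU_single (q A B : ℕ) (hq : 0 < q) (hB : q ≤ B) (f : ℕ → ℂ) (hf : ∀ n, ‖f n‖ ≤ 1) (t : ℝ) :
    UU q (Ioc A B) f t ≤ 4 * (B : ℝ) ^ 2 / q := by
  have hq0 : (0 : ℝ) < q := by exact_mod_cast hq
  have hB0 : (q : ℝ) ≤ B := by exact_mod_cast hB
  have h1 : ∀ b, ‖∑ n ∈ (Ioc A B).filter (fun n => n % q = b), f n * nit n t‖ ≤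
      ((Ioc A B).filter (fun n => n % q = b)).card := by
    intro b
    refine (norm_sum_le _ _).trans ?_
    rw [card_eq_sum_ones]
    push_cast
    refine sum_le_sum fun n hn => ?_
    rw [mem_filter, mem_Ioc] at hn
    rw [norm_mul, norm_nit (Nat.one_le_of_lt hn.1.1), mul_one]
    exact hf n
  have h2 : ∀ b, (((Ioc A B).filter (fun n => n % q = b)).card : ℝ) ≤ 2 * B / q := by
    intro b
    have := class_card q A B b
    calc (((Ioc A B).filter (fun n => n % q = b)).card : ℝ) ≤ ((B / q + 1 : ℕ) : ℝ) := by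
          exact_mod_cast this
      _ ≤ B / q + 1 := by
          push_cast
          have := @Nat.cast_div_le ℝ _ _ _ B q
          linarith
      _ ≤ B / q + B / q := by
          have : 1 ≤ (B : ℝ) / q := by rw [le_div_iff₀ hq0]; linarith
          linarith
      _ = 2 * B / q := by ring
  unfold UU
  calc ∑ b ∈ range q, ‖∑ n ∈ (Ioc A B).filter (fun n => n % q = b), f n * nit n t‖ ^ 2
      ≤ ∑ _b ∈ range q, (2 * B / q : ℝ) ^ 2 := by
        refine sum_le_sum fun b _ => ?_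
        exact pow_le_pow_left₀ (norm_nonneg _) ((h1 b).trans (h2 b)) 2
    _ = 4 * (B : ℝ) ^ 2 / q := by
        rw [sum_const, card_range, nsmul_eq_mul]
        field_simp
        ring

/-- the lower bound for `UU` -/
lemma UU_lower {J : ℕ} (q : ℕ) [NeZero q] (e : Fin J → ℕ) (G : Fin J → ArithmeticFunction ℂ)
    (hG : ∀ i n, G i n ≠ 0 → 2 ^ (e i - 1) < n ∧ n ≤ 2 ^ e i ∧ n.Coprime q)
    (k : Fin J → ℕ) (D : Finset (Fin J)) (hD : D.Nonempty) (hk : ∀ i ∈ D, 1 ≤ k i) (t : ℝ) :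
    ((Sk q e G k t).card : ℝ) * ∏ i ∈ D, ((2 : ℝ) ^ e i * 4 ^ (k i - 1)) ≤
      q.totient * UU q (bx D e) (⇑(∏ i ∈ D, G i : ArithmeticFunction ℂ)) t := by
  classical
  rw [← char_UU q (bx D e) _ (fun n _ hn => prod_coprime D G q (fun i _ n hn => (hG i n hn).2.2) n hn) t]
  have h1 : ∀ χ : DirichletCharacter ℂ q,
      ∑ n ∈ bx D e, (∏ i ∈ D, G i : ArithmeticFunction ℂ) n * (χ (n : ZMod q) * nit n t) =
      ∏ i ∈ D, LL e G χ i t := by
    intro χ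
    exact dp_prod D hD e G (fun i n hn => ⟨(hG i n hn).1, (hG i n hn).2.1⟩)
      (fun n => χ (n : ZMod q) * nit n t) (fun m n hm hn => twist_mul χ t m n hm hn)
  simp_rw [h1]
  calc ((Sk q e G k t).card : ℝ) * ∏ i ∈ D, ((2 : ℝ) ^ e i * 4 ^ (k i - 1))
      = ∑ _χ ∈ Sk q e G k t, ∏ i ∈ D, ((2 : ℝ) ^ e i * 4 ^ (k i - 1)) := by
        rw [sum_const, nsmul_eq_mul]
    _ ≤ ∑ χ ∈ Sk q e G k t, ‖∏ i ∈ D, LL e G χ i t‖ ^ 2 := by
        refine sum_le_sum fun χ hχ => ?_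
        rw [norm_prod, ← prod_pow]
        refine prod_le_prod (fun i _ => by positivity) fun i hi => ?_
        unfold Sk at hχ
        rw [mem_filter] at hχ
        exact ((hχ.2 i).2 (hk i hi)).le
    _ ≤ _ := sum_le_sum_of_subset_of_nonneg (subset_univ _) fun _ _ _ => sq_nonneg _

lemma Fsupp {J : ℕ} (q P : ℕ) (e : Fin J → ℕ) (G : Fin J → ArithmeticFunction ℂ)
    (A : ArithmeticFunction ℂ)
    (hG : ∀ i n, G i n ≠ 0 → 2 ^ (e i - 1) < n ∧ n ≤ 2 ^ e i ∧ n.Coprime q)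
    (hA : ∀ n, A n ≠ 0 → n ≤ P ∧ n.Coprime q) (n : ℕ) (hn : (A * ∏ i, G i) n ≠ 0) :
    n ≤ P * ∏ i, 2 ^ e i ∧ n.Coprime q := by
  rw [ArithmeticFunction.mul_apply] at hn
  obtain ⟨x, hx, hx0⟩ := exists_ne_zero_of_sum_ne_zero hn
  rw [Nat.mem_divisorsAntidiagonal] at hx
  have h1 := hA x.1 (left_ne_zero_of_mul hx0)
  have h2 := prod_le univ G (fun i => 2 ^ e i) (fun i _ n hn => (hG i n hn).2.1) x.2
    (right_ne_zero_of_mul hx0)
  have h3 := prod_coprime univ G q (fun i _ n hn => (hG i n hn).2.2) x.2 (right_ne_zero_of_mul hx0)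
  rw [← hx.1]
  exact ⟨Nat.mul_le_mul h1.1 h2, Nat.Coprime.mul_left h1.2 h3⟩

lemma Fchi {J : ℕ} (hJ : 1 ≤ J) (q P : ℕ) (e : Fin J → ℕ) (G : Fin J → ArithmeticFunction ℂ)
    (A : ArithmeticFunction ℂ)
    (hG : ∀ i n, G i n ≠ 0 → 2 ^ (e i - 1) < n ∧ n ≤ 2 ^ e i ∧ n.Coprime q)
    (hA : ∀ n, A n ≠ 0 → n ≤ P ∧ n.Coprime q) (χ : DirichletCharacter ℂ q) (t : ℝ) :
    ∑ n ∈ Icc 1 (P * ∏ i, 2 ^ e i), (A * ∏ i, G i) n * (χ (n : ZMod q) * nit n t) =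
      (∑ n ∈ Icc 1 P, A n * (χ (n : ZMod q) * nit n t)) * ∏ i, LL e G χ i t := by
  classical
  have hU : (univ : Finset (Fin J)).Nonempty := ⟨⟨0, hJ⟩, mem_univ _⟩
  have hs := fun n hn => prod_supp univ hU G (fun i => 2 ^ (e i - 1)) (fun i => 2 ^ e i)
    (fun i _ n hn => ⟨(hG i n hn).1, (hG i n hn).2.1⟩) n hn
  rw [dp_mul A (∏ i, G i) (fun n => χ (n : ZMod q) * nit n t)
    (fun m n hm hn => twist_mul χ t m n hm hn) P (∏ i, 2 ^ e i) _ (fun n hn => (hA n hn).1)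
    (fun n hn => (hs n hn).2) le_rfl]
  congr 1
  have h1 := dp_prod univ hU e G (fun i n hn => ⟨(hG i n hn).1, (hG i n hn).2.1⟩)
      (fun n => χ (n : ZMod q) * nit n t) (fun m n hm hn => twist_mul χ t m n hm hn)
  unfold LL
  rw [← h1]
  symm
  refine sum_subset ?_ ?_
  · intro n hn
    rw [bx, mem_Ioc] at hn
    rw [mem_Icc]
    exact ⟨Nat.one_le_of_lt hn.1, hn.2⟩
  · intro n _ hn'
    by_contra hne
    apply hn'
    rw [bx, mem_Ioc]
    exact hs n (left_ne_zero_of_mul hne)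

/-- the upper bound for the product at a level -/
lemma Fsq_le {J : ℕ} (hJ : 1 ≤ J) (q P : ℕ) [NeZero q] (e : Fin J → ℕ) (G : Fin J → ArithmeticFunction ℂ)
    (A : ArithmeticFunction ℂ)
    (hG : ∀ i n, G i n ≠ 0 → 2 ^ (e i - 1) < n ∧ n ≤ 2 ^ e i ∧ n.Coprime q)
    (hA : ∀ n, A n ≠ 0 → n ≤ P ∧ n.Coprime q) (Z : ℝ) (hZ : 0 ≤ Z) (hAZ : ∀ n, ‖A n‖ ≤ Z) (hPZ : (P : ℝ) ≤ Z)
    (k : Fin J → ℕ) (t : ℝ) (χ : DirichletCharacter ℂ q) (hχ : χ ∈ Sk q e G k t) :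
    ‖∑ n ∈ Icc 1 (P * ∏ i, 2 ^ e i), (A * ∏ i, G i) n * (χ (n : ZMod q) * nit n t)‖ ^ 2 ≤
      Z ^ 4 * (4 ^ J * ∏ i, ((2 : ℝ) ^ e i * 4 ^ (k i - 1))) := by
  classical
  rw [Fchi hJ q P e G A hG hA χ t, norm_mul, mul_pow]
  have h1 : ‖∑ n ∈ Icc 1 P, A n * (χ (n : ZMod q) * nit n t)‖ ≤ Z ^ 2 := by
    refine (norm_sum_le _ _).trans ?_
    calc ∑ n ∈ Icc 1 P, ‖A n * (χ (n : ZMod q) * nit n t)‖ ≤ ∑ _n ∈ Icc 1 P, Z := by
          refine sum_le_sum fun n hn => ?_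
          rw [mem_Icc] at hn
          rw [norm_mul, norm_mul, norm_nit hn.1, mul_one]
          calc ‖A n‖ * ‖χ (n : ZMod q)‖ ≤ Z * 1 :=
                mul_le_mul (hAZ n) (χ.norm_le_one _) (norm_nonneg _) hZ
            _ = Z := mul_one _
      _ = P * Z := by rw [sum_const, Nat.card_Icc, nsmul_eq_mul, Nat.add_sub_cancel]
      _ ≤ Z * Z := mul_le_mul_of_nonneg_right hPZ hZ
      _ = Z ^ 2 := by ring
  have h2 : ‖∏ i, LL e G χ i t‖ ^ 2 ≤ 4 ^ J * ∏ i, ((2 : ℝ) ^ e i * 4 ^ (k i - 1)) := by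
    rw [norm_prod, ← prod_pow]
    calc ∏ i, ‖LL e G χ i t‖ ^ 2 ≤ ∏ i, (4 * ((2 : ℝ) ^ e i * 4 ^ (k i - 1))) := by
          refine prod_le_prod (fun i _ => sq_nonneg _) fun i _ => ?_
          unfold Sk at hχ
          rw [mem_filter] at hχ
          exact Lv_le (by positivity) (hχ.2 i)
      _ = 4 ^ J * ∏ i, ((2 : ℝ) ^ e i * 4 ^ (k i - 1)) := by
          rw [prod_mul_distrib, prod_const, card_univ, Fintype.card_fin]
  calc ‖∑ n ∈ Icc 1 P, A n * (χ (n : ZMod q) * nit n t)‖ ^ 2 * ‖∏ i, LL e G χ i t‖ ^ 2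
      ≤ (Z ^ 2) ^ 2 * (4 ^ J * ∏ i, ((2 : ℝ) ^ e i * 4 ^ (k i - 1))) := by
        refine mul_le_mul (pow_le_pow_left₀ (norm_nonneg _) h1 2) h2 (sq_nonneg _) (by positivity)
    _ = Z ^ 4 * (4 ^ J * ∏ i, ((2 : ℝ) ^ e i * 4 ^ (k i - 1))) := by ring

lemma Fbd {J : ℕ} (G : Fin J → ArithmeticFunction ℂ)
    (A : ArithmeticFunction ℂ) (hG : ∀ i n, ‖G i n‖ ≤ 1) (Z : ℝ) (hZ : 0 ≤ Z) (hAZ : ∀ n, ‖A n‖ ≤ Z) (n : ℕ) :
    ‖(A * ∏ i, G i) n‖ ≤ Z * (n.divisors.card : ℝ) ^ (J + 1) := by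
  rw [ArithmeticFunction.mul_apply]
  have h1 : ∀ x ∈ n.divisorsAntidiagonal,
      ‖A x.1 * (∏ i, G i) x.2‖ ≤ Z * (n.divisors.card : ℝ) ^ J := by
    intro x hx
    rw [norm_mul]
    have h3 := prod_bound univ G (fun i _ => hG i) x.2
    rw [card_univ, Fintype.card_fin] at h3
    obtain ⟨hx1, hx0⟩ := Nat.mem_divisorsAntidiagonal.1 hx
    have h4 : (x.2.divisors.card : ℝ) ≤ n.divisors.card := by
      exact_mod_cast card_le_card (Nat.divisors_subset_of_dvd hx0 ⟨x.1, by rw [← hx1, mul_comm]⟩)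
    exact mul_le_mul (hAZ _) (h3.trans (pow_le_pow_left₀ (Nat.cast_nonneg _) h4 _)) (norm_nonneg _) hZ
  calc ‖∑ x ∈ n.divisorsAntidiagonal, A x.1 * (∏ i, G i) x.2‖
      ≤ ∑ x ∈ n.divisorsAntidiagonal, ‖A x.1 * (∏ i, G i) x.2‖ := norm_sum_le _ _
    _ ≤ ∑ _x ∈ n.divisorsAntidiagonal, Z * (n.divisors.card : ℝ) ^ J := sum_le_sum h1
    _ = Z * (n.divisors.card : ℝ) ^ (J + 1) := by
        rw [sum_const, nsmul_eq_mul, pow_succ, ← Nat.map_div_right_divisors, card_map]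
        ring

/-- the number of characters -/
lemma Sk_card_le {J : ℕ} (q : ℕ) [NeZero q] (e : Fin J → ℕ) (G : Fin J → ArithmeticFunction ℂ)
    (k : Fin J → ℕ) (t : ℝ) : ((Sk q e G k t).card : ℝ) ≤ q.totient := by
  classical
  have h1 : (Sk q e G k t).card ≤ (univ : Finset (DirichletCharacter ℂ q)).card := card_le_univ _
  have h2 : (univ : Finset (DirichletCharacter ℂ q)).card = q.totient := by
    rw [card_univ, ← Nat.card_eq_fintype_card]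
    exact DirichletCharacter.card_eq_totient_of_hasEnoughRootsOfUnity ℂ q
  rw [h2] at h1
  exact_mod_cast h1

/-- the set of `t` with a full level -/
def Tset {J : ℕ} (q : ℕ) [NeZero q] (e : Fin J → ℕ) (G : Fin J → ArithmeticFunction ℂ)
    (k : Fin J → ℕ) (T y : ℝ) : Set ℝ := {t | t ∈ Set.Icc (-T) T ∧ y ≤ ((Sk q e G k t).card : ℝ)}

lemma Tset_meas {J : ℕ} (q : ℕ) [NeZero q] (e : Fin J → ℕ) (G : Fin J → ArithmeticFunction ℂ)
    (k : Fin J → ℕ) (T y : ℝ) : MeasurableSet (Tset q e G k T y) := by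
  unfold Tset
  rw [Set.ofPred_and]
  exact measurableSet_Icc.inter (measurableSet_le measurable_const (Sk_meas q e G k))


lemma integral_bd {J : ℕ} (hJ : 1 ≤ J) (q P N : ℕ) [NeZero q] (a : ℤ) (ha : IsCoprime a (q : ℤ))
    (e : Fin J → ℕ) (G : Fin J → ArithmeticFunction ℂ) (A : ArithmeticFunction ℂ)
    (hGb : ∀ i n, ‖G i n‖ ≤ 1)
    (hG : ∀ i n, G i n ≠ 0 → 2 ^ (e i - 1) < n ∧ n ≤ 2 ^ e i ∧ n.Coprime q)
    (hA : ∀ n, A n ≠ 0 → n ≤ P ∧ n.Coprime q) (hN : P * ∏ i, 2 ^ e i ≤ N)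
    (Z : ℝ) (hZ : 0 ≤ Z) (hAZ : ∀ n, ‖A n‖ ≤ Z) (hPZ : (P : ℝ) ≤ Z)
    (T : ℝ) (hT : 0 ≤ T) (y : ℝ) (hy : 0 ≤ y) (Ub B : ℝ)
    (hUb : ∫ t in (-T)..T, UU q (Icc 1 (P * ∏ i, 2 ^ e i)) (⇑(A * ∏ i, G i)) t ≤ Ub)
    (hB : ∀ k ∈ Fintype.piFinset (fun i => range (e i + 1)),
      volume.real (Tset q e G k T (q.totient * y)) * (q * ∏ i, ((2 : ℝ) ^ e i * 4 ^ (k i - 1))) ≤ B) :
    ∫ t in (-T)..T, ‖∑ n ∈ Icc 1 N, (A * ∏ i, G i) n * ex (n * (a / q)) * nit n t‖ ^ 2 ≤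
      ((Fintype.piFinset (fun i : Fin J => range (e i + 1))).card : ℝ) ^ 2 *
        (q * y * Ub + Z ^ 4 * 4 ^ J * B) := by
  classical
  set K := Fintype.piFinset (fun i : Fin J => range (e i + 1)) with hK
  set N0 := P * ∏ i, 2 ^ e i with hN0
  set F : ArithmeticFunction ℂ := A * ∏ i, G i with hF
  have hq0 : (0 : ℝ) < q := by exact_mod_cast NeZero.pos q
  have hφ0 : (0 : ℝ) < q.totient := by exact_mod_cast Nat.totient_pos.2 (NeZero.pos q)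
  set Bk : (Fin J → ℕ) → ℝ := fun k => q * (Z ^ 4 * (4 ^ J * ∏ i, ((2 : ℝ) ^ e i * 4 ^ (k i - 1)))) with hBk
  have hBk0 : ∀ k, 0 ≤ Bk k := fun k => by
    rw [hBk]
    dsimp only
    positivity
  have hUU0 : ∀ t, 0 ≤ UU q (Icc 1 N0) F t := fun t => sum_nonneg fun _ _ => sq_nonneg _
  set R : ℝ → ℝ := fun t => K.card * ∑ k ∈ K, (q * y * UU q (Icc 1 N0) F t +
    (Tset q e G k T (q.totient * y)).indicator (fun _ => Bk k) t) with hR
  -- pointwise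
  have hpt : ∀ t ∈ Set.Icc (-T) T,
      ‖∑ n ∈ Icc 1 N, F n * ex (n * (a / q)) * nit n t‖ ^ 2 ≤ R t := by
    intro t ht
    have h1 := ptw q a ha N0 N F (fun n hn => Fsupp q P e G A hG hA n hn) hN t
    refine h1.trans ?_
    set x : DirichletCharacter ℂ q → ℝ := fun χ =>
      ‖∑ n ∈ Icc 1 N0, F n * (χ (n : ZMod q) * nit n t)‖ with hx
    have h2 := levels K (fun k => Sk q e G k t) (fun χ => Sk_cover q e G hGb t χ) x
      (fun χ => norm_nonneg _)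
    have hsq : ∑ χ, x χ ^ 2 = q.totient * UU q (Icc 1 N0) F t :=
      char_UU q (Icc 1 N0) F (fun n _ hn => (Fsupp q P e G A hG hA n hn).2) t
    have h3 : ∀ k ∈ K, q / (q.totient : ℝ) ^ 2 * (∑ χ ∈ Sk q e G k t, x χ) ^ 2 ≤
        q * y * UU q (Icc 1 N0) F t +
          (Tset q e G k T (q.totient * y)).indicator (fun _ => Bk k) t := by
      intro k _
      by_cases hmem : t ∈ Tset q e G k T (q.totient * y)
      · rw [Set.indicator_of_mem hmem]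
        have h4 := manyc (Sk q e G k t) x q.totient (Z ^ 4 * (4 ^ J * ∏ i, ((2 : ℝ) ^ e i * 4 ^ (k i - 1))))
          (Sk_card_le q e G k t)
          (fun χ hχ => Fsq_le hJ q P e G A hG hA Z hZ hAZ hPZ k t χ hχ) (by (clear * -; positivity))
        have h5 : q / (q.totient : ℝ) ^ 2 * (∑ χ ∈ Sk q e G k t, x χ) ^ 2 ≤ Bk k := by
          calc q / (q.totient : ℝ) ^ 2 * (∑ χ ∈ Sk q e G k t, x χ) ^ 2
              ≤ q / (q.totient : ℝ) ^ 2 * ((q.totient : ℝ) ^ 2 *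
                (Z ^ 4 * (4 ^ J * ∏ i, ((2 : ℝ) ^ e i * 4 ^ (k i - 1))))) :=
                mul_le_mul_of_nonneg_left h4 (by (clear * - hq0 hφ0; positivity))
            _ = Bk k := by
                rw [hBk]
                dsimp only
                field_simp
        have h6 : 0 ≤ q * y * UU q (Icc 1 N0) F t := mul_nonneg (by (clear * - hy hq0; positivity)) (hUU0 t)
        linarith
      · rw [Set.indicator_of_notMem hmem, add_zero]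
        have h4 : ((Sk q e G k t).card : ℝ) ≤ q.totient * y := by
          by_contra hcon
          exact hmem ⟨ht, (not_le.1 hcon).le⟩
        have h5 := fewc (Sk q e G k t) x _ h4
        rw [hsq] at h5
        calc q / (q.totient : ℝ) ^ 2 * (∑ χ ∈ Sk q e G k t, x χ) ^ 2
            ≤ q / (q.totient : ℝ) ^ 2 * (q.totient * y * (q.totient * UU q (Icc 1 N0) F t)) :=
              mul_le_mul_of_nonneg_left h5 (by (clear * - hq0 hφ0; positivity))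
          _ = q * y * UU q (Icc 1 N0) F t := by field_simp
    calc q / (q.totient : ℝ) ^ 2 * (∑ χ, x χ) ^ 2
        ≤ q / (q.totient : ℝ) ^ 2 * (K.card * ∑ k ∈ K, (∑ χ ∈ Sk q e G k t, x χ) ^ 2) :=
          mul_le_mul_of_nonneg_left h2 (by (clear * - hq0 hφ0; positivity))
      _ = K.card * ∑ k ∈ K, q / (q.totient : ℝ) ^ 2 * (∑ χ ∈ Sk q e G k t, x χ) ^ 2 := by
          rw [← mul_sum]
          ring
      _ ≤ R t := by
          rw [hR]
          exact mul_le_mul_of_nonneg_left (sum_le_sum h3) (Nat.cast_nonneg _)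
  have hle : -T ≤ T := by linarith only [hT]
  have hUc : Continuous (UU q (Icc 1 N0) F) := UU_cont q _ _ fun n hn => (mem_Icc.1 hn).1
  have hUi : IntervalIntegrable (fun t => q * y * UU q (Icc 1 N0) F t) volume (-T) T :=
    (continuous_const.mul hUc).intervalIntegrable _ _
  have hIi : ∀ k, IntervalIntegrable
      ((Tset q e G k T (q.totient * y)).indicator (fun _ => Bk k)) volume (-T) T := by
    intro k
    rw [intervalIntegrable_iff]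
    have h0 : IntervalIntegrable (fun _ : ℝ => Bk k) volume (-T) T := intervalIntegrable_const
    rw [intervalIntegrable_iff] at h0
    exact Integrable.indicator h0 (Tset_meas q e G k T _)
  have hRi : IntervalIntegrable R volume (-T) T := by
    rw [hR]
    refine IntervalIntegrable.const_mul ?_ _
    have h0 := IntervalIntegrable.sum K fun k _ => hUi.add (hIi k)
    refine h0.congr ?_
    intro t _
    simp only [Finset.sum_apply]
  have hLc : Continuous fun t : ℝ => ‖∑ n ∈ Icc 1 N, F n * ex (n * (a / q)) * nit n t‖ ^ 2 := by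
    refine (continuous_finsetSum _ fun n hn => ?_).norm.pow 2
    exact continuous_const.mul (continuous_nit' (mem_Icc.1 hn).1)
  have hint : ∫ t in (-T)..T, ‖∑ n ∈ Icc 1 N, F n * ex (n * (a / q)) * nit n t‖ ^ 2 ≤
      ∫ t in (-T)..T, R t :=
    intervalIntegral.integral_mono_on hle (hLc.intervalIntegrable _ _) hRi hpt
  refine hint.trans ?_
  have hind : ∀ k, ∫ t in (-T)..T, (Tset q e G k T (q.totient * y)).indicator (fun _ => Bk k) t ≤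
      Bk k * volume.real (Tset q e G k T (q.totient * y)) := by
    intro k
    rw [intervalIntegral.integral_of_le hle, integral_indicator (Tset_meas q e G k T _),
      setIntegral_const, smul_eq_mul, mul_comm]
    refine mul_le_mul_of_nonneg_left ?_ (hBk0 k)
    rw [measureReal_restrict_apply (Tset_meas q e G k T _)]
    refine measureReal_mono Set.inter_subset_left ?_
    refine ne_of_lt (lt_of_le_of_lt (measure_mono (fun t ht => ht.1 : _ ⊆ Set.Icc (-T) T)) ?_)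
    exact measure_Icc_lt_top
  have hRint : ∫ t in (-T)..T, R t ≤ K.card * ∑ _k ∈ K, (q * y * Ub + Z ^ 4 * 4 ^ J * B) := by
    rw [hR, intervalIntegral.integral_const_mul, intervalIntegral.integral_finsetSum
      (fun k _ => hUi.add (hIi k))]
    refine mul_le_mul_of_nonneg_left (sum_le_sum fun k hk => ?_) (Nat.cast_nonneg _)
    rw [intervalIntegral.integral_add hUi (hIi k), intervalIntegral.integral_const_mul]
    have h7 : Bk k * volume.real (Tset q e G k T (q.totient * y)) ≤ Z ^ 4 * 4 ^ J * B := by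
      have h8 := mul_le_mul_of_nonneg_left (hB k hk) (by (clear * -; positivity) : 0 ≤ Z ^ 4 * 4 ^ J)
      refine le_trans (le_of_eq ?_) h8
      rw [hBk]
      dsimp only
      ring
    have h9 := mul_le_mul_of_nonneg_left hUb (by (clear * - hy hq0; positivity) : 0 ≤ q * y)
    have h10 := hind k
    linarith
  refine hRint.trans (le_of_eq ?_)
  rw [sum_const, nsmul_eq_mul]
  ring


/-- the numerics -/
lemma fixedX (ε e1 κ0 c sv s2 s C Ct : ℝ) (X : ℕ) (hε : 0 < ε)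
    (hs2 : 0 < s2) (hs2v : s2 ≤ sv) (hs2e : s2 ≤ e1) (hs2κ : s2 ≤ κ0 / 4) (hs2s : s2 ≤ 1 / 20)
    (hs : s = s2 / 20) (hcκ : c ≤ κ0 / 2) (hc1 : c ≤ 1 / 10) (hC : 1 ≤ C) (hCt : 1 ≤ Ct)
    (hM : ∀ (q M : ℕ) (S : Finset ℕ) (f : ℕ → ℂ) (T : ℝ), 1 ≤ q → 1 ≤ M →
      (∀ n ∈ S, 1 ≤ n ∧ n ≤ 32 * M) → 0 ≤ T →
      ∫ t in (-T)..T, UU q S f t ≤ C * (1 + T + M / q) * ∑ n ∈ S, ‖f n‖ ^ 2)
    (ht : ∀ n : ℕ, 1 ≤ n → (n.divisors.card : ℝ) ≤ Ct * (n : ℝ) ^ (s / 12))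
    (hX1 : (1 : ℝ) < X) (hE1 : 4 * C + 1024 ≤ (X : ℝ) ^ s) (hE2 : Ct ^ 6 ≤ (X : ℝ) ^ s)
    (hE3 : ∀ m : ℕ, (2 : ℝ) ^ m ≤ (X : ℝ) ^ (2 : ℝ) → (m : ℝ) + 1 ≤ (X : ℝ) ^ (s / 5))
    (hE4 : 4 ≤ (X : ℝ) ^ (κ0 / 4))
    (hV : ∀ (J q h : ℕ) (e : Fin J → ℕ) (G : Fin J → ArithmeticFunction ℂ) (V : Fin J → ℝ)
      (Ac : Finset (Fin J)) (Tt : Set ℝ),
      3 ≤ J → J ≤ 5 → (X : ℝ) ^ (1 / 6 + ε) ≤ h → (h : ℝ) ≤ (X : ℝ) ^ (2 / 5 : ℝ) → 1 ≤ q →
      (q : ℝ) ≤ h * (X : ℝ) ^ (-e1) →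
      (∀ i, 1 ≤ e i ∧ h * (X : ℝ) ^ (-sv) ≤ (2 : ℝ) ^ e i ∧
        (2 : ℝ) ^ e i ≤ Real.sqrt (X / h) * (X : ℝ) ^ sv) →
      (X : ℝ) ^ (1 - sv) ≤ ∏ i, (2 : ℝ) ^ e i → ∏ i, (2 : ℝ) ^ e i ≤ (X : ℝ) ^ (1 + sv) →
      (∀ i n, ‖G i n‖ ≤ 1) → (∀ i n, G i n ≠ 0 → 2 ^ (e i - 1) < n ∧ n ≤ 2 ^ e i) →
      (∀ i, 0 ≤ V i ∧ (2 : ℝ) ^ e i ≤ V i ^ 2 ∧ V i ^ 2 ≤ ((2 : ℝ) ^ e i) ^ 2 * (X : ℝ) ^ (-c)) →
      (∀ i, i ∉ Ac → V i ^ 2 = (2 : ℝ) ^ e i) →
      MeasurableSet Tt → Tt ⊆ Set.Icc (-(X / h * (X : ℝ) ^ sv)) (X / h * (X : ℝ) ^ sv) →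
      (∀ D : Finset (Fin J), D ⊆ Ac → D.Nonempty → ∀ t ∈ Tt,
        (X : ℝ) ^ (-sv) * ∏ i ∈ D, V i ^ 2 ≤ UU q (bx D e) (⇑(∏ i ∈ D, G i : ArithmeticFunction ℂ)) t) →
      volume.real Tt * (q * ∏ i, V i ^ 2) ≤ (X : ℝ) ^ (2 - sv))
    (J q h P N : ℕ) (e : Fin J → ℕ) (G : Fin J → ArithmeticFunction ℂ) (A : ArithmeticFunction ℂ) (a : ℤ)
    (H : DCl X h q J P s e G A) (hh1 : (X : ℝ) ^ (1 / 6 + ε) ≤ h) (hh2 : (h : ℝ) ≤ (X : ℝ) ^ (2 / 5 : ℝ))
    (hq1 : (X : ℝ) ^ κ0 ≤ q) (hq2 : (q : ℝ) ≤ h * (X : ℝ) ^ (-e1)) (ha : IsCoprime a (q : ℤ))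
    (hN : P * ∏ i, 2 ^ e i ≤ N) :
    ∫ t in (-(X / h * (X : ℝ) ^ s))..(X / h * (X : ℝ) ^ s),
      ‖∑ n ∈ Icc 1 N, (A * ∏ i, G i) n * ex (n * (a / q)) * nit n t‖ ^ 2 ≤ (X : ℝ) ^ (2 - s) := by
  classical
  have hX0 : (0 : ℝ) < X := by linarith only [hs2, hs2s, hX1]
  have hX1' : (1 : ℝ) ≤ X := hX1.le
  have hs0 : 0 < s := by rw [hs]; linarith only [hs2]
  have hκ : 0 < κ0 := by linarith only [hs2, hs2κ]
  have mono : ∀ {u v : ℝ}, u ≤ v → (X : ℝ) ^ u ≤ (X : ℝ) ^ v :=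
    fun huv => Real.rpow_le_rpow_of_exponent_le hX1' huv
  have radd : ∀ u v : ℝ, (X : ℝ) ^ u * (X : ℝ) ^ v = (X : ℝ) ^ (u + v) :=
    fun u v => (Real.rpow_add hX0 u v).symm
  have rpos : ∀ u : ℝ, 0 < (X : ℝ) ^ u := fun u => Real.rpow_pos_of_pos hX0 u
  have one_le : ∀ u : ℝ, 0 ≤ u → 1 ≤ (X : ℝ) ^ u := fun u hu => Real.one_le_rpow hX1' hu
  have hq0 : (0 : ℝ) < q := lt_of_lt_of_le (rpos _) hq1
  have hqn : 0 < q := by exact_mod_cast hq0
  have : NeZero q := ⟨hqn.ne'⟩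
  have hh0 : (0 : ℝ) < h := lt_of_lt_of_le (rpos _) hh1
  have hJ3 := H.J3
  have hJ5 := H.J5
  set T : ℝ := X / h * (X : ℝ) ^ s with hT
  have hT0 : 0 ≤ T := by (clear * - hX1 hh0; positivity)
  -- product of the cells
  have hprod : ((∏ i, 2 ^ e i : ℕ) : ℝ) = ∏ i, (2 : ℝ) ^ e i := by push_cast; rfl
  have hei : ∀ i, (2 : ℝ) ^ e i ≤ (X : ℝ) ^ (2 : ℝ) := by
    intro i
    have h0 : 2 ^ e i ≤ ∏ j, 2 ^ e j :=
      Finset.single_le_prod' (f := fun j => 2 ^ e j) (s := univ)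
        (fun j _ => Nat.one_le_two_pow) (mem_univ i)
    calc (2 : ℝ) ^ e i ≤ ∏ j, (2 : ℝ) ^ e j := by exact_mod_cast h0
      _ ≤ (X : ℝ) ^ (1 + s) := H.hi
      _ ≤ (X : ℝ) ^ (2 : ℝ) := mono (by linarith only [hs2, hs2s, hs])
  -- number of levels
  set K := Fintype.piFinset (fun i : Fin J => range (e i + 1)) with hK
  have hKc : (K.card : ℝ) ≤ (X : ℝ) ^ s := by
    rw [hK, Fintype.card_piFinset]
    push_cast
    simp only [card_range]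
    calc ∏ i : Fin J, ((e i + 1 : ℕ) : ℝ) ≤ ∏ _i : Fin J, (X : ℝ) ^ (s / 5) := by
          refine prod_le_prod (fun i _ => Nat.cast_nonneg _) fun i _ => ?_
          push_cast
          exact hE3 (e i) (hei i)
      _ = ((X : ℝ) ^ (s / 5)) ^ J := by rw [prod_const, card_univ, Fintype.card_fin]
      _ ≤ ((X : ℝ) ^ (s / 5)) ^ 5 := pow_le_pow_right₀ (one_le _ (by linarith only [hs0])) hJ5
      _ = (X : ℝ) ^ s := by
          rw [← Real.rpow_natCast, ← Real.rpow_mul hX0.le]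
          congr 1
          push_cast
          ring
  -- size of N0
  have hN0 : ((P * ∏ i, 2 ^ e i : ℕ) : ℝ) ≤ (X : ℝ) ^ (1 + 2 * s) := by
    rw [Nat.cast_mul, hprod]
    calc (P : ℝ) * ∏ i, (2 : ℝ) ^ e i ≤ (X : ℝ) ^ s * (X : ℝ) ^ (1 + s) :=
          mul_le_mul H.Ple H.hi (prod_nonneg fun _ _ => by (clear * -; positivity)) (rpos _).le
      _ = (X : ℝ) ^ (1 + 2 * s) := by rw [radd]; congr 1; ring
  -- bound of the coefficients
  have hFb : ∀ n ∈ Icc 1 (P * ∏ i, 2 ^ e i), ‖(A * ∏ i, G i) n‖ ^ 2 ≤ (X : ℝ) ^ (6 * s) := by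
    intro n hn
    rw [mem_Icc] at hn
    have h1 := Fbd G A H.bd ((X : ℝ) ^ s) (rpos _).le H.Abd n
    have h2 := ht n hn.1
    have hn1 : (1 : ℝ) ≤ n := by exact_mod_cast hn.1
    have hnX : (n : ℝ) ≤ (X : ℝ) ^ (2 : ℝ) := by
      calc (n : ℝ) ≤ ((P * ∏ i, 2 ^ e i : ℕ) : ℝ) := by exact_mod_cast hn.2
        _ ≤ (X : ℝ) ^ (1 + 2 * s) := hN0
        _ ≤ (X : ℝ) ^ (2 : ℝ) := mono (by linarith only [hs2, hs2s, hs])
    have h3 : (n : ℝ) ^ (s / 12) ≤ (X : ℝ) ^ (s / 6) := by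
      calc (n : ℝ) ^ (s / 12) ≤ ((X : ℝ) ^ (2 : ℝ)) ^ (s / 12) :=
            Real.rpow_le_rpow (by linarith only [hn1]) hnX (by linarith only [hs0])
        _ = (X : ℝ) ^ (s / 6) := by rw [← Real.rpow_mul hX0.le]; congr 1; ring
    have h4 : (n.divisors.card : ℝ) ≤ Ct * (X : ℝ) ^ (s / 6) :=
      h2.trans (mul_le_mul_of_nonneg_left h3 (by linarith only [hCt]))
    have h5 : (n.divisors.card : ℝ) ^ (J + 1) ≤ (X : ℝ) ^ (2 * s) := by
      have hd1 : (1 : ℝ) ≤ Ct * (X : ℝ) ^ (s / 6) := by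
        have := one_le (s / 6) (by linarith only [hs0])
        nlinarith only [hCt, this]
      calc (n.divisors.card : ℝ) ^ (J + 1) ≤ (Ct * (X : ℝ) ^ (s / 6)) ^ (J + 1) :=
            pow_le_pow_left₀ (Nat.cast_nonneg _) h4 _
        _ ≤ (Ct * (X : ℝ) ^ (s / 6)) ^ 6 := pow_le_pow_right₀ hd1 (by omega)
        _ = Ct ^ 6 * (X : ℝ) ^ s := by
            rw [mul_pow]
            congr 1
            rw [← Real.rpow_natCast, ← Real.rpow_mul hX0.le]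
            congr 1
            push_cast
            ring
        _ ≤ (X : ℝ) ^ s * (X : ℝ) ^ s := mul_le_mul_of_nonneg_right hE2 (rpos _).le
        _ = (X : ℝ) ^ (2 * s) := by rw [radd]; congr 1; ring
    have h6 : ‖(A * ∏ i, G i) n‖ ≤ (X : ℝ) ^ (3 * s) := by
      refine h1.trans ?_
      calc (X : ℝ) ^ s * (n.divisors.card : ℝ) ^ (J + 1) ≤ (X : ℝ) ^ s * (X : ℝ) ^ (2 * s) :=
            mul_le_mul_of_nonneg_left h5 (rpos _).le
        _ = (X : ℝ) ^ (3 * s) := by rw [radd]; congr 1; ring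
    calc ‖(A * ∏ i, G i) n‖ ^ 2 ≤ ((X : ℝ) ^ (3 * s)) ^ 2 := pow_le_pow_left₀ (norm_nonneg _) h6 2
      _ = (X : ℝ) ^ (6 * s) := by rw [pow_two, radd]; congr 1; ring
  have hFs : ∑ n ∈ Icc 1 (P * ∏ i, 2 ^ e i), ‖(A * ∏ i, G i) n‖ ^ 2 ≤ (X : ℝ) ^ (1 + 8 * s) := by
    refine (sum_le_sum hFb).trans ?_
    rw [sum_const, Nat.card_Icc, Nat.add_sub_cancel, nsmul_eq_mul]
    calc ((P * ∏ i, 2 ^ e i : ℕ) : ℝ) * (X : ℝ) ^ (6 * s) ≤ (X : ℝ) ^ (1 + 2 * s) * (X : ℝ) ^ (6 * s) :=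
          mul_le_mul_of_nonneg_right hN0 (rpos _).le
      _ = (X : ℝ) ^ (1 + 8 * s) := by rw [radd]; congr 1; ring
  -- mean value theorem
  set Ub : ℝ := C * (1 + T + ((P * ∏ i, 2 ^ e i + 1 : ℕ) : ℝ) / q) * (X : ℝ) ^ (1 + 8 * s) with hUb
  have hMU : ∫ t in (-T)..T, UU q (Icc 1 (P * ∏ i, 2 ^ e i)) (⇑(A * ∏ i, G i)) t ≤ Ub := by
    refine (hM q (P * ∏ i, 2 ^ e i + 1) _ _ T hqn (by omega)
      (fun n hn => by rw [mem_Icc] at hn; omega) hT0).trans ?_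
    rw [hUb]
    exact mul_le_mul_of_nonneg_left hFs (by (clear * - hC hX1 hqn hh0; positivity))
  -- the few part
  have hqT : q * (1 + T + ((P * ∏ i, 2 ^ e i + 1 : ℕ) : ℝ) / q) ≤ 4 * (X : ℝ) ^ (1 + 2 * s) := by
    have h1 : (q : ℝ) * T ≤ (X : ℝ) ^ (1 + 2 * s) := by
      calc (q : ℝ) * T ≤ h * (X : ℝ) ^ (-e1) * T := mul_le_mul_of_nonneg_right hq2 hT0
        _ = (X : ℝ) ^ (1 : ℝ) * (X : ℝ) ^ (-e1) * (X : ℝ) ^ s := by
            rw [hT, Real.rpow_one]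
            field_simp
        _ = (X : ℝ) ^ (1 - e1 + s) := by rw [radd, radd]; congr 1
        _ ≤ _ := mono (by linarith only [hs2, hs2e, hs0])
    have h2 : (q : ℝ) ≤ (X : ℝ) ^ (1 + 2 * s) := by
      calc (q : ℝ) ≤ h * (X : ℝ) ^ (-e1) := hq2
        _ ≤ (X : ℝ) ^ (2 / 5 : ℝ) * (X : ℝ) ^ (-e1) := mul_le_mul_of_nonneg_right hh2 (rpos _).le
        _ = (X : ℝ) ^ (2 / 5 + -e1) := radd _ _
        _ ≤ _ := mono (by linarith only [hs2, hs2e, hs0])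
    have h3 : (q : ℝ) * (1 + T + ((P * ∏ i, 2 ^ e i + 1 : ℕ) : ℝ) / q) =
        q + q * T + ((P * ∏ i, 2 ^ e i : ℕ) : ℝ) + 1 := by
      push_cast
      field_simp
      ring
    have h4 : (1 : ℝ) ≤ (X : ℝ) ^ (1 + 2 * s) := one_le _ (by linarith only [hs0])
    rw [h3]
    linarith only [hN0, h1, h2, h4]
  have hfew : q * (X : ℝ) ^ (-s2) * Ub ≤ 4 * C * (X : ℝ) ^ (2 + 10 * s - s2) := by
    calc q * (X : ℝ) ^ (-s2) * Ub = (q * (1 + T + ((P * ∏ i, 2 ^ e i + 1 : ℕ) : ℝ) / q)) *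
          (C * ((X : ℝ) ^ (-s2) * (X : ℝ) ^ (1 + 8 * s))) := by rw [hUb]; ring
      _ ≤ (4 * (X : ℝ) ^ (1 + 2 * s)) * (C * ((X : ℝ) ^ (-s2) * (X : ℝ) ^ (1 + 8 * s))) :=
          mul_le_mul_of_nonneg_right hqT (by (clear * - hC hX1; positivity))
      _ = 4 * C * ((X : ℝ) ^ (1 + 2 * s) * ((X : ℝ) ^ (-s2) * (X : ℝ) ^ (1 + 8 * s))) := by ring
      _ = 4 * C * (X : ℝ) ^ (2 + 10 * s - s2) := by rw [radd, radd]; congr 2; ring
  -- the full part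
  have hφ0 : (0 : ℝ) < q.totient := by exact_mod_cast Nat.totient_pos.2 hqn
  have hcell2 : ∀ i, (q : ℝ) ≤ (2 : ℝ) ^ e i := by
    intro i
    refine le_trans ?_ (H.cell i).2.1
    exact hq2.trans (mul_le_mul_of_nonneg_left (mono (by linarith only [hs2, hs2e, hs])) hh0.le)
  have hfull : ∀ k ∈ K, volume.real (Tset q e G k T (q.totient * (X : ℝ) ^ (-s2))) *
      (q * ∏ i, ((2 : ℝ) ^ e i * 4 ^ (k i - 1))) ≤ (X : ℝ) ^ (2 - s2) := by
    intro k _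
    rcases Set.eq_empty_or_nonempty (Tset q e G k T (q.totient * (X : ℝ) ^ (-s2))) with h0 | ⟨t0, ht0⟩
    · rw [h0]
      simp only [measureReal_empty, zero_mul]
      exact (rpos _).le
    set V : Fin J → ℝ := fun i => Real.sqrt ((2 : ℝ) ^ e i * 4 ^ (k i - 1)) with hVdef
    have hVsq : ∀ i, V i ^ 2 = (2 : ℝ) ^ e i * 4 ^ (k i - 1) := fun i => Real.sq_sqrt (by (clear * -; positivity))
    set Ac : Finset (Fin J) := univ.filter (fun i => 1 ≤ k i) with hAc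
    -- lower bound of UU on Tset
    have hlow : ∀ D : Finset (Fin J), D ⊆ Ac → D.Nonempty →
        ∀ t ∈ Tset q e G k T (q.totient * (X : ℝ) ^ (-s2)),
        (X : ℝ) ^ (-s2) * ∏ i ∈ D, V i ^ 2 ≤
          UU q (bx D e) (⇑(∏ i ∈ D, G i : ArithmeticFunction ℂ)) t := by
      intro D hD hDn t htT
      have h1 := UU_lower q e G H.supp k D hDn (fun i hi => (mem_filter.1 (hD hi)).2) t
      have h2 : (q.totient : ℝ) * (X : ℝ) ^ (-s2) * ∏ i ∈ D, ((2 : ℝ) ^ e i * 4 ^ (k i - 1)) ≤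
          q.totient * UU q (bx D e) (⇑(∏ i ∈ D, G i : ArithmeticFunction ℂ)) t :=
        (mul_le_mul_of_nonneg_right htT.2 (prod_nonneg fun i _ => by (clear * -; positivity))).trans h1
      simp_rw [hVsq]
      rw [mul_assoc] at h2
      exact le_of_mul_le_mul_left h2 hφ0
    have hVtop : ∀ i, V i ^ 2 ≤ ((2 : ℝ) ^ e i) ^ 2 * (X : ℝ) ^ (-c) := by
      intro i
      by_cases hi : i ∈ Ac
      · have h1 := hlow {i} (singleton_subset_iff.2 hi) (singleton_nonempty i) t0 ht0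
        rw [prod_singleton, prod_singleton] at h1
        have hbx : bx {i} e = Ioc (2 ^ (e i - 1)) (2 ^ e i) := by
          unfold bx
          rw [prod_singleton, prod_singleton]
        rw [hbx] at h1
        have h2 := UU_single q (2 ^ (e i - 1)) (2 ^ e i) hqn (by exact_mod_cast hcell2 i)
          (G i) (H.bd i) t0
        have h3 : (X : ℝ) ^ (-s2) * V i ^ 2 ≤ 4 * ((2 : ℝ) ^ e i) ^ 2 / q := by
          refine (h1.trans h2).trans (le_of_eq ?_)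
          push_cast
          rfl
        have h4 : 4 * ((2 : ℝ) ^ e i) ^ 2 / q ≤ (X : ℝ) ^ (-s2) * (((2 : ℝ) ^ e i) ^ 2 * (X : ℝ) ^ (-c)) := by
          rw [div_le_iff₀ hq0]
          have h5 : (4 : ℝ) ≤ (X : ℝ) ^ (-s2) * (X : ℝ) ^ (-c) * q := by
            calc (4 : ℝ) ≤ (X : ℝ) ^ (κ0 / 4) := hE4
              _ ≤ (X : ℝ) ^ (-s2 + -c + κ0) := mono (by linarith only [hs2κ, hcκ])
              _ = (X : ℝ) ^ (-s2) * (X : ℝ) ^ (-c) * (X : ℝ) ^ κ0 := by rw [radd, radd]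
              _ ≤ (X : ℝ) ^ (-s2) * (X : ℝ) ^ (-c) * q :=
                  mul_le_mul_of_nonneg_left hq1 (mul_pos (rpos _) (rpos _)).le
          calc 4 * ((2 : ℝ) ^ e i) ^ 2 ≤ ((X : ℝ) ^ (-s2) * (X : ℝ) ^ (-c) * q) * ((2 : ℝ) ^ e i) ^ 2 :=
                mul_le_mul_of_nonneg_right h5 (sq_nonneg _)
            _ = _ := by ring
        exact le_of_mul_le_mul_left (h3.trans h4) (rpos _)
      · have hk0 : k i = 0 := by
          by_contra hne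
          exact hi (mem_filter.2 ⟨mem_univ _, by omega⟩)
        rw [hVsq, hk0]
        simp only [Nat.zero_sub, pow_zero, mul_one]
        have h1 : (X : ℝ) ^ c ≤ (2 : ℝ) ^ e i := by
          calc (X : ℝ) ^ c ≤ (X : ℝ) ^ (1 / 6 + ε + -s) := mono (by linarith only [hε, hs2, hs2s, hs, hc1])
            _ = (X : ℝ) ^ (1 / 6 + ε) * (X : ℝ) ^ (-s) := (radd _ _).symm
            _ ≤ h * (X : ℝ) ^ (-s) := mul_le_mul_of_nonneg_right hh1 (rpos _).le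
            _ ≤ _ := (H.cell i).2.1
        calc (2 : ℝ) ^ e i = 2 ^ e i * ((X : ℝ) ^ c * (X : ℝ) ^ (-c)) := by
              rw [radd]; simp
          _ ≤ 2 ^ e i * (2 ^ e i * (X : ℝ) ^ (-c)) := by
              refine mul_le_mul_of_nonneg_left ?_ (by (clear * -; positivity))
              exact mul_le_mul_of_nonneg_right h1 (rpos _).le
          _ = (2 ^ e i) ^ 2 * (X : ℝ) ^ (-c) := by ring
    have hmain := hV J q h e G V Ac (Tset q e G k T (q.totient * (X : ℝ) ^ (-s2))) hJ3 hJ5 hh1 hh2 hqn hq2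
      (fun i => ⟨(H.cell i).1, (mul_le_mul_of_nonneg_left (mono (by linarith only [hs2, hs2v, hs])) hh0.le).trans (H.cell i).2.1,
        (H.cell i).2.2.trans (mul_le_mul_of_nonneg_left (mono (by linarith only [hs2, hs2v, hs])) (Real.sqrt_nonneg _))⟩)
      ((mono (by linarith only [hs2, hs2v, hs])).trans H.lo) (H.hi.trans (mono (by linarith only [hs2, hs2v, hs]))) H.bd
      (fun i n hn => ⟨(H.supp i n hn).1, (H.supp i n hn).2.1⟩)
      (fun i => ⟨Real.sqrt_nonneg _, by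
        rw [hVsq]
        calc (2 : ℝ) ^ e i = 2 ^ e i * 1 := (mul_one _).symm
          _ ≤ 2 ^ e i * 4 ^ (k i - 1) :=
            mul_le_mul_of_nonneg_left (one_le_pow₀ (by norm_num)) (by (clear * -; positivity)), hVtop i⟩)
      (fun i hi => by
        have hk0 : k i = 0 := by
          by_contra hne
          exact hi (mem_filter.2 ⟨mem_univ _, by omega⟩)
        rw [hVsq, hk0]
        simp)
      (Tset_meas q e G k T _)
      (fun t htT => by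
        have h1 := htT.1
        have h2 : T ≤ X / h * (X : ℝ) ^ sv :=
          mul_le_mul_of_nonneg_left (mono (by linarith only [hs2, hs2v, hs])) (by (clear * - hX1 hh0; positivity))
        exact ⟨by linarith only [h1, h2, h1.1], by linarith only [h1, h2, h1.2]⟩)
      (fun D hD hDn t htT => by
        refine le_trans ?_ (hlow D hD hDn t htT)
        exact mul_le_mul_of_nonneg_right (mono (by linarith only [hs2v])) (prod_nonneg fun i _ => sq_nonneg _))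
    simp_rw [hVsq] at hmain
    exact hmain.trans (mono (by linarith only [hs2v]))
  -- assembly
  have hbd := integral_bd (by omega) q P N a ha e G A H.bd H.supp H.Asupp hN ((X : ℝ) ^ s) (rpos _).le
    H.Abd H.Ple T hT0 ((X : ℝ) ^ (-s2)) (rpos _).le Ub ((X : ℝ) ^ (2 - s2)) hMU hfull
  refine hbd.trans ?_
  have h4J : (4 : ℝ) ^ J ≤ 1024 := by
    calc (4 : ℝ) ^ J ≤ 4 ^ 5 := pow_le_pow_right₀ (by norm_num) hJ5
      _ = 1024 := by norm_num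
  have hZ4 : ((X : ℝ) ^ s) ^ 4 = (X : ℝ) ^ (4 * s) := by
    rw [← Real.rpow_natCast, ← Real.rpow_mul hX0.le]
    congr 1
    push_cast
    ring
  have hfullb : ((X : ℝ) ^ s) ^ 4 * 4 ^ J * (X : ℝ) ^ (2 - s2) ≤ 1024 * (X : ℝ) ^ (2 + 10 * s - s2) := by
    rw [hZ4]
    calc (X : ℝ) ^ (4 * s) * 4 ^ J * (X : ℝ) ^ (2 - s2)
        = 4 ^ J * ((X : ℝ) ^ (4 * s) * (X : ℝ) ^ (2 - s2)) := by ring
      _ ≤ 1024 * ((X : ℝ) ^ (4 * s) * (X : ℝ) ^ (2 - s2)) :=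
          mul_le_mul_of_nonneg_right h4J (mul_pos (rpos _) (rpos _)).le
      _ = 1024 * (X : ℝ) ^ (4 * s + (2 - s2)) := by rw [radd]
      _ ≤ _ := mul_le_mul_of_nonneg_left (mono (by linarith only [hs0])) (by norm_num)
  calc ((K.card : ℝ)) ^ 2 * (q * (X : ℝ) ^ (-s2) * Ub + ((X : ℝ) ^ s) ^ 4 * 4 ^ J * (X : ℝ) ^ (2 - s2))
      ≤ ((X : ℝ) ^ s) ^ 2 * (4 * C * (X : ℝ) ^ (2 + 10 * s - s2) + 1024 * (X : ℝ) ^ (2 + 10 * s - s2)) := by
        refine mul_le_mul (pow_le_pow_left₀ (Nat.cast_nonneg _) hKc 2) (add_le_add hfew hfullb) ?_ (by (clear * - hX1; positivity))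
        (clear * - hC hX1 hqn hh0; positivity)
    _ = (4 * C + 1024) * (((X : ℝ) ^ s * (X : ℝ) ^ s) * (X : ℝ) ^ (2 + 10 * s - s2)) := by ring
    _ ≤ (X : ℝ) ^ s * (((X : ℝ) ^ s * (X : ℝ) ^ s) * (X : ℝ) ^ (2 + 10 * s - s2)) :=
        mul_le_mul_of_nonneg_right hE1 (by (clear * - hX1; positivity))
    _ = (X : ℝ) ^ (s + (s + s + (2 + 10 * s - s2))) := by rw [radd, radd, radd]
    _ ≤ (X : ℝ) ^ (2 - s) := mono (by linarith only [hs, hs0])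

end DjlAux

open DjlAux

theorem djl (ε e1 κ0 : ℝ) (hε : 0 < ε) (he1 : 0 < e1) (hκ : 0 < κ0) : ∃ s : ℝ, 0 < s ∧ ∀ᶠ X : ℕ in atTop,
    ∀ (J q h P N : ℕ) (e : Fin J → ℕ) (G : Fin J → ArithmeticFunction ℂ) (A : ArithmeticFunction ℂ) (a : ℤ),
    DCl X h q J P s e G A → (X : ℝ) ^ (1 / 6 + ε) ≤ h → (h : ℝ) ≤ (X : ℝ) ^ (2 / 5 : ℝ) →
    (X : ℝ) ^ κ0 ≤ q → (q : ℝ) ≤ h * (X : ℝ) ^ (-e1) → IsCoprime a (q : ℤ) → P * ∏ i, 2 ^ e i ≤ N →
    ∫ t in (-(X / h * (X : ℝ) ^ s))..(X / h * (X : ℝ) ^ s),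
      ‖∑ n ∈ Icc 1 N, (A * ∏ i, G i) n * ex (n * (a / q)) * nit n t‖ ^ 2 ≤ (X : ℝ) ^ (2 - s) := by
  have hc : 0 < min (κ0 / 2) (1 / 10 : ℝ) := lt_min (by linarith) (by norm_num)
  obtain ⟨sv, hsv, hV⟩ := vlv ε e1 (min (κ0 / 2) (1 / 10)) hε he1 hc
  obtain ⟨C, hC, hM⟩ := mvt_ap
  set s2 : ℝ := min sv (min e1 (min (κ0 / 4) (1 / 20))) with hs2
  have hs20 : 0 < s2 := lt_min hsv (lt_min he1 (lt_min (by linarith) (by norm_num)))
  have hs2v : s2 ≤ sv := min_le_left _ _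
  have hs2e : s2 ≤ e1 := (min_le_right _ _).trans (min_le_left _ _)
  have hs2κ : s2 ≤ κ0 / 4 := (min_le_right _ _).trans ((min_le_right _ _).trans (min_le_left _ _))
  have hs2s : s2 ≤ 1 / 20 := (min_le_right _ _).trans ((min_le_right _ _).trans (min_le_right _ _))
  have hs0 : 0 < s2 / 20 := by linarith only [hs20]
  obtain ⟨Ct, hCt, ht⟩ := tau_small (s2 / 20 / 12) (by linarith only [hs20])
  refine ⟨s2 / 20, hs0, ?_⟩
  have hcast : Tendsto (fun n : ℕ => (n : ℝ)) atTop atTop := tendsto_natCast_atTop_atTop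
  have hpow : ∀ u : ℝ, 0 < u → Tendsto (fun n : ℕ => (n : ℝ) ^ u) atTop atTop :=
    fun u hu => (tendsto_rpow_atTop hu).comp hcast
  have hE3 : ∀ᶠ X : ℕ in atTop, ∀ m : ℕ, (2 : ℝ) ^ m ≤ (X : ℝ) ^ (2 : ℝ) →
      (m : ℝ) + 1 ≤ (X : ℝ) ^ (s2 / 20 / 5) := by
    have h1 := (isLittleO_log_rpow_atTop (by linarith only [hs20] : 0 < s2 / 20 / 5)).bound
      (by norm_num : (0 : ℝ) < 1 / 8)
    have h2 := hcast.eventually h1
    filter_upwards [h2, (hpow _ (by linarith only [hs20] : 0 < s2 / 20 / 5)).eventually_ge_atTop 2,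
      eventually_ge_atTop 2] with X h3 h4 h5 m hm
    have hX : (2 : ℝ) ≤ X := by exact_mod_cast h5
    have hX0 : (0 : ℝ) < X := by linarith only [hs20, hs2s, hX]
    have h6 : (m : ℝ) * Real.log 2 ≤ 2 * Real.log X := by
      have := Real.log_le_log (by (clear * -; positivity)) hm
      rwa [Real.log_pow, Real.log_rpow hX0] at this
    have h7 : 1 / 2 < Real.log 2 := by
      have := Real.log_two_gt_d9
      linarith only [hs20, hs2s, this]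
    have h8 : 0 ≤ Real.log X := Real.log_nonneg (by linarith only [hs20, hs2s, hX])
    rw [Real.norm_of_nonneg h8, Real.norm_of_nonneg (Real.rpow_nonneg hX0.le _)] at h3
    have hm0 : (0 : ℝ) ≤ m := Nat.cast_nonneg _
    nlinarith only [h3, h4, h6, h7]
  filter_upwards [hV, hE3, (hpow _ hs0).eventually_ge_atTop (4 * C + 1024),
    (hpow _ hs0).eventually_ge_atTop (Ct ^ 6), (hpow _ (by linarith only [hs20, hs2κ] : 0 < κ0 / 4)).eventually_ge_atTop 4,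
    eventually_gt_atTop 1] with X hVX hE3X hE1X hE2X hE4X hX1
  intro J q h P N e G A a H hh1 hh2 hq1 hq2 ha hN
  exact fixedX ε e1 κ0 _ sv s2 (s2 / 20) C Ct X hε hs20 hs2v hs2e hs2κ hs2s rfl (min_le_left _ _)
    (min_le_right _ _) hC hCt hM ht (by exact_mod_cast hX1) hE1X hE2X hE3X hE4X hVX J q h P N e G A a H
    hh1 hh2 hq1 hq2 ha hN

end Pool.Agent.VM
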