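import Pool.Agent.Lib.HLT.TauPow
import Pool.Agent.Lib.VK.SharpWin

/-!
# Module WinGen: from Gaussian windows to sharp windows, general support

The same as `VK.sharp_win` (file VK/SharpWin.lean; copy its proof) but the coefficients are supported on `Icc 1 N`, `N ≥ 3X`, instead
of `Ioc X (3X)`. For `u ∈ [X, 2X]` put `w_n = ∫_{log u}^{log(u+h)} gs σ (v - log n) dv - 1[u < n ≤ u+h]`. `|w_n| ≤ 1`; if
`|log n - log u| > σΛ` and `|log n - log(u+h)| > σΛ` then `|w_n| ≤ 2 exp(-Λ²/2)`; the number of the other `n` is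
`≤ C (1 + X σ Λ)` (`σΛ ≤ 1`). So `|∑_{window} c| ≤ |∫_{log u}^{log(u+h)} g| + C K (1 + XσΛ + N exp(-Λ²/2))`,
`(∫_{I_u} |g|)² ≤ (h/X) ∫_{I_u} |g|²`, and every `v` lies in `I_u` for at most `h + 1` values of `u`.
-/

set_option autoImplicit false

open Finset Filter MeasureTheory

namespace Pool.Agent.VM

open Pool.Agent.VK Pool.Agent.HLT Pool.Agent.VK.SharpWinAux

theorem win_gen : ∃ C : ℝ, 1 ≤ C ∧ ∀ (X h N : ℕ) (c : ℕ → ℂ) (K σ Λ : ℝ), 1 ≤ X → 1 ≤ h → h ≤ X → 3 * X ≤ N →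
    0 < σ → 1 ≤ Λ → σ * Λ ≤ 1 → (∀ n ∈ Icc 1 N, ‖c n‖ ≤ K) →
    Integrable (fun v : ℝ => ‖∑ n ∈ Icc 1 N, c n * (gs σ (v - Real.log n) : ℂ)‖ ^ 2) →
    ∑ u ∈ Icc X (2 * X), ‖∑ n ∈ Ioc u (u + h), c n‖ ^ 2 ≤
      C * ((h : ℝ) ^ 2 / X * (∫ v : ℝ, ‖∑ n ∈ Icc 1 N, c n * (gs σ (v - Real.log n) : ℂ)‖ ^ 2) +
        X * K ^ 2 * (1 + X * σ * Λ + N * Real.exp (-(Λ ^ 2 / 2))) ^ 2) := by
  refine ⟨900, by norm_num, ?_⟩
  intro X h N c K σ Λ hX hh hhX hN hσ hΛ hσΛ hK hint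
  have hX0 : (0:ℝ) < X := by exact_mod_cast hX
  have hX1 : (1:ℝ) ≤ X := by exact_mod_cast hX
  have hh0 : (0:ℝ) < h := by exact_mod_cast hh
  have hK0 : 0 ≤ K := (norm_nonneg _).trans (hK 1 (by rw [Finset.mem_Icc]; omega))
  have hL0 : 0 < σ * Λ := by positivity
  set F : ℝ → ℂ := fun v => ∑ n ∈ Icc 1 N, c n * (gs σ (v - Real.log n) : ℂ) with hF
  have hFc : Continuous F := by
    refine continuous_finsetSum _ fun n _ => continuous_const.mul ?_
    exact Complex.continuous_ofReal.comp ((gs_continuous σ).comp (continuous_id.sub continuous_const))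
  set e : ℝ := Real.exp (-(Λ ^ 2 / 2)) with he
  have he0 : 0 < e := Real.exp_pos _
  set B : ℝ := 1 + X * σ * Λ + N * e with hB
  have hB0 : 0 ≤ B := by positivity
  -- the approximation
  have happ : ∀ u ∈ Icc X (2 * X), ‖(∑ n ∈ Ioc u (u + h), c n) -
      ∫ v in (Real.log u)..(Real.log ((u + h : ℕ) : ℝ)), F v‖ ≤ 15 * K * B := by
    intro u hu
    rw [Finset.mem_Icc] at hu
    have hu0 : (0:ℝ) < u := by exact_mod_cast (by omega : 0 < u)
    have huh0 : (0:ℝ) < ((u + h : ℕ) : ℝ) := by exact_mod_cast (by omega : 0 < u + h)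
    have hab : Real.log u ≤ Real.log ((u + h : ℕ) : ℝ) :=
      Real.log_le_log hu0 (by exact_mod_cast (by omega : u ≤ u + h))
    have h1 : ∫ v in (Real.log u)..(Real.log ((u + h : ℕ) : ℝ)), F v =
        ∑ n ∈ Icc 1 N, c n *
          ((∫ v in (Real.log u)..(Real.log ((u + h : ℕ) : ℝ)), gs σ (v - Real.log n) : ℝ) : ℂ) := by
      simp only [hF]
      rw [intervalIntegral.integral_finsetSum]
      · refine Finset.sum_congr rfl fun n _ => ?_
        rw [intervalIntegral.integral_const_mul, intervalIntegral.integral_ofReal]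
      · intro n _
        refine Continuous.intervalIntegrable ?_ _ _
        exact continuous_const.mul (Complex.continuous_ofReal.comp
          ((gs_continuous σ).comp (continuous_id.sub continuous_const)))
    have h2 : ∑ n ∈ Ioc u (u + h), c n = ∑ n ∈ Icc 1 N, c n *
        (((if Real.log u < Real.log n ∧ Real.log n ≤ Real.log ((u + h : ℕ) : ℝ) then 1 else 0 : ℝ)) : ℂ) := by
      have h3 : Ioc u (u + h) = (Icc 1 N).filter
          (fun n : ℕ => Real.log u < Real.log n ∧ Real.log n ≤ Real.log ((u + h : ℕ) : ℝ)) := by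
        ext n
        rw [Finset.mem_filter, Finset.mem_Ioc, Finset.mem_Icc]
        constructor
        · rintro ⟨ha, hb⟩
          have hn0 : (0:ℝ) < n := by exact_mod_cast (by omega : 0 < n)
          refine ⟨⟨by omega, by omega⟩, ?_, ?_⟩
          · exact Real.log_lt_log hu0 (by exact_mod_cast ha)
          · exact Real.log_le_log hn0 (by exact_mod_cast hb)
        · rintro ⟨⟨ha, hb⟩, h4, h5⟩
          have hn0 : (0:ℝ) < n := by exact_mod_cast (by omega : 0 < n)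
          have h6 : (u:ℝ) < n := (Real.log_lt_log_iff hu0 hn0).mp h4
          have h7 : (n:ℝ) ≤ ((u + h : ℕ) : ℝ) := (Real.log_le_log_iff hn0 huh0).mp h5
          exact ⟨by exact_mod_cast h6, by exact_mod_cast h7⟩
      rw [h3, Finset.sum_filter]
      refine Finset.sum_congr rfl fun n _ => ?_
      split_ifs <;> simp
    rw [h1, h2, ← Finset.sum_sub_distrib]
    refine (norm_sum_le _ _).trans ?_
    have h3 : ∀ n ∈ Icc 1 N, ‖c n *
        (((if Real.log u < Real.log n ∧ Real.log n ≤ Real.log ((u + h : ℕ) : ℝ) then 1 else 0 : ℝ)) : ℂ) -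
        c n * ((∫ v in (Real.log u)..(Real.log ((u + h : ℕ) : ℝ)), gs σ (v - Real.log n) : ℝ) : ℂ)‖ ≤
        K * (2 * e + (if |Real.log n - Real.log u| < σ * Λ then 1 else 0) +
          (if |Real.log n - Real.log ((u + h : ℕ) : ℝ)| < σ * Λ then 1 else 0)) := by
      intro n hn
      rw [← mul_sub, norm_mul, ← Complex.ofReal_sub, Complex.norm_real, Real.norm_eq_abs,
        abs_sub_comm]
      exact mul_le_mul (hK n hn) (phi_bound hσ hΛ hab) (abs_nonneg _) hK0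
    refine (Finset.sum_le_sum h3).trans ?_
    rw [← Finset.mul_sum, Finset.sum_add_distrib, Finset.sum_add_distrib, Finset.sum_const,
      Nat.card_Icc, nsmul_eq_mul]
    have hS : ∀ n ∈ Icc 1 N, 1 ≤ n := fun n hn => by
      rw [Finset.mem_Icc] at hn
      omega
    have h4 := count hu0 hL0.le hσΛ (Icc 1 N) hS
    have h5 := count huh0 hL0.le hσΛ (Icc 1 N) hS
    have hu2 : (u:ℝ) ≤ 2 * X := by exact_mod_cast hu.2
    have hu3 : ((u + h : ℕ) : ℝ) ≤ 3 * X := by exact_mod_cast (by omega : u + h ≤ 3 * X)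
    have h6 : (N + 1 - 1 : ℕ) = N := by omega
    rw [h6]
    have h7 : 3 * (u:ℝ) * (σ * Λ) ≤ 6 * (X * (σ * Λ)) := by nlinarith only [hL0, hu2]
    have h8 : 3 * ((u + h : ℕ) : ℝ) * (σ * Λ) ≤ 9 * (X * (σ * Λ)) := by nlinarith only [hL0, hu3]
    have h9 : (0:ℝ) ≤ X * (σ * Λ) := by (clear * - hX hσ hΛ; positivity)
    have h10 : (0:ℝ) ≤ N * e := by (clear * -; positivity)
    have h11 : (N : ℝ) * (2 * e) = 2 * (N * e) := by
      ring
    have hB' : B = 1 + X * (σ * Λ) + N * e := by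
      rw [hB]
      ring
    rw [h11, mul_comm 15 K, mul_assoc K 15 B]
    apply mul_le_mul_of_nonneg_left _ hK0
    rw [hB']
    linarith only [h4, h5, h7, h8, h10]
  -- Cauchy-Schwarz
  have hcs : ∀ u ∈ Icc X (2 * X), ‖∫ v in (Real.log u)..(Real.log ((u + h : ℕ) : ℝ)), F v‖ ^ 2 ≤
      (h / X) * ∫ v in (Real.log u)..(Real.log ((u + h : ℕ) : ℝ)), ‖F v‖ ^ 2 := by
    intro u hu
    rw [Finset.mem_Icc] at hu
    have hu0 : (0:ℝ) < u := by exact_mod_cast (by omega : 0 < u)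
    have hab : Real.log u < Real.log ((u + h : ℕ) : ℝ) :=
      Real.log_lt_log hu0 (by exact_mod_cast (by omega : u < u + h))
    refine (cs hab F hFc).trans ?_
    apply mul_le_mul_of_nonneg_right
    · rw [← Real.log_div (by positivity) hu0.ne']
      have h1 := Real.log_le_sub_one_of_pos (x := ((u + h : ℕ) : ℝ) / u) (by positivity)
      have h2 : ((u + h : ℕ) : ℝ) / u - 1 = h / u := by
        push_cast
        field_simp
        ring
      rw [h2] at h1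
      refine h1.trans ?_
      exact div_le_div_of_nonneg_left hh0.le hX0 (by exact_mod_cast hu.1)
    · exact intervalIntegral.integral_nonneg hab.le fun v _ => by (clear * -; positivity)
  have hcov := cover X h hX (fun v => ‖F v‖ ^ 2) (hFc.norm.pow 2) (fun v => by positivity) hint
  have hpt : ∀ u ∈ Icc X (2 * X), ‖∑ n ∈ Ioc u (u + h), c n‖ ^ 2 ≤
      2 * ((h / X) * ∫ v in (Real.log u)..(Real.log ((u + h : ℕ) : ℝ)), ‖F v‖ ^ 2) +
        2 * (15 * K * B) ^ 2 := by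
    intro u hu
    have h1 := happ u hu
    have h2 := hcs u hu
    set A := ∫ v in (Real.log u)..(Real.log ((u + h : ℕ) : ℝ)), F v with hA
    set D := ∑ n ∈ Ioc u (u + h), c n with hD
    have h3 : ‖D‖ ≤ ‖A‖ + ‖D - A‖ := by
      calc ‖D‖ = ‖A + (D - A)‖ := by rw [add_sub_cancel]
        _ ≤ _ := norm_add_le _ _
    have h4 : ‖D‖ ^ 2 ≤ (‖A‖ + ‖D - A‖) ^ 2 := pow_le_pow_left₀ (norm_nonneg _) h3 2
    have h5 : ‖D - A‖ ^ 2 ≤ (15 * K * B) ^ 2 := pow_le_pow_left₀ (norm_nonneg _) h1 2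
    nlinarith only [h2, h4, h5, sq_nonneg (‖A‖ - ‖D - A‖)]
  refine (Finset.sum_le_sum hpt).trans ?_
  rw [Finset.sum_add_distrib, Finset.sum_const, Nat.card_Icc, nsmul_eq_mul, ← Finset.mul_sum,
    ← Finset.mul_sum]
  have h1 : (h / X : ℝ) * ∑ u ∈ Icc X (2 * X), ∫ v in (Real.log u)..(Real.log ((u + h : ℕ) : ℝ)), ‖F v‖ ^ 2 ≤
      (h / X : ℝ) * (h * ∫ v : ℝ, ‖F v‖ ^ 2) := mul_le_mul_of_nonneg_left hcov (by positivity)
  have h2 : (h / X : ℝ) * (h * ∫ v : ℝ, ‖F v‖ ^ 2) = (h : ℝ) ^ 2 / X * ∫ v : ℝ, ‖F v‖ ^ 2 := by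
    ring
  have h3 : ((2 * X + 1 - X : ℕ) : ℝ) ≤ 2 * X := by
    have : 2 * X + 1 - X ≤ 2 * X := by omega
    exact_mod_cast this
  have h4 : ((2 * X + 1 - X : ℕ) : ℝ) * (2 * (15 * K * B) ^ 2) ≤ (2 * X) * (2 * (15 * K * B) ^ 2) :=
    mul_le_mul_of_nonneg_right h3 (by (clear * -; positivity))
  have h5 : (0:ℝ) ≤ (h : ℝ) ^ 2 / X * ∫ v : ℝ, ‖F v‖ ^ 2 :=
    mul_nonneg (by (clear * - hX hh; positivity)) (integral_nonneg fun v => by (clear * -; positivity))
  calc 2 * ((h / X : ℝ) * ∑ u ∈ Icc X (2 * X), ∫ v in (Real.log u)..(Real.log ((u + h : ℕ) : ℝ)), ‖F v‖ ^ 2) +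
        ((2 * X + 1 - X : ℕ) : ℝ) * (2 * (15 * K * B) ^ 2) ≤
        2 * ((h : ℝ) ^ 2 / X * ∫ v : ℝ, ‖F v‖ ^ 2) + (2 * X) * (2 * (15 * K * B) ^ 2) := by
        linarith only [h1, h2, h4]
    _ ≤ 900 * ((h : ℝ) ^ 2 / X * ∫ v : ℝ, ‖F v‖ ^ 2) + (2 * X) * (2 * (15 * K * B) ^ 2) := by
        linarith only [h5]
    _ = 900 * ((h : ℝ) ^ 2 / X * (∫ v : ℝ, ‖F v‖ ^ 2) + X * K ^ 2 * B ^ 2) := by ring

end Pool.Agent.VM
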