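import Pool.Agent.Lib.VM.Djl
import Pool.Agent.Lib.VM.WinGen
import Pool.Agent.Lib.VK.GaussWin

/-!
# Module DjlWin: D class, large modulus, windows

Let `s1` be the value of `djl ε e1 κ0` (may be taken `≤ 1/100`), `s = s1/100`. `N = 2^14 X`, `c n = (A * ∏ G i) n ex(n a/q)`,
`|c n| ≤ X^s τ(n)^6 ≤ X^(2s) =: K` (`prod_bound`, `tau_small`; `A *` costs one more `τ`).
`σ = (h/X) X^(-s1/2)`, `Λ = log X`, `T = (X/h) X^(s1)`. `VK.gauss_win` (S = Icc 1 N):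
`∫ |∑ c_n gs σ (v - log n)|² dv ≤ ∫_{-T}^{T} |∑ c_n n^(-it)|² dt + (∑|c|)² exp(-σ²T²/2)/σ ≤ X^(2 - s1) + 1` (`σ T = X^(s1/2)`; the hypotheses
of `djl` hold with `s1` by `DCl.mono`). `win_gen`:
`∑_u |...|² ≤ C (h²/X (X^(2-s1) + 1) + X X^(4s) (1 + h X^(-s1/2) log X + N exp(-(log X)²/2))²) ≤ X h² X^(-s)`.
-/

set_option autoImplicit false

open Finset Filter MeasureTheory

namespace Pool.Agent.VM

open Pool.Agent.VK Pool.Agent.HLT

namespace DjlWinAux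

lemma conv_bound {X h q J P : ℕ} {s : ℝ} {e : Fin J → ℕ} {G : Fin J → ArithmeticFunction ℂ}
    {A : ArithmeticFunction ℂ} (H : DCl X h q J P s e G A) {n : ℕ} (hn : 1 ≤ n) :
    ‖(A * ∏ i, G i) n‖ ≤ (X : ℝ) ^ s * (n.divisors.card : ℝ) ^ 6 := by
  rw [ArithmeticFunction.mul_apply]
  have hX : (0:ℝ) ≤ (X:ℝ) ^ s := by positivity
  have hn0 : n ≠ 0 := by omega
  have hτ1 : (1:ℝ) ≤ n.divisors.card := by
    have : 0 < n.divisors.card := Finset.card_pos.mpr ⟨1, Nat.one_mem_divisors.mpr hn0⟩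
    exact_mod_cast this
  refine (norm_sum_le _ _).trans ?_
  have h1 : ∀ x ∈ n.divisorsAntidiagonal, ‖A x.1 * (∏ i, G i) x.2‖ ≤
      (X:ℝ) ^ s * (n.divisors.card:ℝ) ^ 5 := by
    intro x hx
    rw [norm_mul]
    have hx1 := (Nat.mem_divisorsAntidiagonal.mp hx).1
    have hx2 : x.2 ∣ n := ⟨x.1, by rw [← hx1, mul_comm]⟩
    have h2 := prod_bound (Finset.univ) G (fun i _ n => H.bd i n) x.2
    have h3 : (x.2.divisors.card : ℝ) ≤ n.divisors.card := by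
      exact_mod_cast Finset.card_le_card (Nat.divisors_subset_of_dvd hn0 hx2)
    have h4 : (x.2.divisors.card : ℝ) ^ (Finset.univ : Finset (Fin J)).card ≤
        (n.divisors.card:ℝ) ^ 5 := by
      rw [Finset.card_univ, Fintype.card_fin]
      exact (pow_le_pow_left₀ (by positivity) h3 _).trans (pow_le_pow_right₀ hτ1 H.J5)
    exact mul_le_mul (H.Abd x.1) (h2.trans h4) (norm_nonneg _) hX
  refine (Finset.sum_le_card_nsmul _ _ _ h1).trans ?_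
  have h5 : n.divisorsAntidiagonal.card = n.divisors.card := by
    rw [← Nat.map_div_right_divisors, Finset.card_map]
  rw [h5, nsmul_eq_mul]
  apply le_of_eq
  ring

lemma ev_ge (K a : ℝ) (ha : 0 < a) : ∀ᶠ X : ℕ in atTop, K ≤ (X:ℝ) ^ a :=
  ((tendsto_rpow_atTop ha).comp tendsto_natCast_atTop_atTop).eventually_ge_atTop K

lemma ev_log (a : ℝ) (ha : 0 < a) : ∀ᶠ X : ℕ in atTop, Real.log X ≤ (X:ℝ) ^ a := by
  have h := (isLittleO_log_rpow_atTop ha).bound (show (0:ℝ) < 1 by norm_num)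
  filter_upwards [tendsto_natCast_atTop_atTop.eventually h] with X hX
  rw [one_mul] at hX
  have h2 : |(X:ℝ) ^ a| = (X:ℝ) ^ a := abs_of_nonneg (by positivity)
  rw [Real.norm_eq_abs, Real.norm_eq_abs, h2] at hX
  exact (le_abs_self _).trans hX

lemma ev_log_sq (C a : ℝ) (ha : 0 < a) :
    ∀ᶠ X : ℕ in atTop, C * Real.log X ^ 2 ≤ (X:ℝ) ^ a := by
  filter_upwards [ev_log (a / 4) (by positivity), ev_ge C (a / 2) (by positivity),
    eventually_ge_atTop 1] with X h1 h2 h3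
  have hX : (1:ℝ) ≤ X := by exact_mod_cast h3
  have h0 : 0 ≤ Real.log X := Real.log_nonneg hX
  have h4 : Real.log X ^ 2 ≤ (X:ℝ) ^ (a / 2) := by
    have h5 : ((X:ℝ) ^ (a / 4)) ^ 2 = (X:ℝ) ^ (a / 2) := by
      rw [← Real.rpow_natCast, ← Real.rpow_mul (by positivity)]
      congr 1
      push_cast
      ring
    rw [← h5]
    exact pow_le_pow_left₀ h0 h1 2
  calc C * Real.log X ^ 2 ≤ (X:ℝ) ^ (a / 2) * (X:ℝ) ^ (a / 2) :=
        mul_le_mul h2 h4 (by positivity) (by positivity)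
    _ = (X:ℝ) ^ a := by
        rw [← Real.rpow_add (by linarith)]
        congr 1
        ring

lemma ev_exp (K B s : ℝ) (hK : 0 < K) (hs : 0 < s) :
    ∀ᶠ X : ℕ in atTop, K * ((X:ℝ) ^ B * Real.exp (-((X:ℝ) ^ s / 2))) ≤ 1 := by
  have h1 := tendsto_rpow_mul_exp_neg_mul_atTop_nhds_zero (B / s) (1 / 2) (by norm_num)
  have h2 := h1.comp ((tendsto_rpow_atTop hs).comp tendsto_natCast_atTop_atTop)
  have h3 := h2.eventually (gt_mem_nhds (show (0:ℝ) < 1 / K by positivity))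
  filter_upwards [h3, eventually_ge_atTop 1] with X hX h4
  have hX1 : (1:ℝ) ≤ X := by exact_mod_cast h4
  have h5 : (((X:ℝ) ^ s) ^ (B / s)) = (X:ℝ) ^ B := by
    rw [← Real.rpow_mul (by positivity)]
    congr 1
    field_simp
  have h6 : (X:ℝ) ^ B * Real.exp (-((X:ℝ) ^ s / 2)) < 1 / K := by
    have h7 : -(1 / 2) * (X:ℝ) ^ s = -((X:ℝ) ^ s / 2) := by ring
    have h8 : ((X:ℝ) ^ s) ^ (B / s) * Real.exp (-(1 / 2) * (X:ℝ) ^ s) < 1 / K := hX
    rwa [h5, h7] at h8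
  calc K * ((X:ℝ) ^ B * Real.exp (-((X:ℝ) ^ s / 2))) ≤ K * (1 / K) :=
        mul_le_mul_of_nonneg_left h6.le hK.le
    _ = 1 := by field_simp

end DjlWinAux

open DjlWinAux in
theorem djl_win (ε e1 κ0 : ℝ) (hε : 0 < ε) (he1 : 0 < e1) (hκ : 0 < κ0) : ∃ s : ℝ, 0 < s ∧ ∀ᶠ X : ℕ in atTop,
    ∀ (J q h P : ℕ) (e : Fin J → ℕ) (G : Fin J → ArithmeticFunction ℂ) (A : ArithmeticFunction ℂ) (a : ℤ),
    DCl X h q J P s e G A → (X : ℝ) ^ (1 / 6 + ε) ≤ h → (h : ℝ) ≤ (X : ℝ) ^ (2 / 5 : ℝ) →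
    (X : ℝ) ^ κ0 ≤ q → (q : ℝ) ≤ h * (X : ℝ) ^ (-e1) → IsCoprime a (q : ℤ) → P * ∏ i, 2 ^ e i ≤ 2 ^ 14 * X →
    ∑ u ∈ Icc X (2 * X), ‖∑ n ∈ Ioc u (u + h), (A * ∏ i, G i) n * ex (n * (a / q))‖ ^ 2 ≤
      X * (h : ℝ) ^ 2 * (X : ℝ) ^ (-s) := by
  obtain ⟨s0, hs0, hdjl⟩ := djl ε e1 κ0 hε he1 hκ
  obtain ⟨C, hC1, hwin⟩ := win_gen
  obtain ⟨s1, hs1⟩ : ∃ s1, s1 = min s0 (1 / 100) := ⟨_, rfl⟩
  have hs1pos : 0 < s1 := by rw [hs1]; exact lt_min hs0 (by norm_num)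
  have hs10 : s1 ≤ s0 := by rw [hs1]; exact min_le_left _ _
  have hs1c : s1 ≤ 1 / 100 := by rw [hs1]; exact min_le_right _ _
  obtain ⟨s, hs⟩ : ∃ s, s = s1 / 100 := ⟨_, rfl⟩
  have hspos : 0 < s := by rw [hs]; positivity
  obtain ⟨Cτ, hCτ1, htau⟩ := tau_small (s / 12) (by positivity)
  refine ⟨s, hspos, ?_⟩
  filter_upwards [hdjl, ev_ge (Cτ ^ 6 * ((2:ℝ) ^ (14:ℕ)) ^ (s / 2)) (s / 2) (by positivity),
    ev_exp (2 ^ 28) (3 + 4 * s + s1 / 2) s1 (by norm_num) hs1pos,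
    ev_log (s1 / 2) (by positivity), ev_log_sq (6 * C) (s1 - 5 * s) (by rw [hs]; linarith only [hs1pos]),
    (Real.tendsto_log_atTop.comp tendsto_natCast_atTop_atTop).eventually_ge_atTop 10,
    eventually_ge_atTop 1] with X hX1 hX2 hX3 hX4 hX5 hX6 hX7
  intro J q h P e G A a H hh1 hh2 hq1 hq2 hcop hP
  obtain ⟨x, hx⟩ : ∃ x : ℝ, x = X := ⟨_, rfl⟩
  rw [← hx] at hX2 hX3 hX4 hX5 hh1 hh2 hq1 hq2 ⊢
  have hx1 : 1 ≤ x := by rw [hx]; exact_mod_cast hX7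
  have hx0 : 0 < x := by linarith only [hx1]
  obtain ⟨L, hL⟩ : ∃ L : ℝ, L = Real.log x := ⟨_, rfl⟩
  have hL10 : 10 ≤ L := by rw [hL, hx]; exact hX6
  rw [← hL] at hX4 hX5
  -- the size of `h`
  have hhx : (h:ℝ) ≤ x := by
    refine hh2.trans ?_
    calc x ^ (2 / 5 : ℝ) ≤ x ^ (1:ℝ) := Real.rpow_le_rpow_of_exponent_le hx1 (by norm_num)
      _ = x := Real.rpow_one x
  have hh6 : x ^ (1 / 6 : ℝ) ≤ h :=
    (Real.rpow_le_rpow_of_exponent_le hx1 (by linarith only [hε])).trans hh1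
  have hh1' : (1:ℝ) ≤ h := (Real.one_le_rpow hx1 (by norm_num)).trans hh6
  have hhN : 1 ≤ h := by exact_mod_cast hh1'
  have hhX : h ≤ X := by
    rw [hx] at hhx
    exact_mod_cast hhx
  obtain ⟨N, hN⟩ : ∃ N : ℕ, N = 2 ^ 14 * X := ⟨_, rfl⟩
  have hNx : (N:ℝ) = 2 ^ 14 * x := by
    rw [hN, hx]
    push_cast
    ring
  -- the coefficients
  obtain ⟨c, hc⟩ : ∃ c : ℕ → ℂ, c = fun n => (A * ∏ i, G i) n * ex (n * (a / q)) := ⟨_, rfl⟩
  obtain ⟨K, hK⟩ : ∃ K : ℝ, K = x ^ (2 * s) := ⟨_, rfl⟩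
  have hK0 : 0 < K := by rw [hK]; (clear * - hx1; positivity)
  have hcK : ∀ n ∈ Icc 1 N, ‖c n‖ ≤ K := by
    intro n hn
    rw [Finset.mem_Icc] at hn
    have h1 := conv_bound H hn.1
    rw [← hx] at h1
    have h2 := htau n hn.1
    have hnN : (n:ℝ) ≤ 2 ^ (14:ℕ) * x := by
      rw [← hNx]
      exact_mod_cast hn.2
    have hn1 : (1:ℝ) ≤ n := by exact_mod_cast hn.1
    have h3 : (n.divisors.card:ℝ) ^ 6 ≤ x ^ s := by
      have h4 : (n.divisors.card:ℝ) ^ 6 ≤ (Cτ * (n:ℝ) ^ (s / 12)) ^ 6 :=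
        pow_le_pow_left₀ (by (clear * -; positivity)) h2 6
      have h5 : (Cτ * (n:ℝ) ^ (s / 12)) ^ 6 = Cτ ^ 6 * (n:ℝ) ^ (s / 2) := by
        rw [mul_pow, ← Real.rpow_natCast ((n:ℝ) ^ (s / 12)), ← Real.rpow_mul (by (clear * - hn1; positivity))]
        congr 2
        push_cast
        ring
      have h6 : (n:ℝ) ^ (s / 2) ≤ ((2:ℝ) ^ (14:ℕ)) ^ (s / 2) * x ^ (s / 2) := by
        rw [← Real.mul_rpow (by (clear * -; positivity)) hx0.le]
        exact Real.rpow_le_rpow (by (clear * - hn1; positivity)) hnN (by (clear * - hspos; positivity))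
      calc (n.divisors.card:ℝ) ^ 6 ≤ Cτ ^ 6 * (n:ℝ) ^ (s / 2) := h5 ▸ h4
        _ ≤ Cτ ^ 6 * (((2:ℝ) ^ (14:ℕ)) ^ (s / 2) * x ^ (s / 2)) :=
            mul_le_mul_of_nonneg_left h6 (by (clear * - hCτ1; positivity))
        _ = (Cτ ^ 6 * ((2:ℝ) ^ (14:ℕ)) ^ (s / 2)) * x ^ (s / 2) := by ring
        _ ≤ x ^ (s / 2) * x ^ (s / 2) := mul_le_mul_of_nonneg_right hX2 (by (clear * - hx1; positivity))
        _ = x ^ s := by
            rw [← Real.rpow_add hx0]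
            congr 1
            ring
    rw [hc]
    show ‖(A * ∏ i, G i) n * ex (n * (a / q))‖ ≤ K
    rw [norm_mul, norm_ex, mul_one]
    calc ‖(A * ∏ i, G i) n‖ ≤ x ^ s * (n.divisors.card : ℝ) ^ 6 := h1
      _ ≤ x ^ s * x ^ s := mul_le_mul_of_nonneg_left h3 (by (clear * - hx1; positivity))
      _ = K := by
          rw [hK, ← Real.rpow_add hx0]
          congr 1
          ring
  -- the integral
  obtain ⟨σ, hσ⟩ : ∃ σ : ℝ, σ = h / x * x ^ (-(s1 / 2)) := ⟨_, rfl⟩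
  have hσ0 : 0 < σ := by rw [hσ]; (clear * - hx1 hhN; positivity)
  obtain ⟨T, hT⟩ : ∃ T : ℝ, T = x / h * x ^ s0 := ⟨_, rfl⟩
  have hT0 : 0 < T := by rw [hT]; (clear * - hx1 hhN; positivity)
  have hint := hX1 J q h P N e G A a (H.mono hX7 (by rw [hs]; linarith only [hs0, hs10])) (by rw [← hx]; exact hh1)
    (by rw [← hx]; exact hh2) (by rw [← hx]; exact hq1) (by rw [← hx]; exact hq2) hcop
    (by rw [hN]; exact hP)
  rw [← hx, ← hT] at hint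
  obtain ⟨hint1, hint2⟩ := gauss_win (Icc 1 N) (fun n hn => (Finset.mem_Icc.mp hn).1) c σ T hσ0 hT0
  have hσT : x ^ s1 ≤ σ ^ 2 * T ^ 2 := by
    have h1 : σ * T = x ^ (s0 - s1 / 2) := by
      rw [hσ, hT, Real.rpow_neg hx0.le, Real.rpow_sub hx0]
      have : (h:ℝ) ≠ 0 := by linarith only [hh1']
      field_simp
    have h2 : σ ^ 2 * T ^ 2 = x ^ (2 * s0 - s1) := by
      rw [← mul_pow, h1, ← Real.rpow_natCast, ← Real.rpow_mul hx0.le]
      congr 1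
      push_cast
      ring
    rw [h2]
    exact Real.rpow_le_rpow_of_exponent_le hx1 (by linarith only [hs10])
  have hσinv : 1 / σ ≤ x ^ (1 + s1 / 2) := by
    rw [hσ, Real.rpow_neg hx0.le, Real.rpow_add hx0, Real.rpow_one]
    have h1 : 1 / ((h:ℝ) / x * (x ^ (s1 / 2))⁻¹) = x * x ^ (s1 / 2) / h := by
      have : (h:ℝ) ≠ 0 := by linarith only [hh1']
      field_simp
    rw [h1]
    exact div_le_self (by (clear * - hx1; positivity)) hh1'
  have hsum : ∑ n ∈ Icc 1 N, ‖c n‖ ≤ 2 ^ 14 * x * K := by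
    refine (Finset.sum_le_card_nsmul _ _ _ hcK).trans ?_
    rw [Nat.card_Icc, nsmul_eq_mul, Nat.add_sub_cancel, hNx]
  have hsum0 : 0 ≤ ∑ n ∈ Icc 1 N, ‖c n‖ := Finset.sum_nonneg fun _ _ => norm_nonneg _
  have herr : (∑ n ∈ Icc 1 N, ‖c n‖) ^ 2 * (Real.exp (-(σ ^ 2 * T ^ 2 / 2)) / σ) ≤ 1 := by
    have h1 : Real.exp (-(σ ^ 2 * T ^ 2 / 2)) ≤ Real.exp (-(x ^ s1 / 2)) := by
      apply Real.exp_le_exp.mpr
      linarith only [hσT]
    have h2 : Real.exp (-(σ ^ 2 * T ^ 2 / 2)) / σ ≤ Real.exp (-(x ^ s1 / 2)) * x ^ (1 + s1 / 2) := by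
      rw [div_eq_mul_one_div]
      exact mul_le_mul h1 hσinv (by (clear * - hσ0; positivity)) (by (clear * -; positivity))
    have h3 : (∑ n ∈ Icc 1 N, ‖c n‖) ^ 2 ≤ (2 ^ 14 * x * K) ^ 2 := pow_le_pow_left₀ hsum0 hsum 2
    have h4 : (2 ^ 14 * x * K) ^ 2 = 2 ^ 28 * x ^ (2 + 4 * s) := by
      have h5 : K ^ 2 = x ^ (4 * s) := by
        rw [hK, ← Real.rpow_natCast, ← Real.rpow_mul hx0.le]
        congr 1
        push_cast
        ring
      have h6 : x ^ 2 = x ^ (2:ℝ) := by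
        rw [← Real.rpow_natCast]
        norm_num
      rw [mul_pow, mul_pow, h5, h6, Real.rpow_add hx0]
      ring
    calc (∑ n ∈ Icc 1 N, ‖c n‖) ^ 2 * (Real.exp (-(σ ^ 2 * T ^ 2 / 2)) / σ)
        ≤ (2 ^ 28 * x ^ (2 + 4 * s)) * (Real.exp (-(x ^ s1 / 2)) * x ^ (1 + s1 / 2)) :=
          mul_le_mul (h4 ▸ h3) h2 (by (clear * - hσ0; positivity)) (by (clear * - hx1; positivity))
      _ = 2 ^ 28 * (x ^ (3 + 4 * s + s1 / 2) * Real.exp (-(x ^ s1 / 2))) := by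
          have h7 : x ^ (3 + 4 * s + s1 / 2) = x ^ (2 + 4 * s) * x ^ (1 + s1 / 2) := by
            rw [← Real.rpow_add hx0]
            congr 1
            ring
          rw [h7]
          ring
      _ ≤ 1 := hX3
  obtain ⟨I, hI⟩ : ∃ I : ℝ, I = ∫ v : ℝ, ‖∑ n ∈ Icc 1 N, c n * (gs σ (v - Real.log n) : ℂ)‖ ^ 2 :=
    ⟨_, rfl⟩
  have hIle : I ≤ 2 * x ^ (2 - s1) := by
    have h1 : (∫ t in (-T)..T, ‖∑ n ∈ Icc 1 N, c n * nit n t‖ ^ 2) ≤ x ^ (2 - s1) := by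
      rw [hc]
      exact hint.trans (Real.rpow_le_rpow_of_exponent_le hx1 (by linarith only [hs10]))
    have h2 : 1 ≤ x ^ (2 - s1) := Real.one_le_rpow hx1 (by linarith only [hs1c])
    rw [hI]
    linarith only [hint2, herr, h1, h2]
  -- from Gaussian to sharp windows
  have hfin := hwin X h N c K σ L hX7 hhN hhX (by rw [hN]; omega) hσ0 (by linarith only [hL10]) ?_ hcK hint1
  · rw [← hI, ← hx, hNx] at hfin
    have hgoal : ∑ u ∈ Icc X (2 * X), ‖∑ n ∈ Ioc u (u + h), (A * ∏ i, G i) n * ex (n * (a / q))‖ ^ 2 =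
        ∑ u ∈ Icc X (2 * X), ‖∑ n ∈ Ioc u (u + h), c n‖ ^ 2 := by rw [hc]
    rw [hgoal]
    refine hfin.trans ?_
    have hxσ : x * σ * L = h * x ^ (-(s1 / 2)) * L := by
      rw [hσ]
      field_simp
    obtain ⟨y, hy⟩ : ∃ y : ℝ, y = h * x ^ (-(s1 / 2)) * L := ⟨_, rfl⟩
    rw [hxσ, ← hy]
    have hexp1 : 2 ^ 14 * x * Real.exp (-(L ^ 2 / 2)) ≤ 1 := by
      have h1 : x = Real.exp L := by rw [hL, Real.exp_log hx0]
      have h2 : (2:ℝ) ^ 14 ≤ Real.exp 14 := by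
        have h3 : (2:ℝ) ≤ Real.exp 1 := by
          have := Real.add_one_le_exp (1:ℝ)
          linarith only [this]
        calc (2:ℝ) ^ 14 ≤ (Real.exp 1) ^ 14 := pow_le_pow_left₀ (by norm_num) h3 14
          _ = Real.exp 14 := by
              rw [← Real.exp_nat_mul]
              norm_num
      calc 2 ^ 14 * x * Real.exp (-(L ^ 2 / 2))
          ≤ Real.exp 14 * x * Real.exp (-(L ^ 2 / 2)) := by gcongr
        _ = Real.exp (14 + L + -(L ^ 2 / 2)) := by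
            rw [Real.exp_add, Real.exp_add, ← h1]
        _ ≤ Real.exp 0 := by
            apply Real.exp_le_exp.mpr
            nlinarith only [hL10]
        _ = 1 := Real.exp_zero
    have hy2 : 2 ≤ y := by
      have h1 : 1 ≤ h * x ^ (-(s1 / 2)) := by
        calc (1:ℝ) = x ^ (s1 / 2) * x ^ (-(s1 / 2)) := by
              rw [← Real.rpow_add hx0, add_neg_cancel, Real.rpow_zero]
          _ ≤ h * x ^ (-(s1 / 2)) := by
              refine mul_le_mul_of_nonneg_right ?_ (by (clear * - hx1; positivity))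
              exact (Real.rpow_le_rpow_of_exponent_le hx1 (by linarith only [hs1c])).trans hh6
      rw [hy]
      nlinarith only [hs1c, hs, hspos, hL10, h1]
    have hsq : (1 + y + 2 ^ 14 * x * Real.exp (-(L ^ 2 / 2))) ^ 2 ≤ 4 * y ^ 2 := by
      have h0 : 0 ≤ 2 ^ 14 * x * Real.exp (-(L ^ 2 / 2)) := by (clear * - hx1; positivity)
      have h1 : 1 + y + 2 ^ 14 * x * Real.exp (-(L ^ 2 / 2)) ≤ 2 * y := by linarith only [hexp1, hy2]
      calc (1 + y + 2 ^ 14 * x * Real.exp (-(L ^ 2 / 2))) ^ 2 ≤ (2 * y) ^ 2 :=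
            pow_le_pow_left₀ (by linarith only [hs1c, hs, hspos, hy2, h0]) h1 2
        _ = 4 * y ^ 2 := by ring
    have hysq : y ^ 2 = (h:ℝ) ^ 2 * x ^ (-s1) * L ^ 2 := by
      have h5 : (x ^ (-(s1 / 2))) ^ 2 = x ^ (-s1) := by
        rw [← Real.rpow_natCast, ← Real.rpow_mul hx0.le]
        congr 1
        push_cast
        ring
      rw [hy, mul_pow, mul_pow, h5]
    have hKsq : K ^ 2 = x ^ (4 * s) := by
      rw [hK, ← Real.rpow_natCast, ← Real.rpow_mul hx0.le]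
      congr 1
      push_cast
      ring
    have hA : (h:ℝ) ^ 2 / x * I ≤ 2 * ((h:ℝ) ^ 2 * x * x ^ (4 * s - s1)) := by
      have h1 : (h:ℝ) ^ 2 / x * I ≤ (h:ℝ) ^ 2 / x * (2 * x ^ (2 - s1)) :=
        mul_le_mul_of_nonneg_left hIle (by (clear * - hx1 hhN; positivity))
      have h2 : (h:ℝ) ^ 2 / x * (2 * x ^ (2 - s1)) = 2 * ((h:ℝ) ^ 2 * x * x ^ (-s1)) := by
        have h3 : x ^ (2 - s1) = x ^ 2 * x ^ (-s1) := by
          rw [sub_eq_add_neg, Real.rpow_add hx0]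
          congr 1
          rw [← Real.rpow_natCast]
          norm_num
        rw [h3]
        field_simp
      have h4 : x ^ (-s1) ≤ x ^ (4 * s - s1) :=
        Real.rpow_le_rpow_of_exponent_le hx1 (by linarith only [hspos])
      rw [h2] at h1
      refine h1.trans ?_
      gcongr
    have hB : x * K ^ 2 * (1 + y + 2 ^ 14 * x * Real.exp (-(L ^ 2 / 2))) ^ 2 ≤
        4 * ((h:ℝ) ^ 2 * x * x ^ (4 * s - s1)) * L ^ 2 := by
      have h1 : x * K ^ 2 * (1 + y + 2 ^ 14 * x * Real.exp (-(L ^ 2 / 2))) ^ 2 ≤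
          x * K ^ 2 * (4 * y ^ 2) := mul_le_mul_of_nonneg_left hsq (by (clear * - hx1 hK0; positivity))
      have h2 : x * K ^ 2 * (4 * y ^ 2) = 4 * ((h:ℝ) ^ 2 * x * x ^ (4 * s - s1)) * L ^ 2 := by
        rw [hysq, hKsq, sub_eq_add_neg, Real.rpow_add hx0]
        ring
      rw [← h2]
      exact h1
    have hL1 : 1 ≤ L ^ 2 := by nlinarith only [hL10]
    have hM0 : 0 ≤ (h:ℝ) ^ 2 * x * x ^ (4 * s - s1) := by (clear * - hx1 hhN; positivity)
    calc C * ((h:ℝ) ^ 2 / x * I + x * K ^ 2 * (1 + y + 2 ^ 14 * x * Real.exp (-(L ^ 2 / 2))) ^ 2)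
        ≤ C * (2 * ((h:ℝ) ^ 2 * x * x ^ (4 * s - s1)) * L ^ 2 +
            4 * ((h:ℝ) ^ 2 * x * x ^ (4 * s - s1)) * L ^ 2) := by
          apply mul_le_mul_of_nonneg_left _ (by linarith only [hC1])
          refine add_le_add (hA.trans ?_) hB
          exact le_mul_of_one_le_right (by (clear * - hx1 hhN; positivity)) hL1
      _ = (h:ℝ) ^ 2 * x * x ^ (4 * s - s1) * (6 * C * L ^ 2) := by ring
      _ ≤ (h:ℝ) ^ 2 * x * x ^ (4 * s - s1) * x ^ (s1 - 5 * s) :=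
          mul_le_mul_of_nonneg_left hX5 hM0
      _ = x * (h : ℝ) ^ 2 * x ^ (-s) := by
          have h1 : x ^ (-s) = x ^ (4 * s - s1) * x ^ (s1 - 5 * s) := by
            rw [← Real.rpow_add hx0]
            congr 1
            ring
          rw [h1]
          ring
  · -- `σ Λ ≤ 1`
    have h1 : σ ≤ x ^ (-(s1 / 2)) := by
      rw [hσ]
      have h2 : (h:ℝ) / x ≤ 1 := (div_le_one hx0).mpr hhx
      exact mul_le_of_le_one_left (by (clear * - hx1; positivity)) h2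
    calc σ * L ≤ x ^ (-(s1 / 2)) * x ^ (s1 / 2) :=
          mul_le_mul h1 hX4 (by linarith only [hL10]) (by (clear * - hx1; positivity))
      _ = 1 := by rw [← Real.rpow_add hx0, neg_add_cancel, Real.rpow_zero]

end Pool.Agent.VM
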