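import Mathlib

/-!
# Module Expo4: the exponent inequality, four factors

Take `s = min ε (min e1 (min c 1)) / 1000` (any small enough multiple; `linarith` does every step). Suppose
`1 - s < j + k + w`, `w = ∑ v i`. `m_D`, `v_D` are the sums over `D`; `O(s)` below is at most `50 s`.
(1) `hM` with `D = univ \ {i}`: `v i ≥ th - k - 4 s` (both branches, see Expo3), so `v i ≥ 3 s`.
(2) `hC` with `D = {i}`: `w ≥ th + 2 v i - 4 s`.
(3) `hH` with `D = univ \ {l}`: the branch `0` contradicts `v l ≤ n l - c`; so `2 w ≤ 1 - th - n l + 3 v l + 4 s`; sum over `l`: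
    `8 w ≤ 4 - 4 th - (1 - s) + 3 w + 16 s`, so `5 w ≤ 3 - 4 th + 17 s`.
Case `k ≤ 1/25`: (1) gives `w ≥ 4 th - 4/25 - 16 s`; with (3): `20 th - 4/5 ≤ 3 - 4 th + O(s)`, so `24 th ≤ 3.8 + O(s)`,
    contradiction (`th > 1/6`, `24 th > 4`).
Case `k > 1/25`: for a pair `D` (`v_D ≥ 3 s` by (1)) `hC` gives (a) `w ≥ th + 2 v_D - 2 s` or (b) `2 m_D ≥ 1 + k + 2 v_D - w - 2 s`.
    `D` and its complement `D'` cannot both satisfy (a) (sum: `2 w ≥ 2 th + 2 w - 4 s`), nor both (b)
    (sum: `2 (1+s) ≥ 2 + 2 k - 4 s`). So exactly one of them, call it heavy, does not satisfy (a): then it satisfies (b) and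
    the light one satisfies (a): `v_light ≤ (w - th)/2 + s`, `v_heavy ≥ (w + th)/2 - s`, `m_heavy ≥ (1 + th + k)/2 - O(s)`.
    The pairs: `{0,1}|{2,3}`, `{0,2}|{1,3}`, `{0,3}|{1,2}`: eight cases. The three heavy pairs form a triangle `{a,b},{b,c},{a,c}` or
    a star `{d,a},{d,b},{d,c}`.
    Triangle: `2 (n a + n b + n c) ≥ 3 (1 + th + k)/2 - O(s)`, so `n d ≤ 1 - 3 (1 + th + k)/4 + O(s)`, but `n d ≥ th - s`:
    `7 th + 3 k ≤ 1 + O(s)`, contradiction.
    Star: `3 v d + (w - v d) ≥ 3 (w + th)/2 - O(s)`, so `v d ≥ (w + 3 th)/4 - O(s)`; with (2) `w ≥ th + (w + 3 th)/2 - O(s)`, so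
    `w ≥ 5 th - O(s)`, contradiction with (3) (`25 th ≤ 3 - 4 th + O(s)` is false).
-/

set_option autoImplicit false

open Finset

namespace Pool.Agent.VM

theorem expo4 (ε e1 c : ℝ) (hε : 0 < ε) (he1 : 0 < e1) (hc : 0 < c) : ∃ s : ℝ, 0 < s ∧
    ∀ (th k j : ℝ) (n v : Fin 4 → ℝ), 1 / 6 + ε ≤ th → th ≤ 2 / 5 → 0 ≤ k → k ≤ th - e1 →
    (∀ i, th - s ≤ n i) → (∀ i, n i ≤ (1 - th) / 2 + s) → 1 - s ≤ ∑ i, n i → ∑ i, n i ≤ 1 + s →
    (∀ i, 0 ≤ v i) → (∀ i, v i ≤ n i - c) →
    (∀ D : Finset (Fin 4), D.Nonempty → j ≤ max (1 - th) (∑ i ∈ D, n i - k) - ∑ i ∈ D, v i + s) →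
    (∀ D : Finset (Fin 4), D.Nonempty → 3 * s ≤ ∑ i ∈ D, v i →
      j ≤ max (1 - th - k) (2 * ∑ i ∈ D, n i - 2 * k) - 2 * ∑ i ∈ D, v i + s) →
    (∀ D : Finset (Fin 4), D.Nonempty →
      j ≤ ∑ i ∈ D, n i - k - ∑ i ∈ D, v i + max 0 (1 - th - 2 * ∑ i ∈ D, v i) + s) →
    j ≤ 1 - th + s → j + k + ∑ i, v i ≤ 1 - s := by
  refine ⟨min ε (min e1 (min c 1)) / 1000, by positivity, ?_⟩
  intro th k j n v hth hth' hk hk' hn1 hn2 hN1 hN2 hv0 hvc hM hC hH hj
  set s := min ε (min e1 (min c 1)) / 1000 with hs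
  have hs0 : 0 < s := by positivity
  have hsε : 1000 * s ≤ ε := by
    have := min_le_left ε (min e1 (min c 1))
    rw [hs]; linarith only [this]
  have hse : 1000 * s ≤ e1 := by
    have := (min_le_right ε (min e1 (min c 1))).trans (min_le_left _ _)
    rw [hs]; linarith only [this]
  have hsc : 1000 * s ≤ c := by
    have := (min_le_right ε (min e1 (min c 1))).trans
      ((min_le_right _ _).trans (min_le_left _ _))
    rw [hs]; linarith only [this]
  have hs1 : 1000 * s ≤ 1 := by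
    have := (min_le_right ε (min e1 (min c 1))).trans
      ((min_le_right _ _).trans (min_le_right _ _))
    rw [hs]; linarith only [hth, hth', hs, hs0, hsε]
  clear_value s
  by_contra hcon
  push Not at hcon
  have herase : ∀ (f : Fin 4 → ℝ) (i : Fin 4), ∑ x ∈ univ.erase i, f x = ∑ x, f x - f i := by
    intro f i
    rw [← Finset.sum_erase_add univ f (mem_univ i)]
    ring
  have hne : ∀ i : Fin 4, (univ.erase i).Nonempty := by decide
  -- (1)
  have h1 : ∀ i, th - k - 4 * s ≤ v i := by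
    intro i
    have h := hM (univ.erase i) (hne i)
    rw [herase, herase] at h
    have h2 := hn1 i
    rcases le_total (∑ i, n i - n i - k) (1 - th) with h3 | h3
    · rw [max_eq_left h3] at h; linarith only [hs0, hcon, h]
    · rw [max_eq_right h3] at h; linarith only [hk, hN2, hcon, h, h2]
  have h1' : ∀ i, 3 * s ≤ v i := fun i => by
    have := h1 i
    linarith only [hk', hs0, hse, this]
  -- (2)
  have h2 : ∀ i, th + 2 * v i - 4 * s ≤ ∑ i, v i := by
    intro i
    have h := hC {i} (singleton_nonempty i) (by rw [sum_singleton]; exact h1' i)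
    rw [sum_singleton, sum_singleton] at h
    have h4 := hn2 i
    rcases le_total (2 * n i - 2 * k) (1 - th - k) with h3 | h3
    · rw [max_eq_left h3] at h; linarith only [hs0, hcon, h]
    · rw [max_eq_right h3] at h; linarith only [hk, hcon, h, h4]
  -- (3)
  have h3 : ∀ l, 2 * ∑ i, v i ≤ 1 - th - n l + 3 * v l + 4 * s := by
    intro l
    have h := hH (univ.erase l) (hne l)
    rw [herase, herase] at h
    have h4 := hvc l
    rcases le_total (1 - th - 2 * (∑ i, v i - v l)) 0 with h5 | h5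
    · rw [max_eq_left h5] at h; exfalso; linarith only [hN2, hs0, hsc, hcon, h, h4]
    · rw [max_eq_right h5] at h; linarith only [hN2, hs0, hcon, h]
  rw [Fin.sum_univ_four] at hcon hN1 hN2
  have h3' : 5 * (v 0 + v 1 + v 2 + v 3) ≤ 3 - 4 * th + 17 * s := by
    have a0 := h3 0
    have a1 := h3 1
    have a2 := h3 2
    have a3 := h3 3
    rw [Fin.sum_univ_four] at a0 a1 a2 a3
    linarith only [hN1, a0, a1, a2, a3]
  have b0 := h2 0
  have b1 := h2 1
  have b2 := h2 2
  have b3 := h2 3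
  rw [Fin.sum_univ_four] at b0 b1 b2 b3
  have c0 := h1 0
  have c1 := h1 1
  have c2 := h1 2
  have c3 := h1 3
  rcases le_or_gt k (1 / 25) with hk25 | hk25
  · linarith only [hth, hs0, hsε, h3', b0, c0, c1, c2, c3, hk25]
  -- pairs
  have hpair : ∀ a b : Fin 4, a ≠ b →
      (th + 2 * (v a + v b) - 2 * s ≤ v 0 + v 1 + v 2 + v 3) ∨
      (1 + k + 2 * (v a + v b) - (v 0 + v 1 + v 2 + v 3) - 2 * s ≤ 2 * (n a + n b)) := by
    intro a b hab
    have ha := h1' a
    have hb := h1' b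
    have h := hC {a, b} ⟨a, mem_insert_self _ _⟩ (by
      rw [sum_pair hab]; linarith only [hs0, ha, hb, hv0 a, hv0 b])
    rw [sum_pair hab, sum_pair hab] at h
    rcases le_total (2 * (n a + n b) - 2 * k) (1 - th - k) with h3 | h3
    · rw [max_eq_left h3] at h; left; linarith only [hcon, h]
    · rw [max_eq_right h3] at h; right; linarith only [hcon, h]
  have p01 := hpair 0 1 (by decide)
  have p23 := hpair 2 3 (by decide)
  have p02 := hpair 0 2 (by decide)
  have p13 := hpair 1 3 (by decide)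
  have p03 := hpair 0 3 (by decide)
  have p12 := hpair 1 2 (by decide)
  have d0 := hn1 0
  have d1 := hn1 1
  have d2 := hn1 2
  have d3 := hn1 3
  clear hpair h1 h1' h2 h3 hM hC hH herase hne hn1 hn2 hv0 hvc
  rcases p01 with p01 | p01 <;> rcases p23 with p23 | p23
  · linarith only [hth, hs0, hsε, h3', b0, b1, b2, b3, p01]
  · rcases p02 with p02 | p02 <;> rcases p13 with p13 | p13
    · linarith only [hth, hs0, hsε, h3', b0, b1, b2, b3, p01]
    · rcases p03 with p03 | p03 <;> rcases p12 with p12 | p12 <;> linarith only [hth, hs0, hsε, h3', b0, b1, b2, b3, p01]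
    · rcases p03 with p03 | p03 <;> rcases p12 with p12 | p12 <;> linarith only [hth, hs0, hsε, h3', b0, b1, b2, b3, p01]
    · linarith only [hth, hs0, hsε, h3', b0, b1, b2, b3, p01]
  · rcases p02 with p02 | p02 <;> rcases p13 with p13 | p13
    · linarith only [hth, hs0, hsε, h3', b0, b1, b2, b3, p23]
    · rcases p03 with p03 | p03 <;> rcases p12 with p12 | p12 <;> linarith only [hth, hs0, hsε, h3', b0, b1, b2, b3, p23]
    · rcases p03 with p03 | p03 <;> rcases p12 with p12 | p12 <;> linarith only [hth, hs0, hsε, h3', b0, b1, b2, b3, p23]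
    · linarith only [hth, hs0, hsε, h3', b0, b1, b2, b3, p23]
  · linarith only [hth, hN2, hs0, hsε, h3', b0, b1, b2, b3, c0, p01, p23]

end Pool.Agent.VM
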