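import Mathlib

/-!
# Module Expo5: the exponent inequality, five factors

Take `s = min ε (min e1 (min c 1)) / 1000` (any small enough multiple; `linarith` does every step). Suppose
`1 - s < j + k + w`, `w = ∑ v i`. `m_D`, `v_D` are the sums over `D`; `O(s)` below is at most `50 s`.
(1) `hM` with `D = univ \ {i}`: `v i ≥ th - k - 4 s` (both branches, see Expo3), so `v i ≥ 3 s`.
(3) `hH` with `D = univ \ {l}`: the branch `0` contradicts `v l ≤ n l - c`; so `2 w ≤ 1 - th - n l + 3 v l + 4 s`; sum over `l`: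
    `10 w ≤ 5 - 5 th - (1 - s) + 3 w + 20 s`, so `7 w ≤ 4 - 5 th + 21 s`.
Case `k ≤ 1/25`: (1) gives `w ≥ 5 th - 1/5 - 20 s`; with (3): `35 th - 1.4 ≤ 4 - 5 th + O(s)`, `40 th ≤ 5.4 + O(s)`,
    contradiction (`40 th > 6.6`).
Case `k > 1/25`: let `D` be a pair, `D'` its complement (three elements); `v_D, v_D' ≥ 3 s` by (1). `hC` gives for each of them
    (a) `w ≥ th + 2 v - 2 s` or (b) `2 m ≥ 1 + k + 2 v - w - 2 s`. They cannot both satisfy (a), nor both (b)
    (sum: `2 (1+s) ≥ 2 + 2 k - 4 s`). If `D` does not satisfy (a), then `D'` satisfies (a), `D` satisfies (b),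
    `v_D ≥ (w + th)/2 - s`, `m_D ≥ (1 + th + k)/2 - O(s)`, so `m_D' ≤ (1 - th - k)/2 + O(s)`, but `m_D' ≥ 3 th - 3 s`:
    `7 th + k ≤ 1 + O(s)`, contradiction (`th > 1/6`). So every pair satisfies (a): `v i + v l ≤ (w - th)/2 + s`; sum over the ten
    pairs: `4 w ≤ 5 (w - th) + 10 s`, so `w ≥ 5 th - 10 s`, contradiction with (3) (`35 th ≤ 4 - 5 th + O(s)` is false).
-/

set_option autoImplicit false

open Finset

namespace Pool.Agent.VM

theorem expo5 (ε e1 c : ℝ) (hε : 0 < ε) (he1 : 0 < e1) (hc : 0 < c) : ∃ s : ℝ, 0 < s ∧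
    ∀ (th k j : ℝ) (n v : Fin 5 → ℝ), 1 / 6 + ε ≤ th → th ≤ 2 / 5 → 0 ≤ k → k ≤ th - e1 →
    (∀ i, th - s ≤ n i) → (∀ i, n i ≤ (1 - th) / 2 + s) → 1 - s ≤ ∑ i, n i → ∑ i, n i ≤ 1 + s →
    (∀ i, 0 ≤ v i) → (∀ i, v i ≤ n i - c) →
    (∀ D : Finset (Fin 5), D.Nonempty → j ≤ max (1 - th) (∑ i ∈ D, n i - k) - ∑ i ∈ D, v i + s) →
    (∀ D : Finset (Fin 5), D.Nonempty → 3 * s ≤ ∑ i ∈ D, v i →
      j ≤ max (1 - th - k) (2 * ∑ i ∈ D, n i - 2 * k) - 2 * ∑ i ∈ D, v i + s) →
    (∀ D : Finset (Fin 5), D.Nonempty →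
      j ≤ ∑ i ∈ D, n i - k - ∑ i ∈ D, v i + max 0 (1 - th - 2 * ∑ i ∈ D, v i) + s) →
    j ≤ 1 - th + s → j + k + ∑ i, v i ≤ 1 - s := by
  refine ⟨min ε (min e1 (min c 1)) / 1000, by positivity, ?_⟩
  intro th k j n v hth hth' hk hk' hn1 hn2 hN1 hN2 hv0 hvc hM hC hH hj
  set s := min ε (min e1 (min c 1)) / 1000 with hs
  have hs0 : 0 < s := by positivity
  have hsε : 1000 * s ≤ ε := by
    have := min_le_left ε (min e1 (min c 1))
    rw [hs]; linarith only [this]
  have hse : 1000 * s ≤ e1 := by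
    have := (min_le_right ε (min e1 (min c 1))).trans (min_le_left _ _)
    rw [hs]; linarith only [this]
  have hsc : 1000 * s ≤ c := by
    have := (min_le_right ε (min e1 (min c 1))).trans
      ((min_le_right _ _).trans (min_le_left _ _))
    rw [hs]; linarith only [this]
  have hs1 : 1000 * s ≤ 1 := by
    have := (min_le_right ε (min e1 (min c 1))).trans
      ((min_le_right _ _).trans (min_le_right _ _))
    rw [hs]; linarith only [hth, hth', hs, hs0, hsε]
  clear_value s
  by_contra hcon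
  push Not at hcon
  have herase : ∀ (f : Fin 5 → ℝ) (i : Fin 5), ∑ x ∈ univ.erase i, f x = ∑ x, f x - f i := by
    intro f i
    rw [← Finset.sum_erase_add univ f (mem_univ i)]
    ring
  have hcompl : ∀ (f : Fin 5 → ℝ) (D : Finset (Fin 5)), ∑ x ∈ Dᶜ, f x = ∑ x, f x - ∑ x ∈ D, f x := by
    intro f D
    have := Finset.sum_add_sum_compl D f
    linarith only [this]
  have hne : ∀ i : Fin 5, (univ.erase i).Nonempty := by decide
  -- (1)
  have h1 : ∀ i, th - k - 4 * s ≤ v i := by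
    intro i
    have h := hM (univ.erase i) (hne i)
    rw [herase, herase] at h
    have h2 := hn1 i
    rcases le_total (∑ i, n i - n i - k) (1 - th) with h3 | h3
    · rw [max_eq_left h3] at h; linarith only [hs0, hcon, h]
    · rw [max_eq_right h3] at h; linarith only [hk, hN2, hcon, h, h2]
  have h1' : ∀ i, 3 * s ≤ v i := fun i => by
    have := h1 i
    linarith only [hk', hs0, hse, this]
  -- (3)
  have h3 : ∀ l, 2 * ∑ i, v i ≤ 1 - th - n l + 3 * v l + 4 * s := by
    intro l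
    have h := hH (univ.erase l) (hne l)
    rw [herase, herase] at h
    have h4 := hvc l
    rcases le_total (1 - th - 2 * (∑ i, v i - v l)) 0 with h5 | h5
    · rw [max_eq_left h5] at h; exfalso; linarith only [hN2, hs0, hsc, hcon, h, h4]
    · rw [max_eq_right h5] at h; linarith only [hN2, hs0, hcon, h]
  have h3' : 7 * ∑ i, v i ≤ 4 - 5 * th + 21 * s := by
    have a0 := h3 0
    have a1 := h3 1
    have a2 := h3 2
    have a3 := h3 3
    have a4 := h3 4
    have e1 := Fin.sum_univ_five v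
    have e2 := Fin.sum_univ_five n
    linarith only [hN1, a0, a1, a2, a3, a4, e1, e2]
  have e1 := Fin.sum_univ_five v
  have c0 := h1 0
  have c1 := h1 1
  have c2 := h1 2
  have c3 := h1 3
  have c4 := h1 4
  rcases le_or_gt k (1 / 25) with hk25 | hk25
  · linarith only [hth, hk', hs0, hsε, hse, h3', e1, c0, c1, c2, c3, c4, hk25]
  -- a set of two or three elements
  have hvD : ∀ D : Finset (Fin 5), D.Nonempty → 3 * s ≤ ∑ i ∈ D, v i := by
    rintro D ⟨i, hi⟩
    exact (h1' i).trans (single_le_sum (f := v) (fun x _ => hv0 x) hi)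
  have hset : ∀ D : Finset (Fin 5), D.Nonempty →
      (th + 2 * ∑ i ∈ D, v i - 2 * s ≤ ∑ i, v i) ∨
      (1 + k + 2 * ∑ i ∈ D, v i - ∑ i, v i - 2 * s ≤ 2 * ∑ i ∈ D, n i) := by
    intro D hD
    have h := hC D hD (hvD D hD)
    rcases le_total (2 * ∑ i ∈ D, n i - 2 * k) (1 - th - k) with h3 | h3
    · rw [max_eq_left h3] at h; left; linarith only [hcon, h]
    · rw [max_eq_right h3] at h; right; linarith only [hcon, h]
  have hpair : ∀ a b : Fin 5, a ≠ b → th + 2 * (v a + v b) - 2 * s ≤ ∑ i, v i := by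
    intro a b hab
    have hD : ({a, b} : Finset (Fin 5)).Nonempty := ⟨a, mem_insert_self _ _⟩
    have hcard : ({a, b} : Finset (Fin 5))ᶜ.card = 3 := by
      rw [card_compl, card_pair hab]; rfl
    have hD' : ({a, b} : Finset (Fin 5))ᶜ.Nonempty := card_pos.mp (by omega)
    have q1 := hset _ hD
    have q2 := hset _ hD'
    have q3 : 3 * (th - s) ≤ ∑ i ∈ ({a, b} : Finset (Fin 5))ᶜ, n i := by
      have := card_nsmul_le_sum (({a, b} : Finset (Fin 5))ᶜ) n (th - s) (fun x _ => hn1 x)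
      rw [hcard, nsmul_eq_mul] at this
      push_cast at this
      linarith only [this]
    rw [hcompl, hcompl] at q2
    rw [hcompl] at q3
    rw [sum_pair hab, sum_pair hab] at q1 q2
    rw [sum_pair hab] at q3
    rcases q1 with q1 | q1
    · exact q1
    · exfalso
      rcases q2 with q2 | q2
      · linarith only [hth, hk', hN2, hs0, hsε, hse, h3', e1, c0, c1, c2, c3, c4, q3, q1, q2]
      · linarith only [hth, hk', hN2, hs0, hsε, hse, h3', e1, c0, c1, c2, c3, c4, q1, q2]
  have p01 := hpair 0 1 (by decide)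
  have p02 := hpair 0 2 (by decide)
  have p03 := hpair 0 3 (by decide)
  have p04 := hpair 0 4 (by decide)
  have p12 := hpair 1 2 (by decide)
  have p13 := hpair 1 3 (by decide)
  have p14 := hpair 1 4 (by decide)
  have p23 := hpair 2 3 (by decide)
  have p24 := hpair 2 4 (by decide)
  have p34 := hpair 3 4 (by decide)
  linarith only [hth, hk', hs0, hsε, hse, h3', e1, c0, p01, p02, p03, p04, p12]

end Pool.Agent.VM
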