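import Pool.Agent.Lib.VM.Expo3
import Pool.Agent.Lib.VM.Expo4
import Pool.Agent.Lib.VM.Expo5

/-!
# Module Expo: the exponent inequality for `3 ≤ J ≤ 5`

Take the minimum of the three values of `s`. Monotonicity in `s`: if the hypotheses hold with `s` and `s ≤ s₀` then they hold with
`s₀` for (`th - s₀ ≤ n i`, ...), (`hC` is required only if `3 s₀ ≤ v_D`), and the conclusion with `s₀` is stronger. So this is
immediate: apply `expoJ` with its own `s₀` and weaken.
-/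

set_option autoImplicit false

open Finset

namespace Pool.Agent.VM

theorem expo (ε e1 c : ℝ) (hε : 0 < ε) (he1 : 0 < e1) (hc : 0 < c) : ∃ s : ℝ, 0 < s ∧
    ∀ (J : ℕ) (th k j : ℝ) (n v : Fin J → ℝ), 3 ≤ J → J ≤ 5 → 1 / 6 + ε ≤ th → th ≤ 2 / 5 → 0 ≤ k → k ≤ th - e1 →
    (∀ i, th - s ≤ n i) → (∀ i, n i ≤ (1 - th) / 2 + s) → 1 - s ≤ ∑ i, n i → ∑ i, n i ≤ 1 + s →
    (∀ i, 0 ≤ v i) → (∀ i, v i ≤ n i - c) →
    (∀ D : Finset (Fin J), D.Nonempty → j ≤ max (1 - th) (∑ i ∈ D, n i - k) - ∑ i ∈ D, v i + s) →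
    (∀ D : Finset (Fin J), D.Nonempty → 3 * s ≤ ∑ i ∈ D, v i →
      j ≤ max (1 - th - k) (2 * ∑ i ∈ D, n i - 2 * k) - 2 * ∑ i ∈ D, v i + s) →
    (∀ D : Finset (Fin J), D.Nonempty →
      j ≤ ∑ i ∈ D, n i - k - ∑ i ∈ D, v i + max 0 (1 - th - 2 * ∑ i ∈ D, v i) + s) →
    j ≤ 1 - th + s → j + k + ∑ i, v i ≤ 1 - s := by
  obtain ⟨s3, h3, H3⟩ := expo3 ε e1 c hε he1 hc
  obtain ⟨s4, h4, H4⟩ := expo4 ε e1 c hε he1 hc
  obtain ⟨s5, h5, H5⟩ := expo5 ε e1 c hε he1 hc
  refine ⟨min s3 (min s4 s5), lt_min h3 (lt_min h4 h5), ?_⟩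
  obtain ⟨s, hs⟩ : ∃ s, s = min s3 (min s4 s5) := ⟨_, rfl⟩
  rw [← hs]
  have l3 : s ≤ s3 := hs ▸ min_le_left _ _
  have l4 : s ≤ s4 := hs ▸ (min_le_right _ _).trans (min_le_left _ _)
  have l5 : s ≤ s5 := hs ▸ (min_le_right _ _).trans (min_le_right _ _)
  intro J th k j n v hJ1 hJ2 a1 a2 a3 a4 a5 a6 a7 a8 a9 a10 a11 a12 a13 a14
  interval_cases J
  · have := H3 th k j n v a1 a2 a3 a4 (fun i => by linarith [a5 i]) (fun i => by linarith [a6 i])
      (by linarith) (by linarith) a9 a10 (fun D hD => by linarith [a11 D hD])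
      (fun D hD h => by linarith [a12 D hD (by linarith)]) (fun D hD => by linarith [a13 D hD]) (by linarith)
    linarith
  · have := H4 th k j n v a1 a2 a3 a4 (fun i => by linarith [a5 i]) (fun i => by linarith [a6 i])
      (by linarith) (by linarith) a9 a10 (fun D hD => by linarith [a11 D hD])
      (fun D hD h => by linarith [a12 D hD (by linarith)]) (fun D hD => by linarith [a13 D hD]) (by linarith)
    linarith
  · have := H5 th k j n v a1 a2 a3 a4 (fun i => by linarith [a5 i]) (fun i => by linarith [a6 i])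
      (by linarith) (by linarith) a9 a10 (fun D hD => by linarith [a11 D hD])
      (fun D hD h => by linarith [a12 D hD (by linarith)]) (fun D hD => by linarith [a13 D hD]) (by linarith)
    linarith

end Pool.Agent.VM
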