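import Pool.Agent.Lib.HLT.TauPow
import Pool.Agent.Lib.VL.VdC

/-!
# Module KernAP: the sum of `n^(-iv)` over a residue class

Sketch. Split `Ioc M M'` into the five pieces `Ioc N (min (2N) M')`, `N = 2^i M`, `i = 0..4`. In each piece the elements
of the class `b` are `n₀ + q m`, `0 ≤ m ≤ m₀`, with `N < n₀`, `n₀ + q m₀ ≤ 2 N` (or there is none). Cases:
(a) `q |v| ≤ N`: `VK.class_all` (file VK/KL.lean) gives `≤ 7 N / (|v| q)`;
(b) `N < q |v|` and `q^2 |v| ≤ N^2`: `VL.class_vdc'` (file VL/VdC.lean) gives `≤ 28 √|v| (1 + log N)`;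
(c) `q^2 |v| > N^2`: the number of elements is `≤ N / q + 1 ≤ √|v| + 1 ≤ 2 √|v|`.
`log N ≤ log M + 4`.
-/

set_option autoImplicit false

open Finset Filter

namespace Pool.Agent.VM

open Pool.Agent.VK Pool.Agent.HLT

namespace KernAPAux

/-- The elements of a residue class in an interval form an arithmetic progression. -/
lemma class_prog {q N N' b : ℕ} (hq : 1 ≤ q) (g : ℕ → ℂ) :
    (∑ n ∈ (Ioc N N').filter (fun n => n % q = b), g n = 0) ∨
    ∃ n₀ m₀ : ℕ, N < n₀ ∧ n₀ + q * m₀ ≤ N' ∧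
      ∑ n ∈ (Ioc N N').filter (fun n => n % q = b), g n =
        ∑ m ∈ range (m₀ + 1), g (n₀ + q * m) := by
  rcases ((Ioc N N').filter (fun n => n % q = b)).eq_empty_or_nonempty with h | h
  · left
    rw [h, sum_empty]
  · right
    obtain ⟨n₀, hn₀, hmin⟩ := Finset.exists_min_image _ (fun n => n) h
    rw [mem_filter, mem_Ioc] at hn₀
    obtain ⟨⟨h1, h2⟩, h3⟩ := hn₀
    obtain ⟨m₀, hm₀⟩ : ∃ m₀, m₀ = (N' - n₀) / q := ⟨_, rfl⟩
    have hM1 : q * m₀ ≤ N' - n₀ := by
      rw [hm₀]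
      exact Nat.mul_div_le _ _
    have hM2 : ∀ m, n₀ + q * m ≤ N' → m ≤ m₀ := by
      intro m hm
      rw [hm₀, Nat.le_div_iff_mul_le hq]
      rw [mul_comm m q]
      omega
    refine ⟨n₀, m₀, h1, by omega, ?_⟩
    have key : ∀ n, n₀ ≤ n → n % q = b → n₀ + q * ((n - n₀) / q) = n := by
      intro n hn hnb
      have h4 : q ∣ n - n₀ := (Nat.modEq_iff_dvd' hn).1 (by rw [Nat.ModEq, h3, hnb])
      rw [Nat.mul_div_cancel' h4]
      omega
    refine sum_bij' (fun n _ => (n - n₀) / q) (fun m _ => n₀ + q * m) ?_ ?_ ?_ ?_ ?_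
    · intro n hn
      have hn' := hmin n hn
      rw [mem_filter, mem_Ioc] at hn
      rw [mem_range, Nat.lt_succ_iff]
      refine hM2 _ ?_
      rw [key n hn' hn.2]
      exact hn.1.2
    · intro m hm
      rw [mem_range, Nat.lt_succ_iff] at hm
      rw [mem_filter, mem_Ioc]
      have h4 := Nat.mul_le_mul_left q hm
      refine ⟨⟨?_, ?_⟩, ?_⟩
      · exact lt_of_lt_of_le h1 (Nat.le_add_right _ _)
      · exact le_trans (Nat.add_le_add_left h4 n₀) (by omega)
      · rw [Nat.add_mul_mod_self_left, h3]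
    · intro n hn
      have hn' := hmin n hn
      rw [mem_filter, mem_Ioc] at hn
      exact key n hn' hn.2
    · intro m _
      show (n₀ + q * m - n₀) / q = m
      rw [Nat.add_sub_cancel_left, Nat.mul_div_cancel_left _ (by omega)]
    · intro n hn
      have hn' := hmin n hn
      rw [mem_filter, mem_Ioc] at hn
      show g n = g (n₀ + q * ((n - n₀) / q))
      rw [key n hn' hn.2]

lemma one_piece {q N N' b : ℕ} {v : ℝ} (hq : 1 ≤ q) (hN : 1 ≤ N) (hN' : N' ≤ 2 * N)
    (hv : 1 ≤ |v|) :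
    ‖∑ n ∈ (Ioc N N').filter (fun n => n % q = b), nit n v‖ ≤
      28 * (N / (|v| * q) + Real.sqrt |v| * (1 + Real.log N)) := by
  have hq0 : (0 : ℝ) < q := by exact_mod_cast hq
  have hN1 : (1 : ℝ) ≤ N := by exact_mod_cast hN
  have hN0 : (0 : ℝ) < N := by linarith
  have hv0 : 0 < |v| := by linarith
  have hlog : 0 ≤ Real.log N := Real.log_nonneg hN1
  have hs1 : 1 ≤ Real.sqrt |v| := Real.one_le_sqrt.2 hv
  have hA : (0 : ℝ) ≤ N / (|v| * q) := by positivity
  have hB : Real.sqrt |v| ≤ Real.sqrt |v| * (1 + Real.log N) := by nlinarith only [hlog, hs1]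
  have hB0 : 0 ≤ Real.sqrt |v| * (1 + Real.log N) := by linarith only [hs1, hB]
  rcases class_prog (N := N) (N' := N') (b := b) hq (fun n => nit n v) with h | ⟨n₀, m₀, h1, h2, h3⟩
  · rw [h, norm_zero]
    positivity
  · rw [h3]
    rcases le_or_gt ((q : ℝ) * |v|) N with h4 | h4
    · have h5 := KLAux.class_all (q := q) (n₀ := n₀) (N := N) hq h1.le hN hv h4 m₀ (h2.trans hN')
      linarith only [hs1, hA, hB, h5]
    · rcases le_or_gt ((q : ℝ) ^ 2 * |v|) ((N : ℝ) ^ 2) with h5 | h5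
      · have h6 := Pool.Agent.VL.VdCAux.class_vdc' (q := q) (n₀ := n₀) (N := N) hq h1.le hN hv m₀
          (h2.trans hN') h4.le h5
        linarith only [hA, h6]
      · have h6 : ‖∑ m ∈ range (m₀ + 1), nit (n₀ + q * m) v‖ ≤ m₀ + 1 := by
          refine (norm_sum_le _ _).trans ?_
          have h7 : ∀ m ∈ range (m₀ + 1), ‖nit (n₀ + q * m) v‖ ≤ 1 := by
            intro m _
            exact (norm_nit (by omega) _).le
          refine (sum_le_sum h7).trans (le_of_eq ?_)
          rw [sum_const, card_range, nsmul_eq_mul, mul_one]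
          push_cast
          ring
        have h7 : (q : ℝ) * m₀ ≤ N := by
          have h8 : q * m₀ ≤ N := by omega
          exact_mod_cast h8
        have h8 : (m₀ : ℝ) ≤ Real.sqrt |v| := by
          apply Real.le_sqrt_of_sq_le
          have h9 : ((q : ℝ) * m₀) ^ 2 ≤ (q : ℝ) ^ 2 * |v| :=
            (pow_le_pow_left₀ (by positivity) h7 2).trans h5.le
          rw [mul_pow] at h9
          exact le_of_mul_le_mul_left h9 (by positivity)
        linarith only [hs1, hA, hB, h6, h8]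

lemma many {q M b : ℕ} {v : ℝ} (hq : 1 ≤ q) (hM : 1 ≤ M) (hv : 1 ≤ |v|) (j : ℕ) :
    ∀ M' : ℕ, M' ≤ 2 ^ j * M →
    ‖∑ n ∈ (Ioc M M').filter (fun n => n % q = b), nit n v‖ ≤
      j * (28 * (2 ^ j * M / (|v| * q) + Real.sqrt |v| * (1 + Real.log (2 ^ j * M)))) := by
  have hq0 : (0 : ℝ) < q := by exact_mod_cast hq
  have hM1 : (1 : ℝ) ≤ M := by exact_mod_cast hM
  have hv0 : 0 < |v| := by linarith
  have hmono : ∀ i : ℕ, (2 ^ i * M / (|v| * q) + Real.sqrt |v| * (1 + Real.log (2 ^ i * M)) : ℝ) ≤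
      2 ^ (i + 1) * M / (|v| * q) + Real.sqrt |v| * (1 + Real.log (2 ^ (i + 1) * M)) := by
    intro i
    have h1 : (2 : ℝ) ^ i * M ≤ 2 ^ (i + 1) * M := by
      rw [pow_succ]
      have : (0 : ℝ) ≤ 2 ^ i * M := by positivity
      nlinarith only [this]
    have h2 : (0 : ℝ) < 2 ^ i * M := by positivity
    have h3 := Real.log_le_log h2 h1
    have h4 : (2 ^ i * M / (|v| * q) : ℝ) ≤ 2 ^ (i + 1) * M / (|v| * q) :=
      div_le_div_of_nonneg_right h1 (by positivity)
    have h5 := mul_le_mul_of_nonneg_left (add_le_add_right h3 1) (Real.sqrt_nonneg |v|)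
    linarith
  have hpos : ∀ i : ℕ, (0 : ℝ) ≤
      2 ^ i * M / (|v| * q) + Real.sqrt |v| * (1 + Real.log (2 ^ i * M)) := by
    intro i
    have h1 : (1 : ℝ) ≤ 2 ^ i * M := by
      have : (1 : ℝ) ≤ 2 ^ i := one_le_pow₀ (by norm_num)
      nlinarith only [hM1, this]
    have := Real.log_nonneg h1
    positivity
  induction j with
  | zero =>
    intro M' h
    rw [Ioc_eq_empty (by omega), filter_empty, sum_empty, norm_zero]
    simp
  | succ j ih =>
    intro M' h
    have hj : (0 : ℝ) ≤ j := Nat.cast_nonneg j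
    rcases le_or_gt M' (2 ^ j * M) with h1 | h1
    · refine (ih M' h1).trans ?_
      have h2 := hmono j
      have h3 := hpos j
      push_cast
      nlinarith only [h2, h3]
    · have h2 : (Ioc M M').filter (fun n => n % q = b) =
          (Ioc M (2 ^ j * M)).filter (fun n => n % q = b) ∪
            (Ioc (2 ^ j * M) M').filter (fun n => n % q = b) := by
        rw [← filter_union, Ioc_union_Ioc_eq_Ioc _ h1.le]
        exact Nat.le_mul_of_pos_left M (by positivity)
      have h3 : Disjoint ((Ioc M (2 ^ j * M)).filter (fun n => n % q = b))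
          ((Ioc (2 ^ j * M) M').filter (fun n => n % q = b)) := by
        rw [disjoint_left]
        intro n hn hn'
        rw [mem_filter, mem_Ioc] at hn hn'
        omega
      rw [h2, sum_union h3]
      refine (norm_add_le _ _).trans ?_
      have h4 := ih (2 ^ j * M) le_rfl
      have h5 : 1 ≤ 2 ^ j * M := Nat.one_le_iff_ne_zero.2 (by positivity)
      have h6 := one_piece (q := q) (N := 2 ^ j * M) (N' := M') (b := b) (v := v) hq h5
        (by rw [pow_succ] at h; linarith only [h]) hv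
      push_cast at h6
      have h7 := hmono j
      have h8 := hpos j
      push_cast
      nlinarith only [h4, h6, h7]

end KernAPAux

theorem kern_ap : ∃ C : ℝ, 1 ≤ C ∧ ∀ (q M M' b : ℕ) (v : ℝ), 1 ≤ q → 1 ≤ M → M' ≤ 32 * M → 1 ≤ |v| →
    ‖∑ n ∈ (Ioc M M').filter (fun n => n % q = b), nit n v‖ ≤
      C * (M / (q * |v|) + Real.sqrt |v| * (1 + Real.log M)) := by
  refine ⟨4480, by norm_num, ?_⟩
  intro q M M' b v hq hM hM' hv
  have h := KernAPAux.many (q := q) (M := M) (b := b) (v := v) hq hM hv 5 M' (by omega)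
  refine h.trans ?_
  have hq0 : (0 : ℝ) < q := by exact_mod_cast hq
  have hM1 : (1 : ℝ) ≤ M := by exact_mod_cast hM
  have hv0 : 0 < |v| := by linarith
  have hlog : 0 ≤ Real.log M := Real.log_nonneg hM1
  have h1 : Real.log ((2 : ℝ) ^ 5 * M) = Real.log (2 ^ 5) + Real.log M :=
    Real.log_mul (by norm_num) (by linarith)
  have h2 : Real.log ((2 : ℝ) ^ 5) ≤ 31 := by
    have := Real.log_le_sub_one_of_pos (show (0 : ℝ) < 2 ^ 5 by norm_num)
    linarith
  have h3 : (2 : ℝ) ^ 5 * M / (|v| * q) = 32 * (M / (q * |v|)) := by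
    rw [mul_comm |v| (q : ℝ)]
    ring
  have h4 : Real.sqrt |v| * (1 + Real.log ((2 : ℝ) ^ 5 * M)) ≤
      32 * (Real.sqrt |v| * (1 + Real.log M)) := by
    rw [h1]
    have h5 : 1 + (Real.log ((2 : ℝ) ^ 5) + Real.log M) ≤ 32 * (1 + Real.log M) := by linarith only [hlog, h2]
    have h6 := mul_le_mul_of_nonneg_left h5 (Real.sqrt_nonneg |v|)
    linarith only [h6]
  rw [h3]
  have h7 : (0 : ℝ) ≤ M / (q * |v|) := by positivity
  calc ((5 : ℕ) : ℝ) * (28 * (32 * (M / (q * |v|)) +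
        Real.sqrt |v| * (1 + Real.log ((2 : ℝ) ^ 5 * M))))
      ≤ ((5 : ℕ) : ℝ) * (28 * (32 * (M / (q * |v|)) +
        32 * (Real.sqrt |v| * (1 + Real.log M)))) :=
        mul_le_mul_of_nonneg_left (mul_le_mul_of_nonneg_left (add_le_add_right h4 _)
          (by norm_num)) (Nat.cast_nonneg 5)
    _ = 4480 * (M / (q * |v|) + Real.sqrt |v| * (1 + Real.log M)) := by
        push_cast
        ring

end Pool.Agent.VM
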