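import Pool.Agent.Lib.VM.Defs
import Pool.Agent.Lib.VM.KernAP

/-!
# Module HmAP: Halasz-Montgomery inequality with residue classes

Sketch. One class `b` first: `z_t = ∑_{n ∈ S, n % q = b} f(n) n^(-it)`. Then
`Z := ∑_{t ∈ P} |z_t|^2 = ∑_n f(n) ∑_t conj(z_t) n^(-it) ≤ (∑_{n ∈ S_b} |f n|^2)^(1/2) (∑_{n ∈ Ioc M (32M), n % q = b} |∑_t conj(z_t) n^(-it)|^2)^(1/2)`,
and the last sum is `∑_{t,t'} conj(z_t) z_{t'} K(t - t')`, `K(v) = ∑_{n ∈ Ioc M (32 M), n % q = b} nit n v`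
(`nit n t * conj (nit n t') = nit n (t - t')` for `n ≥ 1`), at most `Z * max_t ∑_{t'} |K(t - t')|` (use
`2|z_t z_t'| ≤ |z_t|^2 + |z_t'|^2` and `|K(-v)| = |K(v)|`). So `Z ≤ (∑_{S_b} |f|^2) * max_t ∑_{t'} |K(t-t')|`.
`|K(0)| ≤ 31 M / q + 1`; for `t' ≠ t`, `|t - t'| ≥ 1`, `kern_ap` gives `≤ C (M/(q |t-t'|) + √T0 (1 + log M))`
(if `q ≤ 1` etc. nothing special); since `P` is 1-separated inside an interval of length `T0`,
`∑_{t' ≠ t} 1/|t - t'| ≤ 2 ∑_{1 ≤ j ≤ T0} 1/j ≤ 2 (1 + log T0)` (the `j`-th point to the right of `t` is at distance `≥ j`;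
or: `|t-t'| ≥ ⌊|t-t'|⌋ =: j ≥ 1`, each `j` is taken at most once on each side). Sum over `b < q`.
-/

set_option autoImplicit false

open Finset Filter

namespace Pool.Agent.VM

open Pool.Agent.VK Pool.Agent.HLT

namespace HmAPAux

lemma nit_add {n : ℕ} (hn : 1 ≤ n) (s t : ℝ) : nit n (s + t) = nit n s * nit n t := by
  have h0 : ((n : ℝ) : ℂ) ≠ 0 := by
    rw [Ne, Complex.ofReal_eq_zero, Nat.cast_eq_zero]
    omega
  unfold nit
  rw [← Complex.cpow_add _ _ h0]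
  congr 1
  push_cast
  ring

lemma nit_mul_conj {n : ℕ} (hn : 1 ≤ n) (t t' : ℝ) :
    nit n t * (starRingEnd ℂ) (nit n t') = nit n (t - t') := by
  have h1 : nit n t' * (starRingEnd ℂ) (nit n t') = 1 := by
    rw [Complex.mul_conj, Complex.normSq_eq_norm_sq, norm_nit hn]
    norm_num
  have h2 : nit n t = nit n (t - t') * nit n t' := by
    rw [← nit_add hn, sub_add_cancel]
  rw [h2, mul_assoc, h1, mul_one]

/-- duality -/
theorem dual (W S : Finset ℕ) (hS : S ⊆ W) (f : ℕ → ℂ) (a : ℕ → ℝ → ℂ) (P : Finset ℝ) {D : ℝ}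
    (hD : 0 ≤ D)
    (hK : ∀ t ∈ P, ∑ t' ∈ P, ‖∑ n ∈ W, a n t * (starRingEnd ℂ) (a n t')‖ ≤ D) :
    ∑ t ∈ P, ‖∑ n ∈ S, f n * a n t‖ ^ 2 ≤ (∑ n ∈ S, ‖f n‖ ^ 2) * D := by
  set z : ℝ → ℂ := fun t => ∑ n ∈ S, f n * a n t with hz
  set g : ℕ → ℂ := fun n => ∑ t ∈ P, (starRingEnd ℂ) (z t) * a n t with hg
  set K : ℝ → ℝ → ℂ := fun t t' => ∑ n ∈ W, a n t * (starRingEnd ℂ) (a n t') with hKd
  set Z : ℝ := ∑ t ∈ P, ‖z t‖ ^ 2 with hZ
  set F : ℝ := ∑ n ∈ S, ‖f n‖ ^ 2 with hF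
  have hZ0 : 0 ≤ Z := Finset.sum_nonneg fun t _ => sq_nonneg _
  have hF0 : 0 ≤ F := Finset.sum_nonneg fun t _ => sq_nonneg _
  have e1 : (Z : ℂ) = ∑ n ∈ S, f n * g n := by
    have : (Z : ℂ) = ∑ t ∈ P, (starRingEnd ℂ) (z t) * z t := by
      rw [hZ]
      push_cast
      refine Finset.sum_congr rfl fun t _ => ?_
      rw [mul_comm, Complex.mul_conj, Complex.normSq_eq_norm_sq]
      push_cast
      rfl
    rw [this]
    have h2 : ∀ t ∈ P, (starRingEnd ℂ) (z t) * z t =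
        ∑ n ∈ S, f n * ((starRingEnd ℂ) (z t) * a n t) := by
      intro t _
      nth_rewrite 2 [hz]
      simp only
      rw [Finset.mul_sum]
      refine Finset.sum_congr rfl fun n _ => ?_
      ring
    rw [Finset.sum_congr rfl h2, Finset.sum_comm]
    refine Finset.sum_congr rfl fun n _ => ?_
    rw [← Finset.mul_sum]
  have e2 : Z ≤ ∑ n ∈ S, ‖f n‖ * ‖g n‖ := by
    have h1 : Z = ‖(Z : ℂ)‖ := by
      rw [Complex.norm_real, Real.norm_of_nonneg hZ0]
    rw [h1, e1]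
    refine (norm_sum_le _ _).trans (Finset.sum_le_sum fun n _ => ?_)
    rw [norm_mul]
  have e3 : Z ^ 2 ≤ F * ∑ n ∈ S, ‖g n‖ ^ 2 :=
    (pow_le_pow_left₀ hZ0 e2 2).trans (Finset.sum_mul_sq_le_sq_mul_sq S _ _)
  have Ksym : ∀ t t', ‖K t t'‖ = ‖K t' t‖ := by
    intro t t'
    have : K t' t = (starRingEnd ℂ) (K t t') := by
      simp only [hKd, map_sum, map_mul, Complex.conj_conj]
      refine Finset.sum_congr rfl fun n _ => mul_comm _ _
    rw [this, Complex.norm_conj]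
  have e4 : ∑ n ∈ W, ‖g n‖ ^ 2 ≤ Z * D := by
    have h1 : ((∑ n ∈ W, ‖g n‖ ^ 2 : ℝ) : ℂ) =
        ∑ t ∈ P, ∑ t' ∈ P, (starRingEnd ℂ) (z t) * z t' * K t t' := by
      have h2 : ((∑ n ∈ W, ‖g n‖ ^ 2 : ℝ) : ℂ) = ∑ n ∈ W, ∑ t ∈ P, ∑ t' ∈ P,
          (starRingEnd ℂ) (z t) * z t' * (a n t * (starRingEnd ℂ) (a n t')) := by
        push_cast
        refine Finset.sum_congr rfl fun n _ => ?_
        have h3 : ((‖g n‖ : ℝ) : ℂ) ^ 2 = g n * (starRingEnd ℂ) (g n) := by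
          rw [Complex.mul_conj, Complex.normSq_eq_norm_sq]
          push_cast
          rfl
        rw [h3]
        simp only [hg, map_sum, map_mul, Complex.conj_conj]
        rw [Finset.sum_mul_sum]
        refine Finset.sum_congr rfl fun t _ => Finset.sum_congr rfl fun t' _ => ?_
        ring
      rw [h2, Finset.sum_comm]
      refine Finset.sum_congr rfl fun t _ => ?_
      rw [Finset.sum_comm]
      refine Finset.sum_congr rfl fun t' _ => ?_
      exact (Finset.mul_sum W (fun n => a n t * (starRingEnd ℂ) (a n t'))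
        ((starRingEnd ℂ) (z t) * z t')).symm
    have h2 : ∑ n ∈ W, ‖g n‖ ^ 2 = ‖((∑ n ∈ W, ‖g n‖ ^ 2 : ℝ) : ℂ)‖ := by
      rw [Complex.norm_real, Real.norm_of_nonneg (Finset.sum_nonneg fun n _ => sq_nonneg _)]
    rw [h2, h1]
    have h3 : ‖∑ t ∈ P, ∑ t' ∈ P, (starRingEnd ℂ) (z t) * z t' * K t t'‖ ≤
        ∑ t ∈ P, ∑ t' ∈ P, (1 / 2 * (‖z t‖ ^ 2 * ‖K t t'‖) + 1 / 2 * (‖z t'‖ ^ 2 * ‖K t' t‖)) := by
      refine (norm_sum_le _ _).trans (Finset.sum_le_sum fun t _ => ?_)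
      refine (norm_sum_le _ _).trans (Finset.sum_le_sum fun t' _ => ?_)
      rw [norm_mul, norm_mul, Complex.norm_conj, ← Ksym t t']
      have h4 : ‖z t‖ * ‖z t'‖ ≤ 1 / 2 * ‖z t‖ ^ 2 + 1 / 2 * ‖z t'‖ ^ 2 := by
        nlinarith only [sq_nonneg (‖z t‖ - ‖z t'‖)]
      have h5 := mul_le_mul_of_nonneg_right h4 (norm_nonneg (K t t'))
      linarith only [h5]
    refine h3.trans ?_
    have h6 : ∑ t ∈ P, ∑ t' ∈ P, (1 / 2 * (‖z t‖ ^ 2 * ‖K t t'‖) +
        1 / 2 * (‖z t'‖ ^ 2 * ‖K t' t‖)) = ∑ t ∈ P, ‖z t‖ ^ 2 * ∑ t' ∈ P, ‖K t t'‖ := by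
      simp only [Finset.sum_add_distrib]
      rw [Finset.sum_comm (f := fun t t' => 1 / 2 * (‖z t'‖ ^ 2 * ‖K t' t‖)),
        ← Finset.sum_add_distrib]
      refine Finset.sum_congr rfl fun t _ => ?_
      rw [← Finset.sum_add_distrib, Finset.mul_sum]
      refine Finset.sum_congr rfl fun t' _ => ?_
      ring
    rw [h6, hZ, Finset.sum_mul]
    exact Finset.sum_le_sum fun t ht => mul_le_mul_of_nonneg_left (hK t ht) (sq_nonneg _)
  have e5 : ∑ n ∈ S, ‖g n‖ ^ 2 ≤ ∑ n ∈ W, ‖g n‖ ^ 2 :=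
    Finset.sum_le_sum_of_subset_of_nonneg hS fun n _ _ => sq_nonneg _
  have e6 : Z ^ 2 ≤ F * (Z * D) := e3.trans (mul_le_mul_of_nonneg_left (e5.trans e4) hF0)
  rcases hZ0.eq_or_lt with h | h
  · rw [← h]
    exact mul_nonneg hF0 hD
  · have e7 : Z * Z ≤ Z * (F * D) := by nlinarith only [e6]
    exact le_of_mul_le_mul_left e7 h

theorem half (Q : Finset ℝ) (T0 : ℝ) (hT : 1 ≤ T0) (g : ℝ → ℝ) (hg : ∀ x ∈ Q, 1 ≤ g x ∧ g x ≤ T0)
    (hs : ∀ x ∈ Q, ∀ y ∈ Q, x ≠ y → 1 ≤ |g x - g y|) :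
    ∑ x ∈ Q, 1 / g x ≤ 1 + Real.log T0 := by
  have inj : Set.InjOn (fun x => ⌊g x⌋₊) (Q : Set ℝ) := by
    intro x hx y hy hxy
    by_contra hne
    have h1 := hs x hx y hy hne
    have hx' := hg x hx
    have hy' := hg y hy
    simp only at hxy
    have a1 := Nat.floor_le (show (0 : ℝ) ≤ g x by linarith)
    have a2 := Nat.lt_floor_add_one (g x)
    have a3 := Nat.floor_le (show (0 : ℝ) ≤ g y by linarith only [hy'])
    have a4 := Nat.lt_floor_add_one (g y)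
    rw [hxy] at a1 a2
    have : |g x - g y| < 1 := by
      rw [abs_lt]
      constructor <;> linarith only [a1, a4, a2, a3]
    linarith only [h1, this]
  have h1 : ∑ x ∈ Q, 1 / g x ≤ ∑ x ∈ Q, ((⌊g x⌋₊ : ℝ))⁻¹ := by
    refine Finset.sum_le_sum fun x hx => ?_
    have hx' := hg x hx
    have a1 := Nat.floor_le (show (0 : ℝ) ≤ g x by linarith)
    have a2 : 1 ≤ ⌊g x⌋₊ := Nat.le_floor (by exact_mod_cast hx'.1)
    have a3 : (0 : ℝ) < (⌊g x⌋₊ : ℝ) := by exact_mod_cast a2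
    rw [one_div]
    exact inv_anti₀ a3 a1
  have h2 : ∑ x ∈ Q, ((⌊g x⌋₊ : ℝ))⁻¹ = ∑ j ∈ Q.image (fun x => ⌊g x⌋₊), ((j : ℝ))⁻¹ :=
    (Finset.sum_image (f := fun j : ℕ => ((j : ℝ))⁻¹) inj).symm
  have h3 : ∑ j ∈ Q.image (fun x => ⌊g x⌋₊), ((j : ℝ))⁻¹ ≤ ∑ j ∈ Icc 1 ⌊T0⌋₊, ((j : ℝ))⁻¹ := by
    refine Finset.sum_le_sum_of_subset_of_nonneg ?_ fun j _ _ => by positivity
    intro j hj
    rw [Finset.mem_image] at hj
    obtain ⟨x, hx, rfl⟩ := hj
    rw [Finset.mem_Icc]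
    exact ⟨Nat.le_floor (by exact_mod_cast (hg x hx).1), Nat.floor_mono (hg x hx).2⟩
  have h4 : ∑ j ∈ Icc 1 ⌊T0⌋₊, ((j : ℝ))⁻¹ ≤ 1 + Real.log T0 := by
    have h5 := harmonic_floor_le_one_add_log T0 hT
    rw [harmonic_eq_sum_Icc] at h5
    push_cast at h5
    exact h5
  linarith

theorem sep_sum (P : Finset ℝ) (t0 T0 : ℝ) (hT : 1 ≤ T0) (hP : ∀ t ∈ P, t0 ≤ t ∧ t ≤ t0 + T0)
    (hs : ∀ t ∈ P, ∀ t' ∈ P, t ≠ t' → 1 ≤ |t - t'|) (t : ℝ) (ht : t ∈ P) :
    ∑ t' ∈ P.erase t, 1 / |t - t'| ≤ 2 * (1 + Real.log T0) := by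
  classical
  rw [← Finset.sum_filter_add_sum_filter_not (P.erase t) (fun t' => t < t')]
  have h1 : ∑ x ∈ (P.erase t).filter (fun t' => t < t'), 1 / |t - x| ≤ 1 + Real.log T0 := by
    have h2 := half ((P.erase t).filter (fun t' => t < t')) T0 hT (fun x => |t - x|) ?_ ?_
    · exact h2
    · intro x hx
      rw [Finset.mem_filter, Finset.mem_erase] at hx
      refine ⟨hs t ht x hx.1.2 (Ne.symm hx.1.1), ?_⟩
      have := hP t ht
      have := hP x hx.1.2
      rw [abs_le]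
      constructor <;> linarith
    · intro x hx y hy hxy
      rw [Finset.mem_filter, Finset.mem_erase] at hx hy
      have h3 := hs x hx.1.2 y hy.1.2 hxy
      rw [abs_of_neg (sub_neg.2 hx.2), abs_of_neg (sub_neg.2 hy.2)]
      have h4 : -(t - x) - -(t - y) = x - y := by ring
      rw [h4]
      exact h3
  have h1' : ∑ x ∈ (P.erase t).filter (fun t' => ¬ t < t'), 1 / |t - x| ≤ 1 + Real.log T0 := by
    have h2 := half ((P.erase t).filter (fun t' => ¬ t < t')) T0 hT (fun x => |t - x|) ?_ ?_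
    · exact h2
    · intro x hx
      rw [Finset.mem_filter, Finset.mem_erase] at hx
      refine ⟨hs t ht x hx.1.2 (Ne.symm hx.1.1), ?_⟩
      have := hP t ht
      have := hP x hx.1.2
      rw [abs_le]
      constructor <;> linarith
    · intro x hx y hy hxy
      rw [Finset.mem_filter, Finset.mem_erase] at hx hy
      have h3 := hs y hy.1.2 x hx.1.2 (Ne.symm hxy)
      rw [abs_of_nonneg (sub_nonneg.2 (not_lt.1 hx.2)), abs_of_nonneg (sub_nonneg.2 (not_lt.1 hy.2))]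
      have h4 : (t - x) - (t - y) = y - x := by ring
      rw [h4]
      exact h3
  linarith

theorem card_le (q M b : ℕ) (hq : 1 ≤ q) :
    ((((Ioc M (32 * M)).filter (fun n => n % q = b)).card : ℕ) : ℝ) ≤ 32 * (M / q) + 1 := by
  have h1 : ((Ioc M (32 * M)).filter (fun n => n % q = b)).card ≤ (range (32 * M / q + 1)).card := by
    refine Finset.card_le_card_of_injOn (fun n => n / q) ?_ ?_
    · intro n hn
      simp only [Finset.coe_filter, Finset.mem_Ioc, Set.mem_ofPred_eq] at hn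
      simp only [Finset.coe_range, Set.mem_Iio]
      have := Nat.div_le_div_right (c := q) hn.1.2
      omega
    · intro n hn m hm hnm
      simp only [Finset.coe_filter, Finset.mem_Ioc, Set.mem_ofPred_eq] at hn hm
      simp only at hnm
      rw [← Nat.div_add_mod n q, ← Nat.div_add_mod m q, hn.2, hm.2, hnm]
  rw [Finset.card_range] at h1
  have h2 : ((32 * M / q : ℕ) : ℝ) ≤ ((32 * M : ℕ) : ℝ) / q := Nat.cast_div_le
  have h3 : ((((Ioc M (32 * M)).filter (fun n => n % q = b)).card : ℕ) : ℝ) ≤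
      ((32 * M / q + 1 : ℕ) : ℝ) := by exact_mod_cast h1
  push_cast at h2 h3
  have h4 : 32 * (M : ℝ) / q = 32 * (M / q) := by ring
  linarith

end HmAPAux

open HmAPAux in
theorem hm_ap : ∃ C : ℝ, 1 ≤ C ∧ ∀ (q M : ℕ) (S : Finset ℕ) (f : ℕ → ℂ) (P : Finset ℝ) (t0 T0 : ℝ), 1 ≤ q → 1 ≤ M →
    (∀ n ∈ S, M < n ∧ n ≤ 32 * M) → 1 ≤ T0 → (∀ t ∈ P, t0 ≤ t ∧ t ≤ t0 + T0) →
    (∀ t ∈ P, ∀ t' ∈ P, t ≠ t' → 1 ≤ |t - t'|) →
    ∑ t ∈ P, UU q S f t ≤ C * (∑ n ∈ S, ‖f n‖ ^ 2) *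
      ((M / q + 1) * (1 + Real.log T0) + P.card * Real.sqrt T0 * (1 + Real.log M)) := by
  obtain ⟨C, hC1, hC⟩ := kern_ap
  refine ⟨32 + 2 * C, by linarith, ?_⟩
  intro q M S f P t0 T0 hq hM hS hT hP hs
  have hq0 : (0 : ℝ) < q := by exact_mod_cast hq
  have hMq : (0 : ℝ) ≤ (M : ℝ) / q := by positivity
  have hlT : 0 ≤ Real.log T0 := Real.log_nonneg hT
  have hlM : 0 ≤ Real.log M := Real.log_nonneg (by exact_mod_cast hM)
  set R : ℝ := (M / q + 1) * (1 + Real.log T0) + P.card * Real.sqrt T0 * (1 + Real.log M) with hR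
  have hR0 : 0 ≤ R := by positivity
  have key : ∀ b ∈ range q, ∑ t ∈ P, ‖∑ n ∈ S.filter (fun n => n % q = b), f n * nit n t‖ ^ 2 ≤
      (∑ n ∈ S.filter (fun n => n % q = b), ‖f n‖ ^ 2) * ((32 + 2 * C) * R) := by
    intro b _
    refine dual ((Ioc M (32 * M)).filter (fun n => n % q = b)) _ ?_ f (fun n t => nit n t) P
      (by positivity) ?_
    · intro n hn
      rw [Finset.mem_filter] at hn ⊢
      rw [Finset.mem_Ioc]
      exact ⟨hS n hn.1, hn.2⟩
    · intro t ht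
      have e1 : ∀ t', ∑ n ∈ (Ioc M (32 * M)).filter (fun n => n % q = b),
          nit n t * (starRingEnd ℂ) (nit n t') =
          ∑ n ∈ (Ioc M (32 * M)).filter (fun n => n % q = b), nit n (t - t') := by
        intro t'
        refine Finset.sum_congr rfl fun n hn => ?_
        rw [Finset.mem_filter, Finset.mem_Ioc] at hn
        exact nit_mul_conj (by omega) t t'
      simp only [e1]
      rw [← Finset.add_sum_erase P _ ht]
      have e2 : ‖∑ n ∈ (Ioc M (32 * M)).filter (fun n => n % q = b), nit n (t - t)‖ ≤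
          32 * (M / q) + 1 := by
        refine le_trans ?_ (card_le q M b hq)
        refine (norm_sum_le _ _).trans ?_
        rw [Finset.card_eq_sum_ones]
        push_cast
        refine Finset.sum_le_sum fun n hn => ?_
        rw [Finset.mem_filter, Finset.mem_Ioc] at hn
        exact (norm_nit (by omega) _).le
      have e3 : ∑ t' ∈ P.erase t,
          ‖∑ n ∈ (Ioc M (32 * M)).filter (fun n => n % q = b), nit n (t - t')‖ ≤
          ∑ t' ∈ P.erase t, (C * (M / q) * (1 / |t - t'|) + C * (Real.sqrt T0 * (1 + Real.log M))) := by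
        refine Finset.sum_le_sum fun t' ht' => ?_
        rw [Finset.mem_erase] at ht'
        have h1 := hs t ht t' ht'.2 (Ne.symm ht'.1)
        have h2 := hC q M (32 * M) b (t - t') hq hM le_rfl h1
        refine h2.trans ?_
        have h3 : |t - t'| ≤ T0 := by
          have := hP t ht
          have := hP t' ht'.2
          rw [abs_le]
          constructor <;> linarith
        have h4 : Real.sqrt |t - t'| ≤ Real.sqrt T0 := Real.sqrt_le_sqrt h3
        have h5 : Real.sqrt |t - t'| * (1 + Real.log M) ≤ Real.sqrt T0 * (1 + Real.log M) :=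
          mul_le_mul_of_nonneg_right h4 (by linarith only [hlM])
        have h6 : (M : ℝ) / (q * |t - t'|) = (M / q) * (1 / |t - t'|) := by
          rw [div_mul_div_comm, mul_one]
        rw [h6]
        have h7 := mul_le_mul_of_nonneg_left h5 (by linarith only [hC1] : (0 : ℝ) ≤ C)
        nlinarith only [h7]
      have e4 : ∑ t' ∈ P.erase t, (C * (M / q) * (1 / |t - t'|) +
          C * (Real.sqrt T0 * (1 + Real.log M))) ≤
          C * (M / q) * (2 * (1 + Real.log T0)) + P.card * (C * (Real.sqrt T0 * (1 + Real.log M))) := by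
        rw [Finset.sum_add_distrib, ← Finset.mul_sum, Finset.sum_const, nsmul_eq_mul]
        have h1 := sep_sum P t0 T0 hT hP hs t ht
        have h2 : 0 ≤ C * ((M : ℝ) / q) := by positivity
        have h3 := mul_le_mul_of_nonneg_left h1 h2
        have h4 : (((P.erase t).card : ℕ) : ℝ) ≤ P.card := by
          exact_mod_cast Finset.card_le_card (Finset.erase_subset t P)
        have h5 : 0 ≤ C * (Real.sqrt T0 * (1 + Real.log M)) := by positivity
        have h6 := mul_le_mul_of_nonneg_right h4 h5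
        linarith only [h3, h6]
      have e5 : (32 * ((M : ℝ) / q) + 1) + (C * (M / q) * (2 * (1 + Real.log T0)) +
          P.card * (C * (Real.sqrt T0 * (1 + Real.log M)))) ≤ (32 + 2 * C) * R := by
        rw [hR]
        have h1 : 0 ≤ ((M : ℝ) / q) * Real.log T0 := mul_nonneg hMq hlT
        have h2 : 0 ≤ (P.card : ℝ) * Real.sqrt T0 * (1 + Real.log M) := by positivity
        have h3 : 0 ≤ C * ((P.card : ℝ) * Real.sqrt T0 * (1 + Real.log M)) := by positivity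
        have h4 : 0 ≤ C * Real.log T0 := by positivity
        have h5 : 0 ≤ C * ((M : ℝ) / q) := by positivity
        nlinarith only [hC1, hlT, h1, h2, h3, h4]
      linarith only [e2, e3, e4, e5]
  calc ∑ t ∈ P, UU q S f t
      = ∑ b ∈ range q, ∑ t ∈ P, ‖∑ n ∈ S.filter (fun n => n % q = b), f n * nit n t‖ ^ 2 := by
        unfold UU
        rw [Finset.sum_comm]
    _ ≤ ∑ b ∈ range q, (∑ n ∈ S.filter (fun n => n % q = b), ‖f n‖ ^ 2) * ((32 + 2 * C) * R) :=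
        Finset.sum_le_sum key
    _ = (32 + 2 * C) * (∑ n ∈ S, ‖f n‖ ^ 2) * R := by
        rw [← Finset.sum_mul]
        have h1 : ∑ b ∈ range q, ∑ n ∈ S.filter (fun n => n % q = b), ‖f n‖ ^ 2 =
            ∑ n ∈ S, ‖f n‖ ^ 2 :=
          Finset.sum_fiberwise_of_maps_to (fun n _ => Finset.mem_range.2 (Nat.mod_lt _ hq)) _
        rw [h1]
        ring

end Pool.Agent.VM
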