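import Pool.Agent.Lib.VM.MvtAP
import Pool.Agent.Lib.VM.C2AP
import Pool.Agent.Lib.VM.HmAP

/-!
# Module LvMeas: three bounds for the measure of the set where `U` is large

`Tt` measurable, `Tt ⊆ [-T, T]`, `U(t) ≥ Y` on `Tt`, `E = ∑_{n ∈ S} |f n|^2`.
`lv1`: Chebyshev with `mvt_ap`. `lv2`: `Y ≥ 2E` gives `(U - E)^2 ≥ Y^2/4` on `Tt`, Chebyshev with `c2_ap`.
`lv3`: if `E = 0` then `f = 0` on `S`, `U = 0`, `Tt = ∅`. Otherwise put `L' = 1 + log M`, `A` = the constant of `hm_ap`,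
`T0 = (Y / (2 A E L'))^2`.
If `T0 < 1`: `Y < 2 A E L'`, so `(E/Y) * T E^2/Y^2 ≥ T / (2 A L')^3` and `volume Tt ≤ 2 T` is enough.
If `T0 ≥ 1`: replace `T0` by `T1 = min T0 (2T+1)`; for a 1-separated finite `P ⊆ Tt` inside an interval of length `T1`, `hm_ap` gives
`Y #P ≤ A E ((M/q + 1)(1 + log T1) + #P √T1 L')` and `A E √T1 L' ≤ Y/2`, so `#P ≤ 2 A (E/Y)(M/q+1)(1 + log T1)`.
Cover `[-T,T]` by `⌈2T/T1⌉ + 1 ≤ 2T/T1 + 2` intervals of length `T1`; `T/T1 ≤ 1 + T (2 A E L'/Y)^2`. So every 1-separated finite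
`P ⊆ Tt` has `#P ≤ C (E/Y)(M/q+1)(1 + log(M+T))^3 (1 + T E^2/Y^2)`. Finally `volume Tt ≤` number of the unit intervals
`[k,k+1)` which meet `Tt`; choose a point of `Tt` in each; the points with `k` even (odd) are 1-separated: so
`volume Tt ≤ 2 max #P`.
-/

set_option autoImplicit false

open Finset Filter MeasureTheory

namespace Pool.Agent.VM

open Pool.Agent.VK Pool.Agent.HLT

namespace LvMeasAux

lemma uu_nonneg (q : ℕ) (S : Finset ℕ) (f : ℕ → ℂ) (t : ℝ) : 0 ≤ UU q S f t :=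
  Finset.sum_nonneg fun _ _ => by positivity

lemma nit_cont {n : ℕ} (hn : 1 ≤ n) : Continuous (fun t : ℝ => nit n t) := by
  unfold nit
  have h0 : (((n : ℝ) : ℂ)) ≠ 0 := by
    have : (n : ℝ) ≠ 0 := by positivity
    exact_mod_cast this
  refine Continuous.const_cpow ?_ (Or.inl h0)
  fun_prop

lemma uu_cont {q : ℕ} {S : Finset ℕ} {f : ℕ → ℂ} (hS : ∀ n ∈ S, 1 ≤ n) :
    Continuous (fun t : ℝ => UU q S f t) := by
  unfold UU
  refine continuous_finsetSum _ fun b _ => ?_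
  refine Continuous.pow (Continuous.norm ?_) 2
  refine continuous_finsetSum _ fun n hn => ?_
  exact continuous_const.mul (nit_cont (hS n (Finset.mem_filter.1 hn).1))

lemma cheb {g : ℝ → ℝ} (hg : Continuous g) (hg0 : ∀ t, 0 ≤ g t) {T y : ℝ} (hT : 0 ≤ T)
    {Tt : Set ℝ} (hm : MeasurableSet Tt) (hs : Tt ⊆ Set.Icc (-T) T) (h : ∀ t ∈ Tt, y ≤ g t) :
    y * volume.real Tt ≤ ∫ t in (-T)..T, g t := by
  have hfin : volume Tt < ⊤ := lt_of_le_of_lt (measure_mono hs) (by simp)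
  have hi : IntegrableOn g (Set.Icc (-T) T) := hg.continuousOn.integrableOn_Icc
  have h1 : ∫ t in Tt, y ≤ ∫ t in Tt, g t := by
    apply setIntegral_mono_on _ (hi.mono_set hs) hm h
    exact integrableOn_const (hs := hfin.ne)
  have h2 : ∫ t in Tt, g t ≤ ∫ t in Set.Icc (-T) T, g t := by
    apply setIntegral_mono_set hi
    · exact Filter.Eventually.of_forall hg0
    · exact Filter.Eventually.of_forall (fun t ht => hs ht)
  rw [intervalIntegral.integral_of_le (by linarith), ← integral_Icc_eq_integral_Ioc]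
  calc y * volume.real Tt = ∫ t in Tt, y := by
        rw [setIntegral_const, smul_eq_mul, mul_comm]
    _ ≤ _ := h1.trans h2

/-- covering by unit intervals -/
lemma vol_le {T : ℝ} {Tt : Set ℝ} (hs : Tt ⊆ Set.Icc (-T) T) {N : ℝ}
    (h : ∀ P : Finset ℝ, (∀ t ∈ P, t ∈ Tt) →
      (∀ t ∈ P, ∀ t' ∈ P, t ≠ t' → 1 ≤ |t - t'|) → (P.card : ℝ) ≤ N) :
    volume.real Tt ≤ 2 * N := by
  classical
  set KK : Finset ℤ := (Finset.Icc (⌊-T⌋) (⌊T⌋)).filter (fun k => ∃ t ∈ Tt, ⌊t⌋ = k) with hKK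
  have hch : ∀ k : ℤ, ∃ t : ℝ, k ∈ KK → t ∈ Tt ∧ ⌊t⌋ = k := by
    intro k
    by_cases hk : k ∈ KK
    · obtain ⟨t, h1, h2⟩ := (Finset.mem_filter.1 hk).2
      exact ⟨t, fun _ => ⟨h1, h2⟩⟩
    · exact ⟨0, fun h => absurd h hk⟩
  choose g hg using hch
  have hpar : ∀ (c : ℤ), ((KK.filter (fun k => k % 2 = c)).card : ℝ) ≤ N := by
    intro c
    have hinj : Set.InjOn g (KK.filter (fun k => k % 2 = c) : Set ℤ) := by
      intro k hk k' hk' he
      have hk1 := (Finset.mem_filter.1 (Finset.mem_coe.1 hk)).1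
      have hk1' := (Finset.mem_filter.1 (Finset.mem_coe.1 hk')).1
      rw [← (hg k hk1).2, ← (hg k' hk1').2, he]
    have h1 := h ((KK.filter (fun k => k % 2 = c)).image g) (by
      intro t ht
      obtain ⟨k, hk, rfl⟩ := Finset.mem_image.1 ht
      exact (hg k (Finset.mem_filter.1 hk).1).1) (by
      intro t ht t' ht' hne
      obtain ⟨k, hk, rfl⟩ := Finset.mem_image.1 ht
      obtain ⟨k', hk', rfl⟩ := Finset.mem_image.1 ht'
      obtain ⟨hk1, hk2⟩ := Finset.mem_filter.1 hk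
      obtain ⟨hk1', hk2'⟩ := Finset.mem_filter.1 hk'
      have hkk : k ≠ k' := fun he => hne (by rw [he])
      have a1 := Int.floor_le (g k)
      have a2 := Int.lt_floor_add_one (g k)
      have b1 := Int.floor_le (g k')
      have b2 := Int.lt_floor_add_one (g k')
      rw [(hg k hk1).2] at a1 a2
      rw [(hg k' hk1').2] at b1 b2
      rcases lt_or_gt_of_ne hkk with hlt | hlt
      · have h3 : k + 2 ≤ k' := by omega
        have h4 : (k : ℝ) + 2 ≤ k' := by exact_mod_cast h3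
        rw [abs_sub_comm, le_abs]
        left; linarith only [a2, b1, h4]
      · have h3 : k' + 2 ≤ k := by omega
        have h4 : (k' : ℝ) + 2 ≤ k := by exact_mod_cast h3
        rw [le_abs]
        left; linarith only [a1, b2, h4])
    rwa [Finset.card_image_of_injOn hinj] at h1
  have hcard : (KK.card : ℝ) ≤ 2 * N := by
    have h1 : KK.card ≤ (KK.filter (fun k => k % 2 = 0)).card +
        (KK.filter (fun k => k % 2 = 1)).card := by
      have : KK ⊆ KK.filter (fun k => k % 2 = 0) ∪ KK.filter (fun k => k % 2 = 1) := by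
        intro k hk
        rw [Finset.mem_union]
        rcases Int.emod_two_eq_zero_or_one k with h | h
        · exact Or.inl (Finset.mem_filter.2 ⟨hk, h⟩)
        · exact Or.inr (Finset.mem_filter.2 ⟨hk, h⟩)
      exact (Finset.card_le_card this).trans (Finset.card_union_le _ _)
    have h2 : (KK.card : ℝ) ≤ ((KK.filter (fun k => k % 2 = 0)).card : ℝ) +
        ((KK.filter (fun k => k % 2 = 1)).card : ℝ) := by exact_mod_cast h1
    have h3 := hpar 0
    have h4 := hpar 1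
    linarith
  have hsub : Tt ⊆ ⋃ k ∈ KK, Set.Ico (k : ℝ) (k + 1) := by
    intro t ht
    have h1 := hs ht
    rw [Set.mem_iUnion₂]
    refine ⟨⌊t⌋, ?_, Int.floor_le t, Int.lt_floor_add_one t⟩
    rw [hKK, Finset.mem_filter, Finset.mem_Icc]
    exact ⟨⟨Int.floor_le_floor h1.1, Int.floor_le_floor h1.2⟩, t, ht, rfl⟩
  have hfin : volume (⋃ k ∈ KK, Set.Ico (k : ℝ) (k + 1)) ≠ ⊤ := by
    refine ne_of_lt (lt_of_le_of_lt (measure_biUnion_finset_le _ _) ?_)
    exact ENNReal.sum_lt_top.2 fun k _ => by simp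
  calc volume.real Tt ≤ volume.real (⋃ k ∈ KK, Set.Ico (k : ℝ) (k + 1)) :=
        measureReal_mono hsub hfin
    _ ≤ ∑ k ∈ KK, volume.real (Set.Ico (k : ℝ) (k + 1)) := measureReal_biUnion_finset_le _ _
    _ = KK.card := by
        simp
    _ ≤ 2 * N := hcard

/-- from short intervals to the long one -/
lemma card_le {T T1 B : ℝ} (hT : 0 ≤ T) (hT1 : 0 < T1) (hB : 0 ≤ B) (P : Finset ℝ)
    (hP : ∀ t ∈ P, -T ≤ t ∧ t ≤ T)
    (h : ∀ (t0 : ℝ) (Q : Finset ℝ), Q ⊆ P → (∀ t ∈ Q, t0 ≤ t ∧ t ≤ t0 + T1) →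
      (Q.card : ℝ) ≤ B) : (P.card : ℝ) ≤ B * (2 * T / T1 + 1) := by
  classical
  set F : ℝ → ℕ := fun t => ⌊(t + T) / T1⌋₊ with hF
  have h1 : P.card ≤ ⌊B⌋₊ * (P.image F).card := by
    apply Finset.card_le_mul_card_image
    intro a _
    apply Nat.le_floor
    apply h (a * T1 - T) _ (Finset.filter_subset _ _)
    intro t ht
    obtain ⟨h2, h3⟩ := Finset.mem_filter.1 ht
    have h4 : 0 ≤ (t + T) / T1 := div_nonneg (by linarith [(hP t h2).1]) hT1.le
    have h5 := Nat.floor_le h4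
    have h6 := Nat.lt_floor_add_one ((t + T) / T1)
    have h7 : (⌊(t + T) / T1⌋₊ : ℝ) = a := by exact_mod_cast h3
    rw [h7] at h5 h6
    rw [le_div_iff₀ hT1] at h5
    rw [div_lt_iff₀ hT1] at h6
    constructor <;> linarith only [h5, h6]
  have h2 : (P.image F).card ≤ ⌊2 * T / T1⌋₊ + 1 := by
    calc (P.image F).card ≤ (Finset.range (⌊2 * T / T1⌋₊ + 1)).card := by
          apply Finset.card_le_card
          intro a ha
          obtain ⟨t, ht, rfl⟩ := Finset.mem_image.1 ha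
          rw [Finset.mem_range, Nat.lt_succ_iff]
          apply Nat.floor_le_floor
          apply div_le_div_of_nonneg_right _ hT1.le
          linarith [(hP t ht).2]
      _ = _ := Finset.card_range _
  have h3 : (P.card : ℝ) ≤ (⌊B⌋₊ : ℝ) * (P.image F).card := by exact_mod_cast h1
  have h4 : ((P.image F).card : ℝ) ≤ (⌊2 * T / T1⌋₊ : ℝ) + 1 := by exact_mod_cast h2
  have h5 := Nat.floor_le hB
  have h6 := Nat.floor_le (show 0 ≤ 2 * T / T1 by positivity)
  calc (P.card : ℝ) ≤ (⌊B⌋₊ : ℝ) * (P.image F).card := h3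
    _ ≤ B * (2 * T / T1 + 1) := by
        apply mul_le_mul h5 (by linarith only [h4, h6]) (by positivity) hB

end LvMeasAux

open LvMeasAux

theorem lv1 : ∃ C : ℝ, 1 ≤ C ∧ ∀ (q M : ℕ) (S : Finset ℕ) (f : ℕ → ℂ) (T Y : ℝ) (Tt : Set ℝ), 1 ≤ q → 1 ≤ M →
    (∀ n ∈ S, M < n ∧ n ≤ 32 * M) → 1 ≤ T → 0 < Y → MeasurableSet Tt → Tt ⊆ Set.Icc (-T) T →
    (∀ t ∈ Tt, Y ≤ UU q S f t) →
    volume.real Tt ≤ C * (T + M / q) * (∑ n ∈ S, ‖f n‖ ^ 2) / Y := by
  obtain ⟨C, hC, h⟩ := mvt_ap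
  refine ⟨2 * C, by linarith, fun q M S f T Y Tt hq hM hS hT hY hm hs hU => ?_⟩
  have hS1 : ∀ n ∈ S, 1 ≤ n := fun n hn => by have := hS n hn; omega
  have h1 := h q M S f T hq hM (fun n hn => ⟨hS1 n hn, (hS n hn).2⟩) (by linarith)
  have h2 := cheb (uu_cont (q := q) (f := f) hS1) (uu_nonneg q S f) (by linarith only [hT]) hm hs hU
  rw [le_div_iff₀ hY, mul_comm]
  refine h2.trans (h1.trans ?_)
  have hE : 0 ≤ ∑ n ∈ S, ‖f n‖ ^ 2 := Finset.sum_nonneg fun _ _ => by positivity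
  apply mul_le_mul_of_nonneg_right _ hE
  have h3 : (0 : ℝ) ≤ (M : ℝ) / q := by positivity
  nlinarith only [hC, hT, h3]

theorem lv2 : ∃ C : ℝ, 1 ≤ C ∧ ∀ (q M : ℕ) (S : Finset ℕ) (f : ℕ → ℂ) (T Y K : ℝ) (Tt : Set ℝ), 1 ≤ q → 1 ≤ M →
    (∀ n ∈ S, M < n ∧ n ≤ 32 * M) → (∀ n ∈ S, ‖f n‖ ≤ K) → 0 ≤ K → 1 ≤ T → 0 < Y →
    2 * ∑ n ∈ S, ‖f n‖ ^ 2 ≤ Y → MeasurableSet Tt → Tt ⊆ Set.Icc (-T) T → (∀ t ∈ Tt, Y ≤ UU q S f t) →
    volume.real Tt ≤
      C * K ^ 4 * (T * (M : ℝ) ^ 2 / q + (M : ℝ) ^ 4 / (q : ℝ) ^ 2) * (1 + Real.log M) ^ 2 / Y ^ 2 := by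
  obtain ⟨C, hC, h⟩ := c2_ap
  refine ⟨4 * C, by linarith, fun q M S f T Y K Tt hq hM hS hK hK0 hT hY hYE hm hs hU => ?_⟩
  have hS1 : ∀ n ∈ S, 1 ≤ n := fun n hn => by have := hS n hn; omega
  have h1 := h q M S f T K hq hM hS hK hK0 hT
  set E := ∑ n ∈ S, ‖f n‖ ^ 2 with hEdef
  have hE : 0 ≤ E := Finset.sum_nonneg fun _ _ => by positivity
  have h2 := cheb (g := fun t => (UU q S f t - E) ^ 2) (y := Y ^ 2 / 4)
    ((((uu_cont (q := q) (f := f) hS1).sub continuous_const)).pow 2) (fun t => sq_nonneg _)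
    (by linarith only [hT]) hm hs (by
      intro t ht
      have h3 := hU t ht
      have h4 : Y / 2 ≤ UU q S f t - E := by linarith only [hYE, h3]
      have h5 : (Y / 2) ^ 2 ≤ (UU q S f t - E) ^ 2 := pow_le_pow_left₀ (by linarith only [hY]) h4 2
      calc Y ^ 2 / 4 = (Y / 2) ^ 2 := by ring
        _ ≤ _ := h5)
  rw [le_div_iff₀ (by positivity)]
  have h6 := h2.trans h1
  nlinarith only [h1, h2]

theorem lv3 : ∃ C : ℝ, 1 ≤ C ∧ ∀ (q M : ℕ) (S : Finset ℕ) (f : ℕ → ℂ) (T Y : ℝ) (Tt : Set ℝ), 1 ≤ q → 1 ≤ M →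
    (∀ n ∈ S, M < n ∧ n ≤ 32 * M) → 1 ≤ T → 0 < Y → MeasurableSet Tt → Tt ⊆ Set.Icc (-T) T →
    (∀ t ∈ Tt, Y ≤ UU q S f t) →
    volume.real Tt ≤ C * (1 + Real.log (M + T)) ^ 4 * (M / q + 1) * ((∑ n ∈ S, ‖f n‖ ^ 2) / Y) *
      (1 + T * (∑ n ∈ S, ‖f n‖ ^ 2) ^ 2 / Y ^ 2) := by
  obtain ⟨A, hA, h⟩ := hm_ap
  refine ⟨64 * A ^ 3, by nlinarith [pow_le_pow_left₀ (by norm_num) hA 3],
    fun q M S f T Y Tt hq hM hS hT hY hm hs hU => ?_⟩
  set E := ∑ n ∈ S, ‖f n‖ ^ 2 with hEdef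
  have hE : 0 ≤ E := Finset.sum_nonneg fun _ _ => by positivity
  have hMr : (1 : ℝ) ≤ M := by exact_mod_cast hM
  have hqr : (1 : ℝ) ≤ q := by exact_mod_cast hq
  have hMq : (0 : ℝ) ≤ (M : ℝ) / q := by positivity
  rcases hE.eq_or_lt with hE0 | hE0
  · -- E = 0
    have hf : ∀ n ∈ S, f n = 0 := by
      intro n hn
      have h1 := (Finset.sum_eq_zero_iff_of_nonneg (fun n _ => by positivity)).1 hE0.symm n hn
      have h2 : ‖f n‖ = 0 := by simpa using h1
      exact norm_eq_zero.1 h2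
    have hUz : ∀ t, UU q S f t = 0 := by
      intro t
      unfold UU
      apply Finset.sum_eq_zero
      intro b _
      have : ∑ n ∈ S.filter (fun n => n % q = b), f n * nit n t = 0 := by
        apply Finset.sum_eq_zero
        intro n hn
        rw [hf n (Finset.mem_filter.1 hn).1, zero_mul]
      rw [this]; simp
    have hTe : Tt = ∅ := by
      apply Set.eq_empty_of_forall_notMem
      intro t ht
      have h1 := hU t ht
      rw [hUz] at h1
      linarith only [hY, h1]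
    rw [hTe, ← hE0]
    simp
  set L := 1 + Real.log (M + T) with hL
  set L' := 1 + Real.log M with hL'
  have hL'1 : 1 ≤ L' := by have := Real.log_nonneg hMr; linarith only [this]
  have hLL : L' ≤ L := by
    have := Real.log_le_log (by linarith only [hMr] : (0:ℝ) < M) (by linarith only [hT] : (M : ℝ) ≤ M + T)
    linarith only [this]
  have hL1 : 1 ≤ L := hL'1.trans hLL
  set x := E / Y with hx
  have hx0 : 0 < x := by positivity
  have hTx : T * E ^ 2 / Y ^ 2 = T * x ^ 2 := by rw [hx]; field_simp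
  rw [hTx]
  set T0 := (1 / (2 * A * x * L')) ^ 2 with hT0
  have hAx : 0 < 2 * A * x * L' := by (clear * - hA hY hE0; positivity)
  have hvol2 : volume.real Tt ≤ 2 * T := by
    calc volume.real Tt ≤ volume.real (Set.Icc (-T) T) := measureReal_mono hs (by simp)
      _ = 2 * T := by
          rw [Real.volume_real_Icc]
          rw [max_eq_left (by linarith only [hT])]; ring
  by_cases hc : T0 < 1
  · -- small Y
    have h1 : 1 < 2 * A * x * L' := by
      by_contra hcon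
      push Not at hcon
      have h2 : 1 ≤ 1 / (2 * A * x * L') := by
        rw [le_div_iff₀ hAx]; linarith only [hcon]
      have h3 : 1 ≤ T0 := by rw [hT0]; exact one_le_pow₀ h2
      linarith only [hc, h3]
    have h2 : 1 ≤ (2 * A * x * L') ^ 3 := one_le_pow₀ h1.le
    have h3 : L' ^ 3 ≤ L ^ 4 := by
      calc L' ^ 3 ≤ L ^ 3 := pow_le_pow_left₀ (by linarith only [hL'1]) hLL 3
        _ ≤ L ^ 4 := pow_le_pow_right₀ hL1 (by norm_num)
    calc volume.real Tt ≤ 2 * T := hvol2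
      _ ≤ 2 * T * (2 * A * x * L') ^ 3 := le_mul_of_one_le_right (by linarith only [hT]) h2
      _ = 16 * A ^ 3 * L' ^ 3 * x * (T * x ^ 2) := by ring
      _ ≤ 64 * A ^ 3 * L ^ 4 * x * (T * x ^ 2) := by
          have : 0 ≤ T * x ^ 2 := by (clear * - hT hY hE0; positivity)
          gcongr
          norm_num
      _ ≤ 64 * A ^ 3 * L ^ 4 * (M / q + 1) * x * (1 + T * x ^ 2) := by
          have h4 : 0 ≤ T * x ^ 2 := by (clear * - hT hY hE0; positivity)
          have h5 : 64 * A ^ 3 * L ^ 4 ≤ 64 * A ^ 3 * L ^ 4 * (M / q + 1) :=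
            le_mul_of_one_le_right (by (clear * - hA hL1; positivity)) (by linarith only [hMq])
          have h6 : 64 * A ^ 3 * L ^ 4 * x ≤ 64 * A ^ 3 * L ^ 4 * (M / q + 1) * x :=
            mul_le_mul_of_nonneg_right h5 hx0.le
          exact mul_le_mul h6 (by linarith) h4 (by (clear * - hA hq hM hY hE0 hL1; positivity))
  · push Not at hc
    set T1 := min T0 (2 * T + 1) with hT1
    have hT1a : 1 ≤ T1 := le_min hc (by linarith only [hT])
    have hsq : Real.sqrt T1 * (2 * A * x * L') ≤ 1 := by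
      have h1 : Real.sqrt T1 ≤ 1 / (2 * A * x * L') := by
        calc Real.sqrt T1 ≤ Real.sqrt T0 := Real.sqrt_le_sqrt (min_le_left _ _)
          _ = _ := by rw [hT0, Real.sqrt_sq (by (clear * - hA hY hE0; positivity))]
      calc Real.sqrt T1 * (2 * A * x * L') ≤ 1 / (2 * A * x * L') * (2 * A * x * L') :=
            mul_le_mul_of_nonneg_right h1 hAx.le
        _ = 1 := by field_simp
    have hlog : 1 + Real.log T1 ≤ 2 * L := by
      have h1 : Real.log T1 ≤ Real.log (2 * (M + T)) := by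
        apply Real.log_le_log (by linarith only [hT1a])
        have := min_le_right T0 (2 * T + 1)
        linarith only [hMr, this]
      rw [Real.log_mul (by norm_num) (by (clear * - hM hT; positivity))] at h1
      have h2 := Real.log_two_lt_d9
      have : 0 ≤ Real.log (M + T) := Real.log_nonneg (by linarith only [hT, hMr])
      rw [hL]
      linarith only [hL'1, hLL, h1, h2]
    have hlog0 : 0 ≤ Real.log T1 := Real.log_nonneg hT1a
    set B := 2 * A * x * (M / q + 1) * (2 * L) with hB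
    have hB0 : 0 ≤ B := by (clear * - hA hq hM hY hE0 hL1; positivity)
    -- local bound
    have hloc : ∀ (P : Finset ℝ) (t0 : ℝ), (∀ t ∈ P, t ∈ Tt) →
        (∀ t ∈ P, ∀ t' ∈ P, t ≠ t' → 1 ≤ |t - t'|) → (∀ t ∈ P, t0 ≤ t ∧ t ≤ t0 + T1) →
        (P.card : ℝ) ≤ B := by
      intro P t0 hP hsep hint
      have h1 := h q M S f P t0 T1 hq hM hS hT1a hint hsep
      have h2 : (P.card : ℝ) * Y ≤ ∑ t ∈ P, UU q S f t := by
        rw [← nsmul_eq_mul]
        exact Finset.card_nsmul_le_sum _ _ _ (fun t ht => hU t (hP t ht))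
      have hEY : E = x * Y := by rw [hx]; field_simp
      rw [← hEdef, hEY] at h1
      have h3 : (P.card : ℝ) * Y ≤ (A * x * ((M / q + 1) * (1 + Real.log T1) +
          P.card * Real.sqrt T1 * L')) * Y := by
        refine (h2.trans h1).trans (le_of_eq ?_)
        ring
      have h4 := le_of_mul_le_mul_right h3 hY
      have h5 : (P.card : ℝ) * (Real.sqrt T1 * (2 * A * x * L')) ≤ P.card * 1 :=
        mul_le_mul_of_nonneg_left hsq (Nat.cast_nonneg _)
      have h6 : (P.card : ℝ) ≤ 2 * A * x * (M / q + 1) * (1 + Real.log T1) := by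
        nlinarith only [h4, h5]
      refine h6.trans ?_
      rw [hB]
      exact mul_le_mul_of_nonneg_left hlog (by (clear * - hA hq hM hY hE0; positivity))
    -- global bound
    have hglob : ∀ P : Finset ℝ, (∀ t ∈ P, t ∈ Tt) →
        (∀ t ∈ P, ∀ t' ∈ P, t ≠ t' → 1 ≤ |t - t'|) →
        (P.card : ℝ) ≤ B * (2 * T / T1 + 1) := by
      intro P hP hsep
      refine card_le (by linarith only [hT]) (by linarith only [hT1a]) hB0 P (fun t ht => hs (hP t ht)) ?_
      intro t0 Q hQ hint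
      exact hloc Q t0 (fun t ht => hP t (hQ ht))
        (fun t ht t' ht' hne => hsep t (hQ ht) t' (hQ ht') hne) hint
    have hvol := vol_le hs hglob
    have hTT : 2 * T / T1 + 1 ≤ 8 * A ^ 2 * L ^ 2 * (1 + T * x ^ 2) := by
      have h1 : T / T1 ≤ T / T0 + 1 / 2 := by
        rw [hT1]
        rcases le_total T0 (2 * T + 1) with h2 | h2
        · rw [min_eq_left h2]; linarith
        · rw [min_eq_right h2]
          have h3 : T / (2 * T + 1) ≤ 1 / 2 := by
            rw [div_le_div_iff₀ (by linarith only [hT]) (by norm_num)]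
            linarith
          have h4 : 0 ≤ T / T0 := by (clear * - hA hT hY hE0; positivity)
          linarith only [h3, h4]
      have h2 : T / T0 = 4 * A ^ 2 * L' ^ 2 * (T * x ^ 2) := by
        rw [hT0]; field_simp; ring
      have h3 : 4 * A ^ 2 * L' ^ 2 * (T * x ^ 2) ≤ 4 * A ^ 2 * L ^ 2 * (T * x ^ 2) := by
        have : 0 ≤ T * x ^ 2 := by (clear * - hT hY hE0; positivity)
        gcongr
      have h4 : 1 ≤ A ^ 2 * L ^ 2 := by
        have a1 : 1 ≤ A ^ 2 := one_le_pow₀ hA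
        have a2 : 1 ≤ L ^ 2 := one_le_pow₀ hL1
        nlinarith only [a1, a2]
      have h5 : 2 * T / T1 = 2 * (T / T1) := by ring
      rw [h5]
      rw [h2] at h1
      nlinarith only [h1, h3, h4]
    calc volume.real Tt ≤ 2 * (B * (2 * T / T1 + 1)) := hvol
      _ ≤ 2 * (B * (8 * A ^ 2 * L ^ 2 * (1 + T * x ^ 2))) := by
          have := mul_le_mul_of_nonneg_left hTT hB0
          linarith only [this]
      _ = 64 * A ^ 3 * L ^ 3 * (M / q + 1) * x * (1 + T * x ^ 2) := by rw [hB]; ring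
      _ ≤ 64 * A ^ 3 * L ^ 4 * (M / q + 1) * x * (1 + T * x ^ 2) := by
          have h1 : L ^ 3 ≤ L ^ 4 := pow_le_pow_right₀ hL1 (by norm_num)
          gcongr

end Pool.Agent.VM
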