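import Pool.Agent.Lib.VM.ConvBd
import Pool.Agent.Lib.VM.DpMul
import Pool.Agent.Lib.VM.Expo
import Pool.Agent.Lib.VM.LvMeas

/-!
# Module Vlv: the volume of a full block

Let `s₀` be the value of `expo ε e1 c` (may be taken `≤ 1/10`), `s = s₀/20`, `ν = s/100`. For `X` large. If `volume.real Tt = 0` the claim
is trivial; otherwise put `j = log(vol)/log X`, `th = log h/log X`, `k = log q/log X`, `n i = e i log 2/log X`,
`v i = 2 log (V i)/log X - n i` (`V i ^ 2 = X^(n i + v i)`, `V i > 0` because `V i ^ 2 ≥ 2^(e i)`): `0 ≤ v i ≤ n i - c`.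
For `D ⊆ Ac` nonempty put `R = ∏_{i ∈ D} G i`, `M = ∏_{i ∈ D} 2^(e i - 1)`, so `bx D e ⊆ Ioc M (32 M)` (`D` has at most 5 elements,
`∏ 2^(e i) = 2^|D| M`), `m_D = ∑_{i ∈ D} n i`, `M ≤ X^(m_D)`, `|R n| ≤ τ(n)^5 ≤ X^ν =: K` (`prod_bound`, `tau_small`, `n ≤ X^2`),
`E = ∑_{n ∈ bx D e} |R n|^2 ≤ X^(m_D + 2 ν)`, `Y = X^(-s) ∏_{i ∈ D} V i ^ 2 = X^(m_D + v_D - s)`,
`T = (X/h) X^s = X^(1 - th + s)`, all logarithms and constants are `≤ X^ν`. Then (`q = X^k`)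
`lv1`: `vol ≤ C (T + M/q) E/Y`:                     `j ≤ max(1-th, m_D-k) - v_D + 2s + 4ν ≤ ... + s₀`;
`lv2` (if `v_D ≥ 3 s₀` then `2E ≤ Y`):               `j ≤ max(1-th-k, 2m_D-2k) - 2v_D + 3s + 8ν`;
`lv3`:                                              `j ≤ m_D - k - v_D + max(0, 1-th-2v_D) + 4s + 8ν`
 (here `M/q + 1 ≤ 2 X^(m_D - k + s)` as `n i ≥ th - s ≥ k - s`);
`Tt ⊆ [-T,T]`:                                       `j ≤ 1 - th + s + ν`.
For an arbitrary nonempty `D` apply this to `D' = D ∩ Ac` if `D'` is nonempty: `v_D' = v_D` (`v i = 0` outside `Ac`), `m_D' ≤ m_D`,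
and all three right hand sides are nondecreasing in `m_D`. If `D'` is empty, `v_D = 0`, the second inequality is not asked and the other two
follow from `j ≤ 1 - th + s + ν` (`m_D ≥ th - s ≥ k`). So `expo` gives `j + k + w ≤ 1 - s₀`, and
`vol * q * ∏ V i ^ 2 = X^(j + k + ∑ n i + w) ≤ X^(1 + s + 1 - s₀) ≤ X^(2 - s)`.
-/

set_option autoImplicit false

open Finset Filter MeasureTheory

namespace Pool.Agent.VM

open Pool.Agent.VK Pool.Agent.HLT

namespace VlvAux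

/-- comparison of exponents -/
lemma exp_le {x a b : ℝ} (hx : 1 < x) (h : x ^ a ≤ x ^ b) : a ≤ b :=
  (Real.rpow_le_rpow_left_iff hx).1 h

lemma mvt_exp {x C T Mr q E Y vol j th s ν m k v : ℝ} (hx : 1 < x) (hC : 0 < C) (hs : 0 ≤ s)
    (hT : T = x ^ (1 - th + s)) (hM : Mr ≤ x ^ m) (hq : q = x ^ k)
    (hE : E ≤ x ^ (m + 2 * ν)) (hE0 : 0 ≤ E) (hY : Y = x ^ (m + v - s)) (hvol : vol = x ^ j)
    (hB : 4 * C ≤ x ^ ν) (h : vol ≤ C * (T + Mr / q) * E / Y) :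
    j ≤ max (1 - th) (m - k) - v + (2 * s + 3 * ν) := by
  have hx0 : 0 < x := by linarith only [hx]
  have hM' : Mr / q ≤ x ^ (m - k) := by
    rw [Real.rpow_sub hx0, hq]
    exact div_le_div_of_nonneg_right hM (Real.rpow_pos_of_pos hx0 _).le
  have h1 : T ≤ x ^ (max (1 - th) (m - k) + s) := by
    rw [hT]
    exact Real.rpow_le_rpow_of_exponent_le hx.le
      (by have := le_max_left (1 - th) (m - k); linarith only [this])
  have h2 : Mr / q ≤ x ^ (max (1 - th) (m - k) + s) :=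
    hM'.trans (Real.rpow_le_rpow_of_exponent_le hx.le
      (by have := le_max_right (1 - th) (m - k); linarith only [hs, this]))
  have hq0 : 0 < q := by rw [hq]; exact Real.rpow_pos_of_pos hx0 _
  have hY0 : 0 < Y := by rw [hY]; exact Real.rpow_pos_of_pos hx0 _
  have hT0 : 0 < T := by rw [hT]; exact Real.rpow_pos_of_pos hx0 _
  have h3 : vol ≤ x ^ ν * x ^ (max (1 - th) (m - k) + s) * x ^ (m + 2 * ν) / x ^ (m + v - s) := by
    rw [← hY]
    calc vol ≤ C * (T + Mr / q) * E / Y := h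
      _ ≤ C * (x ^ (max (1 - th) (m - k) + s) + x ^ (max (1 - th) (m - k) + s)) *
          x ^ (m + 2 * ν) / Y := by gcongr
      _ = 2 * C * x ^ (max (1 - th) (m - k) + s) * x ^ (m + 2 * ν) / Y := by ring
      _ ≤ x ^ ν * x ^ (max (1 - th) (m - k) + s) * x ^ (m + 2 * ν) / Y := by
          gcongr
          linarith only [hC, hB]
  rw [hvol, ← Real.rpow_add hx0, ← Real.rpow_add hx0, ← Real.rpow_sub hx0] at h3
  have := exp_le hx h3
  linarith only [this]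

lemma c2_exp {x C T Mr q K Lg Y vol j th s ν m k v : ℝ} (hx : 1 < x) (hC : 0 < C) (hs : 0 ≤ s)
    (hT : T = x ^ (1 - th + s)) (hM : Mr ≤ x ^ m) (hM0 : 0 ≤ Mr) (hq : q = x ^ k)
    (hK : K = x ^ ν) (hLg : Lg ≤ x ^ ν) (hLg0 : 0 ≤ Lg)
    (hY : Y = x ^ (m + v - s)) (hvol : vol = x ^ j)
    (hB : 4 * C ≤ x ^ ν)
    (h : vol ≤ C * K ^ 4 * (T * Mr ^ 2 / q + Mr ^ 4 / q ^ 2) * Lg / Y ^ 2) :
    j ≤ max (1 - th - k) (2 * m - 2 * k) - 2 * v + (3 * s + 6 * ν) := by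
  have hx0 : 0 < x := by linarith only [hx]
  have hq0 : 0 < q := by rw [hq]; exact Real.rpow_pos_of_pos hx0 _
  have hY0 : 0 < Y := by rw [hY]; exact Real.rpow_pos_of_pos hx0 _
  have hT0 : 0 < T := by rw [hT]; exact Real.rpow_pos_of_pos hx0 _
  have hK0 : 0 < K := by rw [hK]; exact Real.rpow_pos_of_pos hx0 _
  obtain ⟨μ, hμ⟩ : ∃ μ, μ = max (1 - th - k) (2 * m - 2 * k) := ⟨_, rfl⟩
  have l1 : 1 - th - k ≤ μ := hμ ▸ le_max_left _ _
  have l2 : 2 * m - 2 * k ≤ μ := hμ ▸ le_max_right _ _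
  rw [← hμ]
  have e1 : T * Mr ^ 2 / q ≤ x ^ (2 * m + μ + s) := by
    calc T * Mr ^ 2 / q ≤ T * (x ^ m) ^ 2 / q := by gcongr
      _ = x ^ (1 - th + s + m + m - k) := by
          rw [hT, hq, Real.rpow_sub hx0, Real.rpow_add hx0 (1 - th + s + m) m,
            Real.rpow_add hx0 (1 - th + s) m]
          ring
      _ ≤ x ^ (2 * m + μ + s) := Real.rpow_le_rpow_of_exponent_le hx.le (by linarith only [l1])
  have e2 : Mr ^ 4 / q ^ 2 ≤ x ^ (2 * m + μ + s) := by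
    calc Mr ^ 4 / q ^ 2 ≤ (x ^ m) ^ 4 / q ^ 2 := by gcongr
      _ = x ^ (m + m + m + m - (k + k)) := by
          rw [hq, Real.rpow_sub hx0, Real.rpow_add hx0, Real.rpow_add hx0, Real.rpow_add hx0,
            Real.rpow_add hx0]
          ring
      _ ≤ x ^ (2 * m + μ + s) := Real.rpow_le_rpow_of_exponent_le hx.le (by linarith only [hs, l2])
  have hY2 : Y ^ 2 = x ^ (m + v - s + (m + v - s)) := by
    rw [Real.rpow_add hx0, ← hY]; ring
  have hK4 : K ^ 4 = x ^ (ν + ν + ν + ν) := by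
    rw [Real.rpow_add hx0, Real.rpow_add hx0, Real.rpow_add hx0, ← hK]; ring
  have h3 : vol ≤ x ^ ν * x ^ (ν + ν + ν + ν) * x ^ (2 * m + μ + s) * x ^ ν
      / x ^ (m + v - s + (m + v - s)) := by
    rw [← hY2, ← hK4]
    calc vol ≤ C * K ^ 4 * (T * Mr ^ 2 / q + Mr ^ 4 / q ^ 2) * Lg / Y ^ 2 := h
      _ ≤ C * K ^ 4 * (x ^ (2 * m + μ + s) + x ^ (2 * m + μ + s)) * x ^ ν / Y ^ 2 := by gcongr
      _ = (2 * C) * K ^ 4 * x ^ (2 * m + μ + s) * x ^ ν / Y ^ 2 := by ring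
      _ ≤ x ^ ν * K ^ 4 * x ^ (2 * m + μ + s) * x ^ ν / Y ^ 2 := by
          gcongr
          linarith only [hC, hB]
  rw [hvol, ← Real.rpow_add hx0, ← Real.rpow_add hx0, ← Real.rpow_add hx0,
    ← Real.rpow_sub hx0] at h3
  have := exp_le hx h3
  linarith only [this]

lemma hm_exp {x C T Mr q E Lg Y vol j th s ν m k v : ℝ} (hx : 1 < x) (hC : 0 < C) (hs : 0 ≤ s)
    (hν : 0 ≤ ν)
    (hT : T = x ^ (1 - th + s)) (hM : Mr ≤ x ^ m) (hM0 : 0 ≤ Mr) (hq : q = x ^ k)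
    (hmk : 0 ≤ m - k + s) (hE : E ≤ x ^ (m + 2 * ν)) (hE0 : 0 ≤ E)
    (hLg : Lg ≤ x ^ ν)
    (hY : Y = x ^ (m + v - s)) (hvol : vol = x ^ j)
    (hB : 4 * C ≤ x ^ ν)
    (h : vol ≤ C * Lg * (Mr / q + 1) * (E / Y) * (1 + T * E ^ 2 / Y ^ 2)) :
    j ≤ m - k - v + max 0 (1 - th - 2 * v) + (5 * s + 8 * ν) := by
  have hx0 : 0 < x := by linarith only [hx]
  have hq0 : 0 < q := by rw [hq]; exact Real.rpow_pos_of_pos hx0 _
  have hY0 : 0 < Y := by rw [hY]; exact Real.rpow_pos_of_pos hx0 _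
  have hT0 : 0 < T := by rw [hT]; exact Real.rpow_pos_of_pos hx0 _
  obtain ⟨μ, hμ⟩ : ∃ μ, μ = max 0 (1 - th - 2 * v) := ⟨_, rfl⟩
  have l1 : 0 ≤ μ := hμ ▸ le_max_left _ _
  have l2 : 1 - th - 2 * v ≤ μ := hμ ▸ le_max_right _ _
  rw [← hμ]
  have e1 : Mr / q + 1 ≤ 2 * x ^ (m - k + s) := by
    have a1 : Mr / q ≤ x ^ (m - k + s) := by
      calc Mr / q ≤ x ^ m / q := by gcongr
        _ = x ^ (m - k) := by rw [Real.rpow_sub hx0, hq]
        _ ≤ x ^ (m - k + s) := Real.rpow_le_rpow_of_exponent_le hx.le (by linarith only [hs])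
    have a2 : 1 ≤ x ^ (m - k + s) := Real.one_le_rpow hx.le hmk
    linarith only [a1, a2]
  have e2 : E / Y ≤ x ^ (2 * ν - v + s) := by
    calc E / Y ≤ x ^ (m + 2 * ν) / Y := by gcongr
      _ = x ^ (m + 2 * ν - (m + v - s)) := by rw [Real.rpow_sub hx0, hY]
      _ = x ^ (2 * ν - v + s) := by congr 1; ring
  have e20 : 0 ≤ E / Y := by (clear * - hE0 hY0; positivity)
  have e3 : 1 + T * E ^ 2 / Y ^ 2 ≤ 2 * x ^ (μ + 3 * s + 4 * ν) := by
    have a1 : T * E ^ 2 / Y ^ 2 ≤ x ^ (μ + 3 * s + 4 * ν) := by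
      calc T * E ^ 2 / Y ^ 2 = T * ((E / Y) * (E / Y)) := by field_simp
        _ ≤ T * (x ^ (2 * ν - v + s) * x ^ (2 * ν - v + s)) := by gcongr
        _ = x ^ (1 - th + s + (2 * ν - v + s + (2 * ν - v + s))) := by
            rw [Real.rpow_add hx0 (1 - th + s), Real.rpow_add hx0 (2 * ν - v + s) (2 * ν - v + s), hT]
        _ ≤ x ^ (μ + 3 * s + 4 * ν) := Real.rpow_le_rpow_of_exponent_le hx.le (by linarith only [l2])
    have a2 : 1 ≤ x ^ (μ + 3 * s + 4 * ν) := Real.one_le_rpow hx.le (by (clear * - hs hν l1; positivity))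
    linarith only [a1, a2]
  have e30 : 0 ≤ 1 + T * E ^ 2 / Y ^ 2 := by (clear * - hY0 hT0; positivity)
  have e10 : 0 ≤ Mr / q + 1 := by (clear * - hM0 hq0; positivity)
  have h3 : vol ≤ x ^ ν * x ^ ν * x ^ (m - k + s) * x ^ (2 * ν - v + s) *
      x ^ (μ + 3 * s + 4 * ν) := by
    calc vol ≤ C * Lg * (Mr / q + 1) * (E / Y) * (1 + T * E ^ 2 / Y ^ 2) := h
      _ ≤ C * x ^ ν * (2 * x ^ (m - k + s)) * x ^ (2 * ν - v + s) *
          (2 * x ^ (μ + 3 * s + 4 * ν)) := by gcongr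
      _ = (4 * C) * x ^ ν * x ^ (m - k + s) * x ^ (2 * ν - v + s) *
          x ^ (μ + 3 * s + 4 * ν) := by ring
      _ ≤ x ^ ν * x ^ ν * x ^ (m - k + s) * x ^ (2 * ν - v + s) *
          x ^ (μ + 3 * s + 4 * ν) := by gcongr
  rw [hvol, ← Real.rpow_add hx0, ← Real.rpow_add hx0, ← Real.rpow_add hx0,
    ← Real.rpow_add hx0] at h3
  have := exp_le hx h3
  linarith only [this]

end VlvAux

open VlvAux in
theorem vlv (ε e1 c : ℝ) (hε : 0 < ε) (he1 : 0 < e1) (hc : 0 < c) : ∃ s : ℝ, 0 < s ∧ ∀ᶠ X : ℕ in atTop,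
    ∀ (J q h : ℕ) (e : Fin J → ℕ) (G : Fin J → ArithmeticFunction ℂ) (V : Fin J → ℝ) (Ac : Finset (Fin J)) (Tt : Set ℝ),
    3 ≤ J → J ≤ 5 → (X : ℝ) ^ (1 / 6 + ε) ≤ h → (h : ℝ) ≤ (X : ℝ) ^ (2 / 5 : ℝ) → 1 ≤ q → (q : ℝ) ≤ h * (X : ℝ) ^ (-e1) →
    (∀ i, 1 ≤ e i ∧ h * (X : ℝ) ^ (-s) ≤ (2 : ℝ) ^ e i ∧ (2 : ℝ) ^ e i ≤ Real.sqrt (X / h) * (X : ℝ) ^ s) →
    (X : ℝ) ^ (1 - s) ≤ ∏ i, (2 : ℝ) ^ e i → ∏ i, (2 : ℝ) ^ e i ≤ (X : ℝ) ^ (1 + s) →
    (∀ i n, ‖G i n‖ ≤ 1) → (∀ i n, G i n ≠ 0 → 2 ^ (e i - 1) < n ∧ n ≤ 2 ^ e i) →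
    (∀ i, 0 ≤ V i ∧ (2 : ℝ) ^ e i ≤ V i ^ 2 ∧ V i ^ 2 ≤ ((2 : ℝ) ^ e i) ^ 2 * (X : ℝ) ^ (-c)) →
    (∀ i, i ∉ Ac → V i ^ 2 = (2 : ℝ) ^ e i) →
    MeasurableSet Tt → Tt ⊆ Set.Icc (-(X / h * (X : ℝ) ^ s)) (X / h * (X : ℝ) ^ s) →
    (∀ D : Finset (Fin J), D ⊆ Ac → D.Nonempty → ∀ t ∈ Tt,
      (X : ℝ) ^ (-s) * ∏ i ∈ D, V i ^ 2 ≤ UU q (bx D e) (⇑(∏ i ∈ D, G i : ArithmeticFunction ℂ)) t) →
    volume.real Tt * (q * ∏ i, V i ^ 2) ≤ (X : ℝ) ^ (2 - s) := by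
  classical
  obtain ⟨s1, hs1, H1⟩ := expo ε e1 c hε he1 hc
  obtain ⟨s₀, hs₀⟩ : ∃ s₀, s₀ = min s1 (1 / 10) := ⟨_, rfl⟩
  have hs₀1 : s₀ ≤ s1 := hs₀ ▸ min_le_left _ _
  have hs₀2 : s₀ ≤ 1 / 10 := hs₀ ▸ min_le_right _ _
  have hs₀0 : 0 < s₀ := hs₀ ▸ lt_min hs1 (by norm_num)
  obtain ⟨s, hs⟩ : ∃ s, s = s₀ / 20 := ⟨_, rfl⟩
  have hs0 : 0 < s := by rw [hs]; positivity
  obtain ⟨ν, hν⟩ : ∃ ν, ν = s / 100 := ⟨_, rfl⟩
  have hν0 : 0 < ν := by rw [hν]; positivity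
  obtain ⟨C1, hC1, L1⟩ := lv1
  obtain ⟨C2, hC2, L2⟩ := lv2
  obtain ⟨C3, hC3, L3⟩ := lv3
  obtain ⟨C4, hC4, T4⟩ := tau_small (ν / 20) (by positivity)
  have hev : ∀ᶠ X : ℕ in atTop,
      4 * C1 + 4 * C2 + 4 * C3 + C4 ^ 5 + 2 + 16 / ν ≤ (X : ℝ) ^ (ν / 8) :=
    ((tendsto_rpow_atTop (by positivity)).comp tendsto_natCast_atTop_atTop).eventually_ge_atTop _
  refine ⟨s, hs0, ?_⟩
  filter_upwards [hev, eventually_ge_atTop 3] with X hX hX3
  intro J q h e G V Ac Tt hJ3 hJ5 hh1 hh2 hq1 hq2 he hP1 hP2 hG1 hG2 hV hAc hTm hTs hU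
  obtain ⟨x, hx⟩ : ∃ x : ℝ, x = (X : ℝ) := ⟨_, rfl⟩
  rw [← hx] at hX hh1 hh2 hq2 he hP1 hP2 hV hTs hU ⊢
  have hx3 : 3 ≤ x := by rw [hx]; exact_mod_cast hX3
  have hx1 : 1 < x := by linarith only [hx3]
  have hx0 : 0 < x := by linarith only [hx3]
  have hsp : ∀ a b : ℝ, a ≤ b → x ^ a ≤ x ^ b := fun a b hab =>
    Real.rpow_le_rpow_of_exponent_le hx1.le hab
  have hpp : ∀ a : ℝ, 0 < x ^ a := fun a => Real.rpow_pos_of_pos hx0 a
  have rep : ∀ a : ℝ, 0 < a → ∃ b : ℝ, a = x ^ b := fun a ha =>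
    ⟨Real.logb x a, (Real.rpow_logb hx0 hx1.ne' ha).symm⟩
  -- constants
  have h16 : 0 < 16 / ν := by (clear * - hν0; positivity)
  have hC45 : 1 ≤ C4 ^ 5 := one_le_pow₀ hC4
  have hν8 : x ^ (ν / 8) ≤ x ^ ν := hsp _ _ (by linarith only [hν0])
  have hν2 : x ^ (ν / 8) ≤ x ^ (ν / 2) := hsp _ _ (by linarith only [hν0])
  have hB1 : 4 * C1 ≤ x ^ ν := by linarith only [hC2, hC3, hX, h16, hC45, hν8]
  have hB2 : 4 * C2 ≤ x ^ ν := by linarith only [hC1, hC3, hX, h16, hC45, hν8]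
  have hB3 : 4 * C3 ≤ x ^ ν := by linarith only [hC1, hC2, hX, h16, hC45, hν8]
  have hB4 : C4 ^ 5 ≤ x ^ (ν / 2) := by linarith only [hC1, hC2, hC3, hX, h16, hν2]
  have hB5 : 2 ≤ x ^ ν := by linarith only [hC1, hC2, hC3, hX, h16, hC45, hν8]
  have hLg : (2 + 2 * Real.log x) ^ 4 ≤ x ^ ν := by
    have h1 : Real.log x ≤ x ^ (ν / 8) / (ν / 8) := Real.log_le_rpow_div hx0.le (by (clear * - hν0; positivity))
    have h2 : x ^ (ν / 8) / (ν / 8) = 8 / ν * x ^ (ν / 8) := by field_simp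
    have h3 : 1 ≤ x ^ (ν / 8) := Real.one_le_rpow hx1.le (by (clear * - hν0; positivity))
    have h4 : 2 + 2 * Real.log x ≤ x ^ (ν / 8) * x ^ (ν / 8) := by
      have h5 : (2 + 16 / ν) * x ^ (ν / 8) ≤ x ^ (ν / 8) * x ^ (ν / 8) := by
        apply mul_le_mul_of_nonneg_right _ (hpp _).le
        linarith only [hC1, hC2, hC3, hX, hC45]
      have h6 : 16 / ν = 2 * (8 / ν) := by ring
      rw [h6] at h5
      rw [h2] at h1
      nlinarith only [hC1, hC2, hC3, hX, h16, hC45, h1, h5, hpp (ν / 8)]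
    have h0 : 0 ≤ Real.log x := Real.log_nonneg hx1.le
    calc (2 + 2 * Real.log x) ^ 4 ≤ (x ^ (ν / 8) * x ^ (ν / 8)) ^ 4 := by gcongr
      _ = x ^ (ν / 8 * 8) := by
          rw [Real.rpow_mul hx0.le, show (8 : ℝ) = ((8 : ℕ) : ℝ) by norm_num, Real.rpow_natCast]
          push_cast
          ring
      _ = x ^ ν := by congr 1; ring
  -- exponents
  have hh0 : (0 : ℝ) < h := lt_of_lt_of_le (hpp _) hh1
  have hq0 : (0 : ℝ) < q := by exact_mod_cast hq1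
  obtain ⟨th, hth⟩ := rep h hh0
  obtain ⟨k, hk⟩ := rep q hq0
  have hn' : ∀ i, ∃ b : ℝ, (2 : ℝ) ^ e i = x ^ b := fun i => rep _ (by (clear * -; positivity))
  choose n hn using hn'
  have hV0 : ∀ i, 0 < V i ^ 2 := fun i => lt_of_lt_of_le (by (clear * -; positivity)) (hV i).2.1
  have hv' : ∀ i, ∃ b : ℝ, V i ^ 2 = x ^ (n i + b) := fun i => by
    obtain ⟨b, hb⟩ := rep _ (hV0 i)
    exact ⟨b - n i, by rw [hb]; congr 1; ring⟩
  choose v hv using hv'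
  have f1 : 1 / 6 + ε ≤ th := exp_le hx1 (by rw [← hth]; exact hh1)
  have f2 : th ≤ 2 / 5 := exp_le hx1 (by rw [← hth]; exact hh2)
  have f3 : 0 ≤ k := exp_le hx1 (by rw [← hk, Real.rpow_zero]; exact_mod_cast hq1)
  have f4 : k ≤ th - e1 := exp_le hx1 (by
    rw [← hk, sub_eq_add_neg, Real.rpow_add hx0, ← hth]; exact hq2)
  have f5 : ∀ i, th - s ≤ n i := fun i => exp_le hx1 (by
    rw [← hn, sub_eq_add_neg, Real.rpow_add hx0, ← hth]; exact (he i).2.1)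
  have hXh : x / h = x ^ (1 - th) := by
    rw [Real.rpow_sub hx0, Real.rpow_one, ← hth]
  have f6 : ∀ i, n i ≤ (1 - th) / 2 + s := fun i => exp_le hx1 (by
    rw [← hn, Real.rpow_add hx0]
    refine (he i).2.2.trans (le_of_eq ?_)
    rw [hXh, Real.sqrt_eq_rpow, ← Real.rpow_mul hx0.le]
    congr 2
    ring)
  have hprod : ∀ D : Finset (Fin J), ∏ i ∈ D, (2 : ℝ) ^ e i = x ^ (∑ i ∈ D, n i) := fun D => by
    rw [Real.rpow_sum_of_pos hx0]
    exact Finset.prod_congr rfl fun i _ => hn i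
  have hprodV : ∀ D : Finset (Fin J), ∏ i ∈ D, V i ^ 2 = x ^ (∑ i ∈ D, n i + ∑ i ∈ D, v i) := by
    intro D
    rw [← Finset.sum_add_distrib, Real.rpow_sum_of_pos hx0]
    exact Finset.prod_congr rfl fun i _ => hv i
  have f7 : 1 - s ≤ ∑ i, n i := exp_le hx1 (by rw [← hprod]; exact hP1)
  have f8 : ∑ i, n i ≤ 1 + s := exp_le hx1 (by rw [← hprod]; exact hP2)
  have f9 : ∀ i, 0 ≤ v i := fun i => by
    have := exp_le hx1 (a := n i) (b := n i + v i) (by rw [← hv, ← hn]; exact (hV i).2.1)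
    linarith only [this]
  have f10 : ∀ i, v i ≤ n i - c := fun i => by
    have := exp_le hx1 (a := n i + v i) (b := n i + n i + -c) (by
      rw [← hv, Real.rpow_add hx0 (n i + n i), Real.rpow_add hx0, ← hn, ← sq]
      exact (hV i).2.2)
    linarith only [this]
  have f11 : ∀ i, 0 ≤ n i := fun i => exp_le hx1 (by
    rw [← hn, Real.rpow_zero]; exact one_le_pow₀ (by norm_num))
  have f12 : ∀ i, i ∉ Ac → v i = 0 := fun i hi => by
    have h1 := hAc i hi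
    rw [hv, hn] at h1
    have h2 := exp_le hx1 h1.le
    have h3 := f9 i
    linarith only [h2, h3]
  -- the volume
  rcases (measureReal_nonneg (μ := volume) (s := Tt)).eq_or_lt with hv0 | hv0
  · rw [← hv0, zero_mul]
    exact (hpp _).le
  obtain ⟨j, hj⟩ := rep _ hv0
  obtain ⟨T, hT'⟩ : ∃ T : ℝ, T = x / h * x ^ s := ⟨_, rfl⟩
  rw [← hT'] at hTs
  have hT : T = x ^ (1 - th + s) := by rw [hT', hXh, ← Real.rpow_add hx0]
  have hT1 : 1 ≤ T := by rw [hT]; exact Real.one_le_rpow hx1.le (by linarith only [hε, hs₀0, hs, f1, f2])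
  have hT2 : T ≤ x ^ (2 : ℝ) := by rw [hT]; exact hsp _ _ (by linarith only [hε, hs₀2, hs, f1])
  have f13 : j ≤ 1 - th + s + ν := by
    have h1 : volume.real Tt ≤ 2 * T := by
      have h2 : volume.real Tt ≤ volume.real (Set.Icc (-T) T) :=
        measureReal_mono hTs (by simp)
      rw [Real.volume_real_Icc_of_le (by linarith only [hT1])] at h2
      linarith only [h2]
    apply exp_le hx1
    rw [← hj, Real.rpow_add hx0, ← hT]
    calc volume.real Tt ≤ 2 * T := h1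
      _ ≤ x ^ ν * T := by gcongr
      _ = T * x ^ ν := mul_comm _ _
  have hsumle : ∀ D : Finset (Fin J), ∑ i ∈ D, n i ≤ ∑ i, n i := fun D =>
    Finset.sum_le_sum_of_subset_of_nonneg (Finset.subset_univ D) fun i _ _ => f11 i
  have hnle : ∀ (D : Finset (Fin J)), D.Nonempty → th - s ≤ ∑ i ∈ D, n i := by
    rintro D ⟨i, hi⟩
    exact (f5 i).trans (Finset.single_le_sum (f := n) (fun i _ => f11 i) hi)
  -- the main bounds
  have key : ∀ D : Finset (Fin J), D ⊆ Ac → D.Nonempty →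
      j ≤ max (1 - th) (∑ i ∈ D, n i - k) - ∑ i ∈ D, v i + s₀ ∧
      (3 * s₀ ≤ ∑ i ∈ D, v i →
        j ≤ max (1 - th - k) (2 * ∑ i ∈ D, n i - 2 * k) - 2 * ∑ i ∈ D, v i + s₀) ∧
      j ≤ ∑ i ∈ D, n i - k - ∑ i ∈ D, v i + max 0 (1 - th - 2 * ∑ i ∈ D, v i) + s₀ := by
    intro D hD hDn
    obtain ⟨m, hm⟩ : ∃ m, m = ∑ i ∈ D, n i := ⟨_, rfl⟩
    obtain ⟨w, hw⟩ : ∃ w, w = ∑ i ∈ D, v i := ⟨_, rfl⟩
    obtain ⟨M, hM⟩ : ∃ M : ℕ, M = ∏ i ∈ D, 2 ^ (e i - 1) := ⟨_, rfl⟩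
    have hm1 : th - s ≤ m := hm ▸ hnle D hDn
    have hm2 : m ≤ 1 + s := hm ▸ (hsumle D).trans f8
    have hM1 : 1 ≤ M := by
      rw [hM]
      exact Finset.one_le_prod' fun i _ => Nat.one_le_two_pow
    have hcard : D.card ≤ 5 := by
      have := Finset.card_le_univ D
      rw [Fintype.card_fin] at this
      omega
    have hPN : ∏ i ∈ D, 2 ^ e i = 2 ^ D.card * M := by
      rw [hM, ← Finset.prod_const, ← Finset.prod_mul_distrib]
      refine Finset.prod_congr rfl fun i _ => ?_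
      rw [← pow_succ', Nat.sub_add_cancel (he i).1]
    have hPx : ((∏ i ∈ D, 2 ^ e i : ℕ) : ℝ) = x ^ m := by
      push_cast
      rw [hprod, hm]
    have h2c : 2 ^ D.card ≤ 32 := by
      calc 2 ^ D.card ≤ 2 ^ 5 := Nat.pow_le_pow_right (by norm_num) hcard
        _ = 32 := by norm_num
    have hS : ∀ a ∈ bx D e, M < a ∧ a ≤ 32 * M := by
      intro a ha
      rw [bx, Finset.mem_Ioc, ← hM, hPN] at ha
      exact ⟨ha.1, ha.2.trans (Nat.mul_le_mul_right _ h2c)⟩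
    have hMm : (M : ℝ) ≤ x ^ m := by
      rw [← hPx]
      have : M ≤ ∏ i ∈ D, 2 ^ e i := by
        rw [hPN]
        exact Nat.le_mul_of_pos_left _ (by (clear * -; positivity))
      exact_mod_cast this
    have hm2' : x ^ m ≤ x ^ (2 : ℝ) := hsp _ _ (by linarith only [hs₀2, hs, hν, hν0, hm2])
    have hR : ∀ a ∈ bx D e, ‖(∏ i ∈ D, G i) a‖ ≤ x ^ ν := by
      intro a ha
      rw [bx, Finset.mem_Ioc] at ha
      have ha1 : 1 ≤ a := by omega
      have ha2 : (a : ℝ) ≤ x ^ (2 : ℝ) := by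
        have : (a : ℝ) ≤ ((∏ i ∈ D, 2 ^ e i : ℕ) : ℝ) := by exact_mod_cast ha.2
        rw [hPx] at this
        exact this.trans hm2'
      have h1 := prod_bound D G (fun i _ b => hG1 i b) a
      have h2 := T4 a ha1
      have h3 : (a : ℝ) ^ (ν / 20) ≤ x ^ (ν / 10) := by
        calc (a : ℝ) ^ (ν / 20) ≤ (x ^ (2 : ℝ)) ^ (ν / 20) := by gcongr
          _ = x ^ (ν / 10) := by
              rw [← Real.rpow_mul hx0.le]
              congr 1
              ring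
      have h4 : 1 ≤ C4 * x ^ (ν / 10) :=
        one_le_mul_of_one_le_of_one_le hC4 (Real.one_le_rpow hx1.le (by (clear * - hν0; positivity)))
      calc ‖(∏ i ∈ D, G i) a‖ ≤ (a.divisors.card : ℝ) ^ D.card := h1
        _ ≤ (C4 * x ^ (ν / 10)) ^ D.card := by
            gcongr
            exact h2.trans (by gcongr)
        _ ≤ (C4 * x ^ (ν / 10)) ^ 5 := pow_le_pow_right₀ h4 hcard
        _ = C4 ^ 5 * x ^ (ν / 2) := by
            rw [mul_pow, ← Real.rpow_natCast (x ^ (ν / 10)), ← Real.rpow_mul hx0.le]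
            congr 2
            push_cast
            ring
        _ ≤ x ^ (ν / 2) * x ^ (ν / 2) := by gcongr
        _ = x ^ ν := by
            rw [← Real.rpow_add hx0]
            congr 1
            ring
    obtain ⟨E, hE⟩ : ∃ E : ℝ, E = ∑ a ∈ bx D e, ‖(∏ i ∈ D, G i) a‖ ^ 2 := ⟨_, rfl⟩
    have hE0 : 0 ≤ E := by rw [hE]; (clear * -; positivity)
    have hEle : E ≤ x ^ (m + 2 * ν) := by
      calc E ≤ ∑ a ∈ bx D e, (x ^ ν) ^ 2 := by
            rw [hE]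
            exact Finset.sum_le_sum fun a ha => by
              have := hR a ha
              gcongr
        _ = (bx D e).card * (x ^ ν) ^ 2 := by rw [Finset.sum_const, nsmul_eq_mul]
        _ ≤ x ^ m * (x ^ ν) ^ 2 := by
            gcongr
            rw [← hPx, bx, Nat.card_Ioc]
            exact_mod_cast Nat.sub_le _ _
        _ = x ^ (m + 2 * ν) := by
            rw [Real.rpow_add hx0, two_mul, Real.rpow_add hx0]
            ring
    obtain ⟨Y, hY'⟩ : ∃ Y : ℝ, Y = x ^ (-s) * ∏ i ∈ D, V i ^ 2 := ⟨_, rfl⟩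
    have hY : Y = x ^ (m + w - s) := by
      rw [hY', hprodV, ← Real.rpow_add hx0, ← hm, ← hw]
      congr 1
      ring
    have hY0 : 0 < Y := by rw [hY]; exact hpp _
    have hUD : ∀ t ∈ Tt, Y ≤ UU q (bx D e) (⇑(∏ i ∈ D, G i : ArithmeticFunction ℂ)) t := by
      intro t ht
      rw [hY']
      exact hU D hD hDn t ht
    have hlogM : 1 + Real.log M ≤ 2 + 2 * Real.log x := by
      have h1 : Real.log M ≤ Real.log (x ^ (2 : ℝ)) :=
        Real.log_le_log (by exact_mod_cast hM1) (hMm.trans hm2')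
      rw [Real.log_rpow hx0] at h1
      linarith only [h1]
    have hlogM0 : 0 ≤ Real.log M := Real.log_nonneg (by exact_mod_cast hM1)
    have hlogMT : 1 + Real.log (M + T) ≤ 2 + 2 * Real.log x := by
      have h1 : Real.log (M + T) ≤ Real.log (2 * x ^ (2 : ℝ)) :=
        Real.log_le_log (by (clear * - hT1 hM1; positivity)) (by linarith only [hT2, hMm, hm2', hMm.trans hm2'])
      rw [Real.log_mul (by norm_num) (hpp _).ne', Real.log_rpow hx0] at h1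
      have h2 : Real.log 2 ≤ 1 := by linarith only [Real.log_two_lt_d9]
      linarith only [h1, h2]
    have hlogMT0 : 0 ≤ Real.log (M + T) :=
      Real.log_nonneg (by have : (1 : ℝ) ≤ M := by exact_mod_cast hM1
                          linarith only [hT1, this])
    have hlx0 : 0 ≤ Real.log x := Real.log_nonneg hx1.le
    rw [← hm, ← hw]
    refine ⟨?_, ?_, ?_⟩
    · have h1 := L1 q M (bx D e) (⇑(∏ i ∈ D, G i : ArithmeticFunction ℂ)) T Y Tt hq1 hM1 hS hT1 hY0 hTm hTs hUD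
      rw [← hE] at h1
      have h2 := mvt_exp (ν := ν) hx1 (by linarith only [hC1]) hs0.le hT hMm hk hEle hE0 hY hj hB1 h1
      linarith only [hs, hs0, hν, h2]
    · intro hw3
      have h2E : 2 * E ≤ Y := by
        calc 2 * E ≤ x ^ ν * x ^ (m + 2 * ν) := by gcongr
          _ = x ^ (ν + (m + 2 * ν)) := by rw [← Real.rpow_add hx0]
          _ ≤ x ^ (m + w - s) := hsp _ _ (by linarith only [hs, hs0, hν, hw3])
          _ = Y := hY.symm
      have h1 := L2 q M (bx D e) (⇑(∏ i ∈ D, G i : ArithmeticFunction ℂ)) T Y (x ^ ν) Tt hq1 hM1 hS hR (hpp _).le hT1 hY0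
        (by rw [← hE]; exact h2E) hTm hTs hUD
      have h3 : (1 + Real.log M) ^ 2 ≤ x ^ ν := by
        calc (1 + Real.log M) ^ 2 ≤ (2 + 2 * Real.log x) ^ 2 := by gcongr
          _ ≤ (2 + 2 * Real.log x) ^ 4 := pow_le_pow_right₀ (by linarith only [hlx0]) (by norm_num)
          _ ≤ x ^ ν := hLg
      have h2 := c2_exp (ν := ν) hx1 (by linarith only [hC2]) hs0.le hT hMm (by (clear * - hM1; positivity)) hk rfl h3
        (by (clear * -; positivity)) hY hj hB2 h1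
      linarith only [hs, hs0, hν, h2]
    · have h1 := L3 q M (bx D e) (⇑(∏ i ∈ D, G i : ArithmeticFunction ℂ)) T Y Tt hq1 hM1 hS hT1 hY0 hTm hTs hUD
      rw [← hE] at h1
      have h3 : (1 + Real.log (M + T)) ^ 4 ≤ x ^ ν := by
        calc (1 + Real.log (M + T)) ^ 4 ≤ (2 + 2 * Real.log x) ^ 4 := by gcongr
          _ ≤ x ^ ν := hLg
      have h2 := hm_exp (ν := ν) hx1 (by linarith only [hC3]) hs0.le hν0.le hT hMm (by (clear * - hM1; positivity)) hk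
        (by linarith only [he1, f4, hm1]) hEle hE0 h3 hY hj hB3 h1
      linarith only [hs, hs0, hν, h2]
  -- arbitrary subsets
  have hD' : ∀ D : Finset (Fin J), ∑ i ∈ D ∩ Ac, v i = ∑ i ∈ D, v i ∧
      ∑ i ∈ D ∩ Ac, n i ≤ ∑ i ∈ D, n i := by
    intro D
    constructor
    · refine Finset.sum_subset Finset.inter_subset_left fun i hi hi' => f12 i fun h => ?_
      exact hi' (Finset.mem_inter.2 ⟨hi, h⟩)
    · exact Finset.sum_le_sum_of_subset_of_nonneg Finset.inter_subset_left fun i _ _ => f11 i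
  have g1 : ∀ D : Finset (Fin J), D.Nonempty →
      j ≤ max (1 - th) (∑ i ∈ D, n i - k) - ∑ i ∈ D, v i + s₀ := by
    intro D hD
    obtain ⟨h1, h2⟩ := hD' D
    rcases (D ∩ Ac).eq_empty_or_nonempty with h0 | h0
    · rw [h0, Finset.sum_empty] at h1
      rw [← h1]
      have := le_max_left (1 - th) (∑ i ∈ D, n i - k)
      linarith only [hs, hs0, hν, f13, this]
    · have h3 := (key _ Finset.inter_subset_right h0).1
      rw [h1] at h3
      have h4 : max (1 - th) (∑ i ∈ D ∩ Ac, n i - k) ≤ max (1 - th) (∑ i ∈ D, n i - k) :=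
        max_le_max le_rfl (by linarith only [h2])
      linarith only [h3, h4]
  have g2 : ∀ D : Finset (Fin J), D.Nonempty → 3 * s₀ ≤ ∑ i ∈ D, v i →
      j ≤ max (1 - th - k) (2 * ∑ i ∈ D, n i - 2 * k) - 2 * ∑ i ∈ D, v i + s₀ := by
    intro D hD hw
    obtain ⟨h1, h2⟩ := hD' D
    rcases (D ∩ Ac).eq_empty_or_nonempty with h0 | h0
    · rw [h0, Finset.sum_empty] at h1
      linarith only [hs₀0, hw, h1]
    · have h3 := (key _ Finset.inter_subset_right h0).2.1 (by rw [h1]; exact hw)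
      rw [h1] at h3
      have h4 : max (1 - th - k) (2 * ∑ i ∈ D ∩ Ac, n i - 2 * k)
          ≤ max (1 - th - k) (2 * ∑ i ∈ D, n i - 2 * k) :=
        max_le_max le_rfl (by linarith only [h2])
      linarith only [h3, h4]
  have g3 : ∀ D : Finset (Fin J), D.Nonempty →
      j ≤ ∑ i ∈ D, n i - k - ∑ i ∈ D, v i + max 0 (1 - th - 2 * ∑ i ∈ D, v i) + s₀ := by
    intro D hD
    obtain ⟨h1, h2⟩ := hD' D
    rcases (D ∩ Ac).eq_empty_or_nonempty with h0 | h0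
    · rw [h0, Finset.sum_empty] at h1
      rw [← h1]
      have h3 := le_max_right 0 (1 - th - 2 * 0)
      have h4 := hnle D hD
      linarith only [he1, hs, hν, hν0, f4, f13, h3, h4]
    · have h3 := (key _ Finset.inter_subset_right h0).2.2
      rw [h1] at h3
      linarith only [h2, h3]
  have hfin := H1 J th k j n v hJ3 hJ5 f1 f2 f3 f4 (fun i => by linarith only [hs1, hs₀1, hs, f5, f5 i])
    (fun i => by linarith only [hs1, hs₀1, hs, f6, f6 i]) (by linarith only [hs1, hs₀1, hs, f7]) (by linarith only [hs₀1, hs, hν, hν0, f8]) f9 f10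
    (fun D hD => by linarith only [hs₀1, g1, hD, g1 D hD]) (fun D hD hw => by linarith only [hs₀1, g2, hD, hw, g2 D hD (by linarith only [hs₀1, hw])])
    (fun D hD => by linarith only [hs₀1, g3, hD, g3 D hD]) (by linarith only [hs₀1, hs, hs0, hν, f13])
  rw [hprodV, hk, hj, ← Real.rpow_add hx0, ← Real.rpow_add hx0]
  exact hsp _ _ (by linarith only [hs1, hs₀1, hs, f8, hfin])

end Pool.Agent.VM
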