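import Pool.Agent.Lib.VM.DClass
import Pool.Agent.Lib.VM.SmoothBd
import Pool.Agent.Lib.VM.Vlv

/-!
# Module Djs: D class, one character of small modulus, integral bound

Let `c0` be the value of `smooth_bd (1/10)`, `c = min c0 (1/10)`, `s2` the value of `vlv ε (1/20) c` (used with modulus `1`; may be taken
`≤ c0, ε, 1/100`), `s = s2/100`. `G' i` = the pointwise product of `G i` with `χ`. For `t` in `[t0,t1]` put
`L_i(t) = ∑_{n ∈ Ioc (2^(e i - 1)) (2^(e i))} G i n (χ(n) n^(-it)) = ∑_{n ∈ Ioc (y i) (2^(e i))} χ(n) n^(-it)`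
(`χ(n) = 0` if `n` is not coprime to `q`), so `|L_i(t)| ≤ 2^(e i) X^(-c0)` by `smooth_bd` (`2^(e i) ≥ h X^(-s) ≥ X^(1/10)`,
`2^(e i) ≤ 2 y i`, `|t| ≤ X`; `f a = χ a`).
`dp_mul`, `dp_prod`: the Dirichlet polynomial is `A(t) ∏ L_i(t)`, `|A(t)| ≤ P X^s ≤ X^(2s)`.
Levels as in module Djl: `k_i = 0` if `|L_i|² ≤ 2^(e i)`, otherwise `2^(e i) 4^(k_i-1) < |L_i|² ≤ 2^(e i) 4^(k_i)`, `V_i`, `Ac` as there.
`Tt` = the set of the `t` of level `k`. For `D ⊆ Ac`: `UU 1 (bx D e) (∏_{i ∈ D} G' i) t = |∏_{i ∈ D} L_i(t)|² ≥ ∏ V_i²` (`dp_prod` for `G'`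
with the twist `n^(-it)`). If `Tt` is nonempty, `V_i² ≤ |L_i|² ≤ (2^(e i))² X^(-c)` for `i ∈ Ac`, and for `i ∉ Ac` it is clear. `vlv` with
modulus `1` (`1 ≤ h X^(-1/20)`): `vol(Tt) ∏ V_i² ≤ X^(2 - s2)`, so `∫_{Tt} |A ∏ L_i|² ≤ X^(4s) 4^5 ∏ V_i² vol(Tt) ≤ 4^5 X^(2 + 4s - s2)`. Sum over
the `≤ (3 log X + 3)^5` levels.
-/

set_option autoImplicit false

open Finset Filter MeasureTheory

namespace Pool.Agent.VM

open Pool.Agent.VK Pool.Agent.HLT

namespace DjsAux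

/-- pointwise twist by a character -/
noncomputable def tw {q : ℕ} (χ : DirichletCharacter ℂ q) (f : ArithmeticFunction ℂ) :
    ArithmeticFunction ℂ :=
  ⟨fun n => f n * χ (n : ZMod q), by simp⟩

lemma tw_apply {q : ℕ} (χ : DirichletCharacter ℂ q) (f : ArithmeticFunction ℂ) (n : ℕ) :
    tw χ f n = f n * χ (n : ZMod q) := rfl

lemma dp_supp {J : ℕ} (D : Finset (Fin J)) (hD : D.Nonempty) (e : Fin J → ℕ)
    (G : Fin J → ArithmeticFunction ℂ)
    (hG : ∀ i n, G i n ≠ 0 → 2 ^ (e i - 1) < n ∧ n ≤ 2 ^ e i) :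
    ∀ n, (∏ i ∈ D, G i) n ≠ 0 → ∏ i ∈ D, 2 ^ (e i - 1) < n ∧ n ≤ ∏ i ∈ D, 2 ^ e i := by
  induction hD using Finset.Nonempty.cons_induction with
  | singleton a =>
    intro n hn
    rw [Finset.prod_singleton] at hn
    rw [Finset.prod_singleton, Finset.prod_singleton]
    exact hG a n hn
  | cons a s ha hs ih =>
    intro n hn
    rw [Finset.prod_cons, ArithmeticFunction.mul_apply] at hn
    obtain ⟨x, hx, hx'⟩ := Finset.exists_ne_zero_of_sum_ne_zero hn
    rw [Nat.mem_divisorsAntidiagonal] at hx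
    have h1 := hG a x.1 (left_ne_zero_of_mul hx')
    have h2 := ih x.2 (right_ne_zero_of_mul hx')
    rw [Finset.prod_cons, Finset.prod_cons, ← hx.1]
    exact ⟨Nat.mul_lt_mul'' h1.1 h2.1, Nat.mul_le_mul h1.2 h2.2⟩

/-- the Dirichlet polynomial of a cell -/
noncomputable def LL {J q : ℕ} (χ : DirichletCharacter ℂ q) (G : Fin J → ArithmeticFunction ℂ)
    (e : Fin J → ℕ) (i : Fin J) (t : ℝ) : ℂ :=
  ∑ n ∈ Ioc (2 ^ (e i - 1)) (2 ^ e i), G i n * (χ (n : ZMod q) * nit n t)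

lemma cont_nit {n : ℕ} (hn : 1 ≤ n) : Continuous fun t : ℝ => nit n t := by
  unfold nit
  have h0 : ((n : ℝ) : ℂ) ≠ 0 := by
    have : (n : ℝ) ≠ 0 := by positivity
    exact_mod_cast this
  exact Continuous.const_cpow (by fun_prop) (Or.inl h0)

lemma cont_sum (S : Finset ℕ) (hS : ∀ n ∈ S, 1 ≤ n) (f g : ℕ → ℂ) :
    Continuous fun t : ℝ => ∑ n ∈ S, f n * (g n * nit n t) := by
  refine continuous_finsetSum _ fun n hn => ?_
  exact continuous_const.mul (continuous_const.mul (cont_nit (hS n hn)))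

lemma cont_LL {J q : ℕ} (χ : DirichletCharacter ℂ q) (G : Fin J → ArithmeticFunction ℂ)
    (e : Fin J → ℕ) (i : Fin J) : Continuous (LL χ G e i) := by
  refine cont_sum _ (fun n hn => ?_) _ _
  rw [Finset.mem_Ioc] at hn
  exact Nat.one_le_of_lt hn.1

lemma norm_LL_le {J q : ℕ} (χ : DirichletCharacter ℂ q) (G : Fin J → ArithmeticFunction ℂ)
    (e : Fin J → ℕ) (hG : ∀ i n, ‖G i n‖ ≤ 1) (i : Fin J) (t : ℝ) :
    ‖LL χ G e i t‖ ≤ 2 ^ e i := by
  have h1 : ‖LL χ G e i t‖ ≤ ∑ n ∈ Ioc (2 ^ (e i - 1)) (2 ^ e i), (1 : ℝ) := by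
    refine (norm_sum_le _ _).trans (Finset.sum_le_sum fun n hn => ?_)
    rw [Finset.mem_Ioc] at hn
    rw [norm_mul, norm_mul, norm_nit (Nat.one_le_of_lt hn.1), mul_one]
    exact mul_le_one₀ (hG i n) (norm_nonneg _) (DirichletCharacter.norm_le_one χ _)
  refine h1.trans ?_
  rw [Finset.sum_const, Nat.card_Ioc, nsmul_eq_mul, mul_one]
  have h2 : 2 ^ e i - 2 ^ (e i - 1) ≤ 2 ^ e i := Nat.sub_le _ _
  exact_mod_cast h2

lemma LL_smooth {J q : ℕ} (χ : DirichletCharacter ℂ q) (G : Fin J → ArithmeticFunction ℂ)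
    (e y : Fin J → ℕ) (i : Fin J) (hG : G i = ind q (y i) (2 ^ e i)) (hy : 2 ^ (e i - 1) ≤ y i)
    (t : ℝ) : LL χ G e i t = ∑ n ∈ Ioc (y i) (2 ^ e i), χ (n : ZMod q) * nit n t := by
  symm
  have hsub : Ioc (y i) (2 ^ e i) ⊆ Ioc (2 ^ (e i - 1)) (2 ^ e i) := by
    intro n hn
    rw [Finset.mem_Ioc] at hn ⊢
    exact ⟨by omega, hn.2⟩
  have h1 : ∀ n ∈ Ioc (2 ^ (e i - 1)) (2 ^ e i), n ∉ Ioc (y i) (2 ^ e i) →
      G i n * (χ (n : ZMod q) * nit n t) = 0 := by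
    intro n hn hn'
    rw [Finset.mem_Ioc] at hn hn'
    rw [hG, ind_apply, if_neg (fun h => hn' ⟨h.1, h.2.1⟩), zero_mul]
  rw [LL, ← Finset.sum_subset hsub h1]
  refine Finset.sum_congr rfl fun n hn => ?_
  rw [Finset.mem_Ioc] at hn
  rw [hG, ind_apply]
  by_cases hc : n.Coprime q
  · rw [if_pos ⟨hn.1, hn.2, hc⟩, one_mul]
  · have h2 : χ (n : ZMod q) = 0 := by
      apply MulChar.map_nonunit
      rwa [ZMod.isUnit_iff_coprime]
    rw [h2, zero_mul, mul_zero]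

lemma nit_mul (m n : ℕ) (t : ℝ) : nit (m * n) t = nit m t * nit n t := by
  unfold nit
  push_cast
  rw [← Complex.natCast_mul_natCast_cpow]

lemma UU_one (S : Finset ℕ) (f : ℕ → ℂ) (t : ℝ) :
    UU 1 S f t = ‖∑ n ∈ S, f n * nit n t‖ ^ 2 := by
  rw [UU, Finset.sum_range_one, Finset.filter_true_of_mem]
  intro n _
  exact Nat.mod_one n

lemma level_count (δ : ℝ) (hδ : 0 < δ) : ∀ᶠ X : ℕ in atTop,
    ((Nat.log 2 X + 1 : ℕ) : ℝ) ^ 5 * 4 ^ 5 ≤ (X : ℝ) ^ δ := by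
  set η : ℝ := δ / 6 with hη
  have hη0 : 0 < η := by positivity
  set C : ℝ := 1 / (η * Real.log 2) + 1 with hC
  have hl2 : 0 < Real.log 2 := Real.log_pos one_lt_two
  have hC0 : 0 ≤ C := by positivity
  have h1 := ((tendsto_rpow_atTop hη0).comp tendsto_natCast_atTop_atTop).eventually_ge_atTop
    (C ^ 5 * 4 ^ 5)
  filter_upwards [h1, eventually_ge_atTop 1] with X hX hX1
  have hX1' : (1 : ℝ) ≤ X := by exact_mod_cast hX1
  have hX0 : (0 : ℝ) ≤ X := by linarith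
  have h2 : ((Nat.log 2 X + 1 : ℕ) : ℝ) ≤ C * (X : ℝ) ^ η := by
    push_cast
    have h3 : (Nat.log 2 X : ℝ) ≤ Real.log X / Real.log 2 := by
      rw [le_div_iff₀ hl2, ← Real.log_rpow (by norm_num)]
      apply Real.log_le_log (by positivity)
      have h4 : 2 ^ Nat.log 2 X ≤ X := Nat.pow_log_le_self 2 (by omega)
      rw [Real.rpow_natCast]
      exact_mod_cast h4
    have h5 : Real.log X ≤ (X : ℝ) ^ η / η := Real.log_le_rpow_div hX0 hη0
    have h6 : (1 : ℝ) ≤ (X : ℝ) ^ η := Real.one_le_rpow hX1' hη0.le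
    have h7 : Real.log X / Real.log 2 ≤ (X : ℝ) ^ η / η / Real.log 2 :=
      div_le_div_of_nonneg_right h5 hl2.le
    have h8 : (X : ℝ) ^ η / η / Real.log 2 = 1 / (η * Real.log 2) * (X : ℝ) ^ η := by
      field_simp
    rw [hC, add_mul, one_mul]
    linarith only [h3, h6, h7, h8]
  calc ((Nat.log 2 X + 1 : ℕ) : ℝ) ^ 5 * 4 ^ 5 ≤ (C * (X : ℝ) ^ η) ^ 5 * 4 ^ 5 := by
        gcongr
    _ = (C ^ 5 * 4 ^ 5) * ((X : ℝ) ^ η) ^ 5 := by ring
    _ ≤ (X : ℝ) ^ η * ((X : ℝ) ^ η) ^ 5 := by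
        apply mul_le_mul_of_nonneg_right _ (by positivity)
        exact hX
    _ = ((X : ℝ) ^ η) ^ 6 := by ring
    _ = (X : ℝ) ^ δ := by
        rw [← Real.rpow_natCast, ← Real.rpow_mul hX0]
        congr 1
        rw [hη]
        push_cast
        ring

/-- integral bound by levels -/
lemma int_bound {κ : Type*} (K : Finset κ) (Tt : κ → Set ℝ) (c : κ → ℝ) {F : ℝ → ℂ}
    (hF : Continuous F) {t0 t1 : ℝ} (h01 : t0 ≤ t1) (hc : ∀ k ∈ K, 0 ≤ c k)
    (hm : ∀ k ∈ K, MeasurableSet (Tt k)) (hsub : ∀ k ∈ K, Tt k ⊆ Set.Icc t0 t1)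
    (hcov : ∀ t ∈ Set.Icc t0 t1, ∃ k ∈ K, t ∈ Tt k)
    (hb : ∀ k ∈ K, ∀ t ∈ Tt k, ‖F t‖ ^ 2 ≤ c k) :
    ∫ t in t0..t1, ‖F t‖ ^ 2 ≤ ∑ k ∈ K, c k * volume.real (Tt k) := by
  classical
  rw [intervalIntegral.integral_of_le h01]
  have hfin : ∀ k ∈ K, volume (Tt k) ≠ ⊤ := fun k hk =>
    ((measure_mono (hsub k hk)).trans_lt measure_Icc_lt_top).ne
  have hint : ∀ k ∈ K, Integrable (fun t => c k * (Tt k).indicator (fun _ => (1 : ℝ)) t)
      (volume.restrict (Set.Ioc t0 t1)) := by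
    intro k hk
    apply Integrable.const_mul
    rw [integrable_indicator_iff (hm k hk)]
    exact integrableOn_const
      ((Measure.restrict_apply_le _ _).trans_lt (lt_top_iff_ne_top.2 (hfin k hk))).ne (by simp)
  have h1 : ∫ t in Set.Ioc t0 t1, ‖F t‖ ^ 2 ≤
      ∫ t in Set.Ioc t0 t1, ∑ k ∈ K, c k * (Tt k).indicator (fun _ => (1 : ℝ)) t := by
    apply setIntegral_mono_on
    · exact ((hF.norm.pow 2).continuousOn.integrableOn_compact isCompact_Icc).mono_set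
        Set.Ioc_subset_Icc_self
    · exact integrable_finsetSum _ hint
    · exact measurableSet_Ioc
    · intro t ht
      obtain ⟨k, hk, hkt⟩ := hcov t (Set.Ioc_subset_Icc_self ht)
      have h2 := Finset.single_le_sum
        (f := fun k => c k * (Tt k).indicator (fun _ => (1 : ℝ)) t)
        (fun k hk => mul_nonneg (hc k hk) (Set.indicator_nonneg (fun _ _ => zero_le_one) _)) hk
      refine le_trans ?_ h2
      simp only [Set.indicator_of_mem hkt, mul_one]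
      exact hb k hk t hkt
  refine h1.trans ?_
  rw [integral_finsetSum _ hint]
  refine Finset.sum_le_sum fun k hk => ?_
  rw [integral_const_mul]
  apply mul_le_mul_of_nonneg_left _ (hc k hk)
  rw [integral_indicator (hm k hk), setIntegral_const, smul_eq_mul, mul_one]
  exact ENNReal.toReal_mono (hfin k hk) (Measure.restrict_apply_le _ _)

end DjsAux

open DjsAux

theorem djs (ε : ℝ) (hε : 0 < ε) : ∃ s : ℝ, 0 < s ∧ ∀ᶠ X : ℕ in atTop,
    ∀ (J q h P N : ℕ) [NeZero q] (χ : DirichletCharacter ℂ q) (e y : Fin J → ℕ) (G : Fin J → ArithmeticFunction ℂ)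
      (A : ArithmeticFunction ℂ) (t0 t1 : ℝ),
    DCl X h q J P s e G A → (X : ℝ) ^ (1 / 6 + ε) ≤ h → (h : ℝ) ≤ (X : ℝ) ^ (2 / 5 : ℝ) →
    (q : ℝ) ≤ (X : ℝ) ^ s → (∀ i, G i = ind q (y i) (2 ^ e i) ∧ 2 ^ (e i - 1) ≤ y i) → P * ∏ i, 2 ^ e i ≤ N →
    t0 ≤ t1 → (∀ t : ℝ, t0 ≤ t → t ≤ t1 → (X : ℝ) ^ (7 / 50 : ℝ) ≤ |t| ∧ |t| ≤ X / h * (X : ℝ) ^ s) →
    ∫ t in t0..t1, ‖∑ n ∈ Icc 1 N, (A * ∏ i, G i) n * (χ (n : ZMod q) * nit n t)‖ ^ 2 ≤ (X : ℝ) ^ (2 - s) := by
  obtain ⟨c0, hc0, hsm⟩ := smooth_bd (1 / 10) (by norm_num)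
  set c : ℝ := min c0 (1 / 10) with hcdef
  have hc : 0 < c := lt_min hc0 (by norm_num)
  obtain ⟨s2, hs2, hvlv⟩ := vlv ε (1 / 20) c hε (by norm_num) hc
  set s : ℝ := min (min s2 c0) (min ε (1 / 100)) / 100 with hsdef
  have hs0 : 0 < s := by
    rw [hsdef]
    have : 0 < min (min s2 c0) (min ε (1 / 100)) :=
      lt_min (lt_min hs2 hc0) (lt_min hε (by norm_num))
    positivity
  have hss2 : 100 * s ≤ s2 := by
    rw [hsdef]
    have : min (min s2 c0) (min ε (1 / 100)) ≤ s2 := (min_le_left _ _).trans (min_le_left _ _)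
    linarith
  have hsc0 : 100 * s ≤ c0 := by
    rw [hsdef]
    have : min (min s2 c0) (min ε (1 / 100)) ≤ c0 := (min_le_left _ _).trans (min_le_right _ _)
    linarith
  have hsε : 100 * s ≤ ε := by
    rw [hsdef]
    have : min (min s2 c0) (min ε (1 / 100)) ≤ ε := (min_le_right _ _).trans (min_le_left _ _)
    linarith only [this]
  have hs1 : 100 * s ≤ 1 / 100 := by
    rw [hsdef]
    have : min (min s2 c0) (min ε (1 / 100)) ≤ 1 / 100 :=
      (min_le_right _ _).trans (min_le_right _ _)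
    linarith only [this]
  refine ⟨s, hs0, ?_⟩
  filter_upwards [hsm, hvlv, level_count (s2 - 5 * s) (by linarith only [hs0, hss2]), eventually_ge_atTop 1]
    with X hsmX hvX hlev hX1
  intro J q h P N _ χ e y G A t0 t1 H hh1 hh2 hq hGy hN h01 ht
  have hX1' : (1 : ℝ) ≤ X := by exact_mod_cast hX1
  have hXpos : (0 : ℝ) < X := by linarith only [hs0, hs1, hX1']
  have hXs : ∀ a b : ℝ, a ≤ b → (X : ℝ) ^ a ≤ (X : ℝ) ^ b := fun a b hab =>
    Real.rpow_le_rpow_of_exponent_le hX1' hab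
  have hhpos : (0 : ℝ) < h := lt_of_lt_of_le (by (clear * - hX1; positivity)) hh1
  have hh1' : (1 : ℝ) ≤ h := le_trans (Real.one_le_rpow hX1' (by linarith only [hs0, hsε, hs1])) hh1
  have H2 : DCl X h q J P s2 e G A := H.mono hX1 (by linarith only [hs0, hss2])
  have hJ : (univ : Finset (Fin J)).Nonempty := by
    rw [Finset.univ_nonempty_iff]
    exact ⟨⟨0, lt_of_lt_of_le (by norm_num) H.J3⟩⟩
  have hsupp : ∀ i n, G i n ≠ 0 → 2 ^ (e i - 1) < n ∧ n ≤ 2 ^ e i := fun i n hn =>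
    ⟨(H.supp i n hn).1, (H.supp i n hn).2.1⟩
  have hXh : (X : ℝ) / h * (X : ℝ) ^ s ≤ X := by
    rw [div_mul_eq_mul_div, div_le_iff₀ hhpos]
    apply mul_le_mul_of_nonneg_left _ hXpos.le
    exact (hXs s (1 / 6 + ε) (by linarith only [hs0, hsε, hs1])).trans hh1
  -- the cells
  have hcell1 : ∀ i, (X : ℝ) ^ (1 / 10 : ℝ) ≤ (2 : ℝ) ^ e i := by
    intro i
    refine le_trans ?_ (H.cell i).2.1
    calc (X : ℝ) ^ (1 / 10 : ℝ) ≤ (X : ℝ) ^ ((1 / 6 + ε) + (-s)) := hXs _ _ (by linarith only [hs0, hsε, hs1])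
      _ = (X : ℝ) ^ (1 / 6 + ε) * (X : ℝ) ^ (-s) := Real.rpow_add hXpos _ _
      _ ≤ h * (X : ℝ) ^ (-s) := mul_le_mul_of_nonneg_right hh1 (by (clear * - hX1; positivity))
  have hcell2 : ∀ i, 2 ^ e i ≤ X := by
    intro i
    have h1 : (2 : ℝ) ^ e i ≤ X := by
      refine (H.cell i).2.2.trans ?_
      have h2 : Real.sqrt ((X : ℝ) / h) ≤ (X : ℝ) ^ (1 / 2 : ℝ) := by
        rw [← Real.sqrt_eq_rpow]
        exact Real.sqrt_le_sqrt (div_le_self hXpos.le hh1')
      calc Real.sqrt ((X : ℝ) / h) * (X : ℝ) ^ s ≤ (X : ℝ) ^ (1 / 2 : ℝ) * (X : ℝ) ^ s :=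
            mul_le_mul_of_nonneg_right h2 (by (clear * - hX1; positivity))
        _ = (X : ℝ) ^ (1 / 2 + s) := (Real.rpow_add hXpos _ _).symm
        _ ≤ (X : ℝ) ^ (1 : ℝ) := hXs _ _ (by linarith only [hs0, hs1])
        _ = X := Real.rpow_one _
    exact_mod_cast h1
  -- the factors
  set L := LL χ G e with hL
  have hLle : ∀ i t, ‖L i t‖ ≤ 2 ^ e i := fun i t => norm_LL_le χ G e H.bd i t
  have hLsm : ∀ i, ∀ t ∈ Set.Icc t0 t1, ‖L i t‖ ≤ (2 : ℝ) ^ e i * (X : ℝ) ^ (-c0) := by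
    intro i t htt
    obtain ⟨ha, hb⟩ := ht t htt.1 htt.2
    rw [hL, LL_smooth χ G e y i (hGy i).1 (hGy i).2 t]
    have h1 := hsmX q (y i) (2 ^ e i) (fun a => χ a) t (Nat.one_le_iff_ne_zero.2 (NeZero.ne q))
      (hq.trans (hXs _ _ (by linarith only [hs0, hsc0]))) (fun a => DirichletCharacter.norm_le_one χ a)
      (by push_cast; exact hcell1 i) ?_ ha (hb.trans hXh)
    · push_cast at h1
      exact h1
    · have h2 := (hGy i).2
      have h3 := (H.cell i).1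
      obtain ⟨m, hm⟩ : ∃ m, e i = m + 1 := ⟨e i - 1, by omega⟩
      rw [hm, Nat.add_sub_cancel] at h2
      rw [hm, pow_succ]
      omega
  have hφ : ∀ t : ℝ, ∀ m n : ℕ, 1 ≤ m → 1 ≤ n →
      (fun n : ℕ => χ (n : ZMod q) * nit n t) (m * n) =
        (fun n : ℕ => χ (n : ZMod q) * nit n t) m * (fun n : ℕ => χ (n : ZMod q) * nit n t) n :=
    fun t m n hm hn => twist_mul χ t m n hm hn
  -- the product formula
  have hprod : ∀ t : ℝ, ∑ n ∈ Icc 1 N, (A * ∏ i, G i) n * (χ (n : ZMod q) * nit n t) =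
      (∑ n ∈ Icc 1 P, A n * (χ (n : ZMod q) * nit n t)) * ∏ i, L i t := by
    intro t
    rw [dp_mul A (∏ i, G i) (fun n : ℕ => χ (n : ZMod q) * nit n t) (hφ t) P (∏ i, 2 ^ e i) N
      (fun n hn => (H.Asupp n hn).1) (fun n hn => (dp_supp univ hJ e G hsupp n hn).2) hN]
    congr 1
    rw [hL]
    simp only [LL]
    rw [← dp_prod univ hJ e G hsupp (fun n : ℕ => χ (n : ZMod q) * nit n t) (hφ t)]
    symm
    apply Finset.sum_subset
    · intro n hn
      rw [bx, Finset.mem_Ioc] at hn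
      rw [Finset.mem_Icc]
      exact ⟨by omega, hn.2⟩
    · intro n _ hn'
      by_contra hne
      apply hn'
      rw [bx, Finset.mem_Ioc]
      exact dp_supp univ hJ e G hsupp n (left_ne_zero_of_mul hne)
  have hA : ∀ t : ℝ, ‖∑ n ∈ Icc 1 P, A n * (χ (n : ZMod q) * nit n t)‖ ≤ (X : ℝ) ^ (2 * s) := by
    intro t
    have h1 : ‖∑ n ∈ Icc 1 P, A n * (χ (n : ZMod q) * nit n t)‖ ≤
        ∑ _n ∈ Icc 1 P, (X : ℝ) ^ s := by
      refine (norm_sum_le _ _).trans (Finset.sum_le_sum fun n hn => ?_)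
      rw [Finset.mem_Icc] at hn
      rw [norm_mul, norm_mul, norm_nit hn.1, mul_one]
      calc ‖A n‖ * ‖χ (n : ZMod q)‖ ≤ (X : ℝ) ^ s * 1 :=
            mul_le_mul (H.Abd n) (DirichletCharacter.norm_le_one χ _) (norm_nonneg _)
              (by (clear * - hX1; positivity))
        _ = (X : ℝ) ^ s := mul_one _
    refine h1.trans ?_
    rw [Finset.sum_const, Nat.card_Icc, nsmul_eq_mul, two_mul, Real.rpow_add hXpos]
    apply mul_le_mul_of_nonneg_right _ (by (clear * - hX1; positivity))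
    have h2 : P + 1 - 1 = P := by omega
    rw [h2]
    exact H.Ple
  -- the levels
  set B := Nat.log 2 X with hB
  have hBe : ∀ i, e i ≤ B := fun i => by
    rw [hB]
    exact Nat.le_log_of_pow_le (by norm_num) (hcell2 i)
  set K : Finset (Fin J → ℕ) := Fintype.piFinset fun _ => range (B + 1) with hK
  set Tt : (Fin J → ℕ) → Set ℝ := fun k => {t | t ∈ Set.Icc t0 t1 ∧ ∀ i,
    ‖L i t‖ ^ 2 ≤ 2 ^ e i * 4 ^ k i ∧ (k i ≠ 0 → (2 : ℝ) ^ e i * 4 ^ (k i - 1) < ‖L i t‖ ^ 2)}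
    with hTt
  have hLc : ∀ i, Continuous (L i) := fun i => cont_LL χ G e i
  have hTm : ∀ k, MeasurableSet (Tt k) := by
    intro k
    have hTk : Tt k = Set.Icc t0 t1 ∩ ⋂ i, ({t | ‖L i t‖ ^ 2 ≤ 2 ^ e i * 4 ^ k i} ∩
        {t | k i ≠ 0 → (2 : ℝ) ^ e i * 4 ^ (k i - 1) < ‖L i t‖ ^ 2}) := by
      ext t
      simp only [hTt, Set.mem_ofPred_eq, Set.mem_inter_iff, Set.mem_iInter]
    rw [hTk]
    apply MeasurableSet.inter measurableSet_Icc
    refine MeasurableSet.iInter fun i => ?_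
    apply MeasurableSet.inter
    · exact measurableSet_le ((hLc i).norm.pow 2).measurable measurable_const
    · by_cases hk : k i = 0
      · have h1 : {t | k i ≠ 0 → (2 : ℝ) ^ e i * 4 ^ (k i - 1) < ‖L i t‖ ^ 2} = Set.univ :=
          Set.eq_univ_of_forall fun t h => absurd hk h
        rw [h1]
        exact MeasurableSet.univ
      · have h1 : {t | k i ≠ 0 → (2 : ℝ) ^ e i * 4 ^ (k i - 1) < ‖L i t‖ ^ 2} =
            {t | (2 : ℝ) ^ e i * 4 ^ (k i - 1) < ‖L i t‖ ^ 2} := by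
          ext t
          exact ⟨fun h => h hk, fun h _ => h⟩
        rw [h1]
        exact measurableSet_lt measurable_const ((hLc i).norm.pow 2).measurable
  have hTsub : ∀ k, Tt k ⊆ Set.Icc t0 t1 := fun k t htk => htk.1
  have hcov : ∀ t ∈ Set.Icc t0 t1, ∃ k ∈ K, t ∈ Tt k := by
    intro t htt
    have hex : ∀ i, ∃ k : ℕ, ‖L i t‖ ^ 2 ≤ 2 ^ e i * 4 ^ k := by
      intro i
      refine ⟨e i, ?_⟩
      calc ‖L i t‖ ^ 2 ≤ ((2 : ℝ) ^ e i) ^ 2 := pow_le_pow_left₀ (norm_nonneg _) (hLle i t) 2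
        _ = 2 ^ e i * 2 ^ e i := by ring
        _ ≤ 2 ^ e i * 4 ^ e i := by
          apply mul_le_mul_of_nonneg_left _ (by (clear * -; positivity))
          exact pow_le_pow_left₀ (by norm_num) (by norm_num) _
    classical
    refine ⟨fun i => Nat.find (hex i), ?_, htt, fun i => ⟨Nat.find_spec (hex i), fun hk => ?_⟩⟩
    · rw [hK, Fintype.mem_piFinset]
      intro i
      rw [Finset.mem_range]
      refine lt_of_le_of_lt (Nat.find_min' (hex i) (m := e i) ?_) (Nat.lt_succ_of_le (hBe i))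
      calc ‖L i t‖ ^ 2 ≤ ((2 : ℝ) ^ e i) ^ 2 := pow_le_pow_left₀ (norm_nonneg _) (hLle i t) 2
        _ = 2 ^ e i * 2 ^ e i := by ring
        _ ≤ 2 ^ e i * 4 ^ e i := by
          apply mul_le_mul_of_nonneg_left _ (by (clear * -; positivity))
          exact pow_le_pow_left₀ (by norm_num) (by norm_num) _
    · have hk' : Nat.find (hex i) ≠ 0 := hk
      have h1 := Nat.find_min (hex i) (m := Nat.find (hex i) - 1) (by omega)
      exact not_le.1 h1
  set c1 : (Fin J → ℕ) → ℝ := fun k =>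
    (X : ℝ) ^ (4 * s) * (4 ^ 5 * ∏ i, ((2 : ℝ) ^ e i * 4 ^ (k i - 1))) with hc1
  have hb : ∀ k ∈ K, ∀ t ∈ Tt k,
      ‖∑ n ∈ Icc 1 N, (A * ∏ i, G i) n * (χ (n : ZMod q) * nit n t)‖ ^ 2 ≤ c1 k := by
    intro k _ t htk
    rw [hprod, norm_mul, mul_pow, norm_prod, ← Finset.prod_pow]
    rw [hc1]
    have h1 : ‖∑ n ∈ Icc 1 P, A n * (χ (n : ZMod q) * nit n t)‖ ^ 2 ≤ (X : ℝ) ^ (4 * s) := by
      calc ‖∑ n ∈ Icc 1 P, A n * (χ (n : ZMod q) * nit n t)‖ ^ 2 ≤ ((X : ℝ) ^ (2 * s)) ^ 2 :=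
            pow_le_pow_left₀ (norm_nonneg _) (hA t) 2
        _ = (X : ℝ) ^ (4 * s) := by
            rw [← Real.rpow_natCast, ← Real.rpow_mul hXpos.le]
            congr 1
            push_cast
            ring
    have h2 : ∏ i, ‖L i t‖ ^ 2 ≤ 4 ^ 5 * ∏ i, ((2 : ℝ) ^ e i * 4 ^ (k i - 1)) := by
      calc ∏ i, ‖L i t‖ ^ 2 ≤ ∏ i, (4 * ((2 : ℝ) ^ e i * 4 ^ (k i - 1))) := by
            apply Finset.prod_le_prod (fun i _ => by (clear * -; positivity))
            intro i _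
            refine (htk.2 i).1.trans ?_
            rcases Nat.eq_zero_or_pos (k i) with h3 | h3
            · rw [h3]
              have : (0 : ℝ) ≤ 2 ^ e i := by (clear * -; positivity)
              simp only [pow_zero, mul_one, Nat.zero_sub]
              linarith only [this]
            · obtain ⟨m, hm⟩ : ∃ m, k i = m + 1 := ⟨k i - 1, by omega⟩
              rw [hm, Nat.add_sub_cancel, pow_succ]
              apply le_of_eq
              ring
        _ = 4 ^ J * ∏ i, ((2 : ℝ) ^ e i * 4 ^ (k i - 1)) := by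
            rw [Finset.prod_mul_distrib, Finset.prod_const, Finset.card_univ, Fintype.card_fin]
        _ ≤ 4 ^ 5 * ∏ i, ((2 : ℝ) ^ e i * 4 ^ (k i - 1)) := by
            apply mul_le_mul_of_nonneg_right _ (Finset.prod_nonneg fun i _ => by (clear * -; positivity))
            exact pow_le_pow_right₀ (by norm_num) H.J5
    exact mul_le_mul h1 h2 (Finset.prod_nonneg fun i _ => by (clear * -; positivity)) (by (clear * - hX1; positivity))
  have hcnn : ∀ k ∈ K, 0 ≤ c1 k := fun k _ => by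
    rw [hc1]
    exact mul_nonneg (by (clear * - hX1; positivity))
      (mul_nonneg (by (clear * -; positivity)) (Finset.prod_nonneg fun i _ => by (clear * -; positivity)))
  have hFc : Continuous fun t : ℝ =>
      ∑ n ∈ Icc 1 N, (A * ∏ i, G i) n * (χ (n : ZMod q) * nit n t) :=
    cont_sum _ (fun n hn => (Finset.mem_Icc.1 hn).1) _ _
  refine (int_bound K Tt c1 hFc h01 hcnn (fun k _ => hTm k) (fun k _ => hTsub k) hcov hb).trans ?_
  -- each level
  have hone : ∀ k ∈ K, c1 k * volume.real (Tt k) ≤ 4 ^ 5 * (X : ℝ) ^ (4 * s + (2 - s2)) := by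
    intro k _
    rcases (Tt k).eq_empty_or_nonempty with hemp | ⟨τ, hτ⟩
    · rw [hemp, measureReal_empty, mul_zero]
      (clear * - hX1; positivity)
    · set V : Fin J → ℝ := fun i => Real.sqrt ((2 : ℝ) ^ e i * 4 ^ (k i - 1)) with hV
      have hV2 : ∀ i, V i ^ 2 = (2 : ℝ) ^ e i * 4 ^ (k i - 1) := fun i =>
        Real.sq_sqrt (by (clear * -; positivity))
      set Ac : Finset (Fin J) := univ.filter fun i => k i ≠ 0 with hAc
      have hGtw : ∀ i n, tw χ (G i) n ≠ 0 → 2 ^ (e i - 1) < n ∧ n ≤ 2 ^ e i := by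
        intro i n hn
        rw [tw_apply] at hn
        exact hsupp i n (left_ne_zero_of_mul hn)
      have hvol := hvX J 1 h e (fun i => tw χ (G i)) V Ac (Tt k) H.J3 H.J5 hh1 hh2 le_rfl ?_
        H2.cell H2.lo H2.hi ?_ hGtw ?_ ?_ (hTm k) ?_ ?_
      · rw [Nat.cast_one, one_mul, Finset.prod_congr rfl fun i _ => hV2 i] at hvol
        rw [hc1]
        calc (X : ℝ) ^ (4 * s) * (4 ^ 5 * ∏ i, ((2 : ℝ) ^ e i * 4 ^ (k i - 1))) *
              volume.real (Tt k)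
            = 4 ^ 5 * ((X : ℝ) ^ (4 * s) * (volume.real (Tt k) *
              ∏ i, ((2 : ℝ) ^ e i * 4 ^ (k i - 1)))) := by ring
          _ ≤ 4 ^ 5 * ((X : ℝ) ^ (4 * s) * (X : ℝ) ^ (2 - s2)) := by
              apply mul_le_mul_of_nonneg_left _ (by (clear * -; positivity))
              exact mul_le_mul_of_nonneg_left hvol (by (clear * - hX1; positivity))
          _ = 4 ^ 5 * (X : ℝ) ^ (4 * s + (2 - s2)) := by rw [← Real.rpow_add hXpos]
      · -- modulus one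
        rw [Nat.cast_one]
        calc (1 : ℝ) ≤ (X : ℝ) ^ ((1 / 6 + ε) + -(1 / 20)) :=
              Real.one_le_rpow hX1' (by linarith only [hs0, hsε, hs1])
          _ = (X : ℝ) ^ (1 / 6 + ε) * (X : ℝ) ^ (-(1 / 20) : ℝ) := Real.rpow_add hXpos _ _
          _ ≤ h * (X : ℝ) ^ (-(1 / 20) : ℝ) := mul_le_mul_of_nonneg_right hh1 (by (clear * - hX1; positivity))
      · intro i n
        rw [tw_apply, norm_mul]
        exact mul_le_one₀ (H.bd i n) (norm_nonneg _) (DirichletCharacter.norm_le_one χ _)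
      · intro i
        refine ⟨Real.sqrt_nonneg _, ?_, ?_⟩
        · rw [hV2]
          exact le_mul_of_one_le_right (by (clear * -; positivity)) (one_le_pow₀ (by norm_num))
        · rw [hV2]
          by_cases hk0 : k i = 0
          · rw [hk0]
            simp only [zero_le, Nat.sub_eq_zero_of_le, pow_zero, mul_one]
            have h1 : (X : ℝ) ^ c ≤ 2 ^ e i :=
              (hXs _ _ (min_le_right _ _)).trans (hcell1 i)
            have h2 : (0 : ℝ) < X ^ c := by (clear * - hX1; positivity)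
            rw [Real.rpow_neg hXpos.le, ← div_eq_mul_inv, le_div_iff₀ h2, pow_two]
            exact mul_le_mul_of_nonneg_left h1 (by (clear * -; positivity))
          · have h1 := ((hτ.2 i).2 hk0).le
            refine h1.trans ?_
            calc ‖L i τ‖ ^ 2 ≤ ((2 : ℝ) ^ e i * (X : ℝ) ^ (-c0)) ^ 2 :=
                  pow_le_pow_left₀ (norm_nonneg _) (hLsm i τ hτ.1) 2
              _ = ((2 : ℝ) ^ e i) ^ 2 * ((X : ℝ) ^ (-c0)) ^ 2 := mul_pow _ _ _
              _ ≤ ((2 : ℝ) ^ e i) ^ 2 * (X : ℝ) ^ (-c) := by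
                  apply mul_le_mul_of_nonneg_left _ (by (clear * -; positivity))
                  rw [← Real.rpow_natCast, ← Real.rpow_mul hXpos.le]
                  apply hXs
                  have : c ≤ c0 := min_le_left _ _
                  push_cast
                  linarith only [hs0, hsc0, this]
      · intro i hi
        rw [hV2]
        have : k i = 0 := by
          by_contra h0
          exact hi (by rw [hAc, Finset.mem_filter]; exact ⟨Finset.mem_univ _, h0⟩)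
        rw [this]
        simp
      · refine (hTsub k).trans fun t htt => ?_
        obtain ⟨-, hb2⟩ := ht t htt.1 htt.2
        have h3 : |t| ≤ (X : ℝ) / h * (X : ℝ) ^ s2 := hb2.trans
          (mul_le_mul_of_nonneg_left (hXs _ _ (by linarith only [hs0, hss2])) (by (clear * - hX1 hhpos; positivity)))
        exact abs_le.1 h3
      · intro D hD hDne t htk
        rw [UU_one]
        have h1 := dp_prod D hDne e (fun i => tw χ (G i)) hGtw (fun n => nit n t)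
          (fun m n _ _ => nit_mul m n t)
        rw [h1, norm_prod, ← Finset.prod_pow]
        have h3 : ∀ i ∈ D, V i ^ 2 ≤
            ‖∑ n ∈ Ioc (2 ^ (e i - 1)) (2 ^ e i), tw χ (G i) n * nit n t‖ ^ 2 := by
          intro i hi
          have h4 : ∑ n ∈ Ioc (2 ^ (e i - 1)) (2 ^ e i), tw χ (G i) n * nit n t = L i t := by
            rw [hL, LL]
            refine Finset.sum_congr rfl fun n _ => ?_
            rw [tw_apply, mul_assoc]
          rw [h4, hV2]
          have h5 : k i ≠ 0 := (Finset.mem_filter.1 (hD hi)).2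
          exact ((htk.2 i).2 h5).le
        calc (X : ℝ) ^ (-s2) * ∏ i ∈ D, V i ^ 2 ≤ 1 * ∏ i ∈ D, V i ^ 2 := by
              apply mul_le_mul_of_nonneg_right _ (Finset.prod_nonneg fun i _ => sq_nonneg _)
              exact Real.rpow_le_one_of_one_le_of_nonpos hX1' (by linarith only [hs0, hss2])
          _ = ∏ i ∈ D, V i ^ 2 := one_mul _
          _ ≤ _ := Finset.prod_le_prod (fun i _ => sq_nonneg _) h3
  have hKcard : (K.card : ℝ) ≤ ((B + 1 : ℕ) : ℝ) ^ 5 := by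
    have h1 : K.card = (B + 1) ^ J := by
      rw [hK, Fintype.card_piFinset]
      simp
    rw [h1]
    have h2 : (B + 1) ^ J ≤ (B + 1) ^ 5 := Nat.pow_le_pow_right (Nat.succ_pos _) H.J5
    exact_mod_cast h2
  calc ∑ k ∈ K, c1 k * volume.real (Tt k)
      ≤ ∑ _k ∈ K, 4 ^ 5 * (X : ℝ) ^ (4 * s + (2 - s2)) := Finset.sum_le_sum hone
    _ = K.card * (4 ^ 5 * (X : ℝ) ^ (4 * s + (2 - s2))) := by
        rw [Finset.sum_const, nsmul_eq_mul]
    _ ≤ ((B + 1 : ℕ) : ℝ) ^ 5 * (4 ^ 5 * (X : ℝ) ^ (4 * s + (2 - s2))) :=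
        mul_le_mul_of_nonneg_right hKcard (by (clear * - hX1; positivity))
    _ = (((B + 1 : ℕ) : ℝ) ^ 5 * 4 ^ 5) * (X : ℝ) ^ (4 * s + (2 - s2)) := by ring
    _ ≤ (X : ℝ) ^ (s2 - 5 * s) * (X : ℝ) ^ (4 * s + (2 - s2)) :=
        mul_le_mul_of_nonneg_right hlev (by (clear * - hX1; positivity))
    _ = (X : ℝ) ^ (2 - s) := by
        rw [← Real.rpow_add hXpos]
        congr 1
        ring

end Pool.Agent.VM
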