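import Pool.Agent.Lib.VM.CharUU
import Pool.Agent.Lib.VM.GaussDiff
import Pool.Agent.Lib.VM.WinDiff

/-!
# Module DjsWin: D class, small modulus, difference of windows

Let `s1` be the value of `djs ε` (may be taken `≤ 1/1000`), `η = s1/2`, `s = s1/100`. `N = 2^14 X`, `c n = (A * ∏ G i) n ex(n a/q)`,
`|c n| ≤ X^s τ(n)^6 ≤ X^(2s) =: K`. `a` is arbitrary (not coprime to `q`).
`σ = (h/X) X^(-η)`, `σ' = X^(-7/50 - η)`, `Λ = log X`, `T1 = X^(7/50)`, `T = (X/h) X^(s1)`.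
`char_ex` (the support is coprime to `q`): `|∑ c_n n^(-it)|² ≤ (∑|cf|²) ∑_χ |∑ (A*∏G)(n) χ(n) n^(-it)|²`, so by `djs` (with `s1`, `DCl.mono`) the
integral of `|∑ c_n n^(-it)|²` over `T1 ≤ |t| ≤ T` is `≤ 2 φ(q) X^(2 - s1) ≤ X^(2 - s1 + 2s)`.
`VK.mean_value`: `∫_{-T1}^{T1} |∑ c_n n^(-it)|² ≤ C (1 + 2 T1 + N) N X^(4s) ≤ X^(2 + 5s)`, and `(σ' T1)^4 = X^(-4η)`.
`gauss_diff`: `∫ |∑ c_n (gs σ - gs σ')(v - log n)|² dv ≤ X^(2 + 5s - 4η) + X^(2 - s1 + 2s) + 1` (`σ T = X^(s1/2)`).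
`win_diff` with `Y = YY X`: the error is `X X^(4s) ((1 + h X^(-η) log X + N exp(-(log X)²/2))/h + Y/(X σ'))²`,
`Y/(Xσ') ≤ 2 X^(17/20 - 1 + 7/50 + η) = 2 X^(-1/100 + η)`. Everything is `≤ X^(1 - s)`.
-/

set_option autoImplicit false

open Finset Filter MeasureTheory

namespace Pool.Agent.VM

open Pool.Agent.VK Pool.Agent.HLT

namespace DjsWinAux

lemma mul_ne_zero_exists {F H : ArithmeticFunction ℂ} {n : ℕ} (h : (F * H) n ≠ 0) :
    ∃ a b, a * b = n ∧ F a ≠ 0 ∧ H b ≠ 0 := by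
  rw [ArithmeticFunction.mul_apply] at h
  obtain ⟨x, hx, hx0⟩ := exists_ne_zero_of_sum_ne_zero h
  obtain ⟨hx1, -⟩ := Nat.mem_divisorsAntidiagonal.1 hx
  exact ⟨x.1, x.2, hx1, left_ne_zero_of_mul hx0, right_ne_zero_of_mul hx0⟩

lemma coef_coprime {X h r J P : ℕ} {s : ℝ} {e : Fin J → ℕ} {G : Fin J → ArithmeticFunction ℂ}
    {A : ArithmeticFunction ℂ} (H : DCl X h r J P s e G A) (n : ℕ) (hn : (A * ∏ i, G i) n ≠ 0) :
    n.Coprime r := by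
  obtain ⟨a, b, hab, ha, hb⟩ := mul_ne_zero_exists hn
  rw [← hab]
  exact Nat.Coprime.mul_left (H.Asupp a ha).2
    (prod_coprime Finset.univ G r (fun i _ m hm => (H.supp i m hm).2.2) b hb)

lemma coef_bound {X h r J P : ℕ} {s : ℝ} {e : Fin J → ℕ} {G : Fin J → ArithmeticFunction ℂ}
    {A : ArithmeticFunction ℂ} (H : DCl X h r J P s e G A) (n : ℕ) (hn : 1 ≤ n) :
    ‖(A * ∏ i, G i) n‖ ≤ (X : ℝ) ^ s * (n.divisors.card : ℝ) ^ 6 := by
  have hX0 : (0 : ℝ) ≤ (X : ℝ) ^ s := Real.rpow_nonneg (Nat.cast_nonneg _) _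
  have h1τ : (1 : ℝ) ≤ n.divisors.card := by
    have : 1 ≤ n.divisors.card := Finset.card_pos.mpr ⟨1, by simp; omega⟩
    exact_mod_cast this
  rw [ArithmeticFunction.mul_apply]
  have h1 : ∀ x ∈ n.divisorsAntidiagonal,
      ‖A x.1 * (∏ i, G i) x.2‖ ≤ (X : ℝ) ^ s * (n.divisors.card : ℝ) ^ 5 := by
    intro x hx
    rw [norm_mul]
    obtain ⟨hx1, hx0⟩ := Nat.mem_divisorsAntidiagonal.1 hx
    have h3 := prod_bound Finset.univ G (fun i _ m => H.bd i m) x.2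
    rw [Finset.card_univ, Fintype.card_fin] at h3
    have hx2 : 1 ≤ x.2.divisors.card := Finset.card_pos.mpr ⟨1, by
      simp only [Nat.mem_divisors, isUnit_one, IsUnit.dvd, true_and]
      intro h0
      apply hx0
      rw [← hx1, h0, mul_zero]⟩
    have hx2' : (1 : ℝ) ≤ x.2.divisors.card := by exact_mod_cast hx2
    have h4 : (x.2.divisors.card : ℝ) ≤ n.divisors.card := by
      exact_mod_cast card_le_card (Nat.divisors_subset_of_dvd hx0 ⟨x.1, by rw [← hx1, mul_comm]⟩)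
    have h5 : (x.2.divisors.card : ℝ) ^ J ≤ (n.divisors.card : ℝ) ^ 5 :=
      (pow_le_pow_right₀ hx2' H.J5).trans (pow_le_pow_left₀ (by positivity) h4 5)
    exact mul_le_mul (H.Abd _) (h3.trans h5) (norm_nonneg _) hX0
  calc ‖∑ x ∈ n.divisorsAntidiagonal, A x.1 * (∏ i, G i) x.2‖
      ≤ ∑ x ∈ n.divisorsAntidiagonal, ‖A x.1 * (∏ i, G i) x.2‖ := norm_sum_le _ _
    _ ≤ ∑ _x ∈ n.divisorsAntidiagonal, (X : ℝ) ^ s * (n.divisors.card : ℝ) ^ 5 := sum_le_sum h1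
    _ = (X : ℝ) ^ s * (n.divisors.card : ℝ) ^ 6 := by
        rw [sum_const, nsmul_eq_mul]
        have : n.divisorsAntidiagonal.card = n.divisors.card := by
          rw [← Nat.map_div_right_divisors, card_map]
        rw [this]
        ring

lemma continuous_nit {n : ℕ} (hn : 1 ≤ n) : Continuous fun t : ℝ => nit n t := by
  unfold nit
  have h : ((n : ℝ) : ℂ) ≠ 0 := by
    have : n ≠ 0 := by omega
    exact_mod_cast this
  exact Continuous.const_cpow (by fun_prop) (Or.inl h)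

/-- from the twisted coefficients to characters, pointwise -/
lemma pointwise {q : ℕ} [NeZero q] (F : ArithmeticFunction ℂ) (hF : ∀ n, F n ≠ 0 → n.Coprime q)
    (N : ℕ) (a : ℤ) (t : ℝ) :
    ‖∑ n ∈ Icc 1 N, F n * ex (n * (a / q)) * nit n t‖ ^ 2 ≤
      ∑ χ : DirichletCharacter ℂ q, ‖∑ n ∈ Icc 1 N, F n * (χ (n : ZMod q) * nit n t)‖ ^ 2 := by
  obtain ⟨cf, h1, h2, -⟩ := char_ex q a
  have h3 : ∑ n ∈ Icc 1 N, F n * ex (n * (a / q)) * nit n t =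
      ∑ χ : DirichletCharacter ℂ q, cf χ * ∑ n ∈ Icc 1 N, F n * (χ (n : ZMod q) * nit n t) := by
    simp_rw [Finset.mul_sum]
    rw [Finset.sum_comm]
    refine Finset.sum_congr rfl fun n _ => ?_
    by_cases hn : F n = 0
    · simp [hn]
    · rw [h1 n (hF n hn), Finset.mul_sum, Finset.sum_mul]
      refine Finset.sum_congr rfl fun χ _ => ?_
      ring
  rw [h3]
  have h4 : ‖∑ χ : DirichletCharacter ℂ q, cf χ * ∑ n ∈ Icc 1 N, F n * (χ (n : ZMod q) * nit n t)‖ ≤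
      ∑ χ : DirichletCharacter ℂ q, ‖cf χ‖ * ‖∑ n ∈ Icc 1 N, F n * (χ (n : ZMod q) * nit n t)‖ := by
    refine (norm_sum_le _ _).trans (Finset.sum_le_sum fun χ _ => ?_)
    rw [norm_mul]
  have h5 := Finset.sum_mul_sq_le_sq_mul_sq Finset.univ
    (fun χ : DirichletCharacter ℂ q => ‖cf χ‖)
    (fun χ => ‖∑ n ∈ Icc 1 N, F n * (χ (n : ZMod q) * nit n t)‖)
  have h6 : 0 ≤ ∑ χ : DirichletCharacter ℂ q,
      ‖∑ n ∈ Icc 1 N, F n * (χ (n : ZMod q) * nit n t)‖ ^ 2 :=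
    Finset.sum_nonneg fun _ _ => by positivity
  calc _ ≤ (∑ χ : DirichletCharacter ℂ q,
        ‖cf χ‖ * ‖∑ n ∈ Icc 1 N, F n * (χ (n : ZMod q) * nit n t)‖) ^ 2 :=
        pow_le_pow_left₀ (norm_nonneg _) h4 2
    _ ≤ _ := h5
    _ ≤ 1 * _ := mul_le_mul_of_nonneg_right h2 h6
    _ = _ := one_mul _

lemma integral_chars {q : ℕ} [NeZero q] (F : ArithmeticFunction ℂ)
    (hF : ∀ n, F n ≠ 0 → n.Coprime q) (N : ℕ) (a : ℤ) {t0 t1 B : ℝ} (h01 : t0 ≤ t1)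
    (hB0 : 0 ≤ B)
    (hB : ∀ χ : DirichletCharacter ℂ q,
      ∫ t in t0..t1, ‖∑ n ∈ Icc 1 N, F n * (χ (n : ZMod q) * nit n t)‖ ^ 2 ≤ B) :
    ∫ t in t0..t1, ‖∑ n ∈ Icc 1 N, F n * ex (n * (a / q)) * nit n t‖ ^ 2 ≤ q * B := by
  have hc1 : Continuous fun t : ℝ => ‖∑ n ∈ Icc 1 N, F n * ex (n * (a / q)) * nit n t‖ ^ 2 := by
    refine Continuous.pow (Continuous.norm ?_) 2
    exact continuous_finsetSum _ fun n hn => continuous_const.mul
      (continuous_nit (Finset.mem_Icc.1 hn).1)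
  have hc2 : ∀ χ : DirichletCharacter ℂ q, Continuous fun t : ℝ =>
      ‖∑ n ∈ Icc 1 N, F n * (χ (n : ZMod q) * nit n t)‖ ^ 2 := by
    intro χ
    refine Continuous.pow (Continuous.norm ?_) 2
    exact continuous_finsetSum _ fun n hn => continuous_const.mul
      (continuous_const.mul (continuous_nit (Finset.mem_Icc.1 hn).1))
  have h1 : ∫ t in t0..t1, ‖∑ n ∈ Icc 1 N, F n * ex (n * (a / q)) * nit n t‖ ^ 2 ≤
      ∫ t in t0..t1, ∑ χ : DirichletCharacter ℂ q,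
        ‖∑ n ∈ Icc 1 N, F n * (χ (n : ZMod q) * nit n t)‖ ^ 2 := by
    refine intervalIntegral.integral_mono_on h01 (hc1.intervalIntegrable _ _)
      ((continuous_finsetSum _ fun χ _ => hc2 χ).intervalIntegrable _ _) fun t _ => ?_
    exact pointwise F hF N a t
  rw [intervalIntegral.integral_finsetSum fun χ _ => (hc2 χ).intervalIntegrable _ _] at h1
  refine h1.trans ?_
  calc _ ≤ ∑ _χ : DirichletCharacter ℂ q, B := Finset.sum_le_sum fun χ _ => hB χ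
    _ = (q.totient : ℝ) * B := by
        rw [Finset.sum_const, Finset.card_univ, nsmul_eq_mul,
          ← DirichletCharacter.card_eq_totient_of_hasEnoughRootsOfUnity ℂ q,
          Nat.card_eq_fintype_card]
    _ ≤ q * B := mul_le_mul_of_nonneg_right (by exact_mod_cast Nat.totient_le q) hB0

end DjsWinAux

open DjsWinAux in
theorem djs_win (ε : ℝ) (hε : 0 < ε) : ∃ s : ℝ, 0 < s ∧ ∀ᶠ X : ℕ in atTop,
    ∀ (J q h P : ℕ) (e y : Fin J → ℕ) (G : Fin J → ArithmeticFunction ℂ) (A : ArithmeticFunction ℂ) (a : ℤ),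
    DCl X h q J P s e G A → (X : ℝ) ^ (1 / 6 + ε) ≤ h → (h : ℝ) ≤ (X : ℝ) ^ (2 / 5 : ℝ) → 1 ≤ q →
    (q : ℝ) ≤ (X : ℝ) ^ s → (∀ i, G i = ind q (y i) (2 ^ e i) ∧ 2 ^ (e i - 1) ≤ y i) →
    P * ∏ i, 2 ^ e i ≤ 2 ^ 14 * X →
    ∑ u ∈ Icc X (2 * X), ‖(∑ n ∈ Ioc u (u + h), (A * ∏ i, G i) n * ex (n * (a / q))) / (h : ℂ) -
        (∑ n ∈ Ioc u (u + YY X), (A * ∏ i, G i) n * ex (n * (a / q))) / (YY X : ℂ)‖ ^ 2 ≤
      X * (X : ℝ) ^ (-s) := by
  obtain ⟨s₀, hs₀, hdjs⟩ := djs ε hε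
  obtain ⟨Cw, hCw, hwin⟩ := win_diff
  obtain ⟨Cm, hCm, hmean⟩ := mean_value
  set s : ℝ := min s₀ (1 / 1000) / 100 with hs
  have hspos : 0 < s := by
    rw [hs]
    have : 0 < min s₀ (1 / 1000) := lt_min hs₀ (by norm_num)
    positivity
  have hs1 : 100 * s ≤ s₀ := by
    rw [hs]
    have := min_le_left s₀ (1 / 1000)
    linarith
  have hs2 : 100 * s ≤ 1 / 1000 := by
    rw [hs]
    have := min_le_right s₀ (1 / 1000)
    linarith
  obtain ⟨Ct, hCt, htau⟩ := tau_small (s / 12) (by positivity)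
  -- eventual conditions
  have hXat : Tendsto (fun X : ℕ => (X : ℝ)) atTop atTop := tendsto_natCast_atTop_atTop
  have ev1 : ∀ᶠ X : ℕ in atTop, Ct ^ 6 * ((2 : ℝ) ^ 14) ^ (s / 2) ≤ (X : ℝ) ^ (s / 2) :=
    ((tendsto_rpow_atTop (by positivity)).comp hXat).eventually_ge_atTop _
  have ev2 : ∀ᶠ X : ℕ in atTop, Real.log X ≤ (X : ℝ) ^ s := by
    have h1 := (isLittleO_log_rpow_atTop hspos).bound one_pos
    filter_upwards [hXat.eventually h1, eventually_ge_atTop 1] with X hX hX1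
    rw [one_mul, Real.norm_eq_abs, Real.norm_eq_abs, abs_of_nonneg (Real.log_nonneg (by
      exact_mod_cast hX1)), abs_of_nonneg (Real.rpow_nonneg (Nat.cast_nonneg _) _)] at hX
    exact hX
  have ev3 : ∀ᶠ X : ℕ in atTop, Cm * 2 ^ 30 ≤ (X : ℝ) ^ s :=
    ((tendsto_rpow_atTop hspos).comp hXat).eventually_ge_atTop _
  have ev4 : ∀ᶠ X : ℕ in atTop,
      (2 : ℝ) ^ 28 * (X : ℝ) ^ (4 : ℝ) * Real.exp (-((X : ℝ) ^ (100 * s) / 2)) ≤ 1 := by
    have h1 := (tendsto_rpow_mul_exp_neg_mul_atTop_nhds_zero (4 / (100 * s)) (1 / 2)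
      (by norm_num)).comp ((tendsto_rpow_atTop (show 0 < 100 * s by positivity)).comp hXat)
    have h2 := h1.const_mul ((2 : ℝ) ^ 28)
    rw [mul_zero] at h2
    filter_upwards [h2.eventually_lt_const one_pos, eventually_ge_atTop 1] with X hX hX1
    have hX0 : (0 : ℝ) ≤ X := Nat.cast_nonneg _
    simp only [Function.comp_apply] at hX
    rw [← Real.rpow_mul hX0, mul_div_cancel₀ _ (by positivity)] at hX
    have h3 : -(((X : ℝ) ^ (100 * s)) / 2) = -(1 / 2) * (X : ℝ) ^ (100 * s) := by ring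
    rw [h3, mul_assoc]
    exact hX.le
  have ev5 : ∀ᶠ X : ℕ in atTop, (7 : ℝ) ≤ Real.log X :=
    (Real.tendsto_log_atTop.comp hXat).eventually_ge_atTop _
  have ev6 : ∀ᶠ X : ℕ in atTop, Cw * 29 ≤ (X : ℝ) ^ s :=
    ((tendsto_rpow_atTop hspos).comp hXat).eventually_ge_atTop _
  refine ⟨s, hspos, ?_⟩
  filter_upwards [hdjs, ev1, ev2, ev3, ev4, ev5, ev6, eventually_ge_atTop 1] with X hdjs ev1 ev2 ev3
    ev4 ev5 ev6 hX1
  intro J q h P e y G A a HD hh1 hh2 hq1 hq2 hG hPN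
  have hXr1 : (1 : ℝ) ≤ X := by exact_mod_cast hX1
  have hX0 : (0 : ℝ) < X := by linarith only [hspos, hs2, hXr1]
  have hrp : ∀ a b : ℝ, a ≤ b → (X : ℝ) ^ a ≤ (X : ℝ) ^ b := fun a b hab =>
    Real.rpow_le_rpow_of_exponent_le hXr1 hab
  have hadd : ∀ a b : ℝ, (X : ℝ) ^ a * (X : ℝ) ^ b = (X : ℝ) ^ (a + b) := fun a b =>
    (Real.rpow_add hX0 a b).symm
  have hpos : ∀ a : ℝ, 0 < (X : ℝ) ^ a := fun a => Real.rpow_pos_of_pos hX0 a
  have hge1 : ∀ a : ℝ, 0 ≤ a → 1 ≤ (X : ℝ) ^ a := fun a ha => Real.one_le_rpow hXr1 ha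
  have hX1' : (X : ℝ) ^ (1 : ℝ) = X := Real.rpow_one _
  have : NeZero q := ⟨by omega⟩
  have hh0 : (0 : ℝ) < h := lt_of_lt_of_le (hpos _) hh1
  have hh1' : 1 ≤ h := by
    have : 0 < h := by exact_mod_cast hh0
    omega
  have hhr1 : (1 : ℝ) ≤ h := by exact_mod_cast hh1'
  set F : ArithmeticFunction ℂ := A * ∏ i, G i with hF
  have hFc : ∀ n, F n ≠ 0 → n.Coprime q := fun n hn => coef_coprime HD n hn
  set N : ℕ := 2 ^ 14 * X with hN
  have hNr : (N : ℝ) = 2 ^ 14 * X := by rw [hN]; push_cast; ring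
  set c : ℕ → ℂ := fun n => F n * ex (n * (a / q)) with hc
  set K : ℝ := (X : ℝ) ^ (2 * s) with hK
  have hK0 : 0 < K := hpos _
  have hcK : ∀ n ∈ Icc 1 N, ‖c n‖ ≤ K := by
    intro n hn
    rw [Finset.mem_Icc] at hn
    rw [hc]
    dsimp only
    rw [norm_mul, norm_ex, mul_one]
    refine (coef_bound HD n hn.1).trans ?_
    have h1 := htau n hn.1
    have hnr : (n : ℝ) ≤ 2 ^ 14 * X := by rw [← hNr]; exact_mod_cast hn.2
    have h2 : (n : ℝ) ^ (s / 12) ≤ (2 ^ 14 * X : ℝ) ^ (s / 12) :=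
      Real.rpow_le_rpow (Nat.cast_nonneg _) hnr (by (clear * - hs₀; positivity))
    have h3 : (n.divisors.card : ℝ) ≤ Ct * (2 ^ 14 * X : ℝ) ^ (s / 12) :=
      h1.trans (mul_le_mul_of_nonneg_left h2 (by linarith only [hspos, hs2, hCt]))
    have h4 : (n.divisors.card : ℝ) ^ 6 ≤ (Ct * (2 ^ 14 * X : ℝ) ^ (s / 12)) ^ 6 :=
      pow_le_pow_left₀ (Nat.cast_nonneg _) h3 6
    have h5 : (Ct * (2 ^ 14 * X : ℝ) ^ (s / 12)) ^ 6 =
        Ct ^ 6 * ((2 : ℝ) ^ 14) ^ (s / 2) * (X : ℝ) ^ (s / 2) := by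
      rw [mul_pow, ← Real.rpow_natCast ((2 ^ 14 * X : ℝ) ^ (s / 12)), ← Real.rpow_mul (by (clear * - hX1; positivity)),
        Real.mul_rpow (by (clear * -; positivity)) hX0.le]
      have : s / 12 * ((6 : ℕ) : ℝ) = s / 2 := by push_cast; ring
      rw [this]
      ring
    have h6 : Ct ^ 6 * ((2 : ℝ) ^ 14) ^ (s / 2) * (X : ℝ) ^ (s / 2) ≤ (X : ℝ) ^ s := by
      calc _ ≤ (X : ℝ) ^ (s / 2) * (X : ℝ) ^ (s / 2) :=
            mul_le_mul_of_nonneg_right ev1 (hpos _).le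
        _ = (X : ℝ) ^ s := by rw [hadd]; congr 1; ring
    calc (X : ℝ) ^ s * (n.divisors.card : ℝ) ^ 6 ≤ (X : ℝ) ^ s * (X : ℝ) ^ s :=
          mul_le_mul_of_nonneg_left (h4.trans (h5.trans_le h6)) (hpos _).le
      _ = K := by rw [hadd, hK]; congr 1; ring
  -- parameters
  set η : ℝ := 50 * s with hη
  set σ : ℝ := h / X * (X : ℝ) ^ (-η) with hσ
  set σ' : ℝ := (X : ℝ) ^ (-(7 / 50) - η) with hσ'
  set Λ : ℝ := Real.log X with hΛ
  set T1 : ℝ := (X : ℝ) ^ (7 / 50 : ℝ) with hT1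
  set T : ℝ := X / h * (X : ℝ) ^ (100 * s) with hT
  have hσ0 : 0 < σ := by (clear * - hX1 hh1'; positivity)
  have hσ'0 : 0 < σ' := hpos _
  have hhX : (h : ℝ) / X ≤ (X : ℝ) ^ (-(3 / 5) : ℝ) := by
    rw [div_le_iff₀ hX0]
    calc (h : ℝ) ≤ (X : ℝ) ^ (2 / 5 : ℝ) := hh2
      _ = (X : ℝ) ^ (-(3 / 5) : ℝ) * (X : ℝ) ^ (1 : ℝ) := by rw [hadd]; norm_num
      _ = _ := by rw [hX1']
  have hXh : (X : ℝ) ^ (3 / 5 : ℝ) ≤ X / h := by
    rw [le_div_iff₀ hh0]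
    calc (X : ℝ) ^ (3 / 5 : ℝ) * h ≤ (X : ℝ) ^ (3 / 5 : ℝ) * (X : ℝ) ^ (2 / 5 : ℝ) :=
          mul_le_mul_of_nonneg_left hh2 (hpos _).le
      _ = X := by rw [hadd]; norm_num
  have hσσ : σ ≤ σ' := by
    calc σ ≤ (X : ℝ) ^ (-(3 / 5) : ℝ) * (X : ℝ) ^ (-η) :=
          mul_le_mul_of_nonneg_right hhX (hpos _).le
      _ = (X : ℝ) ^ (-(3 / 5) + -η) := hadd _ _
      _ ≤ σ' := hrp _ _ (by linarith only [hspos, hs2])
  have hT1pos : 0 < T1 := hpos _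
  have hT1T : T1 ≤ T := by
    calc T1 ≤ (X : ℝ) ^ (3 / 5 : ℝ) := hrp _ _ (by norm_num)
      _ ≤ X / h := hXh
      _ ≤ X / h * (X : ℝ) ^ (100 * s) := le_mul_of_one_le_right (by (clear * - hX1 hh1'; positivity))
          (hge1 _ (by (clear * - hs₀; positivity)))
  obtain ⟨hint, hgd⟩ := gauss_diff (Icc 1 N) (fun n hn => (Finset.mem_Icc.1 hn).1) c σ σ' T1 T
    hσ0 hσσ hT1pos hT1T
  -- the mean value
  have hI0 : ∫ t in (-T1)..T1, ‖∑ n ∈ Icc 1 N, c n * nit n t‖ ^ 2 ≤ (X : ℝ) ^ (2 + 5 * s) := by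
    have h1 := hmean N c (-T1) (2 * T1) (by rw [hN]; omega) (by (clear * - hX1; positivity))
    have h2 : -T1 + 2 * T1 = T1 := by ring
    rw [h2] at h1
    refine h1.trans ?_
    have h3 : ∑ n ∈ Icc 1 N, ‖c n‖ ^ 2 ≤ N * K ^ 2 := by
      calc ∑ n ∈ Icc 1 N, ‖c n‖ ^ 2 ≤ ∑ n ∈ Icc 1 N, K ^ 2 :=
            Finset.sum_le_sum fun n hn => pow_le_pow_left₀ (norm_nonneg _) (hcK n hn) 2
        _ = N * K ^ 2 := by
            rw [Finset.sum_const, Nat.card_Icc, nsmul_eq_mul]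
            simp
    have h4 : T1 ≤ X := by
      calc T1 ≤ (X : ℝ) ^ (1 : ℝ) := hrp _ _ (by norm_num)
        _ = X := hX1'
    have h5 : 1 + 2 * T1 + N ≤ 2 ^ 15 * X := by
      rw [hNr]
      linarith only [hspos, hs2, hXr1, h4]
    have h6 : 0 ≤ 1 + 2 * T1 + (N : ℝ) := by (clear * - hX1; positivity)
    calc Cm * (1 + 2 * T1 + N) * ∑ n ∈ Icc 1 N, ‖c n‖ ^ 2
        ≤ Cm * (2 ^ 15 * X) * (N * K ^ 2) :=
          mul_le_mul (mul_le_mul_of_nonneg_left h5 (by linarith only [hCm, hspos, hs2])) h3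
            (Finset.sum_nonneg fun _ _ => by (clear * -; positivity)) (by (clear * - hCm hX1; positivity))
      _ = Cm * 2 ^ 29 * (X ^ 2 * K ^ 2) := by rw [hNr]; ring
      _ ≤ (X : ℝ) ^ s * (X ^ 2 * K ^ 2) := by
          refine mul_le_mul_of_nonneg_right ?_ (by (clear * - hX1; positivity))
          refine le_trans ?_ ev3
          have : (0 : ℝ) ≤ Cm := by linarith only [hCm, hspos, hs2]
          nlinarith only [hCm, hspos, hs2]
      _ = (X : ℝ) ^ (2 + 5 * s) := by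
          rw [hK, ← Real.rpow_natCast (X : ℝ) 2, ← Real.rpow_natCast ((X : ℝ) ^ (2 * s)) 2,
            ← Real.rpow_mul hX0.le, hadd, hadd]
          congr 1
          push_cast
          ring
  -- the characters
  have hmono : DCl X h q J P s₀ e G A := HD.mono hX1 (by linarith only [hspos, hs1])
  have hqs : (q : ℝ) ≤ (X : ℝ) ^ s₀ := hq2.trans (hrp _ _ (by linarith only [hspos, hs1]))
  have hI : ∀ t0 t1 : ℝ, t0 ≤ t1 → (∀ t : ℝ, t0 ≤ t → t ≤ t1 → T1 ≤ |t| ∧ |t| ≤ T) →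
      ∫ t in t0..t1, ‖∑ n ∈ Icc 1 N, c n * nit n t‖ ^ 2 ≤ (X : ℝ) ^ (2 - 99 * s) := by
    intro t0 t1 h01 ht
    have h1 : ∫ t in t0..t1, ‖∑ n ∈ Icc 1 N, F n * ex (n * (a / q)) * nit n t‖ ^ 2 ≤
        q * (X : ℝ) ^ (2 - s₀) := by
      refine integral_chars F hFc N a h01 (hpos _).le fun χ => ?_
      refine hdjs J q h P N χ e y G A t0 t1 hmono hh1 hh2 hqs hG hPN h01 fun t h2 h3 => ?_
      obtain ⟨h4, h5⟩ := ht t h2 h3
      refine ⟨h4, h5.trans ?_⟩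
      exact mul_le_mul_of_nonneg_left (hrp _ _ hs1) (by (clear * - hX1 hh1'; positivity))
    refine h1.trans ?_
    calc (q : ℝ) * (X : ℝ) ^ (2 - s₀) ≤ (X : ℝ) ^ s * (X : ℝ) ^ (2 - s₀) :=
          mul_le_mul_of_nonneg_right hq2 (hpos _).le
      _ = (X : ℝ) ^ (s + (2 - s₀)) := hadd _ _
      _ ≤ (X : ℝ) ^ (2 - 99 * s) := hrp _ _ (by linarith only [hs1])
  have hI1 : ∫ t in T1..T, ‖∑ n ∈ Icc 1 N, c n * nit n t‖ ^ 2 ≤ (X : ℝ) ^ (2 - 99 * s) := by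
    refine hI T1 T hT1T fun t h2 h3 => ?_
    rw [abs_of_pos (by linarith only [hT1pos, h2])]
    exact ⟨h2, h3⟩
  have hI2 : ∫ t in (-T)..(-T1), ‖∑ n ∈ Icc 1 N, c n * nit n t‖ ^ 2 ≤ (X : ℝ) ^ (2 - 99 * s) := by
    refine hI (-T) (-T1) (by linarith only [hT1T]) fun t h2 h3 => ?_
    rw [abs_of_neg (by linarith only [hT1pos, h3])]
    exact ⟨by linarith only [h3], by linarith only [h2]⟩
  -- the third term
  have hσT : σ ^ 2 * T ^ 2 = (X : ℝ) ^ (100 * s) := by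
    have h1 : σ * T = (X : ℝ) ^ η := by
      calc σ * T = (h / X * (X / h)) * ((X : ℝ) ^ (-η) * (X : ℝ) ^ (100 * s)) := by
            rw [hσ, hT]; ring
        _ = (X : ℝ) ^ η := by
            rw [div_mul_div_cancel₀ hX0.ne', div_self hh0.ne', one_mul, hadd]
            congr 1
            rw [hη]
            ring
    rw [← mul_pow, h1, ← Real.rpow_natCast, ← Real.rpow_mul hX0.le]
    congr 1
    rw [hη]
    push_cast
    ring
  have h3rd : (∑ n ∈ Icc 1 N, ‖c n‖) ^ 2 * (Real.exp (-(σ ^ 2 * T ^ 2 / 2)) / σ) ≤ 1 := by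
    have h1 : ∑ n ∈ Icc 1 N, ‖c n‖ ≤ N * K := by
      calc ∑ n ∈ Icc 1 N, ‖c n‖ ≤ ∑ n ∈ Icc 1 N, K := Finset.sum_le_sum fun n hn => hcK n hn
        _ = N * K := by
            rw [Finset.sum_const, Nat.card_Icc, nsmul_eq_mul]
            simp
    have h2 : (∑ n ∈ Icc 1 N, ‖c n‖) ^ 2 ≤ (N * K) ^ 2 :=
      pow_le_pow_left₀ (Finset.sum_nonneg fun _ _ => norm_nonneg _) h1 2
    have h3 : 1 / σ ≤ (X : ℝ) ^ (1 + η) := by
      rw [div_le_iff₀ hσ0, hσ]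
      calc (1 : ℝ) ≤ h := hhr1
        _ = (X : ℝ) ^ (1 : ℝ) * (h / X) := by rw [hX1', mul_div_cancel₀ _ hX0.ne']
        _ = (X : ℝ) ^ (1 + η) * (h / X * (X : ℝ) ^ (-η)) := by
            rw [← hadd 1 η]
            have : (X : ℝ) ^ η * (X : ℝ) ^ (-η) = 1 := by
              rw [hadd, add_neg_cancel, Real.rpow_zero]
            linear_combination (-(X : ℝ) ^ (1 : ℝ) * (h / X)) * this
    rw [hσT]
    set E : ℝ := Real.exp (-((X : ℝ) ^ (100 * s) / 2)) with hE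
    have hE0 : 0 < E := Real.exp_pos _
    calc (∑ n ∈ Icc 1 N, ‖c n‖) ^ 2 * (E / σ) = (∑ n ∈ Icc 1 N, ‖c n‖) ^ 2 * (E * (1 / σ)) := by
          ring
      _ ≤ (N * K) ^ 2 * (E * (X : ℝ) ^ (1 + η)) :=
          mul_le_mul h2 (mul_le_mul_of_nonneg_left h3 hE0.le) (by (clear * - hX1 hh1'; positivity)) (by (clear * - hX1; positivity))
      _ = 2 ^ 28 * ((X : ℝ) ^ 2 * K ^ 2 * (X : ℝ) ^ (1 + η)) * E := by rw [hNr]; ring
      _ ≤ 2 ^ 28 * (X : ℝ) ^ (4 : ℝ) * E := by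
          refine mul_le_mul_of_nonneg_right (mul_le_mul_of_nonneg_left ?_ (by (clear * -; positivity))) hE0.le
          rw [hK, ← Real.rpow_natCast (X : ℝ) 2, ← Real.rpow_natCast ((X : ℝ) ^ (2 * s)) 2,
            ← Real.rpow_mul hX0.le, hadd, hadd]
          refine hrp _ _ ?_
          rw [hη]
          push_cast
          linarith only [hspos, hs2]
      _ ≤ 1 := ev4
  -- the first term
  have h1st : (σ' * T1) ^ 4 * (∫ t in (-T1)..T1, ‖∑ n ∈ Icc 1 N, c n * nit n t‖ ^ 2) ≤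
      (X : ℝ) ^ (2 - 99 * s) := by
    have h1 : (σ' * T1) ^ 4 = (X : ℝ) ^ (-(200 * s)) := by
      rw [hσ', hT1, hadd, ← Real.rpow_natCast, ← Real.rpow_mul hX0.le]
      congr 1
      rw [hη]
      push_cast
      ring
    rw [h1]
    calc _ ≤ (X : ℝ) ^ (-(200 * s)) * (X : ℝ) ^ (2 + 5 * s) :=
          mul_le_mul_of_nonneg_left hI0 (hpos _).le
      _ = (X : ℝ) ^ (-(200 * s) + (2 + 5 * s)) := hadd _ _
      _ ≤ (X : ℝ) ^ (2 - 99 * s) := hrp _ _ (by linarith only [hspos])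
  have hone : (1 : ℝ) ≤ (X : ℝ) ^ (2 - 99 * s) := hge1 _ (by linarith only [hspos, hs2])
  have hInt : ∫ v : ℝ, ‖∑ n ∈ Icc 1 N, c n *
      ((gs σ (v - Real.log n) - gs σ' (v - Real.log n) : ℝ) : ℂ)‖ ^ 2 ≤
      4 * (X : ℝ) ^ (2 - 99 * s) := by linarith only [hgd, hI1, hI2, h3rd, h1st, hone]
  -- the windows
  have hY0 : (X : ℝ) ^ (17 / 20 : ℝ) ≤ YY X := Nat.le_ceil _
  have hY1 : (YY X : ℝ) ≤ 2 * (X : ℝ) ^ (17 / 20 : ℝ) := by
    have h1 : (YY X : ℝ) < (X : ℝ) ^ (17 / 20 : ℝ) + 1 := Nat.ceil_lt_add_one (hpos _).le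
    have h2 := hge1 (17 / 20) (by norm_num)
    linarith only [h1, h2]
  have hhY : h ≤ YY X := by
    have h1 : (h : ℝ) ≤ YY X := (hh2.trans (hrp _ _ (by norm_num))).trans hY0
    exact_mod_cast h1
  have hYX : YY X ≤ X := by
    refine Nat.ceil_le.2 ?_
    calc (X : ℝ) ^ (17 / 20 : ℝ) ≤ (X : ℝ) ^ (1 : ℝ) := hrp _ _ (by norm_num)
      _ = X := hX1'
  have hXσ' : 1 ≤ X * σ' := by
    calc (1 : ℝ) ≤ (X : ℝ) ^ (1 + (-(7 / 50) - η)) := hge1 _ (by rw [hη]; linarith only [hspos, hs2])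
      _ = (X : ℝ) ^ (1 : ℝ) * σ' := (hadd _ _).symm
      _ = X * σ' := by rw [hX1']
  have hΛ1 : 1 ≤ Λ := by linarith only [hspos, hs2, ev5]
  have hσΛ : σ' * Λ ≤ 1 := by
    calc σ' * Λ ≤ σ' * (X : ℝ) ^ s := mul_le_mul_of_nonneg_left ev2 hσ'0.le
      _ = (X : ℝ) ^ ((-(7 / 50) - η) + s) := hadd _ _
      _ ≤ (X : ℝ) ^ (0 : ℝ) := hrp _ _ (by rw [hη]; linarith only [hspos, hs2])
      _ = 1 := Real.rpow_zero _
  have hfin := hwin X h (YY X) N c K σ σ' Λ hX1 hh1' hhY hYX (by rw [hN]; omega) hσ0 hσσ hXσ' hΛ1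
    hσΛ hK0.le hcK hint
  refine hfin.trans ?_
  -- the error
  have hNexp : (N : ℝ) * Real.exp (-(Λ ^ 2 / 2)) ≤ 1 := by
    have h1 : (N : ℝ) ≤ Real.exp (14 + Λ) := by
      rw [Real.exp_add, hΛ, Real.exp_log hX0, hNr]
      refine mul_le_mul_of_nonneg_right ?_ hX0.le
      have h2 : (2 : ℝ) ≤ Real.exp 1 := by
        have := Real.add_one_le_exp (1 : ℝ)
        linarith only [this]
      calc (2 : ℝ) ^ 14 ≤ (Real.exp 1) ^ 14 := pow_le_pow_left₀ (by norm_num) h2 14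
        _ = Real.exp 14 := by rw [← Real.exp_nat_mul]; norm_num
    calc (N : ℝ) * Real.exp (-(Λ ^ 2 / 2)) ≤ Real.exp (14 + Λ) * Real.exp (-(Λ ^ 2 / 2)) :=
          mul_le_mul_of_nonneg_right h1 (Real.exp_pos _).le
      _ = Real.exp (14 + Λ + -(Λ ^ 2 / 2)) := (Real.exp_add _ _).symm
      _ ≤ Real.exp 0 := Real.exp_le_exp.2 (by nlinarith only [hspos, hs2, ev5])
      _ = 1 := Real.exp_zero
  have hE : (1 + X * σ * Λ + N * Real.exp (-(Λ ^ 2 / 2))) / h + YY X / (X * σ') ≤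
      5 * (X : ℝ) ^ (-(49 * s)) := by
    have h1 : 1 / (h : ℝ) ≤ (X : ℝ) ^ (-(49 * s)) := by
      rw [div_le_iff₀ hh0]
      calc (1 : ℝ) ≤ (X : ℝ) ^ (-(49 * s) + (1 / 6 + ε)) := hge1 _ (by linarith only [hε, hspos, hs2])
        _ = (X : ℝ) ^ (-(49 * s)) * (X : ℝ) ^ (1 / 6 + ε) := (hadd _ _).symm
        _ ≤ (X : ℝ) ^ (-(49 * s)) * h := mul_le_mul_of_nonneg_left hh1 (hpos _).le
    have h2 : X * σ * Λ / h ≤ (X : ℝ) ^ (-(49 * s)) := by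
      have h3 : X * σ * Λ / h = (X : ℝ) ^ (-η) * Λ := by
        rw [hσ]
        field_simp
      rw [h3]
      calc (X : ℝ) ^ (-η) * Λ ≤ (X : ℝ) ^ (-η) * (X : ℝ) ^ s :=
            mul_le_mul_of_nonneg_left ev2 (hpos _).le
        _ = (X : ℝ) ^ (-η + s) := hadd _ _
        _ = (X : ℝ) ^ (-(49 * s)) := by congr 1; rw [hη]; ring
    have h4 : (N * Real.exp (-(Λ ^ 2 / 2))) / h ≤ (X : ℝ) ^ (-(49 * s)) :=
      (div_le_div_of_nonneg_right hNexp hh0.le).trans h1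
    have h5 : YY X / (X * σ') ≤ 2 * (X : ℝ) ^ (-(49 * s)) := by
      rw [div_le_iff₀ (by (clear * - hX1; positivity))]
      calc (YY X : ℝ) ≤ 2 * (X : ℝ) ^ (17 / 20 : ℝ) := hY1
        _ ≤ 2 * (X : ℝ) ^ (-(49 * s) + (1 + (-(7 / 50) - η))) :=
            mul_le_mul_of_nonneg_left (hrp _ _ (by rw [hη]; linarith only [hspos, hs2])) zero_le_two
        _ = 2 * (X : ℝ) ^ (-(49 * s)) * (X * σ') := by
            rw [← hadd, ← hadd, hX1']
            ring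
    have h6 : (1 + X * σ * Λ + N * Real.exp (-(Λ ^ 2 / 2))) / h =
        1 / h + X * σ * Λ / h + (N * Real.exp (-(Λ ^ 2 / 2))) / h := by ring
    rw [h6]
    linarith only [h1, h2, h4, h5]
  have hE0 : 0 ≤ (1 + X * σ * Λ + N * Real.exp (-(Λ ^ 2 / 2))) / h + YY X / (X * σ') := by
    (clear * - hX1 hh1' ev5; positivity)
  have hA1 : 1 / X * (∫ v : ℝ, ‖∑ n ∈ Icc 1 N, c n *
      ((gs σ (v - Real.log n) - gs σ' (v - Real.log n) : ℝ) : ℂ)‖ ^ 2) ≤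
      4 * (X : ℝ) ^ (1 - 94 * s) := by
    rw [one_div, inv_mul_le_iff₀ hX0]
    refine hInt.trans ?_
    calc 4 * (X : ℝ) ^ (2 - 99 * s) ≤ 4 * (X : ℝ) ^ (1 + (1 - 94 * s)) :=
          mul_le_mul_of_nonneg_left (hrp _ _ (by linarith only [hspos])) (by norm_num)
      _ = X * (4 * (X : ℝ) ^ (1 - 94 * s)) := by
          rw [← hadd, hX1']
          ring
  have hA2 : X * K ^ 2 * ((1 + X * σ * Λ + N * Real.exp (-(Λ ^ 2 / 2))) / h +
      YY X / (X * σ')) ^ 2 ≤ 25 * (X : ℝ) ^ (1 - 94 * s) := by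
    calc _ ≤ X * K ^ 2 * (5 * (X : ℝ) ^ (-(49 * s))) ^ 2 :=
          mul_le_mul_of_nonneg_left (pow_le_pow_left₀ hE0 hE 2) (by (clear * - hX1; positivity))
      _ = 25 * ((X : ℝ) ^ (1 : ℝ) * (X : ℝ) ^ (4 * s) * (X : ℝ) ^ (-(98 * s))) := by
          rw [hX1']
          have h1 : K ^ 2 = (X : ℝ) ^ (4 * s) := by
            rw [hK, ← Real.rpow_natCast, ← Real.rpow_mul hX0.le]
            congr 1
            push_cast
            ring
          have h2 : ((X : ℝ) ^ (-(49 * s))) ^ 2 = (X : ℝ) ^ (-(98 * s)) := by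
            rw [← Real.rpow_natCast, ← Real.rpow_mul hX0.le]
            congr 1
            push_cast
            ring
          rw [mul_pow, h1, h2]
          ring
      _ = 25 * (X : ℝ) ^ (1 - 94 * s) := by
          rw [hadd, hadd]
          congr 2
          ring
  calc _ ≤ Cw * (4 * (X : ℝ) ^ (1 - 94 * s) + 25 * (X : ℝ) ^ (1 - 94 * s)) :=
        mul_le_mul_of_nonneg_left (add_le_add hA1 hA2) (by linarith only [hCw, hspos, hs2])
    _ = Cw * 29 * (X : ℝ) ^ (1 - 94 * s) := by ring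
    _ ≤ (X : ℝ) ^ s * (X : ℝ) ^ (1 - 94 * s) := mul_le_mul_of_nonneg_right ev6 (hpos _).le
    _ = (X : ℝ) ^ (s + (1 - 94 * s)) := hadd _ _
    _ ≤ (X : ℝ) ^ (1 + -s) := hrp _ _ (by linarith only [hspos])
    _ = X * (X : ℝ) ^ (-s) := by rw [← hadd, hX1']

end Pool.Agent.VM
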