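import Mathlib

/-!
# Module Expo3: the exponent inequality, three factors

Take `s = min ε (min e1 (min c 1)) / 100` (any small enough multiple; `linarith` does every step). Suppose `1 - s < j + k + w`,
`w = v 0 + v 1 + v 2`. `m_D`, `v_D` are the sums over `D`.
(1) `hM` with `D = univ \ {i}`: `m_D ≤ 1 + s - n i`, `v_D = w - v i`: both branches of the max give `v i ≥ th - k - 4 s`
    (first branch `j ≤ 1 - th - w + v i + s`; second `j ≤ 1 + s - n i - k - w + v i + s` and `n i ≥ th - s`);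
    so `v i ≥ e1 - 4 s ≥ 3 s`.
(2) `hC` with `D = {i}` (allowed by (1)): `2 n i - 2 k ≤ 1 - th + 2 s - 2 k`, so `j ≤ 1 - th - k - 2 v i + 3 s`, hence
    `w ≥ th + 2 v i - 4 s`. Sum over the three `i`: `3 w ≥ 3 th + 2 w - 12 s`, `w ≥ 3 th - 12 s`.
(3) `hH` with `D = univ \ {l}`: the branch `0` gives `j ≤ 1 + s - n l - k - w + v l + s`, so `v l ≥ n l - 3 s`,
    contradicting `v l ≤ n l - c`; the other branch gives `2 w ≤ 1 - th - n l + 3 v l + 4 s` (use `1 - th - 2 v_D`).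
    Sum over `l`: `6 w ≤ 3 - 3 th - (1 - s) + 3 w + 12 s`, so `3 w ≤ 2 - 3 th + 13 s`.
(2) and (3): `12 th ≤ 2 + 49 s`, contradiction with `th ≥ 1/6 + ε`.
-/

set_option autoImplicit false

open Finset

namespace Pool.Agent.VM

theorem expo3 (ε e1 c : ℝ) (hε : 0 < ε) (he1 : 0 < e1) (hc : 0 < c) : ∃ s : ℝ, 0 < s ∧
    ∀ (th k j : ℝ) (n v : Fin 3 → ℝ), 1 / 6 + ε ≤ th → th ≤ 2 / 5 → 0 ≤ k → k ≤ th - e1 →
    (∀ i, th - s ≤ n i) → (∀ i, n i ≤ (1 - th) / 2 + s) → 1 - s ≤ ∑ i, n i → ∑ i, n i ≤ 1 + s →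
    (∀ i, 0 ≤ v i) → (∀ i, v i ≤ n i - c) →
    (∀ D : Finset (Fin 3), D.Nonempty → j ≤ max (1 - th) (∑ i ∈ D, n i - k) - ∑ i ∈ D, v i + s) →
    (∀ D : Finset (Fin 3), D.Nonempty → 3 * s ≤ ∑ i ∈ D, v i →
      j ≤ max (1 - th - k) (2 * ∑ i ∈ D, n i - 2 * k) - 2 * ∑ i ∈ D, v i + s) →
    (∀ D : Finset (Fin 3), D.Nonempty →
      j ≤ ∑ i ∈ D, n i - k - ∑ i ∈ D, v i + max 0 (1 - th - 2 * ∑ i ∈ D, v i) + s) →
    j ≤ 1 - th + s → j + k + ∑ i, v i ≤ 1 - s := by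
  set s : ℝ := min ε (min e1 (min c 1)) / 100 with hs
  have hm : 0 < min ε (min e1 (min c 1)) :=
    lt_min hε (lt_min he1 (lt_min hc one_pos))
  have hs0 : 0 < s := by positivity
  have hsε : 100 * s ≤ ε := by
    have := min_le_left ε (min e1 (min c 1))
    linarith
  have hse : 100 * s ≤ e1 := by
    have := (min_le_right ε (min e1 (min c 1))).trans (min_le_left _ _)
    linarith
  have hsc : 100 * s ≤ c := by
    have := (min_le_right ε (min e1 (min c 1))).trans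
      ((min_le_right e1 (min c 1)).trans (min_le_left _ _))
    linarith
  clear_value s
  refine ⟨s, hs0, ?_⟩
  intro th k j n v hth hth' hk hk' hn hn' hN hN' hv hv' hM hC hH hJ
  simp only [Fin.sum_univ_three] at *
  by_contra hcon
  push Not at hcon
  have e01 : ∀ f : Fin 3 → ℝ, ∑ i ∈ ({0, 1} : Finset (Fin 3)), f i = f 0 + f 1 := fun f =>
    sum_pair (by decide)
  have e02 : ∀ f : Fin 3 → ℝ, ∑ i ∈ ({0, 2} : Finset (Fin 3)), f i = f 0 + f 2 := fun f =>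
    sum_pair (by decide)
  have e12 : ∀ f : Fin 3 → ℝ, ∑ i ∈ ({1, 2} : Finset (Fin 3)), f i = f 1 + f 2 := fun f =>
    sum_pair (by decide)
  have n0 := hn 0
  have n1 := hn 1
  have n2 := hn 2
  have m0 := hn' 0
  have m1 := hn' 1
  have m2 := hn' 2
  have w0 := hv' 0
  have w1 := hv' 1
  have w2 := hv' 2
  have v0 : e1 - 4 * s ≤ v 0 := by
    have h := hM {1, 2} (by simp)
    rw [e12, e12] at h
    rcases max_cases (1 - th) (n 1 + n 2 - k) with ⟨h1, _⟩ | ⟨h1, _⟩ <;> rw [h1] at h <;> linarith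
  have v1 : e1 - 4 * s ≤ v 1 := by
    have h := hM {0, 2} (by simp)
    rw [e02, e02] at h
    rcases max_cases (1 - th) (n 0 + n 2 - k) with ⟨h1, _⟩ | ⟨h1, _⟩ <;> rw [h1] at h <;> linarith
  have v2 : e1 - 4 * s ≤ v 2 := by
    have h := hM {0, 1} (by simp)
    rw [e01, e01] at h
    rcases max_cases (1 - th) (n 0 + n 1 - k) with ⟨h1, _⟩ | ⟨h1, _⟩ <;> rw [h1] at h <;> linarith
  have c2 : ∀ i, 3 * s ≤ v i → j ≤ 1 - th - k - 2 * v i + 3 * s := by
    intro i hi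
    have h := hC {i} (by simp) (by rw [sum_singleton]; exact hi)
    rw [sum_singleton, sum_singleton] at h
    have h2 := hn' i
    rcases max_cases (1 - th - k) (2 * n i - 2 * k) with ⟨h1, _⟩ | ⟨h1, _⟩ <;> rw [h1] at h <;>
      linarith
  have a0 := c2 0 (by linarith)
  have a1 := c2 1 (by linarith)
  have a2 := c2 2 (by linarith)
  have b0 : 2 * (v 0 + v 1 + v 2) ≤ 1 + 3 * s - n 0 - th + 3 * v 0 := by
    have h := hH {1, 2} (by simp)
    rw [e12, e12] at h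
    rcases max_cases 0 (1 - th - 2 * (v 1 + v 2)) with ⟨h1, _⟩ | ⟨h1, _⟩ <;> rw [h1] at h <;>
      linarith
  have b1 : 2 * (v 0 + v 1 + v 2) ≤ 1 + 3 * s - n 1 - th + 3 * v 1 := by
    have h := hH {0, 2} (by simp)
    rw [e02, e02] at h
    rcases max_cases 0 (1 - th - 2 * (v 0 + v 2)) with ⟨h1, _⟩ | ⟨h1, _⟩ <;> rw [h1] at h <;>
      linarith
  have b2 : 2 * (v 0 + v 1 + v 2) ≤ 1 + 3 * s - n 2 - th + 3 * v 2 := by
    have h := hH {0, 1} (by simp)
    rw [e01, e01] at h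
    rcases max_cases 0 (1 - th - 2 * (v 0 + v 1)) with ⟨h1, _⟩ | ⟨h1, _⟩ <;> rw [h1] at h <;>
      linarith
  linarith

end Pool.Agent.VM
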