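import Pool.Agent.Lib.HLT.Defs
import Pool.Agent.Lib.P07318m.GaussChar
import Pool.Agent.Lib.VM.Defs

/-!
# Module LongWin: long window, pointwise

`∑_{n ∈ (u,u+Y]} (b * ind q N1 N2) n ex(n a/q) = ∑_m b(m) ∑_k ex(m k a/q)`, `k` over the integers coprime to `q` in the interval
`(max N1 (u/m), min N2 ((u+Y)/m)]`, nonempty only if `m N1 < u + Y`, so `m ≤ M`; at most `Y/m + 1` consecutive integers. A complete period of
`q` consecutive integers contributes `∑_{k mod q, (k,q)=1} ex(k m a/q) = μ(q)` (Ramanujan sum with `m a` coprime to `q`; see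
`P07318m/GaussChar.lean`), absolute value
`≤ 1`; there are at most `(Y/m + 1)/q` complete periods and `< q` further terms. So each `m` contributes
`≤ |b m| ((Y/m + 1)/q + q) ≤ |b m| (Y/(m q) + 2 q)`.
-/

set_option autoImplicit false

open Finset

namespace Pool.Agent.VM

open Pool.Agent.VK Pool.Agent.HLT

namespace LongWinAux

/-- regrouping a Dirichlet convolution over a window -/
theorem regroup (N1 N2 u Y M : ℕ) (hM : u + Y ≤ M * N1) (G : ℕ → ℕ → ℂ)
    (hG : ∀ m k, ¬ (N1 < k ∧ k ≤ N2) → G m k = 0) :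
    ∑ n ∈ Ioc u (u + Y), ∑ x ∈ n.divisorsAntidiagonal, G x.1 x.2 =
      ∑ m ∈ Icc 1 M, ∑ k ∈ (Ioc N1 N2).filter (fun k => u < m * k ∧ m * k ≤ u + Y), G m k := by
  set S := (Icc 1 M ×ˢ Ioc N1 N2).filter (fun x : ℕ × ℕ => u < x.1 * x.2 ∧ x.1 * x.2 ≤ u + Y) with hS
  have h1 : ∑ m ∈ Icc 1 M, ∑ k ∈ (Ioc N1 N2).filter (fun k => u < m * k ∧ m * k ≤ u + Y), G m k =
      ∑ x ∈ S, G x.1 x.2 := by
    rw [hS, Finset.sum_filter, Finset.sum_product]
    refine Finset.sum_congr rfl fun m _ => ?_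
    rw [Finset.sum_filter]
  rw [h1]
  have h2 : ∑ x ∈ S, G x.1 x.2 =
      ∑ n ∈ Ioc u (u + Y), ∑ x ∈ S.filter (fun x => x.1 * x.2 = n), G x.1 x.2 := by
    rw [Finset.sum_fiberwise_of_maps_to]
    intro x hx
    rw [hS, Finset.mem_filter] at hx
    exact Finset.mem_Ioc.2 hx.2
  rw [h2]
  refine Finset.sum_congr rfl fun n hn => ?_
  rw [Finset.mem_Ioc] at hn
  symm
  refine Finset.sum_subset ?_ ?_
  · intro x hx
    rw [Finset.mem_filter] at hx
    rw [Nat.mem_divisorsAntidiagonal]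
    exact ⟨hx.2, by omega⟩
  · intro x hx hx'
    rw [Nat.mem_divisorsAntidiagonal] at hx
    refine hG _ _ fun h => hx' ?_
    rw [Finset.mem_filter, hS, Finset.mem_filter, Finset.mem_product, Finset.mem_Icc, Finset.mem_Ioc]
    refine ⟨⟨⟨⟨?_, ?_⟩, h⟩, ?_⟩, hx.1⟩
    · rcases Nat.eq_zero_or_pos x.1 with h0 | h0
      · rw [h0, zero_mul] at hx
        omega
      · exact h0
    · have h3 : x.1 * x.2 ≤ M * N1 := by rw [hx.1]; omega
      by_contra h4
      rw [not_le] at h4
      have h5 : M * N1 ≤ M * x.2 := Nat.mul_le_mul_left M h.1.le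
      have h6 : M * x.2 < x.1 * x.2 := Nat.mul_lt_mul_of_pos_right h4 (by omega)
      omega
    · rw [hx.1]
      exact hn

/-- the additive character -/
theorem ex_std (q : ℕ) [NeZero q] (k : ℕ) (c : ℤ) :
    ex (k * (c / q)) = (ZMod.stdAddChar ((c : ZMod q) * (k : ZMod q)) : ℂ) := by
  have h := ZMod.stdAddChar_coe (N := q) (c * k)
  push_cast at h
  rw [h]
  unfold ex
  congr 1
  push_cast
  ring

/-- a complete period -/
theorem period (q : ℕ) [NeZero q] (c : ℤ) (hc : IsCoprime c (q : ℤ)) (A : ℕ) :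
    ‖∑ k ∈ Ioc A (A + q), if k.Coprime q then ex (k * (c / q)) else 0‖ ≤ 1 := by
  classical
  have hq : 0 < q := Nat.pos_of_ne_zero (NeZero.ne q)
  have hcu : IsUnit (c : ZMod q) := (ZMod.coe_int_isUnit_iff_isCoprime c q).2 hc.symm
  obtain ⟨v, hv⟩ := hcu
  have h1 : ∀ k : ℕ, (if k.Coprime q then ex (k * (c / q)) else 0) =
      (1 : DirichletCharacter ℂ q) (k : ZMod q) *
        ((ZMod.stdAddChar (N := q)).mulShift v (k : ZMod q) : ℂ) := by
    intro k
    rw [AddChar.mulShift_apply, hv]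
    split_ifs with h
    · rw [ex_std, MulChar.one_apply ((ZMod.isUnit_iff_coprime k q).2 h), one_mul]
    · rw [MulChar.map_nonunit _ fun h' => h ((ZMod.isUnit_iff_coprime k q).1 h'), zero_mul]
  rw [Finset.sum_congr rfl fun k _ => h1 k]
  have h2 : ∑ k ∈ Ioc A (A + q), (1 : DirichletCharacter ℂ q) (k : ZMod q) *
        ((ZMod.stdAddChar (N := q)).mulShift v (k : ZMod q) : ℂ) =
      gaussSum (1 : DirichletCharacter ℂ q) ((ZMod.stdAddChar (N := q)).mulShift v) := by
    unfold gaussSum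
    have hinj : Set.InjOn (fun k : ℕ => (k : ZMod q)) (Ioc A (A + q) : Finset ℕ) := by
      intro k hk l hl h
      rw [Finset.mem_coe, Finset.mem_Ioc] at hk hl
      have h3 : k ≡ l [MOD q] := (ZMod.natCast_eq_natCast_iff k l q).1 h
      rcases le_total k l with h4 | h4
      · have h5 := (Nat.modEq_iff_dvd' h4).1 h3
        rcases Nat.eq_zero_or_pos (l - k) with h6 | h6
        · omega
        · have := Nat.le_of_dvd h6 h5
          omega
      · have h5 := (Nat.modEq_iff_dvd' h4).1 h3.symm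
        rcases Nat.eq_zero_or_pos (k - l) with h6 | h6
        · omega
        · have := Nat.le_of_dvd h6 h5
          omega
    have himg : (Ioc A (A + q)).image (fun k : ℕ => (k : ZMod q)) = Finset.univ := by
      refine Finset.eq_univ_of_card _ ?_
      rw [Finset.card_image_of_injOn hinj, Nat.card_Ioc, ZMod.card]
      omega
    rw [← himg, Finset.sum_image hinj]
  rw [h2, gaussSum_mulShift_eq, inv_one, MulChar.one_apply v.isUnit, one_mul,
    Pool.Agent.P07318m.gauss_one]
  rw [Complex.norm_intCast]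
  exact_mod_cast ArithmeticFunction.abs_moebius_le_one

/-- an incomplete sum -/
theorem incomplete (q : ℕ) [NeZero q] (c : ℤ) (hc : IsCoprime c (q : ℤ)) (t : ℕ) :
    ∀ A N : ℕ, N < q * (t + 1) →
    ‖∑ k ∈ Ioc A (A + N), if k.Coprime q then ex (k * (c / q)) else 0‖ ≤ t + q := by
  induction t with
  | zero =>
    intro A N hN
    refine (norm_sum_le _ _).trans ?_
    have h1 : ∀ k ∈ Ioc A (A + N), ‖(if k.Coprime q then ex (k * (c / q)) else 0 : ℂ)‖ ≤ 1 := by
      intro k _
      split_ifs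
      · exact (norm_ex _).le
      · rw [norm_zero]; exact zero_le_one
    refine (Finset.sum_le_sum h1).trans ?_
    rw [Finset.sum_const, Nat.card_Ioc, nsmul_eq_mul, mul_one]
    have h2 : A + N - A ≤ q := by omega
    have h3 : ((A + N - A : ℕ) : ℝ) ≤ q := by exact_mod_cast h2
    simpa using h3
  | succ t ih =>
    intro A N hN
    rcases le_or_gt q N with h | h
    · have h1 : ∑ k ∈ Ioc A (A + N), (if k.Coprime q then ex (k * (c / q)) else 0 : ℂ) =
          ∑ k ∈ Ioc A (A + q), (if k.Coprime q then ex (k * (c / q)) else 0) +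
          ∑ k ∈ Ioc (A + q) (A + q + (N - q)), (if k.Coprime q then ex (k * (c / q)) else 0) := by
        have h2 : A + N = A + q + (N - q) := by omega
        rw [h2, Finset.sum_Ioc_consecutive _ (by omega) (by omega)]
      rw [h1]
      refine (norm_add_le _ _).trans ?_
      have h3 := period q c hc A
      have h4 := ih (A + q) (N - q) (by
        have : q * (t + 1 + 1) = q * (t + 1) + q := by ring
        omega)
      push_cast
      linarith
    · have h4 := ih A N (lt_of_lt_of_le h (Nat.le_mul_of_pos_right q (Nat.succ_pos t)))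
      push_cast
      linarith

end LongWinAux

open LongWinAux

theorem long_win (q N1 N2 u Y M : ℕ) (a : ℤ) (b : ArithmeticFunction ℂ) (hq : 1 ≤ q) (ha : IsCoprime a (q : ℤ))
    (hN : 1 ≤ N1) (hb : ∀ m, b m ≠ 0 → m.Coprime q) (hM : u + Y ≤ M * N1) :
    ‖∑ n ∈ Ioc u (u + Y), (b * ind q N1 N2) n * ex (n * (a / q))‖ ≤
      Y / q * ∑ m ∈ Icc 1 M, ‖b m‖ / m + 2 * q * ∑ m ∈ Icc 1 M, ‖b m‖ := by
  haveI : NeZero q := ⟨by omega⟩
  have hq0 : (0 : ℝ) < q := by exact_mod_cast hq
  have hq1 : (1 : ℝ) ≤ q := by exact_mod_cast hq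
  have h1 : ∑ n ∈ Ioc u (u + Y), (b * ind q N1 N2) n * ex (n * (a / q)) =
      ∑ n ∈ Ioc u (u + Y), ∑ x ∈ n.divisorsAntidiagonal,
        (b x.1 * ind q N1 N2 x.2 * ex ((x.1 * x.2 : ℕ) * (a / q))) := by
    refine Finset.sum_congr rfl fun n _ => ?_
    rw [ArithmeticFunction.mul_apply, Finset.sum_mul]
    refine Finset.sum_congr rfl fun x hx => ?_
    rw [Nat.mem_divisorsAntidiagonal] at hx
    rw [hx.1]
  rw [h1, regroup N1 N2 u Y M hM (fun m k => b m * ind q N1 N2 k * ex ((m * k : ℕ) * (a / q)))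
    (fun m k h => by
      show b m * ind q N1 N2 k * ex ((m * k : ℕ) * (a / q)) = 0
      rw [ind_apply, if_neg fun h' => h ⟨h'.1, h'.2.1⟩, mul_zero, zero_mul])]
  refine (norm_sum_le _ _).trans ?_
  rw [Finset.mul_sum, Finset.mul_sum, ← Finset.sum_add_distrib]
  refine Finset.sum_le_sum fun m hm => ?_
  rw [Finset.mem_Icc] at hm
  have hm0 : (0 : ℝ) < m := by exact_mod_cast hm.1
  by_cases hbm : b m = 0
  · simp [hbm]
  have hcop := hb m hbm
  have hc : IsCoprime ((m : ℤ) * a) (q : ℤ) :=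
    IsCoprime.mul_left (Nat.isCoprime_iff_coprime.2 hcop) ha
  set A := max N1 (u / m) with hA
  set B := min N2 ((u + Y) / m) with hB
  have h2 : ∑ k ∈ (Ioc N1 N2).filter (fun k => u < m * k ∧ m * k ≤ u + Y),
      b m * ind q N1 N2 k * ex ((m * k : ℕ) * (a / q)) =
      b m * ∑ k ∈ Ioc A B, if k.Coprime q then ex (k * ((((m : ℤ) * a : ℤ) : ℝ) / q)) else 0 := by
    rw [Finset.mul_sum]
    have h3 : (Ioc N1 N2).filter (fun k => u < m * k ∧ m * k ≤ u + Y) = Ioc A B := by
      ext k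
      rw [Finset.mem_filter, Finset.mem_Ioc, Finset.mem_Ioc, hA, hB, max_lt_iff, le_min_iff,
        Nat.div_lt_iff_lt_mul hm.1, Nat.le_div_iff_mul_le hm.1, mul_comm k m]
      tauto
    rw [h3]
    refine Finset.sum_congr rfl fun k hk => ?_
    rw [← h3, Finset.mem_filter, Finset.mem_Ioc] at hk
    rw [ind_apply]
    by_cases hk2 : k.Coprime q
    · rw [if_pos ⟨hk.1.1, hk.1.2, hk2⟩, if_pos hk2, mul_one]
      congr 2
      push_cast
      ring
    · rw [if_neg fun h' => hk2 h'.2.2, if_neg hk2, mul_zero, zero_mul]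
  rw [h2, norm_mul]
  have h4 : ‖∑ k ∈ Ioc A B, (if k.Coprime q then ex (k * ((((m : ℤ) * a : ℤ) : ℝ) / q)) else 0 : ℂ)‖ ≤
      Y / (q * m) + 2 * q := by
    rcases le_or_gt B A with h | h
    · rw [Finset.Ioc_eq_empty (by omega), Finset.sum_empty, norm_zero]
      positivity
    · have h5 : B = A + (B - A) := by omega
      have h6 : B - A ≤ Y / m + 1 := by
        have h7 : B ≤ (u + Y) / m := min_le_right _ _
        have h8 : u / m ≤ A := le_max_right _ _
        have h9 : (u + Y) / m ≤ u / m + Y / m + 1 := by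
          rw [← Nat.lt_succ_iff, Nat.div_lt_iff_lt_mul hm.1]
          have h10 := Nat.lt_div_mul_add hm.1 (a := u)
          have h11 := Nat.lt_div_mul_add hm.1 (a := Y)
          have h12 : (u / m + Y / m + 1).succ * m = u / m * m + Y / m * m + 2 * m := by
            rw [Nat.succ_eq_add_one]; ring
          omega
        omega
      rw [h5]
      have h7 := incomplete q ((m : ℤ) * a) hc ((B - A) / q) A (B - A) (by
        rw [mul_comm]
        have := Nat.lt_div_mul_add (show 0 < q by omega) (a := B - A)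
        calc B - A < (B - A) / q * q + q := this
          _ = _ := by ring)
      refine h7.trans ?_
      have h8 : (((B - A) / q : ℕ) : ℝ) ≤ ((B - A : ℕ) : ℝ) / q := Nat.cast_div_le
      have h9 : ((B - A : ℕ) : ℝ) ≤ (Y : ℝ) / m + 1 := by
        have h10 : ((B - A : ℕ) : ℝ) ≤ ((Y / m + 1 : ℕ) : ℝ) := by exact_mod_cast h6
        push_cast at h10
        have h11 : ((Y / m : ℕ) : ℝ) ≤ (Y : ℝ) / m := Nat.cast_div_le
        linarith only [h10, h11]
      have h10 : ((B - A : ℕ) : ℝ) / q ≤ ((Y : ℝ) / m + 1) / q := div_le_div_of_nonneg_right h9 hq0.le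
      have h11 : ((Y : ℝ) / m + 1) / q = Y / (q * m) + 1 / q := by field_simp
      have h12 : (1 : ℝ) / q ≤ 1 := by
        rw [div_le_one hq0]
        exact hq1
      linarith only [hq1, h8, h10, h11, h12]
  refine (mul_le_mul_of_nonneg_left h4 (norm_nonneg _)).trans (le_of_eq ?_)
  field_simp

end Pool.Agent.VM
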