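import Pool.Agent.Lib.VM.VarChi6
import Pool.Agent.Lib.VL.MajorWin3

/-!
# Module MajorWin6: major arcs, exponent 1/6

Copy the proof of `VL.major_win3` (file VL/MajorWin3.lean, it uses `major_core`, `nu_win3`, `var_all3`) with `var_all6` in place of `var_all3` and `1/6` for `1/3`.
-/

set_option autoImplicit false

open Finset Filter

namespace Pool.Agent.VM

open Pool.Agent.VK Pool.Agent.HLT Pool.Agent.VL

theorem major_win6 (A1 B : ℕ) (ε : ℝ) (hε : 0 < ε) : ∃ c : ℕ, ∀ A : ℕ, A1 ≤ A → ∀ᶠ x : ℕ in atTop, ∀ (q : ℕ) (a : ℤ),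
    1 ≤ q → (q : ℝ) ≤ Real.log x ^ A1 → ∀ h : ℕ, (x : ℝ) ^ (1 / 6 + ε) ≤ h → (h : ℝ) ≤ x / Real.log x ^ c →
    ∑ u ∈ range (2 * x + 1), ‖∑ n ∈ Ioc u (u + h), (ff (zA A x) n : ℂ) * ex (n * (a / q))‖ ^ 2 ≤
      x * (h : ℝ) ^ 2 / Real.log x ^ B := by
  obtain ⟨c, hc⟩ := var_all6 (2 * A1 + B + 1) ε hε
  refine ⟨c, fun A hA => ?_⟩
  have hlim : Tendsto (fun x : ℕ => Real.log x) atTop atTop :=
    Real.tendsto_log_atTop.comp tendsto_natCast_atTop_atTop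
  -- `log x ^ m ≤ x ^ δ`
  have hpow : ∀ (m : ℕ) (δ : ℝ), 0 < δ → ∀ᶠ x : ℕ in atTop, Real.log x ^ m ≤ (x : ℝ) ^ δ := by
    intro m δ hδ
    have h2 := (isLittleO_log_rpow_rpow_atTop (m : ℝ) hδ).comp_tendsto
      (tendsto_natCast_atTop_atTop (R := ℝ))
    have h3 := h2.bound (c := 1) one_pos
    filter_upwards [h3, hlim.eventually_ge_atTop 0] with x hx hx0
    simp only [Function.comp_apply, one_mul, Real.rpow_natCast] at hx
    rw [Real.norm_of_nonneg (by positivity), Real.norm_of_nonneg (by positivity)] at hx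
    exact hx
  filter_upwards [hc, nu_win3 A (A1 + B + 1) ε hε, hlim.eventually_ge_atTop 200,
    hpow (B + 4) (1 / 2) (by norm_num), hpow (4 * A1 + B + 1) (1 / 6) (by norm_num),
    eventually_ge_atTop 3] with x h1 h2 hL h3 h4 hx3
  intro q a hq1 hqA h hh1 hh2
  have : NeZero q := ⟨by omega⟩
  set L : ℝ := Real.log x with hLdef
  have hL1 : 1 ≤ L := by linarith only [hL]
  have hL0 : 0 < L := by linarith only [hL]
  have hx1 : (1:ℝ) ≤ x := by exact_mod_cast (by omega : 1 ≤ x)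
  have hx0 : (0:ℝ) < x := by linarith only [hx1]
  have hqz : q ≤ zA A x := by
    unfold zA
    apply Nat.le_floor
    exact hqA.trans (pow_le_pow_right₀ hL1 hA)
  have hhx : (h : ℝ) ≤ x := hh2.trans (div_le_self hx0.le (one_le_pow₀ hL1))
  have hhx' : h ≤ x := by exact_mod_cast hhx
  have hhε : (x : ℝ) ^ ε ≤ h :=
    (Real.rpow_le_rpow_of_exponent_le hx1 (by linarith)).trans hh1
  have hh3 : (x : ℝ) ^ (1 / 6 : ℝ) ≤ h :=
    (Real.rpow_le_rpow_of_exponent_le hx1 (by linarith only [hε])).trans hh1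
  have hh0 : (0 : ℝ) < h := lt_of_lt_of_le (by (clear * - hx3; positivity)) hh3
  have hqr : (0:ℝ) ≤ q := Nat.cast_nonneg q
  have hcore := major_core q a (zA A x) x h hqz (x * (h : ℝ) ^ 2 / L ^ (2 * A1 + B + 1))
    (h / L ^ (A1 + B + 1))
    (fun χ => h1 q χ (hqA.trans (pow_le_pow_right₀ hL1 (by omega))) h hh1 hh2)
    (fun u b hb => h2 u h hhε (by omega) q b hq1 hqz hb)
  refine hcore.trans ?_
  have hq2 : (q : ℝ) ^ 2 ≤ L ^ (2 * A1) := by
    calc (q : ℝ) ^ 2 ≤ (L ^ A1) ^ 2 := pow_le_pow_left₀ hqr hqA 2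
      _ = L ^ (2 * A1) := by rw [← pow_mul, mul_comm]
  have hq4 : (q : ℝ) ^ 4 ≤ L ^ (4 * A1) := by
    calc (q : ℝ) ^ 4 ≤ (L ^ A1) ^ 4 := pow_le_pow_left₀ hqr hqA 4
      _ = L ^ (4 * A1) := by rw [← pow_mul, mul_comm]
  have h2x : (2 * (x : ℝ) + 1) ≤ 3 * x := by linarith only [hx1]
  -- the target
  set R : ℝ := x * (h : ℝ) ^ 2 / L ^ B with hR
  have hR0 : 0 ≤ R := by (clear * - hx3 hL hh0; positivity)
  have hh1' : (1:ℝ) ≤ h := by
    have : (0:ℝ) < h := hh0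
    have h5 : 0 < h := by exact_mod_cast this
    exact_mod_cast h5
  -- first term
  have t1 : (2 * (x : ℝ) + 1) * (q : ℝ) ^ 4 ≤ R / 50 := by
    have e1 : L ^ (4 * A1 + B + 1) ≤ h := h4.trans hh3
    have e2 : L ^ (4 * A1) * L ^ B * 200 ≤ h := by
      refine le_trans ?_ e1
      rw [pow_add, pow_add, pow_one]
      gcongr
    rw [hR, le_div_iff₀ (by norm_num), le_div_iff₀ (by (clear * - hL; positivity))]
    calc (2 * (x : ℝ) + 1) * (q : ℝ) ^ 4 * 50 * L ^ B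
        ≤ (3 * x) * L ^ (4 * A1) * 50 * L ^ B := by gcongr
      _ = x * (L ^ (4 * A1) * L ^ B * 150) := by ring
      _ ≤ x * (L ^ (4 * A1) * L ^ B * 200) := by gcongr; norm_num
      _ ≤ x * (h : ℝ) ^ 2 := by
          gcongr
          nlinarith only [hh1', e2]
  have t2 : 2 * (q : ℝ) ^ 2 * (x * (h : ℝ) ^ 2 / L ^ (2 * A1 + B + 1)) ≤ R / 50 := by
    calc 2 * (q : ℝ) ^ 2 * (x * (h : ℝ) ^ 2 / L ^ (2 * A1 + B + 1))
        ≤ 2 * L ^ (2 * A1) * (x * (h : ℝ) ^ 2 / L ^ (2 * A1 + B + 1)) := by gcongr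
      _ = R * (2 / L) := by
          rw [hR, pow_add, pow_add, pow_one]
          field_simp
      _ ≤ R * (1 / 50) := by
          refine mul_le_mul_of_nonneg_left ?_ hR0
          rw [div_le_div_iff₀ hL0 (by norm_num)]
          linarith only [hL]
      _ = R / 50 := by ring
  have t3 : (2 * (x : ℝ) + 1) * (2 * (q : ℝ) ^ 2 * (h / L ^ (A1 + B + 1)) ^ 2) ≤ R / 20 := by
    calc (2 * (x : ℝ) + 1) * (2 * (q : ℝ) ^ 2 * (h / L ^ (A1 + B + 1)) ^ 2)
        ≤ (3 * x) * (2 * L ^ (2 * A1) * (h / L ^ (A1 + B + 1)) ^ 2) := by gcongr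
      _ = R * (6 / L ^ (B + 2)) := by
          rw [hR, div_pow, ← pow_mul]
          have : (A1 + B + 1) * 2 = 2 * A1 + B + (B + 2) := by ring
          rw [this, pow_add, pow_add]
          field_simp
          ring
      _ ≤ R * (1 / 20) := by
          refine mul_le_mul_of_nonneg_left ?_ hR0
          rw [div_le_div_iff₀ (by (clear * - hL; positivity)) (by norm_num)]
          have : L ≤ L ^ (B + 2) := le_self_pow₀ hL1 (by omega)
          linarith only [hL, this]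
      _ = R / 20 := by ring
  have t4 : (h : ℝ) ^ 2 * (2 * Real.sqrt ((2 * x + 1 + h : ℕ) : ℝ) *
          Real.log ((2 * x + 1 + h : ℕ) : ℝ) ^ 2) ≤ R / 10 := by
    have e1 : ((2 * x + 1 + h : ℕ) : ℝ) ≤ 4 * x := by
      have : 2 * x + 1 + h ≤ 4 * x := by omega
      exact_mod_cast this
    have e0 : (1:ℝ) ≤ ((2 * x + 1 + h : ℕ) : ℝ) := by
      exact_mod_cast (by omega : 1 ≤ 2 * x + 1 + h)
    have e2 : Real.sqrt ((2 * x + 1 + h : ℕ) : ℝ) ≤ 2 * (x : ℝ) ^ (1 / 2 : ℝ) := by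
      calc Real.sqrt ((2 * x + 1 + h : ℕ) : ℝ) ≤ Real.sqrt (4 * x) := Real.sqrt_le_sqrt e1
        _ = 2 * (x : ℝ) ^ (1 / 2 : ℝ) := by
            rw [Real.sqrt_mul (by norm_num), Real.sqrt_eq_rpow x]
            congr 1
            rw [show (4:ℝ) = 2 ^ 2 by norm_num, Real.sqrt_sq (by norm_num)]
    have e3 : Real.log ((2 * x + 1 + h : ℕ) : ℝ) ≤ 2 * L := by
      have h5 : Real.log ((2 * x + 1 + h : ℕ) : ℝ) ≤ Real.log (4 * x) :=
        Real.log_le_log (by linarith only [e0]) e1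
      have h6 : Real.log (4 * x) = 2 * Real.log 2 + L := by
        rw [Real.log_mul (by norm_num) hx0.ne', show (4:ℝ) = 2 ^ 2 by norm_num, Real.log_pow, hLdef]
        norm_num
      have := Real.log_two_lt_d9
      rw [h6] at h5
      linarith only [hL, h5, this]
    have e4 : 0 ≤ Real.log ((2 * x + 1 + h : ℕ) : ℝ) := Real.log_nonneg e0
    have e5 : 160 * L ^ 2 * L ^ B ≤ (x : ℝ) ^ (1 / 2 : ℝ) := by
      refine le_trans ?_ h3
      have : (160:ℝ) ≤ L ^ 2 := by nlinarith only [hL]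
      calc 160 * L ^ 2 * L ^ B ≤ L ^ 2 * L ^ 2 * L ^ B := by gcongr
        _ = L ^ (B + 4) := by ring
    have e6 : (x : ℝ) = (x : ℝ) ^ (1 / 2 : ℝ) * (x : ℝ) ^ (1 / 2 : ℝ) := by
      rw [← Real.rpow_add hx0]
      norm_num
    rw [hR, le_div_iff₀ (by norm_num), le_div_iff₀ (by (clear * - hL; positivity))]
    calc (h : ℝ) ^ 2 * (2 * Real.sqrt ((2 * x + 1 + h : ℕ) : ℝ) *
          Real.log ((2 * x + 1 + h : ℕ) : ℝ) ^ 2) * 10 * L ^ B
        ≤ (h : ℝ) ^ 2 * (2 * (2 * (x : ℝ) ^ (1 / 2 : ℝ)) * (2 * L) ^ 2) * 10 * L ^ B := by gcongr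
      _ = (h : ℝ) ^ 2 * ((x : ℝ) ^ (1 / 2 : ℝ) * (160 * L ^ 2 * L ^ B)) := by ring
      _ ≤ (h : ℝ) ^ 2 * ((x : ℝ) ^ (1 / 2 : ℝ) * (x : ℝ) ^ (1 / 2 : ℝ)) := by gcongr
      _ = x * (h : ℝ) ^ 2 := by rw [← e6]; ring
  linarith only [hR0, t1, t2, t3, t4]

end Pool.Agent.VM
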