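import Pool.Agent.Lib.SW.Lower341
import Pool.Agent.Lib.VK.LogDer
import Pool.Agent.Lib.VK.ZeroFree

/-!
# Module MuFBound: bounds for the derivatives of `1/L` on the right of `Re s = 1`

`muc χ n = χ(n) μ(n)`. `Lm (muc χ) m s = ∑ χ(n) μ(n) (log n)^m n^(-s) = (-1)^m (1/L)^{(m)}(s)` for `Re s > 1`
(`DirichletCharacter.LSeries.mul_mu_eq_one`, `Lm_hasDerivAt`, as `fb_iter` in VK/FBoundVK.lean).
`ℓ = log T`, `P = ℓ^(19/20)`, `η = 1/(8P)`. If `Re s ≥ 1 + η`: trivial bound `C_m η^(-(m+1))`. If `1 < Re s ≤ 1 + η`: `z0 = 1 + η + i Im s`. On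
`closedBall z0 (4η)` (`Re ≥ 1 - 3η ≥ 1 - 1/P`) `L` is analytic, has no zero (`zero_free`), `|L| ≤ ℓ²` (`l_upper`), `|L z0| ≥ η/2` (`fb_lower` in
VK/FBoundVK.lean is private: copy it), so `|L| ≤ exp(M) |L z0|` with `M = 5 log ℓ` (`ℓ^2 · 16 P ≤ ℓ^5`). `logder` with `m = 0`, `r = 2η`: `|L'/L| ≤ C0 M/(2η)` on
`closedBall z0 (2η)`; integrating along the segment from `z0`: `|L z| ≥ |L z0| exp(-C0 M)`, so `|1/L| ≤ (2/η) ℓ^(5 C0) ≤ ℓ^(5 C0 + 2)·16` on
`closedBall z0 (2η)` (the derivative of `t ↦ log |L(z0 + t(z - z0))|` is bounded; or use `exists_log` in VK/LogDer.lean). `s ∈ closedBall z0 η`, so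
`closedBall s η ⊆ closedBall z0 (2η)` and Cauchy (`Complex.norm_iteratedDeriv_le_of_forall_mem_sphere_norm_le`) gives
`|(1/L)^{(m)}(s)| ≤ m! 16 ℓ^(5 C0 + 2) (8P)^m`. `c0 = ⌈5 C0⌉ + 4` does not depend on `m`.
-/

set_option autoImplicit false

open Finset Filter Pool.Agent.Lib.SW

namespace Pool.Agent.VM

open Pool.Agent.VK

noncomputable def muc {q : ℕ} (χ : DirichletCharacter ℂ q) : ℕ → ℂ :=
  fun n => chf χ n * ((ArithmeticFunction.moebius n : ℤ) : ℂ)

namespace MuFAux

lemma series_le (g : ℕ → ℂ) (s : ℂ) {y K : ℝ} (hy : 0 < y) (hy1 : y ≤ 1) (hK : 0 ≤ K)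
    (hg : ∀ n : ℕ, n ≠ 0 → ‖g n‖ ≤ K * (n : ℝ) ^ (s.re - 1 - y)) :
    ‖LSeries g s‖ ≤ K * (2 / y) := by
  have hsum : Summable (fun n : ℕ => 1 / (n : ℝ) ^ (1 + y)) :=
    Real.summable_one_div_nat_rpow.mpr (by linarith)
  have h1 : ∑' n : ℕ, 1 / (n : ℝ) ^ (1 + y) ≤ 2 / y := by
    rw [hsum.tsum_eq_zero_add]
    have h0 : 1 / ((0 : ℕ) : ℝ) ^ (1 + y) = 0 := by
      rw [Nat.cast_zero, Real.zero_rpow (by linarith), div_zero]
    rw [h0, zero_add]
    have := l341_zeta_le hy hy1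
    refine le_trans (le_of_eq ?_) this
    refine tsum_congr fun n => ?_
    push_cast
    rfl
  have h2 : ‖LSeries g s‖ ≤ K * ∑' n : ℕ, 1 / (n : ℝ) ^ (1 + y) := by
    unfold LSeries
    refine tsum_of_norm_bounded (hsum.hasSum.mul_left K) (fun n => ?_)
    rcases eq_or_ne n 0 with rfl | hn
    · rw [LSeries.term_zero, norm_zero]
      positivity
    · rw [LSeries.norm_term_eq, if_neg hn]
      have hn0 : (0 : ℝ) < n := by exact_mod_cast Nat.pos_of_ne_zero hn
      rw [div_le_iff₀ (by positivity)]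
      refine (hg n hn).trans (le_of_eq ?_)
      rw [mul_assoc, div_mul_eq_mul_div, one_mul, ← Real.rpow_sub hn0]
      congr 2
      ring
  exact h2.trans (mul_le_mul_of_nonneg_left h1 hK)

lemma norm_muc_le {q : ℕ} (χ : DirichletCharacter ℂ q) (n : ℕ) : ‖muc χ n‖ ≤ 1 := by
  unfold muc
  rw [norm_mul]
  have h1 : ‖chf χ n‖ ≤ 1 := norm_chf_le χ n
  have h2 : ‖((ArithmeticFunction.moebius n : ℤ) : ℂ)‖ ≤ 1 := by
    rw [Complex.norm_intCast]
    exact_mod_cast ArithmeticFunction.abs_moebius_le_one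
  calc _ ≤ (1 : ℝ) * 1 := mul_le_mul h1 h2 (norm_nonneg _) zero_le_one
    _ = 1 := one_mul 1

lemma abscissa_muc {q : ℕ} (χ : DirichletCharacter ℂ q) :
    LSeries.abscissaOfAbsConv (muc χ) ≤ 1 := abscissa_le_one (norm_muc_le χ)

lemma mul_muc {q : ℕ} [NeZero q] (χ : DirichletCharacter ℂ q) {s : ℂ} (hs : 1 < s.re) :
    χ.LFunction s * Lm (muc χ) 0 s = 1 := by
  rw [Lm_zero, DirichletCharacter.LFunction_eq_LSeries χ hs]
  exact DirichletCharacter.LSeries.mul_mu_eq_one χ hs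

lemma Lm_muc_zero {q : ℕ} [NeZero q] (χ : DirichletCharacter ℂ q) {s : ℂ} (hs : 1 < s.re) :
    Lm (muc χ) 0 s = (χ.LFunction s)⁻¹ :=
  eq_inv_of_mul_eq_one_right (mul_muc χ hs)

lemma lower {q : ℕ} [NeZero q] (χ : DirichletCharacter ℂ q) {s : ℂ} {y : ℝ}
    (hy : 0 < y) (hy1 : y ≤ 1) (hs : s.re = 1 + y) : y / 2 ≤ ‖χ.LFunction s‖ := by
  have hs1 : 1 < s.re := by linarith
  have h3 : ‖Lm (muc χ) 0 s‖ ≤ 1 * (2 / y) := by
    rw [Lm_zero]
    refine series_le _ s hy hy1 zero_le_one (fun n hn => ?_)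
    have : s.re - 1 - y = 0 := by linarith
    rw [this, Real.rpow_zero, mul_one]
    exact norm_muc_le χ n
  have h4 : 1 = ‖χ.LFunction s‖ * ‖Lm (muc χ) 0 s‖ := by
    rw [← norm_mul, mul_muc χ hs1, norm_one]
  have h5 : 1 ≤ ‖χ.LFunction s‖ * (2 / y) := by
    rw [one_mul] at h3
    calc (1 : ℝ) = ‖χ.LFunction s‖ * ‖Lm (muc χ) 0 s‖ := h4
      _ ≤ _ := mul_le_mul_of_nonneg_left h3 (norm_nonneg _)
  rw [← mul_div_assoc, le_div_iff₀ hy] at h5
  linarith

lemma iter {q : ℕ} [NeZero q] (χ : DirichletCharacter ℂ q) (m : ℕ) {s : ℂ}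
    (hs : 1 < s.re) : iteratedDeriv m (fun w => (χ.LFunction w)⁻¹) s =
      (-1) ^ m * Lm (muc χ) m s := by
  have hopen : IsOpen {z : ℂ | 1 < z.re} := isOpen_lt continuous_const Complex.continuous_re
  induction m generalizing s with
  | zero =>
    rw [iteratedDeriv_zero, Lm_muc_zero χ hs, pow_zero, one_mul]
  | succ m ih =>
    rw [iteratedDeriv_succ]
    have hev : iteratedDeriv m (fun w => (χ.LFunction w)⁻¹) =ᶠ[nhds s]
        (fun z => (-1) ^ m * Lm (muc χ) m z) := by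
      filter_upwards [hopen.mem_nhds hs] with z hz
      exact ih hz
    rw [hev.deriv_eq, ((Lm_hasDerivAt (abscissa_muc χ) m hs).const_mul _).deriv]
    ring

/-- derivatives of `1 / f` for a zero free function -/
theorem inv_key (m : ℕ) (f : ℂ → ℂ) (z0 : ℂ) (r M : ℝ) (hr : 0 < r) (hM : 0 < M)
    (hf : AnalyticOnNhd ℂ f (Metric.closedBall z0 (2 * r)))
    (h0 : ∀ z ∈ Metric.closedBall z0 (2 * r), f z ≠ 0)
    (hb : ∀ z ∈ Metric.closedBall z0 (2 * r), ‖f z‖ ≤ Real.exp M * ‖f z0‖) (z : ℂ)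
    (hz : z ∈ Metric.closedBall z0 r) :
    ‖iteratedDeriv m (fun w => (f w)⁻¹) z‖ ≤
      m.factorial * (Real.exp (6 * M) / ‖f z0‖) / (r / 2) ^ m := by
  have hsub : Metric.ball z0 (2 * r) ⊆ Metric.closedBall z0 (2 * r) :=
    Metric.ball_subset_closedBall
  have h2r : 0 < 2 * r := by positivity
  obtain ⟨g, hg0, hg, hfg⟩ := LogDerAux.exists_log h2r
    (hf.differentiableOn.mono hsub) (fun z hz => h0 z (hsub hz))
  have hgd : DifferentiableOn ℂ g (Metric.ball z0 (2 * r)) :=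
    fun z hz => (hg z hz).differentiableAt.differentiableWithinAt
  have hz0 : 0 < ‖f z0‖ := norm_pos_iff.2 (h0 z0 (Metric.mem_closedBall_self h2r.le))
  have hre : ∀ w ∈ Metric.ball z0 (2 * r), (g w).re ≤ M := by
    intro w hw
    have h1 := hb w (hsub hw)
    rw [hfg w hw, norm_mul, Complex.norm_exp, mul_comm] at h1
    exact Real.exp_le_exp.1 (le_of_mul_le_mul_right h1 hz0)
  have hshift : ∀ w ∈ Metric.ball (0 : ℂ) (2 * r), z0 + w ∈ Metric.ball z0 (2 * r) := by
    intro w hw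
    rw [Metric.mem_ball, dist_eq_norm, add_sub_cancel_left]
    exact mem_ball_zero_iff.1 hw
  have hGd : DifferentiableOn ℂ (fun w => g (z0 + w)) (Metric.ball 0 (2 * r)) :=
    hgd.comp (differentiableOn_const z0 |>.add differentiableOn_id) hshift
  have hbc : ∀ w : ℂ, ‖w - z0‖ ≤ 3 * r / 2 → ‖g w‖ ≤ 6 * M := by
    intro w hw
    have hw' : w - z0 ∈ Metric.ball (0 : ℂ) (2 * r) := by
      rw [mem_ball_zero_iff]
      linarith only [hr, hw]
    have h1 := Complex.borelCaratheodory_zero hM hGd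
      (fun x hx => hre _ (hshift x hx)) h2r hw' (by simp only [add_zero]; exact hg0)
    simp only [add_sub_cancel] at h1
    refine h1.trans ?_
    rw [div_le_iff₀ (by linarith only [hr, hw])]
    nlinarith only [hM, hw, norm_nonneg (w - z0)]
  have hz' : ‖z - z0‖ ≤ r := by
    rw [← dist_eq_norm]
    exact Metric.mem_closedBall.1 hz
  have hr2 : 0 < r / 2 := by positivity
  have hcl : Metric.closedBall z (r / 2) ⊆ Metric.ball z0 (2 * r) := by
    intro w hw
    rw [Metric.mem_closedBall, dist_eq_norm] at hw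
    rw [Metric.mem_ball, dist_eq_norm]
    have : ‖w - z0‖ ≤ ‖w - z‖ + ‖z - z0‖ := by
      have := norm_add_le (w - z) (z - z0)
      simpa using this
    linarith only [hr, hz', hw, this]
  have hinv : DifferentiableOn ℂ (fun w => (f w)⁻¹) (Metric.ball z0 (2 * r)) := by
    intro w hw
    exact ((hf w (hsub hw)).differentiableAt.inv (h0 w (hsub hw))).differentiableWithinAt
  have hdc : DiffContOnCl ℂ (fun w => (f w)⁻¹) (Metric.ball z (r / 2)) := by
    apply DifferentiableOn.diffContOnCl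
    rw [closure_ball z hr2.ne']
    exact hinv.mono hcl
  refine Complex.norm_iteratedDeriv_le_of_forall_mem_sphere_norm_le m hr2 hdc
    (C := Real.exp (6 * M) / ‖f z0‖) (fun w hw => ?_)
  have hwz : ‖w - z‖ = r / 2 := by
    rw [← dist_eq_norm]
    exact Metric.mem_sphere.1 hw
  have hw0 : ‖w - z0‖ ≤ 3 * r / 2 := by
    have : ‖w - z0‖ ≤ ‖w - z‖ + ‖z - z0‖ := by
      have := norm_add_le (w - z) (z - z0)
      simpa using this
    linarith only [hz', hwz, this]
  have hwb : w ∈ Metric.ball z0 (2 * r) := by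
    rw [Metric.mem_ball, dist_eq_norm]
    linarith only [hr, hw0]
  have h1 := hbc w hw0
  have h2 : -(6 * M) ≤ (g w).re := by
    have := (abs_le.1 ((Complex.abs_re_le_norm (g w)).trans h1)).1
    linarith only [this]
  rw [norm_inv, hfg w hwb, norm_mul, Complex.norm_exp, mul_inv, ← Real.exp_neg, div_eq_mul_inv,
    mul_comm]
  exact mul_le_mul_of_nonneg_right (Real.exp_le_exp.2 (by linarith only [h2])) (by (clear * - hz0; positivity))

lemma event : ∀ᶠ T : ℝ in atTop, 8 ≤ Real.log T ∧ 8 ≤ T := by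
  filter_upwards [Real.tendsto_log_atTop.eventually_ge_atTop 8, eventually_ge_atTop 8]
    with T hT2 hT8
  exact ⟨hT2, hT8⟩

end MuFAux

open MuFAux

theorem mu_triv (m : ℕ) : ∃ C : ℝ, 0 < C ∧ ∀ (q : ℕ) [NeZero q] (χ : DirichletCharacter ℂ q) (s : ℂ),
    1 < s.re → s.re ≤ 2 → ‖Lm (muc χ) m s‖ ≤ C * (1 / (s.re - 1)) ^ (m + 1) := by
  refine ⟨4 * (2 * ((m : ℝ) + 1)) ^ m, by positivity, fun q _ χ s hs1 hs2 => ?_⟩
  set x : ℝ := s.re - 1 with hx
  have hx0 : 0 < x := by linarith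
  have hx1 : x ≤ 1 := by linarith
  have hm : (0 : ℝ) < (m : ℝ) + 1 := by positivity
  set e : ℝ := x / (2 * ((m : ℝ) + 1)) with he
  have he0 : 0 < e := by positivity
  have h1 : ‖LSeries (lg (muc χ) m) s‖ ≤ (1 / e) ^ m * (2 / (x / 2)) := by
    refine series_le _ s (by positivity) (by linarith) (by positivity) (fun n hn => ?_)
    have hn0 : (0 : ℝ) < n := by exact_mod_cast Nat.pos_of_ne_zero hn
    have hn1 : (1 : ℝ) ≤ n := by exact_mod_cast Nat.one_le_iff_ne_zero.2 hn
    have hlog0 : 0 ≤ Real.log n := Real.log_nonneg hn1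
    have hL : ‖lg (muc χ) m n‖ ≤ Real.log n ^ m := by
      simp only [lg]
      rw [norm_mul, norm_pow, Complex.norm_real, Real.norm_of_nonneg hlog0]
      calc ‖muc χ n‖ * Real.log n ^ m ≤ 1 * Real.log n ^ m :=
            mul_le_mul_of_nonneg_right (norm_muc_le χ n) (by positivity)
        _ = _ := one_mul _
    refine hL.trans ?_
    have h3 : Real.log n ≤ (n : ℝ) ^ e / e := Real.log_le_rpow_div hn0.le he0
    have h4 : (n : ℝ) ^ (e * m) ≤ (n : ℝ) ^ (s.re - 1 - x / 2) := by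
      apply Real.rpow_le_rpow_of_exponent_le hn1
      have h5 : e * m ≤ x / 2 := by
        rw [he, div_mul_eq_mul_div, div_le_div_iff₀ (by positivity) (by norm_num)]
        nlinarith only [hs1]
      linarith only [h5]
    calc Real.log n ^ m ≤ ((n : ℝ) ^ e / e) ^ m := pow_le_pow_left₀ hlog0 h3 _
      _ = (1 / e) ^ m * ((n : ℝ) ^ e) ^ m := by rw [← mul_pow]; congr 1; ring
      _ = (1 / e) ^ m * (n : ℝ) ^ (e * m) := by
        congr 1
        rw [← Real.rpow_natCast, ← Real.rpow_mul hn0.le]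
      _ ≤ (1 / e) ^ m * (n : ℝ) ^ (s.re - 1 - x / 2) :=
        mul_le_mul_of_nonneg_left h4 (by positivity)
  have h2 : (1 / e) ^ m * (2 / (x / 2)) =
      4 * (2 * ((m : ℝ) + 1)) ^ m * (1 / x) ^ (m + 1) := by
    have e1 : 1 / e = (2 * ((m : ℝ) + 1)) * (1 / x) := by
      rw [he]
      field_simp
    rw [e1, mul_pow, pow_succ (1 / x) m]
    field_simp
    norm_num
  rw [← h2]
  exact h1

theorem mu_fbound (A : ℕ) : ∃ c0 : ℕ, ∀ m : ℕ, ∃ B : ℕ, ∃ C : ℝ, 0 < C ∧ ∀ᶠ T : ℝ in atTop, ∀ (q : ℕ) [NeZero q]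
    (χ : DirichletCharacter ℂ q), (q : ℝ) ≤ Real.log T ^ A → ∀ s : ℂ, 1 < s.re → s.re ≤ 2 →
    Real.log T ^ B ≤ |s.im| → |s.im| ≤ T / 8 →
    ‖Lm (muc χ) m s‖ ≤ C * Real.log T ^ ((19 / 20 : ℝ) * m + c0) := by
  obtain ⟨Bz, hz⟩ := zero_free A
  obtain ⟨Bu, hu⟩ := l_upper A
  refine ⟨31, fun m => ?_⟩
  obtain ⟨C1, hC1, htriv⟩ := mu_triv m
  refine ⟨max Bz Bu + 1, C1 * 4 ^ (m + 1) + m.factorial * 8 * 8 ^ m, by positivity, ?_⟩
  filter_upwards [hz, hu, event] with T hzT huT hT q _ χ hq s hs1 hs2 him1 him2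
  obtain ⟨hl8, hT8⟩ := hT
  set l : ℝ := Real.log T with hl
  have hl0 : 0 < l := by linarith only [hl8]
  have hl1 : 1 ≤ l := by linarith only [hl8]
  set P : ℝ := l ^ (19 / 20 : ℝ) with hP
  have hP1 : 1 ≤ P := Real.one_le_rpow hl1 (by norm_num)
  have hP0 : 0 < P := by linarith only [hP1]
  have hPl : P ≤ l := by
    calc P ≤ l ^ (1 : ℝ) := Real.rpow_le_rpow_of_exponent_le hl1 (by norm_num)
      _ = l := Real.rpow_one l
  have hPinv : l ^ (-(19 / 20) : ℝ) = 1 / P := by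
    rw [Real.rpow_neg hl0.le, one_div]
  have h910 : 1 / P ≤ l ^ (-(9 / 10) : ℝ) := by
    rw [← hPinv]
    exact Real.rpow_le_rpow_of_exponent_le hl1 (by norm_num)
  have hR : (0 : ℝ) ≤ l ^ ((19 / 20 : ℝ) * m + (31 : ℕ)) := by positivity
  have hPm : P ^ m = l ^ ((19 / 20 : ℝ) * m) := by
    rw [hP, ← Real.rpow_natCast, ← Real.rpow_mul hl0.le]
  have hsplit : l ^ ((19 / 20 : ℝ) * m + (31 : ℕ)) = P ^ m * l ^ 31 := by
    rw [Real.rpow_add hl0, Real.rpow_natCast, hPm]
  set η : ℝ := 1 / (4 * P) with hη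
  have hη0 : 0 < η := by (clear * - hP0; positivity)
  have hη4 : η ≤ 1 / 4 := by
    rw [hη]
    exact one_div_le_one_div_of_le (by norm_num) (by linarith only [hP1])
  have hηP : η ≤ 1 / P := by
    rw [hη]
    exact one_div_le_one_div_of_le hP0 (by linarith only [hP1, hη0, hη4])
  have hηinv : 1 / η = 4 * P := by rw [hη, one_div_one_div]
  rcases le_or_gt (1 + η) s.re with hcase | hcase
  · refine (htriv q χ s hs1 hs2).trans ?_
    have h1 : 1 / (s.re - 1) ≤ 4 * P := by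
      rw [← hηinv]
      exact one_div_le_one_div_of_le hη0 (by linarith only [hcase])
    have h2 : (1 / (s.re - 1)) ^ (m + 1) ≤ (4 * P) ^ (m + 1) :=
      pow_le_pow_left₀ (by
        have : 0 < s.re - 1 := by linarith only [hs1]
        (clear * - this; positivity)) h1 _
    have h3 : P ^ (m + 1) ≤ l ^ ((19 / 20 : ℝ) * m + (31 : ℕ)) := by
      rw [hsplit, pow_succ]
      refine mul_le_mul_of_nonneg_left (hPl.trans ?_) (by (clear * - hP0; positivity))
      calc l = l ^ 1 := (pow_one l).symm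
        _ ≤ l ^ 31 := pow_le_pow_right₀ hl1 (by norm_num)
    calc C1 * (1 / (s.re - 1)) ^ (m + 1) ≤ C1 * (4 * P) ^ (m + 1) :=
          mul_le_mul_of_nonneg_left h2 hC1.le
      _ = C1 * 4 ^ (m + 1) * P ^ (m + 1) := by rw [mul_pow]; ring
      _ ≤ C1 * 4 ^ (m + 1) * l ^ ((19 / 20 : ℝ) * m + (31 : ℕ)) :=
          mul_le_mul_of_nonneg_left h3 (by (clear * - hC1; positivity))
      _ ≤ (C1 * 4 ^ (m + 1) + m.factorial * 8 * 8 ^ m) *
            l ^ ((19 / 20 : ℝ) * m + (31 : ℕ)) := by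
          rw [add_mul]
          have : 0 ≤ (m.factorial : ℝ) * 8 * 8 ^ m * l ^ ((19 / 20 : ℝ) * m + (31 : ℕ)) :=
            mul_nonneg (by (clear * -; positivity)) hR
          linarith only [this]
  · set z0 : ℂ := ⟨1 + η, s.im⟩ with hz0
    set M : ℝ := 5 * Real.log l with hM
    have hM0 : 0 < M := by
      have : 0 < Real.log l := Real.log_pos (by linarith only [hl8])
      linarith only [this, hM]
    have hexpM : Real.exp M = l ^ 5 := by
      have e1 : M = Real.log l * (5 : ℕ) := by rw [hM]; push_cast; ring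
      rw [e1, Real.exp_mul, Real.exp_log hl0, Real.rpow_natCast]
    have hexp6M : Real.exp (6 * M) = l ^ 30 := by
      have e1 : 6 * M = Real.log l * (30 : ℕ) := by rw [hM]; push_cast; ring
      rw [e1, Real.exp_mul, Real.exp_log hl0, Real.rpow_natCast]
    have hBpow : ∀ B' : ℕ, B' ≤ max Bz Bu → l ^ B' ≤ l ^ (max Bz Bu + 1) - 1 := by
      intro B' hB'
      have h1 : l ^ B' ≤ l ^ (max Bz Bu) := pow_le_pow_right₀ hl1 hB'
      have h2 : 1 ≤ l ^ (max Bz Bu) := one_le_pow₀ hl1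
      have h3 : l ^ (max Bz Bu + 1) = l ^ (max Bz Bu) * l := pow_succ _ _
      rw [h3]
      nlinarith only [hl8, h1, h2]
    have hball : ∀ z ∈ Metric.closedBall z0 (2 * η), 1 - η ≤ z.re ∧ z.re ≤ 2 ∧
        l ^ (max Bz Bu + 1) - 1 ≤ |z.im| ∧ |z.im| ≤ T / 4 := by
      intro z hz'
      rw [Metric.mem_closedBall, dist_eq_norm] at hz'
      have h1 := (Complex.abs_re_le_norm (z - z0)).trans hz'
      have h2 := (Complex.abs_im_le_norm (z - z0)).trans hz'
      rw [Complex.sub_re] at h1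
      rw [Complex.sub_im] at h2
      have e1 : z0.re = 1 + η := rfl
      have e2 : z0.im = s.im := rfl
      rw [e1] at h1
      rw [e2] at h2
      have h3 := abs_le.1 h1
      have h4 : |s.im| ≤ |z.im| + |z.im - s.im| := by
        have := abs_sub_abs_le_abs_sub s.im z.im
        rw [abs_sub_comm] at this
        linarith only [this]
      have h5 : |z.im| ≤ |s.im| + |z.im - s.im| := by
        have := abs_sub_abs_le_abs_sub z.im s.im
        linarith only [this]
      refine ⟨by linarith only [h3, h3.1], by linarith only [hs1, hη4, hcase, h3, h3.2], by linarith only [hs1, him1, hη4, hcase, h2, h4], by linarith only [hs1, him2, hT8, hη4, hcase, h2, h5]⟩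
    have hne1 : ∀ z ∈ Metric.closedBall z0 (2 * η), z ≠ 1 := by
      intro z hz' h1
      have h2 := (hball z hz').2.2.1
      rw [h1, Complex.one_im, abs_zero] at h2
      have h3 := hBpow 0 (Nat.zero_le _)
      rw [pow_zero] at h3
      linarith only [hs1, hη4, hcase, h2, h3]
    have han : AnalyticOnNhd ℂ χ.LFunction (Metric.closedBall z0 (2 * η)) := by
      have h1 : AnalyticOnNhd ℂ χ.LFunction {z : ℂ | z ≠ 1} := by
        refine DifferentiableOn.analyticOnNhd (fun z hz' => ?_) isOpen_ne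
        exact (DirichletCharacter.differentiableAt_LFunction χ z (Or.inl hz')).differentiableWithinAt
      exact h1.mono (fun z hz' => hne1 z hz')
    have hnz : ∀ z ∈ Metric.closedBall z0 (2 * η), χ.LFunction z ≠ 0 := by
      intro z hz'
      obtain ⟨h1, h2, h3, h4⟩ := hball z hz'
      refine hzT q χ hq z ?_ ?_ h4
      · rw [hPinv]
        linarith only [hηP, h1]
      · exact (hBpow Bz (le_max_left _ _)).trans h3
    have hlow : η / 2 ≤ ‖χ.LFunction z0‖ :=
      lower χ hη0 (by linarith only [hs1, hη4, hcase]) rfl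
    have hupp : ∀ z ∈ Metric.closedBall z0 (2 * η),
        ‖χ.LFunction z‖ ≤ Real.exp M * ‖χ.LFunction z0‖ := by
      intro z hz'
      obtain ⟨h1, h2, h3, h4⟩ := hball z hz'
      have h5 : ‖χ.LFunction z‖ ≤ l ^ 2 := by
        refine huT q χ hq z ?_ (by linarith only [hs1, hη4, hcase, h2]) ?_ (by linarith only [hs1, hT8, hη4, hcase, h4])
        · linarith only [h910, hηP, h1]
        · exact (hBpow Bu (le_max_right _ _)).trans h3
      have h6 : l ^ 2 ≤ Real.exp M * (η / 2) := by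
        rw [hexpM]
        have h8 : l ^ 5 * (η / 2) = l ^ 2 * (l ^ 3 / (8 * P)) := by
          rw [hη]
          field_simp
          norm_num
        rw [h8]
        have h9 : 1 ≤ l ^ 3 / (8 * P) := by
          rw [le_div_iff₀ (by linarith only [hP0])]
          have h10 : l ^ 3 = l * l * l := by ring
          have h11 : 8 * P ≤ l * l := mul_le_mul hl8 hPl hP0.le hl0.le
          have h12 : l * l ≤ l * l * l := le_mul_of_one_le_right (by (clear * - hl8; positivity)) hl1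
          linarith only [h10, h11, h12]
        nlinarith only [h9, sq_nonneg l]
      exact h5.trans (h6.trans (mul_le_mul_of_nonneg_left hlow (Real.exp_pos M).le))
    have hmem : s ∈ Metric.closedBall z0 η := by
      rw [Metric.mem_closedBall, dist_eq_norm]
      have h1 : s - z0 = ((s.re - (1 + η) : ℝ) : ℂ) := by
        apply Complex.ext
        · simp [hz0]
        · simp [hz0]
      rw [h1, Complex.norm_real, Real.norm_eq_abs, abs_le]
      constructor <;> linarith only [hs1, hcase]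
    have hmain := inv_key m χ.LFunction z0 η M hη0 hM0 han hnz hupp s hmem
    rw [iter χ m hs1, norm_mul, norm_pow, norm_neg, norm_one, one_pow, one_mul] at hmain
    refine hmain.trans ?_
    have hL0 : 0 < η / 2 := by (clear * - hη0; positivity)
    have h1 : Real.exp (6 * M) / ‖χ.LFunction z0‖ ≤ 8 * l ^ 31 := by
      calc Real.exp (6 * M) / ‖χ.LFunction z0‖ ≤ Real.exp (6 * M) / (η / 2) :=
            div_le_div_of_nonneg_left (Real.exp_pos _).le hL0 hlow
        _ = 8 * (l ^ 30 * P) := by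
            rw [hexp6M, hη]
            field_simp
            norm_num
        _ ≤ 8 * (l ^ 30 * l) := by
            have := mul_le_mul_of_nonneg_left hPl (show (0 : ℝ) ≤ l ^ 30 by (clear * - hl8; positivity))
            linarith only [this]
        _ = 8 * l ^ 31 := by ring
    have h2 : (η / 2) ^ m = (1 / (8 * P)) ^ m := by
      congr 1
      rw [hη]
      field_simp
      norm_num
    rw [h2, one_div, inv_pow, div_inv_eq_mul]
    calc (m.factorial : ℝ) * (Real.exp (6 * M) / ‖χ.LFunction z0‖) * (8 * P) ^ m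
        ≤ (m.factorial : ℝ) * (8 * l ^ 31) * (8 * P) ^ m := by
          apply mul_le_mul_of_nonneg_right _ (by (clear * - hP0; positivity))
          exact mul_le_mul_of_nonneg_left h1 (Nat.cast_nonneg _)
      _ = (m.factorial : ℝ) * 8 * 8 ^ m * l ^ ((19 / 20 : ℝ) * m + (31 : ℕ)) := by
          rw [hsplit, mul_pow]
          ring
      _ ≤ (C1 * 4 ^ (m + 1) + m.factorial * 8 * 8 ^ m) *
            l ^ ((19 / 20 : ℝ) * m + (31 : ℕ)) := by
          rw [add_mul]
          have : 0 ≤ C1 * 4 ^ (m + 1) * l ^ ((19 / 20 : ℝ) * m + (31 : ℕ)) :=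
            mul_nonneg (by (clear * - hC1; positivity)) hR
          linarith only [this]

end Pool.Agent.VM
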