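import Pool.Agent.Lib.VM.Defs
import Pool.Agent.Lib.VK.MeanVal

/-!
# Module MvtAP: mean value theorem with residue classes

Sketch (copy of `VK.MeanVal.weighted` and `VK.mean_value`, class by class). Fix `b < q`, `S_b = S.filter (n % q = b)`,
`Δ = T + 1`. On `[-T, T]` the weight `e * exp(-t^2/Δ^2)` is `≥ 1`, so
`∫_{-T}^{T} |∑_{S_b} f n^(-it)|^2 ≤ e ∑_{m,n ∈ S_b} f(m) conj f(n) ∫ exp(-t^2/Δ^2) (m/n)^(-it) dt`
`≤ e √π Δ ∑_{n ∈ S_b} |f n|^2 ∑_{m ≡ n (q), 1 ≤ m ≤ 32 M} exp(-Δ^2 (log m - log n)^2 / 4)`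
(by `2 |f m||f n| ≤ |f m|^2 + |f n|^2` and symmetry). Now `(log m - log n)^2 ≥ ((m-n)/(32M))^2`
(`VK` lemma `log_diff` in MeanVal), `m - n = k q`, so the inner sum is `≤ ∑_k exp(-c^2 k^2)` over all integers `k` with
`c = Δ q/(64 M)`, at most `1 + 4/c` (`gsum'`). Total `e √π (Δ + 256 M / q) ∑ |f|^2`; sum over `b` (the integral of the
finite sum is the sum of the integrals, everything is continuous).
-/

set_option autoImplicit false

open Finset Filter MeasureTheory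

namespace Pool.Agent.VM

open Pool.Agent.VK Pool.Agent.HLT

namespace MvtAPAux

open Pool.Agent.P4f18dfS Pool.Agent.P4f18dfS.MVAux Pool.Agent.VK.MeanValAux

/-- the Gaussian kernel on a residue class -/
noncomputable def gk (q : ℕ) (c : ℝ) (m n : ℕ) : ℝ :=
  if m % q = n % q then Real.exp (-(c ^ 2 * ((m : ℝ) - n) ^ 2)) else 0

theorem gk_nonneg (q : ℕ) (c : ℝ) (m n : ℕ) : 0 ≤ gk q c m n := by
  unfold gk
  split_ifs
  · exact (Real.exp_pos _).le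
  · exact le_rfl

theorem gk_symm (q : ℕ) (c : ℝ) (m n : ℕ) : gk q c m n = gk q c n m := by
  unfold gk
  by_cases h : m % q = n % q
  · rw [if_pos h, if_pos h.symm]
    congr 3
    ring
  · rw [if_neg h, if_neg fun h' => h h'.symm]

theorem gk_self (q : ℕ) (c : ℝ) (n : ℕ) : gk q c n n = 1 := by
  unfold gk
  simp

/-- one side -/
theorem gside {q : ℕ} (hq : 1 ≤ q) {c : ℝ} (hc : 0 < c) (N : ℕ) (s : Finset ℕ) (g : ℕ → ℕ)
    (hg : ∀ m ∈ s, g m * q ∈ Icc 1 N) (hinj : ∀ a ∈ s, ∀ b ∈ s, g a = g b → a = b) (F : ℕ → ℝ)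
    (hF : ∀ m ∈ s, F m = Real.exp (-(c ^ 2 * ((g m * q : ℕ) : ℝ) ^ 2))) :
    ∑ m ∈ s, F m ≤ 2 / (c * q) := by
  have hq0 : (0 : ℝ) < q := by exact_mod_cast hq
  have hcq : 0 < c * q := by positivity
  refine le_trans ?_ (gsum' hcq N)
  have e : ∑ m ∈ s, F m = ∑ k ∈ s.image g, Real.exp (-((c * q) ^ 2 * (k : ℝ) ^ 2)) := by
    rw [sum_image]
    · refine sum_congr rfl fun m hm => ?_
      rw [hF m hm]
      push_cast
      congr 2
      ring
    · intro a ha b hb hab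
      exact hinj a (mem_coe.1 ha) b (mem_coe.1 hb) hab
  rw [e]
  refine sum_le_sum_of_subset_of_nonneg ?_ fun k _ _ => (Real.exp_pos _).le
  intro k hk
  rw [mem_image] at hk
  obtain ⟨m, hm, rfl⟩ := hk
  have h1 := hg m hm
  rw [mem_Icc] at h1 ⊢
  constructor
  · rcases Nat.eq_zero_or_pos (g m) with h | h
    · rw [h, zero_mul] at h1
      omega
    · exact h
  · exact le_trans (Nat.le_mul_of_pos_right _ hq) h1.2

theorem gsum2_ap {q : ℕ} (hq : 1 ≤ q) {c : ℝ} (hc : 0 < c) (N n : ℕ) (hn : n ≤ N) :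
    ∑ m ∈ Icc 1 N, gk q c m n ≤ 1 + 4 / (c * q) := by
  classical
  have hsub : Icc 1 N ⊆ ((Icc 1 N).filter (fun m => m < n)) ∪ ({n} ∪ (Icc 1 N).filter (fun m => n < m)) := by
    intro m hm
    rw [mem_union, mem_union, mem_filter, mem_filter, mem_singleton]
    rcases lt_trichotomy m n with h | h | h
    · exact Or.inl ⟨hm, h⟩
    · exact Or.inr (Or.inl h)
    · exact Or.inr (Or.inr ⟨hm, h⟩)
  have hpos : ∀ m : ℕ, 0 ≤ gk q c m n := fun m => gk_nonneg q c m n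
  refine (sum_le_sum_of_subset_of_nonneg hsub fun m _ _ => hpos m).trans ?_
  have hU : ∀ (s t : Finset ℕ), ∑ m ∈ s ∪ t, gk q c m n ≤
      ∑ m ∈ s, gk q c m n + ∑ m ∈ t, gk q c m n := by
    intro s t
    rw [← sum_union_inter]
    exact le_add_of_nonneg_right (sum_nonneg fun m _ => hpos m)
  have hfil : ∀ s : Finset ℕ, ∑ m ∈ s, gk q c m n =
      ∑ m ∈ s.filter (fun m => m % q = n % q), gk q c m n := by
    intro s
    rw [sum_filter]
    refine sum_congr rfl fun m _ => ?_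
    unfold gk
    split_ifs <;> rfl
  have hdv : ∀ a b : ℕ, a ≤ b → a % q = b % q → (b - a) / q * q = b - a := by
    intro a b hab h
    exact Nat.div_mul_cancel ((Nat.modEq_iff_dvd' hab).1 h)
  have hA : ∑ m ∈ (Icc 1 N).filter (fun m => m < n), gk q c m n ≤ 2 / (c * q) := by
    rw [hfil]
    refine gside hq hc N _ (fun m => (n - m) / q) ?_ ?_ _ ?_
    · intro m hm
      rw [mem_filter, mem_filter, mem_Icc] at hm
      rw [hdv m n hm.1.2.le hm.2, mem_Icc]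
      omega
    · intro a ha b hb hab
      rw [mem_filter, mem_filter, mem_Icc] at ha hb
      have h1 := hdv a n ha.1.2.le ha.2
      have h2 := hdv b n hb.1.2.le hb.2
      rw [hab, h2] at h1
      omega
    · intro m hm
      rw [mem_filter, mem_filter, mem_Icc] at hm
      rw [hdv m n hm.1.2.le hm.2, Nat.cast_sub hm.1.2.le]
      unfold gk
      rw [if_pos hm.2]
      congr 3
      ring
  have hB : ∑ m ∈ (Icc 1 N).filter (fun m => n < m), gk q c m n ≤ 2 / (c * q) := by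
    rw [hfil]
    refine gside hq hc N _ (fun m => (m - n) / q) ?_ ?_ _ ?_
    · intro m hm
      rw [mem_filter, mem_filter, mem_Icc] at hm
      rw [hdv n m hm.1.2.le hm.2.symm, mem_Icc]
      omega
    · intro a ha b hb hab
      rw [mem_filter, mem_filter, mem_Icc] at ha hb
      have h1 := hdv n a ha.1.2.le ha.2.symm
      have h2 := hdv n b hb.1.2.le hb.2.symm
      rw [hab, h2] at h1
      omega
    · intro m hm
      rw [mem_filter, mem_filter, mem_Icc] at hm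
      rw [hdv n m hm.1.2.le hm.2.symm, Nat.cast_sub hm.1.2.le]
      unfold gk
      rw [if_pos hm.2]
  have hC : ∑ m ∈ ({n} : Finset ℕ), gk q c m n = 1 := by
    rw [sum_singleton, gk_self]
  have e4 : 1 + 4 / (c * q) = 2 / (c * q) + (1 + 2 / (c * q)) := by ring
  rw [e4]
  refine (hU _ _).trans (add_le_add hA ((hU _ _).trans (add_le_add hC.le hB)))

theorem weighted_ap {q b : ℕ} (hq : 1 ≤ q) {Δ : ℝ} (hΔ : 0 < Δ) (τ : ℝ) (a : ℕ → ℂ)
    (ha : ∀ n, n % q ≠ b → a n = 0) {N : ℕ} (hN : 1 ≤ N) :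
    ∫ t : ℝ, wt τ Δ t * ‖∑ n ∈ Icc 1 N, a n * nit n t‖ ^ 2 ≤
      Real.sqrt Real.pi * (Δ + 8 * (N / q)) * ∑ n ∈ Icc 1 N, ‖a n‖ ^ 2 := by
  have hN0 : (0 : ℝ) < N := by exact_mod_cast hN
  have hq0 : (0 : ℝ) < q := by exact_mod_cast hq
  have h1 : ((∫ t : ℝ, wt τ Δ t * ‖∑ n ∈ Icc 1 N, a n * nit n t‖ ^ 2 : ℝ) : ℂ) =
      ∫ t : ℝ, (wt τ Δ t : ℂ) * (dp (bb a) N t * (starRingEnd ℂ) (dp (bb a) N t)) := by
    rw [← integral_complex_ofReal]
    refine integral_congr_ae (Filter.Eventually.of_forall fun t => ?_)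
    simp only
    rw [dp_bb, Complex.mul_conj, Complex.normSq_eq_norm_sq]
    push_cast
    ring
  have h2 : ∫ t : ℝ, wt τ Δ t * ‖∑ n ∈ Icc 1 N, a n * nit n t‖ ^ 2 ≤
      ‖((∫ t : ℝ, wt τ Δ t * ‖∑ n ∈ Icc 1 N, a n * nit n t‖ ^ 2 : ℝ) : ℂ)‖ := by
    rw [Complex.norm_real]
    exact le_abs_self _
  refine h2.trans ?_
  rw [h1, expand hΔ]
  set c : ℝ := Δ / (2 * N) with hc
  have hc0 : 0 < c := by positivity
  have h3 : ∀ n ∈ Icc 1 N, ∀ m ∈ Icc 1 N,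
      ‖(bb a m * (starRingEnd ℂ) (bb a n) * ((rt m * rt n : ℝ) : ℂ)) *
        ∫ t : ℝ, (wt τ Δ t : ℂ) *
          Complex.exp (-(Complex.I * ((Real.log m - Real.log n : ℝ) : ℂ) * t))‖ ≤
      Real.sqrt Real.pi * Δ * ((‖a m‖ ^ 2 + ‖a n‖ ^ 2) / 2 * gk q c m n) := by
    intro n hn m hm
    rw [mem_Icc] at hn hm
    rw [norm_mul, norm_gauss hΔ, norm_mul, norm_mul, RCLike.norm_conj, Complex.norm_real,
      Real.norm_eq_abs, abs_of_pos (mul_pos (rt_pos m) (rt_pos n))]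
    have e1 : ‖bb a m‖ * ‖bb a n‖ * (rt m * rt n) = ‖a m‖ * ‖a n‖ := by
      rw [← bb_rt a hm.1, ← bb_rt a hn.1]
      ring
    rw [e1]
    by_cases hmn : m % q = b ∧ n % q = b
    · have hg : gk q c m n = Real.exp (-(c ^ 2 * ((m : ℝ) - n) ^ 2)) := by
        unfold gk
        rw [if_pos (hmn.1.trans hmn.2.symm)]
      rw [hg]
      have h4 : ‖a m‖ * ‖a n‖ ≤ (‖a m‖ ^ 2 + ‖a n‖ ^ 2) / 2 := by
        nlinarith only [sq_nonneg (‖a m‖ - ‖a n‖)]
      have h5 : Real.exp (-(Δ ^ 2 * (Real.log m - Real.log n) ^ 2 / 4)) ≤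
          Real.exp (-(c ^ 2 * ((m : ℝ) - n) ^ 2)) := by
        refine Real.exp_le_exp.2 ?_
        have h6 := log_diff hm.1 hn.1 hm.2 hn.2
        have e2 : c ^ 2 * ((m : ℝ) - n) ^ 2 = Δ ^ 2 * (((m : ℝ) - n) / N) ^ 2 / 4 := by
          rw [hc]
          field_simp
          ring
        rw [e2]
        have : Δ ^ 2 * (((m : ℝ) - n) / N) ^ 2 ≤ Δ ^ 2 * (Real.log m - Real.log n) ^ 2 :=
          mul_le_mul_of_nonneg_left h6 (by positivity)
        linarith only [this]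
      calc ‖a m‖ * ‖a n‖ * (Real.sqrt Real.pi * Δ *
            Real.exp (-(Δ ^ 2 * (Real.log m - Real.log n) ^ 2 / 4)))
          ≤ (‖a m‖ ^ 2 + ‖a n‖ ^ 2) / 2 * (Real.sqrt Real.pi * Δ *
            Real.exp (-(c ^ 2 * ((m : ℝ) - n) ^ 2))) :=
            mul_le_mul h4 (mul_le_mul_of_nonneg_left h5 (by positivity)) (by positivity)
              (by positivity)
        _ = _ := by ring
    · have h0 : ‖a m‖ * ‖a n‖ = 0 := by
        by_cases h : m % q = b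
        · have : n % q ≠ b := fun h' => hmn ⟨h, h'⟩
          rw [ha n this, norm_zero, mul_zero]
        · rw [ha m h, norm_zero, zero_mul]
      rw [h0, zero_mul]
      have := gk_nonneg q c m n
      positivity
  refine (norm_sum_le _ _).trans ((sum_le_sum fun n hn => (norm_sum_le _ _).trans
    (sum_le_sum fun m hm => h3 n hn m hm)).trans ?_)
  have hG : ∀ n ∈ Icc 1 N, ∑ m ∈ Icc 1 N, gk q c m n ≤ 1 + 4 / (c * q) :=
    fun n hn => gsum2_ap hq hc0 N n (mem_Icc.1 hn).2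
  have e3 : ∑ n ∈ Icc 1 N, ∑ m ∈ Icc 1 N, Real.sqrt Real.pi * Δ * ((‖a m‖ ^ 2 + ‖a n‖ ^ 2) / 2 *
        gk q c m n) =
      Real.sqrt Real.pi * Δ * ∑ n ∈ Icc 1 N, ‖a n‖ ^ 2 *
        ∑ m ∈ Icc 1 N, gk q c m n := by
    have e4 : ∑ n ∈ Icc 1 N, ∑ m ∈ Icc 1 N, ‖a m‖ ^ 2 * gk q c m n =
        ∑ n ∈ Icc 1 N, ∑ m ∈ Icc 1 N, ‖a n‖ ^ 2 * gk q c m n := by
      rw [sum_comm]
      refine sum_congr rfl fun n _ => sum_congr rfl fun m _ => ?_
      rw [gk_symm]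
    have e5 : ∑ n ∈ Icc 1 N, ∑ m ∈ Icc 1 N, Real.sqrt Real.pi * Δ *
        ((‖a m‖ ^ 2 + ‖a n‖ ^ 2) / 2 * gk q c m n) =
        Real.sqrt Real.pi * Δ / 2 *
          (∑ n ∈ Icc 1 N, ∑ m ∈ Icc 1 N, ‖a m‖ ^ 2 * gk q c m n +
          ∑ n ∈ Icc 1 N, ∑ m ∈ Icc 1 N, ‖a n‖ ^ 2 * gk q c m n) := by
      rw [← sum_add_distrib, mul_sum]
      refine sum_congr rfl fun n _ => ?_
      rw [← sum_add_distrib, mul_sum]
      refine sum_congr rfl fun m _ => ?_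
      ring
    rw [e5, e4]
    have e6 : ∑ n ∈ Icc 1 N, ∑ m ∈ Icc 1 N, ‖a n‖ ^ 2 * gk q c m n =
        ∑ n ∈ Icc 1 N, ‖a n‖ ^ 2 * ∑ m ∈ Icc 1 N, gk q c m n :=
      sum_congr rfl fun n _ => (mul_sum _ _ _).symm
    rw [e6]
    ring
  rw [e3]
  have h7 : ∑ n ∈ Icc 1 N, ‖a n‖ ^ 2 * ∑ m ∈ Icc 1 N, gk q c m n ≤
      (1 + 4 / (c * q)) * ∑ n ∈ Icc 1 N, ‖a n‖ ^ 2 := by
    rw [mul_sum]
    refine sum_le_sum fun n hn => ?_
    rw [mul_comm (1 + 4 / (c * q))]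
    exact mul_le_mul_of_nonneg_left (hG n hn) (by positivity)
  have h8 := mul_le_mul_of_nonneg_left h7 (show 0 ≤ Real.sqrt Real.pi * Δ by positivity)
  refine h8.trans (le_of_eq ?_)
  rw [hc]
  field_simp
  ring

theorem one_class {q b : ℕ} (hq : 1 ≤ q) (a : ℕ → ℂ)
    (ha : ∀ n, n % q ≠ b → a n = 0) {N : ℕ} (hN : 1 ≤ N) {T : ℝ} (hT : 0 ≤ T) :
    ∫ t in (-T)..T, ‖∑ n ∈ Icc 1 N, a n * nit n t‖ ^ 2 ≤
      64 * (1 + T + N / q) * ∑ n ∈ Icc 1 N, ‖a n‖ ^ 2 := by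
  have hN0 : (1 : ℝ) ≤ N := by exact_mod_cast hN
  have hq0 : (0 : ℝ) < q := by exact_mod_cast hq
  set Δ : ℝ := 2 * T + 1 with hΔ
  have hΔ0 : 0 < Δ := by linarith
  have hS : ∀ t, ∑ n ∈ Icc 1 N, a n * nit n t = dp (bb a) N t := fun t => (dp_bb a N t).symm
  have hcont : Continuous fun t : ℝ => ‖∑ n ∈ Icc 1 N, a n * nit n t‖ ^ 2 := by
    simp_rw [hS]
    exact (dp_continuous (bb a) N).norm.pow 2
  have hint : Integrable fun t : ℝ => wt 0 Δ t * ‖∑ n ∈ Icc 1 N, a n * nit n t‖ ^ 2 := by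
    have h1 := (mv_integrable hΔ0 0 (bb a) (bb a) N N).re
    refine h1.congr (Filter.Eventually.of_forall fun t => ?_)
    simp only
    rw [hS, Complex.mul_conj, Complex.normSq_eq_norm_sq, ← Complex.ofReal_mul]
    exact Complex.ofReal_re _
  have hw : ∀ t ∈ Set.Icc (-T) T, ‖∑ n ∈ Icc 1 N, a n * nit n t‖ ^ 2 ≤
      2 * (wt 0 Δ t * ‖∑ n ∈ Icc 1 N, a n * nit n t‖ ^ 2) := by
    intro t ht
    have h1 : 1 / 2 ≤ wt 0 Δ t := by
      unfold wt
      have h2 : ((t - 0) / Δ) ^ 2 ≤ 1 / 4 := by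
        rw [div_pow, div_le_iff₀ (by positivity), sub_zero]
        have h3 : |t| ≤ T := abs_le.2 ht
        have h4 : t ^ 2 ≤ T ^ 2 := by
          rw [← sq_abs t]
          exact pow_le_pow_left₀ (abs_nonneg _) h3 2
        nlinarith only [hT, h4]
      have h5 := Real.add_one_le_exp (-((t - 0) / Δ) ^ 2)
      linarith only [h2, h5]
    have h2 : 0 ≤ ‖∑ n ∈ Icc 1 N, a n * nit n t‖ ^ 2 := by positivity
    nlinarith only [h1]
  have h1 : ∫ t in (-T)..T, ‖∑ n ∈ Icc 1 N, a n * nit n t‖ ^ 2 ≤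
      ∫ t in (-T)..T, 2 * (wt 0 Δ t * ‖∑ n ∈ Icc 1 N, a n * nit n t‖ ^ 2) :=
    intervalIntegral.integral_mono_on (by linarith only [hT]) (hcont.intervalIntegrable _ _)
      ((hint.const_mul 2).intervalIntegrable) hw
  refine h1.trans ?_
  rw [intervalIntegral.integral_const_mul, intervalIntegral.integral_of_le (by linarith only [hT])]
  have h2 : ∫ t in Set.Ioc (-T) T, wt 0 Δ t * ‖∑ n ∈ Icc 1 N, a n * nit n t‖ ^ 2 ≤
      ∫ t : ℝ, wt 0 Δ t * ‖∑ n ∈ Icc 1 N, a n * nit n t‖ ^ 2 :=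
    setIntegral_le_integral hint (Filter.Eventually.of_forall fun t => by
      have := wt_pos 0 Δ t
      positivity)
  have h3 := weighted_ap hq hΔ0 0 a ha hN
  have hpi : Real.sqrt Real.pi ≤ 2 := by
    rw [Real.sqrt_le_left (by norm_num)]
    have := Real.pi_lt_four
    linarith only [this]
  have hsum : 0 ≤ ∑ n ∈ Icc 1 N, ‖a n‖ ^ 2 := sum_nonneg fun _ _ => by positivity
  have hNq : 0 ≤ (N : ℝ) / q := by positivity
  have h4 : Real.sqrt Real.pi * (Δ + 8 * (N / q)) * ∑ n ∈ Icc 1 N, ‖a n‖ ^ 2 ≤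
      2 * (Δ + 8 * (N / q)) * ∑ n ∈ Icc 1 N, ‖a n‖ ^ 2 := by
    refine mul_le_mul_of_nonneg_right (mul_le_mul_of_nonneg_right hpi ?_) hsum
    linarith only [hT, hNq]
  have h5 : 2 * (2 * (Δ + 8 * (N / q)) * ∑ n ∈ Icc 1 N, ‖a n‖ ^ 2) ≤
      64 * (1 + T + N / q) * ∑ n ∈ Icc 1 N, ‖a n‖ ^ 2 := by
    have h6 : 4 * (Δ + 8 * (N / q)) ≤ 64 * (1 + T + N / q) := by
      rw [hΔ]
      linarith only [hT, hNq]
    have := mul_le_mul_of_nonneg_right h6 hsum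
    linarith only [this]
  linarith only [h2, h3, h4, h5]

end MvtAPAux

theorem mvt_ap : ∃ C : ℝ, 1 ≤ C ∧ ∀ (q M : ℕ) (S : Finset ℕ) (f : ℕ → ℂ) (T : ℝ), 1 ≤ q → 1 ≤ M →
    (∀ n ∈ S, 1 ≤ n ∧ n ≤ 32 * M) → 0 ≤ T →
    ∫ t in (-T)..T, UU q S f t ≤ C * (1 + T + M / q) * ∑ n ∈ S, ‖f n‖ ^ 2 := by
  classical
  refine ⟨2048, by norm_num, ?_⟩
  intro q M S f T hq hM hS hT
  have hq0 : (0 : ℝ) < q := by exact_mod_cast hq
  set N : ℕ := 32 * M with hN
  let a : ℕ → ℕ → ℂ := fun b n => if n ∈ S ∧ n % q = b then f n else 0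
  have hsum : ∀ (b : ℕ) (t : ℝ), ∑ n ∈ S.filter (fun n => n % q = b), f n * nit n t =
      ∑ n ∈ Icc 1 N, a b n * nit n t := by
    intro b t
    have h1 : S.filter (fun n => n % q = b) = (Icc 1 N).filter (fun n => n ∈ S ∧ n % q = b) := by
      ext n
      simp only [mem_filter, mem_Icc]
      constructor
      · intro h
        exact ⟨hS n h.1, h⟩
      · intro h
        exact h.2
    rw [h1, sum_filter]
    refine sum_congr rfl fun n _ => ?_
    simp only [a]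
    split_ifs
    · rfl
    · rw [zero_mul]
  have hsq : ∀ b : ℕ, ∑ n ∈ Icc 1 N, ‖a b n‖ ^ 2 =
      ∑ n ∈ S.filter (fun n => n % q = b), ‖f n‖ ^ 2 := by
    intro b
    have h1 : S.filter (fun n => n % q = b) = (Icc 1 N).filter (fun n => n ∈ S ∧ n % q = b) := by
      ext n
      simp only [mem_filter, mem_Icc]
      constructor
      · intro h
        exact ⟨hS n h.1, h⟩
      · intro h
        exact h.2
    rw [h1, sum_filter]
    refine sum_congr rfl fun n _ => ?_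
    simp only [a]
    split_ifs
    · rfl
    · rw [norm_zero]
      norm_num
  have hcl : ∀ b : ℕ, ∫ t in (-T)..T, ‖∑ n ∈ S.filter (fun n => n % q = b), f n * nit n t‖ ^ 2 ≤
      64 * (1 + T + N / q) * ∑ n ∈ S.filter (fun n => n % q = b), ‖f n‖ ^ 2 := by
    intro b
    simp_rw [hsum b]
    rw [← hsq b]
    refine MvtAPAux.one_class (b := b) hq (a b) ?_ (by omega) hT
    intro n hn
    simp only [a]
    rw [if_neg fun h => hn h.2]
  have hcont : ∀ b : ℕ, Continuous fun t : ℝ =>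
      ‖∑ n ∈ S.filter (fun n => n % q = b), f n * nit n t‖ ^ 2 := by
    intro b
    simp_rw [hsum b, ← MeanValAux.dp_bb]
    exact (Pool.Agent.P4f18dfS.dp_continuous _ N).norm.pow 2
  have hI : ∫ t in (-T)..T, UU q S f t =
      ∑ b ∈ range q, ∫ t in (-T)..T,
        ‖∑ n ∈ S.filter (fun n => n % q = b), f n * nit n t‖ ^ 2 := by
    unfold UU
    exact intervalIntegral.integral_finsetSum fun b _ => (hcont b).intervalIntegrable _ _
  rw [hI]
  have hfib : ∑ b ∈ range q, ∑ n ∈ S.filter (fun n => n % q = b), ‖f n‖ ^ 2 =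
      ∑ n ∈ S, ‖f n‖ ^ 2 :=
    sum_fiberwise_of_maps_to (fun n _ => mem_range.2 (Nat.mod_lt _ hq)) _
  have hpos : 0 ≤ ∑ n ∈ S, ‖f n‖ ^ 2 := sum_nonneg fun _ _ => by positivity
  calc ∑ b ∈ range q, ∫ t in (-T)..T, ‖∑ n ∈ S.filter (fun n => n % q = b), f n * nit n t‖ ^ 2
      ≤ ∑ b ∈ range q, 64 * (1 + T + N / q) *
          ∑ n ∈ S.filter (fun n => n % q = b), ‖f n‖ ^ 2 := sum_le_sum fun b _ => hcl b
    _ = 64 * (1 + T + N / q) * ∑ n ∈ S, ‖f n‖ ^ 2 := by rw [← mul_sum, hfib]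
    _ ≤ 2048 * (1 + T + M / q) * ∑ n ∈ S, ‖f n‖ ^ 2 := by
        refine mul_le_mul_of_nonneg_right ?_ hpos
        have h1 : (N : ℝ) / q = 32 * (M / q) := by
          rw [hN]
          push_cast
          ring
        have h2 : 0 ≤ (M : ℝ) / q := by positivity
        rw [h1]
        linarith only [hT]

end Pool.Agent.VM
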