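import Pool.Agent.Lib.VM.TOneRed
import Pool.Agent.Lib.VL.TypeOneWin

/-!
# Module TOneLarge: Type I class, large modulus

`ρ = min (min δ κ0) (min e1 (1/20)) / 8`, `s = ρ/20`, `Δ = ⌈X^(1-ρ)⌉`, `E = ⌊X^ρ⌋` (`≥ 1`), `F = b * ind q N1 N2`. For `u ∈ [X, 2X]` let
`U = Δ (u/Δ)` (natural division), so `U ≤ u < U + Δ`, `X ≤ 2U`; windows: `n ∈ (u, u+h] ⊆ (U, U + 2Δ]`. `t1_red` (with `K = X^s`,
`M = ⌈2 X E / N1⌉ + 1`, `U ≤ 2X`): `|F n - ∑_{m ∣ n, m ≤ M} cj m| ≤ X^s er n`. So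
`∑_u |∑_{(u,u+h]} F ex|² ≤ 2 ∑_u |∑_{(u,u+h]} (∑_{m ∣ n} cj m) ex|² + 2 X^(2s) h² ∑_{X < n ≤ 4X} er n²` (Cauchy in the window, each `n` lies in
at most `h` windows), and `t1_err` (`ν = s`): `∑ er² ≤ X^s (Δ + X/E) ≤ 3 X^(1+s-ρ)`.
Main part: the values of `U` are at most `2 X^ρ + 2`; for each of them bound the sum over the block by the sum over all `u ≤ 2X` of
`VL.type_one_win` (`x = 2X`, `R = h`, `α = a/q` exactly, `K' = X^s * τ ≤ X^(2s)`: `cj_bound`; put `cj = 0` outside `[1, M]`):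
`≤ C X^(4s) (1+log M)^4 (2X (h²/q² + q² + h + 1) + M² h)`; `q ≥ X^κ0`, `q ≤ h X^(-e1)`, `h ≥ X^(1/10)`,
`M² h ≤ 16 X^2 X^(2ρ) h / N1² ≤ 16 X^(1+2ρ-2δ) h²` as `N1² ≥ (X/h) X^(2δ)`. Times `3 X^ρ` everything is `≤ X h² X^(-s)/8`.
If `N1 > 4X` then `F = 0` on the windows (or the same argument works).
-/

set_option autoImplicit false

open Finset Filter

namespace Pool.Agent.VM

open Pool.Agent.VK Pool.Agent.HLT

namespace TOneLargeAux

lemma shift_cover (X h : ℕ) (hh : h ≤ 2 * X) (g : ℕ → ℝ) (hg : ∀ n, 0 ≤ g n) :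
    ∑ u ∈ Icc X (2 * X), ∑ n ∈ Ioc u (u + h), g n ≤ h * ∑ n ∈ Icc 1 (4 * X), g n := by
  have h1 : ∀ u ∈ Icc X (2 * X), ∑ n ∈ Ioc u (u + h), g n = ∑ i ∈ range h, g (u + (i + 1)) := by
    intro u _
    rw [← Finset.sum_image (f := g) (g := fun i => u + (i + 1)) (s := range h)]
    · refine Finset.sum_congr ?_ fun _ _ => rfl
      ext n
      simp only [Finset.mem_Ioc, Finset.mem_image, Finset.mem_range]
      constructor
      · rintro ⟨ha, hb⟩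
        exact ⟨n - u - 1, by omega, by omega⟩
      · rintro ⟨i, hi, rfl⟩
        omega
    · intro i _ j _ hij
      simp only at hij
      omega
  rw [Finset.sum_congr rfl h1, Finset.sum_comm]
  have h2 : ∀ i ∈ range h, ∑ u ∈ Icc X (2 * X), g (u + (i + 1)) ≤ ∑ n ∈ Icc 1 (4 * X), g n := by
    intro i hi
    rw [Finset.mem_range] at hi
    rw [← Finset.sum_image (f := g) (g := fun u => u + (i + 1)) (s := Icc X (2 * X))]
    · refine Finset.sum_le_sum_of_subset_of_nonneg ?_ fun n _ _ => hg n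
      intro n hn
      simp only [Finset.mem_image, Finset.mem_Icc] at hn ⊢
      obtain ⟨u, hu, rfl⟩ := hn
      omega
    · intro u _ v _ huv
      simp only at huv
      omega
  refine (Finset.sum_le_sum h2).trans ?_
  rw [Finset.sum_const, Finset.card_range, nsmul_eq_mul]

lemma t1_det (X Δ q h N1 N2 E M : ℕ) (b : ArithmeticFunction ℂ) (K θ : ℝ) (hK : 0 ≤ K)
    (hb : ∀ m, ‖b m‖ ≤ K) (hq : 1 ≤ q) (hN1 : 1 ≤ N1) (hN : N1 ≤ N2) (hΔ1 : 1 ≤ Δ)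
    (hΔ : 8 * Δ ≤ X) (hh : h ≤ Δ) (hM : E * (2 * X) ≤ M * N1) :
    ∑ u ∈ Icc X (2 * X), ‖∑ n ∈ Ioc u (u + h), (b * ind q N1 N2) n * ex (n * θ)‖ ^ 2 ≤
      2 * (∑ j ∈ range (2 * X / Δ + 1), ∑ u ∈ range (2 * X + 1), ‖∑ n ∈ Ioc u (u + h),
        (∑ m ∈ (Icc 1 M).filter (fun m => m ∣ n), cj q N1 N2 E (Δ * j) b m) * ex (n * θ)‖ ^ 2) +
      2 * K ^ 2 * h ^ 2 * ∑ n ∈ Icc 1 (4 * X), er X Δ q N1 N2 E n ^ 2 := by
  set G : ℕ → ℕ → ℂ := fun j u => ∑ n ∈ Ioc u (u + h),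
        (∑ m ∈ (Icc 1 M).filter (fun m => m ∣ n), cj q N1 N2 E (Δ * j) b m) * ex (n * θ) with hG
  have hpt : ∀ u ∈ Icc X (2 * X),
      ‖∑ n ∈ Ioc u (u + h), (b * ind q N1 N2) n * ex (n * θ)‖ ^ 2 ≤
      2 * ‖G (u / Δ) u‖ ^ 2 + 2 * K ^ 2 * h * ∑ n ∈ Ioc u (u + h), er X Δ q N1 N2 E n ^ 2 := by
    intro u hu
    rw [Finset.mem_Icc] at hu
    have hU1 : Δ * (u / Δ) ≤ u := Nat.mul_div_le u Δ
    have hU2 : u < Δ * (u / Δ) + Δ := by
      have h1 := Nat.div_add_mod u Δ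
      have h2 := Nat.mod_lt u (by omega : 0 < Δ)
      omega
    have hdiff : (∑ n ∈ Ioc u (u + h), (b * ind q N1 N2) n * ex (n * θ)) - G (u / Δ) u =
        ∑ n ∈ Ioc u (u + h), ((b * ind q N1 N2) n -
          ∑ m ∈ (Icc 1 M).filter (fun m => m ∣ n), cj q N1 N2 E (Δ * (u / Δ)) b m) * ex (n * θ) := by
      rw [hG, ← Finset.sum_sub_distrib]
      exact Finset.sum_congr rfl fun n _ => by ring
    have hD : ‖(∑ n ∈ Ioc u (u + h), (b * ind q N1 N2) n * ex (n * θ)) - G (u / Δ) u‖ ≤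
        ∑ n ∈ Ioc u (u + h), K * er X Δ q N1 N2 E n := by
      rw [hdiff]
      refine (norm_sum_le _ _).trans (Finset.sum_le_sum fun n hn => ?_)
      rw [Finset.mem_Ioc] at hn
      rw [norm_mul, norm_ex, mul_one]
      refine t1_red X Δ q N1 N2 E (Δ * (u / Δ)) M n b K hK hb hq hN1 hN (by omega) hΔ (by omega)
        (by omega) ?_
      refine le_trans ?_ hM
      exact Nat.mul_le_mul_left E (by omega)
    set A := ∑ n ∈ Ioc u (u + h), (b * ind q N1 N2) n * ex (n * θ) with hA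
    have h3 : ‖A‖ ≤ ‖G (u / Δ) u‖ + ‖A - G (u / Δ) u‖ := by
      calc ‖A‖ = ‖G (u / Δ) u + (A - G (u / Δ) u)‖ := by rw [add_sub_cancel]
        _ ≤ _ := norm_add_le _ _
    have h4 : ‖A‖ ^ 2 ≤ (‖G (u / Δ) u‖ + ‖A - G (u / Δ) u‖) ^ 2 :=
      pow_le_pow_left₀ (norm_nonneg _) h3 2
    have h5 : ‖A - G (u / Δ) u‖ ^ 2 ≤ (∑ n ∈ Ioc u (u + h), K * er X Δ q N1 N2 E n) ^ 2 :=
      pow_le_pow_left₀ (norm_nonneg _) hD 2
    have h6 : (∑ n ∈ Ioc u (u + h), K * er X Δ q N1 N2 E n) ^ 2 ≤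
        K ^ 2 * h * ∑ n ∈ Ioc u (u + h), er X Δ q N1 N2 E n ^ 2 := by
      rw [← Finset.mul_sum, mul_pow, mul_assoc]
      apply mul_le_mul_of_nonneg_left _ (sq_nonneg _)
      have h7 := sq_sum_le_card_mul_sum_sq (s := Ioc u (u + h)) (f := fun n => er X Δ q N1 N2 E n)
      rw [Nat.card_Ioc, Nat.add_sub_cancel_left] at h7
      exact h7
    nlinarith only [h4, h5, h6, sq_nonneg (‖G (u / Δ) u‖ - ‖A - G (u / Δ) u‖)]
  refine (Finset.sum_le_sum hpt).trans ?_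
  rw [Finset.sum_add_distrib, ← Finset.mul_sum, ← Finset.mul_sum]
  apply add_le_add
  · apply mul_le_mul_of_nonneg_left _ (by norm_num)
    rw [Finset.sum_comm]
    refine (Finset.sum_le_sum (g := fun u => ∑ j ∈ range (2 * X / Δ + 1), ‖G j u‖ ^ 2)
      fun u hu => ?_).trans ?_
    · refine Finset.single_le_sum (f := fun j => ‖G j u‖ ^ 2) (fun j _ => sq_nonneg _) ?_
      rw [Finset.mem_Icc] at hu
      rw [Finset.mem_range]
      exact Nat.lt_succ_of_le (Nat.div_le_div_right hu.2)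
    · refine Finset.sum_le_sum_of_subset_of_nonneg ?_ fun u _ _ =>
        Finset.sum_nonneg fun j _ => sq_nonneg _
      intro u hu
      rw [Finset.mem_Icc] at hu
      rw [Finset.mem_range]
      omega
  · have h8 := shift_cover X h (by omega) (fun n => er X Δ q N1 N2 E n ^ 2)
      (fun n => sq_nonneg _)
    have h9 : (0:ℝ) ≤ 2 * K ^ 2 * h := by positivity
    calc 2 * K ^ 2 * h * ∑ u ∈ Icc X (2 * X), ∑ n ∈ Ioc u (u + h), er X Δ q N1 N2 E n ^ 2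
        ≤ 2 * K ^ 2 * h * (h * ∑ n ∈ Icc 1 (4 * X), er X Δ q N1 N2 E n ^ 2) :=
          mul_le_mul_of_nonneg_left h8 h9
      _ = _ := by ring

/-- the main part -/
lemma t1_main (X Δ q h N1 N2 E M : ℕ) (a : ℤ) (b : ArithmeticFunction ℂ) (K K' C : ℝ)
    (hCw : ∀ (M x H q R : ℕ) (a0 : ℤ) (α : ℝ) (c : ℕ → ℂ) (K : ℝ), 1 ≤ M → 1 ≤ H → H ≤ x →
      1 ≤ q → 1 ≤ R → IsCoprime a0 (q : ℤ) → |α - a0 / q| ≤ 1 / ((q : ℝ) * R) → 0 ≤ K →
      (∀ m, ‖c m‖ ≤ K) →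
      ∑ u ∈ range (x + 1), ‖∑ n ∈ Ioc u (u + H),
        (∑ m ∈ (Icc 1 M).filter (fun m => m ∣ n), c m) * ex (n * α)‖ ^ 2 ≤
      C * K ^ 2 * (1 + Real.log M) ^ 4 *
        (x * ((H : ℝ) ^ 2 / q ^ 2 + q ^ 2 + H + (H : ℝ) ^ 2 / R ^ 2) + (M : ℝ) ^ 2 * H))
    (hK : 0 ≤ K) (hb : ∀ m, ‖b m‖ ≤ K) (hM1 : 1 ≤ M) (hh1 : 1 ≤ h) (hhX : h ≤ 2 * X)
    (hq : 1 ≤ q) (ha : IsCoprime a (q : ℤ)) (hK' : 0 ≤ K')
    (hτ : ∀ m : ℕ, 1 ≤ m → m ≤ M → K * (m.divisors.card : ℝ) ≤ K') :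
    ∑ j ∈ range (2 * X / Δ + 1), ∑ u ∈ range (2 * X + 1), ‖∑ n ∈ Ioc u (u + h),
        (∑ m ∈ (Icc 1 M).filter (fun m => m ∣ n), cj q N1 N2 E (Δ * j) b m) *
          ex (n * ((a : ℝ) / q))‖ ^ 2 ≤
      ((2 * X / Δ : ℕ) + 1) * (C * K' ^ 2 * (1 + Real.log M) ^ 4 *
        ((2 * X : ℕ) * ((h : ℝ) ^ 2 / q ^ 2 + q ^ 2 + h + 1) + (M : ℝ) ^ 2 * h)) := by
  have h0 : ∀ j ∈ range (2 * X / Δ + 1), ∑ u ∈ range (2 * X + 1), ‖∑ n ∈ Ioc u (u + h),
        (∑ m ∈ (Icc 1 M).filter (fun m => m ∣ n), cj q N1 N2 E (Δ * j) b m) *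
          ex (n * ((a : ℝ) / q))‖ ^ 2 ≤
      C * K' ^ 2 * (1 + Real.log M) ^ 4 *
        ((2 * X : ℕ) * ((h : ℝ) ^ 2 / q ^ 2 + q ^ 2 + h + 1) + (M : ℝ) ^ 2 * h) := by
    intro j _
    have h1 := hCw M (2 * X) h q h a ((a : ℝ) / q)
      (fun m => if m ∈ Icc 1 M then cj q N1 N2 E (Δ * j) b m else 0) K' hM1 hh1 hhX hq hh1 ha
      (by rw [sub_self, abs_zero]; positivity) hK' (by
        intro m
        split_ifs with hm
        · rw [Finset.mem_Icc] at hm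
          exact (cj_bound q N1 N2 E (Δ * j) b K hK hb m hm.1).trans (hτ m hm.1 hm.2)
        · rw [norm_zero]; exact hK')
    have h2 : (h : ℝ) ^ 2 / (h : ℝ) ^ 2 = 1 := by
      have : (h : ℝ) ≠ 0 := by
        have : h ≠ 0 := by omega
        exact_mod_cast this
      field_simp
    rw [h2] at h1
    refine le_trans (le_of_eq ?_) h1
    refine Finset.sum_congr rfl fun u _ => ?_
    congr 2
    refine Finset.sum_congr rfl fun n _ => ?_
    congr 1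
    refine Finset.sum_congr rfl fun m hm => ?_
    rw [Finset.mem_filter] at hm
    rw [if_pos hm.1]
  refine (Finset.sum_le_sum h0).trans (le_of_eq ?_)
  rw [Finset.sum_const, Finset.card_range, nsmul_eq_mul]
  push_cast
  ring

lemma alg1 (z h X A : ℝ) (hz : z ≠ 0) (hA : A ≠ 0) :
    2 * z ^ 2 * h ^ 2 * (z * (4 * (X / A))) = X * h ^ 2 / z * (8 * z ^ 4 / A) := by
  field_simp
  ring

lemma alg2 (z h X A C W : ℝ) (hz : z ≠ 0) (hW : W ≠ 0) :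
    (3 * A) * (C * (z ^ 2) ^ 2 * z * (24 * (X * (h ^ 2 / W)))) =
      X * h ^ 2 / z * (72 * C * (z ^ 6 * A) / W) := by
  field_simp
  ring

lemma alg3 (X h N W : ℝ) (hW : W ≠ 0) :
    4 * (X * (h ^ 2 / W)) * N ^ 2 = 4 * X * h / W * (h * N ^ 2) := by
  field_simp

lemma alg4 (X h P W : ℝ) (hW : W ≠ 0) :
    4 * X ^ 2 * h * P = 4 * X * h / W * (X * (P * W)) := by
  field_simp

lemma alg5 (X h P : ℝ) (hh : h ≠ 0) : X * P = h * (X / h * P) := by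
  field_simp

lemma alg6 (X A : ℝ) (hA : A ≠ 0) : X = X / A * A := by
  field_simp

lemma alg8 (t : ℝ) : (t + 2) ^ 2 ≤ 2 * t ^ 2 + 8 := by
  nlinarith [sq_nonneg (t - 2)]

lemma alg7 (X A : ℝ) (hA : A ≠ 0) : 2 * X = 2 * A * (X / A) := by
  field_simp

end TOneLargeAux

theorem t1_large (δ e1 κ0 : ℝ) (hδ : 0 < δ) (he1 : 0 < e1) (hκ : 0 < κ0) : ∃ s : ℝ, 0 < s ∧ ∀ᶠ X : ℕ in atTop,
    ∀ (q h N1 N2 : ℕ) (a : ℤ) (b : ArithmeticFunction ℂ), (X : ℝ) ^ (1 / 10 : ℝ) ≤ h → (h : ℝ) ≤ (X : ℝ) ^ (2 / 5 : ℝ) →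
    (X : ℝ) ^ κ0 ≤ q → (q : ℝ) ≤ h * (X : ℝ) ^ (-e1) → IsCoprime a (q : ℤ) →
    Real.sqrt (X / h) * (X : ℝ) ^ δ ≤ N1 → N1 ≤ N2 → (∀ n, ‖b n‖ ≤ (X : ℝ) ^ s) →
    ∑ u ∈ Icc X (2 * X), ‖∑ n ∈ Ioc u (u + h), (b * ind q N1 N2) n * ex (n * (a / q))‖ ^ 2 ≤
      X * (h : ℝ) ^ 2 * (X : ℝ) ^ (-s) := by
  obtain ⟨C, hC, htw⟩ := Pool.Agent.VL.type_one_win
  set ρ : ℝ := min (min δ κ0) (min e1 (1 / 20)) / 8 with hρdef
  have hρ0 : 0 < ρ := by positivity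
  have hρδ : 8 * ρ ≤ δ := by
    rw [hρdef]
    have := (min_le_left (min δ κ0) (min e1 (1 / 20))).trans (min_le_left δ κ0)
    linarith
  have hρκ : 8 * ρ ≤ κ0 := by
    rw [hρdef]
    have := (min_le_left (min δ κ0) (min e1 (1 / 20))).trans (min_le_right δ κ0)
    linarith
  have hρe : 8 * ρ ≤ e1 := by
    rw [hρdef]
    have := (min_le_right (min δ κ0) (min e1 (1 / 20))).trans (min_le_left e1 (1 / 20))
    linarith
  have hρ20 : 8 * ρ ≤ 1 / 20 := by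
    rw [hρdef]
    have := (min_le_right (min δ κ0) (min e1 (1 / 20))).trans (min_le_right e1 (1 / 20))
    linarith
  clear_value ρ
  obtain ⟨s, hs⟩ : ∃ s : ℝ, s = ρ / 20 := ⟨_, rfl⟩
  have hs0 : 0 < s := by rw [hs]; positivity
  refine ⟨s, hs0, ?_⟩
  obtain ⟨Cτ, hCτ, hτ⟩ := tau_small (s / 2) (by positivity)
  have E1 : ∀ᶠ X : ℕ in atTop, max 16 (288 * C) ≤ (X : ℝ) ^ s :=
    ((tendsto_rpow_atTop hs0).comp tendsto_natCast_atTop_atTop).eventually_ge_atTop _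
  have E2 : ∀ᶠ X : ℕ in atTop, Cτ ≤ (X : ℝ) ^ (s / 2) :=
    ((tendsto_rpow_atTop (by positivity : 0 < s / 2)).comp
      tendsto_natCast_atTop_atTop).eventually_ge_atTop _
  have E3 : ∀ᶠ X : ℕ in atTop, (1 + Real.log X) ^ 4 ≤ (X : ℝ) ^ s := by
    have h1 : ∀ᶠ x : ℝ in atTop, Real.log x ≤ x ^ (s / 8) := by
      have := (isLittleO_log_rpow_atTop (by positivity : 0 < s / 8)).bound one_pos
      filter_upwards [this, eventually_ge_atTop 1] with x hx hx1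
      rw [Real.norm_of_nonneg (Real.log_nonneg hx1), one_mul,
        Real.norm_of_nonneg (by positivity)] at hx
      exact hx
    have h2 : ∀ᶠ x : ℝ in atTop, 2 ≤ x ^ (s / 8) :=
      (tendsto_rpow_atTop (by positivity : 0 < s / 8)).eventually_ge_atTop _
    have h3 : ∀ᶠ x : ℝ in atTop, (1 + Real.log x) ^ 4 ≤ x ^ s := by
      filter_upwards [h1, h2, eventually_ge_atTop 1] with x hx hx2 hx1
      have h4 : 1 + Real.log x ≤ x ^ (s / 8) * x ^ (s / 8) := by nlinarith only [hx, hx2]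
      have h5 : 0 ≤ 1 + Real.log x := by
        have := Real.log_nonneg hx1
        linarith only [hρ20, hs, hs0, this]
      calc (1 + Real.log x) ^ 4 ≤ (x ^ (s / 8) * x ^ (s / 8)) ^ 4 := pow_le_pow_left₀ h5 h4 4
        _ = x ^ s := by
          rw [← Real.rpow_add (by linarith only [hx1]), ← Real.rpow_natCast, ← Real.rpow_mul (by linarith only [hx1])]
          congr 1
          push_cast
          ring
    exact tendsto_natCast_atTop_atTop.eventually h3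
  filter_upwards [t1_err s hs0, E1, E2, E3, eventually_ge_atTop 1] with X hterr hE1 hE2 hE3 hX1
  intro q h N1 N2 a b hh1 hh2 hq1 hq2 haq hN1 hN12 hb
  have hx1 : (1 : ℝ) ≤ X := by exact_mod_cast hX1
  have hx0 : (0 : ℝ) < X := by linarith only [hx1]
  obtain ⟨z, hz⟩ : ∃ z : ℝ, z = (X : ℝ) ^ s := ⟨_, rfl⟩
  rw [← hz] at hE1 hE3
  have hz16 : 16 ≤ z := (le_max_left _ _).trans hE1
  have hzC : 288 * C ≤ z := (le_max_right _ _).trans hE1
  have hz1 : 1 ≤ z := by linarith only [hC, hρ20, hs, hs0, hzC]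
  have hz0 : 0 < z := by linarith only [hC, hρ20, hs, hs0, hzC]
  have hpow : ∀ (k : ℕ) (y : ℝ), y = s * k → (X : ℝ) ^ y = z ^ k := by
    intro k y hy
    rw [hz, hy, Real.rpow_mul hx0.le, Real.rpow_natCast]
  have hzρ : (X : ℝ) ^ ρ = z ^ 20 := hpow 20 ρ (by rw [hs]; push_cast; ring)
  have hz8 : (X : ℝ) ^ (8 * ρ) = z ^ 160 := hpow 160 (8 * ρ) (by rw [hs]; push_cast; ring)
  have hz16ρ : (X : ℝ) ^ (16 * ρ) = z ^ 320 := hpow 320 (16 * ρ) (by rw [hs]; push_cast; ring)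
  have hzle : ∀ i j : ℕ, i ≤ j → z ^ i ≤ z ^ j := fun i j hij => pow_le_pow_right₀ hz1 hij
  -- the basic bounds
  have hh320 : z ^ 320 ≤ (h : ℝ) := by
    rw [← hz16ρ]
    exact (Real.rpow_le_rpow_of_exponent_le hx1 (by linarith only [hρ20])).trans hh1
  have hh0 : (0 : ℝ) < h := lt_of_lt_of_le (by (clear * - hz16; positivity)) hh320
  have hhn : 1 ≤ h := by exact_mod_cast hh0
  have hhx : (h : ℝ) ≤ X := hh2.trans (by
    calc (X : ℝ) ^ (2 / 5 : ℝ) ≤ (X : ℝ) ^ (1 : ℝ) :=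
          Real.rpow_le_rpow_of_exponent_le hx1 (by norm_num)
      _ = X := Real.rpow_one _)
  have hhX : h ≤ X := by exact_mod_cast hhx
  have hq160 : z ^ 160 ≤ (q : ℝ) := by
    rw [← hz8]
    exact (Real.rpow_le_rpow_of_exponent_le hx1 (by linarith only [hρκ])).trans hq1
  have hq0 : (0 : ℝ) < q := lt_of_lt_of_le (by (clear * - hz16; positivity)) hq160
  have hqn : 1 ≤ q := by exact_mod_cast hq0
  have hqh : (q : ℝ) * z ^ 160 ≤ h := by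
    have h1 : (X : ℝ) ^ (-e1) ≤ (z ^ 160)⁻¹ := by
      rw [← hz8, ← Real.rpow_neg hx0.le]
      exact Real.rpow_le_rpow_of_exponent_le hx1 (by linarith only [hρe])
    have h2 : (q : ℝ) ≤ h * (z ^ 160)⁻¹ := hq2.trans (mul_le_mul_of_nonneg_left h1 hh0.le)
    rwa [← div_eq_mul_inv, le_div_iff₀ (by (clear * - hz16; positivity))] at h2
  have hqX : q ≤ X := by
    have h1 : (q : ℝ) ≤ h := by
      calc (q : ℝ) = q * 1 := (mul_one _).symm
        _ ≤ q * z ^ 160 := mul_le_mul_of_nonneg_left (one_le_pow₀ hz1) hq0.le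
        _ ≤ h := hqh
    exact_mod_cast h1.trans hhx
  have hN160 : Real.sqrt (X / h) * z ^ 160 ≤ N1 := by
    refine le_trans (mul_le_mul_of_nonneg_left ?_ (Real.sqrt_nonneg _)) hN1
    rw [← hz8]
    exact Real.rpow_le_rpow_of_exponent_le hx1 hρδ
  have hsq1 : 1 ≤ Real.sqrt (X / h) := by
    rw [Real.one_le_sqrt, one_le_div hh0]
    exact hhx
  have hN1z : z ^ 160 ≤ (N1 : ℝ) := by
    refine le_trans ?_ hN160
    exact le_mul_of_one_le_left (by (clear * - hz16; positivity)) hsq1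
  have hN10 : (0 : ℝ) < N1 := lt_of_lt_of_le (by (clear * - hz16; positivity)) hN1z
  have hN1n : 1 ≤ N1 := by exact_mod_cast hN10
  have hN1sq : (X : ℝ) * z ^ 320 ≤ h * (N1 : ℝ) ^ 2 := by
    have h1 : (Real.sqrt (X / h) * z ^ 160) ^ 2 ≤ (N1 : ℝ) ^ 2 :=
      pow_le_pow_left₀ (by (clear * - hX1 hz16 hhn; positivity)) hN160 2
    rw [mul_pow, Real.sq_sqrt (by (clear * - hX1 hhn; positivity)), ← pow_mul] at h1
    have h2 := mul_le_mul_of_nonneg_left h1 hh0.le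
    calc (X : ℝ) * z ^ 320 = h * (X / h * z ^ (160 * 2)) :=
          TOneLargeAux.alg5 X h (z ^ 320) hh0.ne'
      _ ≤ _ := h2
  -- the parameters
  obtain ⟨Δ, hΔdef⟩ : ∃ Δ : ℕ, Δ = ⌈(X : ℝ) / z ^ 20⌉₊ := ⟨_, rfl⟩
  obtain ⟨E, hEdef⟩ : ∃ E : ℕ, E = ⌊z ^ 20⌋₊ := ⟨_, rfl⟩
  obtain ⟨M, hMdef⟩ : ∃ M : ℕ, M = ⌈(E : ℝ) * (2 * X) / N1⌉₊ + 1 := ⟨_, rfl⟩
  have hz20x : z ^ 20 ≤ (X : ℝ) := ((hzle 20 320 (by norm_num)).trans hh320).trans hhx
  have hΔ1 : (X : ℝ) / z ^ 20 ≤ Δ := by rw [hΔdef]; exact Nat.le_ceil _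
  have hone : 1 ≤ (X : ℝ) / z ^ 20 := by rw [one_le_div (by (clear * - hz16; positivity))]; exact hz20x
  have hΔ2 : (Δ : ℝ) ≤ 2 * ((X : ℝ) / z ^ 20) := by
    have h1 := Nat.ceil_lt_add_one (a := (X : ℝ) / z ^ 20) (by (clear * - hX1 hz16; positivity))
    rw [← hΔdef] at h1
    linarith only [hone, h1]
  have hΔ0 : (0 : ℝ) < Δ := by linarith only [hρ20, hs, hs0, hΔ1, hone]
  have hΔn : 1 ≤ Δ := by exact_mod_cast hΔ0
  have h16z : 16 ≤ z ^ 20 := by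
    calc (16 : ℝ) ≤ z ^ 1 := by rw [pow_one]; exact hz16
      _ ≤ z ^ 20 := hzle 1 20 (by norm_num)
  have hΔ8 : 8 * Δ ≤ X := by
    have h1 : (8 : ℝ) * Δ ≤ X := by
      have h2 : (X : ℝ) / z ^ 20 ≤ X / 16 :=
        div_le_div_of_nonneg_left hx0.le (by norm_num) h16z
      linarith only [hΔ2, h2]
    exact_mod_cast h1
  have hhΔ : h ≤ Δ := by
    have h1 : (h : ℝ) ≤ X / z ^ 20 := by
      have h2 : (X : ℝ) / z ^ 20 = (X : ℝ) ^ (1 - ρ) := by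
        rw [← hzρ, Real.rpow_sub hx0, Real.rpow_one]
      rw [h2]
      exact hh2.trans (Real.rpow_le_rpow_of_exponent_le hx1 (by linarith only [hρ20, hs, hs0]))
    exact_mod_cast h1.trans hΔ1
  have hE1' : (E : ℝ) ≤ z ^ 20 := by rw [hEdef]; exact Nat.floor_le (by (clear * - hz16; positivity))
  have hE2' : z ^ 20 ≤ 2 * E := by
    have h1 := Nat.lt_floor_add_one (z ^ 20)
    rw [← hEdef] at h1
    linarith only [hρ20, hs, hs0, h16z, h1]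
  have hE0 : (0 : ℝ) < E := by linarith only [hρ20, hs, hs0, h16z, hE2']
  have hEn : 1 ≤ E := by exact_mod_cast hE0
  have hM1 : 1 ≤ M := by omega
  have hMge : E * (2 * X) ≤ M * N1 := by
    have h1 : (E : ℝ) * (2 * X) / N1 ≤ M := by
      rw [hMdef]
      push_cast
      have := Nat.le_ceil ((E : ℝ) * (2 * X) / N1)
      linarith only [hρ20, hs, hs0, this]
    rw [div_le_iff₀ hN10] at h1
    exact_mod_cast h1
  have hMle : (M : ℝ) ≤ (E : ℝ) * (2 * X) / N1 + 2 := by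
    rw [hMdef]
    push_cast
    have := Nat.ceil_lt_add_one (a := (E : ℝ) * (2 * X) / N1) (by (clear * - hX1 hN1n hEn; positivity))
    linarith only [this]
  have hx16 : 16 ≤ (X : ℝ) := h16z.trans hz20x
  have hMX : (M : ℝ) ≤ X := by
    have h1 : (E : ℝ) * (2 * X) / N1 ≤ X / 2 := by
      rw [div_le_div_iff₀ hN10 (by norm_num)]
      have h2 : 4 * (E : ℝ) ≤ N1 := by
        calc 4 * (E : ℝ) ≤ z * z ^ 20 :=
              mul_le_mul (by linarith only [hC, hρ20, hs, hs0, hzC]) hE1' hE0.le hz0.le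
          _ = z ^ 21 := by ring
          _ ≤ z ^ 160 := hzle 21 160 (by norm_num)
          _ ≤ N1 := hN1z
      calc (E : ℝ) * (2 * X) * 2 = 4 * (E : ℝ) * X := by ring
        _ ≤ N1 * X := mul_le_mul_of_nonneg_right h2 hx0.le
        _ = X * N1 := mul_comm _ _
    linarith only [hρ20, hs, hs0, hz20x, h16z, hMle, h1]
  have hMXn : M ≤ X := by exact_mod_cast hMX
  have hM0 : (1 : ℝ) ≤ M := by exact_mod_cast hM1
  have hK : ∀ m, ‖b m‖ ≤ z := by intro m; rw [hz]; exact hb m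
  have hτ' : ∀ m : ℕ, 1 ≤ m → m ≤ M → z * (m.divisors.card : ℝ) ≤ z ^ 2 := by
    intro m hm hm2
    rw [sq]
    apply mul_le_mul_of_nonneg_left _ hz0.le
    have h1 := hτ m hm
    have hmX : (m : ℝ) ≤ X := by exact_mod_cast hm2.trans hMXn
    have h2 : (m : ℝ) ^ (s / 2) ≤ (X : ℝ) ^ (s / 2) :=
      Real.rpow_le_rpow (by (clear * - hm; positivity)) hmX (by (clear * - hs0; positivity))
    calc (m.divisors.card : ℝ) ≤ Cτ * (m : ℝ) ^ (s / 2) := h1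
      _ ≤ (X : ℝ) ^ (s / 2) * (X : ℝ) ^ (s / 2) :=
          mul_le_mul hE2 h2 (by (clear * - hm; positivity)) (by (clear * - hX1; positivity))
      _ = z := by
          rw [← Real.rpow_add hx0, hz]
          congr 1
          ring
  have hlogM : (1 + Real.log M) ^ 4 ≤ z := by
    refine le_trans (pow_le_pow_left₀ ?_ ?_ 4) hE3
    · have := Real.log_nonneg hM0
      linarith only [hρ20, hs, hs0, this]
    · have := Real.log_le_log (by linarith only [hρ20, hs, hs0, hM0]) hMX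
      linarith only [this]
  -- the two parts
  have hdet := TOneLargeAux.t1_det X Δ q h N1 N2 E M b z ((a : ℝ) / q) hz0.le hK hqn hN1n hN12 hΔn
    hΔ8 hhΔ hMge
  have hmain := TOneLargeAux.t1_main X Δ q h N1 N2 E M a b z (z ^ 2) C htw hz0.le hK hM1 hhn
    (by omega) hqn haq (by (clear * - hz16; positivity)) hτ'
  have herr := hterr Δ q N1 N2 E hN1n (hN1n.trans hN12) hEn hqn hqX
  rw [← hz] at herr
  refine hdet.trans ?_
  -- the error part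
  have hXE : (X : ℝ) / E ≤ 2 * (X / z ^ 20) := by
    rw [div_le_iff₀ hE0]
    have : 2 * ((X : ℝ) / z ^ 20) * E = (X / z ^ 20) * (2 * E) := by ring
    rw [this]
    calc (X : ℝ) = X / z ^ 20 * z ^ 20 := TOneLargeAux.alg6 X (z ^ 20) (by (clear * - hz16; positivity))
      _ ≤ X / z ^ 20 * (2 * E) := mul_le_mul_of_nonneg_left hE2' (by (clear * - hX1 hz16; positivity))
  have herr2 : 2 * z ^ 2 * (h : ℝ) ^ 2 * ∑ n ∈ Icc 1 (4 * X), er X Δ q N1 N2 E n ^ 2 ≤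
      1 / 2 * (X * (h : ℝ) ^ 2 / z) := by
    have h1 : ∑ n ∈ Icc 1 (4 * X), er X Δ q N1 N2 E n ^ 2 ≤ z * (4 * (X / z ^ 20)) :=
      herr.trans (mul_le_mul_of_nonneg_left (by linarith only [hΔ2, hXE]) hz0.le)
    refine (mul_le_mul_of_nonneg_left h1 (by (clear * - hz16 hhn; positivity))).trans ?_
    have h2 := TOneLargeAux.alg1 z h X (z ^ 20) hz0.ne' (by (clear * - hz16; positivity))
    rw [h2, mul_comm]
    apply mul_le_mul_of_nonneg_right _ (by (clear * - hX1 hz16 hhn; positivity))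
    rw [div_le_iff₀ (by (clear * - hz16; positivity))]
    have h3 : z ^ 5 ≤ z ^ 20 := hzle 5 20 (by norm_num)
    have h4 : 16 * z ^ 4 ≤ z * z ^ 4 := mul_le_mul_of_nonneg_right hz16 (by (clear * - hz16; positivity))
    have h5 : z * z ^ 4 = z ^ 5 := by ring
    linarith only [h3, h4]
  -- the main part
  have hW : (0 : ℝ) < z ^ 280 := by (clear * - hz16; positivity)
  have b1 : (h : ℝ) ^ 2 / (q : ℝ) ^ 2 ≤ (h : ℝ) ^ 2 / z ^ 280 := by
    apply div_le_div_of_nonneg_left (by (clear * - hhn; positivity)) hW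
    calc z ^ 280 ≤ z ^ 320 := hzle _ _ (by norm_num)
      _ = (z ^ 160) ^ 2 := by ring
      _ ≤ (q : ℝ) ^ 2 := pow_le_pow_left₀ (by (clear * - hz16; positivity)) hq160 2
  have b2 : (q : ℝ) ^ 2 ≤ (h : ℝ) ^ 2 / z ^ 280 := by
    rw [le_div_iff₀ hW]
    calc (q : ℝ) ^ 2 * z ^ 280 ≤ (q : ℝ) ^ 2 * z ^ 320 :=
          mul_le_mul_of_nonneg_left (hzle _ _ (by norm_num)) (by (clear * - hqn; positivity))
      _ = ((q : ℝ) * z ^ 160) ^ 2 := by ring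
      _ ≤ (h : ℝ) ^ 2 := pow_le_pow_left₀ (by (clear * - hz16 hqn; positivity)) hqh 2
  have b3 : (h : ℝ) ≤ (h : ℝ) ^ 2 / z ^ 280 := by
    rw [le_div_iff₀ hW, sq]
    exact mul_le_mul_of_nonneg_left ((hzle _ _ (by norm_num)).trans hh320) hh0.le
  have b4 : (1 : ℝ) ≤ (h : ℝ) ^ 2 / z ^ 280 :=
    le_trans (by exact_mod_cast hhn) b3
  have b5 : (M : ℝ) ^ 2 * h ≤ 16 * (X * ((h : ℝ) ^ 2 / z ^ 280)) := by
    have c1 : ((E : ℝ) * (2 * X) / N1) ^ 2 * h ≤ 4 * (X * ((h : ℝ) ^ 2 / z ^ 280)) := by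
      rw [div_pow, div_mul_eq_mul_div, div_le_iff₀ (by (clear * - hN1n; positivity))]
      have c2 : (E : ℝ) ^ 2 ≤ z ^ 40 := by
        calc (E : ℝ) ^ 2 ≤ (z ^ 20) ^ 2 := pow_le_pow_left₀ hE0.le hE1' 2
          _ = z ^ 40 := by ring
      rw [TOneLargeAux.alg3 X h N1 (z ^ 280) hW.ne']
      calc ((E : ℝ) * (2 * X)) ^ 2 * h = 4 * X ^ 2 * h * (E : ℝ) ^ 2 := by ring
        _ ≤ 4 * X ^ 2 * h * z ^ 40 := mul_le_mul_of_nonneg_left c2 (by (clear * - hX1 hhn; positivity))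
        _ = 4 * X * h / z ^ 280 * ((X : ℝ) * z ^ 320) := by
            rw [TOneLargeAux.alg4 X h (z ^ 40) (z ^ 280) hW.ne', ← pow_add]
        _ ≤ _ := mul_le_mul_of_nonneg_left hN1sq (by (clear * - hX1 hz16 hhn; positivity))
    have c4 : (M : ℝ) ^ 2 ≤ 2 * ((E : ℝ) * (2 * X) / N1) ^ 2 + 8 := by
      have c5 : (M : ℝ) ^ 2 ≤ ((E : ℝ) * (2 * X) / N1 + 2) ^ 2 :=
        pow_le_pow_left₀ (by linarith only [hρ20, hs, hs0, hM0]) hMle 2
      exact c5.trans (TOneLargeAux.alg8 _)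
    have c6 : (h : ℝ) ≤ X * ((h : ℝ) ^ 2 / z ^ 280) := by
      refine b3.trans ?_
      exact le_mul_of_one_le_left (by (clear * - hz16 hhn; positivity)) hx1
    calc (M : ℝ) ^ 2 * h ≤ (2 * ((E : ℝ) * (2 * X) / N1) ^ 2 + 8) * h :=
          mul_le_mul_of_nonneg_right c4 hh0.le
      _ = 2 * (((E : ℝ) * (2 * X) / N1) ^ 2 * h) + 8 * h := by ring
      _ ≤ _ := by linarith only [c1, c6]
  have b6 : ((2 * X : ℕ) : ℝ) * ((h : ℝ) ^ 2 / (q : ℝ) ^ 2 + (q : ℝ) ^ 2 + h + 1) +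
      (M : ℝ) ^ 2 * h ≤ 24 * (X * ((h : ℝ) ^ 2 / z ^ 280)) := by
    push_cast
    have c1 : (h : ℝ) ^ 2 / (q : ℝ) ^ 2 + (q : ℝ) ^ 2 + h + 1 ≤ 4 * ((h : ℝ) ^ 2 / z ^ 280) := by
      linarith only [b1, b2, b3, b4]
    have c2 := mul_le_mul_of_nonneg_left c1 (by (clear * - hX1; positivity) : (0 : ℝ) ≤ 2 * X)
    calc _ ≤ 2 * (X : ℝ) * (4 * ((h : ℝ) ^ 2 / z ^ 280)) +
          16 * (X * ((h : ℝ) ^ 2 / z ^ 280)) := add_le_add c2 b5
      _ = _ := by ring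
  have b7 : ((2 * X / Δ : ℕ) : ℝ) + 1 ≤ 3 * z ^ 20 := by
    have c1 : ((2 * X / Δ : ℕ) : ℝ) ≤ ((2 * X : ℕ) : ℝ) / Δ := Nat.cast_div_le
    have c2 : ((2 * X : ℕ) : ℝ) / Δ ≤ 2 * z ^ 20 := by
      rw [div_le_iff₀ hΔ0]
      push_cast
      calc 2 * (X : ℝ) = 2 * z ^ 20 * (X / z ^ 20) := TOneLargeAux.alg7 X (z ^ 20) (by (clear * - hz16; positivity))
        _ ≤ _ := mul_le_mul_of_nonneg_left hΔ1 (by (clear * - hz16; positivity))
    linarith only [hρ20, hs, hs0, h16z, c1, c2]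
  have hmain2 : 2 * (∑ j ∈ range (2 * X / Δ + 1), ∑ u ∈ range (2 * X + 1), ‖∑ n ∈ Ioc u (u + h),
        (∑ m ∈ (Icc 1 M).filter (fun m => m ∣ n), cj q N1 N2 E (Δ * j) b m) *
          ex (n * ((a : ℝ) / q))‖ ^ 2) ≤ 1 / 2 * (X * (h : ℝ) ^ 2 / z) := by
    have d1 : ((2 * X / Δ : ℕ) + 1) * (C * (z ^ 2) ^ 2 * (1 + Real.log M) ^ 4 *
        (((2 * X : ℕ) : ℝ) * ((h : ℝ) ^ 2 / q ^ 2 + q ^ 2 + h + 1) + (M : ℝ) ^ 2 * h)) ≤
        (3 * z ^ 20) * (C * (z ^ 2) ^ 2 * z * (24 * (X * ((h : ℝ) ^ 2 / z ^ 280)))) := by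
      apply mul_le_mul b7 _ (by (clear * - hC hX1 hz16 hhn hqn hM1; positivity)) (by (clear * - hz16; positivity))
      apply mul_le_mul _ b6 (by (clear * - hX1 hhn hqn hM1; positivity)) (by (clear * - hC hz16; positivity))
      exact mul_le_mul_of_nonneg_left hlogM (by (clear * - hC hz16; positivity))
    have d2 := TOneLargeAux.alg2 z h X (z ^ 20) C (z ^ 280) hz0.ne' hW.ne'
    rw [← pow_add] at d2
    have d3 : 72 * C * z ^ 26 / z ^ 280 ≤ 1 / 4 := by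
      rw [div_le_iff₀ hW]
      have e1 : z ^ 27 ≤ z ^ 280 := hzle _ _ (by norm_num)
      have e2 : 288 * C * z ^ 26 ≤ z * z ^ 26 := mul_le_mul_of_nonneg_right hzC (by (clear * - hz16; positivity))
      have e3 : z * z ^ 26 = z ^ 27 := by ring
      linarith only [e1, e2]
    have d4 := (hmain.trans d1)
    rw [d2] at d4
    have d5 := mul_le_mul_of_nonneg_left d3 (by (clear * - hX1 hz16 hhn; positivity) : (0:ℝ) ≤ X * (h : ℝ) ^ 2 / z)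
    linarith only [hmain, d1, d2, d5]
  have hfin : (X : ℝ) * (h : ℝ) ^ 2 * (X : ℝ) ^ (-s) = X * (h : ℝ) ^ 2 / z := by
    rw [Real.rpow_neg hx0.le, ← hz, div_eq_mul_inv]
  rw [hfin]
  linarith only [herr2, hmain2]

end Pool.Agent.VM
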