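import Pool.Agent.Lib.VM.DjlWin
import Pool.Agent.Lib.VM.TOneLarge
import Pool.Agent.Lib.VM.CellBasic

/-!
# Module ScLarge: smooth classes, large modulus

`s1` = the value of `djl_win ε e1 κ0` (may be taken `≤ min ε (1/1000)`), `s2` = the value of `t1_large (s1/2) e1 κ0`,
`s = min s1 s2 / 100`. `Z = ∏ 2^(e i)`. Windows `(u,u+h] ⊆ (X, 4X]`.
If `Fcl` vanishes on all of `(X, 4X]` the left side is `0`. Otherwise `X < Z ≤ 2^14 X` (`Fcl_supp`).
Type I: if some `i0` with `6 ≤ i0` has `2^(e i0) > 2 √(X/h) X^(s1/2)`: `Fcl = b * ind q y' (2^(e i0))`, `y' ≥ 2^(e i0)/2` (`Fcl_split`,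
`gcl_smooth`), `|b n| ≤ X^s2` for all `n` (`Fcl_bound`, `tau_small`; `b n = 0` for `n > Z`, `Fcl_le`), `t1_large` with `N1 = y'`
(if `y' > 2^(e i0)` then `ind = 0`, trivial).
Otherwise let `Lc = {i : X^s < 2^(e i)}`, `J = Lc.card`; its elements satisfy `6 ≤ i`, `h X^(-s) ≤ 2^(e i) ≤ 2 √(X/h) X^(s1/2) ≤ √(X/h) X^s1`. `P = ∏_{i ∉ Lc} 2^(e i) ≤ X^(12 s)`,
`∏_{Lc} 2^(e i) = Z/P ∈ [X^(1-12s), 2^14 X]`. `J ≤ 2` is impossible: `(√(X/h) X^(s1))² ≤ X^(1 - 1/6 + 2 s1) < X^(1-12s)`; `J ≥ 6` is impossible: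
`(h X^(-s))^6 ≥ X^(1 + 6ε - 6s) > 2^14 X` (then a product of all six; `Lc` has at most six elements). `Fcl_class`:
`Fcl = A * ∏ G j`, `A = ∏_{i ∉ Lc} gcl`, `|A n| ≤ τ(n)^12 ≤ X^s1` (`A n = 0` for `n > P`), supports by `gcl_supp`, `Fcl_le`, `Fcl_coprime`:
so `DCl X h q J P s1 (e ∘ φ) G A` and `djl_win` applies (`P ∏ 2^(e (φ j)) = Z ≤ 2^14 X`).
-/

set_option autoImplicit false

open Finset Filter

namespace Pool.Agent.VM

open Pool.Agent.VK Pool.Agent.HLT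

namespace ScLargeAux

/-- divisor bound for partial products with support up to `2^14 X` -/
lemma ev_tau (s : ℝ) (hs : 0 < s) : ∀ᶠ X : ℕ in atTop, ∀ n : ℕ, 1 ≤ n → n ≤ 2 ^ 14 * X →
    (n.divisors.card : ℝ) ^ 12 ≤ (X : ℝ) ^ s := by
  obtain ⟨C, hC1, hC⟩ := tau_small (s / 24) (by positivity)
  filter_upwards [DjlWinAux.ev_ge (C ^ 12 * ((2 : ℝ) ^ (14 : ℕ)) ^ (s / 2)) (s / 2) (by positivity)]
    with X hX n hn hnX
  have h1 := hC n hn
  have hn0 : (0 : ℝ) ≤ n := Nat.cast_nonneg n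
  have hnX' : (n : ℝ) ≤ (2 : ℝ) ^ (14 : ℕ) * X := by exact_mod_cast hnX
  have h2 : (n.divisors.card : ℝ) ^ 12 ≤ (C * (n : ℝ) ^ (s / 24)) ^ 12 :=
    pow_le_pow_left₀ (by positivity) h1 12
  have h3 : (C * (n : ℝ) ^ (s / 24)) ^ 12 = C ^ 12 * (n : ℝ) ^ (s / 2) := by
    rw [mul_pow, ← Real.rpow_natCast ((n : ℝ) ^ (s / 24)), ← Real.rpow_mul hn0]
    congr 2
    push_cast
    ring
  have h4 : (n : ℝ) ^ (s / 2) ≤ ((2 : ℝ) ^ (14 : ℕ) * X) ^ (s / 2) :=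
    Real.rpow_le_rpow hn0 hnX' (by positivity)
  have h5 : ((2 : ℝ) ^ (14 : ℕ) * X) ^ (s / 2) = ((2 : ℝ) ^ (14 : ℕ)) ^ (s / 2) * (X : ℝ) ^ (s / 2) :=
    Real.mul_rpow (by positivity) (by positivity)
  have h6 : (X : ℝ) ^ (s / 2) * (X : ℝ) ^ (s / 2) = (X : ℝ) ^ s := by
    rcases Nat.eq_zero_or_pos X with rfl | hXp
    · push_cast
      rw [Real.zero_rpow (by positivity), Real.zero_rpow hs.ne']
      ring
    · rw [← Real.rpow_add (by exact_mod_cast hXp)]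
      congr 1
      ring
  calc (n.divisors.card : ℝ) ^ 12 ≤ C ^ 12 * (n : ℝ) ^ (s / 2) := h3 ▸ h2
    _ ≤ C ^ 12 * (((2 : ℝ) ^ (14 : ℕ)) ^ (s / 2) * (X : ℝ) ^ (s / 2)) :=
        mul_le_mul_of_nonneg_left (h5 ▸ h4) (by positivity)
    _ = (C ^ 12 * ((2 : ℝ) ^ (14 : ℕ)) ^ (s / 2)) * (X : ℝ) ^ (s / 2) := by ring
    _ ≤ (X : ℝ) ^ (s / 2) * (X : ℝ) ^ (s / 2) := mul_le_mul_of_nonneg_right hX (by positivity)
    _ = _ := h6

lemma cell_half {k : ℕ} (hk : 1 ≤ k) : 2 ^ k / 2 = 2 ^ (k - 1) := by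
  obtain ⟨m, rfl⟩ : ∃ m, k = m + 1 := ⟨k - 1, by omega⟩
  rw [pow_succ]
  simp

end ScLargeAux

open ScLargeAux in
theorem sc_large (ε e1 κ0 : ℝ) (hε : 0 < ε) (he1 : 0 < e1) (hκ : 0 < κ0) : ∃ s : ℝ, 0 < s ∧ ∀ᶠ X : ℕ in atTop,
    ∀ (h q z y : ℕ) (e : Fin 12 → ℕ) (a : ℤ), (X : ℝ) ^ (1 / 6 + ε) ≤ h → (h : ℝ) ≤ (X : ℝ) ^ (2 / 5 : ℝ) →
    (X : ℝ) ^ κ0 ≤ q → (q : ℝ) ≤ h * (X : ℝ) ^ (-e1) → IsCoprime a (q : ℤ) →
    (∀ i : Fin 12, (2 : ℝ) ^ e i ≤ (X : ℝ) ^ s ∨ (6 ≤ i.val ∧ h * (X : ℝ) ^ (-s) ≤ (2 : ℝ) ^ e i)) →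
    ∑ u ∈ Icc X (2 * X), ‖∑ n ∈ Ioc u (u + h), Fcl z q y e n * ex (n * (a / q))‖ ^ 2 ≤
      X * (h : ℝ) ^ 2 * (X : ℝ) ^ (-s) := by
  obtain ⟨s0, hs0, hdjl⟩ := djl_win ε e1 κ0 hε he1 hκ
  obtain ⟨s1, hs1⟩ : ∃ s1, s1 = min s0 (min ε (1 / 1000)) := ⟨_, rfl⟩
  have hs1p : 0 < s1 := by rw [hs1]; exact lt_min hs0 (lt_min hε (by norm_num))
  have hs10 : s1 ≤ s0 := by rw [hs1]; exact min_le_left _ _
  have hs1e : s1 ≤ ε := by rw [hs1]; exact (min_le_right _ _).trans (min_le_left _ _)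
  have hs1c : s1 ≤ 1 / 1000 := by rw [hs1]; exact (min_le_right _ _).trans (min_le_right _ _)
  obtain ⟨s2, hs2, ht1⟩ := t1_large (s1 / 2) e1 κ0 (by positivity) he1 hκ
  obtain ⟨s, hs⟩ : ∃ s, s = min s1 s2 / 100 := ⟨_, rfl⟩
  have hsp : 0 < s := by rw [hs]; exact div_pos (lt_min hs1p hs2) (by norm_num)
  have hss1 : 100 * s ≤ s1 := by
    rw [hs]
    have := min_le_left s1 s2
    linarith only [this]
  have hss2 : 100 * s ≤ s2 := by
    rw [hs]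
    have := min_le_right s1 s2
    linarith only [this]
  clear hs hs1
  refine ⟨s, hsp, ?_⟩
  filter_upwards [hdjl, ht1, ev_tau s2 hs2, ev_tau s1 hs1p,
    DjlWinAux.ev_ge 2 (s1 / 2) (by positivity), DjlWinAux.ev_ge (2 ^ 14 + 1) s1 hs1p,
    DjlWinAux.ev_ge (2 ^ 14 + 1) (5 * ε) (by positivity),
    eventually_ge_atTop 1] with X hX1 hX2 hX3 hX4 hX5 hX6 hX7 hX8
  intro h q z y e a hh1 hh2 hq1 hq2 hcop hcl
  have hx1 : (1 : ℝ) ≤ X := by exact_mod_cast hX8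
  have hx0 : (0 : ℝ) < X := by linarith only [hs1c, hsp, hss1, hx1]
  have hmono : ∀ {u v : ℝ}, u ≤ v → (X : ℝ) ^ u ≤ (X : ℝ) ^ v := fun huv =>
    Real.rpow_le_rpow_of_exponent_le hx1 huv
  have hh0 : (0 : ℝ) < h := lt_of_lt_of_le (by (clear * - hX8; positivity)) hh1
  have hhX : (h : ℝ) ≤ X := by
    refine hh2.trans ?_
    calc (X : ℝ) ^ (2 / 5 : ℝ) ≤ (X : ℝ) ^ (1 : ℝ) := hmono (by norm_num)
      _ = X := Real.rpow_one _
  have hhXn : h ≤ X := by exact_mod_cast hhX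
  have hRHS : (0 : ℝ) ≤ X * (h : ℝ) ^ 2 * (X : ℝ) ^ (-s) := by (clear * - hX8 hh0; positivity)
  -- the trivial case
  by_cases hzero : ∀ n : ℕ, X < n → n ≤ 4 * X → Fcl z q y e n = 0
  · refine le_trans (le_of_eq ?_) hRHS
    apply Finset.sum_eq_zero
    intro u hu
    rw [Finset.mem_Icc] at hu
    have : ∑ n ∈ Ioc u (u + h), Fcl z q y e n * ex (n * (a / q)) = 0 := by
      apply Finset.sum_eq_zero
      intro n hn
      rw [Finset.mem_Ioc] at hn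
      rw [hzero n (by omega) (by omega), zero_mul]
    rw [this]
    simp
  push Not at hzero
  obtain ⟨n0, hn0X, hn04, hn0⟩ := hzero
  obtain ⟨hZ1, hZ2⟩ := Fcl_supp z q y e n0 hn0
  obtain ⟨Z, hZ⟩ : ∃ Z : ℕ, Z = ∏ i, 2 ^ e i := ⟨_, rfl⟩
  rw [← hZ] at hZ1 hZ2
  have hXZ : X < Z := lt_of_lt_of_le hn0X hZ1
  have hZX : Z ≤ 2 ^ 14 * X := by
    calc Z ≤ 2 ^ 12 * n0 := hZ2
      _ ≤ 2 ^ 12 * (4 * X) := Nat.mul_le_mul_left _ hn04
      _ = 2 ^ 14 * X := by ring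
  have hXZr : (X : ℝ) ≤ Z := by exact_mod_cast hXZ.le
  have hZXr : (Z : ℝ) ≤ 2 ^ 14 * X := by exact_mod_cast hZX
  have hsq0 : 0 ≤ Real.sqrt (X / h) := Real.sqrt_nonneg _
  have hsq1 : 1 ≤ Real.sqrt (X / h) := by
    rw [Real.one_le_sqrt, one_le_div hh0]
    exact hhX
  have hprodle : ∀ D : Finset (Fin 12), ∏ i ∈ D, 2 ^ e i ≤ Z := by
    intro D
    rw [hZ]
    apply Finset.prod_le_prod_of_subset_of_one_le' (Finset.subset_univ D)
    intro i _ _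
    exact Nat.one_le_two_pow
  by_cases hI : ∃ i0 : Fin 12, 6 ≤ i0.val ∧ 2 * (Real.sqrt (X / h) * (X : ℝ) ^ (s1 / 2)) < (2 : ℝ) ^ e i0
  · -- Type I
    obtain ⟨i0, hi6, hi0⟩ := hI
    obtain ⟨y', hy', hg⟩ := gcl_smooth z q y e i0 hi6
    have hsp := Fcl_split z q y e i0
    rw [hg] at hsp
    have hx12 : (1 : ℝ) ≤ (X : ℝ) ^ (s1 / 2) := Real.one_le_rpow hx1 (by (clear * - hs1p; positivity))
    have he0 : 1 ≤ e i0 := by
      by_contra hc
      have h0 : e i0 = 0 := by omega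
      rw [h0, pow_zero] at hi0
      have h1 : 1 ≤ Real.sqrt (X / h) * (X : ℝ) ^ (s1 / 2) := one_le_mul_of_one_le_of_one_le hsq1 hx12
      linarith
    have hy'r : Real.sqrt (X / h) * (X : ℝ) ^ (s1 / 2) ≤ y' := by
      rw [cell_half he0] at hy'
      have h1 : ((2 : ℝ) ^ (e i0 - 1)) ≤ y' := by exact_mod_cast hy'
      have h2 : (2 : ℝ) ^ e i0 = 2 * (2 : ℝ) ^ (e i0 - 1) := by
        rw [← pow_succ']
        congr 1
        omega
      rw [h2] at hi0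
      linarith only [hi0, h1]
    have hyle : y' ≤ 2 ^ e i0 := by
      by_contra hc
      push Not at hc
      have h0 : ind q y' (2 ^ e i0) = 0 := by
        ext n
        rw [ind_apply, if_neg]
        · simp
        · rintro ⟨h1, h2, -⟩
          omega
      rw [h0, mul_zero] at hsp
      rw [hsp] at hn0
      simp at hn0
    have hb : ∀ n, ‖(∏ j ∈ univ.erase i0, gcl z q y e j) n‖ ≤ (X : ℝ) ^ s2 := by
      intro n
      by_cases hz : (∏ j ∈ univ.erase i0, gcl z q y e j) n = 0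
      · rw [hz, norm_zero]
        (clear * - hX8; positivity)
      · have h1 : n ≤ Z := (Fcl_le z q y e _ n hz).trans (hprodle _)
        have h2 : 1 ≤ n := by
          rcases Nat.eq_zero_or_pos n with rfl | hn
          · simp at hz
          · exact hn
        exact (Fcl_bound z q y e _ n).trans (hX3 n h2 (h1.trans hZX))
    have hfin := hX2 q h y' (2 ^ e i0) a (∏ j ∈ univ.erase i0, gcl z q y e j)
      ((hmono (by linarith)).trans hh1) hh2 hq1 hq2 hcop hy'r hyle hb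
    rw [hsp]
    refine hfin.trans ?_
    exact mul_le_mul_of_nonneg_left (hmono (by linarith)) (by (clear * - hX8 hh0; positivity))
  push Not at hI
  -- the long factors
  obtain ⟨Lc, hLc⟩ : ∃ Lc : Finset (Fin 12), Lc = univ.filter (fun i => (X : ℝ) ^ s < (2 : ℝ) ^ e i) := ⟨_, rfl⟩
  have hLm : ∀ i, i ∈ Lc ↔ (X : ℝ) ^ s < (2 : ℝ) ^ e i := by
    intro i
    rw [hLc]
    simp
  have hxs1 : (1 : ℝ) ≤ (X : ℝ) ^ s := Real.one_le_rpow hx1 hsp.le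
  have hL6 : ∀ i ∈ Lc, 6 ≤ i.val := by
    intro i hi
    rcases hcl i with h1 | h1
    · exact absurd h1 (not_le.mpr ((hLm i).1 hi))
    · exact h1.1
  have hLlo : ∀ i ∈ Lc, h * (X : ℝ) ^ (-s) ≤ (2 : ℝ) ^ e i := by
    intro i hi
    rcases hcl i with h1 | h1
    · exact absurd h1 (not_le.mpr ((hLm i).1 hi))
    · exact h1.2
  have hB : 2 * (Real.sqrt (X / h) * (X : ℝ) ^ (s1 / 2)) ≤ Real.sqrt (X / h) * (X : ℝ) ^ s1 := by
    have h1 : (X : ℝ) ^ s1 = (X : ℝ) ^ (s1 / 2) * (X : ℝ) ^ (s1 / 2) := by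
      rw [← Real.rpow_add hx0]
      congr 1
      ring
    rw [h1]
    calc 2 * (Real.sqrt (X / h) * (X : ℝ) ^ (s1 / 2)) = Real.sqrt (X / h) * (2 * (X : ℝ) ^ (s1 / 2)) := by ring
      _ ≤ _ := mul_le_mul_of_nonneg_left (mul_le_mul_of_nonneg_right hX5 (by (clear * - hX8; positivity))) hsq0
  have hLhi : ∀ i ∈ Lc, (2 : ℝ) ^ e i ≤ Real.sqrt (X / h) * (X : ℝ) ^ s1 := fun i hi =>
    (hI i (hL6 i hi)).trans hB
  have hLe1 : ∀ i ∈ Lc, 1 ≤ e i := by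
    intro i hi
    by_contra hc
    have h0 : e i = 0 := by omega
    have h1 := (hLm i).1 hi
    rw [h0, pow_zero] at h1
    linarith only [hxs1, h1]
  obtain ⟨P, hP⟩ : ∃ P : ℕ, P = ∏ i ∈ Lcᶜ, 2 ^ e i := ⟨_, rfl⟩
  have hP1 : 1 ≤ P := by
    rw [hP]
    exact Finset.one_le_prod' fun i _ => Nat.one_le_two_pow
  have hP1r : (1 : ℝ) ≤ P := by exact_mod_cast hP1
  have hPle : (P : ℝ) ≤ (X : ℝ) ^ (12 * s) := by
    rw [hP]
    push_cast
    have h1 : ∏ i ∈ Lcᶜ, (2 : ℝ) ^ e i ≤ ∏ _i ∈ Lcᶜ, (X : ℝ) ^ s := by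
      apply Finset.prod_le_prod
      · intro i _
        (clear * -; positivity)
      · intro i hi
        rw [Finset.mem_compl, hLm, not_lt] at hi
        exact hi
    refine h1.trans ?_
    rw [Finset.prod_const]
    calc ((X : ℝ) ^ s) ^ (Lcᶜ).card ≤ ((X : ℝ) ^ s) ^ 12 :=
          pow_le_pow_right₀ hxs1 ((Finset.card_le_univ _).trans (by simp))
      _ = (X : ℝ) ^ (12 * s) := by
          rw [← Real.rpow_natCast, ← Real.rpow_mul hx0.le]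
          congr 1
          push_cast
          ring
  have hZP : (Z : ℝ) = P * ∏ i ∈ Lc, (2 : ℝ) ^ e i := by
    rw [hZ, hP]
    push_cast
    rw [mul_comm]
    exact (Finset.prod_mul_prod_compl Lc _).symm
  obtain ⟨Q, hQ⟩ : ∃ Q : ℝ, Q = ∏ i ∈ Lc, (2 : ℝ) ^ e i := ⟨_, rfl⟩
  rw [← hQ] at hZP
  have hQ0 : 0 < Q := by
    rw [hQ]
    exact Finset.prod_pos fun i _ => by (clear * -; positivity)
  have hQlo : (X : ℝ) ^ (1 - 12 * s) ≤ Q := by
    have h1 : (X : ℝ) ≤ (X : ℝ) ^ (12 * s) * Q := by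
      calc (X : ℝ) ≤ Z := hXZr
        _ = P * Q := hZP
        _ ≤ _ := mul_le_mul_of_nonneg_right hPle hQ0.le
    have h2 : (X : ℝ) = (X : ℝ) ^ (12 * s) * (X : ℝ) ^ (1 - 12 * s) := by
      rw [← Real.rpow_add hx0]
      have : 12 * s + (1 - 12 * s) = 1 := by ring
      rw [this, Real.rpow_one]
    have h3 : (0 : ℝ) < (X : ℝ) ^ (12 * s) := by (clear * - hX8; positivity)
    by_contra hc
    push Not at hc
    have := mul_lt_mul_of_pos_left hc h3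
    linarith only [h1, h2, this]
  have hQhi : Q ≤ 2 ^ 14 * X := by
    refine le_trans ?_ hZXr
    rw [hZP]
    exact le_mul_of_one_le_left hQ0.le hP1r
  have hJ3 : 3 ≤ Lc.card := by
    by_contra hc
    push Not at hc
    have hB1 : 1 ≤ Real.sqrt (X / h) * (X : ℝ) ^ s1 := by
      exact one_le_mul_of_one_le_of_one_le hsq1 (Real.one_le_rpow hx1 hs1p.le)
    have h1 : Q ≤ (Real.sqrt (X / h) * (X : ℝ) ^ s1) ^ 2 := by
      rw [hQ]
      calc ∏ i ∈ Lc, (2 : ℝ) ^ e i ≤ ∏ _i ∈ Lc, (Real.sqrt (X / h) * (X : ℝ) ^ s1) :=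
            Finset.prod_le_prod (fun i _ => by (clear * -; positivity)) hLhi
        _ = (Real.sqrt (X / h) * (X : ℝ) ^ s1) ^ Lc.card := Finset.prod_const _
        _ ≤ _ := pow_le_pow_right₀ hB1 (by omega)
    have h2 : (Real.sqrt (X / h) * (X : ℝ) ^ s1) ^ 2 = X / h * ((X : ℝ) ^ s1) ^ 2 := by
      rw [mul_pow, Real.sq_sqrt (by (clear * - hX8 hh0; positivity))]
    have h3 : (X : ℝ) / h ≤ (X : ℝ) ^ (1 - (1 / 6 + ε)) := by
      rw [Real.rpow_sub hx0, Real.rpow_one]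
      exact div_le_div_of_nonneg_left hx0.le (by (clear * - hX8; positivity)) hh1
    have h4 : ((X : ℝ) ^ s1) ^ 2 = (X : ℝ) ^ (2 * s1) := by
      rw [← Real.rpow_natCast, ← Real.rpow_mul hx0.le]
      congr 1
      push_cast
      ring
    have h5 : Q ≤ (X : ℝ) ^ (1 - (1 / 6 + ε) + 2 * s1) := by
      rw [Real.rpow_add hx0]
      refine h1.trans ?_
      rw [h2, h4]
      exact mul_le_mul_of_nonneg_right h3 (by (clear * - hX8; positivity))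
    have h6 : (X : ℝ) ^ (1 - 12 * s) ≤ (X : ℝ) ^ (1 - (1 / 6 + ε) + 2 * s1) := hQlo.trans h5
    have hX2' : (1 : ℝ) < X := by
      by_contra hc1
      have : (X : ℝ) = 1 := le_antisymm (not_lt.mp hc1) hx1
      rw [this] at hX5
      rw [Real.one_rpow] at hX5
      norm_num at hX5
    have h7 := (Real.rpow_le_rpow_left_iff hX2').1 h6
    linarith only [hs1e, hs1c, hsp, hss1, h7]
  have hJ6 : Lc.card ≤ 6 := by
    have h1 : Lc ⊆ univ.filter (fun i : Fin 12 => 6 ≤ i.val) := by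
      intro i hi
      rw [Finset.mem_filter]
      exact ⟨Finset.mem_univ _, hL6 i hi⟩
    refine (Finset.card_le_card h1).trans ?_
    decide
  have hJ5 : Lc.card ≤ 5 := by
    by_contra hc
    have h6 : Lc.card = 6 := by omega
    have h1 : (h * (X : ℝ) ^ (-s)) ^ 6 ≤ Q := by
      rw [hQ, ← h6, ← Finset.prod_const]
      exact Finset.prod_le_prod (fun i _ => by (clear * - hX8 hh0; positivity)) hLlo
    have h2 : (X : ℝ) ^ (1 + 5 * ε) ≤ (h * (X : ℝ) ^ (-s)) ^ 6 := by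
      have h3 : (X : ℝ) ^ (1 / 6 + ε - s) ≤ h * (X : ℝ) ^ (-s) := by
        rw [sub_eq_add_neg, Real.rpow_add hx0]
        exact mul_le_mul_of_nonneg_right hh1 (by (clear * - hX8; positivity))
      calc (X : ℝ) ^ (1 + 5 * ε) ≤ (X : ℝ) ^ ((1 / 6 + ε - s) * (6 : ℕ)) :=
            hmono (by push_cast; linarith only [hs1e, hsp, hss1])
        _ = ((X : ℝ) ^ (1 / 6 + ε - s)) ^ 6 := by
            rw [Real.rpow_mul hx0.le, Real.rpow_natCast]
        _ ≤ _ := pow_le_pow_left₀ (by (clear * - hX8; positivity)) h3 6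
    have h3 : (X : ℝ) ^ (1 + 5 * ε) = X * (X : ℝ) ^ (5 * ε) := by
      rw [Real.rpow_add hx0, Real.rpow_one]
    have h4 : (X : ℝ) * (2 ^ 14 + 1) ≤ X * (X : ℝ) ^ (5 * ε) := mul_le_mul_of_nonneg_left hX7 hx0.le
    have h5 := (h2.trans h1).trans hQhi
    rw [h3] at h5
    linarith only [hs1c, hsp, hss1, hx1, hQhi, h1, h2, h3, h4]
  obtain ⟨φ, hφ, hF, hpr⟩ := Fcl_class z q y e Lc Lc.card rfl
  have hQφ : Q = ∏ j, (2 : ℝ) ^ e (φ j) := by
    rw [hQ]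
    exact hpr (fun i => (2 : ℝ) ^ e i)
  have hPs1 : (P : ℝ) ≤ (X : ℝ) ^ s1 := hPle.trans (hmono (by linarith only [hsp, hss1]))
  have hPZ : P ≤ Z := by rw [hP]; exact hprodle _
  have hD : DCl X h q Lc.card P s1 (fun j => e (φ j)) (fun j => gcl z q y e (φ j))
      (∏ i ∈ Lcᶜ, gcl z q y e i) := by
    refine ⟨hJ3, hJ5, ?_, ?_, ?_, ?_, ?_, hPs1, ?_, ?_⟩
    · intro j
      refine ⟨hLe1 _ (hφ j), ?_, hLhi _ (hφ j)⟩
      refine le_trans ?_ (hLlo _ (hφ j))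
      exact mul_le_mul_of_nonneg_left (hmono (by linarith only [hsp, hss1])) hh0.le
    · rw [← hQφ]
      exact (hmono (by linarith only [hsp, hss1])).trans hQlo
    · rw [← hQφ]
      refine hQhi.trans ?_
      rw [Real.rpow_add hx0, Real.rpow_one, mul_comm]
      exact mul_le_mul_of_nonneg_left (by linarith only [hs1c, hsp, hss1, hX6]) hx0.le
    · intro j n
      exact gcl_bound _ _ _ _ _ _
    · intro j n hn
      obtain ⟨h1, h2, h3⟩ := gcl_supp z q y e (φ j) n hn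
      rw [cell_half (hLe1 _ (hφ j))] at h1
      exact ⟨h1, h2, h3⟩
    · intro n
      by_cases hz : (∏ i ∈ Lcᶜ, gcl z q y e i) n = 0
      · rw [hz, norm_zero]
        (clear * - hX8; positivity)
      · have h1 : n ≤ Z := (Fcl_le z q y e _ n hz).trans (hprodle _)
        have h2 : 1 ≤ n := by
          rcases Nat.eq_zero_or_pos n with rfl | hn
          · simp at hz
          · exact hn
        exact (Fcl_bound z q y e _ n).trans (hX4 n h2 (h1.trans hZX))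
    · intro n hn
      refine ⟨?_, Fcl_coprime z q y e _ n hn⟩
      rw [hP]
      exact Fcl_le z q y e _ n hn
  have hPP : P * ∏ j, 2 ^ e (φ j) ≤ 2 ^ 14 * X := by
    have h1 : ((P * ∏ j, 2 ^ e (φ j) : ℕ) : ℝ) = Z := by
      push_cast
      rw [hZP, hQφ]
    have h2 : P * ∏ j, 2 ^ e (φ j) = Z := by exact_mod_cast h1
    rw [h2]
    exact hZX
  have hfin := hX1 Lc.card q h P (fun j => e (φ j)) (fun j => gcl z q y e (φ j))
    (∏ i ∈ Lcᶜ, gcl z q y e i) a (hD.mono hX8 hs10) hh1 hh2 hq1 hq2 hcop hPP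
  rw [hF]
  refine hfin.trans ?_
  exact mul_le_mul_of_nonneg_left (hmono (by linarith only [hs10, hsp, hss1])) (by (clear * - hX8 hh0; positivity))

end Pool.Agent.VM
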