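import Pool.Agent.Lib.VM.Defs
import Pool.Agent.Lib.VM.ConvBd

/-!
# Module TOneRed: removing the interval and the coprimality condition of the smooth variable

`b * ind q N1 N2` at `n` is `∑_{m k = n} b(m) [N1 < k ≤ N2] [(k,q) = 1]`. With `U < n ≤ U + 2Δ` the condition `N1 < k ≤ N2`, i.e.
`m N1 < n ≤ m N2`, is replaced by `m N1 < U ≤ m N2` (no condition on `k`), and `[(k,q)=1] = ∑_{d ∣ (k,q)} μ(d)` is truncated to `d ≤ E`.

`t1_red`. Exact identity: `(b * ind) n - ∑_{m' ∣ n} cj m' =`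
`∑_{mk=n} b(m) ([m N1 < n ≤ m N2] - [m N1 < U ≤ m N2]) [(k,q)=1] + ∑_{mk=n} b(m) [m N1 < U ≤ m N2] ∑_{d ∣ (k,q), d > E} μ(d)`
(in `cj` group `m' = m d`, `d ∣ q`, `d ≤ E`; `m' ≤ E U` because `m' / d * N1 < U`, `N1 ≥ 1`, so `Icc 1 M` with `M ≥ E U` sees every `m'`).
First sum: nonzero terms have `m N1 ∈ [U, n)` or `m N2 ∈ [U, n)`. If `U ≤ m N1 < n`: `k > N1` and `m (k - N1) = n - m N1 ≤ n - U ≤ 2Δ`;
`n = m k > U ≥ X/2` gives `X (k - N1) ≤ 2 m k (k - N1) ≤ 4 Δ k`; as `8Δ ≤ X`, `k ≤ 2 N1`, so `X (k - N1) ≤ 8 Δ N1`. The same for `N2`.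
Second sum: at most `K` times the number of pairs (`m ∣ n`, `d ∣ q` with `d > E`, `d ∣ n`).

`t1_err`. `∑_{n ≤ 4X} #{k ∣ n : N1 < k, X(k - N1) ≤ 16 Δ N1} ≤ (16 Δ N1 / X)(4 X / N1) = 64 Δ`; for fixed `d > E` there are
`≤ 4X/E` multiples `n ≤ 4X`, and `q` has `≤ X^ν'` divisors; all the counts are `≤ (τ(n))^2 ≤ X^ν'` (`tau_small`), use
`a² ≤ max * a`.
-/

set_option autoImplicit false

open Finset Filter

namespace Pool.Agent.VM

open Pool.Agent.VK Pool.Agent.HLT

noncomputable def cj (q N1 N2 E U : ℕ) (b : ArithmeticFunction ℂ) (m : ℕ) : ℂ :=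
  ∑ d ∈ q.divisors.filter (fun d => d ≤ E ∧ d ∣ m), ((ArithmeticFunction.moebius d : ℤ) : ℂ) *
    (if m / d * N1 < U ∧ U ≤ m / d * N2 then b (m / d) else 0)

noncomputable def er (X Δ q N1 N2 E n : ℕ) : ℝ :=
  ((n.divisors.filter (fun k => (N1 < k ∧ X * (k - N1) ≤ 16 * Δ * N1) ∨
    (N2 < k ∧ X * (k - N2) ≤ 16 * Δ * N2))).card : ℝ) +
    (n.divisors.card : ℝ) * ((q.divisors.filter (fun d => E < d ∧ d ∣ n)).card : ℝ)

theorem cj_bound (q N1 N2 E U : ℕ) (b : ArithmeticFunction ℂ) (K : ℝ) (hK : 0 ≤ K) (hb : ∀ m, ‖b m‖ ≤ K) (m : ℕ)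
    (hm : 1 ≤ m) : ‖cj q N1 N2 E U b m‖ ≤ K * m.divisors.card := by
  unfold cj
  refine (norm_sum_le _ _).trans ?_
  have h1 : ∀ d ∈ q.divisors.filter (fun d => d ≤ E ∧ d ∣ m),
      ‖((ArithmeticFunction.moebius d : ℤ) : ℂ) *
        (if m / d * N1 < U ∧ U ≤ m / d * N2 then b (m / d) else 0)‖ ≤ K := by
    intro d _
    rw [norm_mul, Complex.norm_intCast]
    have h2 : |((ArithmeticFunction.moebius d : ℤ) : ℝ)| ≤ 1 := by
      have := ArithmeticFunction.abs_moebius_le_one (n := d)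
      exact_mod_cast this
    have h3 : ‖(if m / d * N1 < U ∧ U ≤ m / d * N2 then b (m / d) else 0)‖ ≤ K := by
      split_ifs
      · exact hb _
      · rwa [norm_zero]
    calc |((ArithmeticFunction.moebius d : ℤ) : ℝ)| *
        ‖(if m / d * N1 < U ∧ U ≤ m / d * N2 then b (m / d) else 0)‖ ≤ 1 * K :=
          mul_le_mul h2 h3 (norm_nonneg _) zero_le_one
      _ = K := one_mul K
  refine (Finset.sum_le_sum h1).trans ?_
  rw [Finset.sum_const, nsmul_eq_mul, mul_comm]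
  apply mul_le_mul_of_nonneg_left _ hK
  have : (q.divisors.filter (fun d => d ≤ E ∧ d ∣ m)).card ≤ m.divisors.card := by
    apply Finset.card_le_card
    intro d hd
    rw [Finset.mem_filter] at hd
    exact Nat.mem_divisors.2 ⟨hd.2.2, by omega⟩
  exact_mod_cast this

/-- `cj` vanishes above `E U / N1`. -/
theorem cj_supp (q N1 N2 E U : ℕ) (b : ArithmeticFunction ℂ) (m : ℕ) (hN : 1 ≤ N1) (h : E * U ≤ m * N1) :
    cj q N1 N2 E U b m = 0 := by
  unfold cj
  refine Finset.sum_eq_zero fun d hd => ?_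
  rw [Finset.mem_filter, Nat.mem_divisors] at hd
  obtain ⟨⟨hdq, hq⟩, hdE, hdm⟩ := hd
  have hd0 : 0 < d := Nat.pos_of_dvd_of_pos hdq (Nat.pos_of_ne_zero hq)
  have h1 : ¬ (m / d * N1 < U ∧ U ≤ m / d * N2) := by
    rintro ⟨h2, -⟩
    have h3 : d * (m / d * N1) = m * N1 := by
      rw [← mul_assoc, Nat.mul_div_cancel' hdm]
    have h4 : d * U ≤ d * (m / d * N1) := by
      rw [h3]
      exact (Nat.mul_le_mul_right U hdE).trans h
    exact absurd h2 (not_lt.2 (Nat.le_of_mul_le_mul_left h4 hd0))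
  rw [if_neg h1, mul_zero]

namespace TOneRedAux

theorem sum_moebius_coprime (q k : ℕ) (hq : q ≠ 0) :
    ∑ d ∈ q.divisors.filter (fun d => d ∣ k), ((ArithmeticFunction.moebius d : ℤ) : ℂ) =
      if k.Coprime q then 1 else 0 := by
  have h1 : q.divisors.filter (fun d => d ∣ k) = (Nat.gcd k q).divisors := by
    ext d
    rw [Finset.mem_filter, Nat.mem_divisors, Nat.mem_divisors, Nat.dvd_gcd_iff]
    constructor
    · rintro ⟨⟨h1, -⟩, h2⟩
      exact ⟨⟨h2, h1⟩, fun h => hq (Nat.eq_zero_of_gcd_eq_zero_right h)⟩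
    · rintro ⟨⟨h1, h2⟩, -⟩
      exact ⟨⟨h2, hq⟩, h1⟩
  rw [h1, ← Int.cast_sum, ← ArithmeticFunction.coe_mul_zeta_apply,
    ArithmeticFunction.moebius_mul_coe_zeta, ArithmeticFunction.one_apply]
  unfold Nat.Coprime
  split_ifs <;> simp

theorem rearr (q N1 N2 E U n : ℕ) (b : ArithmeticFunction ℂ) (hn : n ≠ 0) :
    ∑ m ∈ n.divisors, cj q N1 N2 E U b m =
      ∑ x ∈ n.divisorsAntidiagonal, (if x.1 * N1 < U ∧ U ≤ x.1 * N2 then b x.1 else 0) *
        ∑ d ∈ q.divisors.filter (fun d => d ≤ E ∧ d ∣ x.2),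
          ((ArithmeticFunction.moebius d : ℤ) : ℂ) := by
  unfold cj
  have hL : ∀ m, ∑ d ∈ q.divisors.filter (fun d => d ≤ E ∧ d ∣ m),
      ((ArithmeticFunction.moebius d : ℤ) : ℂ) *
        (if m / d * N1 < U ∧ U ≤ m / d * N2 then b (m / d) else 0) =
      ∑ d ∈ q.divisors.filter (fun d => d ≤ E), if d ∣ m then
        ((ArithmeticFunction.moebius d : ℤ) : ℂ) *
        (if m / d * N1 < U ∧ U ≤ m / d * N2 then b (m / d) else 0) else 0 := by
    intro m
    rw [← Finset.sum_filter, Finset.filter_filter]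
  have hR : ∀ x : ℕ × ℕ, (if x.1 * N1 < U ∧ U ≤ x.1 * N2 then b x.1 else 0) *
        ∑ d ∈ q.divisors.filter (fun d => d ≤ E ∧ d ∣ x.2),
          ((ArithmeticFunction.moebius d : ℤ) : ℂ) =
      ∑ d ∈ q.divisors.filter (fun d => d ≤ E), if d ∣ x.2 then
        ((ArithmeticFunction.moebius d : ℤ) : ℂ) *
          (if x.1 * N1 < U ∧ U ≤ x.1 * N2 then b x.1 else 0) else 0 := by
    intro x
    rw [← Finset.sum_filter, Finset.filter_filter, Finset.mul_sum]
    exact Finset.sum_congr rfl fun d _ => mul_comm _ _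
  simp only [hL, hR]
  rw [Finset.sum_comm, Finset.sum_comm (s := n.divisorsAntidiagonal)]
  refine Finset.sum_congr rfl fun d hd => ?_
  rw [Finset.mem_filter, Nat.mem_divisors] at hd
  have hd0 : 0 < d := Nat.pos_of_dvd_of_pos hd.1.1 (Nat.pos_of_ne_zero hd.1.2)
  rw [← Finset.sum_filter, ← Finset.sum_filter]
  refine Finset.sum_nbij' (fun m => (m / d, n / (m / d))) (fun x => x.1 * d) ?_ ?_ ?_ ?_ ?_
  · intro m hm
    rw [Finset.mem_filter, Nat.mem_divisors] at hm
    obtain ⟨⟨⟨c, hc⟩, -⟩, ⟨m', rfl⟩⟩ := hm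
    have hm' : 0 < m' := by
      rcases Nat.eq_zero_or_pos m' with h | h
      · subst h; simp at hc; exact absurd hc hn
      · exact h
    rw [Finset.mem_filter, Nat.mem_divisorsAntidiagonal]
    simp only [Nat.mul_div_cancel_left m' hd0]
    have h2 : n / m' = d * c := by
      rw [hc]
      rw [show d * m' * c = m' * (d * c) by ring, Nat.mul_div_cancel_left _ hm']
    rw [h2]
    exact ⟨⟨by rw [hc]; ring, hn⟩, ⟨c, rfl⟩⟩
  · rintro ⟨a, e⟩ hx
    rw [Finset.mem_filter, Nat.mem_divisorsAntidiagonal] at hx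
    obtain ⟨⟨h1, -⟩, ⟨c, rfl⟩⟩ := hx
    rw [Finset.mem_filter, Nat.mem_divisors]
    exact ⟨⟨⟨c, by rw [← h1]; ring⟩, hn⟩, ⟨a, by ring⟩⟩
  · intro m hm
    rw [Finset.mem_filter] at hm
    exact Nat.div_mul_cancel hm.2
  · rintro ⟨a, e⟩ hx
    rw [Finset.mem_filter, Nat.mem_divisorsAntidiagonal] at hx
    obtain ⟨⟨h1, -⟩, -⟩ := hx
    simp only [Nat.mul_div_cancel a hd0]
    have ha : 0 < a := by
      rcases Nat.eq_zero_or_pos a with h | h
      · subst h; simp at h1; exact absurd h1.symm hn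
      · exact h
    rw [← h1]
    simp only [Nat.mul_div_cancel_left e ha]
  · intro m hm
    rfl

end TOneRedAux

open TOneRedAux

theorem t1_red (X Δ q N1 N2 E U M n : ℕ) (b : ArithmeticFunction ℂ) (K : ℝ) (hK : 0 ≤ K) (hb : ∀ m, ‖b m‖ ≤ K)
    (hq : 1 ≤ q) (hN1 : 1 ≤ N1) (hN : N1 ≤ N2) (hX : X ≤ 2 * U) (hΔ : 8 * Δ ≤ X) (hU : U < n) (hn : n ≤ U + 2 * Δ)
    (hM : E * U ≤ M * N1) :
    ‖(b * ind q N1 N2) n - ∑ m ∈ (Icc 1 M).filter (fun m => m ∣ n), cj q N1 N2 E U b m‖ ≤ K * er X Δ q N1 N2 E n := by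
  classical
  have hn0 : n ≠ 0 := by omega
  have hS : ∑ m ∈ (Icc 1 M).filter (fun m => m ∣ n), cj q N1 N2 E U b m =
      ∑ m ∈ n.divisors, cj q N1 N2 E U b m := by
    refine Finset.sum_subset ?_ ?_
    · intro m hm
      rw [Finset.mem_filter] at hm
      exact Nat.mem_divisors.2 ⟨hm.2, hn0⟩
    · intro m hm hm'
      rw [Nat.mem_divisors] at hm
      have hm0 : 0 < m := Nat.pos_of_dvd_of_pos hm.1 (Nat.pos_of_ne_zero hn0)
      have hmM : M < m := by
        by_contra hcon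
        exact hm' (Finset.mem_filter.2 ⟨Finset.mem_Icc.2 ⟨hm0, not_lt.1 hcon⟩, hm.1⟩)
      exact cj_supp q N1 N2 E U b m hN1 (hM.trans (Nat.mul_le_mul_right N1 hmM.le))
  rw [hS, rearr q N1 N2 E U n b hn0, ArithmeticFunction.mul_apply, ← Finset.sum_sub_distrib]
  set P : ℕ → ℝ := fun k => if (N1 < k ∧ X * (k - N1) ≤ 16 * Δ * N1) ∨
    (N2 < k ∧ X * (k - N2) ≤ 16 * Δ * N2) then 1 else 0 with hP
  set Q : ℝ := ((q.divisors.filter (fun d => E < d ∧ d ∣ n)).card : ℝ) with hQ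
  have hQ0 : 0 ≤ Q := Nat.cast_nonneg _
  have hterm : ∀ x ∈ n.divisorsAntidiagonal,
      ‖b x.1 * ind q N1 N2 x.2 - (if x.1 * N1 < U ∧ U ≤ x.1 * N2 then b x.1 else 0) *
        ∑ d ∈ q.divisors.filter (fun d => d ≤ E ∧ d ∣ x.2),
          ((ArithmeticFunction.moebius d : ℤ) : ℂ)‖ ≤ K * (P x.2 + Q) := by
    rintro ⟨m, k⟩ hx
    rw [Nat.mem_divisorsAntidiagonal] at hx
    obtain ⟨hmk, -⟩ := hx
    simp only at hmk ⊢
    have hm0 : 0 < m := by
      rcases Nat.eq_zero_or_pos m with h | h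
      · subst h; simp at hmk; exact absurd hmk.symm hn0
      · exact h
    -- split the Moebius sum
    set R : ℂ := ∑ d ∈ q.divisors.filter (fun d => E < d ∧ d ∣ k),
      ((ArithmeticFunction.moebius d : ℤ) : ℂ) with hR
    set C : ℂ := if k.Coprime q then 1 else 0 with hC
    have hsplit : ∑ d ∈ q.divisors.filter (fun d => d ≤ E ∧ d ∣ k),
          ((ArithmeticFunction.moebius d : ℤ) : ℂ) = C - R := by
      rw [hC, ← sum_moebius_coprime q k (by omega), hR, eq_sub_iff_add_eq]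
      rw [← Finset.sum_filter_add_sum_filter_not (q.divisors.filter (fun d => d ∣ k))
        (fun d => d ≤ E), Finset.filter_filter, Finset.filter_filter]
      congr 1
      · refine Finset.sum_congr ?_ fun _ _ => rfl
        ext d
        simp only [Finset.mem_filter]
        tauto
      · refine Finset.sum_congr ?_ fun _ _ => rfl
        ext d
        simp only [Finset.mem_filter, not_le]
        tauto
    have hRn : ‖R‖ ≤ Q := by
      refine (norm_sum_le _ _).trans ?_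
      calc ∑ d ∈ q.divisors.filter (fun d => E < d ∧ d ∣ k),
            ‖((ArithmeticFunction.moebius d : ℤ) : ℂ)‖
          ≤ ∑ d ∈ q.divisors.filter (fun d => E < d ∧ d ∣ k), (1 : ℝ) := by
            refine Finset.sum_le_sum fun d _ => ?_
            rw [Complex.norm_intCast]
            have := ArithmeticFunction.abs_moebius_le_one (n := d)
            exact_mod_cast this
        _ = ((q.divisors.filter (fun d => E < d ∧ d ∣ k)).card : ℝ) := by
            rw [Finset.sum_const, nsmul_eq_mul, mul_one]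
        _ ≤ Q := by
            have : (q.divisors.filter (fun d => E < d ∧ d ∣ k)).card ≤
                (q.divisors.filter (fun d => E < d ∧ d ∣ n)).card := by
              apply Finset.card_le_card
              intro d hd
              rw [Finset.mem_filter] at hd ⊢
              exact ⟨hd.1, hd.2.1, hd.2.2.trans ⟨m, by rw [← hmk]; ring⟩⟩
            rw [hQ]
            exact_mod_cast this
    have hCn : ‖C‖ ≤ 1 := by
      rw [hC]; split_ifs <;> simp
    have hind : ind q N1 N2 k = (if N1 < k ∧ k ≤ N2 then 1 else 0) * C := by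
      rw [ind_apply, hC]
      by_cases h1 : N1 < k <;> by_cases h2 : k ≤ N2 <;> by_cases h3 : k.Coprime q <;>
        simp [h1, h2, h3]
    rw [hsplit, hind]
    have hrw : b m * ((if N1 < k ∧ k ≤ N2 then 1 else 0) * C) -
        (if m * N1 < U ∧ U ≤ m * N2 then b m else 0) * (C - R) =
        b m * (((if N1 < k ∧ k ≤ N2 then 1 else 0) -
          (if m * N1 < U ∧ U ≤ m * N2 then 1 else 0)) * C +
          (if m * N1 < U ∧ U ≤ m * N2 then 1 else 0) * R) := by
      split_ifs <;> ring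
    rw [hrw, norm_mul]
    refine mul_le_mul (hb m) ?_ (norm_nonneg _) hK
    refine (norm_add_le _ _).trans (add_le_add ?_ ?_)
    · rw [norm_mul]
      have hkey : ‖((if N1 < k ∧ k ≤ N2 then 1 else 0) -
          (if m * N1 < U ∧ U ≤ m * N2 then 1 else 0) : ℂ)‖ ≤ P k := by
        by_cases hcond : (N1 < k ∧ k ≤ N2) ↔ (m * N1 < U ∧ U ≤ m * N2)
        · have : ((if N1 < k ∧ k ≤ N2 then 1 else 0) -
            (if m * N1 < U ∧ U ≤ m * N2 then 1 else 0) : ℂ) = 0 := by
            by_cases h1 : N1 < k ∧ k ≤ N2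
            · rw [if_pos h1, if_pos (hcond.1 h1), sub_self]
            · rw [if_neg h1, if_neg (fun h => h1 (hcond.2 h)), sub_self]
          rw [this, norm_zero, hP]
          dsimp only
          split_ifs <;> norm_num
        · have hP1 : P k = 1 := by
            rw [hP]
            dsimp only
            apply if_pos
            have hend : ∀ N : ℕ, U ≤ m * N → N < k → X * (k - N) ≤ 16 * Δ * N := by
              intro N h1 h2
              have h3 : m * (k - N) ≤ 2 * Δ := by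
                rw [Nat.mul_sub, hmk]
                omega
              calc X * (k - N) ≤ (2 * (m * N)) * (k - N) := by
                    apply Nat.mul_le_mul_right
                    omega
                _ = 2 * N * (m * (k - N)) := by ring
                _ ≤ 2 * N * (2 * Δ) := Nat.mul_le_mul_left _ h3
                _ ≤ 16 * Δ * N := by nlinarith only [Nat.zero_le (Δ * N)]
            have hlt : ∀ N, N < k ↔ m * N < n := by
              intro N
              rw [← hmk]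
              exact (Nat.mul_lt_mul_left hm0).symm
            by_cases h1 : N1 < k ∧ k ≤ N2
            · have h2 : ¬ (m * N1 < U ∧ U ≤ m * N2) := fun h => hcond (iff_of_true h1 h)
              have h3 : U ≤ m * N2 := by
                have : ¬ (m * N2 < n) := by rw [← hlt]; omega
                omega
              have h4 : U ≤ m * N1 := by
                by_contra h5
                exact h2 ⟨not_le.1 h5, h3⟩
              exact Or.inl ⟨h1.1, hend N1 h4 h1.1⟩
            · have h2 : m * N1 < U ∧ U ≤ m * N2 := by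
                by_contra h3
                exact hcond (iff_of_false h1 h3)
              have h3 : N1 < k := (hlt N1).2 (h2.1.trans hU)
              have h4 : N2 < k := by
                by_contra h5
                exact h1 ⟨h3, not_lt.1 h5⟩
              exact Or.inr ⟨h4, hend N2 h2.2 h4⟩
          rw [hP1]
          split_ifs <;> simp
      calc ‖((if N1 < k ∧ k ≤ N2 then 1 else 0) -
          (if m * N1 < U ∧ U ≤ m * N2 then 1 else 0) : ℂ)‖ * ‖C‖ ≤ P k * 1 :=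
            mul_le_mul hkey hCn (norm_nonneg _) ((norm_nonneg _).trans hkey)
        _ = P k := mul_one _
    · rw [norm_mul]
      have h1 : ‖(if m * N1 < U ∧ U ≤ m * N2 then 1 else 0 : ℂ)‖ ≤ 1 := by
        split_ifs <;> simp
      calc ‖(if m * N1 < U ∧ U ≤ m * N2 then 1 else 0 : ℂ)‖ * ‖R‖ ≤ 1 * Q :=
            mul_le_mul h1 hRn (norm_nonneg _) zero_le_one
        _ = Q := one_mul _
  refine (norm_sum_le _ _).trans ((Finset.sum_le_sum hterm).trans (le_of_eq ?_))
  rw [← Finset.mul_sum]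
  congr 1
  rw [Nat.sum_divisorsAntidiagonal' (fun _ k => P k + Q), Finset.sum_add_distrib, Finset.sum_const,
    nsmul_eq_mul]
  unfold er
  congr 1
  rw [hP, Finset.sum_boole]

namespace TOneRedAux

theorem mult_count (X k : ℕ) :
    ∑ n ∈ Icc 1 (4 * X), (if k ∣ n then (1 : ℝ) else 0) ≤ 4 * X / k := by
  rw [Finset.sum_boole]
  have h1 : ((Icc 1 (4 * X)).filter (fun n => k ∣ n)).card = 4 * X / k := by
    have h2 : Icc 1 (4 * X) = Ioc 0 (4 * X) := rfl
    rw [h2, Nat.Ioc_filter_dvd_card_eq_div]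
  rw [h1]
  have := @Nat.cast_div_le ℝ _ _ _ (4 * X) k
  push_cast at this
  exact this

theorem count_a (X Δ N : ℕ) (hX : 1 ≤ X) (hN : 1 ≤ N) :
    ∑ n ∈ Icc 1 (4 * X), ((n.divisors.filter (fun k => N < k ∧ X * (k - N) ≤ 16 * Δ * N)).card : ℝ)
      ≤ 64 * Δ := by
  have hX0 : (0 : ℝ) < X := by exact_mod_cast hX
  have hN0 : (0 : ℝ) < N := by exact_mod_cast hN
  have h1 : ∀ n ∈ Icc 1 (4 * X),
      ((n.divisors.filter (fun k => N < k ∧ X * (k - N) ≤ 16 * Δ * N)).card : ℝ) ≤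
      ∑ k ∈ (Icc 1 (4 * X)).filter (fun k => N < k ∧ X * (k - N) ≤ 16 * Δ * N),
        (if k ∣ n then (1 : ℝ) else 0) := by
    intro n hn
    rw [Finset.mem_Icc] at hn
    rw [Finset.sum_boole]
    have : (n.divisors.filter (fun k => N < k ∧ X * (k - N) ≤ 16 * Δ * N)) ⊆
        ((Icc 1 (4 * X)).filter (fun k => N < k ∧ X * (k - N) ≤ 16 * Δ * N)).filter
          (fun k => k ∣ n) := by
      intro k hk
      rw [Finset.mem_filter, Nat.mem_divisors] at hk
      rw [Finset.mem_filter, Finset.mem_filter, Finset.mem_Icc]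
      have hk0 : 0 < k := Nat.pos_of_dvd_of_pos hk.1.1 (by omega)
      have hkn := Nat.le_of_dvd (by omega) hk.1.1
      exact ⟨⟨⟨hk0, by omega⟩, hk.2⟩, hk.1.1⟩
    exact_mod_cast Finset.card_le_card this
  refine (Finset.sum_le_sum h1).trans ?_
  rw [Finset.sum_comm]
  have h2 : ∀ k ∈ (Icc 1 (4 * X)).filter (fun k => N < k ∧ X * (k - N) ≤ 16 * Δ * N),
      ∑ n ∈ Icc 1 (4 * X), (if k ∣ n then (1 : ℝ) else 0) ≤ 4 * X / N := by
    intro k hk
    rw [Finset.mem_filter] at hk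
    refine (mult_count X k).trans ?_
    have : (N : ℝ) ≤ k := by exact_mod_cast hk.2.1.le
    exact div_le_div_of_nonneg_left (by positivity) hN0 this
  refine (Finset.sum_le_sum h2).trans ?_
  rw [Finset.sum_const, nsmul_eq_mul]
  have h3 : (((Icc 1 (4 * X)).filter (fun k => N < k ∧ X * (k - N) ≤ 16 * Δ * N)).card : ℝ) ≤
      16 * Δ * N / X := by
    have h4 : ((Icc 1 (4 * X)).filter (fun k => N < k ∧ X * (k - N) ≤ 16 * Δ * N)) ⊆
        Ioc N (N + 16 * Δ * N / X) := by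
      intro k hk
      rw [Finset.mem_filter] at hk
      rw [Finset.mem_Ioc]
      refine ⟨hk.2.1, ?_⟩
      have : k - N ≤ 16 * Δ * N / X := by
        rw [Nat.le_div_iff_mul_le (by omega)]
        rw [mul_comm]
        exact hk.2.2
      omega
    have h5 := Finset.card_le_card h4
    rw [Nat.card_Ioc, Nat.add_sub_cancel_left] at h5
    have h6 : ((16 * Δ * N / X : ℕ) : ℝ) ≤ 16 * Δ * N / X := by
      have := @Nat.cast_div_le ℝ _ _ _ (16 * Δ * N) X
      push_cast at this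
      exact this
    exact (by exact_mod_cast h5 : (((Icc 1 (4 * X)).filter
      (fun k => N < k ∧ X * (k - N) ≤ 16 * Δ * N)).card : ℝ) ≤ ((16 * Δ * N / X : ℕ) : ℝ)).trans h6
  calc (((Icc 1 (4 * X)).filter (fun k => N < k ∧ X * (k - N) ≤ 16 * Δ * N)).card : ℝ) *
        (4 * X / N) ≤ (16 * Δ * N / X) * (4 * X / N) :=
        mul_le_mul_of_nonneg_right h3 (by positivity)
    _ = 64 * Δ := by field_simp; ring

theorem count_d (X q E : ℕ) (hE : 1 ≤ E) :
    ∑ n ∈ Icc 1 (4 * X), ((q.divisors.filter (fun d => E < d ∧ d ∣ n)).card : ℝ) ≤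
      q.divisors.card * (4 * X / E) := by
  have hE0 : (0 : ℝ) < E := by exact_mod_cast hE
  have h1 : ∀ n, ((q.divisors.filter (fun d => E < d ∧ d ∣ n)).card : ℝ) =
      ∑ d ∈ q.divisors.filter (fun d => E < d), (if d ∣ n then (1 : ℝ) else 0) := by
    intro n
    rw [Finset.sum_boole, Finset.filter_filter]
  simp only [h1]
  rw [Finset.sum_comm]
  have h2 : ∀ d ∈ q.divisors.filter (fun d => E < d),
      ∑ n ∈ Icc 1 (4 * X), (if d ∣ n then (1 : ℝ) else 0) ≤ 4 * X / E := by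
    intro d hd
    rw [Finset.mem_filter] at hd
    refine (mult_count X d).trans ?_
    have : (E : ℝ) ≤ d := by exact_mod_cast hd.2.le
    exact div_le_div_of_nonneg_left (by positivity) hE0 this
  refine (Finset.sum_le_sum h2).trans ?_
  rw [Finset.sum_const, nsmul_eq_mul]
  apply mul_le_mul_of_nonneg_right _ (by positivity)
  exact_mod_cast Finset.card_le_card (Finset.filter_subset _ _)

theorem er_sq (X Δ q N1 N2 E n : ℕ) (T : ℝ) (hT : 1 ≤ T) (hn : (n.divisors.card : ℝ) ≤ T)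
    (hq : (q.divisors.card : ℝ) ≤ T) : er X Δ q N1 N2 E n ^ 2 ≤ 2 * T *
      (((n.divisors.filter (fun k => N1 < k ∧ X * (k - N1) ≤ 16 * Δ * N1)).card : ℝ) +
      ((n.divisors.filter (fun k => N2 < k ∧ X * (k - N2) ≤ 16 * Δ * N2)).card : ℝ)) +
      2 * T ^ 3 * ((q.divisors.filter (fun d => E < d ∧ d ∣ n)).card : ℝ) := by
  unfold er
  set a : ℝ := ((n.divisors.filter (fun k => (N1 < k ∧ X * (k - N1) ≤ 16 * Δ * N1) ∨
    (N2 < k ∧ X * (k - N2) ≤ 16 * Δ * N2))).card : ℝ) with ha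
  set d : ℝ := ((q.divisors.filter (fun d => E < d ∧ d ∣ n)).card : ℝ) with hd
  set τ : ℝ := (n.divisors.card : ℝ) with hτ
  have ha0 : 0 ≤ a := Nat.cast_nonneg _
  have hd0 : 0 ≤ d := Nat.cast_nonneg _
  have hτ0 : 0 ≤ τ := Nat.cast_nonneg _
  have ha1 : a ≤ T := le_trans (by
    rw [ha, hτ]
    exact_mod_cast Finset.card_le_card (Finset.filter_subset _ _)) hn
  have hd1 : d ≤ T := le_trans (by
    rw [hd]
    exact_mod_cast Finset.card_le_card (Finset.filter_subset _ _)) hq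
  have ha2 : a ≤ ((n.divisors.filter (fun k => N1 < k ∧ X * (k - N1) ≤ 16 * Δ * N1)).card : ℝ) +
      ((n.divisors.filter (fun k => N2 < k ∧ X * (k - N2) ≤ 16 * Δ * N2)).card : ℝ) := by
    rw [ha, Finset.filter_or]
    exact_mod_cast Finset.card_union_le _ _
  have h1 : a ^ 2 ≤ T * a := by nlinarith
  have h2 : (τ * d) ^ 2 ≤ T ^ 3 * d := by
    have h3 : τ ^ 2 ≤ T ^ 2 := pow_le_pow_left₀ hτ0 hn 2
    have h4 : d ^ 2 ≤ T * d := by nlinarith
    calc (τ * d) ^ 2 = τ ^ 2 * d ^ 2 := by ring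
      _ ≤ T ^ 2 * (T * d) := mul_le_mul h3 h4 (by positivity) (by positivity)
      _ = T ^ 3 * d := by ring
  calc (a + τ * d) ^ 2 ≤ 2 * a ^ 2 + 2 * (τ * d) ^ 2 := by nlinarith only [sq_nonneg (a - τ * d)]
    _ ≤ 2 * (T * a) + 2 * (T ^ 3 * d) := by linarith only [h1, h2]
    _ ≤ _ := by
      have h5 : T * a ≤ T * (((n.divisors.filter (fun k => N1 < k ∧ X * (k - N1) ≤ 16 * Δ * N1)).card : ℝ) +
        ((n.divisors.filter (fun k => N2 < k ∧ X * (k - N2) ≤ 16 * Δ * N2)).card : ℝ)) :=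
        mul_le_mul_of_nonneg_left ha2 (by linarith only [hT])
      linarith only [h5]

end TOneRedAux

theorem t1_err (ν : ℝ) (hν : 0 < ν) : ∀ᶠ X : ℕ in atTop, ∀ Δ q N1 N2 E : ℕ, 1 ≤ N1 → 1 ≤ N2 → 1 ≤ E → 1 ≤ q → q ≤ X →
    ∑ n ∈ Icc 1 (4 * X), er X Δ q N1 N2 E n ^ 2 ≤ (X : ℝ) ^ ν * (Δ + X / E) := by
  obtain ⟨C, hC1, hC⟩ := tau_small (ν / 10) (by positivity)
  have hlim : ∀ᶠ X : ℕ in atTop, 256 * (C * 4 ^ (ν / 10)) ^ 4 ≤ (X : ℝ) ^ (6 * ν / 10) :=
    ((tendsto_rpow_atTop (by positivity : 0 < 6 * ν / 10)).comp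
      tendsto_natCast_atTop_atTop).eventually_ge_atTop _
  filter_upwards [hlim, eventually_ge_atTop 1] with X hX1 hX0
  intro Δ q N1 N2 E hN1 hN2 hE hq hqX
  have hXr : (1 : ℝ) ≤ X := by exact_mod_cast hX0
  have hXp : (0 : ℝ) < X := by linarith only [hXr]
  have hEp : (0 : ℝ) < E := by exact_mod_cast hE
  set T : ℝ := C * (4 * X : ℝ) ^ (ν / 10) with hT
  have hT1 : 1 ≤ T := by
    rw [hT]
    have : (1 : ℝ) ≤ (4 * X : ℝ) ^ (ν / 10) := Real.one_le_rpow (by linarith only [hXr]) (by positivity)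
    nlinarith only [hC1, this]
  have htau : ∀ n, 1 ≤ n → n ≤ 4 * X → (n.divisors.card : ℝ) ≤ T := by
    intro n hn1 hn2
    refine (hC n hn1).trans ?_
    apply mul_le_mul_of_nonneg_left _ (by linarith only [hC1])
    apply Real.rpow_le_rpow (Nat.cast_nonneg _) _ (by positivity)
    exact_mod_cast hn2
  have hqT : (q.divisors.card : ℝ) ≤ T := htau q hq (by omega)
  have hsum : ∑ n ∈ Icc 1 (4 * X), er X Δ q N1 N2 E n ^ 2 ≤
      2 * T * (64 * Δ + 64 * Δ) + 2 * T ^ 3 * (T * (4 * X / E)) := by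
    refine (Finset.sum_le_sum fun n hn => er_sq X Δ q N1 N2 E n T hT1
      (htau n (Finset.mem_Icc.1 hn).1 (Finset.mem_Icc.1 hn).2) hqT).trans ?_
    rw [Finset.sum_add_distrib, ← Finset.mul_sum, ← Finset.mul_sum, Finset.sum_add_distrib]
    refine add_le_add ?_ ?_
    · exact mul_le_mul_of_nonneg_left (add_le_add (count_a X Δ N1 hX0 hN1)
        (count_a X Δ N2 hX0 hN2)) (by linarith only [hT1])
    · refine mul_le_mul_of_nonneg_left ((count_d X q E hE).trans ?_) (by positivity)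
      exact mul_le_mul_of_nonneg_right hqT (by positivity)
  have hT4 : T ≤ T ^ 4 := by
    calc T = T ^ 1 := (pow_one T).symm
      _ ≤ T ^ 4 := pow_le_pow_right₀ hT1 (by norm_num)
  have hT4' : T ^ 4 = (C * 4 ^ (ν / 10)) ^ 4 * (X : ℝ) ^ (4 * ν / 10) := by
    rw [hT, Real.mul_rpow (by norm_num) hXp.le, ← mul_assoc, mul_pow, ← Real.rpow_natCast (_ ^ _) 4,
      ← Real.rpow_mul hXp.le]
    congr 2
    push_cast
    ring
  have hfin : 256 * T ^ 4 ≤ (X : ℝ) ^ ν := by
    rw [hT4']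
    calc 256 * ((C * 4 ^ (ν / 10)) ^ 4 * (X : ℝ) ^ (4 * ν / 10))
        = (256 * (C * 4 ^ (ν / 10)) ^ 4) * (X : ℝ) ^ (4 * ν / 10) := by ring
      _ ≤ (X : ℝ) ^ (6 * ν / 10) * (X : ℝ) ^ (4 * ν / 10) :=
          mul_le_mul_of_nonneg_right hX1 (by positivity)
      _ = (X : ℝ) ^ ν := by
          rw [← Real.rpow_add hXp]
          congr 1
          ring
  have hΔ0 : (0 : ℝ) ≤ Δ := Nat.cast_nonneg _
  have hXE : (0 : ℝ) ≤ X / E := by positivity
  calc ∑ n ∈ Icc 1 (4 * X), er X Δ q N1 N2 E n ^ 2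
      ≤ 2 * T * (64 * Δ + 64 * Δ) + 2 * T ^ 3 * (T * (4 * X / E)) := hsum
    _ = 256 * T * Δ + 8 * T ^ 4 * (X / E) := by ring
    _ ≤ 256 * T ^ 4 * Δ + 256 * T ^ 4 * (X / E) := by
        refine add_le_add ?_ ?_
        · exact mul_le_mul_of_nonneg_right (by linarith only [hT4]) hΔ0
        · exact mul_le_mul_of_nonneg_right (by nlinarith only [hT1, hT4, pow_nonneg (by linarith only [hT1] : (0:ℝ) ≤ T) 4]) hXE
    _ = 256 * T ^ 4 * (Δ + X / E) := by ring
    _ ≤ (X : ℝ) ^ ν * (Δ + X / E) := mul_le_mul_of_nonneg_right hfin (by positivity)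

end Pool.Agent.VM
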